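import Mathlib

-- part Pool.Agent.Lib.MP_3bda03_nt.Defs
section

/-!
Definitions for the proof that in every large dimension some lattice has an Epstein zeta function
without positive real zeros (isodual torus ensemble, inclusion-exclusion hole, second moments).
-/

set_option autoImplicit false

noncomputable section

open scoped BigOperators Classical
open MeasureTheory Real Complex

namespace Pool.Agent.Eps

/-! ### The ensemble -/

abbrev Zv (m : ℕ) := Fin m → ℤ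
abbrev Ev (m : ℕ) := EuclideanSpace ℝ (Fin m)
abbrev Xs (m : ℕ) := Fin m × Fin m → ℝ

/-- integer vector as a point of Euclidean space -/
def iv {m : ℕ} (k : Zv m) : Ev m := WithLp.toLp 2 (fun p => (k p : ℝ))

/-- the antisymmetric matrix attached to a sample point -/
def Th {m : ℕ} (x : Xs m) (p q : Fin m) : ℝ := x (p, q) - x (q, p)

/-- the fixed irrational gluing matrix of the middle block -/
def Bm (m r : ℕ) (i : Fin r) (q : Fin m) : ℝ := if (i : ℕ) = (q : ℕ) then √2 else 0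

def Bk {m : ℕ} (r : ℕ) (k : Zv m) (i : Fin r) : ℝ := ∑ q, Bm m r i q * k q

def yv {m r : ℕ} (x : Xs m) (k : Zv m) (j : Zv r) (p : Fin m) : ℝ :=
  ∑ q, Th x p q * k q - ∑ i, Bm m r i p * (j i + Bk r k i / 2)

/-- squared length of the lattice point with coordinates `(k, j, l)` -/
def rho {m r : ℕ} (ω : ℝ) (x : Xs m) (k : Zv m) (jl : Zv r × Zv m) : ℝ :=
  ω ^ 2 * ‖iv k‖ ^ 2 + ∑ i, (jl.1 i + Bk r k i) ^ 2 + ∑ p, (jl.2 p + yv x k jl.1 p) ^ 2 / ω ^ 2

/-- fibre sum of a radial function -/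
def FS {m : ℕ} (r : ℕ) (ω : ℝ) (φ : ℝ → ℝ) (k : Zv m) (x : Xs m) : ℝ :=
  ∑' jl : Zv r × Zv m, φ (rho ω x k jl)

/-- fibre sum of a complex Gaussian -/
def Fz {m : ℕ} (r : ℕ) (ω : ℝ) (z : ℂ) (k : Zv m) (x : Xs m) : ℂ :=
  ∑' jl : Zv r × Zv m, cexp (-(π : ℂ) * z * (rho ω x k jl : ℝ))

/-- real Gaussian profile -/
def ft (t ρ : ℝ) : ℝ := rexp (-π * t * ρ)

/-- the Gaussian sum over the fibre of the origin -/
def F00 (m r : ℕ) (ω β : ℝ) : ℝ := FS r ω (ft β) (0 : Zv m) 0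

def isq (z : ℂ) : ℂ := z ^ (-(1 / 2) : ℂ)

def ee (t : ℝ) : ℂ := cexp (2 * π * I * t)

def Dz {r : ℕ} (z : ℂ) (w w' : Fin r → ℝ) : ℂ :=
  ∑' j : Zv r, cexp (-(π : ℂ) * z * ((∑ i, (j i + w i) ^ 2 : ℝ) : ℂ)) *
    ee (-∑ i, w' i * (j i + w i / 2))

/-- Fourier coefficient of the fibre sum -/
def Cp {m : ℕ} (r : ℕ) (ω : ℝ) (z : ℂ) (k η : Zv m) : ℂ :=
  ((ω : ℂ) * isq z) ^ m *
    cexp (-(π : ℂ) * (ω : ℂ) ^ 2 * (z * ((‖iv k‖ ^ 2 : ℝ) : ℂ) + ((‖iv η‖ ^ 2 : ℝ) : ℂ) / z)) *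
    Dz z (Bk r k) (Bk r η)

/-- the character of the sample space attached to a pair of integer vectors -/
def ch {m : ℕ} (η k : Zv m) (x : Xs m) : ℂ := ee (∑ p, ∑ q, η p * Th x p q * k q)

/-- the unit cube, with Lebesgue measure a probability space -/
def PP (m : ℕ) : Measure (Xs m) := volume.restrict (Set.Icc 0 1)

/-- the alternating form that decides whether a character survives averaging -/
def wed {m : ℕ} (η k : Zv m) (v w : Ev m) : ℝ :=
  inner ℝ (iv η) v * inner ℝ (iv k) w - inner ℝ (iv η) w * inner ℝ (iv k) v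

/-- the product of three characters is not killed by averaging over the translations fixing `W` -/
def Surv {m : ℕ} (W : Submodule ℝ (Ev m)) (η₁ k₁ η₂ k₂ η₃ k₃ : Zv m) : Prop :=
  ∀ v ∈ Wᗮ, ∀ w ∈ Wᗮ, wed η₁ k₁ v w + wed η₂ k₂ v w + wed η₃ k₃ v w = 0

/-- weights in `[0,1]` that are periodic and invariant under the translations fixing `W` -/
structure InvW {m : ℕ} (W : Submodule ℝ (Ev m)) (H : Xs m → ℝ) : Prop where
  meas : Measurable H
  nonneg : ∀ x, 0 ≤ H x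
  le_one : ∀ x, H x ≤ 1
  per : ∀ (N : Fin m × Fin m → ℤ) (x : Xs m), H (x + fun i => (N i : ℝ)) = H x
  inv : ∀ v ∈ Wᗮ, ∀ w ∈ Wᗮ, ∀ (s : ℝ) (x : Xs m), H (x + fun i => s * v i.1 * w i.2) = H x

/-! ### Lattice sums over subspaces -/

/-- theta series of the integer points of `W` -/
def th {m : ℕ} (ω : ℝ) (W : Submodule ℝ (Ev m)) (β : ℝ) : ℝ :=
  ∑' κ : Zv m, if iv κ ∈ W then rexp (-π * β * (ω ^ 2 * ‖iv κ‖ ^ 2)) else 0

/-- the same without the origin -/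
def th0 {m : ℕ} (ω : ℝ) (W : Submodule ℝ (Ev m)) (β : ℝ) : ℝ :=
  ∑' κ : Zv m, if iv κ ∈ W ∧ κ ≠ 0 then rexp (-π * β * (ω ^ 2 * ‖iv κ‖ ^ 2)) else 0

/-- the span of `W` and one more integer vector -/
def ext {m : ℕ} (W : Submodule ℝ (Ev m)) (k : Zv m) : Submodule ℝ (Ev m) :=
  W ⊔ Submodule.span ℝ {iv k}

/-- scaled distance between consecutive layers of the integer points of `ext W k` -/
def dk {m : ℕ} (ω : ℝ) (W : Submodule ℝ (Ev m)) (k : Zv m) : ℝ :=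
  ω * sInf {d : ℝ | ∃ η : Zv m, iv η ∈ ext W k ∧ iv η ∉ W ∧ d = Metric.infDist (iv η) (W : Set (Ev m))}

def spanS {m : ℕ} (S : Finset (Zv m)) : Submodule ℝ (Ev m) := Submodule.span ℝ (iv '' (S : Set (Zv m)))

/-! ### Parameters depending on the dimension `n`; `m = n / 2`, `r = n % 2` -/

/-- the real number `m / 2` -/
def mh (n : ℕ) : ℝ := ((n / 2 : ℕ) : ℝ) / 2

def TT (n : ℕ) : ℝ := 77 / 2000 * n

def rho1 (n : ℕ) : ℝ := (TT n * Real.Gamma ((n : ℝ) / 2 + 1)) ^ ((2 : ℝ) / n) / π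

def thn (n : ℕ) : ℝ := (Real.log n) ^ 2

def En (n : ℕ) : ℝ := rexp (n / √(Real.log n))

def MM (n : ℕ) : ℕ := 3 * n / 40

/-- steep ramp -/
def ramp (n : ℕ) (u : ℝ) : ℝ := max 0 (min 1 (rexp n * u))

/-- the hole profile -/
def aa (n : ℕ) (ρ : ℝ) : ℝ := ramp n (rho1 n - ρ)

/-- the cut-off profile, equal to one on the support of `aa` -/
def a2 (n : ℕ) (ρ : ℝ) : ℝ := ramp n (rho1 n + rexp (-n) - ρ)

/-- integral of a radial function over `ℝⁿ` -/
def In (n : ℕ) (φ : ℝ → ℝ) : ℝ := ∫ y : Ev n, φ (‖y‖ ^ 2)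

/-- nonzero integer vectors of scaled length at most `n` -/
def Kn (n : ℕ) (ω : ℝ) : Finset (Zv (n / 2)) :=
  (Fintype.piFinset fun _ => Finset.Icc (-⌈(n : ℝ) / ω⌉) ⌈(n : ℝ) / ω⌉).filter
    fun k => k ≠ 0 ∧ ω * ‖iv k‖ ≤ n

/-- lexicographically positive vectors that can carry a point of the hole -/
def Kp (n : ℕ) (ω : ℝ) : Finset (Zv (n / 2)) :=
  (Kn n ω).filter fun k => toLex 0 < toLex k ∧ ω ^ 2 * ‖iv k‖ ^ 2 ≤ rho1 n + 1

def Env (n lvl : ℕ) (β : ℝ) : ℝ :=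
  En n ^ (lvl + 1) * (max 1 (4 ^ lvl / (β * Real.log n))) ^ (MM n + lvl)

/-- admissible subspaces -/
structure Adm (n : ℕ) (ω : ℝ) (W : Submodule ℝ (Ev (n / 2))) (D : ℝ) (lvl : ℕ) : Prop where
  gen : ∃ G : Finset (Zv (n / 2)), W = spanS G ∧ G.card ≤ MM n + lvl ∧ ∀ g ∈ G, ω * ‖iv g‖ ≤ n
  one_le : 1 ≤ D
  th_le : ∀ β : ℝ, 0 < β → th ω W β ≤ D * Env n lvl β

def chi (n : ℕ) (ρ : ℝ) : ℝ :=
  ∑ j ∈ Finset.Icc (1 : ℕ) 1000,
    (1 + ((j : ℝ) + 1) / (1000 * rexp 1)) ^ mh n * rexp (-π * ((j : ℝ) / 1000) * ρ)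

/-- the shift functional -/
def Sh (n : ℕ) (ω : ℝ) (W : Submodule ℝ (Ev (n / 2))) : ℝ :=
  ∑' κ : Zv (n / 2), if iv κ ∈ W ∧ κ ≠ 0 then chi n (ω ^ 2 * ‖iv κ‖ ^ 2) else 0

def Lz (τ : ℝ) : ℝ := if τ ≤ 1.38 then 1 else 1.0095

/-- normalisation of a complex Gaussian with real part `τ` -/
def Nz (n : ℕ) (τ : ℝ) : ℝ := (2 * τ * Lz τ) ^ (-mh n)

/-- normalisation at the real parameter `t` -/
def Nt (n : ℕ) (t : ℝ) : ℝ :=
  if t ≤ 1.38 then (2 * t) ^ (-(n : ℝ) / 4) else rexp (-π * t * rho1 n)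

/-- the complex parameters that occur -/
def Adz (z : ℂ) : Prop := (z.im = 0 ∧ 1 ≤ z.re ∧ z.re ≤ 3 / 2) ∨ z.re = 1.45 ∨ z.re = 1.55

/-! ### Decomposition of the truncated theta series relative to a subspace -/

section
variable (n : ℕ) (ω : ℝ)

def Pz (W : Submodule ℝ (Ev (n / 2))) (z : ℂ) (k : Zv (n / 2)) (x : Xs (n / 2)) : ℂ :=
  ∑' η : Zv (n / 2), if iv η ∈ W then 0 else Cp (n % 2) ω z k η * ch η k x

def Osc (W : Submodule ℝ (Ev (n / 2))) (z : ℂ) (x : Xs (n / 2)) : ℂ :=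
  ∑ k ∈ (Kn n ω).filter (fun k => iv k ∉ W), Pz n ω W z k x

def Str (W : Submodule ℝ (Ev (n / 2))) (z : ℂ) (x : Xs (n / 2)) : ℂ :=
  ∑ k ∈ (Kn n ω).filter (fun k => iv k ∈ W), Fz (n % 2) ω z k x

def Mir (W : Submodule ℝ (Ev (n / 2))) (z : ℂ) (x : Xs (n / 2)) : ℂ :=
  isq z ^ n * ∑' η : Zv (n / 2), if iv η ∈ W ∧ η ≠ 0 then Fz (n % 2) ω z⁻¹ η x else 0

def Wz (z : ℂ) (x : Xs (n / 2)) : ℂ := ∑ k ∈ Kn n ω, Fz (n % 2) ω z k x - isq z ^ n

def Rem (W : Submodule ℝ (Ev (n / 2))) (z : ℂ) (x : Xs (n / 2)) : ℂ :=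
  Wz n ω z x - Str n ω W z x - Mir n ω W z x - Osc n ω W z x

def Del (z : ℂ) : ℂ := ∑ k ∈ Kn n ω, (Cp (n % 2) ω z k k + Cp (n % 2) ω z k (-k))

def Mr (z z' : ℂ) : ℂ :=
  ∑ k ∈ Kn n ω, ∑ k' ∈ Kn n ω,
    (Cp (n % 2) ω z k k' * starRingEnd ℂ (Cp (n % 2) ω z' k' (-k)) +
      Cp (n % 2) ω z k (-k') * starRingEnd ℂ (Cp (n % 2) ω z' k' k))

/-- the limiting covariance -/
def KK (z z' : ℂ) : ℂ :=
  2 * isq (z + starRingEnd ℂ z') ^ n + 2 * Del n ω (z + starRingEnd ℂ z') +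
    Del n ω z * starRingEnd ℂ (Del n ω z') + Mr n ω z z'

/-- standard error term -/
def Err (W : Submodule ℝ (Ev (n / 2))) (D : ℝ) : ℝ :=
  rexp (-0.0392 * n) * (D ^ 3 + D * Sh n ω W)

/-! ### Nice sets, the hole weight -/

/-- analytic niceness and primitivity of a finite set of integer vectors -/
structure Nice (S : Finset (Zv (n / 2))) : Prop where
  an : ∀ ξ : Zv (n / 2) → ℤ,
    thn n * ∑ k ∈ S, |(ξ k : ℝ)| ≤ ω ^ 2 * ‖iv (∑ k ∈ S, ξ k • k)‖ ^ 2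
  prim : ∀ η : Zv (n / 2), iv η ∈ spanS S → ∃ ξ : Zv (n / 2) → ℤ, η = ∑ k ∈ S, ξ k • k

/-- nice subsets of `Kp` with at most `M` elements -/
def Dl (M : ℕ) : Finset (Finset (Zv (n / 2))) :=
  (Kp n ω).powerset.filter fun S => Nice n ω S ∧ S.card ≤ M

def AA (k : Zv (n / 2)) (x : Xs (n / 2)) : ℝ := FS (n % 2) ω (aa n) k x

def AS (S : Finset (Zv (n / 2))) (x : Xs (n / 2)) : ℝ := ∏ k ∈ S, AA n ω k x

def ww (x : Xs (n / 2)) : ℝ := ∏ k ∈ Kp n ω, (1 - AA n ω k x)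

def Maj (k : Zv (n / 2)) : ℝ :=
  100 * n * rexp (π * rexp 1 * rho1 n) * (ω * rexp (-1 / 2)) ^ (n / 2) *
    rexp (-π * rexp 1 * (ω ^ 2 * ‖iv k‖ ^ 2))

def mu1 (k : Zv (n / 2)) : ℝ := ∫ x, AA n ω k x ∂PP (n / 2)

def pp (k : Zv (n / 2)) : ℝ :=
  (if Nice n ω {k} then mu1 n ω k else 0) + Maj n ω k / (n : ℝ) ^ 4

/-- weights that are comparable with the majorant and have total mass about `T / 2` -/
structure Wt (p : Zv (n / 2) → ℝ) : Prop where
  le_maj : ∀ k ∈ Kp n ω, p k ≤ 3 * Maj n ω k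
  maj_le : ∀ k ∈ Kp n ω, Maj n ω k ≤ (n : ℝ) ^ 4 * p k
  sum_le : ∑ k ∈ Kp n ω, p k ≤ TT n / 2 + 1

/-! ### The noise process -/

def hh (t ρ : ℝ) : ℝ :=
  ft t ρ * (1 - a2 n ρ) - if t ≤ 3 / 2 then t ^ (-(n : ℝ) / 2) * ft t⁻¹ ρ * a2 n ρ else 0

def Vt (t : ℝ) (x : Xs (n / 2)) : ℝ :=
  ∑ k ∈ Kn n ω, FS (n % 2) ω (hh n t) k x - In n (hh n t)

/-- the theta series of the lattice -/
def theta (x : Xs (n / 2)) (t : ℝ) : ℝ := ∑' k : Zv (n / 2), FS (n % 2) ω (ft t) k x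

/-- the part of the noise carried by the integer points of `W`, real Gaussians only -/
def Sg (W : Submodule ℝ (Ev (n / 2))) (t : ℝ) (x : Xs (n / 2)) : ℝ :=
  ∑ k ∈ (Kn n ω).filter (fun k => iv k ∈ W), FS (n % 2) ω (hh n t) k x +
    if t ≤ 3 / 2 then t ^ (-(n : ℝ) / 2) *
      ∑' η : Zv (n / 2), (if iv η ∈ W ∧ η ≠ 0 then FS (n % 2) ω (ft t⁻¹) η x else 0) else 0

/-- profile of the thin shell around the hole radius -/
def bb (ρ : ℝ) : ℝ :=
  ramp n (rho1 n + 2 * rexp (-n) - ρ) - ramp n (rho1 n - rexp (-n) - ρ)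

/-- Gaussian cut off below the hole radius -/
def cutG (ρ : ℝ) : ℝ := if rho1 n ≤ ρ then rexp (-π * (2 / 3) * (ρ - rho1 n)) else 0

end

/-- upper bound for `θ(t) - 1 - t^(-n/2)` in terms of the centred noise value `u` -/
def Ub (n : ℕ) (u t : ℝ) : ℝ :=
  u + (if t ≤ 1.1 then 7 * (t ^ 2 + 1) ^ (-mh n) else 0) + rexp (-0.0003 * n) * Nt n t -
    In n (fun ρ => ft t ρ * a2 n ρ)

/-- the moment information about the noise process -/
structure Mom (n : ℕ) {Ω : Type} [MeasurableSpace Ω] (μ : Measure Ω) (U : ℝ → Ω → ℝ) : Prop where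
  meas : Measurable (Function.uncurry U)
  bdd : ∃ C : ℝ, ∀ t ∈ Set.Icc (1 : ℝ) 3, ∀ x, |U t x| ≤ C
  first : ∀ t ∈ Set.Icc (1 : ℝ) 3, |∫ x, U t x ∂μ| ≤ rexp (-0.0003 * n) * Nt n t
  second : ∀ t ∈ Set.Icc (1 : ℝ) 3, ∀ t' ∈ Set.Icc (1 : ℝ) 3,
    |∫ x, U t x * U t' x ∂μ - 2 * In n (fun ρ => hh n t ρ * hh n t' ρ)| ≤
      (if t ≤ 1.1 ∧ t' ≤ 1.1 then 20 * (1 + t * t') ^ (-2 * mh n) else 0) +
        rexp (-0.0003 * n) * Nt n t * Nt n t'

end Pool.Agent.Eps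
end
end

-- part Pool.Agent.Lib.MP_3bda03_nt.Gauss
section

set_option autoImplicit false

noncomputable section

open scoped BigOperators Classical Topology
open MeasureTheory Real Complex Filter

namespace Pool.Agent.Eps

variable {m r : ℕ}

namespace Gs
end Gs
open Gs

theorem iv_add (k k' : Zv m) : iv (k + k') = iv k + iv k' := by
  ext p; simp [iv]

theorem iv_neg (k : Zv m) : iv (-k) = -iv k := by
  ext p; simp [iv]

theorem iv_sub (k k' : Zv m) : iv (k - k') = iv k - iv k' := by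
  ext p; simp [iv]

theorem iv_zsmul (c : ℤ) (k : Zv m) : iv (c • k) = (c : ℝ) • iv k := by
  ext p; simp [iv]

theorem iv_zero : iv (0 : Zv m) = 0 := by
  ext p; simp [iv]

theorem iv_injective : Function.Injective (iv : Zv m → Ev m) := by
  intro k k' h
  funext p
  have := congrArg (fun v : Ev m => v p) h
  simpa [iv] using this

theorem iv_sum {ι : Type*} (s : Finset ι) (f : ι → Zv m) :
    iv (∑ i ∈ s, f i) = ∑ i ∈ s, iv (f i) := by
  induction s using Finset.induction_on with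
  | empty => simp [iv_zero]
  | insert a s ha ih => rw [Finset.sum_insert ha, Finset.sum_insert ha, iv_add, ih]

theorem norm_iv_sq (k : Zv m) : ‖iv k‖ ^ 2 = ∑ p, (k p : ℝ) ^ 2 := by
  rw [EuclideanSpace.real_norm_sq_eq]; rfl

theorem mem_Kn {n : ℕ} {ω : ℝ} (hω : 0 < ω) (k : Zv (n / 2)) :
    k ∈ Kn n ω ↔ k ≠ 0 ∧ ω * ‖iv k‖ ≤ n := by
  rw [Kn, Finset.mem_filter, and_iff_right_iff_imp]
  rintro ⟨-, h⟩
  rw [Fintype.mem_piFinset]
  intro p
  have h1 : |(k p : ℝ)| ≤ ‖iv k‖ := by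
    simpa [iv] using PiLp.norm_apply_le (iv k) p
  have h2 : ‖iv k‖ ≤ n / ω := by rw [le_div_iff₀ hω]; linarith
  have h3 : |(k p : ℝ)| ≤ (⌈(n : ℝ) / ω⌉ : ℤ) := (h1.trans h2).trans (Int.le_ceil _)
  rw [Finset.mem_Icc, ← abs_le]
  exact_mod_cast h3

theorem Gs.pp_equiv {α β : Type*} (e : α ≃ β) {f : α → ℂ} {g : β → ℂ} (h : ∀ a, f a = g (e a)) {c : ℂ}
    (h1 : Summable fun a => ‖f a‖) (h2 : HasSum f c) :
    (Summable fun b => ‖g b‖) ∧ HasSum g c := by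
  obtain rfl : f = g ∘ e := funext h
  exact ⟨(e.summable_iff (f := fun b => ‖g b‖)).1 h1, e.hasSum_iff.1 h2⟩

theorem Gs.pp_mul {α β : Type*} {f : α → ℂ} {g : β → ℂ} {c : ℂ}
    (hf : Summable fun a => ‖f a‖) (hg : Summable fun a => ‖g a‖) (h2 : HasSum g c) :
    (Summable fun p : α × β => ‖f p.1 * g p.2‖) ∧ 
    HasSum (fun p : α × β => f p.1 * g p.2) ((∑' a, f a) * c) :=
  ⟨hf.mul_norm hg, hf.of_norm.hasSum.mul h2 (hf.mul_norm hg).of_norm⟩

theorem Gs.pp_fin (n : ℕ) : ∀ (f : Fin n → ℤ → ℂ), (∀ i, Summable fun a => ‖f i a‖) →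
    (Summable fun k : Fin n → ℤ => ‖∏ i, f i (k i)‖) ∧
      HasSum (fun k : Fin n → ℤ => ∏ i, f i (k i)) (∏ i, ∑' a, f i a) := by
  induction n with
  | zero =>
    intro f _
    refine ⟨Summable.of_finite, ?_⟩
    simp
  | succ n ih =>
    intro f hf
    have h := ih (fun i => f i.succ) fun i => hf _
    have h3 := pp_mul (f := f 0) (g := fun k : Fin n → ℤ => ∏ i : Fin n, f i.succ (k i)) (hf 0) h.1 h.2
    rw [Fin.prod_univ_succ]
    refine pp_equiv (Fin.consEquiv fun _ => ℤ) (fun k => ?_) h3.1 h3.2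
    rw [Fin.prod_univ_succ]; simp [Fin.consEquiv]

/-- product formula for sums over `ι → ℤ` -/
theorem hasSum_pi_prod {ι : Type*} [Fintype ι] (f : ι → ℤ → ℂ) (hf : ∀ i, Summable fun a => ‖f i a‖) :
    (Summable fun k : ι → ℤ => ‖∏ i, f i (k i)‖) ∧
      HasSum (fun k : ι → ℤ => ∏ i, f i (k i)) (∏ i, ∑' a, f i a) := by
  have e := (Fintype.equivFin ι).symm
  have h := pp_fin _ (fun i => f (e i)) fun i => hf _
  rw [← Fintype.prod_equiv e (fun i => ∑' a, f (e i) a) (fun i => ∑' a, f i a) fun _ => rfl]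
  exact pp_equiv (e.arrowCongr (Equiv.refl ℤ)) (fun k => Fintype.prod_equiv e _ _ (by simp)) h.1 h.2

theorem Gs.hasSum_pi_prod_real {ι : Type*} [Fintype ι] (f : ι → ℤ → ℝ) (hf : ∀ i, Summable (f i)) :
    HasSum (fun k : ι → ℤ => ∏ i, f i (k i)) (∏ i, ∑' a, f i a) := by
  have h := (hasSum_pi_prod (fun i a => (f i a : ℂ)) fun i => by simpa using (hf i).abs).2
  simp only [← Complex.ofReal_tsum, ← Complex.ofReal_prod] at h
  exact Complex.hasSum_ofReal.1 h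

theorem Gs.norm_ee (t : ℝ) : ‖ee t‖ = 1 := by
  rw [ee, Complex.norm_exp]; simp

theorem Gs.ee_add (s t : ℝ) : ee (s + t) = ee s * ee t := by
  rw [ee, ee, ee, ← Complex.exp_add]; congr 1; push_cast; ring

theorem Gs.ee_zero : ee 0 = 1 := by simp [ee]

theorem Gs.ee_sum {ι : Type*} (s : Finset ι) (f : ι → ℝ) : ee (∑ i ∈ s, f i) = ∏ i ∈ s, ee (f i) := by
  simp only [ee, ← Complex.exp_sum]; congr 1; push_cast; rw [Finset.mul_sum]

theorem Gs.ee_neg (t : ℝ) : ee (-t) = starRingEnd ℂ (ee t) := by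
  rw [ee, ee, ← Complex.exp_conj]; congr 1
  simp only [map_mul, Complex.conj_ofReal, Complex.conj_I, map_ofNat]; push_cast; ring

theorem Gs.norm_cgauss (z : ℂ) (a : ℝ) : ‖cexp (-(π : ℂ) * z * (a : ℂ))‖ = rexp (-π * z.re * a) := by
  rw [Complex.norm_exp]; simp

theorem Gs.re_inv_pos {z : ℂ} (hz : 0 < z.re) : 0 < z⁻¹.re := by
  rw [Complex.inv_re]
  exact div_pos hz (Complex.normSq_pos.2 fun h => by simp [h] at hz)

theorem Gs.norm_isq (z : ℂ) : ‖isq z‖ = ‖z‖ ^ (-(1 / 2) : ℝ) := by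
  rw [← Complex.norm_cpow_real, isq]; norm_num

theorem Gs.isq_ofReal {t : ℝ} (ht : 0 < t) : isq t = ((√t)⁻¹ : ℝ) := by
  rw [isq, Real.sqrt_eq_rpow, ← Real.rpow_neg ht.le, Complex.ofReal_cpow ht.le]; norm_num

theorem Gs.isq_mul_inv {z : ℂ} (hz : 0 < z.re) : isq z * isq z⁻¹ = 1 := by
  have h0 : z ≠ 0 := fun h => by simp [h] at hz
  rw [isq, isq, Complex.inv_cpow _ _ fun h => by linarith [(Complex.arg_eq_pi_iff.1 h).1]]
  exact mul_inv_cancel₀ (by simp [h0])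

theorem Gs.isq_div_sq {ω : ℝ} (hω : 0 < ω) {z : ℂ} (hz : 0 < z.re) :
    isq (z / (ω : ℂ) ^ 2) = ω * isq z := by
  have h0 : z ≠ 0 := fun h => by simp [h] at hz
  have h1 : (ω : ℂ) ≠ 0 := by exact_mod_cast hω.ne'
  have h2 : z / (ω : ℂ) ^ 2 = ((ω⁻¹ ^ 2 : ℝ) : ℂ) * z := by push_cast; field_simp
  rw [isq, isq, Complex.cpow_def_of_ne_zero (div_ne_zero h0 (pow_ne_zero _ h1)),
    Complex.cpow_def_of_ne_zero h0, h2, Complex.log_ofReal_mul (by positivity) h0, add_mul,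
    Complex.exp_add, Real.log_pow, Real.log_inv]
  congr 1
  rw [← Real.exp_log hω, Complex.ofReal_exp, Real.exp_log hω]
  congr 1; push_cast; ring

theorem Gs.summable_one {s : ℝ} (hs : 0 < s) (w : ℝ) :
    Summable fun n : ℤ => rexp (-π * s * (n + w) ^ 2) := by
  refine Summable.of_nonneg_of_le (fun _ => (Real.exp_pos _).le) (fun n => ?_)
    (summable_pow_mul_jacobiTheta₂_term_bound (s * |w|) hs 0)
  rw [pow_zero, one_mul, Real.exp_le_exp, Int.cast_abs]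
  have h1 : -(|w| * |(n : ℝ)|) ≤ w * n := by rw [← abs_mul]; exact neg_abs_le _
  have h2 : 0 < π * s := by positivity
  nlinarith [mul_nonneg h2.le (sq_nonneg w), mul_le_mul_of_nonneg_left h1 h2.le]

/-- Poisson summation in one variable -/
theorem Gs.poisson_one {z : ℂ} (hz : 0 < z.re) (w w' : ℝ) :
    ∑' n : ℤ, cexp (-(π : ℂ) * z * (((n + w) ^ 2 : ℝ) : ℂ)) * ee (-(w' * (n + w / 2))) =
      isq z * ∑' n : ℤ, cexp (-(π : ℂ) * z⁻¹ * (((n + w') ^ 2 : ℝ) : ℂ)) *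
        ee (-(-w * (n + w' / 2))) := by
  have h0 : z ≠ 0 := fun h => by simp [h] at hz
  have h := congrArg (· * cexp (-π * z * w ^ 2 - π * I * w * w'))
    (Complex.tsum_exp_neg_quadratic hz (-z * w - I * w'))
  simp only [mul_assoc (1 / z ^ (1 / 2 : ℂ)), ← tsum_mul_right, ← Complex.exp_add] at h
  rw [isq, Complex.cpow_neg, ← one_div]
  simp only [ee, ← Complex.exp_add]
  refine (tsum_congr fun n => ?_).trans (h.trans (congrArg _ (tsum_congr fun n => ?_)))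
  · congr 1; push_cast; ring
  · congr 1
    push_cast
    have h1 : (n : ℂ) + I * (-z * w - I * w') = n + w' - I * z * w := by
      linear_combination (-(w' : ℂ)) * Complex.I_sq
    rw [h1]
    field_simp
    linear_combination (-(z ^ 2 * w ^ 2)) * Complex.I_sq

theorem Gs.tsum_one_zero {s : ℝ} (hs : 0 < s) : ∑' n : ℤ, rexp (-π * s * (n : ℝ) ^ 2) ≤ 1 + 1 / √s := by
  have ha : AntitoneOn (fun x : ℝ => rexp (-(π * s) * x ^ 2)) (Set.Ici 0) := by
    intro x hx y _ hxy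
    have h2 : 0 < π * s := by positivity
    have h3 : x ^ 2 ≤ y ^ 2 := pow_le_pow_left₀ hx hxy 2
    exact Real.exp_le_exp.2 (by nlinarith)
  have hi : IntegrableOn (fun x : ℝ => rexp (-(π * s) * x ^ 2)) (Set.Ioi 0) :=
    (integrable_exp_neg_mul_sq (by positivity)).integrableOn
  have h1 := ha.tsum_add_one_le_integral hi fun _ _ => (Real.exp_pos _).le
  have h2 : Summable fun n : ℕ => rexp (-(π * s) * ((n : ℝ) + 1) ^ 2) := by
    simpa [Function.comp_def] using (summable_one hs 1).comp_injective Nat.cast_injective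
  rw [integral_gaussian_Ioi, div_mul_cancel_left₀ Real.pi_pos.ne', Real.sqrt_inv] at h1
  rw [tsum_of_add_one_of_neg_add_one (f := fun n : ℤ => rexp (-π * s * (n : ℝ) ^ 2))
    (by simpa using h2) (by simpa only [Int.cast_neg, neg_sq, neg_mul, Int.cast_add,
      Int.cast_natCast, Int.cast_one] using h2)]
  simp only [Int.cast_neg, neg_sq, neg_mul, Int.cast_add, Int.cast_natCast, Int.cast_one,
    Nat.cast_add, Nat.cast_one] at h1 ⊢
  norm_num
  linarith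

theorem Gs.tsum_one_le {s : ℝ} (hs : 0 < s) (w : ℝ) :
    ∑' n : ℤ, rexp (-π * s * (n + w) ^ 2) ≤ 1 + 1 / √s := by
  have h := poisson_one (z := s) (by simpa using hs) w 0
  have h1 : ∀ n : ℤ, cexp (-(π : ℂ) * s * (((n + w) ^ 2 : ℝ) : ℂ)) * ee (-(0 * (n + w / 2))) =
      (rexp (-π * s * (n + w) ^ 2) : ℝ) := fun n => by simp [ee_zero]
  have h2 : ∀ n : ℤ, ‖cexp (-(π : ℂ) * (s : ℂ)⁻¹ * (((n + 0) ^ 2 : ℝ) : ℂ)) *
      ee (-(-w * (n + 0 / 2)))‖ = rexp (-π * s⁻¹ * (n : ℝ) ^ 2) := fun n => by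
    rw [norm_mul, norm_ee, norm_cgauss, mul_one, add_zero, ← Complex.ofReal_inv, Complex.ofReal_re]
  simp only [h1, ← Complex.ofReal_tsum] at h
  have h3 := congrArg norm h
  rw [Complex.norm_real, norm_mul, isq_ofReal hs, Complex.norm_real] at h3
  have h4 := norm_tsum_le_tsum_norm (f := fun n : ℤ => cexp (-(π : ℂ) * (s : ℂ)⁻¹ *
    (((n + 0) ^ 2 : ℝ) : ℂ)) * ee (-(-w * (n + 0 / 2))))
    (by simp only [h2]; simpa only [add_zero] using summable_one (inv_pos.2 hs) 0)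
  simp only [h2] at h4
  have h5 := tsum_one_zero (inv_pos.2 hs)
  have h6 : 0 < √s := Real.sqrt_pos.2 hs
  rw [Real.sqrt_inv, one_div, inv_inv] at h5
  refine (le_abs_self _).trans (h3.le.trans ?_)
  rw [Real.norm_of_nonneg (by positivity)]
  refine (mul_le_mul_of_nonneg_left (h4.trans h5) (by positivity)).trans (le_of_eq ?_)
  field_simp
  ring

theorem Gs.gsum {s : ℝ} (hs : 0 < s) (w : Fin r → ℝ) :
    (Summable fun k : Zv r => rexp (-π * s * ∑ i, (k i + w i) ^ 2)) ∧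
      ∑' k : Zv r, rexp (-π * s * ∑ i, (k i + w i) ^ 2) ≤ (1 + 1 / √s) ^ r := by
  have h := hasSum_pi_prod_real (fun (i : Fin r) (a : ℤ) => rexp (-π * s * (a + w i) ^ 2))
    fun i => summable_one hs _
  simp only [← Real.exp_sum, ← Finset.mul_sum] at h
  refine ⟨h.summable, h.tsum_eq.le.trans ?_⟩
  calc _ ≤ ∏ _i : Fin r, (1 + 1 / √s) := Finset.prod_le_prod
        (fun i _ => tsum_nonneg fun _ => (Real.exp_pos _).le) fun i _ => tsum_one_le hs _
    _ = _ := by simp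

theorem Gs.norm_iv_add_sq (k : Zv m) (w : Ev m) : ‖iv k + w‖ ^ 2 = ∑ p, (k p + w p) ^ 2 := by
  rw [EuclideanSpace.real_norm_sq_eq]; rfl

theorem summable_gauss {s : ℝ} (hs : 0 < s) (w : Ev m) :
    Summable fun k : Zv m => rexp (-π * s * ‖iv k + w‖ ^ 2) := by
  simp only [norm_iv_add_sq]
  exact (gsum hs _).1

theorem tsum_gauss_le {s : ℝ} (hs : 0 < s) (w : Ev m) :
    ∑' k : Zv m, rexp (-π * s * ‖iv k + w‖ ^ 2) ≤ (1 + 1 / √s) ^ m := by
  simp only [norm_iv_add_sq]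
  exact (gsum hs _).2

/-- completing the square under a lattice sum -/
theorem gauss_two {ω A A' p q : ℝ} (hω : 0 < ω) (hA : 0 ≤ A) (hA' : 0 ≤ A')
    (hs : 0 < A * q ^ 2 + A' * p ^ 2) (w₁ w₂ : Ev m) :
    (Summable fun k : Zv m =>
      rexp (-π * ω ^ 2 * (A * ‖q • iv k + w₁‖ ^ 2 + A' * ‖p • iv k + w₂‖ ^ 2))) ∧
    ω ^ m * ∑' k : Zv m, rexp (-π * ω ^ 2 * (A * ‖q • iv k + w₁‖ ^ 2 + A' * ‖p • iv k + w₂‖ ^ 2)) ≤
      (ω + 1 / √(A * q ^ 2 + A' * p ^ 2)) ^ m *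
        rexp (-π * ω ^ 2 * (A * A' / (A * q ^ 2 + A' * p ^ 2) * ‖p • w₁ - q • w₂‖ ^ 2)) := by
  have _ := hA
  have _ := hA'
  set s := A * q ^ 2 + A' * p ^ 2 with hs0
  have key : ∀ k : Zv m,
      rexp (-π * ω ^ 2 * (A * ‖q • iv k + w₁‖ ^ 2 + A' * ‖p • iv k + w₂‖ ^ 2)) =
      rexp (-π * (ω ^ 2 * s) * ‖iv k + s⁻¹ • ((A * q) • w₁ + (A' * p) • w₂)‖ ^ 2) *
        rexp (-π * ω ^ 2 * (A * A' / s * ‖p • w₁ - q • w₂‖ ^ 2)) := by
    intro k
    rw [← Real.exp_add]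
    congr 1
    have : A * ‖q • iv k + w₁‖ ^ 2 + A' * ‖p • iv k + w₂‖ ^ 2 =
        s * ‖iv k + s⁻¹ • ((A * q) • w₁ + (A' * p) • w₂)‖ ^ 2 +
          A * A' / s * ‖p • w₁ - q • w₂‖ ^ 2 := by
      simp only [EuclideanSpace.real_norm_sq_eq, Finset.mul_sum, ← Finset.sum_add_distrib,
        PiLp.add_apply, PiLp.sub_apply, PiLp.smul_apply, smul_eq_mul]
      refine Finset.sum_congr rfl fun i _ => ?_
      field_simp
      rw [hs0]
      ring
    rw [this]; ring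
  have hs' : 0 < ω ^ 2 * s := by positivity
  simp only [key]
  refine ⟨(summable_gauss hs' _).mul_right _, ?_⟩
  rw [tsum_mul_right, ← mul_assoc]
  refine mul_le_mul_of_nonneg_right ?_ (Real.exp_pos _).le
  refine (mul_le_mul_of_nonneg_left (tsum_gauss_le hs' _) (by positivity)).trans (le_of_eq ?_)
  rw [← mul_pow, Real.sqrt_mul (sq_nonneg ω), Real.sqrt_sq hω.le]
  congr 1
  field_simp

theorem Gs.summable_full {ω β : ℝ} (hω : 0 < ω) (hβ : 0 < β) :
    Summable fun κ : Zv m => rexp (-π * β * (ω ^ 2 * ‖iv κ‖ ^ 2)) := by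
  have h := summable_gauss (s := β * ω ^ 2) (by positivity) (0 : Ev m)
  simpa only [add_zero, mul_assoc] using h

theorem summable_th {ω β : ℝ} (hω : 0 < ω) (hβ : 0 < β) (P : Zv m → Prop) [DecidablePred P] :
    Summable fun κ : Zv m => if P κ then rexp (-π * β * (ω ^ 2 * ‖iv κ‖ ^ 2)) else 0 := by
  refine Summable.of_nonneg_of_le (fun κ => ?_) (fun κ => ?_) (summable_full hω hβ)
  · split_ifs <;> positivity
  · split_ifs
    · rfl
    · positivity

theorem th_eq {ω β : ℝ} (hω : 0 < ω) (hβ : 0 < β) (W : Submodule ℝ (Ev m)) :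
    th ω W β = 1 + th0 ω W β := by
  rw [th, (summable_th hω hβ _).tsum_eq_add_tsum_ite 0, th0]
  congr 1
  · simp [iv_zero]
  · refine tsum_congr fun κ => ?_
    by_cases h : κ = 0 <;> simp [h]

theorem th0_nonneg (ω β : ℝ) (W : Submodule ℝ (Ev m)) : 0 ≤ th0 ω W β := by
  refine tsum_nonneg fun κ => ?_
  split_ifs <;> positivity

theorem th_anti {ω β β' : ℝ} (hω : 0 < ω) (hβ : 0 < β) (h : β ≤ β') {W W' : Submodule ℝ (Ev m)}
    (hW : W' ≤ W) : th ω W' β' ≤ th ω W β ∧ th0 ω W' β' ≤ th0 ω W β := by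
  have hβ' : 0 < β' := hβ.trans_le h
  have key : ∀ κ : Zv m, rexp (-π * β' * (ω ^ 2 * ‖iv κ‖ ^ 2)) ≤
      rexp (-π * β * (ω ^ 2 * ‖iv κ‖ ^ 2)) := fun κ => by
    rw [neg_mul, neg_mul, neg_mul, neg_mul]
    gcongr
  have h0 : th0 ω W' β' ≤ th0 ω W β := by
    refine (summable_th hω hβ' _).tsum_le_tsum (fun κ => ?_) (summable_th hω hβ _)
    by_cases h1 : iv κ ∈ W' ∧ κ ≠ 0
    · rw [if_pos h1, if_pos ⟨hW h1.1, h1.2⟩]
      exact key κ
    · rw [if_neg h1]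
      split_ifs <;> positivity
  exact ⟨by rw [th_eq hω hβ, th_eq hω hβ']; linarith, h0⟩

theorem Gs.chi_nonneg (n : ℕ) (ρ : ℝ) : 0 ≤ chi n ρ :=
  Finset.sum_nonneg fun _ _ => by positivity

theorem summable_Sh {n : ℕ} {ω : ℝ} (hω : 0 < ω) (P : Zv (n / 2) → Prop) [DecidablePred P] :
    Summable fun κ : Zv (n / 2) => if P κ then chi n (ω ^ 2 * ‖iv κ‖ ^ 2) else 0 := by
  have h : Summable fun κ : Zv (n / 2) => chi n (ω ^ 2 * ‖iv κ‖ ^ 2) := by
    refine summable_sum fun j hj => (summable_full hω ?_).mul_left _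
    have : (1 : ℝ) ≤ j := by exact_mod_cast (Finset.mem_Icc.1 hj).1
    positivity
  refine Summable.of_nonneg_of_le (fun κ => ?_) (fun κ => ?_) h
  · split_ifs
    · exact chi_nonneg _ _
    · rfl
  · split_ifs
    · rfl
    · exact chi_nonneg _ _

theorem Sh_nonneg (n : ℕ) (ω : ℝ) (W : Submodule ℝ (Ev (n / 2))) : 0 ≤ Sh n ω W := by
  refine tsum_nonneg fun κ => ?_
  split_ifs
  · exact chi_nonneg _ _
  · rfl

theorem th0_le_Sh {n : ℕ} {ω β : ℝ} (hω : 0 < ω) (h₁ : 1 / 1000 ≤ β) (h₂ : β ≤ 1)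
    (W : Submodule ℝ (Ev (n / 2))) : (1 + β / rexp 1) ^ mh n * th0 ω W β ≤ Sh n ω W := by
  have hβ : 0 < β := by linarith
  rw [th0, ← tsum_mul_left]
  refine ((summable_th hω hβ _).mul_left _).tsum_le_tsum (fun κ => ?_) (summable_Sh hω _)
  split_ifs
  · have h3 : (⌊1000 * β⌋₊ : ℝ) ≤ 1000 * β := Nat.floor_le (by positivity)
    have h4 : 1000 * β < ⌊1000 * β⌋₊ + 1 := Nat.lt_floor_add_one _
    have h5 : ⌊1000 * β⌋₊ ∈ Finset.Icc 1 1000 := Finset.mem_Icc.2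
      ⟨Nat.le_floor (by push_cast; linarith), by
        have : (⌊1000 * β⌋₊ : ℝ) ≤ (1000 : ℕ) := by push_cast; linarith
        exact_mod_cast this⟩
    refine le_trans ?_ (Finset.single_le_sum (f := fun j : ℕ =>
      (1 + ((j : ℝ) + 1) / (1000 * rexp 1)) ^ mh n *
        rexp (-π * ((j : ℝ) / 1000) * (ω ^ 2 * ‖iv κ‖ ^ 2))) (fun _ _ => by positivity) h5)
    have h6 : 0 ≤ mh n := by unfold mh; positivity
    have h7 : β / rexp 1 ≤ ((⌊1000 * β⌋₊ : ℝ) + 1) / (1000 * rexp 1) := by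
      rw [← div_div]
      gcongr
      linarith
    have h8 : (⌊1000 * β⌋₊ : ℝ) / 1000 ≤ β := by linarith
    rw [neg_mul, neg_mul, neg_mul, neg_mul]
    gcongr
  · simp

theorem Sh_le_th {n : ℕ} {ω : ℝ} (hω : 0 < ω) (W : Submodule ℝ (Ev (n / 2))) :
    Sh n ω W ≤ 1000 * (1.37 : ℝ) ^ mh n * th ω W (1 / 1000) := by
  rw [th, ← tsum_mul_left]
  refine (summable_Sh hω _).tsum_le_tsum (fun κ => ?_)
    ((summable_th hω (by norm_num) _).mul_left _)
  by_cases h1 : iv κ ∈ W ∧ κ ≠ 0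
  · rw [if_pos h1, if_pos h1.1, chi]
    refine (Finset.sum_le_card_nsmul _ _ ((1.37 : ℝ) ^ mh n *
      rexp (-π * (1 / 1000) * (ω ^ 2 * ‖iv κ‖ ^ 2))) fun j hj => ?_).trans (by simp [mul_assoc])
    have h2 : (1 : ℝ) ≤ j := by exact_mod_cast (Finset.mem_Icc.1 hj).1
    have h3 : (j : ℝ) ≤ 1000 := by exact_mod_cast (Finset.mem_Icc.1 hj).2
    have h6 : 0 ≤ mh n := by unfold mh; positivity
    have h7 : 1 + ((j : ℝ) + 1) / (1000 * rexp 1) ≤ 1.37 := by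
      have := Real.exp_one_gt_d9
      have h8 : ((j : ℝ) + 1) / (1000 * rexp 1) ≤ 0.37 := by
        rw [div_le_iff₀ (by positivity)]; linarith
      linarith
    rw [neg_mul, neg_mul, neg_mul, neg_mul]
    gcongr
  · rw [if_neg h1]
    split_ifs <;> positivity

theorem rho_nonneg (ω : ℝ) (x : Xs m) (k : Zv m) (jl : Zv r × Zv m) : 0 ≤ rho ω x k jl := by
  unfold rho; positivity

theorem le_rho (ω : ℝ) (x : Xs m) (k : Zv m) (jl : Zv r × Zv m) :
    ω ^ 2 * ‖iv k‖ ^ 2 ≤ rho ω x k jl := by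
  rw [rho, add_assoc]
  exact le_add_of_nonneg_right (by positivity)

theorem Gs.ft_fibre {ω β : ℝ} (hω : 0 < ω) (hβ : 0 < β) (x : Xs m) (k : Zv m) (j : Zv r) :
    (Summable fun l : Zv m => ft β (rho ω x k (j, l))) ∧ ∑' l : Zv m, ft β (rho ω x k (j, l)) ≤
      rexp (-π * β * (ω ^ 2 * ‖iv k‖ ^ 2)) * (1 + ω / √β) ^ m *
        rexp (-π * β * ∑ i, (j i + Bk r k i) ^ 2) := by
  have key : ∀ l : Zv m, ft β (rho ω x k (j, l)) =
      rexp (-π * β * (ω ^ 2 * ‖iv k‖ ^ 2)) * rexp (-π * β * ∑ i, (j i + Bk r k i) ^ 2) *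
        rexp (-π * (β / ω ^ 2) * ∑ p, (l p + yv x k j p) ^ 2) := by
    intro l
    rw [ft, rho, ← Real.exp_add, ← Real.exp_add, ← Finset.sum_div]
    congr 1; ring
  obtain ⟨h1, h2⟩ := gsum (s := β / ω ^ 2) (by positivity) (yv x k j)
  rw [Real.sqrt_div' _ (sq_nonneg ω), Real.sqrt_sq hω.le, one_div_div] at h2
  simp only [key]
  refine ⟨h1.mul_left _, ?_⟩
  rw [tsum_mul_left, mul_right_comm _ ((1 + ω / √β) ^ m)]
  exact mul_le_mul_of_nonneg_left h2 (by positivity)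

theorem summable_ft {ω β : ℝ} (hω : 0 < ω) (hβ : 0 < β) (x : Xs m) (k : Zv m) :
    Summable fun jl : Zv r × Zv m => ft β (rho ω x k jl) := by
  refine (summable_prod_of_nonneg fun _ => (Real.exp_pos _).le).2
    ⟨fun j => (ft_fibre hω hβ x k j).1, ?_⟩
  exact Summable.of_nonneg_of_le (fun j => tsum_nonneg fun _ => (Real.exp_pos _).le)
    (fun j => (ft_fibre hω hβ x k j).2) ((gsum hβ _).1.mul_left _)

theorem FS_ft_le {ω β : ℝ} (hω : 0 < ω) (hβ : 0 < β) (x : Xs m) (k : Zv m) :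
    FS r ω (ft β) k x ≤
      rexp (-π * β * (ω ^ 2 * ‖iv k‖ ^ 2)) * ((1 + 1 / √β) ^ r * (1 + ω / √β) ^ m) := by
  rw [FS, (summable_ft hω hβ x k).tsum_prod]
  refine ((summable_ft hω hβ x k).prod.tsum_le_tsum (fun j => (ft_fibre hω hβ x k j).2)
    ((gsum hβ _).1.mul_left _)).trans ?_
  rw [tsum_mul_left, mul_comm ((1 + 1 / √β) ^ r), ← mul_assoc _ ((1 + ω / √β) ^ m)]
  exact mul_le_mul_of_nonneg_left (gsum hβ _).2 (by positivity)

theorem summable_FS_ft {ω β : ℝ} (hω : 0 < ω) (hβ : 0 < β) (x : Xs m) :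
    Summable fun k : Zv m => FS r ω (ft β) k x := by
  exact Summable.of_nonneg_of_le (fun k => tsum_nonneg fun _ => (Real.exp_pos _).le)
    (fun k => FS_ft_le hω hβ x k) ((summable_full hω hβ).mul_right _)

theorem Fz_ofReal {ω β : ℝ} (hω : 0 < ω) (hβ : 0 < β) (x : Xs m) (k : Zv m) :
    Fz r ω (β : ℂ) k x = (FS r ω (ft β) k x : ℝ) := by
  have _ := hω
  have _ := hβ
  rw [Fz, FS, Complex.ofReal_tsum]
  refine tsum_congr fun jl => ?_
  rw [ft]; push_cast; rfl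

theorem norm_Fz_le {ω : ℝ} {z : ℂ} (hω : 0 < ω) (hz : 0 < z.re) (x : Xs m) (k : Zv m) :
    ‖Fz r ω z k x‖ ≤ FS r ω (ft z.re) k x := by
  have h := norm_tsum_le_tsum_norm
    (f := fun jl : Zv r × Zv m => cexp (-(π : ℂ) * z * (rho ω x k jl : ℝ)))
    (by simp only [norm_cgauss]; exact summable_ft hω hz x k)
  simp only [norm_cgauss] at h
  exact h

theorem Gs.Bk_neg (k : Zv m) : Bk r (-k) = -Bk r k := by
  funext i; simp [Bk]

theorem Gs.rho_neg (ω : ℝ) (x : Xs m) (k : Zv m) (jl : Zv r × Zv m) :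
    rho ω x (-k) (-jl) = rho ω x k jl := by
  have h : ∀ p, yv x (-k) (-jl.1) p = -yv x k jl.1 p := fun p => by
    simp only [yv, Bk_neg, Pi.neg_apply, Int.cast_neg, neg_div, ← neg_add, mul_neg,
      Finset.sum_neg_distrib]
    ring
  simp only [rho, iv_neg, norm_neg, Prod.fst_neg, Prod.snd_neg, h, Bk_neg, Pi.neg_apply,
    Int.cast_neg, ← neg_add, neg_sq]

theorem FS_neg (ω : ℝ) (φ : ℝ → ℝ) (x : Xs m) (k : Zv m) : FS r ω φ (-k) x = FS r ω φ k x := by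
  rw [FS, FS, ← (Equiv.neg (Zv r × Zv m)).tsum_eq]
  simp only [Equiv.neg_apply, rho_neg]

theorem Fz_neg (ω : ℝ) (z : ℂ) (x : Xs m) (k : Zv m) : Fz r ω z (-k) x = Fz r ω z k x := by
  rw [Fz, Fz, ← (Equiv.neg (Zv r × Zv m)).tsum_eq]
  simp only [Equiv.neg_apply, rho_neg]

theorem norm_ch (η k : Zv m) (x : Xs m) : ‖ch η k x‖ = 1 := by
  exact norm_ee _

theorem continuous_ch (η k : Zv m) : Continuous (ch η k) := by
  unfold ch ee Th
  fun_prop

theorem ch_neg_left (η k : Zv m) (x : Xs m) : ch (-η) k x = starRingEnd ℂ (ch η k x) := by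
  rw [ch, ch, ← ee_neg]
  simp

theorem ch_neg_neg (η k : Zv m) (x : Xs m) : ch (-η) (-k) x = ch η k x := by
  simp [ch]

theorem ch_swap (η k : Zv m) (x : Xs m) : ch (-k) η x = ch η k x := by
  rw [ch, ch, Finset.sum_comm]
  congr 1
  refine Finset.sum_congr rfl fun p _ => Finset.sum_congr rfl fun q _ => ?_
  simp only [Th, Pi.neg_apply, Int.cast_neg]
  ring

theorem ch_zero (k : Zv m) (x : Xs m) : ch 0 k x = 1 := by
  simp [ch, ee_zero]

theorem ch_eq_one {η k : Zv m} (h : iv η ∈ Submodule.span ℝ {iv k}) (x : Xs m) : ch η k x = 1 := by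
  obtain ⟨c, hc⟩ := Submodule.mem_span_singleton.1 h
  have h1 : ∀ p, (η p : ℝ) = c * k p := fun p => (congrArg (fun v : Ev m => v p) hc).symm
  have h2 : ∑ p, ∑ q, η p * Th x p q * k q = -∑ p, ∑ q, η p * Th x p q * k q := by
    conv_rhs => rw [Finset.sum_comm]
    simp only [← Finset.sum_neg_distrib]
    refine Finset.sum_congr rfl fun p _ => Finset.sum_congr rfl fun q _ => ?_
    simp only [Th, h1]
    ring
  rw [ch, show ∑ p, ∑ q, η p * Th x p q * k q = 0 by linarith, ee_zero]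

theorem Gs.summable_Dz {z : ℂ} (hz : 0 < z.re) (w : Fin r → ℝ) (c : Zv r → ℝ) :
    Summable fun j : Zv r =>
      ‖cexp (-(π : ℂ) * z * ((∑ i, (j i + w i) ^ 2 : ℝ) : ℂ)) * ee (c j)‖ := by
  simpa only [norm_mul, norm_ee, norm_cgauss, mul_one] using (gsum hz w).1

theorem Gs.norm_Dz_le {z : ℂ} (hz : 0 < z.re) (w w' : Fin r → ℝ) :
    ‖Dz z w w'‖ ≤ (1 + 1 / √z.re) ^ r := by
  refine (norm_tsum_le_tsum_norm (summable_Dz hz w _)).trans ?_
  simpa only [norm_mul, norm_ee, norm_cgauss, mul_one] using (gsum hz w).2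

theorem Gs.Dz_eq_prod {z : ℂ} (hz : 0 < z.re) (w w' : Fin r → ℝ) : Dz z w w' =
    ∏ i, ∑' n : ℤ, cexp (-(π : ℂ) * z * (((n + w i) ^ 2 : ℝ) : ℂ)) *
      ee (-(w' i * (n + w i / 2))) := by
  rw [← (hasSum_pi_prod (fun (i : Fin r) (n : ℤ) =>
    cexp (-(π : ℂ) * z * (((n + w i) ^ 2 : ℝ) : ℂ)) * ee (-(w' i * (n + w i / 2)))) fun i => by
      simpa only [norm_mul, norm_ee, norm_cgauss, mul_one] using summable_one hz (w i)).2.tsum_eq]
  refine tsum_congr fun j => ?_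
  rw [Finset.prod_mul_distrib, ← ee_sum, ← Complex.exp_sum, ← Finset.mul_sum,
    ← Complex.ofReal_sum, Finset.sum_neg_distrib]

/-- Poisson summation in several variables -/
theorem Gs.Dz_symm {z : ℂ} (hz : 0 < z.re) (w w' : Fin r → ℝ) :
    Dz z w w' = isq z ^ r * Dz z⁻¹ w' (-w) := by
  rw [Dz_eq_prod hz, Dz_eq_prod (re_inv_pos hz)]
  simp only [poisson_one hz, Finset.prod_mul_distrib, Finset.prod_const, Finset.card_univ,
    Fintype.card_fin, Pi.neg_apply]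

theorem Gs.Dz_neg_neg (z : ℂ) (w w' : Fin r → ℝ) : Dz z (-w) (-w') = Dz z w w' := by
  rw [Dz, Dz, ← (Equiv.neg (Zv r)).tsum_eq]
  simp only [Equiv.neg_apply, Pi.neg_apply, Int.cast_neg, neg_div, ← neg_add, neg_sq, neg_mul_neg]

theorem norm_Cp_le {ω : ℝ} {z : ℂ} (hω : 0 < ω) (hz : 0 < z.re) (k η : Zv m) :
    ‖Cp r ω z k η‖ ≤ (1 + 1 / √z.re) ^ r * (ω ^ m * ‖z‖ ^ (-(m : ℝ) / 2)) *
      (rexp (-π * z.re * (ω ^ 2 * ‖iv k‖ ^ 2)) *
        rexp (-π * (z.re / ‖z‖ ^ 2) * (ω ^ 2 * ‖iv η‖ ^ 2))) := by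
  have h1 : ‖((ω : ℂ) * isq z) ^ m‖ = ω ^ m * ‖z‖ ^ (-(m : ℝ) / 2) := by
    rw [norm_pow, norm_mul, Complex.norm_real, Real.norm_of_nonneg hω.le, mul_pow, norm_isq,
      ← Real.rpow_mul_natCast (norm_nonneg z)]
    congr 2; ring
  have h2 : ‖cexp (-(π : ℂ) * (ω : ℂ) ^ 2 * (z * ((‖iv k‖ ^ 2 : ℝ) : ℂ) +
      ((‖iv η‖ ^ 2 : ℝ) : ℂ) / z))‖ = rexp (-π * z.re * (ω ^ 2 * ‖iv k‖ ^ 2)) *
        rexp (-π * (z.re / ‖z‖ ^ 2) * (ω ^ 2 * ‖iv η‖ ^ 2)) := by
    rw [← Complex.normSq_eq_norm_sq, ← Complex.inv_re, ← norm_cgauss, ← norm_cgauss, ← norm_mul,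
      ← Complex.exp_add]
    congr 2; push_cast; ring
  rw [Cp, norm_mul, norm_mul, h1, h2, mul_comm, mul_assoc ((1 + 1 / √z.re) ^ r)]
  exact mul_le_mul_of_nonneg_right (norm_Dz_le hz _ _) (by positivity)

theorem summable_Cp {ω : ℝ} {z : ℂ} (hω : 0 < ω) (hz : 0 < z.re) :
    Summable fun p : Zv m × Zv m => ‖Cp r ω z p.1 p.2‖ := by
  have h0 : 0 < ‖z‖ := norm_pos_iff.2 fun h => by simp [h] at hz
  exact Summable.of_nonneg_of_le (fun _ => norm_nonneg _) (fun p => norm_Cp_le hω hz p.1 p.2)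
    (((summable_full hω hz).mul_of_nonneg (summable_full hω (by positivity))
      (fun _ => (Real.exp_pos _).le) fun _ => (Real.exp_pos _).le).mul_left _)

theorem Cp_neg_neg (ω : ℝ) (z : ℂ) (k η : Zv m) : Cp r ω z (-k) (-η) = Cp r ω z k η := by
  simp only [Cp, iv_neg, norm_neg, Bk_neg, Dz_neg_neg]

/-- Poisson summation in the third block -/
theorem Fz_eq_tsum {ω : ℝ} {z : ℂ} (hω : 0 < ω) (hz : 0 < z.re) (k : Zv m) (x : Xs m) :
    Fz r ω z k x = ∑' η : Zv m, Cp r ω z k η * ch η k x := by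
  have h0 : z ≠ 0 := fun h => by simp [h] at hz
  have h1 : (ω : ℂ) ≠ 0 := by exact_mod_cast hω.ne'
  have hz' : 0 < (z / (ω : ℂ) ^ 2).re := by
    rw [← Complex.ofReal_pow, Complex.div_ofReal_re]; positivity
  let G : Zv r → Zv m → ℂ := fun j η => (((ω : ℂ) * isq z) ^ m *
    cexp (-(π : ℂ) * z * ((ω ^ 2 * ‖iv k‖ ^ 2 : ℝ) : ℂ))) *
    ((cexp (-(π : ℂ) * z * ((∑ i, (j i + Bk r k i) ^ 2 : ℝ) : ℂ)) *
      cexp (-(π : ℂ) * z⁻¹ * ((ω ^ 2 * ‖iv η‖ ^ 2 : ℝ) : ℂ))) *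
      (ee (-∑ i, Bk r η i * (j i + Bk r k i / 2)) * ch η k x))
  have hG : Summable (Function.uncurry G) := by
    refine Summable.of_norm ?_
    simp only [Function.uncurry, G, norm_mul, norm_ee, norm_ch, norm_cgauss, mul_one]
    exact ((gsum hz (Bk r k)).1.mul_of_nonneg (summable_full (m := m) hω (re_inv_pos hz))
      (fun _ => (Real.exp_pos _).le) fun _ => (Real.exp_pos _).le).mul_left _
  have hs : Summable fun jl : Zv r × Zv m => cexp (-(π : ℂ) * z * (rho ω x k jl : ℝ)) :=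
    Summable.of_norm (by simp only [norm_cgauss]; exact summable_ft hω hz x k)
  have h2 : ∀ j : Zv r, ∑' l : Zv m, cexp (-(π : ℂ) * z * (rho ω x k (j, l) : ℝ)) =
      ∑' η, G j η := by
    intro j
    have h3 := Dz_symm hz' (yv x k j) 0
    rw [isq_div_sq hω hz, Dz, Dz] at h3
    simp only [Pi.zero_apply, zero_mul, Finset.sum_const_zero, neg_zero, ee_zero, mul_one,
      add_zero, zero_div, Pi.neg_apply, neg_mul (yv x k j _), Finset.sum_neg_distrib,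
      neg_neg] at h3
    calc _ = ∑' l : Zv m, (cexp (-(π : ℂ) * z * ((ω ^ 2 * ‖iv k‖ ^ 2 : ℝ) : ℂ)) *
          cexp (-(π : ℂ) * z * ((∑ i, (j i + Bk r k i) ^ 2 : ℝ) : ℂ))) *
          cexp (-(π : ℂ) * (z / (ω : ℂ) ^ 2) * ((∑ p, (l p + yv x k j p) ^ 2 : ℝ) : ℂ)) := by
          refine tsum_congr fun l => ?_
          rw [rho, ← Finset.sum_div, ← Complex.exp_add, ← Complex.exp_add]
          congr 1
          simp only [Complex.ofReal_add, Complex.ofReal_div, Complex.ofReal_pow ω]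
          ring
      _ = _ := by
          rw [tsum_mul_left, h3, ← tsum_mul_left, ← tsum_mul_left]
          refine tsum_congr fun η => ?_
          have h4 : ee (∑ p, yv x k j p * η p) =
              ee (-∑ i, Bk r η i * (j i + Bk r k i / 2)) * ch η k x := by
            rw [ch, ← ee_add]
            congr 1
            simp only [yv, sub_mul, Finset.sum_sub_distrib, Finset.sum_mul, Bk.eq_1 r η]
            rw [neg_add_eq_sub, Finset.sum_comm (f := fun p i => Bm m r i p * _ * _)]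
            congr 1 <;>
              exact Finset.sum_congr rfl fun _ _ => Finset.sum_congr rfl fun _ _ => by ring
          have h5 : -(π : ℂ) * (z / (ω : ℂ) ^ 2)⁻¹ * ((∑ p, (η p : ℝ) ^ 2 : ℝ) : ℂ) =
              -(π : ℂ) * z⁻¹ * ((ω ^ 2 * ‖iv η‖ ^ 2 : ℝ) : ℂ) := by
            rw [← norm_iv_sq]; push_cast; field_simp
          simp only [G, h4, h5]
          ring
  rw [Fz, hs.tsum_prod]
  simp only [h2]
  rw [← hG.tsum_comm]
  refine tsum_congr fun η => ?_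
  rw [Cp, Dz, ← tsum_mul_left, ← tsum_mul_right]
  refine tsum_congr fun j => ?_
  have h6 : cexp (-(π : ℂ) * (ω : ℂ) ^ 2 * (z * ((‖iv k‖ ^ 2 : ℝ) : ℂ) +
      ((‖iv η‖ ^ 2 : ℝ) : ℂ) / z)) = cexp (-(π : ℂ) * z * ((ω ^ 2 * ‖iv k‖ ^ 2 : ℝ) : ℂ)) *
        cexp (-(π : ℂ) * z⁻¹ * ((ω ^ 2 * ‖iv η‖ ^ 2 : ℝ) : ℂ)) := by
    rw [← Complex.exp_add]
    congr 1; push_cast; ring
  simp only [G, h6]
  ring

theorem Cp_symm {ω : ℝ} {z : ℂ} (hω : 0 < ω) (hz : 0 < z.re) (k η : Zv m) :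
    Cp r ω z k η = isq z ^ (2 * m + r) * Cp r ω z⁻¹ η (-k) := by
  have _ := hω
  have h1 : isq z ^ m * isq z⁻¹ ^ m = 1 := by rw [← mul_pow, isq_mul_inv hz, one_pow]
  rw [Cp, Cp, Dz_symm hz, Bk_neg, iv_neg, norm_neg, div_inv_eq_mul, div_eq_inv_mul,
    add_comm (z⁻¹ * _), mul_comm _ z]
  linear_combination (-(ω : ℂ) ^ m * isq z ^ m * isq z ^ r * Dz z⁻¹ (Bk r η) (-Bk r k) *
    cexp (-(π : ℂ) * (ω : ℂ) ^ 2 * (z * ((‖iv k‖ ^ 2 : ℝ) : ℂ) +
      z⁻¹ * ((‖iv η‖ ^ 2 : ℝ) : ℂ)))) * h1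

theorem tsum_Cp_left {ω : ℝ} {z : ℂ} (hω : 0 < ω) (hz : 0 < z.re) (η : Zv m) (x : Xs m) :
    ∑' k : Zv m, Cp r ω z k η * ch η k x = isq z ^ (2 * m + r) * Fz r ω z⁻¹ η x := by
  rw [Fz_eq_tsum hω (re_inv_pos hz), ← tsum_mul_left, ← (Equiv.neg (Zv m)).tsum_eq]
  refine tsum_congr fun k => ?_
  rw [Equiv.neg_apply, Cp_symm hω hz, neg_neg, ← ch_swap, neg_neg, mul_assoc]

/-- the lattices of the ensemble are isodual -/
theorem theta_inv {n : ℕ} {ω t : ℝ} (hω : 0 < ω) (ht : 0 < t) (x : Xs (n / 2)) :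
    theta n ω x t⁻¹ = t ^ ((n : ℝ) / 2) * theta n ω x t := by
  have hz : 0 < (t : ℂ).re := ht
  have hs : Summable (Function.uncurry fun k η : Zv (n / 2) =>
      Cp (n % 2) ω t k η * ch η k x) := by
    refine Summable.of_norm ?_
    simpa only [Function.uncurry, norm_mul, norm_ch, mul_one] using summable_Cp hω hz
  have h1 : (theta n ω x t : ℂ) = isq t ^ n * theta n ω x t⁻¹ := by
    simp only [theta, Complex.ofReal_tsum, ← Fz_ofReal hω ht, ← Fz_ofReal hω (inv_pos.2 ht),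
      Complex.ofReal_inv]
    simp only [Fz_eq_tsum hω hz]
    rw [← hs.tsum_comm, ← tsum_mul_left]
    simp only [tsum_Cp_left hω hz, Nat.div_add_mod]
  rw [isq_ofReal ht] at h1
  have h2 : theta n ω x t = (√t)⁻¹ ^ n * theta n ω x t⁻¹ := by exact_mod_cast h1
  have h3 : t ^ ((n : ℝ) / 2) = √t ^ n := by
    rw [Real.sqrt_eq_rpow, ← Real.rpow_mul_natCast ht.le]
    congr 1; ring
  rw [h2, h3, ← mul_assoc, ← mul_pow, mul_inv_cancel₀ (Real.sqrt_pos.2 ht).ne', one_pow, one_mul]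

end Pool.Agent.Eps
end
end

-- part Pool.Agent.Lib.MP_3bda03_nt.Avg
section

set_option autoImplicit false

noncomputable section

open scoped BigOperators Classical Topology
open MeasureTheory Real Complex Filter

namespace Pool.Agent.Eps

variable {m : ℕ}

instance isProb_PP (m : ℕ) : IsProbabilityMeasure (PP m) := by
  refine ⟨?_⟩
  simp [PP, Real.volume_Icc_pi]

theorem InvW.integrable {W : Submodule ℝ (Ev m)} {H : Xs m → ℝ} (h : InvW W H) :
    Integrable H (PP m) := by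
  refine (integrable_const (1 : ℝ)).mono' h.meas.aestronglyMeasurable (ae_of_all _ fun x => ?_)
  rw [Real.norm_of_nonneg (h.nonneg x)]
  exact h.le_one x

theorem InvW.one (W : Submodule ℝ (Ev m)) : InvW W (fun _ => 1) := by
  exact ⟨measurable_const, fun _ => zero_le_one, fun _ => le_rfl, fun _ _ => rfl,
    fun _ _ _ _ _ _ => rfl⟩

theorem InvW.mul {W : Submodule ℝ (Ev m)} {H H' : Xs m → ℝ} (h : InvW W H) (h' : InvW W H') :
    InvW W (fun x => H x * H' x) := by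
  exact ⟨h.meas.mul h'.meas, fun x => mul_nonneg (h.nonneg x) (h'.nonneg x),
    fun x => mul_le_one₀ (h.le_one x) (h'.nonneg x) (h'.le_one x),
    fun N x => by rw [h.per, h'.per], fun v hv w hw s x => by rw [h.inv v hv w hw, h'.inv v hv w hw]⟩

theorem InvW.mono {W W' : Submodule ℝ (Ev m)} {H : Xs m → ℝ} (h : InvW W H) (hW : W ≤ W') :
    InvW W' H := by
  exact ⟨h.meas, h.nonneg, h.le_one, h.per, fun v hv w hw =>
    h.inv v (Submodule.orthogonal_le hW hv) w (Submodule.orthogonal_le hW hw)⟩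

/-- the integral of a periodic function over the cube is translation invariant -/
theorem integral_PP_add (f : Xs m → ℂ)
    (hf : ∀ (N : Fin m × Fin m → ℤ) (x : Xs m), f (x + fun i => (N i : ℝ)) = f x) (a : Xs m) :
    ∫ x, f (x + a) ∂PP m = ∫ x, f x ∂PP m := by
  let b := Pi.basisFun ℝ (Fin m × Fin m)
  have h1 := ZSpan.isAddFundamentalDomain' b (volume : Measure (Xs m))
  have h2 := h1.vadd_of_comm a
  have hae : PP m = volume.restrict (ZSpan.fundamentalDomain b) := by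
    rw [PP, ZSpan.fundamentalDomain_pi_basisFun]
    exact (Measure.restrict_congr_set Measure.univ_pi_Ico_ae_eq_Icc).symm
  have : Countable (Submodule.span ℤ (Set.range b)).toAddSubgroup :=
    inferInstanceAs (Countable (Submodule.span ℤ (Set.range b)))
  have h3 := h2.setIntegral_eq h1 (f := f) (fun g x => by
    obtain ⟨N, hN⟩ := (b.mem_span_iff_repr_mem ℤ g.1).1 g.2 |> fun h => (⟨fun i => (h i).choose,
      fun i => (h i).choose_spec⟩ : ∃ N : Fin m × Fin m → ℤ, ∀ i, algebraMap ℤ ℝ (N i) = b.repr g.1 i)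
    have : g +ᵥ x = x + fun i => (N i : ℝ) := by
      funext i
      have := hN i
      simp only [b, Pi.basisFun_repr, eq_intCast] at this
      change g.1 i + x i = x i + N i
      rw [this, add_comm]
    rw [this, hf])
  rw [hae, ← h3]
  have h4 := (measurePreserving_add_left (volume : Measure (Xs m)) a).setIntegral_image_emb
    (measurableEmbedding_addLeft a) f (ZSpan.fundamentalDomain b)
  simp only [add_comm a] at h4
  rw [← h4]
  congr 2
  ext y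
  simp only [Set.mem_vadd_set, Set.mem_image, vadd_eq_add, add_comm a]

theorem ee_add (s t : ℝ) : ee (s + t) = ee s * ee t := by
  simp only [ee]; rw [← Complex.exp_add]; congr 1; push_cast; ring

theorem ee_int (N : ℤ) : ee N = 1 := by
  simp only [ee]
  rw [show 2 * (π : ℂ) * I * ((N : ℝ) : ℂ) = N * (2 * π * I) by push_cast; ring]
  exact Complex.exp_int_mul_two_pi_mul_I N

theorem ee_half : ee (1 / 2) = -1 := by
  simp only [ee]
  rw [show 2 * (π : ℂ) * I * ((1 / 2 : ℝ) : ℂ) = π * I by push_cast; ring]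
  exact Complex.exp_pi_mul_I

theorem inner_iv (k : Zv m) (v : Ev m) : inner ℝ (iv k) v = ∑ p, (k p : ℝ) * v p := by
  simp [PiLp.inner_apply, iv, mul_comm]

theorem ch_per (η k : Zv m) (N : Fin m × Fin m → ℤ) (x : Xs m) :
    ch η k (x + fun i => (N i : ℝ)) = ch η k x := by
  have : ∑ p, ∑ q, η p * Th (x + fun i => (N i : ℝ)) p q * k q =
      ∑ p, ∑ q, η p * Th x p q * k q +
        ((∑ p, ∑ q, η p * (N (p, q) - N (q, p)) * k q : ℤ) : ℝ) := by
    push_cast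
    simp only [← Finset.sum_add_distrib, Th, Pi.add_apply]
    exact Finset.sum_congr rfl fun p _ => Finset.sum_congr rfl fun q _ => by ring
  rw [ch, this, ee_add, ee_int, mul_one, ch]

theorem ch_shift (η k : Zv m) (v w : Ev m) (s : ℝ) (x : Xs m) :
    ch η k (x + fun i => s * v i.1 * w i.2) = ch η k x * ee (s * wed η k v w) := by
  have : ∑ p, ∑ q, η p * Th (x + fun i => s * v i.1 * w i.2) p q * k q =
      ∑ p, ∑ q, η p * Th x p q * k q + s * wed η k v w := by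
    rw [wed, inner_iv, inner_iv, inner_iv, inner_iv, Finset.sum_mul_sum, Finset.sum_mul_sum]
    simp only [← Finset.sum_sub_distrib, Finset.mul_sum, ← Finset.sum_add_distrib, Th,
      Pi.add_apply]
    exact Finset.sum_congr rfl fun p _ => Finset.sum_congr rfl fun q _ => by ring
  rw [ch, this, ee_add, ch]

/-- characters that do not survive average to zero against invariant weights -/
theorem avg_eq_zero {W : Submodule ℝ (Ev m)} {H : Xs m → ℝ} (h : InvW W H)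
    {η₁ k₁ η₂ k₂ η₃ k₃ : Zv m} (hs : ¬ Surv W η₁ k₁ η₂ k₂ η₃ k₃) :
    ∫ x, (H x : ℂ) * (ch η₁ k₁ x * ch η₂ k₂ x * ch η₃ k₃ x) ∂PP m = 0 := by
  simp only [Surv, not_forall] at hs
  obtain ⟨v, hv, w, hw, hne⟩ := hs
  set t := wed η₁ k₁ v w + wed η₂ k₂ v w + wed η₃ k₃ v w with ht
  have h1 := integral_PP_add (fun x => (H x : ℂ) * (ch η₁ k₁ x * ch η₂ k₂ x * ch η₃ k₃ x))
    (fun N x => by simp only [h.per, ch_per]) (fun i => 1 / (2 * t) * v i.1 * w i.2)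
  have h2 : ee (1 / (2 * t) * wed η₁ k₁ v w) * ee (1 / (2 * t) * wed η₂ k₂ v w) *
      ee (1 / (2 * t) * wed η₃ k₃ v w) = -1 := by
    rw [← ee_add, ← ee_add, ← mul_add, ← mul_add, ← ht, ← ee_half]
    congr 1
    field_simp
  simp only [h.inv v hv w hw, ch_shift] at h1
  have h3 : ∀ x, (H x : ℂ) * (ch η₁ k₁ x * ee (1 / (2 * t) * wed η₁ k₁ v w) *
      (ch η₂ k₂ x * ee (1 / (2 * t) * wed η₂ k₂ v w)) *
      (ch η₃ k₃ x * ee (1 / (2 * t) * wed η₃ k₃ v w))) =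
      -((H x : ℂ) * (ch η₁ k₁ x * ch η₂ k₂ x * ch η₃ k₃ x)) := fun x => by
    linear_combination ((H x : ℂ) * (ch η₁ k₁ x * ch η₂ k₂ x * ch η₃ k₃ x)) * h2
  simp only [h3, integral_neg] at h1
  linear_combination (-1 / 2 : ℂ) * h1

theorem norm_avg_le' {W : Submodule ℝ (Ev m)} {H : Xs m → ℝ} (h : InvW W H) {g : Xs m → ℂ}
    (hg1 : ∀ x, ‖g x‖ ≤ 1) (x : Xs m) : ‖(H x : ℂ) * g x‖ ≤ H x := by
  rw [norm_mul, Complex.norm_real, Real.norm_of_nonneg (h.nonneg x)]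
  exact mul_le_of_le_one_right (h.nonneg x) (hg1 x)

theorem norm_avg_le'' {W : Submodule ℝ (Ev m)} {H : Xs m → ℝ} (h : InvW W H) {g : Xs m → ℂ}
    (hg1 : ∀ x, ‖g x‖ ≤ 1) : ‖∫ x, (H x : ℂ) * g x ∂PP m‖ ≤ ∫ x, H x ∂PP m :=
  norm_integral_le_of_norm_le h.integrable (ae_of_all _ (norm_avg_le' h hg1))

theorem hasSum_avg {W : Submodule ℝ (Ev m)} {H : Xs m → ℝ} (h : InvW W H) {ι : Type*}
    [Countable ι] {c : ι → ℂ} (hc : Summable fun i => ‖c i‖) {g : ι → Xs m → ℂ}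
    (hg : ∀ i, Continuous (g i)) (hg1 : ∀ i x, ‖g i x‖ ≤ 1) :
    HasSum (fun i => c i * ∫ x, (H x : ℂ) * g i x ∂PP m)
      (∫ x, (H x : ℂ) * ∑' i, c i * g i x ∂PP m) := by
  have hb : ∀ i x, ‖c i * ((H x : ℂ) * g i x)‖ ≤ ‖c i‖ := fun i x => by
    rw [norm_mul]
    exact mul_le_of_le_one_right (norm_nonneg _) ((norm_avg_le' h (hg1 i) x).trans (h.le_one x))
  have hi : ∀ i, Integrable (fun x => c i * ((H x : ℂ) * g i x)) (PP m) := fun i =>
    (integrable_const ‖c i‖).mono' (((Complex.measurable_ofReal.comp h.meas).mul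
      (hg i).measurable).const_mul _).aestronglyMeasurable (ae_of_all _ (hb i))
  have h1 := hasSum_integral_of_summable_integral_norm hi (Summable.of_nonneg_of_le
    (fun i => integral_nonneg fun x => norm_nonneg _) (fun i => by
      simpa using integral_mono (hi i).norm (integrable_const ‖c i‖) (hb i)) hc)
  simp only [integral_const_mul] at h1
  have e : ∀ x, (H x : ℂ) * ∑' i, c i * g i x = ∑' i, c i * ((H x : ℂ) * g i x) := fun x => by
    rw [← tsum_mul_left]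
    exact tsum_congr fun i => by ring
  simpa only [e] using h1

theorem norm_avg_tsum_le {W : Submodule ℝ (Ev m)} {H : Xs m → ℝ} (h : InvW W H) {ι : Type*}
    [Countable ι] {c : ι → ℂ} (hc : Summable fun i => ‖c i‖) {g : ι → Xs m → ℂ}
    (hg : ∀ i, Continuous (g i)) (hg1 : ∀ i x, ‖g i x‖ ≤ 1) (P : ι → Prop) [DecidablePred P]
    (hP : ∀ i, ¬ P i → ∫ x, (H x : ℂ) * g i x ∂PP m = 0) :
    ‖∫ x, (H x : ℂ) * ∑' i, c i * g i x ∂PP m‖ ≤
      (∫ x, H x ∂PP m) * ∑' i, if P i then ‖c i‖ else 0 := by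
  rw [← (hasSum_avg h hc hg hg1).tsum_eq]
  have hs : Summable fun i => if P i then ‖c i‖ else 0 :=
    Summable.of_nonneg_of_le (fun i => by split_ifs <;> simp) (fun i => by split_ifs <;> simp) hc
  refine tsum_of_norm_bounded (hs.hasSum.mul_left _) fun i => ?_
  split_ifs with hi
  · rw [norm_mul, mul_comm]
    exact mul_le_mul_of_nonneg_right (norm_avg_le'' h (hg1 i)) (norm_nonneg _)
  · simp [hP i hi]

theorem summable_ch {c : Zv m → ℂ} (hc : Summable fun η => ‖c η‖) (k : Zv m) (x : Xs m) :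
    Summable fun η => ‖c η * ch η k x‖ := by
  simpa only [norm_mul, norm_ch, mul_one] using hc

theorem norm_avg_le {W : Submodule ℝ (Ev m)} {H : Xs m → ℝ} (h : InvW W H)
    (η₁ k₁ η₂ k₂ η₃ k₃ : Zv m) :
    ‖∫ x, (H x : ℂ) * (ch η₁ k₁ x * ch η₂ k₂ x * ch η₃ k₃ x) ∂PP m‖ ≤ ∫ x, H x ∂PP m := by
  exact norm_avg_le'' h fun x => by simp [norm_ch]

/-- one absolutely convergent series of characters -/
theorem avg_one {W : Submodule ℝ (Ev m)} {H : Xs m → ℝ} (h : InvW W H) (k : Zv m)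
    {c : Zv m → ℂ} (hc : Summable fun η => ‖c η‖) (g : Xs m → ℂ) (hg : Continuous g)
    (hg1 : ∀ x, ‖g x‖ ≤ 1) :
    HasSum (fun η => c η * ∫ x, (H x : ℂ) * (ch η k x * g x) ∂PP m)
      (∫ x, (H x : ℂ) * ((∑' η, c η * ch η k x) * g x) ∂PP m) := by
  have := hasSum_avg h hc (g := fun η x => ch η k x * g x)
    (fun η => (continuous_ch η k).mul hg) (fun η x => by simpa [norm_ch] using hg1 x)
  simpa only [← mul_assoc (c _), tsum_mul_right] using this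

/-- two series, the second conjugated -/
theorem avg_two {W : Submodule ℝ (Ev m)} {H : Xs m → ℝ} (h : InvW W H) (k k' : Zv m)
    {c c' : Zv m → ℂ} (hc : Summable fun η => ‖c η‖) (hc' : Summable fun η => ‖c' η‖) :
    HasSum (fun p : Zv m × Zv m => c p.1 * starRingEnd ℂ (c' p.2) *
        ∫ x, (H x : ℂ) * (ch p.1 k x * ch (-p.2) k' x) ∂PP m)
      (∫ x, (H x : ℂ) * ((∑' η, c η * ch η k x) * starRingEnd ℂ (∑' η, c' η * ch η k' x)) ∂PP m) := by
  have hs : Summable fun p : Zv m × Zv m => ‖c p.1 * starRingEnd ℂ (c' p.2)‖ := by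
    simpa only [norm_mul, Complex.norm_conj] using
      hc.mul_of_nonneg hc' (fun _ => norm_nonneg _) (fun _ => norm_nonneg _)
  have := hasSum_avg h hs (g := fun p x => ch p.1 k x * ch (-p.2) k' x)
    (fun p => (continuous_ch _ _).mul (continuous_ch _ _)) (fun p x => by simp [norm_ch])
  convert this using 4 with x
  rw [Complex.conj_tsum, tsum_mul_tsum_of_summable_norm (summable_ch hc k x)
    (by simpa only [Complex.norm_conj] using summable_ch hc' k' x)]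
  exact tsum_congr fun p => by rw [ch_neg_left, map_mul]; ring

/-- three series, bound by the surviving terms -/
theorem avg_three_le {W : Submodule ℝ (Ev m)} {H : Xs m → ℝ} (h : InvW W H) (k₁ k₂ k₃ : Zv m)
    {c₁ c₂ c₃ : Zv m → ℂ} (h₁ : Summable fun η => ‖c₁ η‖) (h₂ : Summable fun η => ‖c₂ η‖)
    (h₃ : Summable fun η => ‖c₃ η‖) :
    ‖∫ x, (H x : ℂ) * ((∑' η, c₁ η * ch η k₁ x) * (∑' η, c₂ η * ch η k₂ x) *
        (∑' η, c₃ η * ch η k₃ x)) ∂PP m‖ ≤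
      (∫ x, H x ∂PP m) * ∑' p : Zv m × Zv m × Zv m,
        if Surv W p.1 k₁ p.2.1 k₂ p.2.2 k₃ then ‖c₁ p.1‖ * ‖c₂ p.2.1‖ * ‖c₃ p.2.2‖ else 0 := by
  have h23 := h₂.mul_of_nonneg h₃ (fun _ => norm_nonneg _) (fun _ => norm_nonneg _)
  have hs : Summable fun p : Zv m × Zv m × Zv m => ‖c₁ p.1 * (c₂ p.2.1 * c₃ p.2.2)‖ := by
    simpa only [norm_mul] using h₁.mul_of_nonneg h23 (fun _ => norm_nonneg _)
      (fun _ => mul_nonneg (norm_nonneg _) (norm_nonneg _))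
  have := norm_avg_tsum_le h hs (g := fun p x => ch p.1 k₁ x * ch p.2.1 k₂ x * ch p.2.2 k₃ x)
    (fun p => ((continuous_ch _ _).mul (continuous_ch _ _)).mul (continuous_ch _ _))
    (fun p x => by simp [norm_ch]) (fun p => Surv W p.1 k₁ p.2.1 k₂ p.2.2 k₃)
    (fun p hp => avg_eq_zero h hp)
  simp only [norm_mul, ← mul_assoc ‖c₁ _‖] at this
  convert this using 5 with x
  rw [mul_assoc, tsum_mul_tsum_of_summable_norm (summable_ch h₂ k₂ x) (summable_ch h₃ k₃ x),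
    tsum_mul_tsum_of_summable_norm (summable_ch h₁ k₁ x)
      (by simpa only [norm_mul, norm_ch, mul_one] using h23)]
  exact tsum_congr fun p => by ring

theorem avg_two_le {W : Submodule ℝ (Ev m)} {H : Xs m → ℝ} (h : InvW W H) (k₁ k₂ : Zv m)
    {c₁ c₂ : Zv m → ℂ} (h₁ : Summable fun η => ‖c₁ η‖) (h₂ : Summable fun η => ‖c₂ η‖) :
    ‖∫ x, (H x : ℂ) * ((∑' η, c₁ η * ch η k₁ x) * (∑' η, c₂ η * ch η k₂ x)) ∂PP m‖ ≤
      (∫ x, H x ∂PP m) * ∑' p : Zv m × Zv m,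
        if Surv W p.1 k₁ p.2 k₂ 0 0 then ‖c₁ p.1‖ * ‖c₂ p.2‖ else 0 := by
  have hs : Summable fun p : Zv m × Zv m => ‖c₁ p.1 * c₂ p.2‖ := by
    simpa only [norm_mul] using
      h₁.mul_of_nonneg h₂ (fun _ => norm_nonneg _) (fun _ => norm_nonneg _)
  have := norm_avg_tsum_le h hs (g := fun p x => ch p.1 k₁ x * ch p.2 k₂ x)
    (fun p => (continuous_ch _ _).mul (continuous_ch _ _))
    (fun p x => by simp [norm_ch]) (fun p => Surv W p.1 k₁ p.2 k₂ 0 0)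
    (fun p hp => by simpa only [ch_zero, mul_one] using avg_eq_zero h hp)
  simp only [norm_mul] at this
  convert this using 5 with x
  rw [tsum_mul_tsum_of_summable_norm (summable_ch h₁ k₁ x) (summable_ch h₂ k₂ x)]
  exact tsum_congr fun p => by ring

/-! ### linear algebra of survival -/

theorem exists_dual {W : Submodule ℝ (Ev m)} {a : Ev m} (ha : a ∉ W) :
    ∃ w ∈ Wᗮ, inner ℝ a w = 1 := by
  by_contra hcon
  push Not at hcon
  refine ha ?_
  rw [← W.orthogonal_orthogonal, Submodule.mem_orthogonal']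
  intro u hu
  by_contra hne
  exact hcon ((inner ℝ a u)⁻¹ • u) (Submodule.smul_mem _ _ hu)
    (by rw [inner_smul_right, inv_mul_cancel₀ hne])

theorem mem_of_inner {W : Submodule ℝ (Ev m)} {a : Ev m} (h : ∀ v ∈ Wᗮ, inner ℝ a v = 0) :
    a ∈ W := by
  rw [← W.orthogonal_orthogonal, Submodule.mem_orthogonal']
  exact h

theorem mem_ext_orth {W : Submodule ℝ (Ev m)} {k : Zv m} {v : Ev m} :
    v ∈ (ext W k)ᗮ ↔ v ∈ Wᗮ ∧ inner ℝ (iv k) v = 0 := by
  rw [ext, ← Submodule.inf_orthogonal, Submodule.mem_inf,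
    Submodule.mem_orthogonal_singleton_iff_inner_right]

theorem inner_eq_zero_of_mem {W : Submodule ℝ (Ev m)} {a v : Ev m} (ha : a ∈ W) (hv : v ∈ Wᗮ) :
    inner ℝ a v = 0 := Submodule.inner_right_of_mem_orthogonal ha hv

theorem surv_one {W : Submodule ℝ (Ev m)} {η k : Zv m} (hk : iv k ∉ W)
    (h : Surv W η k 0 0 0 0) : iv η ∈ ext W k := by
  obtain ⟨w, hw, h1⟩ := exists_dual hk
  refine mem_of_inner fun v hv => ?_
  obtain ⟨hv, h2⟩ := mem_ext_orth.1 hv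
  simpa [wed, iv_zero, h1, h2] using h v hv w hw

theorem avg_one_le {W : Submodule ℝ (Ev m)} {H : Xs m → ℝ} (h : InvW W H) {k : Zv m}
    (hk : iv k ∉ W) {c : Zv m → ℂ} (hc : Summable fun η => ‖c η‖) :
    ‖∫ x, (H x : ℂ) * (∑' η, c η * ch η k x) ∂PP m‖ ≤
      (∫ x, H x ∂PP m) * ∑' η, if iv η ∈ ext W k then ‖c η‖ else 0 := by
  exact norm_avg_tsum_le h hc (fun η => continuous_ch η k) (fun η x => (norm_ch η k x).le) _
    fun η hη => by
      simpa only [ch_zero, mul_one] using avg_eq_zero h (fun hs => hη (surv_one hk hs))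

theorem surv_indep {W : Submodule ℝ (Ev m)} {η k η' k' : Zv m} (hk : iv k ∉ W)
    (hk' : iv k' ∉ ext W k) (h : Surv W η k η' k' 0 0) :
    ∃ a b c : ℝ, iv η - a • iv k - b • iv k' ∈ W ∧ iv η' - b • iv k - c • iv k' ∈ W := by
  obtain ⟨u, hu, a1⟩ := exists_dual hk
  obtain ⟨v₂, hv₂, a2⟩ := exists_dual hk'
  obtain ⟨hv₂, a3⟩ := mem_ext_orth.1 hv₂
  obtain ⟨v₁, hv₁, a4, a5⟩ : ∃ v₁ ∈ Wᗮ, inner ℝ (iv k) v₁ = 1 ∧ inner ℝ (iv k') v₁ = 0 :=
    ⟨u - inner ℝ (iv k') u • v₂, Submodule.sub_mem _ hu (Submodule.smul_mem _ _ hv₂),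
      by simp [inner_sub_right, inner_smul_right, a1, a3],
      by simp [inner_sub_right, inner_smul_right, a2]⟩
  have hb := h v₂ hv₂ v₁ hv₁
  simp only [wed, iv_zero, inner_zero_left, a2, a3, a4, a5] at hb
  refine ⟨inner ℝ (iv η) v₁, inner ℝ (iv η) v₂, inner ℝ (iv η') v₂,
    mem_of_inner fun v hv => ?_, mem_of_inner fun v hv => ?_⟩
  · have := h v hv v₁ hv₁
    simp only [wed, iv_zero, inner_zero_left, a4, a5] at this
    simp only [inner_sub_left, real_inner_smul_left]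
    linear_combination this - inner ℝ (iv k') v * hb
  · have := h v hv v₂ hv₂
    simp only [wed, iv_zero, inner_zero_left, a2, a3] at this
    simp only [inner_sub_left, real_inner_smul_left]
    linear_combination this

theorem surv_par {W : Submodule ℝ (Ev m)} {η k η' k' : Zv m} {p q : ℤ} (hk : iv k ∉ W)
    (hq : q ≠ 0) (hpq : iv (q • k' - p • k) ∈ W) (h : Surv W η k η' k' 0 0) :
    iv (q • η + p • η') ∈ ext W k := by
  obtain ⟨w, hw, h1⟩ := exists_dual hk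
  refine mem_of_inner fun v hv => ?_
  obtain ⟨hv, h2⟩ := mem_ext_orth.1 hv
  have e1 := inner_eq_zero_of_mem hpq hv
  have e2 := inner_eq_zero_of_mem hpq hw
  have e3 := h v hv w hw
  simp only [iv_sub, iv_zsmul, inner_sub_left, real_inner_smul_left, h1, h2] at e1 e2
  have e4 : inner ℝ (iv k') v = 0 := by
    have hq' : (q : ℝ) ≠ 0 := by exact_mod_cast hq
    simpa [hq'] using e1
  simp only [wed, iv_zero, inner_zero_left, h1, h2, e4] at e3
  simp only [iv_add, iv_zsmul, inner_add_left, real_inner_smul_left]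
  linear_combination (q : ℝ) * e3 - inner ℝ (iv η') v * e2

/-- a third pair whose vector is an integer combination modulo `W` can be absorbed -/
theorem surv_three {W : Submodule ℝ (Ev m)} {η₁ k₁ η₂ k₂ η₃ k₃ : Zv m} {a b : ℤ}
    (h₃ : iv (k₃ - a • k₁ - b • k₂) ∈ W) (h : Surv W η₁ k₁ η₂ k₂ η₃ k₃) :
    Surv W (η₁ + a • η₃) k₁ (η₂ + b • η₃) k₂ 0 0 := by
  intro v hv w hw
  have e1 := inner_eq_zero_of_mem h₃ hv
  have e2 := inner_eq_zero_of_mem h₃ hw
  have e3 := h v hv w hw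
  simp only [iv_sub, iv_zsmul, inner_sub_left, real_inner_smul_left] at e1 e2
  simp only [wed, iv_zero, inner_zero_left, iv_add, iv_zsmul, inner_add_left,
    real_inner_smul_left] at e3 ⊢
  linear_combination e3 - inner ℝ (iv η₃) v * e2 + inner ℝ (iv η₃) w * e1

end Pool.Agent.Eps
end
end
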