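import Pool.Agent.Lib.MP_3bda03_nt.TestA
import Pool.Agent.Lib.MP_3bda03_nt.Avg

-- part Pool.Agent.Lib.MP_3bda03_nt.TestB
section

/-!
The paraboloid test, probabilistic part: expectation of the dominating functional from first and
second moments (Schur test).
-/

set_option autoImplicit false

noncomputable section

open MeasureTheory Real Set

namespace Pool.Agent.Eps.Tst

variable {Ω : Type} [MeasurableSpace Ω] {μ : Measure Ω} [IsProbabilityMeasure μ]
  {F : ℝ → Ω → ℝ} {C : ℝ}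

lemma first_le {ν : Measure ℝ} [IsFiniteMeasure ν] (hF : Measurable (Function.uncurry F))
    (hC : ∀ u x, |F u x| ≤ C) {ψ : ℝ → ℝ} (hψ : Measurable ψ) {P : ℝ} (hP : ∀ u, |ψ u| ≤ P)
    {δ : ℝ} (h1 : ∀ᵐ u ∂ν, |∫ x, F u x ∂μ| ≤ δ) :
    ∫ x, (∫ u, ψ u * F u x ∂ν) ∂μ ≤ δ * ∫ u, |ψ u| ∂ν := by
  have hi : Integrable (Function.uncurry fun x u => ψ u * F u x) (μ.prod ν) :=
    int_bdd ((hψ.comp measurable_snd).mul (hF.comp measurable_swap)) (C := P * C)
      (ae_of_all _ fun p => by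
        simp only [Function.uncurry]
        rw [abs_mul]
        exact mul_le_mul (hP _) (hC _ _) (abs_nonneg _) ((abs_nonneg _).trans (hP 0)))
  rw [integral_integral_swap hi, ← integral_const_mul]
  refine (le_abs_self _).trans (norm_integral_le_of_norm_le
    (f := fun u => ∫ x, ψ u * F u x ∂μ) ((int_bdd hψ (ae_of_all _ hP)).abs.const_mul δ) ?_)
  filter_upwards [h1] with u hu
  rw [integral_const_mul, Real.norm_eq_abs, abs_mul, mul_comm]
  gcongr

lemma quad_le {ν : Measure ℝ} [IsFiniteMeasure ν] (hF : Measurable (Function.uncurry F))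
    (hC : ∀ u x, |F u x| ≤ C) {ψ : ℝ → ℝ} (hψ : Measurable ψ) {P : ℝ} (hP : ∀ u, |ψ u| ≤ P)
    {K : ℝ → ℝ → ℝ} (hK : Measurable (Function.uncurry K)) (hKs : ∀ u u', K u u' = K u' u)
    (hK0 : ∀ u u', 0 ≤ K u u') {KB : ℝ} (hK1 : ∀ u u', K u u' ≤ KB) {k : ℝ}
    (hk : ∀ u, ∫ u', K u u' ∂ν ≤ k) {m : ℝ → ℝ} (hm : Measurable m) {MB : ℝ}
    (hm1 : ∀ u, |m u| ≤ MB)
    (h2 : ∀ᵐ p ∂(ν.prod ν), |∫ x, F p.1 x * F p.2 x ∂μ| ≤ K p.1 p.2 + m p.1 * m p.2) :
    ∫ x, (∫ u, ψ u * F u x ∂ν) ^ 2 ∂μ ≤ k * (∫ u, ψ u ^ 2 ∂ν) + (∫ u, |ψ u| * m u ∂ν) ^ 2 := by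
  have hP0 : 0 ≤ P := (abs_nonneg _).trans (hP 0)
  have hb : ∀ u x, |ψ u * F u x| ≤ P * C := fun u x => by
    rw [abs_mul]; exact mul_le_mul (hP _) (hC _ _) (abs_nonneg _) hP0
  have hi : Integrable (Function.uncurry fun x (p : ℝ × ℝ) => (ψ p.1 * F p.1 x) * (ψ p.2 * F p.2 x))
      (μ.prod (ν.prod ν)) :=
    int_bdd (((hψ.comp measurable_snd.fst).mul
      (hF.comp (measurable_snd.fst.prodMk measurable_fst))).mul ((hψ.comp measurable_snd.snd).mul
      (hF.comp (measurable_snd.snd.prodMk measurable_fst)))) (C := P * C * (P * C))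
      (ae_of_all _ fun p => by
        simp only [Function.uncurry]
        rw [abs_mul]
        exact mul_le_mul (hb _ _) (hb _ _) (abs_nonneg _) ((abs_nonneg _).trans (hb 0 p.1)))
  have e1 : ∀ x, (∫ u, ψ u * F u x ∂ν) ^ 2 =
      ∫ p : ℝ × ℝ, (ψ p.1 * F p.1 x) * (ψ p.2 * F p.2 x) ∂(ν.prod ν) := fun x => by
    rw [integral_prod_mul (fun u => ψ u * F u x) (fun u => ψ u * F u x), sq]
  simp_rw [e1]
  rw [integral_integral_swap hi]
  have hsq : ∀ u, |ψ u ^ 2| ≤ P ^ 2 := fun u => by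
    rw [abs_pow]; exact pow_le_pow_left₀ (abs_nonneg _) (hP u) 2
  have i1 : Integrable (fun p : ℝ × ℝ => ψ p.1 ^ 2 * K p.1 p.2) (ν.prod ν) :=
    int_bdd (((hψ.comp measurable_fst).pow_const 2).mul hK) (C := P ^ 2 * KB)
      (ae_of_all _ fun p => by
        rw [abs_mul, abs_of_nonneg (hK0 _ _)]
        exact mul_le_mul (hsq _) (hK1 _ _) (hK0 _ _) (by positivity))
  have i2 : Integrable (fun p : ℝ × ℝ => ψ p.2 ^ 2 * K p.2 p.1) (ν.prod ν) := i1.swap
  have i3 : Integrable (fun u => |ψ u| * m u) ν :=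
    int_bdd (hψ.abs.mul hm) (C := P * MB) (ae_of_all _ fun u => by
      rw [abs_mul, abs_abs]; exact mul_le_mul (hP _) (hm1 _) (abs_nonneg _) hP0)
  have i4 := i3.mul_prod i3
  have b1 : ∫ p : ℝ × ℝ, ψ p.1 ^ 2 * K p.1 p.2 ∂(ν.prod ν) ≤ k * ∫ u, ψ u ^ 2 ∂ν := by
    rw [integral_prod _ i1, ← integral_const_mul]
    refine integral_mono i1.integral_prod_left
      ((int_bdd (hψ.pow_const 2) (ae_of_all _ hsq)).const_mul k) fun u => ?_
    simp only
    rw [integral_const_mul, mul_comm]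
    exact mul_le_mul_of_nonneg_right (hk u) (sq_nonneg _)
  have b2 : ∫ p : ℝ × ℝ, ψ p.2 ^ 2 * K p.2 p.1 ∂(ν.prod ν) =
      ∫ p : ℝ × ℝ, ψ p.1 ^ 2 * K p.1 p.2 ∂(ν.prod ν) :=
    integral_prod_swap fun p : ℝ × ℝ => ψ p.1 ^ 2 * K p.1 p.2
  calc _ ≤ ∫ p : ℝ × ℝ, ((ψ p.1 ^ 2 * K p.1 p.2 + ψ p.2 ^ 2 * K p.2 p.1) / 2 +
        |ψ p.1| * m p.1 * (|ψ p.2| * m p.2)) ∂(ν.prod ν) := by
        refine (le_abs_self _).trans (norm_integral_le_of_norm_le
          (f := fun p : ℝ × ℝ => ∫ x, (ψ p.1 * F p.1 x) * (ψ p.2 * F p.2 x) ∂μ)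
          (((i1.add i2).div_const 2).add i4) ?_)
        filter_upwards [h2] with p hp
        have : ∀ x, (ψ p.1 * F p.1 x) * (ψ p.2 * F p.2 x) =
            ψ p.1 * ψ p.2 * (F p.1 x * F p.2 x) := fun x => by ring
        simp_rw [this]
        rw [integral_const_mul, Real.norm_eq_abs, abs_mul, abs_mul, hKs p.2 p.1]
        have h3 := mul_le_mul_of_nonneg_left hp (mul_nonneg (abs_nonneg (ψ p.1)) (abs_nonneg (ψ p.2)))
        have h4 : |ψ p.1| * |ψ p.2| ≤ (ψ p.1 ^ 2 + ψ p.2 ^ 2) / 2 := by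
          nlinarith [sq_nonneg (|ψ p.1| - |ψ p.2|), sq_abs (ψ p.1), sq_abs (ψ p.2)]
        have h5 := mul_le_mul_of_nonneg_right h4 (hK0 p.1 p.2)
        linarith
    _ ≤ _ := by
        have i5 : Integrable (fun p : ℝ × ℝ =>
          (ψ p.1 ^ 2 * K p.1 p.2 + ψ p.2 ^ 2 * K p.2 p.1) / 2) (ν.prod ν) := (i1.add i2).div_const 2
        rw [integral_add i5 i4, integral_div, integral_add i1 i2, b2,
          integral_prod_mul (fun u => |ψ u| * m u) (fun u => |ψ u| * m u)]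
        linarith

lemma measurable_be (v : ℝ) (hF : Measurable (Function.uncurry F)) :
    Measurable fun x => be v (fun u => F u x) :=
  (StronglyMeasurable.integral_prod_left (μ := volume.restrict (Ioc 0 v)) (f := F)
    hF.stronglyMeasurable).measurable

lemma abs_be_le {v : ℝ} (hv : 0 < v) {f : ℝ → ℝ} (hC : ∀ u, |f u| ≤ C) : |be v f| ≤ C * v := by
  have := norm_integral_le_of_norm_le_const (μ := volume.restrict (Ioc 0 v)) (f := f) (C := C)
    (ae_of_all _ hC)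
  simpa [hv.le, be] using this

theorem expect (hF : Measurable (Function.uncurry F)) (hC : ∀ u x, |F u x| ≤ C) {v c δ : ℝ}
    (hv : 0.3 ≤ v) (hv' : v ≤ 0.5) (hc : 0 < c) (hδ : 0 ≤ δ)
    (h1 : ∀ u ∈ Ioc 0 v, |∫ x, F u x ∂μ| ≤ δ)
    {K : ℝ → ℝ → ℝ} (hK : Measurable (Function.uncurry K)) (hKs : ∀ u u', K u u' = K u' u)
    (hK0 : ∀ u u', 0 ≤ K u u') {KB : ℝ} (hK1 : ∀ u u', K u u' ≤ KB) {k : ℝ}
    (hk : ∀ u, ∫ u' in Ioc 0 v, K u u' ≤ k) {b : ℝ → ℝ} (hb : Measurable b) {MB : ℝ}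
    (hb0 : ∀ u, 0 ≤ b u) (hb1 : ∀ u, b u ≤ MB) {M : ℝ} (hM : ∫ u in Ioc 0 v, b u ≤ M)
    (h2 : ∀ u ∈ Ioc 0 v, ∀ u' ∈ Ioc 0 v, |∫ x, F u x * F u' x ∂μ| ≤ K u u' +
      ((if u ≤ 0.1 then b u else 0) + δ) * ((if u' ≤ 0.1 then b u' else 0) + δ)) :
    Integrable (fun x => DD v c (fun u => F u x)) μ ∧
      ∫ x, DD v c (fun u => F u x) ∂μ ≤ δ + (0.4955 * k * v + (M + δ) ^ 2) / (2 * c) + c / 2 := by
  have hv0 : 0 < v := by linarith
  set m : ℝ → ℝ := fun u => (if u ≤ 0.1 then b u else 0) + δ with hm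
  have mm : Measurable m := (Measurable.ite measurableSet_Iic hb measurable_const).add_const δ
  have m0 : ∀ u, 0 ≤ m u := fun u => by
    simp only [hm]; split_ifs <;> linarith [hb0 u]
  have m1 : ∀ u, |m u| ≤ MB + δ := fun u => by
    rw [abs_of_nonneg (m0 u)]
    simp only [hm]; split_ifs <;> linarith [hb0 u, hb1 u]
  have ib : Integrable b (volume.restrict (Ioc 0 v)) :=
    int_bdd hb (C := MB) (ae_of_all _ fun u => by rw [abs_of_nonneg (hb0 u)]; exact hb1 u)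
  have a1 : ∀ᵐ u ∂(volume.restrict (Ioc 0 v)), |∫ x, F u x ∂μ| ≤ δ := by
    filter_upwards [ae_restrict_mem measurableSet_Ioc] with u hu using h1 u hu
  have a2 : ∀ᵐ p ∂((volume.restrict (Ioc 0 v)).prod (volume.restrict (Ioc 0 v))),
      |∫ x, F p.1 x * F p.2 x ∂μ| ≤ K p.1 p.2 + m p.1 * m p.2 := by
    rw [Measure.prod_restrict]
    filter_upwards [ae_restrict_mem (measurableSet_Ioc.prod measurableSet_Ioc)] with p hp
      using h2 _ hp.1 _ hp.2
  have gen : ∀ (ψ : ℝ → ℝ) (P : ℝ), Measurable ψ → (∀ u, |ψ u| ≤ P) → (∀ u ≤ 0.1, |ψ u| ≤ 1) →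
      ∫ u in Ioc 0 v, |ψ u| ≤ 1 →
      ∫ x, (∫ u in Ioc 0 v, ψ u * F u x) ∂μ ≤ δ ∧
      ∫ x, (∫ u in Ioc 0 v, ψ u * F u x) ^ 2 ∂μ ≤ k * (∫ u in Ioc 0 v, ψ u ^ 2) + (M + δ) ^ 2 := by
    intro ψ P hψ hP hs h1
    refine ⟨(first_le hF hC hψ hP a1).trans (mul_le_of_le_one_right hδ h1),
      (quad_le hF hC hψ hP hK hKs hK0 hK1 hk mm m1 a2).trans ?_⟩
    have iψ := (int_bdd (ν := volume.restrict (Ioc 0 v)) hψ (ae_of_all _ hP)).abs
    have h3 : ∫ u in Ioc 0 v, |ψ u| * m u ≤ ∫ u in Ioc 0 v, (b u + δ * |ψ u|) := by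
      refine integral_mono_of_nonneg (ae_of_all _ fun u => mul_nonneg (abs_nonneg _) (m0 u))
        (ib.add (iψ.const_mul δ)) (ae_of_all _ fun u => ?_)
      simp only [hm]
      split_ifs with h
      · nlinarith [hs u h, hb0 u]
      · nlinarith [hb0 u]
    rw [integral_add ib (iψ.const_mul δ), integral_const_mul] at h3
    have h4 : 0 ≤ ∫ u in Ioc 0 v, |ψ u| * m u :=
      integral_nonneg fun u => mul_nonneg (abs_nonneg _) (m0 u)
    have h5 := mul_le_of_le_one_right hδ h1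
    gcongr
    linarith
  obtain ⟨g1, g2⟩ := gen (fun _ => 1) 1 measurable_const (by simp) (by simp)
    (by simp [hv0.le]; linarith)
  simp only [one_mul, one_pow, integral_const, MeasurableSet.univ, measureReal_restrict_apply,
    univ_inter, Real.volume_real_Ioc, sub_zero, max_eq_left hv0.le, smul_eq_mul, mul_one] at g1 g2
  have g3 : ∀ σ ∈ Ioc (0 : ℝ) 1, ∫ x, BB v (fun u => F u x) σ ∂μ ≤ δ ∧
      ∫ x, BB v (fun u => F u x) σ ^ 2 ∂μ ≤ k * (v * (1 - σ ^ 2)) + (M + δ) ^ 2 := fun σ hσ => by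
    have := gen (psi v σ) _ (measurable_psi' v σ) (abs_psi_le hσ.1 hσ.2)
      (fun u hu => abs_psi_small hv hσ.1 hσ.2 hu) ((int_abs_psi hv0 hσ.1 hσ.2).trans (by linarith))
    rwa [int_sq_psi hv0 hσ.1 hσ.2] at this
  have ibe : Integrable (fun x => be v (fun u => F u x)) μ :=
    int_bdd (measurable_be v hF) (ae_of_all _ fun x => abs_be_le hv0 fun u => hC u x)
  have ibe2 : Integrable (fun x => be v (fun u => F u x) ^ 2) μ :=
    int_bdd ((measurable_be v hF).pow_const 2) (C := (C * v) ^ 2) (ae_of_all _ fun x => by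
      rw [abs_pow]; exact pow_le_pow_left₀ (abs_nonneg _) (abs_be_le hv0 fun u => hC u x) 2)
  have iB : ∀ j : ℕ, Integrable (fun p : Ω × ℝ => BB v (fun u => F u p.1) p.2 ^ j)
      (μ.prod (volume.restrict (Ioc (0 : ℝ) 1))) := fun j => by
    refine int_bdd ((measurable_BB v hF).pow_const j) (C := (C * (2 * v)) ^ j) ?_
    have : μ.prod (volume.restrict (Ioc (0 : ℝ) 1)) =
        (μ.prod volume).restrict (univ ×ˢ Ioc (0 : ℝ) 1) := by
      rw [← Measure.prod_restrict, Measure.restrict_univ]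
    rw [this]
    filter_upwards [ae_restrict_mem (MeasurableSet.univ.prod measurableSet_Ioc)] with p hp
    rw [abs_pow]
    exact pow_le_pow_left₀ (abs_nonneg _) (abs_BB_le hv0 hp.2.1 hp.2.2 fun u => hC u _) j
  have iB1 := iB 1
  simp only [pow_one] at iB1
  have iP : Integrable (Function.uncurry fun x σ => 0.1672 * BB v (fun u => F u x) σ +
      0.273 * BB v (fun u => F u x) σ ^ 2 / (2 * c)) (μ.prod (volume.restrict (Ioc (0 : ℝ) 1))) :=
    (iB1.const_mul _).add (((iB 2).const_mul _).div_const _)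
  have j1 : Integrable (fun x => 0.47 * be v (fun u => F u x) +
      0.3135 * be v (fun u => F u x) ^ 2 / (2 * c)) μ :=
    (ibe.const_mul 0.47).add ((ibe2.const_mul 0.3135).div_const (2 * c))
  have j2 : Integrable (fun x => ∫ σ in Ioc (0 : ℝ) 1, (0.1672 * BB v (fun u => F u x) σ +
      0.273 * BB v (fun u => F u x) σ ^ 2 / (2 * c))) μ := iP.integral_prod_left
  have j3 : Integrable (fun x => 0.47 * be v (fun u => F u x) +
      0.3135 * be v (fun u => F u x) ^ 2 / (2 * c) +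
      ∫ σ in Ioc (0 : ℝ) 1, (0.1672 * BB v (fun u => F u x) σ +
      0.273 * BB v (fun u => F u x) σ ^ 2 / (2 * c))) μ := j1.add j2
  refine ⟨j3.add (integrable_const (c / 2)), ?_⟩
  have g4 : ∫ x, (∫ σ in Ioc (0 : ℝ) 1, (0.1672 * BB v (fun u => F u x) σ +
      0.273 * BB v (fun u => F u x) σ ^ 2 / (2 * c))) ∂μ ≤
      0.1672 * δ + 0.273 * (k * v * (2 / 3) + (M + δ) ^ 2) / (2 * c) := by
    rw [integral_integral_swap iP]
    have e : ∫ σ in Ioc (0 : ℝ) 1, (0.1672 * δ + 0.273 * (k * (v * (1 - σ ^ 2)) + (M + δ) ^ 2) /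
        (2 * c)) = 0.1672 * δ + 0.273 * (k * v * (2 / 3) + (M + δ) ^ 2) / (2 * c) := by
      rw [← intervalIntegral.integral_of_le zero_le_one]
      have h : ∀ σ ∈ uIcc (0 : ℝ) 1, HasDerivAt (fun σ : ℝ =>
          (0.1672 * δ + 0.273 * (k * v + (M + δ) ^ 2) / (2 * c)) * σ -
            0.273 * (k * v) / (6 * c) * σ ^ 3)
          (0.1672 * δ + 0.273 * (k * (v * (1 - σ ^ 2)) + (M + δ) ^ 2) / (2 * c)) σ := by
        intro σ _
        refine (((hasDerivAt_id σ).const_mul _).sub ((hasDerivAt_pow 3 σ).const_mul _)).congr_deriv ?_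
        push_cast
        field_simp
        ring
      rw [intervalIntegral.integral_eq_sub_of_hasDerivAt h (Continuous.intervalIntegrable
        (by fun_prop) _ _)]
      field_simp
      ring
    rw [← e]
    refine integral_mono_ae iP.integral_prod_right
      (Continuous.intervalIntegrable (by fun_prop) 0 1).1 ?_
    filter_upwards [ae_restrict_mem measurableSet_Ioc, iB1.prod_left_ae, (iB 2).prod_left_ae]
      with σ hσ k1 k2
    rw [integral_add (k1.const_mul _) ((k2.const_mul _).div_const _), integral_div,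
      integral_const_mul, integral_const_mul]
    have := g3 σ hσ
    gcongr
    exacts [this.1, this.2]
  unfold DD
  rw [integral_add j3 (integrable_const _), integral_add j1 j2,
    integral_add (ibe.const_mul _) ((ibe2.const_mul _).div_const _), integral_div,
    integral_const_mul, integral_const_mul]
  simp only [integral_const, probReal_univ, smul_eq_mul, one_mul]
  have g5 : 0.3135 * (∫ x, be v (fun u => F u x) ^ 2 ∂μ) / (2 * c) ≤
      0.3135 * (k * v + (M + δ) ^ 2) / (2 * c) := by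
    gcongr
    exact g2
  have g6 : ∫ x, be v (fun u => F u x) ∂μ ≤ δ := g1
  have g7 : 0.3135 * (k * v + (M + δ) ^ 2) / (2 * c) +
      0.273 * (k * v * (2 / 3) + (M + δ) ^ 2) / (2 * c) ≤
      (0.4955 * k * v + (M + δ) ^ 2) / (2 * c) := by
    rw [← add_div]
    refine div_le_div_of_nonneg_right ?_ (by positivity)
    nlinarith [sq_nonneg (M + δ)]
  linarith

end Pool.Agent.Eps.Tst
end
end

-- part Pool.Agent.Lib.MP_3bda03_nt.Ana
section

set_option autoImplicit false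

noncomputable section

open scoped BigOperators Classical Topology
open MeasureTheory Real Complex Filter

namespace Pool.Agent.Eps

/-- theta series of the lattice spanned by the columns of a matrix -/
def thetaM {n : ℕ} (A : Matrix (Fin n) (Fin n) ℝ) (t : ℝ) : ℝ :=
  ∑' k : Fin n → ℤ, rexp (-π * t * ∑ i, (∑ j, A i j * ((k j : ℤ) : ℝ)) ^ 2)

/-- squared length of a lattice vector -/
def Qm {n : ℕ} (A : Matrix (Fin n) (Fin n) ℝ) (k : Fin n → ℤ) : ℝ :=
  ∑ i, (∑ j, A i j * ((k j : ℤ) : ℝ)) ^ 2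

theorem thetaM_eq {n : ℕ} (A : Matrix (Fin n) (Fin n) ℝ) (t : ℝ) :
    thetaM A t = ∑' k : Fin n → ℤ, rexp (-π * t * Qm A k) := rfl

theorem Qm_nonneg {n : ℕ} (A : Matrix (Fin n) (Fin n) ℝ) (k : Fin n → ℤ) : 0 ≤ Qm A k :=
  Finset.sum_nonneg fun _ _ => sq_nonneg _

theorem Qm_zero {n : ℕ} (A : Matrix (Fin n) (Fin n) ℝ) : Qm A 0 = 0 := by
  simp [Qm]

theorem Qm_coer {n : ℕ} (A : Matrix (Fin n) (Fin n) ℝ) (hA : A.det ≠ 0) :
    ∃ c : ℝ, 0 < c ∧ ∀ k : Fin n → ℤ, c * ∑ j, ((k j : ℤ) : ℝ) ^ 2 ≤ Qm A k := by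
  set B := A⁻¹ with hB
  have hBA : B * A = 1 := Matrix.nonsing_inv_mul A (isUnit_iff_ne_zero.mpr hA)
  set S : ℝ := ∑ j, ∑ i, B j i ^ 2 with hS
  have hS0 : 0 ≤ S := Finset.sum_nonneg fun _ _ => Finset.sum_nonneg fun _ _ => sq_nonneg _
  refine ⟨1 / (S + 1), by positivity, fun k => ?_⟩
  have h1 : ∀ j, ((k j : ℤ) : ℝ) = ∑ i, B j i * ∑ l, A i l * ((k l : ℤ) : ℝ) := by
    intro j
    have : (B * A).mulVec (fun l => ((k l : ℤ) : ℝ)) j = ((k j : ℤ) : ℝ) := by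
      rw [hBA, Matrix.one_mulVec]
    rw [← this, ← Matrix.mulVec_mulVec]
    simp [Matrix.mulVec, dotProduct]
  have h2 : ∀ j, ((k j : ℤ) : ℝ) ^ 2 ≤ (∑ i, B j i ^ 2) * Qm A k := by
    intro j
    rw [h1 j]
    exact Finset.sum_mul_sq_le_sq_mul_sq _ _ _
  have h3 : ∑ j, ((k j : ℤ) : ℝ) ^ 2 ≤ S * Qm A k := by
    rw [hS, Finset.sum_mul]
    exact Finset.sum_le_sum fun j _ => h2 j
  have hQ := Qm_nonneg A k
  rw [one_div, inv_mul_le_iff₀ (by positivity)]
  nlinarith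

theorem ana_one_le_sum_sq {n : ℕ} {k : Fin n → ℤ} (hk : k ≠ 0) : (1 : ℝ) ≤ ∑ j, ((k j : ℤ) : ℝ) ^ 2 := by
  obtain ⟨j, hj⟩ := Function.ne_iff.mp hk
  have h1 : (1 : ℤ) ≤ k j ^ 2 := by
    have : 0 < k j ^ 2 := by
      have : k j ≠ 0 := hj
      positivity
    omega
  have h2 : (1 : ℝ) ≤ ((k j : ℤ) : ℝ) ^ 2 := by exact_mod_cast h1
  exact h2.trans (Finset.single_le_sum (f := fun j => ((k j : ℤ) : ℝ) ^ 2)
    (fun _ _ => sq_nonneg _) (Finset.mem_univ j))

theorem Qm_pos {n : ℕ} (A : Matrix (Fin n) (Fin n) ℝ) (hA : A.det ≠ 0) {k : Fin n → ℤ}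
    (hk : k ≠ 0) : 0 < Qm A k := by
  obtain ⟨c, hc, h⟩ := Qm_coer A hA
  have := ana_one_le_sum_sq hk
  have := h k
  nlinarith

theorem summable_Qm_rpow {n : ℕ} (A : Matrix (Fin n) (Fin n) ℝ) (hA : A.det ≠ 0) {σ : ℝ}
    (hσ : (n : ℝ) / 2 < σ) :
    Summable fun k : {k : Fin n → ℤ // k ≠ 0} => Qm A k.1 ^ (-σ) := by
  obtain ⟨c, hc, h⟩ := Qm_coer A hA
  set b := Pi.basisFun ℝ (Fin n) with hb
  set L : Submodule ℤ (Fin n → ℝ) := Submodule.span ℤ (Set.range b) with hL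
  have hrk : Module.finrank ℤ L = n := by
    rw [Module.finrank_eq_card_basis (b.restrictScalars ℤ), Fintype.card_fin]
  have hs := ZLattice.summable_norm_rpow L (-(2 * σ)) (by rw [hrk]; linarith)
  have hmem : ∀ k : Fin n → ℤ, (fun j => ((k j : ℤ) : ℝ)) ∈ L := by
    intro k
    rw [hL, Module.Basis.mem_span_iff_repr_mem]
    intro i
    exact ⟨k i, by simp [hb]⟩
  let φ : {k : Fin n → ℤ // k ≠ 0} → L := fun k => ⟨_, hmem k.1⟩
  have hφ : Function.Injective φ := by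
    intro k k' hkk
    have : (fun j => ((k.1 j : ℤ) : ℝ)) = fun j => ((k'.1 j : ℤ) : ℝ) := congrArg Subtype.val hkk
    ext j
    exact_mod_cast congrFun this j
  have hσ0 : 0 < σ := lt_of_le_of_lt (by positivity) hσ
  refine Summable.of_nonneg_of_le (fun k => Real.rpow_nonneg (Qm_nonneg A _) _) (fun k => ?_)
    ((hs.comp_injective hφ).mul_left (c ^ (-σ)))
  have hn1 : ‖φ k‖ ^ 2 ≤ ∑ j, ((k.1 j : ℤ) : ℝ) ^ 2 := by
    have h0 : 0 ≤ ∑ j, ((k.1 j : ℤ) : ℝ) ^ 2 := Finset.sum_nonneg fun _ _ => sq_nonneg _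
    have : ‖φ k‖ ≤ √(∑ j, ((k.1 j : ℤ) : ℝ) ^ 2) := by
      change ‖(fun j => ((k.1 j : ℤ) : ℝ))‖ ≤ _
      refine (pi_norm_le_iff_of_nonneg (Real.sqrt_nonneg _)).mpr fun j => ?_
      rw [Real.norm_eq_abs]
      exact Real.abs_le_sqrt (Finset.single_le_sum (f := fun j => ((k.1 j : ℤ) : ℝ) ^ 2)
        (fun _ _ => sq_nonneg _) (Finset.mem_univ j))
    calc ‖φ k‖ ^ 2 ≤ √(∑ j, ((k.1 j : ℤ) : ℝ) ^ 2) ^ 2 := by gcongr
      _ = _ := Real.sq_sqrt h0
  have hpos : 0 < ‖φ k‖ := by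
    rw [norm_pos_iff]
    intro h0
    apply k.2
    have : (fun j => ((k.1 j : ℤ) : ℝ)) = 0 := congrArg Subtype.val h0
    ext j
    have := congrFun this j
    simpa using this
  have hle : c * ‖φ k‖ ^ 2 ≤ Qm A k.1 := le_trans (by gcongr) (h k.1)
  calc Qm A k.1 ^ (-σ) ≤ (c * ‖φ k‖ ^ 2) ^ (-σ) :=
        Real.rpow_le_rpow_of_nonpos (by positivity) hle (by linarith)
    _ = c ^ (-σ) * ‖φ k‖ ^ (-(2 * σ)) := by
        rw [Real.mul_rpow hc.le (by positivity), ← Real.rpow_natCast, ← Real.rpow_mul hpos.le]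
        congr 2
        push_cast
        ring

theorem summable_thetaM {n : ℕ} (A : Matrix (Fin n) (Fin n) ℝ) (hA : A.det ≠ 0) {t : ℝ}
    (ht : 0 < t) : Summable fun k : Fin n → ℤ => rexp (-π * t * Qm A k) := by
  obtain ⟨c, hc, h⟩ := Qm_coer A hA
  refine Summable.of_nonneg_of_le (fun k => (Real.exp_pos _).le) (fun k => ?_)
    (summable_gauss (mul_pos ht hc) (0 : Ev n))
  rw [add_zero, norm_iv_sq]
  apply Real.exp_le_exp.mpr
  have := mul_le_mul_of_nonneg_left (h k) (mul_pos Real.pi_pos ht).le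
  linarith

theorem hasSum_thetaM {n : ℕ} (A : Matrix (Fin n) (Fin n) ℝ) (hA : A.det ≠ 0) {t : ℝ}
    (ht : 0 < t) :
    HasSum (fun k : {k : Fin n → ℤ // k ≠ 0} => rexp (-π * t * Qm A k.1)) (thetaM A t - 1) := by
  have hs := summable_thetaM A hA ht
  have h1 := hs.hasSum
  rw [← thetaM_eq] at h1
  have h2 := (Finset.hasSum_compl_iff (f := fun k : Fin n → ℤ => rexp (-π * t * Qm A k))
    (a := thetaM A t - 1) ({0} : Finset (Fin n → ℤ))).mpr (by simpa [Qm_zero] using h1)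
  exact ((Equiv.subtypeEquivRight (p := fun k : Fin n → ℤ => k ≠ 0)
    (q := fun x => x ∉ ({0} : Finset (Fin n → ℤ))) (fun k => by simp)).hasSum_iff.mpr h2)

theorem continuousOn_thetaM {n : ℕ} (A : Matrix (Fin n) (Fin n) ℝ) (hA : A.det ≠ 0) :
    ContinuousOn (thetaM A) (Set.Ioi 0) := by
  intro t (ht : 0 < t)
  have h : ContinuousOn (thetaM A) (Set.Ioi (t / 2)) := by
    refine continuousOn_tsum (u := fun k => rexp (-π * (t / 2) * Qm A k))
      (fun k => by fun_prop) (summable_thetaM A hA (by linarith)) (fun k x (hx : t / 2 < x) => ?_)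
    rw [Real.norm_eq_abs, abs_of_pos (Real.exp_pos _)]
    apply Real.exp_le_exp.mpr
    have h0 := Qm_nonneg A k
    have : π * (t / 2) * Qm A k ≤ π * x * Qm A k := by
      have := Real.pi_pos
      gcongr
    change -π * x * Qm A k ≤ _
    linarith
  exact (h.continuousAt (Ioi_mem_nhds (by linarith))).continuousWithinAt

theorem thetaM_decay {n : ℕ} (A : Matrix (Fin n) (Fin n) ℝ) (hA : A.det ≠ 0) (r : ℝ) :
    ∃ C : ℝ, 0 ≤ C ∧ ∀ t : ℝ, 1 ≤ t → |thetaM A t - 1| ≤ C * t ^ r := by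
  obtain ⟨c, hc, h⟩ := Qm_coer A hA
  obtain ⟨N, hN⟩ := exists_nat_ge (-r)
  have h1 := hasSum_thetaM A hA one_pos
  have hθ : 0 ≤ thetaM A 1 - 1 := h1.nonneg fun _ => (Real.exp_pos _).le
  have hpc : 0 < π * c := mul_pos Real.pi_pos hc
  refine ⟨rexp (π * c) * (thetaM A 1 - 1) * (N.factorial / (π * c) ^ N), by positivity,
    fun t ht => ?_⟩
  have ht0 : 0 < t := by linarith
  have h2 := hasSum_thetaM A hA ht0
  rw [abs_of_nonneg (h2.nonneg fun _ => (Real.exp_pos _).le)]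
  have h3 : thetaM A t - 1 ≤ rexp (-(π * c) * (t - 1)) * (thetaM A 1 - 1) := by
    refine hasSum_le (fun k => ?_) h2 (h1.mul_left _)
    rw [← Real.exp_add]
    apply Real.exp_le_exp.mpr
    have h4 : c ≤ Qm A k.1 := by
      have := ana_one_le_sum_sq k.2
      have := h k.1
      nlinarith
    have h5 : π * (t - 1) * c ≤ π * (t - 1) * Qm A k.1 := by
      have := Real.pi_pos
      have : 0 ≤ t - 1 := by linarith
      gcongr
    linarith
  have h6 : rexp (-(π * c * t)) ≤ N.factorial / (π * c) ^ N * t ^ r := by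
    have h7 := Real.pow_div_factorial_le_exp (π * c * t) (by positivity) N
    have h8 : (t ^ N)⁻¹ ≤ t ^ r := by
      rw [← Real.rpow_natCast, ← Real.rpow_neg ht0.le]
      exact Real.rpow_le_rpow_of_exponent_le ht (by linarith)
    calc rexp (-(π * c * t)) = (rexp (π * c * t))⁻¹ := Real.exp_neg _
      _ ≤ ((π * c * t) ^ N / N.factorial)⁻¹ := inv_anti₀ (by positivity) h7
      _ = N.factorial / (π * c) ^ N * (t ^ N)⁻¹ := by
          rw [mul_pow (π * c) t]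
          field_simp
      _ ≤ _ := by gcongr
  calc thetaM A t - 1 ≤ rexp (-(π * c) * (t - 1)) * (thetaM A 1 - 1) := h3
    _ = rexp (π * c) * (thetaM A 1 - 1) * rexp (-(π * c * t)) := by
        rw [mul_right_comm, ← Real.exp_add]
        congr 2
        ring
    _ ≤ rexp (π * c) * (thetaM A 1 - 1) * (N.factorial / (π * c) ^ N * t ^ r) := by gcongr
    _ = _ := by ring

/-- generator matrix of the lattice in block form -/
def anaBlk (m r : ℕ) (ω : ℝ) (x : Xs m) :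
    Matrix (Fin m ⊕ (Fin r ⊕ Fin m)) (Fin m ⊕ (Fin r ⊕ Fin m)) ℝ :=
  Matrix.fromBlocks (Matrix.diagonal fun _ => ω) 0
    (Matrix.of fun a q => Sum.elim (fun i => Bm m r i q)
      (fun p => (Th x p q - ∑ i, Bm m r i p * Bm m r i q / 2) / ω) a)
    (Matrix.fromBlocks 1 0 (Matrix.of fun p i => -Bm m r i p / ω) (Matrix.diagonal fun _ => ω⁻¹))

theorem det_anaBlk (m r : ℕ) {ω : ℝ} (hω : 0 < ω) (x : Xs m) : (anaBlk m r ω x).det = 1 := by
  rw [anaBlk, Matrix.det_fromBlocks_zero₁₂, Matrix.det_fromBlocks_zero₁₂, Matrix.det_diagonal,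
    Matrix.det_diagonal, Matrix.det_one, one_mul, ← Finset.prod_mul_distrib]
  simp [hω.ne']

theorem anaBlk_norm (m r : ℕ) (ω : ℝ) (x : Xs m) (k : Zv m) (jl : Zv r × Zv m) :
    ∑ a, (∑ b, anaBlk m r ω x a b * ((Sum.elim k (Sum.elim jl.1 jl.2) b : ℤ) : ℝ)) ^ 2 =
      rho ω x k jl := by
  rw [Fintype.sum_sum_type, Fintype.sum_sum_type, rho, norm_iv_sq, Finset.mul_sum, add_assoc]
  congr 1
  · refine Finset.sum_congr rfl fun p _ => ?_
    simp [anaBlk, Fintype.sum_sum_type, Matrix.diagonal_apply, mul_pow]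
  congr 1
  · refine Finset.sum_congr rfl fun i _ => ?_
    simp [anaBlk, Fintype.sum_sum_type, Matrix.one_apply, Bk, add_comm]
  · refine Finset.sum_congr rfl fun p _ => ?_
    rw [← div_pow]
    congr 1
    simp only [anaBlk, Fintype.sum_sum_type, Matrix.fromBlocks_apply₂₁, Matrix.fromBlocks_apply₂₂,
      Matrix.of_apply, Sum.elim_inl, Sum.elim_inr, Matrix.diagonal_apply, ite_mul, zero_mul,
      Finset.sum_ite_eq, Finset.mem_univ, if_true, yv, Bk]
    have e1 : ∑ q, (Th x p q - ∑ i, Bm m r i p * Bm m r i q / 2) / ω * (k q : ℝ) =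
        (∑ q, Th x p q * k q - ∑ i, Bm m r i p * ((∑ q, Bm m r i q * k q) / 2)) / ω := by
      simp only [Finset.sum_div, Finset.mul_sum, sub_div, sub_mul, Finset.sum_sub_distrib,
        Finset.sum_mul]
      rw [Finset.sum_comm (s := (Finset.univ : Finset (Fin r)))]
      congr 1
      · exact Finset.sum_congr rfl fun q _ => by ring
      · exact Finset.sum_congr rfl fun q _ => Finset.sum_congr rfl fun i _ => by ring
    have e2 : ∑ i, -Bm m r i p / ω * (jl.1 i : ℝ) = -(∑ i, Bm m r i p * jl.1 i) / ω := by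
      rw [← Finset.sum_neg_distrib, Finset.sum_div]
      exact Finset.sum_congr rfl fun i _ => by ring
    rw [e1, e2]
    simp only [mul_add, Finset.sum_add_distrib]
    ring

theorem exists_matrix (n : ℕ) {ω : ℝ} (hω : 0 < ω) (x : Xs (n / 2)) :
    ∃ A : Matrix (Fin n) (Fin n) ℝ, |A.det| = 1 ∧ ∀ t : ℝ, 0 < t → thetaM A t = theta n ω x t := by
  have hc : Fintype.card (Fin (n / 2) ⊕ (Fin (n % 2) ⊕ Fin (n / 2))) = n := by
    simp only [Fintype.card_sum, Fintype.card_fin]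
    omega
  let e := Fintype.equivFinOfCardEq hc
  set A := Matrix.reindex e e (anaBlk (n / 2) (n % 2) ω x) with hA
  have hdet : A.det = 1 := by rw [hA, Matrix.det_reindex_self, det_anaBlk _ _ hω]
  refine ⟨A, by rw [hdet, abs_one], fun t ht => ?_⟩
  let E : Zv (n / 2) × (Zv (n % 2) × Zv (n / 2)) ≃ (Fin n → ℤ) :=
    ((Equiv.prodCongr (Equiv.refl _) (Equiv.sumArrowEquivProdArrow _ _ ℤ).symm).trans
      (Equiv.sumArrowEquivProdArrow _ _ ℤ).symm).trans (Equiv.arrowCongr e (Equiv.refl ℤ))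
  have hE : ∀ p : Zv (n / 2) × (Zv (n % 2) × Zv (n / 2)), Qm A (E p) = rho ω x p.1 p.2 := by
    intro p
    rw [← anaBlk_norm, Qm, ← e.sum_comp]
    refine Finset.sum_congr rfl fun a _ => ?_
    rw [← e.sum_comp]
    congr 1
    refine Finset.sum_congr rfl fun b _ => ?_
    have : E p (e b) = Sum.elim p.1 (Sum.elim p.2.1 p.2.2) b := by
      simp [E, Equiv.sumArrowEquivProdArrow]
    rw [this]
    simp [hA]
  have hs := (E.summable_iff (f := fun k : Fin n → ℤ => rexp (-π * t * Qm A k))).mpr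
    (summable_thetaM A (by rw [hdet]; exact one_ne_zero) ht)
  simp only [Function.comp_def] at hs
  rw [thetaM_eq, ← E.tsum_eq, hs.tsum_prod]
  simp only [hE]
  rfl

theorem integrableOn_exp_theta {n : ℕ} (A : Matrix (Fin n) (Fin n) ℝ) (hA : A.det ≠ 0) (a : ℝ) :
    IntegrableOn (fun u => rexp (a * u) * (thetaM A (rexp u) - 1)) (Set.Ioi 0) := by
  obtain ⟨C, hC, h⟩ := thetaM_decay A hA (-a - 1)
  have hc : Continuous fun u => thetaM A (rexp u) :=
    (continuousOn_thetaM A hA).comp_continuous Real.continuous_exp fun u => Real.exp_pos u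
  refine Integrable.mono' ((integrableOn_exp_mul_Ioi (a := -1) (by norm_num) 0).const_mul C)
    (Continuous.aestronglyMeasurable (by fun_prop)) ?_
  refine (ae_restrict_iff' measurableSet_Ioi).mpr (Eventually.of_forall fun u (hu : 0 < u) => ?_)
  rw [Real.norm_eq_abs, abs_mul, abs_of_pos (Real.exp_pos _)]
  have h1 := h (rexp u) (Real.one_le_exp hu.le)
  rw [← Real.exp_mul] at h1
  calc rexp (a * u) * |thetaM A (rexp u) - 1| ≤ rexp (a * u) * (C * rexp (u * (-a - 1))) := by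
        gcongr
    _ = C * rexp (-1 * u) := by
        rw [mul_left_comm, ← Real.exp_add]
        congr 2
        ring

theorem ana_integrand_eq {n : ℕ} (A : Matrix (Fin n) (Fin n) ℝ) (α u : ℝ) :
    (thetaM A (rexp u) - 1 - rexp u ^ (-(n : ℝ) / 2)) * (rexp (n * u / 4) * Real.cosh (α * u)) =
      (rexp ((n / 4 + α) * u) * (thetaM A (rexp u) - 1) +
        rexp ((n / 4 - α) * u) * (thetaM A (rexp u) - 1) -
        (rexp (-(n / 4 - α) * u) + rexp (-(n / 4 + α) * u))) / 2 := by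
  rw [← Real.exp_mul, Real.cosh_eq]
  have e1 : rexp ((n / 4 + α) * u) = rexp (n * u / 4) * rexp (α * u) := by
    rw [← Real.exp_add]; congr 1; ring
  have e2 : rexp ((n / 4 - α) * u) = rexp (n * u / 4) * rexp (-(α * u)) := by
    rw [← Real.exp_add]; congr 1; ring
  have e3 : rexp (-(n / 4 - α) * u) =
      rexp (u * (-(n : ℝ) / 2)) * rexp (n * u / 4) * rexp (α * u) := by
    rw [← Real.exp_add, ← Real.exp_add]; congr 1; ring
  have e4 : rexp (-(n / 4 + α) * u) =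
      rexp (u * (-(n : ℝ) / 2)) * rexp (n * u / 4) * rexp (-(α * u)) := by
    rw [← Real.exp_add, ← Real.exp_add]; congr 1; ring
  rw [e1, e2, e3, e4]
  ring

theorem integrableOn_thetaM {n : ℕ} (A : Matrix (Fin n) (Fin n) ℝ) (hA : A.det ≠ 0) {α : ℝ}
    (h₀ : 0 ≤ α) (h₁ : α < n / 4) :
    IntegrableOn (fun u => (thetaM A (rexp u) - 1 - rexp u ^ (-(n : ℝ) / 2)) *
      (rexp (n * u / 4) * Real.cosh (α * u))) (Set.Ioi 0) := by
  simp_rw [ana_integrand_eq]
  exact (((integrableOn_exp_theta A hA _).add (integrableOn_exp_theta A hA _)).sub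
    ((integrableOn_exp_mul_Ioi (by linarith) 0).add
      (integrableOn_exp_mul_Ioi (by linarith) 0))).div_const 2

theorem integral_thetaM_eq {n : ℕ} (A : Matrix (Fin n) (Fin n) ℝ) (hA : A.det ≠ 0) {α : ℝ}
    (h₀ : -(n / 4) < α) (h₁ : α < n / 4) :
    ∫ u in Set.Ioi (0 : ℝ), (thetaM A (rexp u) - 1 - rexp u ^ (-(n : ℝ) / 2)) *
      (rexp (n * u / 4) * Real.cosh (α * u)) =
      ((∫ u in Set.Ioi (0 : ℝ), rexp ((n / 4 + α) * u) * (thetaM A (rexp u) - 1)) +
        (∫ u in Set.Ioi (0 : ℝ), rexp ((n / 4 - α) * u) * (thetaM A (rexp u) - 1)) -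
        (1 / (n / 4 - α) + 1 / (n / 4 + α))) / 2 := by
  simp_rw [ana_integrand_eq]
  have i1 := integrableOn_exp_theta A hA (n / 4 + α)
  have i2 := integrableOn_exp_theta A hA (n / 4 - α)
  have n3 : -((n : ℝ) / 4 - α) < 0 := by linarith
  have n4 : -((n : ℝ) / 4 + α) < 0 := by linarith
  have i3 := integrableOn_exp_mul_Ioi n3 0
  have i4 := integrableOn_exp_mul_Ioi n4 0
  rw [integral_div, integral_sub (by exact i1.add i2) (by exact i3.add i4), integral_add i1 i2,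
    integral_add i3 i4, integral_exp_mul_Ioi n3, integral_exp_mul_Ioi n4]
  simp only [mul_zero, Real.exp_zero, neg_div_neg_eq]

/-- the pair to which the abstract functional equation is applied -/
def feP {n : ℕ} (hn : 1 ≤ n) (A : Matrix (Fin n) (Fin n) ℝ) (hA : A.det ≠ 0)
    (hFE : ∀ t : ℝ, 0 < t → thetaM A t⁻¹ = t ^ ((n : ℝ) / 2) * thetaM A t) : WeakFEPair ℂ :=
  have hint : LocallyIntegrableOn (fun t => ((thetaM A t : ℝ) : ℂ)) (Set.Ioi 0) :=
    (Complex.continuous_ofReal.comp_continuousOn (continuousOn_thetaM A hA)).locallyIntegrableOn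
      measurableSet_Ioi
  have htop : ∀ r : ℝ, (fun t => ((thetaM A t : ℝ) : ℂ) - 1) =O[atTop] (fun t : ℝ => t ^ r) := by
    intro r
    obtain ⟨C, -, h⟩ := thetaM_decay A hA r
    refine Asymptotics.IsBigO.of_bound C ?_
    filter_upwards [eventually_ge_atTop 1] with t ht
    have : ((thetaM A t : ℝ) : ℂ) - 1 = ((thetaM A t - 1 : ℝ) : ℂ) := by push_cast; ring
    rw [this, Complex.norm_real, Real.norm_eq_abs, Real.norm_eq_abs,
      abs_of_pos (Real.rpow_pos_of_pos (by linarith) r)]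
    exact h t ht
  { f := fun t => ((thetaM A t : ℝ) : ℂ)
    g := fun t => ((thetaM A t : ℝ) : ℂ)
    k := (n : ℝ) / 2
    ε := 1
    f₀ := 1
    g₀ := 1
    hf_int := hint
    hg_int := hint
    hk := by
      have : (1 : ℝ) ≤ n := by exact_mod_cast hn
      linarith
    hε := one_ne_zero
    h_feq := fun x hx => by
      rw [one_div, hFE x hx]
      simp
    hf_top := htop
    hg_top := htop }

theorem ana_integral_Ioi_exp (g : ℝ → ℂ) : ∫ t in Set.Ioi (0 : ℝ), g t = ∫ u, rexp u • g (rexp u) := by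
  have := integral_image_eq_integral_abs_deriv_smul (s := Set.univ) (f := rexp) (f' := rexp)
    MeasurableSet.univ (fun x _ => (Real.hasDerivAt_exp x).hasDerivWithinAt)
    Real.exp_injective.injOn g
  rw [Set.image_univ, Real.range_exp, Measure.restrict_univ] at this
  rw [this]
  simp_rw [abs_of_pos (Real.exp_pos _)]

theorem feP_lam0 {n : ℕ} (hn : 1 ≤ n) (A : Matrix (Fin n) (Fin n) ℝ) (hA : A.det ≠ 0)
    (hFE : ∀ t : ℝ, 0 < t → thetaM A t⁻¹ = t ^ ((n : ℝ) / 2) * thetaM A t) (x : ℝ) :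
    (feP hn A hA hFE).Λ₀ x =
      (((∫ u in Set.Ioi (0 : ℝ), rexp (x * u) * (thetaM A (rexp u) - 1)) +
        (∫ u in Set.Ioi (0 : ℝ), rexp ((n / 2 - x) * u) * (thetaM A (rexp u) - 1)) : ℝ) : ℂ) := by
  set P := feP hn A hA hFE with hP
  set G : ℝ → ℂ := fun u => rexp u • (((rexp u : ℝ) : ℂ) ^ ((x : ℂ) - 1) • P.f_modif (rexp u))
    with hG
  have h0 : P.Λ₀ x = ∫ u, G u := by
    rw [WeakFEPair.Λ₀, mellin, ana_integral_Ioi_exp]
  have hG0 : ∀ u, G u = ((rexp (x * u) : ℝ) : ℂ) * P.f_modif (rexp u) := by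
    intro u
    have : ((rexp u : ℝ) : ℂ) ^ ((x : ℂ) - 1) = ((rexp u ^ (x - 1) : ℝ) : ℂ) := by
      rw [Complex.ofReal_cpow (Real.exp_pos u).le]
      push_cast
      rfl
    simp only [hG]
    rw [this, smul_eq_mul, Complex.real_smul, ← mul_assoc, ← Complex.ofReal_mul, ← Real.exp_mul,
      ← Real.exp_add]
    congr 3
    ring
  have hpos : ∀ u ∈ Set.Ioi (0 : ℝ),
      G u = ((rexp (x * u) * (thetaM A (rexp u) - 1) : ℝ) : ℂ) := by
    intro u (hu : 0 < u)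
    have h1 : 1 < rexp u := Real.one_lt_exp_iff.mpr hu
    rw [hG0, WeakFEPair.f_modif, Pi.add_apply, Set.indicator_of_mem (Set.mem_Ioi.mpr h1),
      Set.indicator_of_notMem (Set.notMem_Ioo_of_ge h1.le), add_zero]
    simp [hP, feP]
  have hneg : ∀ u ∈ Set.Ioi (0 : ℝ),
      G (-u) = ((rexp ((n / 2 - x) * u) * (thetaM A (rexp u) - 1) : ℝ) : ℂ) := by
    intro u (hu : 0 < u)
    have h1 : rexp (-u) < 1 := Real.exp_lt_one_iff.mpr (by linarith)
    rw [hG0, WeakFEPair.f_modif, Pi.add_apply, Set.indicator_of_notMem (Set.notMem_Ioi.mpr h1.le),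
      Set.indicator_of_mem (Set.mem_Ioo.mpr ⟨Real.exp_pos _, h1⟩), zero_add]
    have h2 : thetaM A (rexp (-u)) = rexp (u * (n / 2)) * thetaM A (rexp u) := by
      rw [Real.exp_neg, hFE _ (Real.exp_pos u), ← Real.exp_mul]
    have h3 : rexp (-u) ^ (-((n : ℝ) / 2)) = rexp (u * (n / 2)) := by
      rw [← Real.exp_mul]
      congr 1
      ring
    have h4 : rexp ((n / 2 - x) * u) = rexp (x * -u) * rexp (u * (n / 2)) := by
      rw [← Real.exp_add]
      congr 1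
      ring
    change _ * (((thetaM A (rexp (-u)) : ℝ) : ℂ) -
      ((1 : ℂ) * ((rexp (-u) ^ (-((n : ℝ) / 2)) : ℝ) : ℂ)) • (1 : ℂ)) = _
    rw [h2, h3, h4, smul_eq_mul]
    simp only [Complex.ofReal_mul, Complex.ofReal_sub, Complex.ofReal_one]
    ring
  have i1 : IntegrableOn G (Set.Ioi 0) :=
    IntegrableOn.congr_fun (integrableOn_exp_theta A hA x).ofReal (fun u hu => (hpos u hu).symm)
      measurableSet_Ioi
  have i2 : IntegrableOn (fun u => G (-u)) (Set.Ioi 0) :=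
    IntegrableOn.congr_fun (integrableOn_exp_theta A hA (n / 2 - x)).ofReal
      (fun u hu => (hneg u hu).symm) measurableSet_Ioi
  have i3 : IntegrableOn G (Set.Iic 0) := by
    rw [integrableOn_Iic_iff_integrableOn_Iio]
    have := (Measure.measurePreserving_neg (volume : Measure ℝ)).integrableOn_comp_preimage
      (Homeomorph.neg ℝ).measurableEmbedding (f := G) (s := Set.Iio 0)
    rw [← this]
    simpa [Function.comp_def] using i2
  have e3 : ∫ u in Set.Iic (0 : ℝ), G u = ∫ u in Set.Ioi (0 : ℝ), G (-u) := by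
    rw [integral_comp_neg_Ioi, neg_zero]
  rw [h0, ← intervalIntegral.integral_Iic_add_Ioi i3 i1, e3,
    setIntegral_congr_fun measurableSet_Ioi hpos, setIntegral_congr_fun measurableSet_Ioi hneg,
    integral_complex_ofReal, integral_complex_ofReal, Complex.ofReal_add, add_comm]

theorem feP_lam_ne {n : ℕ} (hn : 1 ≤ n) (A : Matrix (Fin n) (Fin n) ℝ) (hA : A.det ≠ 0)
    (hFE : ∀ t : ℝ, 0 < t → thetaM A t⁻¹ = t ^ ((n : ℝ) / 2) * thetaM A t)
    (hneg : ∀ α : ℝ, 0 ≤ α → α < n / 4 →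
      ∫ u in Set.Ioi (0 : ℝ), (thetaM A (rexp u) - 1 - rexp u ^ (-(n : ℝ) / 2)) *
        (rexp (n * u / 4) * Real.cosh (α * u)) < 0) {x : ℝ} (h₀ : 0 < x) (h₁ : x < (n : ℝ) / 2) :
    (feP hn A hA hFE).Λ x ≠ 0 := by
  have h2 := hneg |x - n / 4| (abs_nonneg _) (abs_lt.mpr ⟨by linarith, by linarith⟩)
  have h3 : ∀ u : ℝ, Real.cosh (|x - n / 4| * u) = Real.cosh ((x - n / 4) * u) := by
    intro u
    rcases abs_choice (x - n / 4) with h | h
    · rw [h]
    · rw [h, neg_mul, Real.cosh_neg]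
  simp_rw [h3] at h2
  rw [integral_thetaM_eq A hA (by linarith) (by linarith)] at h2
  have e1 : (n : ℝ) / 4 + (x - n / 4) = x := by ring
  have e2 : (n : ℝ) / 4 - (x - n / 4) = n / 2 - x := by ring
  rw [e1, e2] at h2
  rw [WeakFEPair.Λ, feP_lam0]
  set I : ℝ := (∫ u in Set.Ioi (0 : ℝ), rexp (x * u) * (thetaM A (rexp u) - 1)) +
    (∫ u in Set.Ioi (0 : ℝ), rexp ((n / 2 - x) * u) * (thetaM A (rexp u) - 1)) with hI
  have e3 : (I : ℂ) - (1 / (x : ℂ)) • (feP hn A hA hFE).f₀ -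
      ((feP hn A hA hFE).ε / (((feP hn A hA hFE).k : ℂ) - x)) • (feP hn A hA hFE).g₀ =
      ((I - (1 / (n / 2 - x) + 1 / x) : ℝ) : ℂ) := by
    simp only [feP, smul_eq_mul]
    push_cast
    ring
  rw [e3]
  exact Complex.ofReal_ne_zero.mpr (by linarith)

theorem feP_hasSum {n : ℕ} (hn : 1 ≤ n) (A : Matrix (Fin n) (Fin n) ℝ) (hA : A.det ≠ 0)
    (hFE : ∀ t : ℝ, 0 < t → thetaM A t⁻¹ = t ^ ((n : ℝ) / 2) * thetaM A t) {s : ℂ}
    (hs : (n : ℝ) / 2 < s.re) :
    HasSum (fun k : {k : Fin n → ℤ // k ≠ 0} => ((Qm A k.1 : ℝ) : ℂ) ^ (-s))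
      ((π : ℂ) ^ s * (Complex.Gamma s)⁻¹ * (feP hn A hA hFE).Λ s) := by
  have hs0 : 0 < s.re := lt_of_le_of_lt (by positivity) hs
  have h1 := ((feP hn A hA hFE).hasMellin (s := s) hs).2
  have h2 := hasSum_mellin_pi_mul (a := fun _ : {k : Fin n → ℤ // k ≠ 0} => (1 : ℂ))
    (q := fun k => Qm A k.1) (F := fun t => ((thetaM A t : ℝ) : ℂ) - 1) (s := s)
    (fun k => Or.inr (Qm_pos A hA k.2)) hs0
    (fun t ht => by
      have h3 := Complex.hasSum_ofReal.mpr (hasSum_thetaM A hA ht)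
      have e : ((thetaM A t - 1 : ℝ) : ℂ) = ((thetaM A t : ℝ) : ℂ) - 1 := by push_cast; ring
      rw [e] at h3
      have e2 : (fun k : {k : Fin n → ℤ // k ≠ 0} => (1 : ℂ) * rexp (-π * Qm A k.1 * t)) =
          fun k => ((rexp (-π * t * Qm A k.1) : ℝ) : ℂ) := by
        funext k
        rw [one_mul, mul_right_comm]
      rw [e2]
      exact h3)
    (by
      refine (summable_Qm_rpow A hA hs).congr fun k => ?_
      rw [norm_one, one_div, Real.rpow_neg (Qm_nonneg A _)])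
  have h4 : mellin (fun t => ((thetaM A t : ℝ) : ℂ) - 1) s = (feP hn A hA hFE).Λ s := h1
  rw [h4] at h2
  have hG : Complex.Gamma s ≠ 0 := Complex.Gamma_ne_zero_of_re_pos hs0
  have hp : (π : ℂ) ^ s ≠ 0 := by
    rw [Ne, Complex.cpow_eq_zero_iff, not_and_or]
    exact Or.inl (Complex.ofReal_ne_zero.mpr Real.pi_ne_zero)
  have e3 : (fun k : {k : Fin n → ℤ // k ≠ 0} => ((Qm A k.1 : ℝ) : ℂ) ^ (-s)) = fun k =>
      (π : ℂ) ^ s * (Complex.Gamma s)⁻¹ *
        ((π : ℂ) ^ (-s) * Complex.Gamma s * 1 / ((Qm A k.1 : ℝ) : ℂ) ^ s) := by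
    funext k
    rw [Complex.cpow_neg, Complex.cpow_neg]
    field_simp
  rw [e3]
  exact h2.mul_left _

/-- the Epstein zeta function of an isodual lattice -/
theorem ana {n : ℕ} (hn : 1 ≤ n) (A : Matrix (Fin n) (Fin n) ℝ) (hA : |A.det| = 1)
    (hFE : ∀ t : ℝ, 0 < t → thetaM A t⁻¹ = t ^ ((n : ℝ) / 2) * thetaM A t)
    (hneg : ∀ α : ℝ, 0 ≤ α → α < n / 4 →
      ∫ u in Set.Ioi (0 : ℝ), (thetaM A (rexp u) - 1 - rexp u ^ (-(n : ℝ) / 2)) *
        (rexp (n * u / 4) * Real.cosh (α * u)) < 0) :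
    ∃ F : ℂ → ℂ,
      DifferentiableOn ℂ F {((n : ℂ) / 2)}ᶜ ∧
      (∀ s : ℂ, (n : ℝ) / 2 < s.re →
        F s = ∑' k : {k : Fin n → ℤ // k ≠ 0},
          (((∑ i, (∑ j, A i j * ((k.1 j : ℤ) : ℝ)) ^ 2 : ℝ) : ℂ)) ^ (-s)) ∧
      (∀ x : ℝ, 0 < x → x ≠ (n : ℝ) / 2 → F (x : ℂ) ≠ 0) := by
  have hA0 : A.det ≠ 0 := by
    intro h
    rw [h, abs_zero] at hA
    exact zero_ne_one hA
  set P := feP hn A hA0 hFE with hP
  have hπ : (π : ℂ) ≠ 0 := Complex.ofReal_ne_zero.mpr Real.pi_ne_zero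
  set F : ℂ → ℂ := fun s => (π : ℂ) ^ s * (Complex.Gamma s)⁻¹ * P.Λ₀ s -
    (π : ℂ) ^ s * (Complex.Gamma (s + 1))⁻¹ -
    (π : ℂ) ^ s * (Complex.Gamma s)⁻¹ * ((n : ℂ) / 2 - s)⁻¹ with hF
  have hFΛ : ∀ s : ℂ, 0 < s.re → F s = (π : ℂ) ^ s * (Complex.Gamma s)⁻¹ * P.Λ s := by
    intro s hs
    have hs0 : s ≠ 0 := fun h => by simp [h] at hs
    simp only [hF, WeakFEPair.Λ]
    rw [Complex.Gamma_add_one s hs0]
    simp only [hP, feP, smul_eq_mul]
    push_cast
    rw [mul_inv]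
    ring
  have hsum : ∀ s : ℂ, (n : ℝ) / 2 < s.re →
      HasSum (fun k : {k : Fin n → ℤ // k ≠ 0} => ((Qm A k.1 : ℝ) : ℂ) ^ (-s)) (F s) := by
    intro s hs
    rw [hFΛ s (lt_of_le_of_lt (by positivity) hs)]
    exact feP_hasSum hn A hA0 hFE hs
  refine ⟨F, ?_, fun s hs => (hsum s hs).tsum_eq.symm, fun x hx hxn => ?_⟩
  · have d1 : Differentiable ℂ fun s : ℂ => (π : ℂ) ^ s :=
      differentiable_id.const_cpow (Or.inl hπ)
    have d2 := Complex.differentiable_one_div_Gamma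
    have d3 : Differentiable ℂ fun s : ℂ => (Complex.Gamma (s + 1))⁻¹ :=
      d2.comp (differentiable_id.add_const 1)
    refine ((((d1.mul d2).mul P.differentiable_Λ₀).sub (d1.mul d3)).differentiableOn).sub
      ((d1.mul d2).differentiableOn.mul (DifferentiableOn.inv (by fun_prop) fun s hs => ?_))
    exact sub_ne_zero.mpr fun h => hs h.symm
  · rcases lt_or_gt_of_ne hxn with h | h
    · rw [hFΛ x (by simpa using hx)]
      refine mul_ne_zero (mul_ne_zero ?_ (inv_ne_zero ?_)) (feP_lam_ne hn A hA0 hFE hneg hx h)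
      · rw [Ne, Complex.cpow_eq_zero_iff, not_and_or]
        exact Or.inl hπ
      · exact Complex.Gamma_ne_zero_of_re_pos (by simpa using hx)
    · have h1 := hsum x (by simpa using h)
      have h2 := summable_Qm_rpow A hA0 h
      have h3 := Complex.hasSum_ofReal.mpr h2.hasSum
      have h4 : (fun k : {k : Fin n → ℤ // k ≠ 0} => ((Qm A k.1 ^ (-x) : ℝ) : ℂ)) =
          fun k => ((Qm A k.1 : ℝ) : ℂ) ^ (-(x : ℂ)) := by
        funext k
        rw [Complex.ofReal_cpow (Qm_nonneg A _), Complex.ofReal_neg]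
      rw [h4] at h3
      rw [h1.unique h3]
      refine Complex.ofReal_ne_zero.mpr (ne_of_gt ?_)
      have hk : (fun _ : Fin n => (1 : ℤ)) ≠ 0 := fun h0 => one_ne_zero (congrFun h0 ⟨0, hn⟩)
      exact h2.tsum_pos (fun k => Real.rpow_nonneg (Qm_nonneg A _) _) ⟨_, hk⟩
        (Real.rpow_pos_of_pos (Qm_pos A hA0 hk) _)

end Pool.Agent.Eps
end
end
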