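import Pool.Agent.Lib.MP_3bda03_nt.Avg

-- part Pool.Agent.Lib.MP_3bda03_nt.Grow
section

set_option autoImplicit false

noncomputable section

open scoped BigOperators Classical Topology
open MeasureTheory Real Complex Filter

namespace Pool.Agent.Eps

theorem gr_ev_ge (C : ℝ) : ∀ᶠ n : ℕ in atTop, C ≤ (n : ℝ) :=
  tendsto_natCast_atTop_atTop.eventually_ge_atTop C

theorem gr_ev_log_ge (C : ℝ) : ∀ᶠ n : ℕ in atTop, C ≤ Real.log n :=
  (tendsto_log_atTop.comp tendsto_natCast_atTop_atTop).eventually_ge_atTop C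

theorem gr_ev_sqrt_log_ge (C : ℝ) : ∀ᶠ n : ℕ in atTop, C ≤ √(Real.log n) :=
  (tendsto_sqrt_atTop.comp
    (tendsto_log_atTop.comp tendsto_natCast_atTop_atTop)).eventually_ge_atTop C

theorem gr_ev_log_sq {ε : ℝ} (hε : 0 < ε) : ∀ᶠ n : ℕ in atTop, Real.log n ^ 2 ≤ ε * n := by
  have h := (isLittleO_pow_log_id_atTop (n := 2)).def hε
  filter_upwards [tendsto_natCast_atTop_atTop.eventually h] with n hn
  simpa using hn

theorem gr_log_Gamma_lb {s : ℝ} (hs : 0 < s) :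
    s * Real.log s - s ≤ Real.log (Real.Gamma (s + 1)) := by
  have h1 : 0 < s + 1 := by linarith
  rw [Real.le_log_iff_exp_le (Real.Gamma_pos_of_pos h1), Real.Gamma_eq_integral h1,
    add_sub_cancel_right]
  have hi := Real.GammaIntegral_convergent h1
  rw [add_sub_cancel_right] at hi
  calc rexp (s * Real.log s - s) = ∫ x in Set.Ioi s, rexp (-x) * s ^ s := by
        rw [integral_mul_const, integral_exp_neg_Ioi, Real.rpow_def_of_pos hs, ← Real.exp_add]
        congr 1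
        ring
    _ ≤ ∫ x in Set.Ioi s, rexp (-x) * x ^ s := by
        refine setIntegral_mono_on ((integrableOn_exp_neg_Ioi s).mul_const _)
          (hi.mono_set (Set.Ioi_subset_Ioi hs.le)) measurableSet_Ioi fun x hx => ?_
        exact mul_le_mul_of_nonneg_left (Real.rpow_le_rpow hs.le (le_of_lt hx) hs.le)
          (Real.exp_pos _).le
    _ ≤ _ := by
        refine setIntegral_mono_set hi ?_ (Set.Ioi_subset_Ioi hs.le).eventuallyLE
        filter_upwards [ae_restrict_mem measurableSet_Ioi] with x hx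
        exact mul_nonneg (Real.exp_pos _).le (Real.rpow_nonneg (le_of_lt hx) _)

theorem gr_log_Gamma_ub {s : ℝ} (hs : 0 < s) :
    Real.log (Real.Gamma (s + 1)) ≤ Real.log (s + 1) + 1 + s * Real.log s - s := by
  have h1 : 0 < s + 1 := by linarith
  have h2 : Real.log (s + 1) * s ≤ 1 + s * Real.log s := by
    have := Real.log_le_sub_one_of_pos (div_pos h1 hs)
    rw [Real.log_div h1.ne' hs.ne'] at this
    have h3 : (s + 1) / s - 1 = 1 / s := by field_simp; ring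
    rw [h3, le_div_iff₀ hs] at this
    linarith
  refine le_trans ?_ (show Real.log (s + 1) + (Real.log (s + 1) * s - s) ≤ _ by linarith)
  rw [Real.log_le_iff_le_exp (Real.Gamma_pos_of_pos h1), Real.Gamma_eq_integral h1,
    add_sub_cancel_right]
  have hi := Real.GammaIntegral_convergent h1
  rw [add_sub_cancel_right] at hi
  have ha : -(s + 1)⁻¹ < 0 := neg_neg_of_pos (inv_pos.2 h1)
  calc ∫ x in Set.Ioi (0 : ℝ), rexp (-x) * x ^ s
      ≤ ∫ x in Set.Ioi (0 : ℝ), rexp (-(s + 1)⁻¹ * x) * rexp (Real.log (s + 1) * s - s) := by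
        refine setIntegral_mono_on hi ((integrableOn_exp_mul_Ioi ha 0).mul_const _)
          measurableSet_Ioi fun x hx => ?_
        have hx' : 0 < x := hx
        rw [Real.rpow_def_of_pos hx', ← Real.exp_add, ← Real.exp_add, Real.exp_le_exp]
        have h4 := Real.log_le_sub_one_of_pos (div_pos hx' h1)
        rw [Real.log_div hx'.ne' h1.ne'] at h4
        have h5 := mul_le_mul_of_nonneg_right h4 hs.le
        have h6 : (x / (s + 1) - 1) * s = x - (s + 1)⁻¹ * x - s := by field_simp; ring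
        linarith
    _ = _ := by
        rw [integral_mul_const, integral_exp_mul_Ioi ha, Real.exp_add, Real.exp_log h1]
        simp

theorem gr_pi_rho1 {n : ℕ} (hn : 1 ≤ n) : π * rho1 n =
    rexp ((Real.log (TT n) + Real.log (Real.Gamma ((n : ℝ) / 2 + 1))) / ((n : ℝ) / 2)) := by
  have hn' : (0 : ℝ) < n := by exact_mod_cast hn
  have hT : 0 < TT n := by unfold TT; positivity
  have hG : 0 < Real.Gamma ((n : ℝ) / 2 + 1) := Real.Gamma_pos_of_pos (by positivity)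
  rw [rho1, mul_div_cancel₀ _ Real.pi_ne_zero, Real.rpow_def_of_pos (mul_pos hT hG),
    Real.log_mul hT.ne' hG.ne']
  congr 1
  field_simp

theorem rho1_lb : ∀ᶠ n : ℕ in atTop, (n : ℝ) / (2 * rexp 1) ≤ π * rho1 n := by
  filter_upwards [gr_ev_ge 26, eventually_ge_atTop 1] with n hn hn1
  have hs : 0 < (n : ℝ) / 2 := by linarith
  have hT : 0 ≤ Real.log (TT n) := Real.log_nonneg (by unfold TT; linarith)
  have h := gr_log_Gamma_lb hs
  rw [gr_pi_rho1 hn1]
  calc (n : ℝ) / (2 * rexp 1) = rexp (Real.log ((n : ℝ) / 2) - 1) := by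
        rw [Real.exp_sub, Real.exp_log hs, div_div]
    _ ≤ _ := by
        rw [Real.exp_le_exp, le_div_iff₀ hs]
        linarith

theorem gr_rho1_key : ∀ᶠ n : ℕ in atTop, π * rexp 1 * rho1 n ≤ n / 2 + 2 * Real.log n := by
  filter_upwards [gr_ev_ge 26, eventually_ge_atTop 1, gr_ev_log_sq (ε := 1 / 8) (by norm_num),
    gr_ev_log_ge 1] with n hn hn1 hl hl1
  have hs : 0 < (n : ℝ) / 2 := by linarith
  have hT0 : 0 < TT n := by unfold TT; linarith
  have hT : 0 ≤ Real.log (TT n) := Real.log_nonneg (by unfold TT; linarith)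
  have hS : 0 ≤ Real.log ((n : ℝ) / 2 + 1) := Real.log_nonneg (by linarith)
  have h := gr_log_Gamma_ub hs
  obtain ⟨A, hA⟩ : ∃ A, A = Real.log (TT n) + Real.log ((n : ℝ) / 2 + 1) + 1 := ⟨_, rfl⟩
  have hA0 : 0 ≤ A := by linarith
  have hA1 : A + 1 ≤ 2 * Real.log n := by
    have e1 : rexp 2 ≤ 8 := by
      have := Real.exp_one_lt_d9
      rw [show (2 : ℝ) = 1 + 1 by norm_num, Real.exp_add]
      nlinarith [Real.exp_pos 1]
    have e2 : A + 1 = Real.log (TT n * ((n : ℝ) / 2 + 1) * rexp 2) := by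
      rw [Real.log_mul (by positivity) (by positivity), Real.log_mul (by positivity) (by positivity),
        Real.log_exp, hA]
      ring
    have e3 : 2 * Real.log n = Real.log ((n : ℝ) ^ 2) := by simp
    rw [e2, e3]
    refine Real.log_le_log (by positivity) ?_
    have e4 : TT n * ((n : ℝ) / 2 + 1) * rexp 2 ≤ TT n * ((n : ℝ) / 2 + 1) * 8 :=
      mul_le_mul_of_nonneg_left e1 (by positivity)
    refine e4.trans ?_
    unfold TT
    nlinarith
  have hA2 : A ^ 2 ≤ (n : ℝ) / 2 := by nlinarith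
  have hd : A / ((n : ℝ) / 2) ≤ 1 := by
    rw [div_le_one hs]
    nlinarith
  have hd0 : 0 ≤ A / ((n : ℝ) / 2) := by positivity
  have h1 : π * rho1 n ≤ rexp (Real.log ((n : ℝ) / 2) - 1 + A / ((n : ℝ) / 2)) := by
    rw [gr_pi_rho1 hn1, Real.exp_le_exp, div_le_iff₀ hs, add_mul, div_mul_cancel₀ _ hs.ne']
    linarith
  rw [Real.exp_add, Real.exp_sub, Real.exp_log hs] at h1
  have h2 := (abs_le.1 (Real.abs_exp_sub_one_sub_id_le (x := A / ((n : ℝ) / 2))
    (by rwa [abs_of_nonneg hd0]))).2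
  have h3 : π * rexp 1 * rho1 n ≤ (n : ℝ) / 2 * rexp (A / ((n : ℝ) / 2)) := by
    have := mul_le_mul_of_nonneg_left h1 (Real.exp_pos 1).le
    rw [← mul_assoc, ← mul_assoc, mul_div_cancel₀ _ (Real.exp_pos 1).ne'] at this
    linarith
  have h4 : (n : ℝ) / 2 * rexp (A / ((n : ℝ) / 2)) ≤
      (n : ℝ) / 2 * (1 + A / ((n : ℝ) / 2) + (A / ((n : ℝ) / 2)) ^ 2) :=
    mul_le_mul_of_nonneg_left (by linarith) hs.le
  have h5 : (n : ℝ) / 2 * (1 + A / ((n : ℝ) / 2) + (A / ((n : ℝ) / 2)) ^ 2) =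
      n / 2 + A + A ^ 2 / ((n : ℝ) / 2) := by field_simp
  have h6 : A ^ 2 / ((n : ℝ) / 2) ≤ 1 := by rwa [div_le_one hs]
  linarith

theorem rho1_ub : ∀ᶠ n : ℕ in atTop, rexp (π * rexp 1 * rho1 n) ≤ (n : ℝ) ^ 2 * rexp (n / 2) := by
  filter_upwards [gr_rho1_key, gr_ev_ge 1] with n h hn
  have : (n : ℝ) ^ 2 = rexp (2 * Real.log n) := by
    rw [mul_comm, Real.exp_mul, Real.exp_log (by linarith), Real.rpow_two]
  rw [this, ← Real.exp_add, Real.exp_le_exp]
  linarith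

/-- general form of the bound for `exp (π τ (rho1 + 1))` -/
theorem gr_rho1_exp (j : ℕ) : ∀ᶠ n : ℕ in atTop, ∀ τ ∈ Set.Icc (0 : ℝ) j,
    rexp (π * τ * (rho1 n + 1)) ≤ (n : ℝ) ^ j * rexp (τ * n / (2 * rexp 1)) := by
  filter_upwards [gr_rho1_key, gr_ev_ge 1, gr_ev_log_ge 16] with n h hn hl τ hτ
  have : (n : ℝ) ^ j = rexp (j * Real.log n) := by
    rw [Real.exp_nat_mul, Real.exp_log (by linarith)]
  rw [this, ← Real.exp_add, Real.exp_le_exp]
  have he := Real.exp_one_gt_d9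
  have h1 : π * rho1 n ≤ n / (2 * rexp 1) + 3 / 4 * Real.log n := by
    have h2 : π * rho1 n = π * rexp 1 * rho1 n / rexp 1 := by field_simp
    have h3 : (n : ℝ) / (2 * rexp 1) = n / 2 / rexp 1 := by field_simp
    rw [h2, h3, div_le_iff₀ (by positivity), add_mul, div_mul_cancel₀ _ (by positivity)]
    nlinarith
  have h4 : π * (rho1 n + 1) ≤ n / (2 * rexp 1) + Real.log n := by
    have := Real.pi_lt_four
    linarith
  have h5 := mul_le_mul_of_nonneg_left h4 hτ.1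
  have h6 := mul_le_mul_of_nonneg_right hτ.2 (show 0 ≤ Real.log n by linarith)
  have h7 : τ * n / (2 * rexp 1) = τ * (n / (2 * rexp 1)) := by ring
  linarith

theorem rho1_exp_le : ∀ᶠ n : ℕ in atTop, ∀ τ ∈ Set.Icc (0 : ℝ) 4,
    rexp (π * τ * (rho1 n + 1)) ≤ (n : ℝ) ^ 4 * rexp (τ * n / (2 * rexp 1)) := by
  simpa using gr_rho1_exp 4

theorem rho1_le : ∀ᶠ n : ℕ in atTop, 1 ≤ rho1 n ∧ rho1 n + 1 ≤ (n : ℝ) / 10 := by
  filter_upwards [gr_rho1_key, rho1_lb, gr_ev_ge 100, gr_ev_log_sq (ε := 1 / 100) (by norm_num),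
    gr_ev_log_ge 1] with n h1 h2 hn hl hl1
  have he := Real.exp_one_gt_d9
  have he' := Real.exp_one_lt_d9
  have hp := Real.pi_gt_three
  have hp' := Real.pi_lt_four
  have h3 : 1 ≤ rho1 n := by
    rw [div_le_iff₀ (by positivity)] at h2
    by_contra hc
    have h4 : π * rho1 n ≤ 4 := by nlinarith
    nlinarith
  refine ⟨h3, ?_⟩
  have h4 : 8 ≤ π * rexp 1 := by nlinarith
  have h5 : 8 * rho1 n ≤ π * rexp 1 * rho1 n := mul_le_mul_of_nonneg_right h4 (by linarith)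
  nlinarith

theorem rho1_pow : ∀ n : ℕ, 1 ≤ n →
    (π * rho1 n) ^ ((n : ℝ) / 2) = TT n * Real.Gamma ((n : ℝ) / 2 + 1) := by
  intro n hn
  have hn' : (0 : ℝ) < n := by exact_mod_cast hn
  have hT : 0 < TT n := by unfold TT; positivity
  have hG : 0 < Real.Gamma ((n : ℝ) / 2 + 1) := Real.Gamma_pos_of_pos (by positivity)
  rw [gr_pi_rho1 hn, ← Real.exp_mul, div_mul_cancel₀ _ (by positivity), Real.exp_add,
    Real.exp_log hT, Real.exp_log hG]

theorem one_le_En (n : ℕ) : 1 ≤ En n := Real.one_le_exp (by positivity)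

theorem poly_le_En (C : ℝ) (j : ℕ) : ∀ᶠ n : ℕ in atTop, C * (n : ℝ) ^ j ≤ En n := by
  filter_upwards [gr_ev_ge C, gr_ev_ge 1, gr_ev_log_ge 1,
    gr_ev_log_sq (ε := 1 / (j + 1)) (by positivity)] with n hC hn hl hl2
  have h1 : C * (n : ℝ) ^ j ≤ (n : ℝ) ^ (j + 1) := by
    rw [pow_succ']
    exact mul_le_mul_of_nonneg_right hC (by positivity)
  have h2 : (n : ℝ) ^ (j + 1) = rexp ((j + 1 : ℕ) * Real.log n) := by
    rw [Real.exp_nat_mul, Real.exp_log (by linarith)]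
  refine h1.trans ?_
  rw [h2, En, Real.exp_le_exp, le_div_iff₀ (Real.sqrt_pos.2 (by linarith))]
  have h3 : √(Real.log n) ≤ Real.log n := by
    rw [Real.sqrt_le_iff]
    constructor <;> nlinarith
  have h4 : ((j : ℝ) + 1) * Real.log n ^ 2 ≤ n := by
    rw [one_div, inv_mul_eq_div, le_div_iff₀ (by positivity)] at hl2
    linarith
  have h5 := mul_le_mul_of_nonneg_left h3 (show 0 ≤ ((j : ℝ) + 1) * Real.log n by positivity)
  push_cast
  nlinarith

/-- polynomial factors and powers of `En` are subexponential -/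
theorem En_pow_le (C : ℝ) (j : ℕ) {ε : ℝ} (hε : 0 < ε) :
    ∀ᶠ n : ℕ in atTop, C * (n : ℝ) ^ j * En n ^ j ≤ rexp (ε * n) := by
  filter_upwards [poly_le_En C j, gr_ev_sqrt_log_ge ((j + 1) / ε), gr_ev_sqrt_log_ge 1] with n h1 h2 h3
  have h0 : 0 ≤ En n ^ j := pow_nonneg (zero_le_one.trans (one_le_En n)) j
  refine (mul_le_mul_of_nonneg_right h1 h0).trans ?_
  rw [← pow_succ', En, ← Real.exp_nat_mul, Real.exp_le_exp, ← mul_div_assoc,
    div_le_iff₀ (by linarith)]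
  rw [div_le_iff₀ hε] at h2
  have := mul_le_mul_of_nonneg_right h2 (Nat.cast_nonneg (α := ℝ) n)
  push_cast
  linarith

theorem mh_le (n : ℕ) : (n : ℝ) / 4 - 1 / 4 ≤ mh n ∧ mh n ≤ (n : ℝ) / 4 := by
  have h1 : ((n : ℕ) : ℝ) ≤ (2 * (n / 2) + 1 : ℕ) := by exact_mod_cast (by omega)
  have h2 : ((2 * (n / 2) : ℕ) : ℝ) ≤ (n : ℕ) := by exact_mod_cast (by omega)
  rw [Nat.cast_add, Nat.cast_mul] at h1
  rw [Nat.cast_mul] at h2
  unfold mh
  push_cast at h1 h2
  constructor <;> linarith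

theorem gr_mh_nonneg (n : ℕ) : 0 ≤ mh n := by unfold mh; positivity

/-- decay beats the growth of the theta envelopes -/
theorem grow (C Y₀ : ℝ) : ∀ᶠ n : ℕ in atTop, ∀ Y₁ Y : ℝ, 1 ≤ Y₁ → Y₁ ≤ Y₀ → Y₁ ≤ Y →
    Y ^ (-mh n) * (max 1 (C * Y / √(Real.log n))) ^ (2 * MM n + 20) ≤ Y₁ ^ (-mh n) := by
  filter_upwards [gr_ev_sqrt_log_ge C, gr_ev_sqrt_log_ge (C * Y₀ ^ 3), gr_ev_sqrt_log_ge 1, gr_ev_ge 1300]
    with n h1 h2 h3 hn Y₁ Y hY₁ hY₀ hY
  have hL : 0 < √(Real.log n) := by linarith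
  rcases le_or_gt (C * Y / √(Real.log n)) 1 with h | h
  · rw [max_eq_left h, one_pow, mul_one]
    exact Real.rpow_le_rpow_of_nonpos (by linarith) hY (neg_nonpos.2 (gr_mh_nonneg n))
  · rw [max_eq_right h.le]
    rw [lt_div_iff₀ hL, one_mul] at h
    have hC : 0 < C := by
      by_contra hc
      nlinarith
    have h4 : C * Y / √(Real.log n) ≤ Y := by
      rw [div_le_iff₀ hL]
      nlinarith
    have h5 : Y₁ ^ 3 ≤ Y := by
      have := lt_of_mul_lt_mul_left (h2.trans_lt h) hC.le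
      exact (pow_le_pow_left₀ (by linarith) hY₀ 3).trans this.le
    have hY0 : 0 < Y := by linarith
    have hY1 : 0 < Y₁ := by linarith
    have h6 : 3 * Real.log Y₁ ≤ Real.log Y := by
      have := Real.log_le_log (by positivity) h5
      rwa [Real.log_pow] at this
    have h7 : 0 ≤ Real.log Y₁ := Real.log_nonneg hY₁
    have h8 : ((2 * MM n + 20 : ℕ) : ℝ) ≤ 3 / 20 * n + 20 := by
      have : ((40 * MM n : ℕ) : ℝ) ≤ (3 * n : ℕ) := by exact_mod_cast (by unfold MM; omega)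
      push_cast at this ⊢
      linarith
    have h9 := (mh_le n).1
    refine (mul_le_mul_of_nonneg_left (pow_le_pow_left₀ (by positivity) h4 _)
      (Real.rpow_nonneg hY0.le _)).trans ?_
    rw [← Real.rpow_natCast, ← Real.rpow_add hY0, Real.rpow_def_of_pos hY0,
      Real.rpow_def_of_pos hY1, Real.exp_le_exp]
    generalize ((2 * MM n + 20 : ℕ) : ℝ) = K at h8 ⊢
    have a1 := mul_le_mul_of_nonneg_right h6 (show 0 ≤ mh n - K by linarith)
    have a2 := mul_nonneg h7 (show 0 ≤ 2 * mh n - 3 * K by linarith)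
    linarith

theorem integral_cgauss (n : ℕ) {z : ℂ} (hz : 0 < z.re) :
    ∫ y : Ev n, cexp (-(π : ℂ) * z * ((‖y‖ ^ 2 : ℝ) : ℂ)) = isq z ^ n := by
  have h := GaussianFourier.integral_cexp_neg_mul_sq_norm (V := Ev n) (b := π * z)
    (by simpa using mul_pos Real.pi_pos hz)
  have hp : (π : ℂ) ≠ 0 := by exact_mod_cast Real.pi_ne_zero
  have ha : z.arg ≠ π := by
    rw [Ne, Complex.arg_eq_pi_iff]
    exact fun h => by linarith [h.1]
  rw [div_mul_cancel_left₀ hp, Complex.inv_cpow _ _ ha, ← Complex.cpow_neg,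
    finrank_euclideanSpace_fin] at h
  rw [isq, ← Complex.cpow_nat_mul]
  simp only [ofReal_pow, neg_mul] at h ⊢
  rw [h]
  congr 1
  ring

theorem isq_ofReal_pow (n : ℕ) {t : ℝ} (ht : 0 < t) :
    isq (t : ℂ) ^ n = ((t ^ (-(n : ℝ) / 2) : ℝ) : ℂ) := by
  rw [isq, ← Complex.cpow_nat_mul, Complex.ofReal_cpow ht.le]
  congr 1
  push_cast
  ring

theorem norm_isq_pow (n : ℕ) {z : ℂ} (hz : 0 < z.re) : ‖isq z ^ n‖ = ‖z‖ ^ (-(n : ℝ) / 2) := by
  have _ := hz
  rw [isq, ← Complex.cpow_nat_mul, ← Complex.norm_cpow_real]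
  congr 2
  push_cast
  ring

theorem integrable_ft (n : ℕ) {t : ℝ} (ht : 0 < t) :
    Integrable (fun y : Ev n => ft t (‖y‖ ^ 2)) := by
  have h := (GaussianFourier.integrable_cexp_neg_mul_sq_norm_add (V := Ev n) (b := π * t)
    (by simpa using mul_pos Real.pi_pos ht) 0 0).norm
  refine h.congr (Eventually.of_forall fun y => ?_)
  simp only [zero_mul, add_zero, ft]
  rw [Complex.norm_exp]
  congr 1
  rw [← ofReal_pow, ← ofReal_mul, ← ofReal_neg, ← ofReal_mul, ofReal_re]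
  ring

theorem In_ft (n : ℕ) {t : ℝ} (ht : 0 < t) : In n (ft t) = t ^ (-(n : ℝ) / 2) := by
  have h := integral_cgauss n (z := t) (by simpa using ht)
  rw [isq_ofReal_pow n ht] at h
  apply Complex.ofReal_injective
  rw [← h, In, ← integral_complex_ofReal]
  simp [ft]

theorem gr_sqrt_pi_pow (n : ℕ) : √π ^ n = π ^ ((n : ℝ) / 2) := by
  rw [Real.sqrt_eq_rpow, ← Real.rpow_natCast, ← Real.rpow_mul Real.pi_pos.le]
  congr 1
  ring

/-- polar coordinates -/
theorem In_radial {n : ℕ} (hn : 1 ≤ n) (φ : ℝ → ℝ) :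
    In n φ = π ^ ((n : ℝ) / 2) / Real.Gamma ((n : ℝ) / 2) *
      ∫ ρ in Set.Ioi (0 : ℝ), ρ ^ ((n : ℝ) / 2 - 1) * φ ρ := by
  have : Nonempty (Fin n) := ⟨⟨0, hn⟩⟩
  have hn' : (0 : ℝ) < n := by exact_mod_cast hn
  have hG : 0 < Real.Gamma ((n : ℝ) / 2) := Real.Gamma_pos_of_pos (by positivity)
  have h1 := integral_fun_norm_addHaar (volume : Measure (Ev n)) fun r => φ (r ^ 2)
  have h2 := integral_comp_rpow_Ioi (fun ρ => ρ ^ ((n : ℝ) / 2 - 1) * φ ρ) (p := 2) two_ne_zero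
  have h3 : ∫ x in Set.Ioi (0 : ℝ), (|(2 : ℝ)| * x ^ ((2 : ℝ) - 1)) •
      ((x ^ (2 : ℝ)) ^ ((n : ℝ) / 2 - 1) * φ (x ^ (2 : ℝ))) =
      2 * ∫ x in Set.Ioi (0 : ℝ), x ^ (n - 1) • φ (x ^ 2) := by
    rw [← integral_const_mul]
    refine setIntegral_congr_fun measurableSet_Ioi fun x hx => ?_
    have hx' : 0 < x := hx
    have : x ^ (n - 1) = x ^ ((2 : ℝ) - 1) * (x ^ (2 : ℝ)) ^ ((n : ℝ) / 2 - 1) := by
      rw [← Real.rpow_mul hx'.le, ← Real.rpow_add hx', ← Real.rpow_natCast, Nat.cast_pred hn]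
      congr 1
      ring
    simp only [this, smul_eq_mul, Real.rpow_two, abs_two]
    ring
  rw [In, h1, ← h2, h3, finrank_euclideanSpace_fin, Measure.real, EuclideanSpace.volume_ball,
    Fintype.card_fin, ENNReal.ofReal_one, one_pow, one_mul, ENNReal.toReal_ofReal (by positivity),
    gr_sqrt_pi_pow, Real.Gamma_add_one (by positivity), nsmul_eq_mul, smul_eq_mul]
  field_simp

theorem gr_ball_ind (n : ℕ) {σ : ℝ} (hσ : 0 ≤ σ) :
    (fun y : Ev n => if ‖y‖ ^ 2 ≤ σ then (1 : ℝ) else 0) =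
      (Metric.closedBall (0 : Ev n) √σ).indicator 1 := by
  funext y
  simp only [Set.indicator, mem_closedBall_zero_iff, Pi.one_apply,
    Real.le_sqrt (norm_nonneg y) hσ]

theorem In_ball {n : ℕ} (hn : 1 ≤ n) {σ : ℝ} (hσ : 0 ≤ σ) :
    In n (fun ρ => if ρ ≤ σ then 1 else 0) =
      (π * σ) ^ ((n : ℝ) / 2) / Real.Gamma ((n : ℝ) / 2 + 1) := by
  have : Nonempty (Fin n) := ⟨⟨0, hn⟩⟩
  have hG : 0 < Real.Gamma ((n : ℝ) / 2 + 1) := Real.Gamma_pos_of_pos (by positivity)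
  rw [In, gr_ball_ind n hσ, integral_indicator_one measurableSet_closedBall, Measure.real,
    EuclideanSpace.volume_closedBall, Fintype.card_fin, ENNReal.toReal_mul, ENNReal.toReal_pow,
    ENNReal.toReal_ofReal (by positivity), ENNReal.toReal_ofReal (by positivity), gr_sqrt_pi_pow,
    Real.mul_rpow Real.pi_pos.le hσ, Real.sqrt_eq_rpow, ← Real.rpow_natCast, ← Real.rpow_mul hσ]
  rw [show 1 / 2 * (n : ℝ) = n / 2 by ring]
  ring

theorem gr_integrable_ball (n : ℕ) {σ : ℝ} (hσ : 0 ≤ σ) :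
    Integrable fun y : Ev n => if ‖y‖ ^ 2 ≤ σ then (1 : ℝ) else 0 := by
  rw [gr_ball_ind n hσ, integrable_indicator_iff measurableSet_closedBall]
  exact integrableOn_const measure_closedBall_lt_top.ne

theorem gr_ramp_le_ind (n : ℕ) (σ ρ : ℝ) :
    0 ≤ ramp n (σ - ρ) ∧ ramp n (σ - ρ) ≤ if ρ ≤ σ then 1 else 0 := by
  refine ⟨le_max_left _ _, ?_⟩
  split_ifs with h
  · exact max_le zero_le_one (min_le_left _ _)
  · refine max_le le_rfl ((min_le_right _ _).trans ?_)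
    exact mul_nonpos_of_nonneg_of_nonpos (Real.exp_pos _).le (by linarith)

theorem gr_In_ramp_le {n : ℕ} (hn : 1 ≤ n) {σ : ℝ} (hσ : 0 ≤ σ) :
    In n (fun ρ => ramp n (σ - ρ)) ≤ (π * σ) ^ ((n : ℝ) / 2) / Real.Gamma ((n : ℝ) / 2 + 1) := by
  rw [← In_ball hn hσ]
  exact integral_mono_of_nonneg (Eventually.of_forall fun y => (gr_ramp_le_ind n σ _).1)
    (gr_integrable_ball n hσ) (Eventually.of_forall fun y => (gr_ramp_le_ind n σ _).2)

theorem gr_le_In_ramp {n : ℕ} (hn : 1 ≤ n) {σ : ℝ} (hσ : 0 ≤ σ) :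
    (π * σ) ^ ((n : ℝ) / 2) / Real.Gamma ((n : ℝ) / 2 + 1) ≤
      In n (fun ρ => ramp n (σ + rexp (-n) - ρ)) := by
  rw [← In_ball hn hσ]
  have hσ' : 0 ≤ σ + rexp (-n) := by positivity
  refine integral_mono (gr_integrable_ball n hσ) ((gr_integrable_ball n hσ').mono' ?_ ?_) fun y => ?_
  · refine Continuous.aestronglyMeasurable ?_
    unfold ramp
    fun_prop
  · refine Eventually.of_forall fun y => ?_
    rw [Real.norm_of_nonneg (gr_ramp_le_ind n _ _).1]
    exact (gr_ramp_le_ind n _ _).2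
  · dsimp only
    split_ifs with h
    · refine le_max_of_le_right (le_min le_rfl ?_)
      have h1 : rexp n * rexp (-n) = 1 := by rw [← Real.exp_add]; simp
      have h2 := mul_nonneg (Real.exp_pos n).le (sub_nonneg.2 h)
      linarith
    · exact (gr_ramp_le_ind n _ _).1

theorem In_aa_le : ∀ᶠ n : ℕ in atTop, In n (aa n) ≤ TT n := by
  filter_upwards [rho1_le, eventually_ge_atTop 1] with n h hn
  have hG : 0 < Real.Gamma ((n : ℝ) / 2 + 1) := Real.Gamma_pos_of_pos (by positivity)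
  have := gr_In_ramp_le hn (σ := rho1 n) (by linarith)
  rwa [rho1_pow n hn, mul_div_cancel_right₀ _ hG.ne'] at this

theorem In_bb_le : ∀ᶠ n : ℕ in atTop,
    In n (fun ρ => ramp n (rho1 n + 2 * rexp (-n) - ρ)) -
      In n (fun ρ => ramp n (rho1 n - rexp (-n) - ρ)) ≤ rexp (-n / 2) := by
  filter_upwards [rho1_le, eventually_ge_atTop 1, gr_ev_ge 2,
    En_pow_le 1 2 (ε := 1 / 2) (by norm_num)] with n h hn hn2 hE
  have hG : 0 < Real.Gamma ((n : ℝ) / 2 + 1) := Real.Gamma_pos_of_pos (by positivity)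
  have hr : 0 < rho1 n := by linarith
  have e0 : (n : ℝ) ^ 2 ≤ rexp (1 / 2 * n) := by
    have := one_le_pow₀ (n := 2) (one_le_En n)
    nlinarith [sq_nonneg (n : ℝ)]
  have e1 : rexp (1 / 2 * n) * rexp (-n) = rexp (-n / 2) := by
    rw [← Real.exp_add]; congr 1; ring
  have e2 : rexp (-n / 2) ≤ 1 := Real.exp_le_one_iff.2 (by linarith)
  have e3 := Real.exp_pos (-(n : ℝ))
  have e4 : (n : ℝ) ^ 2 * rexp (-n) ≤ rexp (-n / 2) := by
    rw [← e1]; exact mul_le_mul_of_nonneg_right e0 e3.le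
  obtain ⟨x, hx⟩ : ∃ x, x = 2 * rexp (-n) / rho1 n := ⟨_, rfl⟩
  have hx0 : 0 ≤ x := by rw [hx]; positivity
  have hx1 : x ≤ 2 * rexp (-n) := by rw [hx]; exact div_le_self (by positivity) h.1
  have hx2 : (n : ℝ) / 2 * x ≤ n * rexp (-n) := by nlinarith
  have hx3 : (n : ℝ) * rexp (-n) ≤ 1 := by nlinarith
  have hx4 : x ≤ 1 := by nlinarith
  have a1 : rho1 n + 2 * rexp (-n) = rho1 n * (1 + x) := by rw [hx]; field_simp
  have a2 : rho1 n - rexp (-n) = rho1 n * (1 + -x) + rexp (-n) := by rw [hx]; field_simp; ring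
  have b1 := gr_In_ramp_le hn (σ := rho1 n * (1 + x)) (by positivity)
  have b2 := gr_le_In_ramp hn (σ := rho1 n * (1 + -x)) (mul_nonneg hr.le (by linarith))
  rw [← mul_assoc, Real.mul_rpow (by positivity) (by linarith), rho1_pow n hn, mul_right_comm,
    mul_div_cancel_right₀ _ hG.ne'] at b1 b2
  rw [a1, a2]
  have c1 : (1 + x) ^ ((n : ℝ) / 2) ≤ 1 + 2 * ((n : ℝ) / 2 * x) := by
    have d1 : (1 + x) ^ ((n : ℝ) / 2) ≤ rexp ((n : ℝ) / 2 * x) := by
      rw [mul_comm, Real.exp_mul]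
      exact Real.rpow_le_rpow (by linarith) (by linarith [Real.add_one_le_exp x]) (by positivity)
    have d0 : 0 ≤ (n : ℝ) / 2 * x := by positivity
    have d2 := (abs_le.1 (Real.abs_exp_sub_one_le (x := (n : ℝ) / 2 * x)
      (by rw [abs_of_nonneg d0]; linarith))).2
    rw [abs_of_nonneg d0] at d2
    linarith
  have c2 := one_add_mul_self_le_rpow_one_add (s := -x) (p := (n : ℝ) / 2) (by linarith)
    (by linarith)
  have hT : 0 ≤ TT n := by unfold TT; positivity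
  have c3 := mul_le_mul_of_nonneg_left c1 hT
  have c4 := mul_le_mul_of_nonneg_left c2 hT
  have c5 := mul_le_mul_of_nonneg_left hx2 hT
  have c6 : 3 * (TT n * (n * rexp (-n))) ≤ (n : ℝ) ^ 2 * rexp (-n) := by
    unfold TT
    nlinarith [mul_nonneg (sq_nonneg (n : ℝ)) e3.le]
  linarith

end Pool.Agent.Eps
end
end

-- part Pool.Agent.Lib.MP_3bda03_nt.Fiber
section

set_option autoImplicit false

noncomputable section

open scoped BigOperators Classical Topology
open MeasureTheory Real Complex Filter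

namespace Pool.Agent.Eps

variable {m r : ℕ}

theorem ft_pos (t ρ : ℝ) : 0 < ft t ρ := Real.exp_pos _

theorem ft_le_ft {t t' ρ ρ' : ℝ} (h : t' * ρ' ≤ t * ρ) : ft t ρ ≤ ft t' ρ' := by
  unfold ft
  apply Real.exp_le_exp.2
  nlinarith [Real.pi_pos]

theorem ft_zero (t : ℝ) : ft t 0 = 1 := by simp [ft]

theorem rho_zero_eq (ω : ℝ) (x : Xs m) (jl : Zv r × Zv m) :
    rho ω x 0 jl = rho ω (0 : Xs m) (0 : Zv m) jl := by
  simp [rho, yv]

theorem rho_zero_zero (ω : ℝ) : rho ω (0 : Xs m) (0 : Zv m) (0 : Zv r × Zv m) = 0 := by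
  simp [rho, yv, Bk, iv_zero]

theorem FS_zero_eq (ω : ℝ) (φ : ℝ → ℝ) (x : Xs m) : FS r ω φ 0 x = FS r ω φ (0 : Zv m) 0 := by
  unfold FS
  exact tsum_congr fun jl => by rw [rho_zero_eq]

theorem FS_ft_nonneg (ω β : ℝ) (x : Xs m) (k : Zv m) : 0 ≤ FS r ω (ft β) k x :=
  tsum_nonneg fun _ => (ft_pos _ _).le

theorem ft_le_FS {ω β : ℝ} (hω : 0 < ω) (hβ : 0 < β) (x : Xs m) (k : Zv m) (jl : Zv r × Zv m) :
    ft β (rho ω x k jl) ≤ FS r ω (ft β) k x :=
  (summable_ft hω hβ x k).le_tsum jl fun _ _ => (ft_pos _ _).le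

theorem summable_other {ω β : ℝ} (hω : 0 < ω) (hβ : 0 < β) (x : Xs m) (k : Zv m)
    (jl₀ : Zv r × Zv m) :
    Summable fun jl : Zv r × Zv m => if jl = jl₀ then 0 else ft β (rho ω x k jl) := by
  refine (summable_ft hω hβ x k).of_nonneg_of_le (fun jl => ?_) (fun jl => ?_)
  · split_ifs
    · exact le_rfl
    · exact (ft_pos _ _).le
  · split_ifs
    · exact (ft_pos _ _).le
    · exact le_rfl

theorem FS_ft_split {ω β : ℝ} (hω : 0 < ω) (hβ : 0 < β) (x : Xs m) (k : Zv m)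
    (jl₀ : Zv r × Zv m) :
    FS r ω (ft β) k x = ft β (rho ω x k jl₀) +
      ∑' jl : Zv r × Zv m, (if jl = jl₀ then 0 else ft β (rho ω x k jl)) :=
  (summable_ft hω hβ x k).tsum_eq_add_tsum_ite jl₀

theorem one_le_F00 {ω β : ℝ} (hω : 0 < ω) (hβ : 0 < β) : 1 ≤ F00 m r ω β := by
  have h := ft_le_FS (r := r) hω hβ (0 : Xs m) 0 0
  rwa [rho_zero_zero, ft_zero] at h

theorem F00_anti {ω β β' : ℝ} (hω : 0 < ω) (hβ : 0 < β) (h : β ≤ β') :
    F00 m r ω β' ≤ F00 m r ω β := by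
  refine (summable_ft hω (hβ.trans_le h) _ _).tsum_le_tsum (fun jl => ft_le_ft ?_)
    (summable_ft hω hβ _ _)
  exact mul_le_mul_of_nonneg_right h (rho_nonneg _ _ _ _)

theorem rho_zero_form (ω : ℝ) (jl : Zv r × Zv m) :
    rho ω (0 : Xs m) (0 : Zv m) jl = ∑ i, (jl.1 i : ℝ) ^ 2 +
      (∑ p, (jl.2 p - ∑ i, Bm m r i p * jl.1 i) ^ 2) / ω ^ 2 := by
  simp [rho, yv, Bk, iv_zero, Finset.sum_div, sub_eq_add_neg]

theorem glue_ne (hr : r ≤ 1) (hm : 1 ≤ m) {jl : Zv r × Zv m} (h : jl ≠ 0) :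
    0 < ∑ p, ((jl.2 p : ℝ) - ∑ i, Bm m r i p * jl.1 i) ^ 2 := by
  refine lt_of_le_of_ne (Finset.sum_nonneg fun _ _ => sq_nonneg _) fun h0 => h ?_
  have h1 : ∀ p, (jl.2 p : ℝ) = ∑ i, Bm m r i p * jl.1 i := fun p => by
    have := (Finset.sum_eq_zero_iff_of_nonneg fun _ _ => sq_nonneg _).1 h0.symm p
      (Finset.mem_univ _)
    exact sub_eq_zero.1 (pow_eq_zero_iff two_ne_zero |>.1 this)
  have h2 : ∀ i, jl.1 i = 0 := fun i => by
    have hi : (i : ℕ) < m := by have := i.2; omega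
    have h3 := h1 ⟨i, hi⟩
    rw [Finset.sum_eq_single i (fun j _ hj => by
      rw [Bm, if_neg (fun e => hj (Fin.ext e)), zero_mul]) (by simp)] at h3
    rw [Bm, if_pos rfl] at h3
    by_contra hne
    exact (irrational_sqrt_two.mul_intCast hne).ne_int _ h3.symm
  refine Prod.ext (funext h2) (funext fun p => ?_)
  have := h1 p
  simp only [h2, Int.cast_zero, mul_zero, Finset.sum_const_zero, Int.cast_eq_zero] at this
  exact this

/-- the fibre of the origin empties as `ω → 0` (irrationality of the gluing) -/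
theorem tendsto_F00 (hr : r ≤ 1) (hm : 1 ≤ m) {β : ℝ} (hβ : 0 < β) :
    Tendsto (fun ω => F00 m r ω β) (𝓝[>] 0) (𝓝 1) := by
  have key := tendsto_tsum_of_dominated_convergence (𝓕 := 𝓝[>] (0 : ℝ))
    (f := fun (ω : ℝ) (jl : Zv r × Zv m) => ft β (rho ω (0 : Xs m) (0 : Zv m) jl))
    (g := fun jl : Zv r × Zv m => if jl = 0 then (1 : ℝ) else 0)
    (summable_ft (r := r) one_pos hβ (0 : Xs m) 0) (fun jl => ?_) ?_
  · rw [tsum_ite_eq] at key
    exact key
  · split_ifs with h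
    · subst h
      simp only [rho_zero_zero, ft_zero]
      exact tendsto_const_nhds
    · have hc := glue_ne hr hm h
      unfold ft
      rw [Real.tendsto_exp_comp_nhds_zero]
      refine Tendsto.const_mul_atTop_of_neg (by nlinarith [Real.pi_pos, mul_pos Real.pi_pos hβ]) ?_
      simp only [rho_zero_form]
      refine tendsto_atTop_add_const_left _ _ ?_
      simp only [div_eq_mul_inv]
      refine Tendsto.const_mul_atTop hc ?_
      simp only [← inv_pow]
      exact (tendsto_pow_atTop two_ne_zero).comp tendsto_inv_nhdsGT_zero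
  · filter_upwards [Ioo_mem_nhdsGT (zero_lt_one' ℝ)] with ω hω jl
    rw [Real.norm_of_nonneg (ft_pos _ _).le]
    refine ft_le_ft (mul_le_mul_of_nonneg_left ?_ hβ.le)
    rw [rho_zero_form, rho_zero_form]
    exact add_le_add le_rfl (div_le_div_of_nonneg_left (Finset.sum_nonneg fun _ _ => sq_nonneg _)
      (pow_pos hω.1 2) (pow_le_pow_left₀ hω.1.le hω.2.le 2))

theorem rho_sub_le' (ω : ℝ) (x : Xs m) (k : Zv m) (jl jl' : Zv r × Zv m) :
    rho ω (0 : Xs m) (0 : Zv m) (jl - jl') ≤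
      2 * (rho ω x k jl - ω ^ 2 * ‖iv k‖ ^ 2) + 2 * (rho ω x k jl' - ω ^ 2 * ‖iv k‖ ^ 2) := by
  rw [rho_zero_form, rho, rho, Finset.sum_div]
  have h1 : ∑ i, ((jl - jl').1 i : ℝ) ^ 2 ≤
      2 * ∑ i, (jl.1 i + Bk r k i) ^ 2 + 2 * ∑ i, (jl'.1 i + Bk r k i) ^ 2 := by
    rw [Finset.mul_sum, Finset.mul_sum, ← Finset.sum_add_distrib]
    refine Finset.sum_le_sum fun i _ => ?_
    simp only [Prod.fst_sub, Pi.sub_apply, Int.cast_sub]
    nlinarith [sq_nonneg ((jl.1 i + Bk r k i) + (jl'.1 i + Bk r k i))]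
  have h2 : ∑ p, (((jl - jl').2 p : ℝ) - ∑ i, Bm m r i p * (jl - jl').1 i) ^ 2 / ω ^ 2 ≤
      2 * ∑ p, (jl.2 p + yv x k jl.1 p) ^ 2 / ω ^ 2 +
        2 * ∑ p, (jl'.2 p + yv x k jl'.1 p) ^ 2 / ω ^ 2 := by
    rw [Finset.mul_sum, Finset.mul_sum, ← Finset.sum_add_distrib]
    refine Finset.sum_le_sum fun p _ => ?_
    have e : ((jl - jl').2 p : ℝ) - ∑ i, Bm m r i p * (jl - jl').1 i =
        (jl.2 p + yv x k jl.1 p) - (jl'.2 p + yv x k jl'.1 p) := by
      simp only [yv, Prod.fst_sub, Prod.snd_sub, Pi.sub_apply, Int.cast_sub, mul_sub, mul_add,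
        Finset.sum_sub_distrib, Finset.sum_add_distrib]
      ring
    rw [e, ← mul_div_assoc, ← mul_div_assoc, ← add_div]
    refine div_le_div_of_nonneg_right ?_ (sq_nonneg _)
    nlinarith [sq_nonneg ((jl.2 p + yv x k jl.1 p) + (jl'.2 p + yv x k jl'.1 p))]
  linarith

theorem rho_sub_le (ω : ℝ) (x : Xs m) (k : Zv m) (jl jl' : Zv r × Zv m) :
    rho ω (0 : Xs m) (0 : Zv m) (jl - jl') ≤ 2 * rho ω x k jl + 2 * rho ω x k jl' := by
  have h := rho_sub_le' ω x k jl jl'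
  have : 0 ≤ ω ^ 2 * ‖iv k‖ ^ 2 := by positivity
  linarith

theorem hasSum_other_F00 {ω β : ℝ} (hω : 0 < ω) (hβ : 0 < β) (jl₀ : Zv r × Zv m) :
    HasSum (fun jl : Zv r × Zv m =>
      if jl = jl₀ then 0 else ft β (rho ω (0 : Xs m) (0 : Zv m) (jl - jl₀))) (F00 m r ω β - 1) := by
  have h1 := (summable_other (r := r) hω hβ (0 : Xs m) 0 0).hasSum
  have h2 := FS_ft_split (r := r) hω hβ (0 : Xs m) 0 0
  rw [rho_zero_zero, ft_zero] at h2
  have h3 := (Equiv.subRight jl₀).hasSum_iff.2 h1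
  rw [F00, h2, add_sub_cancel_left]
  convert h3 using 2 with jl
  simp [sub_eq_zero]

/-- all points of a fibre other than a given one -/
theorem FS_ft_other_le {ω β : ℝ} (hω : 0 < ω) (hβ : 0 < β) (x : Xs m) (k : Zv m)
    (jl₀ : Zv r × Zv m) :
    ∑' jl : Zv r × Zv m, (if jl = jl₀ then 0 else ft β (rho ω x k jl)) ≤
      rexp (π * β * rho ω x k jl₀) * (F00 m r ω (β / 2) - 1) := by
  refine hasSum_le (fun jl => ?_) (summable_other hω hβ x k jl₀).hasSum
    ((hasSum_other_F00 hω (half_pos hβ) jl₀).mul_left _)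
  split_ifs with h
  · simp
  · rw [ft, ft, ← Real.exp_add]
    apply Real.exp_le_exp.2
    have := mul_le_mul_of_nonneg_left (rho_sub_le ω x k jl jl₀) (mul_pos Real.pi_pos hβ).le
    linarith

theorem tendsto_rho {ω : ℝ} (hω : 0 < ω) (x : Xs m) (k : Zv m) :
    Tendsto (fun jl : Zv r × Zv m => rho ω x k jl) cofinite atTop := by
  have h := (summable_ft (r := r) hω one_pos x k).tendsto_cofinite_zero
  unfold ft at h
  rw [Real.tendsto_exp_comp_nhds_zero] at h
  exact (tendsto_const_mul_atBot_of_neg (by nlinarith [Real.pi_pos])).1 h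

/-- all points of a fibre other than the closest one -/
theorem exists_closest {ω β : ℝ} (hω : 0 < ω) (hβ : 0 < β) (x : Xs m) (k : Zv m) :
    ∃ jl₀ : Zv r × Zv m, (∀ jl : Zv r × Zv m, rho ω x k jl₀ ≤ rho ω x k jl) ∧
      ∑' jl : Zv r × Zv m, (if jl = jl₀ then 0 else ft β (rho ω x k jl)) ≤
        rexp (-π * β * (ω ^ 2 * ‖iv k‖ ^ 2)) * (F00 m r ω (β / 4) - 1) := by
  obtain ⟨jl₀, h₀⟩ := (tendsto_rho (r := r) hω x k).exists_forall_le
  refine ⟨jl₀, h₀, hasSum_le (fun jl => ?_) (summable_other hω hβ x k jl₀).hasSum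
    ((hasSum_other_F00 hω (by positivity) jl₀).mul_left _)⟩
  split_ifs with h
  · simp
  · rw [ft, ft, ← Real.exp_add]
    apply Real.exp_le_exp.2
    have h1 : rho ω (0 : Xs m) (0 : Zv m) (jl - jl₀) ≤ 4 * (rho ω x k jl - ω ^ 2 * ‖iv k‖ ^ 2) := by
      have := rho_sub_le' ω x k jl jl₀
      have := h₀ jl
      linarith
    have := mul_le_mul_of_nonneg_left h1 (mul_pos Real.pi_pos hβ).le
    linarith

theorem FS_ft_le_F00 {ω β : ℝ} (hω : 0 < ω) (hβ : 0 < β) (x : Xs m) (k : Zv m) :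
    FS r ω (ft β) k x ≤ rexp (-π * β * (ω ^ 2 * ‖iv k‖ ^ 2)) * F00 m r ω (β / 4) := by
  obtain ⟨jl₀, -, h⟩ := exists_closest (r := r) hω hβ x k
  have h1 : ft β (rho ω x k jl₀) ≤ ft β (ω ^ 2 * ‖iv k‖ ^ 2) :=
    ft_le_ft (mul_le_mul_of_nonneg_left (le_rho ω x k jl₀) hβ.le)
  rw [FS_ft_split hω hβ x k jl₀]
  rw [ft.eq_1 β (ω ^ 2 * ‖iv k‖ ^ 2)] at h1
  linarith

theorem FS_ft_sq_le {ω β : ℝ} (hω : 0 < ω) (hβ : 0 < β) (x : Xs m) (k : Zv m) :
    FS r ω (ft β) k x ^ 2 ≤ 2 * FS r ω (ft (2 * β)) k x +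
      2 * (rexp (-π * β * (ω ^ 2 * ‖iv k‖ ^ 2)) * (F00 m r ω (β / 4) - 1)) ^ 2 := by
  obtain ⟨jl₀, -, h⟩ := exists_closest (r := r) hω hβ x k
  have h0 : 0 ≤ ∑' jl : Zv r × Zv m, (if jl = jl₀ then 0 else ft β (rho ω x k jl)) :=
    tsum_nonneg fun jl => by
      split_ifs
      · exact le_rfl
      · exact (ft_pos _ _).le
  have h1 : ft β (rho ω x k jl₀) ^ 2 ≤ FS r ω (ft (2 * β)) k x := by
    refine le_trans (le_of_eq ?_) (ft_le_FS hω (by positivity) x k jl₀)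
    rw [ft, ft, ← Real.exp_nat_mul]
    congr 1
    push_cast
    ring
  rw [FS_ft_split hω hβ x k jl₀]
  have h2 := pow_le_pow_left₀ h0 h 2
  nlinarith [sq_nonneg (ft β (rho ω x k jl₀) -
    ∑' jl : Zv r × Zv m, (if jl = jl₀ then 0 else ft β (rho ω x k jl)))]

theorem FS_ft_shift {ω β β' : ℝ} (hω : 0 < ω) (hβ : 0 < β) (hβ' : 0 ≤ β') (x : Xs m) (k : Zv m) :
    FS r ω (ft (β + β')) k x ≤ rexp (-π * β' * (ω ^ 2 * ‖iv k‖ ^ 2)) * FS r ω (ft β) k x := by
  refine hasSum_le (fun jl => ?_) (summable_ft hω (by positivity) x k).hasSum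
    ((summable_ft hω hβ x k).hasSum.mul_left _)
  rw [ft, ft, ← Real.exp_add]
  apply Real.exp_le_exp.2
  have := mul_le_mul_of_nonneg_left (le_rho ω x k jl) (mul_nonneg Real.pi_pos.le hβ')
  linarith

theorem eventually_F00 (hr : r ≤ 1) (hm : 1 ≤ m) {β ε : ℝ} (hβ : 0 < β) (hε : 0 < ε) (C : ℝ) :
    ∀ᶠ ω in 𝓝[>] (0 : ℝ), C * (F00 m r ω β - 1) < ε := by
  have h := ((tendsto_F00 hr hm hβ).sub_const 1).const_mul C
  rw [sub_self, mul_zero] at h
  exact h.eventually (gt_mem_nhds hε)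

/-- a fibre has at most one point in a bounded region -/
theorem fibre_sep (hr : r ≤ 1) (hm : 1 ≤ m) (R : ℝ) : ∀ᶠ ω in 𝓝[>] (0 : ℝ),
    (∀ (x : Xs m) (k : Zv m) (jl jl' : Zv r × Zv m),
      rho ω x k jl ≤ R → rho ω x k jl' ≤ R → jl = jl') ∧
    ∀ (x : Xs m) (jl : Zv r × Zv m), rho ω x 0 jl ≤ R → jl = 0 := by
  filter_upwards [self_mem_nhdsWithin, eventually_F00 hr hm one_pos (ft_pos 1 (4 * R)) 1]
    with ω hω h
  have key : ∀ (x : Xs m) (k : Zv m) (jl jl' : Zv r × Zv m),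
      rho ω x k jl ≤ R → rho ω x k jl' ≤ R → jl = jl' := by
    intro x k jl jl' h1 h2
    by_contra hne
    have h3 := le_hasSum (hasSum_other_F00 (r := r) hω one_pos jl') jl fun j _ => by
      split_ifs
      · exact le_rfl
      · exact (ft_pos _ _).le
    rw [if_neg hne] at h3
    have h4 : ft 1 (4 * R) ≤ ft 1 (rho ω (0 : Xs m) (0 : Zv m) (jl - jl')) := by
      refine ft_le_ft ?_
      have := rho_sub_le ω x k jl jl'
      linarith
    linarith
  refine ⟨key, fun x jl h1 => key x 0 jl 0 h1 ?_⟩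
  rw [rho_zero_eq, rho_zero_zero]
  exact (rho_nonneg _ _ _ _).trans h1

theorem norm_cexp_rho (z : ℂ) (ρ : ℝ) : ‖cexp (-(π : ℂ) * z * (ρ : ℝ))‖ = ft z.re ρ := by
  rw [Complex.norm_exp, ft]
  congr 1
  simp

theorem summable_cexp_rho {ω : ℝ} {z : ℂ} (hω : 0 < ω) (hz : 0 < z.re) (x : Xs m) (k : Zv m) :
    Summable fun jl : Zv r × Zv m => cexp (-(π : ℂ) * z * (rho ω x k jl : ℝ)) := by
  refine Summable.of_norm ?_
  simp only [norm_cexp_rho]
  exact summable_ft hω hz x k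

theorem cross_le {ω : ℝ} {z z' : ℂ} (hω : 0 < ω) (hz : 1 ≤ z.re) (hz' : 1 ≤ z'.re) (x : Xs m)
    (k : Zv m) :
    ‖Fz r ω z k x * starRingEnd ℂ (Fz r ω z' k x) - Fz r ω (z + starRingEnd ℂ z') k x‖ ≤
      FS r ω (ft (1 / 2)) k x * (F00 m r ω (1 / 4) - 1) := by
  have hs := summable_cexp_rho (r := r) hω (one_pos.trans_le hz) x k
  have hs' := summable_cexp_rho (r := r) hω (one_pos.trans_le hz') x k
  have hs2 := summable_cexp_rho (r := r) (z := z + starRingEnd ℂ z') hω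
    (by simp only [Complex.add_re, Complex.conj_re]; linarith) x k
  have H := (hs.hasSum.mul_right (starRingEnd ℂ (Fz r ω z' k x))).sub hs2.hasSum
  refine H.norm_le_of_bounded ((summable_ft hω one_half_pos x k).hasSum.mul_right _) fun a => ?_
  have e1 : Fz r ω z' k x = cexp (-(π : ℂ) * z' * (rho ω x k a : ℝ)) +
      ∑' b : Zv r × Zv m, if b = a then 0 else cexp (-(π : ℂ) * z' * (rho ω x k b : ℝ)) :=
    hs'.tsum_eq_add_tsum_ite a
  have e2 : cexp (-(π : ℂ) * (z + starRingEnd ℂ z') * (rho ω x k a : ℝ)) =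
      cexp (-(π : ℂ) * z * (rho ω x k a : ℝ)) *
        starRingEnd ℂ (cexp (-(π : ℂ) * z' * (rho ω x k a : ℝ))) := by
    rw [← Complex.exp_conj, ← Complex.exp_add]
    congr 1
    simp only [map_mul, map_neg, Complex.conj_ofReal]
    ring
  rw [e2, ← mul_sub, ← map_sub, e1, add_sub_cancel_left, norm_mul, Complex.norm_conj,
    norm_cexp_rho]
  have h1 : ‖∑' b : Zv r × Zv m, if b = a then 0 else cexp (-(π : ℂ) * z' * (rho ω x k b : ℝ))‖ ≤
      ∑' b : Zv r × Zv m, if b = a then 0 else ft (1 / 2) (rho ω x k b) := by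
    refine tsum_of_norm_bounded (summable_other hω one_half_pos x k a).hasSum fun b => ?_
    split_ifs
    · simp
    · rw [norm_cexp_rho]
      exact ft_le_ft (mul_le_mul_of_nonneg_right (by linarith) (rho_nonneg _ _ _ _))
  have h2 := h1.trans (FS_ft_other_le hω one_half_pos x k a)
  have h3 : 0 ≤ F00 m r ω (1 / 4) - 1 := sub_nonneg.2 (one_le_F00 hω (by norm_num))
  rw [show (1 / 2 / 2 : ℝ) = 1 / 4 by norm_num] at h2
  refine (mul_le_mul_of_nonneg_left h2 (ft_pos _ _).le).trans ?_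
  rw [← mul_assoc]
  refine mul_le_mul_of_nonneg_right ?_ h3
  rw [ft, ft, ← Real.exp_add]
  apply Real.exp_le_exp.2
  have := mul_le_mul_of_nonneg_left hz (mul_nonneg Real.pi_pos.le (rho_nonneg ω x k a))
  linarith

/-- comparison of fibre sums -/
theorem FS_le_of_le {ω β C : ℝ} (hω : 0 < ω) (hβ : 0 < β) {φ : ℝ → ℝ}
    (hφ : ∀ ρ, 0 ≤ ρ → |φ ρ| ≤ C * ft β ρ) (x : Xs m) (k : Zv m) :
    (Summable fun jl : Zv r × Zv m => φ (rho ω x k jl)) ∧
      |FS r ω φ k x| ≤ C * FS r ω (ft β) k x := by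
  have H := (summable_ft (r := r) hω hβ x k).hasSum.mul_left C
  exact ⟨Summable.of_norm_bounded H.summable fun jl => hφ _ (rho_nonneg _ _ _ _),
    (Real.norm_eq_abs _).symm.trans_le (tsum_of_norm_bounded (f := fun jl => φ (rho ω x k jl)) H
      fun jl => hφ _ (rho_nonneg _ _ _ _))⟩

theorem measurable_rho (ω : ℝ) (k : Zv m) (jl : Zv r × Zv m) :
    Continuous fun x : Xs m => rho ω x k jl := by
  unfold rho yv Th
  fun_prop

theorem measurable_FS (ω : ℝ) {φ : ℝ → ℝ} (hφ : Measurable φ) (k : Zv m) :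
    Measurable (FS r ω φ k) :=
  Measurable.tsum fun jl => hφ.comp (measurable_rho ω k jl).measurable

theorem measurable_FS₂ (ω : ℝ) {φ : ℝ → ℝ → ℝ} (hφ : Measurable (Function.uncurry φ)) (k : Zv m) :
    Measurable fun p : ℝ × Xs m => FS r ω (φ p.1) k p.2 :=
  Measurable.tsum fun jl => hφ.comp
    (measurable_fst.prodMk ((measurable_rho ω k jl).measurable.comp measurable_snd))

theorem measurable_Fz₂ (ω : ℝ) (k : Zv m) :
    Measurable fun p : ℂ × Xs m => Fz r ω p.1 k p.2 := by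
  refine Measurable.tsum fun jl => Continuous.measurable ?_
  have := measurable_rho ω k jl
  fun_prop

theorem measurable_isq : Measurable isq := measurable_id.pow_const _

theorem measurable_Cp (ω : ℝ) (k η : Zv m) : Measurable fun z : ℂ => Cp r ω z k η := by
  have h1 := measurable_isq
  have h2 : Measurable fun z : ℂ => Dz z (Bk r k) (Bk r η) := by
    refine Measurable.tsum fun j => ?_
    fun_prop
  unfold Cp
  fun_prop

theorem continuous_Fz {ω : ℝ} {z : ℂ} (hω : 0 < ω) (hz : 0 < z.re) (k : Zv m) :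
    Continuous (Fz r ω z k) := by
  have e : Fz r ω z k = fun x => ∑' η : Zv m, Cp r ω z k η * ch η k x :=
    funext fun x => Fz_eq_tsum hω hz k x
  rw [e]
  refine continuous_tsum (fun η => continuous_const.mul (continuous_ch η k))
    ((summable_Cp (r := r) hω hz).prod_factor k) fun η x => ?_
  rw [norm_mul, norm_ch, mul_one]

theorem FS_per (ω : ℝ) (φ : ℝ → ℝ) (k : Zv m) (N : Fin m × Fin m → ℤ) (x : Xs m) :
    FS r ω φ k (x + fun i => (N i : ℝ)) = FS r ω φ k x := by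
  unfold FS
  refine Eq.trans (tsum_congr fun jl => congrArg φ ?_)
    ((Equiv.addRight (((0 : Zv r), fun p => ∑ q, (N (p, q) - N (q, p)) * k q) :
      Zv r × Zv m)).tsum_eq fun jl => φ (rho ω x k jl))
  simp only [rho, Equiv.coe_addRight, Prod.fst_add, Prod.snd_add, add_zero, Pi.add_apply,
    Pi.zero_apply]
  refine congrArg _ (Finset.sum_congr rfl fun p _ => ?_)
  congr 2
  simp only [yv, Th, Pi.add_apply]
  push_cast
  have : ∑ q, (x (p, q) + N (p, q) - (x (q, p) + N (q, p))) * (k q : ℝ) =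
      ∑ q, ((N (p, q) : ℝ) - N (q, p)) * k q + ∑ q, (x (p, q) - x (q, p)) * k q := by
    rw [← Finset.sum_add_distrib]
    exact Finset.sum_congr rfl fun q _ => by ring
  rw [this]
  ring

theorem FS_inv (ω : ℝ) (φ : ℝ → ℝ) {W : Submodule ℝ (Ev m)} {k : Zv m} (hk : iv k ∈ W)
    {v w : Ev m} (hv : v ∈ Wᗮ) (hw : w ∈ Wᗮ) (s : ℝ) (x : Xs m) :
    FS r ω φ k (x + fun i => s * v i.1 * w i.2) = FS r ω φ k x := by
  have h1 := inner_eq_zero_of_mem hk hv
  have h2 := inner_eq_zero_of_mem hk hw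
  rw [inner_iv] at h1 h2
  have h3 : ∀ j : Zv r, yv (x + fun i => s * v i.1 * w i.2) k j = yv x k j := fun j => by
    funext p
    simp only [yv, Th, Pi.add_apply]
    have : ∑ q, (x (p, q) + s * v p * w q - (x (q, p) + s * v q * w p)) * (k q : ℝ) =
        ∑ q, (x (p, q) - x (q, p)) * k q + s * v p * ∑ q, (k q : ℝ) * w q -
          s * w p * ∑ q, (k q : ℝ) * v q := by
      rw [Finset.mul_sum, Finset.mul_sum, ← Finset.sum_add_distrib, ← Finset.sum_sub_distrib]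
      exact Finset.sum_congr rfl fun q _ => by ring
    rw [this, h1, h2]
    ring
  unfold FS rho
  simp only [h3]

theorem ramp_mem (n : ℕ) (u : ℝ) : 0 ≤ ramp n u ∧ ramp n u ≤ 1 :=
  ⟨le_max_left _ _, max_le zero_le_one (min_le_left _ _)⟩

theorem continuous_ramp (n : ℕ) : Continuous (ramp n) := by
  unfold ramp
  fun_prop

theorem ramp_of_nonpos (n : ℕ) {u : ℝ} (hu : u ≤ 0) : ramp n u = 0 :=
  max_eq_left ((min_le_right _ _).trans (mul_nonpos_of_nonneg_of_nonpos (Real.exp_pos _).le hu))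

theorem ramp_le_exp (n : ℕ) {c : ℝ} (hc : 0 ≤ c) (u : ℝ) : ramp n u ≤ rexp (c * u) := by
  rcases le_total u 0 with hu | hu
  · rw [ramp_of_nonpos n hu]
    exact (Real.exp_pos _).le
  · exact (ramp_mem n u).2.trans (Real.one_le_exp (mul_nonneg hc hu))

theorem AA_le_FS {n : ℕ} {ω β : ℝ} (hω : 0 < ω) (hβ : 0 < β) (k : Zv (n / 2)) (x : Xs (n / 2)) :
    0 ≤ AA n ω k x ∧ AA n ω k x ≤ rexp (π * β * rho1 n) * FS (n % 2) ω (ft β) k x := by
  refine ⟨tsum_nonneg fun jl => (ramp_mem _ _).1, (le_abs_self _).trans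
    (FS_le_of_le hω hβ (fun ρ _ => ?_) x k).2⟩
  rw [aa, abs_of_nonneg (ramp_mem _ _).1, ft, ← Real.exp_add]
  refine (ramp_le_exp n (mul_pos Real.pi_pos hβ).le _).trans (le_of_eq ?_)
  congr 1
  ring

/-- either the hole profile vanishes on the fibre or it sees exactly one point -/
theorem AA_cases {n : ℕ} {ω : ℝ} {k : Zv (n / 2)} {x : Xs (n / 2)}
    (h : ∀ jl jl' : Zv (n % 2) × Zv (n / 2),
      rho ω x k jl ≤ rho1 n → rho ω x k jl' ≤ rho1 n → jl = jl') :
    AA n ω k x = 0 ∨ ∃ jl₀ : Zv (n % 2) × Zv (n / 2),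
      rho ω x k jl₀ < rho1 n ∧ AA n ω k x = aa n (rho ω x k jl₀) := by
  by_cases h0 : ∃ jl₀ : Zv (n % 2) × Zv (n / 2), rho ω x k jl₀ < rho1 n
  · obtain ⟨jl₀, h₀⟩ := h0
    refine Or.inr ⟨jl₀, h₀, tsum_eq_single jl₀ fun jl hjl => ramp_of_nonpos n ?_⟩
    by_contra hlt
    exact hjl (h jl jl₀ (by linarith) h₀.le)
  · push Not at h0
    refine Or.inl ?_
    have : ∀ jl : Zv (n % 2) × Zv (n / 2), aa n (rho ω x k jl) = 0 := fun jl =>
      ramp_of_nonpos n (sub_nonpos.2 (h0 jl))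
    simp [AA, FS, this]

theorem AA_inv : ∀ᶠ n : ℕ in atTop, ∀ᶠ ω in 𝓝[>] (0 : ℝ),
    (∀ (W : Submodule ℝ (Ev (n / 2))) (k : Zv (n / 2)), iv k ∈ W → InvW W (AA n ω k)) ∧
    ∀ S : Finset (Zv (n / 2)), InvW (spanS S) (AS n ω S) := by
  filter_upwards [eventually_ge_atTop 2] with n hn
  filter_upwards [self_mem_nhdsWithin,
    fibre_sep (r := n % 2) (m := n / 2) (by omega) (by omega) (rho1 n)] with ω hω hsep
  have key : ∀ (W : Submodule ℝ (Ev (n / 2))) (k : Zv (n / 2)), iv k ∈ W →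
      InvW W (AA n ω k) := fun W k hk => by
    refine ⟨measurable_FS ω ((continuous_ramp n).comp (by fun_prop)).measurable k,
      fun x => (AA_le_FS hω one_pos k x).1, fun x => ?_, fun N x => FS_per ω _ k N x,
      fun v hv w hw s x => FS_inv ω _ hk hv hw s x⟩
    rcases AA_cases (hsep.1 x k) with h | ⟨jl₀, -, h⟩
    · rw [h]
      exact zero_le_one
    · rw [h]
      exact (ramp_mem _ _).2
  refine ⟨key, fun S => ?_⟩
  have : ∀ T : Finset (Zv (n / 2)), T ⊆ S → InvW (spanS S) (AS n ω T) := fun T => by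
    induction T using Finset.induction_on with
    | empty => exact fun _ => InvW.one _
    | insert k T hk ih =>
      intro hT
      have h1 := key (spanS S) k (Submodule.subset_span ⟨k, hT (Finset.mem_insert_self _ _), rfl⟩)
      have h2 := h1.mul (ih ((Finset.subset_insert _ _).trans hT))
      have e : AS n ω (insert k T) = fun x => AA n ω k x * AS n ω T x :=
        funext fun x => Finset.prod_insert hk
      rwa [e]
  exact this S subset_rfl

/-- first order bound: on the support of the hole profile the fibre has one relevant point -/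
theorem AA_mul_FS_le : ∀ᶠ n : ℕ in atTop, ∀ᶠ ω in 𝓝[>] (0 : ℝ),
    ∀ (k : Zv (n / 2)) (x : Xs (n / 2)),
      (∀ β ∈ Set.Icc (1 / 100 : ℝ) 2, AA n ω k x * FS (n % 2) ω (ft β) k x ≤
        rexp (π * (rexp 1 - β) * rho1 n) * FS (n % 2) ω (ft (rexp 1)) k x +
          rexp (-(n : ℝ) ^ 2) * AA n ω k x) ∧
      AA n ω k x * FS (n % 2) ω (cutG n) k x ≤ rexp (-(n : ℝ) ^ 2) * AA n ω k x := by
  filter_upwards [eventually_ge_atTop 2] with n hn
  have hr : n % 2 ≤ 1 := by omega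
  have hm : 1 ≤ n / 2 := by omega
  filter_upwards [self_mem_nhdsWithin, fibre_sep hr hm (rho1 n),
    eventually_F00 hr hm (show (0 : ℝ) < 1 / 200 by norm_num) (Real.exp_pos (-(n : ℝ) ^ 2))
      (rexp (π * 2 * rho1 n))] with ω hω hsep hF k x
  have hω : 0 < ω := hω
  rcases AA_cases (hsep.1 x k) with h | ⟨jl₀, h₀, h⟩
  · rw [h]
    refine ⟨fun β _ => ?_, by simp⟩
    have := FS_ft_nonneg (r := n % 2) ω (rexp 1) x k
    simp only [zero_mul, mul_zero, add_zero]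
    positivity
  have hA : 0 ≤ AA n ω k x := (AA_le_FS hω one_pos k x).1
  have hρ := rho_nonneg ω x k jl₀
  have other : ∀ β c : ℝ, 1 / 100 ≤ β → 0 ≤ c → β + c ≤ 2 → rexp (π * c * rho1 n) *
      ∑' jl : Zv (n % 2) × Zv (n / 2), (if jl = jl₀ then 0 else ft β (rho ω x k jl)) ≤
        rexp (-(n : ℝ) ^ 2) := fun β c h1 h2 h3 => by
    have hβ : 0 < β := by linarith
    refine (mul_le_mul_of_nonneg_left (FS_ft_other_le hω hβ x k jl₀)
      (Real.exp_pos _).le).trans (le_trans ?_ hF.le)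
    rw [← mul_assoc, ← Real.exp_add]
    refine mul_le_mul (Real.exp_le_exp.2 ?_) ?_
      (sub_nonneg.2 (one_le_F00 hω (half_pos hβ))) (Real.exp_pos _).le
    · have a1 : β * rho ω x k jl₀ ≤ β * rho1 n := mul_le_mul_of_nonneg_left h₀.le hβ.le
      have a2 : (β + c) * rho1 n ≤ 2 * rho1 n := mul_le_mul_of_nonneg_right h3 (by linarith)
      nlinarith [Real.pi_pos]
    · have := F00_anti (m := n / 2) (r := n % 2) (β := 1 / 200) (β' := β / 2) hω (by norm_num)
        (by linarith)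
      linarith
  refine ⟨fun β hβ => ?_, ?_⟩
  · have hβ0 : 0 < β := by linarith [hβ.1]
    have h1 := other β 0 hβ.1 le_rfl (by linarith [hβ.2])
    rw [mul_zero, zero_mul, Real.exp_zero, one_mul] at h1
    rw [FS_ft_split hω hβ0 x k jl₀, mul_add]
    refine add_le_add ?_ (by rw [mul_comm]; exact mul_le_mul_of_nonneg_right h1 hA)
    refine le_trans ?_ (mul_le_mul_of_nonneg_left (ft_le_FS hω (Real.exp_pos 1) x k jl₀)
      (Real.exp_pos _).le)
    have he : 0 ≤ π * (rexp 1 - β) := by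
      have := Real.add_one_le_exp (1 : ℝ)
      exact mul_nonneg Real.pi_pos.le (by linarith [hβ.2])
    rw [h, aa]
    refine (mul_le_mul_of_nonneg_right (ramp_le_exp n he _) (ft_pos _ _).le).trans (le_of_eq ?_)
    rw [ft, ft, ← Real.exp_add, ← Real.exp_add]
    congr 1
    ring
  · rw [mul_comm]
    refine mul_le_mul_of_nonneg_right
      (le_trans ?_ (other (2 / 3) (2 / 3) (by norm_num) (by norm_num) (by norm_num))) hA
    refine (Real.le_norm_self _).trans (tsum_of_norm_bounded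
      (f := fun jl => cutG n (rho ω x k jl))
      ((summable_other (β := 2 / 3) hω (by norm_num) x k jl₀).hasSum.mul_left _) fun jl => ?_)
    by_cases hjl : jl = jl₀
    · rw [hjl, cutG, if_neg (not_le.2 h₀)]
      simp
    · rw [if_neg hjl, cutG]
      split_ifs
      · rw [Real.norm_of_nonneg (Real.exp_pos _).le, ft, ← Real.exp_add]
        refine le_of_eq ?_
        congr 1
        ring
      · rw [norm_zero]
        exact mul_nonneg (Real.exp_pos _).le (ft_pos _ _).le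

end Pool.Agent.Eps
end
end
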