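import Pool.Agent.Lib.MP_3bda03_nt.Fiber

set_option autoImplicit false

noncomputable section

open scoped BigOperators Classical Topology FourierTransform
open MeasureTheory Real Complex Filter

namespace Pool.Agent.Eps

theorem mx_lap {z : ℂ} (hz : 0 < z.re) :
    IntegrableOn (fun u : ℝ => (u : ℂ) * cexp (-z * u)) (Set.Ioi 0) ∧
      ∫ u in Set.Ioi (0 : ℝ), (u : ℂ) * cexp (-z * u) = (z ^ 2)⁻¹ := by
  have hz0 : z ≠ 0 := fun h => by simp [h] at hz
  have h1 : IntegrableOn (fun u : ℝ => (u : ℂ) * cexp (-z * u)) (Set.Ioi 0) := by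
    refine (integrableOn_rpow_mul_exp_neg_mul_rpow (s := 1) (p := 1) (by norm_num) one_pos
      hz).mono' (Continuous.aestronglyMeasurable (by fun_prop)) ?_
    filter_upwards [ae_restrict_mem measurableSet_Ioi] with u hu
    simp [Complex.norm_exp, abs_of_pos (show 0 < u from hu)]
  have h2 := integrableOn_exp_mul_complex_Ioi (a := -z) (by simpa using hz) 0
  have hd : ∀ x : ℝ, HasDerivAt
      (fun u : ℝ => -z⁻¹ * ((u : ℂ) * cexp (-z * u)) + -(z ^ 2)⁻¹ * cexp (-z * u))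
      ((x : ℂ) * cexp (-z * x)) x := by
    intro x
    have a : HasDerivAt (fun u : ℝ => (u : ℂ)) 1 x := by simpa using (hasDerivAt_id x).ofReal_comp
    have b := (a.const_mul (-z)).cexp
    refine (((a.mul b).const_mul (-z⁻¹)).add (b.const_mul (-(z ^ 2)⁻¹))).congr_deriv ?_
    field_simp
    ring
  have ht := tendsto_zero_of_hasDerivAt_of_integrableOn_Ioi (fun x _ => hd x) h1
    ((h1.const_mul _).add (h2.const_mul _))
  refine ⟨h1, ?_⟩
  rw [integral_Ioi_of_hasDerivAt_of_tendsto' (fun x _ => hd x) h1 ht]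
  simp

theorem mx_norm_sq (τ y : ℝ) : ‖(π : ℂ) * (τ + y * I)‖ ^ 2 = π ^ 2 * (τ ^ 2 + y ^ 2) := by
  rw [norm_mul, mul_pow, Complex.norm_add_mul_I, Real.sq_sqrt (by positivity)]
  simp

theorem mx_ne {τ : ℝ} (hτ : 0 < τ) (y : ℝ) : (π : ℂ) * (τ + y * I) ≠ 0 := by
  intro h
  have h1 := mx_norm_sq τ y
  rw [h, norm_zero] at h1
  have h2 : 0 < π ^ 2 * (τ ^ 2 + y ^ 2) := by positivity
  linarith

theorem mx_cont {τ : ℝ} (hτ : 0 < τ) :
    Continuous fun y : ℝ => (((π : ℂ) * (τ + y * I)) ^ 2)⁻¹ :=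
  Continuous.inv₀ (by fun_prop) fun y => pow_ne_zero 2 (mx_ne hτ y)

theorem mx_int {τ : ℝ} (hτ : 0 < τ) :
    Integrable fun y : ℝ => (((π : ℂ) * (τ + y * I)) ^ 2)⁻¹ := by
  have hm : 0 < min (τ ^ 2) 1 := by positivity
  refine (integrable_inv_one_add_sq.const_mul (min (τ ^ 2) 1)⁻¹).mono'
    (mx_cont hτ).aestronglyMeasurable (Eventually.of_forall fun y => ?_)
  rw [norm_inv, norm_pow, mx_norm_sq, ← mul_inv]
  refine inv_anti₀ (by positivity) ?_
  have h1 := min_le_left (τ ^ 2) 1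
  have h2 := mul_le_mul_of_nonneg_right (min_le_right (τ ^ 2) 1) (sq_nonneg y)
  have h3 : 1 ≤ π ^ 2 := by nlinarith [Real.pi_gt_three]
  have h4 := mul_le_mul_of_nonneg_right h3 (show 0 ≤ τ ^ 2 + y ^ 2 by positivity)
  linarith

theorem mx_norm_exp (τ y u : ℝ) : ‖cexp ((π : ℂ) * (τ + y * I) * u)‖ = rexp (π * τ * u) := by
  simp [Complex.norm_exp]

theorem mx_int' {τ : ℝ} (hτ : 0 < τ) (u : ℝ) : Integrable fun y : ℝ =>
    (((π : ℂ) * (τ + y * I)) ^ 2)⁻¹ * cexp ((π : ℂ) * (τ + y * I) * u) :=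
  (mx_int hτ).mul_bdd (Continuous.aestronglyMeasurable (by fun_prop))
    (Eventually.of_forall fun y => (mx_norm_exp τ y u).le)

theorem mx_pos {τ : ℝ} (hτ : 0 < τ) (u : ℝ) : 2 * ((max 0 u : ℝ) : ℂ) = ∫ y : ℝ,
    (((π : ℂ) * (τ + y * I)) ^ 2)⁻¹ * cexp ((π : ℂ) * (τ + y * I) * u) := by
  let f : ℝ → ℂ := fun u => ((max 0 u : ℝ) : ℂ) * cexp (-(π * τ) * u)
  have hc : Continuous f := by fun_prop
  have hf : ∀ w : ℂ, (fun u : ℝ => cexp (w * u) * f u) =
      (Set.Ioi (0 : ℝ)).indicator fun u : ℝ => (u : ℂ) * cexp (-(π * τ - w) * u) := by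
    intro w
    funext u
    by_cases hu : 0 < u
    · rw [Set.indicator_of_mem (show u ∈ Set.Ioi 0 from hu)]
      simp only [f, max_eq_right hu.le]
      rw [mul_left_comm, ← Complex.exp_add]
      congr 2
      ring
    · rw [Set.indicator_of_notMem (show u ∉ Set.Ioi 0 from hu)]
      simp [f, max_eq_left (not_lt.1 hu)]
  have hi : Integrable f := by
    have := hf 0
    simp only [zero_mul, Complex.exp_zero, one_mul, sub_zero] at this
    rw [show f = _ from this, integrable_indicator_iff measurableSet_Ioi]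
    exact (mx_lap (by simpa using mul_pos Real.pi_pos hτ)).1
  have hF : 𝓕 f = fun ξ : ℝ => (((π : ℂ) * (τ + (2 * ξ : ℝ) * I)) ^ 2)⁻¹ := by
    funext ξ
    rw [Real.fourier_real_eq_integral_exp_smul,
      ← (mx_lap (z := π * (τ + (2 * ξ : ℝ) * I)) (by simpa using mul_pos Real.pi_pos hτ)).2,
      ← integral_indicator measurableSet_Ioi]
    have := hf (-2 * π * ξ * I)
    rw [show (π : ℂ) * τ - -2 * π * ξ * I = π * (τ + (2 * ξ : ℝ) * I) by push_cast; ring] at this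
    rw [← this]
    congr 1
    funext v
    rw [smul_eq_mul]
    congr 2
    push_cast
    ring
  have hiF : Integrable (𝓕 f) := by
    rw [hF]
    exact (mx_int hτ).comp_mul_left' two_ne_zero
  have h := congrFun (hc.fourierInv_fourier_eq hi hiF) u
  have h2 := Measure.integral_comp_mul_left (fun y : ℝ =>
    (((π : ℂ) * (τ + y * I)) ^ 2)⁻¹ * cexp ((π : ℂ) * (τ + y * I) * u)) 2
  have h3 : ∫ x : ℝ, (((π : ℂ) * (τ + (2 * x : ℝ) * I)) ^ 2)⁻¹ *
      cexp ((π : ℂ) * (τ + (2 * x : ℝ) * I) * u) = cexp (π * τ * u) * f u := by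
    rw [← h, Real.fourierInv_eq', hF, ← integral_const_mul]
    congr 1
    funext v
    rw [smul_eq_mul, ← mul_assoc, ← Complex.exp_add, mul_comm]
    congr 2
    simp
    ring
  rw [h3] at h2
  have h4 : cexp (π * τ * u) * f u = ((max 0 u : ℝ) : ℂ) := by
    simp only [f]
    rw [mul_left_comm, ← Complex.exp_add]
    simp
  rw [← h4, h2]
  simp

theorem mx_tail {a θ : ℝ} (ha : 0 < a) (hθ : 0 < θ) :
    ∫ y : ℝ, (|y| + a) ^ (-θ - 1) = 2 * (a ^ (-θ) / θ) := by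
  rw [integral_comp_abs (f := fun y => (y + a) ^ (-θ - 1))]
  have hd : ∀ x ∈ Set.Ici (0 : ℝ),
      HasDerivAt (fun y : ℝ => (y + a) ^ (-θ) / (-θ)) ((x + a) ^ (-θ - 1)) x := by
    intro x hx
    have hx' : 0 < x + a := add_pos_of_nonneg_of_pos hx ha
    refine ((((hasDerivAt_id x).add_const a).rpow_const (p := -θ)
      (Or.inl hx'.ne')).div_const (-θ)).congr_deriv ?_
    simp only [id]
    field_simp
  have ht : Tendsto (fun y : ℝ => (y + a) ^ (-θ) / (-θ)) atTop (𝓝 (0 / (-θ))) :=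
    ((tendsto_rpow_neg_atTop hθ).comp (tendsto_atTop_add_const_right _ a tendsto_id)).div_const _
  rw [integral_Ioi_of_hasDerivAt_of_tendsto' hd
    (integrableOn_add_rpow_Ioi_of_lt (by linarith) (by linarith)) ht]
  simp [div_neg]

theorem mx_ramp_eq (n : ℕ) (u : ℝ) :
    ramp n u = rexp n * (max 0 u - max 0 (u - (rexp n)⁻¹)) := by
  have hc := Real.exp_pos (n : ℝ)
  have h1 : rexp n * (rexp n)⁻¹ = 1 := mul_inv_cancel₀ hc.ne'
  have h0 := inv_pos.2 hc
  unfold ramp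
  rcases le_total u 0 with h | h
  · have : rexp n * u ≤ 0 := mul_nonpos_of_nonneg_of_nonpos hc.le h
    rw [max_eq_left h, max_eq_left (show u - _ ≤ 0 by linarith),
      max_eq_left ((min_le_right _ _).trans this)]
    simp
  · rcases le_total u (rexp n)⁻¹ with h' | h'
    · have : rexp n * u ≤ 1 := h1 ▸ mul_le_mul_of_nonneg_left h' hc.le
      rw [max_eq_right h, max_eq_left (show u - _ ≤ 0 by linarith), min_eq_right this,
        max_eq_right (by positivity), sub_zero]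
    · have : 1 ≤ rexp n * u := h1 ▸ mul_le_mul_of_nonneg_left h' hc.le
      rw [max_eq_right h, max_eq_right (show 0 ≤ u - _ by linarith), min_eq_left this,
        max_eq_right zero_le_one]
      linarith

theorem mx_one_sub {w : ℂ} (hw : 0 ≤ w.re) :
    ‖1 - cexp (-w)‖ ≤ 2 ∧ ‖1 - cexp (-w)‖ ≤ 2 * ‖w‖ := by
  have h1 : ‖1 - cexp (-w)‖ ≤ 2 := by
    refine (norm_sub_le _ _).trans ?_
    have : rexp (-w.re) ≤ 1 := Real.exp_le_one_iff.2 (by linarith)
    rw [norm_one, Complex.norm_exp, neg_re]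
    linarith
  refine ⟨h1, ?_⟩
  rcases le_total ‖w‖ 1 with h | h
  · have := Complex.norm_exp_sub_one_le (x := -w) (by rwa [norm_neg])
    rwa [norm_neg, norm_sub_rev] at this
  · linarith

/-- the ramp as a superposition of complex Gaussians -/
theorem mix_ramp {n : ℕ} (hn : 40 ≤ n) (σ : ℝ) {τ : ℝ} (h₁ : 1 / 20 ≤ τ) (h₂ : τ ≤ 4) :
    ∃ g : ℝ → ℂ, Continuous g ∧ Integrable g ∧ ∫ y, ‖g y‖ ≤ 3 * n * rexp (π * τ * σ) ∧
      ∀ ρ : ℝ, (ramp n (σ - ρ) : ℂ) = ∫ y, g y * cexp (-(π : ℂ) * (τ + y * I) * ρ) := by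
  have _ := h₂
  have hτ : 0 < τ := by linarith
  have hn' : (40 : ℝ) ≤ n := by exact_mod_cast hn
  have hc := Real.exp_pos (n : ℝ)
  obtain ⟨c, hcc⟩ : ∃ c, c = rexp n := ⟨_, rfl⟩
  rw [← hcc] at hc
  let A : ℝ → ℝ → ℂ := fun u y =>
    (((π : ℂ) * (τ + y * I)) ^ 2)⁻¹ * cexp ((π : ℂ) * (τ + y * I) * u)
  have hA : ∀ u, Continuous (A u) := fun u => (mx_cont hτ).mul (by fun_prop)
  refine ⟨fun y => (c / 2 : ℂ) * (A σ y - A (σ - c⁻¹) y), by fun_prop,
    ((mx_int' hτ _).sub (mx_int' hτ _)).const_mul _, ?_, fun ρ => ?_⟩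
  · have hθ : (0 : ℝ) < (n : ℝ)⁻¹ := by positivity
    have ht := mx_tail (a := 1 / 20) (by norm_num) hθ
    have hI : Integrable fun y : ℝ => (|y| + 1 / 20) ^ (-(n : ℝ)⁻¹ - 1) :=
      .of_integral_ne_zero (by rw [ht]; positivity)
    have hb : ∀ y : ℝ, ‖(c / 2 : ℂ) * (A σ y - A (σ - c⁻¹) y)‖ ≤
        5 / 11 * rexp 1 * rexp (π * τ * σ) * (|y| + 1 / 20) ^ (-(n : ℝ)⁻¹ - 1) := by
      intro y
      obtain ⟨z, hz⟩ : ∃ z : ℂ, z = (π : ℂ) * (τ + y * I) := ⟨_, rfl⟩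
      obtain ⟨b, hb⟩ : ∃ b, b = |y| + 1 / 20 := ⟨_, rfl⟩
      have hb0 : 0 < b := by rw [hb]; positivity
      have hR : 11 / 5 * b ≤ ‖z‖ := by
        refine (pow_le_pow_iff_left₀ (by positivity) (norm_nonneg _) two_ne_zero).1 ?_
        rw [hz, mx_norm_sq, ← sq_abs y]
        have p1 : b ≤ |y| + τ := by linarith
        have p2 : b ^ 2 ≤ 2 * (τ ^ 2 + |y| ^ 2) := by
          nlinarith [sq_nonneg (τ - |y|), pow_le_pow_left₀ hb0.le p1 2]
        have p3 : 9.68 ≤ π ^ 2 := by nlinarith [Real.pi_gt_d2]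
        have p4 := mul_le_mul_of_nonneg_right p3 (show 0 ≤ τ ^ 2 + |y| ^ 2 by positivity)
        linarith
      have hR0 : 0 < ‖z‖ := by linarith
      have e1 : A σ y - A (σ - c⁻¹) y =
          (z ^ 2)⁻¹ * cexp (z * σ) * (1 - cexp (-(z * (c⁻¹ : ℝ)))) := by
        simp only [A, ← hz]
        rw [mul_sub, mul_one, mul_assoc _ _ (cexp _), ← Complex.exp_add]
        congr 3
        push_cast
        ring
      obtain ⟨q1, q2⟩ := mx_one_sub (w := z * (c⁻¹ : ℝ)) (by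
        rw [hz]
        simp only [mul_re, ofReal_re, ofReal_im, add_re, add_im, mul_im, I_re, I_im]
        have := Real.pi_pos
        simp only [mul_zero, zero_mul, sub_zero, add_zero, mul_one]
        positivity)
      rw [norm_mul, Complex.norm_real, Real.norm_of_nonneg (by positivity)] at q2
      have e2 : ‖cexp (z * σ)‖ = rexp (π * τ * σ) := by rw [hz, mx_norm_exp]
      rw [e1, norm_mul, norm_mul, norm_mul, e2, norm_inv, norm_pow, ← hb, norm_div,
        Complex.norm_real, Real.norm_of_nonneg hc.le, Complex.norm_two]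
      generalize ‖1 - cexp (-(z * (c⁻¹ : ℝ)))‖ = w at q1 q2
      generalize ‖z‖ = R at *
      have k1 : c * w / (2 * R) ≤ (c / b) ^ (n : ℝ)⁻¹ := by
        rcases le_total 1 (c / b) with h | h
        · refine le_trans ?_ (Real.one_le_rpow h hθ.le)
          rw [div_le_one (by positivity)]
          have := mul_le_mul_of_nonneg_left q2 hc.le
          rwa [show c * (2 * (R * c⁻¹)) = 2 * R by field_simp] at this
        · refine le_trans ?_ (Real.self_le_rpow_of_le_one (by positivity) h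
            (inv_le_one_of_one_le₀ (by linarith)))
          rw [div_le_div_iff₀ (by positivity) hb0]
          have := mul_le_mul q1 (show b ≤ R by linarith) hb0.le zero_le_two
          nlinarith
      rw [Real.div_rpow hc.le hb0.le, hcc, ← Real.exp_mul, mul_inv_cancel₀ (by positivity),
        ← hcc] at k1
      have k2 : R⁻¹ ≤ 5 / 11 * b⁻¹ := by
        rw [show 5 / 11 * b⁻¹ = (11 / 5 * b)⁻¹ by field_simp]
        exact inv_anti₀ (by positivity) hR
      have k3 := mul_le_mul k1 k2 (by positivity) (by positivity)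
      have k4 := mul_le_mul_of_nonneg_left k3 (Real.exp_pos (π * τ * σ)).le
      rw [Real.rpow_sub hb0, Real.rpow_one, Real.rpow_neg hb0.le]
      refine le_of_eq_of_le ?_ (k4.trans_eq ?_)
      · field_simp
      · field_simp
    refine (integral_mono_of_nonneg (Eventually.of_forall fun y => norm_nonneg _)
      (hI.const_mul _) (Eventually.of_forall hb)).trans ?_
    rw [integral_const_mul, ht]
    have k5 : (1 / 20 : ℝ) ^ (-(n : ℝ)⁻¹) ≤ 6 / 5 := by
      rw [Real.rpow_neg (by norm_num), ← Real.inv_rpow (by norm_num)]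
      refine (Real.rpow_le_rpow (by norm_num) (show _ ≤ (6 / 5 : ℝ) ^ n from ?_) hθ.le).trans
        (Real.pow_rpow_inv_natCast (by norm_num) (by omega)).le
      exact le_trans (by norm_num) (pow_le_pow_right₀ (by norm_num) hn)
    have k6 := mul_le_mul Real.exp_one_lt_d9.le k5 (by positivity) (by norm_num)
    have k7 := mul_le_mul_of_nonneg_right k6
      (show 0 ≤ n * rexp (π * τ * σ) by positivity)
    have k8 : 0 ≤ n * rexp (π * τ * σ) := by positivity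
    rw [div_inv_eq_mul]
    nlinarith
  · have e1 : ∀ u y : ℝ, A u y * cexp (-(π : ℂ) * (τ + y * I) * ρ) = A (u - ρ) y := by
      intro u y
      simp only [A]
      rw [mul_assoc, ← Complex.exp_add]
      congr 2
      push_cast
      ring
    simp only [mul_assoc (c / 2 : ℂ), sub_mul, e1]
    rw [integral_const_mul, integral_sub (mx_int' hτ _) (mx_int' hτ _), ← mx_pos hτ, ← mx_pos hτ,
      mx_ramp_eq, ← hcc, sub_right_comm]
    push_cast
    ring

theorem mx_log_le {u : ℝ} (hu : 0 < u) : Real.log u ≤ u / rexp 1 := by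
  have := Real.log_le_sub_one_of_pos (div_pos hu (Real.exp_pos 1))
  rw [Real.log_div hu.ne' (Real.exp_pos 1).ne', Real.log_exp] at this
  linarith

theorem mx_L {τ : ℝ} (h₁ : 1.38 < τ) (h₂ : τ ≤ 1.55) :
    2 * τ / rexp 1 ≤ Real.log (2 * τ * 1.0095) := by
  have he := Real.exp_one_gt_d9
  have he' := Real.exp_one_lt_d9
  rw [Real.le_log_iff_exp_le (by linarith)]
  obtain ⟨x, hx⟩ : ∃ x, x = 2 * τ / rexp 1 - 1 := ⟨_, rfl⟩
  have h0 : 0 ≤ x := by
    rw [hx, sub_nonneg, le_div_iff₀ (by positivity)]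
    linarith
  have h1 : x ≤ 0.1405 := by
    rw [hx, sub_le_iff_le_add, div_le_iff₀ (by positivity)]
    linarith
  have h2 : 2 * τ = rexp 1 * (1 + x) := by rw [hx]; field_simp; ring
  have h3 := (abs_le.1 (Real.exp_bound (x := x) (by rw [abs_of_nonneg h0]; linarith)
    (n := 3) (by norm_num))).2
  rw [abs_of_nonneg h0] at h3
  simp only [Finset.sum_range_succ, Finset.sum_range_zero, Nat.factorial] at h3
  norm_num at h3
  have h4 : x ^ 2 ≤ 0.1405 * x := by nlinarith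
  have h5 : x ^ 3 ≤ 0.1405 * x ^ 2 := by nlinarith
  have h6 : rexp x ≤ (1 + x) * 1.0095 := by linarith
  rw [show 2 * τ / rexp 1 = 1 + x by rw [hx]; ring, Real.exp_add, h2, mul_assoc]
  exact mul_le_mul_of_nonneg_left h6 (by positivity)

theorem mx_Nz_le (n : ℕ) {τ : ℝ} (h₁ : 1.38 < τ) (h₂ : τ ≤ 1.55) :
    Nz n τ ≤ 2 * rexp (-(τ * n / (2 * rexp 1))) := by
  have he := Real.exp_one_gt_d9
  rw [Nz, Lz, if_neg (not_le.2 h₁), Real.rpow_def_of_pos (by linarith)]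
  have h1 := mul_le_mul_of_nonneg_right (mx_L h₁ h₂) (gr_mh_nonneg n)
  have h2 := mul_le_mul_of_nonneg_left (mh_le n).1 (show 0 ≤ 2 * τ / rexp 1 by positivity)
  have h3 : 2 * τ / rexp 1 * ((n : ℝ) / 4 - 1 / 4) = τ * n / (2 * rexp 1) - τ / (2 * rexp 1) := by
    field_simp; ring
  have h4 : τ / (2 * rexp 1) ≤ Real.log 2 := by
    rw [div_le_iff₀ (by positivity)]
    nlinarith [Real.log_two_gt_d9]
  rw [← Real.exp_log two_pos, ← Real.exp_add, Real.exp_le_exp, Real.exp_log two_pos]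
  linarith

theorem mx_Nz_pos (n : ℕ) {τ : ℝ} (h : 0 < τ) : 0 < Nz n τ := by
  unfold Nz Lz
  split_ifs <;> positivity

theorem mx_key : ∀ᶠ n : ℕ in atTop, ∀ τ : ℝ, 1.38 < τ → τ ≤ 1.55 →
    rexp (π * τ * (rho1 n + 1)) * Nz n τ ≤ 2 * (n : ℝ) ^ 2 := by
  filter_upwards [gr_rho1_exp 2] with n h τ h₁ h₂
  have := mul_le_mul (h τ ⟨by linarith, by push_cast; linarith⟩) (mx_Nz_le n h₁ h₂)
    (mx_Nz_pos n (by linarith)).le (by positivity)
  rwa [mul_mul_mul_comm, ← Real.exp_add, add_neg_cancel, Real.exp_zero, mul_one,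
    mul_comm _ (2 : ℝ)] at this

theorem mx_Nt_pos (n : ℕ) {t : ℝ} (h : 0 < t) : 0 < Nt n t := by
  unfold Nt
  split_ifs <;> positivity

theorem mx_ft : ∀ᶠ n : ℕ in atTop, ∀ t : ℝ, 1 ≤ t → ft t (rho1 n) ≤ Nt n t := by
  filter_upwards [rho1_lb] with n h t ht
  unfold Nt ft
  split_ifs with h1
  · rw [Real.rpow_def_of_pos (by linarith), Real.exp_le_exp]
    have h2 := mul_le_mul_of_nonneg_right (mx_log_le (u := 2 * t) (by linarith))
      (show 0 ≤ (n : ℝ) / 4 by positivity)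
    have h3 := mul_le_mul_of_nonneg_left h (show 0 ≤ t by linarith)
    have h4 : 2 * t / rexp 1 * ((n : ℝ) / 4) = t * (n / (2 * rexp 1)) := by field_simp; ring
    linarith
  · exact le_rfl

theorem mx_mir : ∀ᶠ n : ℕ in atTop, ∀ t : ℝ, 1 ≤ t → t ≤ 3 / 2 →
    t ^ (-(n : ℝ) / 2) * ft t⁻¹ (rho1 n) ≤ (n : ℝ) ^ 2 * Nt n t := by
  filter_upwards [rho1_lb, gr_rho1_exp 2, gr_ev_ge 1] with n h h' hn t ht ht'
  have ht0 : 0 < t := by linarith
  have he := Real.exp_one_gt_d9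
  have h3 := mul_le_mul_of_nonneg_left h (inv_pos.2 ht0).le
  rw [ft, Real.rpow_def_of_pos ht0, ← Real.exp_add]
  unfold Nt
  split_ifs with h1
  · refine le_trans ?_ (le_mul_of_one_le_left (by positivity) (one_le_pow₀ hn))
    rw [Real.rpow_def_of_pos (by linarith), Real.exp_le_exp, Real.log_mul two_ne_zero ht0.ne']
    have h2 := mul_le_mul_of_nonneg_right (mx_log_le (u := 2 / t) (by positivity))
      (show 0 ≤ (n : ℝ) / 4 by positivity)
    rw [Real.log_div two_ne_zero ht0.ne'] at h2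
    have h4 : 2 / t / rexp 1 * ((n : ℝ) / 4) = t⁻¹ * (n / (2 * rexp 1)) := by field_simp; ring
    linarith
  · have a1 := mul_le_mul_of_nonneg_right (h' t ⟨ht0.le, by push_cast; linarith⟩)
      (Real.exp_pos (-π * t * rho1 n + -(t * n / (2 * rexp 1)))).le
    rw [← Real.exp_add, mul_assoc _ (rexp _), ← Real.exp_add] at a1
    rw [show t * n / (2 * rexp 1) + (-π * t * rho1 n + -(t * n / (2 * rexp 1))) =
      -π * t * rho1 n by ring] at a1
    refine le_trans ?_ a1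
    rw [Real.exp_le_exp]
    have a2 : (t - t⁻¹) / rexp 1 ≤ Real.log t := by
      refine le_trans ?_ (Real.one_sub_inv_le_log_of_pos ht0)
      rw [div_le_iff₀ (by positivity)]
      have b1 : t - t⁻¹ = (1 - t⁻¹) * (t + 1) := by field_simp; ring
      rw [b1]
      exact mul_le_mul_of_nonneg_left (by linarith) (sub_nonneg.2 (inv_le_one_of_one_le₀ ht))
    have a3 := mul_le_mul_of_nonneg_right a2 (show 0 ≤ (n : ℝ) / 2 by positivity)
    have a4 : (t - t⁻¹) / rexp 1 * ((n : ℝ) / 2) =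
        t * n / (2 * rexp 1) - t⁻¹ * (n / (2 * rexp 1)) := by field_simp
    have a5 : 0 ≤ π * t := by positivity
    linarith

theorem mx_cexp (a b c ρ : ℝ) (y : ℝ) (h : c = a + b) :
    cexp (-(π : ℂ) * (a + y * I) * ρ) * (ft b ρ : ℝ) = cexp (-(π : ℂ) * (c + y * I) * ρ) := by
  rw [ft, Complex.ofReal_exp, ← Complex.exp_add, h]
  congr 1
  push_cast
  ring

theorem mx_int_cexp {g : ℝ → ℂ} (hg : Integrable g) (τ ρ : ℝ) :
    Integrable fun y : ℝ => g y * cexp (-(π : ℂ) * (τ + y * I) * ρ) :=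
  hg.mul_bdd (c := rexp (-π * τ * ρ)) (Continuous.aestronglyMeasurable (by fun_prop))
    (Eventually.of_forall fun y => by simp [Complex.norm_exp])

theorem mix_hh : ∀ᶠ n : ℕ in atTop, ∀ t ∈ Set.Icc (1 : ℝ) 3, ∃ (τ : ℝ) (g : ℝ → ℂ),
    (τ = 1.45 ∨ τ = 1.55) ∧ Continuous g ∧ Integrable g ∧
      (∫ y, ‖g y‖) * Nz n τ ≤ (n : ℝ) ^ 7 * Nt n t ∧
      ∀ ρ : ℝ, (hh n t ρ : ℂ) = (if t ≤ 3 / 2 then cexp (-(π : ℂ) * t * ρ) else 0) +
        ∫ y, g y * cexp (-(π : ℂ) * (τ + y * I) * ρ) := by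
  filter_upwards [mx_key, mx_ft, mx_mir, eventually_ge_atTop 40] with n hk hf hm hn t ht
  have hn' : (40 : ℝ) ≤ n := by exact_mod_cast hn
  have ht0 : 0 < t := by linarith [ht.1]
  have hN := mx_Nt_pos n ht0
  have hp := Real.pi_pos
  have he := Real.exp_pos (-(n : ℝ))
  have he1 : rexp (-(n : ℝ)) ≤ 1 := Real.exp_le_one_iff.2 (by linarith)
  have h12 : 12 * (n : ℝ) ^ 5 ≤ (n : ℝ) ^ 7 := by
    rw [show (n : ℝ) ^ 7 = n ^ 2 * n ^ 5 by ring]
    exact mul_le_mul_of_nonneg_right (by nlinarith) (by positivity)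
  have h35 : (n : ℝ) ^ 3 ≤ (n : ℝ) ^ 5 := pow_le_pow_right₀ (by linarith) (by norm_num)
  by_cases h : t ≤ 3 / 2
  · have hi1 : t⁻¹ ≤ 1 := inv_le_one_of_one_le₀ ht.1
    have hi0 : 0 < t⁻¹ := inv_pos.2 ht0
    obtain ⟨g₁, c₁, i₁, b₁, r₁⟩ := mix_ramp hn (rho1 n + rexp (-n)) (τ := 1.55 - t)
      (by linarith) (by linarith)
    obtain ⟨g₂, c₂, i₂, b₂, r₂⟩ := mix_ramp hn (rho1 n + rexp (-n)) (τ := 1.55 - t⁻¹)
      (by linarith) (by linarith)
    obtain ⟨M, hM⟩ : ∃ M, M = t ^ (-(n : ℝ) / 2) := ⟨_, rfl⟩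
    have hM0 : 0 ≤ M := by rw [hM]; positivity
    have hZ := (mx_Nz_pos n (τ := 1.55) (by norm_num)).le
    have key : ∀ β : ℝ, 0 ≤ β → β ≤ 1.55 → rexp (π * (1.55 - β) * (rho1 n + rexp (-n))) * Nz n 1.55 ≤
        2 * (n : ℝ) ^ 2 * ft β (rho1 n) := by
      intro β h0 h1
      refine le_trans ?_ (mul_le_mul_of_nonneg_right (hk 1.55 (by norm_num) le_rfl)
        (Real.exp_pos _).le)
      rw [ft, mul_right_comm _ (Nz n _), ← Real.exp_add]
      refine mul_le_mul_of_nonneg_right (Real.exp_le_exp.2 ?_) hZ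
      have := mul_le_mul (show 1.55 - β ≤ 1.55 by linarith) he1 he.le (by norm_num)
      nlinarith
    refine ⟨1.55, fun y => -g₁ y - M * g₂ y, Or.inr rfl, by fun_prop,
      i₁.neg.sub (i₂.const_mul _), ?_, fun ρ => ?_⟩
    · have a1 : ∫ y, ‖-g₁ y - M * g₂ y‖ ≤ (∫ y, ‖g₁ y‖) + M * ∫ y, ‖g₂ y‖ := by
        rw [← integral_const_mul, ← integral_add i₁.norm (i₂.norm.const_mul _)]
        refine integral_mono (i₁.neg.sub (i₂.const_mul _)).norm
          (i₁.norm.add (i₂.norm.const_mul _)) fun y => (norm_sub_le _ _).trans ?_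
        simp [abs_of_nonneg hM0]
      have a2 := mul_le_mul_of_nonneg_right
        (a1.trans (add_le_add b₁ (mul_le_mul_of_nonneg_left b₂ hM0))) hZ
      have a3 := mul_le_mul_of_nonneg_left (key t ht0.le (by linarith))
        (show 0 ≤ 3 * (n : ℝ) by positivity)
      have a4 := mul_le_mul_of_nonneg_left (key t⁻¹ hi0.le (by linarith))
        (show 0 ≤ M * (3 * (n : ℝ)) by positivity)
      have a5 := mul_le_mul_of_nonneg_left (hf t ht.1) (show 0 ≤ 6 * (n : ℝ) ^ 3 by positivity)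
      have a6 := mul_le_mul_of_nonneg_left (hm t ht.1 h) (show 0 ≤ 6 * (n : ℝ) ^ 3 by positivity)
      rw [← hM] at a6
      have a7 := mul_le_mul_of_nonneg_right h12 hN.le
      have a8 := mul_le_mul_of_nonneg_right h35 hN.le
      linarith
    · have a1 : ((ft t ρ * a2 n ρ : ℝ) : ℂ) =
          ∫ y, g₁ y * cexp (-(π : ℂ) * ((1.55 : ℝ) + y * I) * ρ) := by
        rw [mul_comm, Complex.ofReal_mul, a2, r₁, ← integral_mul_const]
        simp only [mul_assoc (g₁ _), mx_cexp (1.55 - t) t 1.55 ρ _ (by ring)]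
      have a2' : ((ft t⁻¹ ρ * a2 n ρ : ℝ) : ℂ) =
          ∫ y, g₂ y * cexp (-(π : ℂ) * ((1.55 : ℝ) + y * I) * ρ) := by
        rw [mul_comm, Complex.ofReal_mul, a2, r₂, ← integral_mul_const]
        simp only [mul_assoc (g₂ _), mx_cexp (1.55 - t⁻¹) t⁻¹ 1.55 ρ _ (by ring)]
      simp only [sub_mul, neg_mul (g₁ _), mul_assoc (M : ℂ)]
      rw [integral_sub (mx_int_cexp i₁ _ _).fun_neg ((mx_int_cexp i₂ _ _).const_mul _), integral_neg,
        integral_const_mul, ← a1, ← a2', hh, if_pos h, if_pos h, ← hM]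
      simp only [ft]
      push_cast
      ring
  · rw [not_le] at h
    obtain ⟨g, c₁, i₁, b₁, r₁⟩ := mix_ramp hn (-rho1 n) (τ := t - 1.45)
      (by linarith) (by linarith [ht.2])
    have hZ := (mx_Nz_pos n (τ := 1.45) (by norm_num)).le
    refine ⟨1.45, fun y => g (-y), Or.inl rfl, by fun_prop, i₁.comp_neg, ?_, fun ρ => ?_⟩
    · rw [integral_neg_eq_self (fun y => ‖g y‖)]
      have key : rexp (π * (t - 1.45) * -rho1 n) * Nz n 1.45 ≤
          2 * (n : ℝ) ^ 2 * ft t (rho1 n) := by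
        refine le_trans ?_ (mul_le_mul_of_nonneg_right (hk 1.45 (by norm_num) (by norm_num))
          (Real.exp_pos _).le)
        rw [ft, mul_right_comm _ (Nz n _), ← Real.exp_add]
        refine mul_le_mul_of_nonneg_right (Real.exp_le_exp.2 ?_) hZ
        linarith
      have a2 := mul_le_mul_of_nonneg_right b₁ hZ
      have a3 := mul_le_mul_of_nonneg_left key (show 0 ≤ 3 * (n : ℝ) by positivity)
      have a5 := mul_le_mul_of_nonneg_left (hf t ht.1) (show 0 ≤ 6 * (n : ℝ) ^ 3 by positivity)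
      have a7 := mul_le_mul_of_nonneg_right h12 hN.le
      have a8 := mul_le_mul_of_nonneg_right h35 hN.le
      have a9 : 0 ≤ (n : ℝ) ^ 5 * Nt n t := by positivity
      linarith
    · have a1 : 1 - a2 n ρ = ramp n (-rho1 n - -ρ) := by
        have b1 : rexp n * rexp (-n) = 1 := by rw [← Real.exp_add]; simp
        have b2 : rexp n * (rho1 n + rexp (-n) - ρ) = 1 - rexp n * (-rho1 n - -ρ) := by
          linarith
        rw [a2, ramp, ramp, b2]
        generalize rexp n * (-rho1 n - -ρ) = v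
        simp only [max_def, min_def]
        split_ifs <;> linarith
      rw [hh, if_neg (not_le.2 h), if_neg (not_le.2 h), sub_zero, zero_add, a1, mul_comm,
        Complex.ofReal_mul, r₁, ← integral_mul_const, ← integral_neg_eq_self]
      congr 1
      funext y
      rw [mul_assoc, ft, Complex.ofReal_exp, ← Complex.exp_add]
      congr 2
      push_cast
      ring

theorem Nz_le_Nt : ∀ᶠ n : ℕ in atTop, ∀ t ∈ Set.Icc (1 : ℝ) (3 / 2),
    Nz n t ≤ (n : ℝ) ^ 7 * Nt n t := by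
  filter_upwards [mx_key, gr_ev_ge 3] with n hk hn t ht
  have ht0 : 0 < t := by linarith [ht.1]
  have hN := mx_Nt_pos n ht0
  have h1 : 3 * (n : ℝ) ^ 2 ≤ (n : ℝ) ^ 7 := by
    rw [show (n : ℝ) ^ 7 = n ^ 5 * n ^ 2 by ring]
    exact mul_le_mul_of_nonneg_right (hn.trans (le_self_pow₀ (by linarith) (by norm_num)))
      (by positivity)
  refine le_trans ?_ (mul_le_mul_of_nonneg_right h1 hN.le)
  by_cases h : t ≤ 1.38
  · rw [Nz, Nt, Lz, if_pos h, if_pos h, mul_one]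
    have a1 : (2 * t) ^ (-mh n) ≤ (2 * t) ^ (1 + -(n : ℝ) / 4) :=
      Real.rpow_le_rpow_of_exponent_le (by linarith [ht.1]) (by linarith [(mh_le n).1])
    rw [Real.rpow_add (by linarith), Real.rpow_one] at a1
    exact a1.trans (mul_le_mul_of_nonneg_right (by nlinarith) (by positivity))
  · have a1 := mul_le_mul_of_nonneg_right (hk t (not_le.1 h) (by linarith [ht.2])) hN.le
    rw [Nt, if_neg h] at a1 ⊢
    rw [mul_right_comm, ← Real.exp_add] at a1
    have a2 : 1 ≤ rexp (π * t * (rho1 n + 1) + -π * t * rho1 n) :=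
      Real.one_le_exp (by nlinarith [mul_pos Real.pi_pos ht0])
    have a3 := mul_le_mul_of_nonneg_right a2 (mx_Nz_pos n ht0).le
    have a4 : 0 ≤ (n : ℝ) ^ 2 * rexp (-π * t * rho1 n) := by positivity
    linarith

theorem ft_le_Nt : ∀ᶠ n : ℕ in atTop, ∀ t ∈ Set.Icc (1 : ℝ) 3, ft t (rho1 n) ≤ Nt n t ∧
    (t ≤ 3 / 2 → t ^ (-(n : ℝ) / 2) * ft t⁻¹ (rho1 n) ≤ (n : ℝ) ^ 4 * Nt n t) ∧
    rexp (-n) ≤ Nt n t := by
  filter_upwards [mx_ft, mx_mir, rho1_le, gr_ev_ge 1] with n hf hm hr hn t ht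
  have ht0 : 0 < t := by linarith [ht.1]
  refine ⟨hf t ht.1, fun h => (hm t ht.1 h).trans (mul_le_mul_of_nonneg_right
    (pow_le_pow_right₀ hn (by norm_num)) (mx_Nt_pos n ht0).le), le_trans ?_ (hf t ht.1)⟩
  rw [ft, Real.exp_le_exp]
  have h1 : π * t ≤ 10 := by nlinarith [Real.pi_lt_d2, Real.pi_pos, ht.2]
  have h2 := mul_le_mul_of_nonneg_right h1 (show 0 ≤ rho1 n by linarith)
  linarith

theorem le_Nz : ∀ n : ℕ, ∀ τ ∈ Set.Icc (1 : ℝ) 4, rexp (-n) ≤ Nz n τ := by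
  intro n τ hτ
  have h1 : 1 ≤ Lz τ ∧ Lz τ ≤ 1.0095 := by unfold Lz; split_ifs <;> norm_num
  have h2 : 0 < 2 * τ * Lz τ := by nlinarith [hτ.1]
  have h3 : Real.log (2 * τ * Lz τ) ≤ 4 := by
    refine (mx_log_le h2).trans ?_
    rw [div_le_iff₀ (by positivity)]
    nlinarith [hτ.1, hτ.2, Real.exp_one_gt_d9]
  rw [Nz, Real.rpow_def_of_pos h2, Real.exp_le_exp]
  have h4 := mul_le_mul_of_nonneg_right h3 (gr_mh_nonneg n)
  linarith [(mh_le n).2]

theorem mx_norm_le {z : ℂ} {τ ρ : ℝ} (h : τ ≤ z.re) (hρ : 0 ≤ ρ) :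
    ‖cexp (-(π : ℂ) * z * ρ)‖ ≤ ft τ ρ := by
  rw [Complex.norm_exp, ft, Real.exp_le_exp]
  have := mul_le_mul_of_nonneg_right (mul_le_mul_of_nonneg_left h Real.pi_pos.le) hρ
  simpa using this

/-- superpositions pass to fibre sums -/
theorem FS_mix {m r : ℕ} {ω τ : ℝ} (hω : 0 < ω) (hτ : 0 < τ) {ν : Measure ℝ} [SFinite ν]
    {φ : ℝ → ℝ} {ζ g : ℝ → ℂ} (hζ : Measurable ζ) (hre : ∀ y, τ ≤ (ζ y).re) (hg : Integrable g ν)
    (hφ : ∀ ρ : ℝ, 0 ≤ ρ → (φ ρ : ℂ) = ∫ y, g y * cexp (-(π : ℂ) * ζ y * ρ) ∂ν)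
    (k : Zv m) (x : Xs m) :
    Integrable (fun y : ℝ => g y * Fz r ω (ζ y) k x) ν ∧
      (FS r ω φ k x : ℂ) = ∫ y, g y * Fz r ω (ζ y) k x ∂ν := by
  have hs := summable_ft (r := r) hω hτ x k
  have hb : ∀ (y : ℝ) (jl : Zv r × Zv m), ‖cexp (-(π : ℂ) * ζ y * (rho ω x k jl : ℝ))‖ ≤
      ft τ (rho ω x k jl) := fun y jl => mx_norm_le (hre y) (rho_nonneg ω x k jl)
  constructor
  · refine hg.mul_bdd (c := FS r ω (ft τ) k x)
      ((measurable_Fz₂ ω k).comp (hζ.prodMk measurable_const)).aestronglyMeasurable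
      (Eventually.of_forall fun y => ?_)
    exact tsum_of_norm_bounded hs.hasSum (hb y)
  · have hi : ∀ jl : Zv r × Zv m,
        Integrable (fun y => g y * cexp (-(π : ℂ) * ζ y * (rho ω x k jl : ℝ))) ν := fun jl =>
      hg.mul_bdd (Measurable.aestronglyMeasurable (by fun_prop))
        (Eventually.of_forall fun y => hb y jl)
    simp only [FS, Fz, Complex.ofReal_tsum, hφ _ (rho_nonneg ω x k _), ← tsum_mul_left]
    refine integral_tsum_of_summable_integral_norm hi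
      ((hs.mul_left (∫ y, ‖g y‖ ∂ν)).of_nonneg_of_le
        (fun jl => integral_nonneg fun y => norm_nonneg _) fun jl => ?_)
    rw [← integral_mul_const]
    refine integral_mono (hi jl).norm (hg.norm.mul_const _) fun y => ?_
    simp only [norm_mul]
    exact mul_le_mul_of_nonneg_left (hb y jl) (norm_nonneg _)

theorem mx_In {α : Type} [MeasurableSpace α] (n : ℕ) {τ : ℝ} (hτ : 0 < τ) {ν : Measure α}
    [SFinite ν] {φ : ℝ → ℝ} {ζ g : α → ℂ} (hζ : Measurable ζ) (hre : ∀ y, τ ≤ (ζ y).re)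
    (hg : Integrable g ν)
    (hφ : ∀ ρ : ℝ, 0 ≤ ρ → (φ ρ : ℂ) = ∫ y, g y * cexp (-(π : ℂ) * ζ y * ρ) ∂ν) :
    (Integrable fun y : Ev n => φ (‖y‖ ^ 2)) ∧ Integrable (fun y => g y * isq (ζ y) ^ n) ν ∧
      (In n φ : ℂ) = ∫ y, g y * isq (ζ y) ^ n ∂ν := by
  have hi : Integrable (Function.uncurry fun (y : α) (v : Ev n) =>
      g y * cexp (-(π : ℂ) * ζ y * ((‖v‖ ^ 2 : ℝ) : ℂ))) (ν.prod volume) := by
    refine (hg.norm.mul_prod (integrable_ft n hτ)).mono'
      (hg.aestronglyMeasurable.comp_fst.mul (Measurable.aestronglyMeasurable (by fun_prop)))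
      (Eventually.of_forall fun p => ?_)
    rw [Function.uncurry, norm_mul]
    exact mul_le_mul_of_nonneg_left (mx_norm_le (hre _) (by positivity)) (norm_nonneg _)
  have h1 : ∀ y, ∫ v : Ev n, g y * cexp (-(π : ℂ) * ζ y * ((‖v‖ ^ 2 : ℝ) : ℂ)) =
      g y * isq (ζ y) ^ n := fun y => by
    rw [integral_const_mul, integral_cgauss n (hτ.trans_le (hre y))]
  have h2 : ∀ v : Ev n, ∫ y, g y * cexp (-(π : ℂ) * ζ y * ((‖v‖ ^ 2 : ℝ) : ℂ)) ∂ν =
      (φ (‖v‖ ^ 2) : ℂ) := fun v => (hφ _ (by positivity)).symm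
  have h3 := hi.integral_prod_left
  have h4 := hi.integral_prod_right
  have h5 := integral_integral_swap hi
  simp only [Function.uncurry, h1, h2] at h3 h4 h5
  refine ⟨by simpa using h4.re, h3, ?_⟩
  rw [h5, In, integral_complex_ofReal]

theorem In_mix (n : ℕ) {τ : ℝ} (hτ : 0 < τ) {ν : Measure ℝ} [SFinite ν]
    {φ : ℝ → ℝ} {ζ g : ℝ → ℂ} (hζ : Measurable ζ) (hre : ∀ y, τ ≤ (ζ y).re) (hg : Integrable g ν)
    (hφ : ∀ ρ : ℝ, 0 ≤ ρ → (φ ρ : ℂ) = ∫ y, g y * cexp (-(π : ℂ) * ζ y * ρ) ∂ν) :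
    (Integrable fun y : Ev n => φ (‖y‖ ^ 2)) ∧
      (In n φ : ℂ) = ∫ y : ℝ, g y * isq (ζ y) ^ n ∂ν :=
  ⟨(mx_In n hτ hζ hre hg hφ).1, (mx_In n hτ hζ hre hg hφ).2.2⟩

theorem In_mix_two (n : ℕ) {τ : ℝ} (hτ : 0 < τ) {ν : Measure ℝ} [SFinite ν]
    {φ φ' : ℝ → ℝ} {ζ g ζ' g' : ℝ → ℂ} (hζ : Measurable ζ) (hre : ∀ y, τ ≤ (ζ y).re)
    (hg : Integrable g ν) (hζ' : Measurable ζ') (hre' : ∀ y, τ ≤ (ζ' y).re) (hg' : Integrable g' ν)
    (hφ : ∀ ρ : ℝ, 0 ≤ ρ → (φ ρ : ℂ) = ∫ y, g y * cexp (-(π : ℂ) * ζ y * ρ) ∂ν)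
    (hφ' : ∀ ρ : ℝ, 0 ≤ ρ → (φ' ρ : ℂ) = ∫ y, g' y * cexp (-(π : ℂ) * ζ' y * ρ) ∂ν) :
    (In n (fun ρ => φ ρ * φ' ρ) : ℂ) = ∫ y : ℝ, ∫ y' : ℝ,
      g y * starRingEnd ℂ (g' y') * isq (ζ y + starRingEnd ℂ (ζ' y')) ^ n ∂ν ∂ν := by
  have hc : Measurable (starRingEnd ℂ) := Complex.continuous_conj.measurable
  have hg'' : Integrable (fun y => starRingEnd ℂ (g' y)) ν :=
    (Complex.conjCLE : ℂ →L[ℝ] ℂ).integrable_comp hg'
  obtain ⟨-, h1, h2⟩ := mx_In (α := ℝ × ℝ) n hτ (ν := ν.prod ν) (φ := fun ρ => φ ρ * φ' ρ)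
    (ζ := fun p => ζ p.1 + starRingEnd ℂ (ζ' p.2)) (g := fun p => g p.1 * starRingEnd ℂ (g' p.2))
    ((hζ.comp measurable_fst).add (hc.comp (hζ'.comp measurable_snd)))
    (fun p => by
      have := hre p.1
      have := hre' p.2
      simp only [add_re, conj_re]
      linarith)
    (hg.mul_prod hg'') fun ρ hρ => by
      rw [Complex.ofReal_mul, ← Complex.conj_ofReal (φ' ρ), hφ ρ hρ, hφ' ρ hρ, ← integral_conj,
        ← integral_prod_mul]
      congr 1
      funext p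
      rw [map_mul, ← Complex.exp_conj, mul_mul_mul_comm, ← Complex.exp_add]
      congr 2
      simp only [map_mul, map_neg, Complex.conj_ofReal]
      ring
  rw [h2, integral_prod _ h1]

theorem mx_dirac {E : Type} [NormedAddCommGroup E] [NormedSpace ℝ E] [CompleteSpace E]
    {F F₀ : ℝ → E} (h : ∀ y, y ≠ 0 → F y = F₀ y) (hF : Integrable F₀) :
    Integrable F (Measure.dirac 0 + volume) ∧
      ∫ y, F y ∂(Measure.dirac 0 + volume) = F 0 + ∫ y, F₀ y := by
  have h1 : F₀ =ᵐ[volume] F := by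
    filter_upwards [Measure.ae_ne volume 0] with y hy using (h y hy).symm
  have h2 : Integrable F (Measure.dirac 0) := integrable_dirac enorm_lt_top
  refine ⟨h2.add_measure (hF.congr h1), ?_⟩
  rw [integral_add_measure h2 (hF.congr h1), integral_dirac, integral_congr_ae h1]

/-- The noise as a superposition with respect to one measure: a unit mass at `0` carries the real
Gaussian, Lebesgue measure carries the complex ones. -/
theorem Vt_mix : ∀ᶠ n : ℕ in atTop, ∀ t ∈ Set.Icc (1 : ℝ) 3, ∃ (ζ : ℝ → ℂ) (g : ℝ → ℂ),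
    Measurable ζ ∧ Measurable g ∧ (∀ y, Adz (ζ y)) ∧
    (∀ y, y ≠ 0 → (ζ y).re = 1.45 ∨ (ζ y).re = 1.55) ∧
    (t ≤ 3 / 2 → ζ 0 = t ∧ g 0 = 1) ∧ (3 / 2 < t → g 0 = 0) ∧
    Integrable g (Measure.dirac 0 + volume) ∧
    ∫ y, ‖g y‖ * Nz n (ζ y).re ∂(Measure.dirac 0 + volume) ≤ 2 * (n : ℝ) ^ 7 * Nt n t ∧
    (∀ ρ : ℝ, (hh n t ρ : ℂ) = ∫ y, g y * cexp (-(π : ℂ) * ζ y * ρ) ∂(Measure.dirac 0 + volume)) ∧
    (∀ ω : ℝ, 0 < ω → ∀ (k : Zv (n / 2)) (x : Xs (n / 2)),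
      (FS (n % 2) ω (hh n t) k x : ℂ) =
        ∫ y, g y * Fz (n % 2) ω (ζ y) k x ∂(Measure.dirac 0 + volume)) ∧
    (In n (hh n t) : ℂ) = ∫ y, g y * isq (ζ y) ^ n ∂(Measure.dirac 0 + volume) := by
  filter_upwards [mix_hh, Nz_le_Nt] with n hm hN t ht
  obtain ⟨τ, g₀, hτ, hc, hi, hb, hr⟩ := hm t ht
  obtain ⟨ζ, hζ⟩ : ∃ ζ : ℝ → ℂ, ζ = fun y : ℝ =>
    if y = 0 then (if t ≤ 3 / 2 then (t : ℂ) else τ) else τ + y * I := ⟨_, rfl⟩
  obtain ⟨g, hg⟩ : ∃ g : ℝ → ℂ, g = fun y : ℝ =>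
    if y = 0 then (if t ≤ 3 / 2 then 1 else 0) else g₀ y := ⟨_, rfl⟩
  have z0 : ζ 0 = if t ≤ 3 / 2 then (t : ℂ) else τ := by simp only [hζ, if_true]
  have z1 : ∀ y, y ≠ 0 → ζ y = τ + y * I := fun y hy => by simp only [hζ, if_neg hy]
  have g0 : g 0 = if t ≤ 3 / 2 then 1 else 0 := by simp only [hg, if_true]
  have g1 : ∀ y, y ≠ 0 → g y = g₀ y := fun y hy => by simp only [hg, if_neg hy]
  have z2 : ∀ y, y ≠ 0 → (ζ y).re = τ := fun y hy => by simp [z1 y hy]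
  have mζ : Measurable ζ := by
    rw [hζ]
    exact Measurable.ite (measurableSet_singleton 0) measurable_const (by fun_prop)
  have mg : Measurable g := by
    rw [hg]
    exact Measurable.ite (measurableSet_singleton 0) measurable_const hc.measurable
  have hA : ∀ y, Adz (ζ y) := by
    intro y
    by_cases hy : y = 0
    · rw [hy, z0]
      split_ifs with h
      · exact Or.inl ⟨by simp, by simpa using ht.1, by simpa using h⟩
      · exact Or.inr (by simpa using hτ)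
    · exact Or.inr (by rw [z2 y hy]; exact hτ)
  have hre : ∀ y, 1 ≤ (ζ y).re := fun y => by
    rcases hA y with h | h | h
    · exact h.2.1
    · rw [h]; norm_num
    · rw [h]; norm_num
  have ig := (mx_dirac g1 hi).1
  have hrep : ∀ ρ : ℝ, (hh n t ρ : ℂ) =
      ∫ y, g y * cexp (-(π : ℂ) * ζ y * ρ) ∂(Measure.dirac 0 + volume) := by
    intro ρ
    rw [(mx_dirac (F := fun y => g y * cexp (-(π : ℂ) * ζ y * ρ))
      (fun y hy => by rw [g1 y hy, z1 y hy]) (mx_int_cexp hi τ ρ)).2, hr, g0, z0]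
    split_ifs <;> simp
  refine ⟨ζ, g, mζ, mg, hA, fun y hy => by rw [z2 y hy]; exact hτ,
    fun h => by rw [z0, g0, if_pos h, if_pos h]; exact ⟨rfl, rfl⟩,
    fun h => by rw [g0, if_neg (not_le.2 h)], ig, ?_, hrep,
    fun ω hω k x => (FS_mix hω one_pos mζ hre ig (fun ρ _ => hrep ρ) k x).2,
    (In_mix n one_pos mζ hre ig fun ρ _ => hrep ρ).2⟩
  rw [(mx_dirac (F := fun y => ‖g y‖ * Nz n (ζ y).re)
    (fun y hy => by rw [g1 y hy, z2 y hy]) (hi.norm.mul_const (Nz n τ))).2, integral_mul_const,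
    g0, z0]
  have hp : 0 ≤ (n : ℝ) ^ 7 * Nt n t := (mul_nonneg (by positivity)
    (mx_Nt_pos n (by linarith [ht.1])).le)
  split_ifs with h
  · have := hN t ⟨ht.1, h⟩
    simp only [norm_one, one_mul, ofReal_re]
    linarith
  · simp only [norm_zero, zero_mul]
    linarith

theorem measurable_hh (n : ℕ) : Measurable (Function.uncurry (hh n)) := by
  have h1 : Measurable (a2 n) := ((continuous_ramp n).comp (by fun_prop)).measurable
  unfold Function.uncurry hh ft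
  refine Measurable.sub (by fun_prop)
    (Measurable.ite (measurableSet_le measurable_fst measurable_const) ?_ measurable_const)
  exact ((measurable_fst.pow_const _).mul (by fun_prop)).mul (h1.comp measurable_snd)

theorem abs_hh_le : ∀ᶠ n : ℕ in atTop, ∀ t ∈ Set.Icc (1 : ℝ) 3, ∀ ρ : ℝ, 0 ≤ ρ →
    |hh n t ρ| ≤ 2 * ft (2 / 3) ρ := by
  refine Eventually.of_forall fun n t ht ρ hρ => ?_
  have hm : ∀ β : ℝ, 2 / 3 ≤ β → ft β ρ ≤ ft (2 / 3) ρ := fun β hβ => by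
    rw [ft, ft, Real.exp_le_exp]
    have := mul_le_mul_of_nonneg_right (mul_le_mul_of_nonneg_left hβ Real.pi_pos.le) hρ
    linarith
  have hp : ∀ β, 0 ≤ ft β ρ := fun β => (Real.exp_pos _).le
  obtain ⟨h0, h1⟩ : 0 ≤ a2 n ρ ∧ a2 n ρ ≤ 1 := ramp_mem n _
  have ht0 : 0 < t := by linarith [ht.1]
  have a1 : 0 ≤ ft t ρ * (1 - a2 n ρ) := mul_nonneg (hp t) (by linarith)
  have a2' : ft t ρ * (1 - a2 n ρ) ≤ ft (2 / 3) ρ :=
    (mul_le_of_le_one_right (hp t) (by linarith)).trans (hm t (by linarith [ht.1]))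
  have a3 := hp (2 / 3)
  rw [hh, abs_le]
  split_ifs with h
  · have b1 : t ^ (-(n : ℝ) / 2) ≤ 1 :=
      Real.rpow_le_one_of_one_le_of_nonpos ht.1 (by linarith [Nat.cast_nonneg (α := ℝ) n])
    have b2 : 2 / 3 ≤ t⁻¹ := by
      rw [le_inv_comm₀ (by norm_num) ht0]
      linarith
    have b3 : 0 ≤ t ^ (-(n : ℝ) / 2) * ft t⁻¹ ρ := mul_nonneg (by positivity) (hp _)
    have b4 := mul_nonneg b3 h0
    have b5 := (mul_le_of_le_one_right b3 h1).trans
      ((mul_le_of_le_one_left (hp _) b1).trans (hm _ b2))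
    constructor <;> linarith
  · constructor <;> linarith

end Pool.Agent.Eps
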