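import Mathlib

-- part Pool.Agent.Lib.MP_3bda03_nt.ProbA
section

/-! Abstract Fubini and tilting lemmas. -/

set_option autoImplicit false

noncomputable section

open scoped BigOperators Classical Topology
open MeasureTheory Real Complex Filter

namespace Pool.Agent.Eps

variable {Ω Y ι κ : Type*} [MeasurableSpace Ω] [MeasurableSpace Y]

/-- measurable weights with values in `[0,1]` -/
structure W01 (H : Ω → ℝ) : Prop where
  meas : Measurable H
  nonneg : ∀ x, 0 ≤ H x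
  le_one : ∀ x, H x ≤ 1

/-- bounded measurable functions -/
structure BM (f : Ω → ℂ) : Prop where
  meas : Measurable f
  bdd : ∃ C : ℝ, ∀ x, ‖f x‖ ≤ C

theorem BM.const (c : ℂ) : BM (fun _ : Ω => c) := ⟨measurable_const, ‖c‖, fun _ => le_rfl⟩

theorem BM.add {f g : Ω → ℂ} (hf : BM f) (hg : BM g) : BM (fun x => f x + g x) := by
  obtain ⟨C, hC⟩ := hf.bdd
  obtain ⟨D, hD⟩ := hg.bdd
  exact ⟨hf.meas.add hg.meas, C + D, fun x => (norm_add_le _ _).trans (add_le_add (hC x) (hD x))⟩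

theorem BM.sub {f g : Ω → ℂ} (hf : BM f) (hg : BM g) : BM (fun x => f x - g x) := by
  obtain ⟨C, hC⟩ := hf.bdd
  obtain ⟨D, hD⟩ := hg.bdd
  exact ⟨hf.meas.sub hg.meas, C + D, fun x => (norm_sub_le _ _).trans (add_le_add (hC x) (hD x))⟩

theorem BM.mul {f g : Ω → ℂ} (hf : BM f) (hg : BM g) : BM (fun x => f x * g x) := by
  obtain ⟨C, hC⟩ := hf.bdd
  obtain ⟨D, hD⟩ := hg.bdd
  refine ⟨hf.meas.mul hg.meas, C * D, fun x => ?_⟩
  rw [norm_mul]
  exact mul_le_mul (hC x) (hD x) (norm_nonneg _) ((norm_nonneg _).trans (hC x))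

theorem BM.conj {f : Ω → ℂ} (hf : BM f) : BM (fun x => starRingEnd ℂ (f x)) := by
  obtain ⟨C, hC⟩ := hf.bdd
  exact ⟨Complex.continuous_conj.measurable.comp hf.meas, C, fun x => by simpa using hC x⟩

theorem BM.comp {f : Ω → ℂ} (hf : BM f) {φ : Y → Ω} (hφ : Measurable φ) :
    BM (fun y => f (φ y)) := by
  obtain ⟨C, hC⟩ := hf.bdd
  exact ⟨hf.meas.comp hφ, C, fun x => hC _⟩

theorem BM.sum {s : Finset ι} {f : ι → Ω → ℂ} (hf : ∀ i ∈ s, BM (f i)) :
    BM (fun x => ∑ i ∈ s, f i x) := by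
  induction s using Finset.induction_on with
  | empty => simpa using BM.const (Ω := Ω) 0
  | insert a s ha ih =>
    simp only [Finset.sum_insert ha]
    exact (hf a (Finset.mem_insert_self _ _)).add (ih fun i hi => hf i (Finset.mem_insert_of_mem hi))

theorem W01.bm {H : Ω → ℝ} (h : W01 H) : BM (fun x => (H x : ℂ)) :=
  ⟨Complex.measurable_ofReal.comp h.meas, 1, fun x => by
    rw [Complex.norm_real, Real.norm_of_nonneg (h.nonneg x)]; exact h.le_one x⟩

theorem W01.mul {H H' : Ω → ℝ} (h : W01 H) (h' : W01 H') : W01 (fun x => H x * H' x) :=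
  ⟨h.meas.mul h'.meas, fun x => mul_nonneg (h.nonneg x) (h'.nonneg x),
    fun x => mul_le_one₀ (h.le_one x) (h'.nonneg x) (h'.le_one x)⟩

theorem BM.integrable {f : Ω → ℂ} (hf : BM f) (P : Measure Ω) [IsFiniteMeasure P] :
    Integrable f P := by
  obtain ⟨C, hC⟩ := hf.bdd
  exact Integrable.of_bound hf.meas.aestronglyMeasurable C (Eventually.of_forall hC)

theorem W01.integrable {H : Ω → ℝ} (h : W01 H) (P : Measure Ω) [IsFiniteMeasure P] :
    Integrable H P :=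
  Integrable.of_bound h.meas.aestronglyMeasurable 1 (Eventually.of_forall fun x => by
    rw [Real.norm_of_nonneg (h.nonneg x)]; exact h.le_one x)

theorem W01.int_norm_pow {H : Ω → ℝ} (h : W01 H) {f : Ω → ℂ} (hf : BM f) (j : ℕ) (P : Measure Ω)
    [IsFiniteMeasure P] : Integrable (fun x => H x * ‖f x‖ ^ j) P := by
  obtain ⟨C, hC⟩ := hf.bdd
  refine Integrable.of_bound (h.meas.mul (hf.meas.norm.pow_const j)).aestronglyMeasurable (C ^ j)
    (Eventually.of_forall fun x => ?_)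
  rw [Real.norm_of_nonneg (mul_nonneg (h.nonneg x) (by positivity))]
  calc H x * ‖f x‖ ^ j ≤ 1 * ‖f x‖ ^ j := by gcongr; exact h.le_one x
    _ ≤ C ^ j := by rw [one_mul]; exact pow_le_pow_left₀ (norm_nonneg _) (hC x) j

theorem W01.int_norm {H : Ω → ℝ} (h : W01 H) {f : Ω → ℂ} (hf : BM f) (P : Measure Ω)
    [IsFiniteMeasure P] : Integrable (fun x => H x * ‖f x‖) P := by
  simpa using h.int_norm_pow hf 1 P

theorem BM.int_mul {G : Y → ℂ} {ν : Measure Y} (hG : Integrable G ν) {K : Y → ℂ} (hK : BM K) :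
    Integrable (fun y => G y * K y) ν := by
  obtain ⟨C, hC⟩ := hK.bdd
  exact hG.mul_bdd hK.meas.aestronglyMeasurable (Eventually.of_forall hC)

variable {P : Measure Ω} [IsProbabilityMeasure P] {ν : Measure Y} [SFinite ν]

theorem BM.mix {X : Y × Ω → ℂ} (hX : BM X) {G : Y → ℂ} (hGm : Measurable G)
    (hG : Integrable G ν) : BM (fun x => ∫ y, G y * X (y, x) ∂ν) := by
  obtain ⟨C, hC⟩ := hX.bdd
  refine ⟨?_, (∫ y, ‖G y‖ * C ∂ν), fun x => ?_⟩
  · have h : StronglyMeasurable (fun p : Y × Ω => G p.1 * X p) :=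
      ((hGm.comp measurable_fst).mul hX.meas).stronglyMeasurable
    exact (h.integral_prod_left' (μ := ν)).measurable
  · refine norm_integral_le_of_norm_le (hG.norm.mul_const C) (Eventually.of_forall fun y => ?_)
    rw [norm_mul]
    exact mul_le_mul_of_nonneg_left (hC _) (norm_nonneg _)

theorem integral_mix {X : Y × Ω → ℂ} (hX : BM X) {G : Y → ℂ} (hG : Integrable G ν) :
    Integrable (fun y => G y * ∫ x, X (y, x) ∂P) ν ∧
    ∫ x, ∫ y, G y * X (y, x) ∂ν ∂P = ∫ y, G y * ∫ x, X (y, x) ∂P ∂ν := by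
  have hI : Integrable (fun p : Y × Ω => G p.1 * X p) (ν.prod P) :=
    BM.int_mul (hG.comp_fst P) hX
  have h1 : ∀ y, ∫ x, G y * X (y, x) ∂P = G y * ∫ x, X (y, x) ∂P := fun y => integral_const_mul _ _
  constructor
  · simpa only [h1] using hI.integral_prod_left
  · rw [← integral_integral_swap (f := fun y x => G y * X (y, x)) hI]
    simp only [h1]

theorem mix_lin (s : Finset ι) {X : ι → Y × Ω → ℂ} (hX : ∀ i ∈ s, BM (X i)) {G : Y → ℂ}
    (hG : Integrable G ν) {N : Y → ℝ} (hN : Integrable (fun y => ‖G y‖ * N y) ν)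
    (hB : ∀ y, ∑ i ∈ s, ‖∫ x, X i (y, x) ∂P‖ ≤ N y) :
    ∑ i ∈ s, ‖∫ x, ∫ y, G y * X i (y, x) ∂ν ∂P‖ ≤ ∫ y, ‖G y‖ * N y ∂ν := by
  calc ∑ i ∈ s, ‖∫ x, ∫ y, G y * X i (y, x) ∂ν ∂P‖
      ≤ ∑ i ∈ s, ∫ y, ‖G y * ∫ x, X i (y, x) ∂P‖ ∂ν := by
        refine Finset.sum_le_sum fun i hi => ?_
        rw [(integral_mix (hX i hi) hG).2]
        exact norm_integral_le_integral_norm _
    _ = ∫ y, ∑ i ∈ s, ‖G y * ∫ x, X i (y, x) ∂P‖ ∂ν :=
        (integral_finsetSum s fun i hi => (integral_mix (hX i hi) hG).1.norm).symm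
    _ ≤ ∫ y, ‖G y‖ * N y ∂ν := by
        refine integral_mono (integrable_finsetSum s fun i hi =>
          (integral_mix (hX i hi) hG).1.norm) hN fun y => ?_
        simp only [norm_mul, ← Finset.mul_sum]
        exact mul_le_mul_of_nonneg_left (hB y) (norm_nonneg _)

theorem mix_one (s : Finset ι) {H : ι → Ω → ℝ} (hH : ∀ i ∈ s, W01 (H i))
    {X : ι → Y × Ω → ℂ} (hX : ∀ i ∈ s, BM (X i)) {K : Y → ℂ} (hK : BM K) {G : Y → ℂ}
    (hGm : Measurable G) (hG : Integrable G ν) {N : Y → ℝ}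
    (hN : Integrable (fun y => ‖G y‖ * N y) ν)
    (hB : ∀ y, ∑ i ∈ s, ‖∫ x, (H i x : ℂ) * X i (y, x) ∂P - K y * (∫ x, H i x ∂P : ℝ)‖ ≤ N y) :
    ∑ i ∈ s, ‖∫ x, (H i x : ℂ) * ∫ y, G y * X i (y, x) ∂ν ∂P -
      (∫ y, G y * K y ∂ν) * (∫ x, H i x ∂P : ℝ)‖ ≤ ∫ y, ‖G y‖ * N y ∂ν := by
  have hZ : ∀ i ∈ s, BM (fun p : Y × Ω => (H i p.2 : ℂ) * (X i p - K p.1)) := fun i hi =>
    ((hH i hi).bm.comp measurable_snd).mul ((hX i hi).sub (hK.comp measurable_fst))
  have key : ∀ i ∈ s, ∀ (f : Ω → ℂ) (c : ℂ), BM f →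
      ∫ x, (H i x : ℂ) * (f x - c) ∂P = ∫ x, (H i x : ℂ) * f x ∂P - c * (∫ x, H i x ∂P : ℝ) := by
    intro i hi f c hf
    simp only [mul_sub]
    rw [integral_sub (((hH i hi).bm.mul hf).integrable P)
      (((hH i hi).bm.mul (BM.const c)).integrable P), integral_mul_const, integral_complex_ofReal,
      mul_comm c]
  have h := mix_lin (P := P) s hZ hG hN (fun y => by
    refine le_trans (le_of_eq (Finset.sum_congr rfl fun i hi => ?_)) (hB y)
    rw [← key i hi (fun x => X i (y, x)) (K y) ((hX i hi).comp measurable_prodMk_left)])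
  refine le_trans (le_of_eq (Finset.sum_congr rfl fun i hi => ?_)) h
  rw [← key i hi _ _ ((hX i hi).mix hGm hG)]
  congr 1
  refine integral_congr_ae (Eventually.of_forall fun x => ?_)
  have h1 : Integrable (fun y => G y * X i (y, x)) ν :=
    BM.int_mul hG ((hX i hi).comp measurable_prodMk_right)
  have h2 : Integrable (fun y => G y * K y) ν := BM.int_mul hG hK
  simp only
  rw [← integral_sub h1 h2, ← integral_const_mul]
  refine integral_congr_ae (Eventually.of_forall fun y => ?_)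
  simp only
  ring

theorem mix_mul_conj (g g' : Y → ℂ) (X X' : Y → ℂ) :
    (∫ y, g y * X y ∂ν) * starRingEnd ℂ (∫ y, g' y * X' y ∂ν) =
      ∫ p : Y × Y, (g p.1 * starRingEnd ℂ (g' p.2)) * (X p.1 * starRingEnd ℂ (X' p.2))
        ∂(ν.prod ν) := by
  rw [← integral_conj, ← integral_prod_mul]
  refine integral_congr_ae (Eventually.of_forall fun p => ?_)
  simp only [map_mul]
  ring

theorem int_conj {g : Y → ℂ} (hg : Integrable g ν) :
    Integrable (fun y => starRingEnd ℂ (g y)) ν :=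
  (Complex.conjCLE.toContinuousLinearMap.integrable_comp hg)

theorem mix_two (s : Finset ι) {H : ι → Ω → ℝ} (hH : ∀ i ∈ s, W01 (H i))
    {X X' : ι → Y × Ω → ℂ} (hX : ∀ i ∈ s, BM (X i)) (hX' : ∀ i ∈ s, BM (X' i))
    {K : Y × Y → ℂ} (hK : BM K) {g g' : Y → ℂ} (hgm : Measurable g) (hgm' : Measurable g')
    (hg : Integrable g ν) (hg' : Integrable g' ν) {N N' : Y → ℝ}
    (hN : Integrable (fun y => ‖g y‖ * N y) ν) (hN' : Integrable (fun y => ‖g' y‖ * N' y) ν)
    {B : ℝ} (hB : ∀ y y', ∑ i ∈ s, ‖∫ x, (H i x : ℂ) * (X i (y, x) * starRingEnd ℂ (X' i (y', x))) ∂P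
      - K (y, y') * (∫ x, H i x ∂P : ℝ)‖ ≤ B * (N y * N' y')) :
    ∑ i ∈ s, ‖∫ x, (H i x : ℂ) * ((∫ y, g y * X i (y, x) ∂ν) *
        starRingEnd ℂ (∫ y, g' y * X' i (y, x) ∂ν)) ∂P -
      (∫ p : Y × Y, (g p.1 * starRingEnd ℂ (g' p.2)) * K p ∂(ν.prod ν)) * (∫ x, H i x ∂P : ℝ)‖ ≤
      B * ((∫ y, ‖g y‖ * N y ∂ν) * ∫ y, ‖g' y‖ * N' y ∂ν) := by
  have hG : Integrable (fun p : Y × Y => g p.1 * starRingEnd ℂ (g' p.2)) (ν.prod ν) :=
    hg.mul_prod (int_conj hg')
  have hGm : Measurable (fun p : Y × Y => g p.1 * starRingEnd ℂ (g' p.2)) :=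
    (hgm.comp measurable_fst).mul
      (Complex.continuous_conj.measurable.comp (hgm'.comp measurable_snd))
  have e : ∀ p : Y × Y, ‖g p.1 * starRingEnd ℂ (g' p.2)‖ * (B * (N p.1 * N' p.2)) =
      B * ((‖g p.1‖ * N p.1) * (‖g' p.2‖ * N' p.2)) := fun p => by
    rw [norm_mul, Complex.norm_conj]; ring
  have hZ : ∀ i ∈ s, BM (fun q : (Y × Y) × Ω =>
      X i (q.1.1, q.2) * starRingEnd ℂ (X' i (q.1.2, q.2))) := fun i hi =>
    ((hX i hi).comp (measurable_fst.fst.prodMk measurable_snd)).mul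
      (((hX' i hi).comp (measurable_fst.snd.prodMk measurable_snd)).conj)
  have h := mix_one (P := P) (ν := ν.prod ν) s hH hZ hK hGm hG
    (N := fun p => B * (N p.1 * N' p.2))
    (by simp only [e]; exact (hN.mul_prod hN').const_mul B) (fun p => hB p.1 p.2)
  simp only [e] at h
  rw [integral_const_mul, integral_prod_mul (fun y => ‖g y‖ * N y) (fun y => ‖g' y‖ * N' y)] at h
  simpa only [mix_mul_conj] using h

theorem norm_mul_le_amgm (a b : ℝ) {l : ℝ} (hl : 0 < l) : a * b ≤ (l * a ^ 2 + b ^ 2 / l) / 2 := by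
  have h : 0 ≤ (l * a - b) ^ 2 / l := by positivity
  have e : (l * a - b) ^ 2 / l = l * a ^ 2 + b ^ 2 / l - 2 * (a * b) := by field_simp; ring
  linarith

/-- weighted arithmetic-geometric mean inequality under the integral -/
theorem cross_le_amgm {H : Ω → ℝ} (hH : W01 H) {f f' : Ω → ℂ} (hf : BM f) (hf' : BM f')
    {l : ℝ} (hl : 0 < l) :
    ∫ x, H x * ‖f x * starRingEnd ℂ (f' x)‖ ∂P ≤
      (l * ∫ x, H x * ‖f x‖ ^ 2 ∂P + (∫ x, H x * ‖f' x‖ ^ 2 ∂P) / l) / 2 := by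
  have i1 := hH.int_norm_pow hf 2 P
  have i2 := hH.int_norm_pow hf' 2 P
  rw [← integral_const_mul, ← integral_div, ← integral_add (i1.const_mul l) (i2.div_const l),
    ← integral_div]
  refine integral_mono (hH.int_norm (hf.mul hf'.conj) P)
    (((i1.const_mul l).add (i2.div_const l)).div_const 2) fun x => ?_
  simp only [norm_mul, Complex.norm_conj]
  have := mul_le_mul_of_nonneg_left (norm_mul_le_amgm ‖f x‖ ‖f' x‖ hl) (hH.nonneg x)
  calc _ ≤ _ := this
    _ = _ := by ring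

theorem norm_int_le {H : Ω → ℝ} (hH : W01 H) (f : Ω → ℂ) :
    ‖∫ x, (H x : ℂ) * f x ∂P‖ ≤ ∫ x, H x * ‖f x‖ ∂P := by
  refine (norm_integral_le_integral_norm _).trans (le_of_eq ?_)
  refine integral_congr_ae (Eventually.of_forall fun x => ?_)
  simp only [norm_mul, Complex.norm_real, Real.norm_of_nonneg (hH.nonneg x)]

theorem sum_cross_le (s : Finset ι) {H : ι → Ω → ℝ} (hH : ∀ i ∈ s, W01 (H i))
    {f f' : ι → Ω → ℂ} (hf : ∀ i ∈ s, BM (f i)) (hf' : ∀ i ∈ s, BM (f' i)) {a b N N' l : ℝ}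
    (hN : 0 < N) (hN' : 0 < N') (hl : 0 < l)
    (ha : ∑ i ∈ s, ∫ x, H i x * ‖f i x‖ ^ 2 ∂P ≤ a * N ^ 2)
    (hb : ∑ i ∈ s, ∫ x, H i x * ‖f' i x‖ ^ 2 ∂P ≤ b * N' ^ 2) :
    ∑ i ∈ s, ∫ x, H i x * ‖f i x * starRingEnd ℂ (f' i x)‖ ∂P ≤ (l * a + b / l) / 2 * (N * N') := by
  have hl' : 0 < l * N' / N := by positivity
  calc _ ≤ ∑ i ∈ s, (l * N' / N * ∫ x, H i x * ‖f i x‖ ^ 2 ∂P +
        (∫ x, H i x * ‖f' i x‖ ^ 2 ∂P) / (l * N' / N)) / 2 :=
        Finset.sum_le_sum fun i hi => cross_le_amgm (hH i hi) (hf i hi) (hf' i hi) hl'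
    _ = (l * N' / N * ∑ i ∈ s, ∫ x, H i x * ‖f i x‖ ^ 2 ∂P +
        (∑ i ∈ s, ∫ x, H i x * ‖f' i x‖ ^ 2 ∂P) / (l * N' / N)) / 2 := by
        rw [← Finset.sum_div, Finset.sum_add_distrib, Finset.mul_sum, Finset.sum_div]
    _ ≤ (l * N' / N * (a * N ^ 2) + (b * N' ^ 2) / (l * N' / N)) / 2 := by gcongr
    _ = _ := by field_simp

theorem mix_sq (s : Finset ι) {H : ι → Ω → ℝ} (hH : ∀ i ∈ s, W01 (H i))
    {X : ι → Y × Ω → ℂ} (hX : ∀ i ∈ s, BM (X i)) {g : Y → ℂ} (hgm : Measurable g)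
    (hg : Integrable g ν) {N : Y → ℝ} (hN0 : ∀ y, 0 < N y)
    (hN : Integrable (fun y => ‖g y‖ * N y) ν) {B : ℝ}
    (hB : ∀ y, ∑ i ∈ s, ∫ x, H i x * ‖X i (y, x)‖ ^ 2 ∂P ≤ B * N y ^ 2) :
    ∑ i ∈ s, ∫ x, H i x * ‖∫ y, g y * X i (y, x) ∂ν‖ ^ 2 ∂P ≤ B * (∫ y, ‖g y‖ * N y ∂ν) ^ 2 := by
  have h := mix_two (P := P) (ν := ν) s hH hX hX (BM.const 0) hgm hgm hg hg hN hN (B := B)
    (fun y y' => by
      have h1 := sum_cross_le (P := P) s hH (f := fun i x => X i (y, x)) (f' := fun i x => X i (y', x))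
        (fun i hi => (hX i hi).comp measurable_prodMk_left)
        (fun i hi => (hX i hi).comp measurable_prodMk_left) (hN0 y) (hN0 y') one_pos (hB y) (hB y')
      simp only [zero_mul, sub_zero]
      refine (Finset.sum_le_sum fun i hi => norm_int_le (hH i hi) _).trans (h1.trans (le_of_eq ?_))
      ring)
  rw [sq]
  refine le_trans (Finset.sum_le_sum fun i hi => ?_) h
  simp only [mul_zero, integral_zero, zero_mul, sub_zero, Complex.mul_conj', ← Complex.ofReal_pow,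
    ← Complex.ofReal_mul, integral_complex_ofReal, Complex.norm_real]
  exact le_abs_self _

theorem tilt_le (Δ : Finset ι) {ε : ι → ℝ} (hε : ∀ i ∈ Δ, |ε i| ≤ 1) {A : ι → Ω → ℝ}
    (hA : ∀ i ∈ Δ, W01 (A i)) (T : Finset κ) {H : κ → Ω → ℝ} (hH : ∀ b ∈ T, W01 (H b))
    {w : Ω → ℝ} (hw : W01 w) (h : ∀ x, |∑ i ∈ Δ, ε i * A i x - w x| ≤ ∑ b ∈ T, H b x)
    {Φ : Ω → ℂ} (hΦ : BM Φ) :
    ‖∫ x, (w x : ℂ) * Φ x ∂P‖ ≤
      ∑ i ∈ Δ, ‖∫ x, (A i x : ℂ) * Φ x ∂P‖ + ∑ b ∈ T, ∫ x, H b x * ‖Φ x‖ ∂P := by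
  have i1 : ∀ i ∈ Δ, Integrable (fun x => (ε i : ℂ) * ((A i x : ℂ) * Φ x)) P := fun i hi =>
    (((hA i hi).bm.mul hΦ).integrable P).const_mul _
  have i2 : Integrable (fun x => (w x : ℂ) * Φ x) P := (hw.bm.mul hΦ).integrable P
  have e : ∫ x, (w x : ℂ) * Φ x ∂P = ∑ i ∈ Δ, (ε i : ℂ) * ∫ x, (A i x : ℂ) * Φ x ∂P -
      ∫ x, ((∑ i ∈ Δ, ε i * A i x - w x : ℝ) : ℂ) * Φ x ∂P := by
    simp only [← integral_const_mul]
    rw [← integral_finsetSum Δ i1, eq_sub_iff_add_eq, ← eq_sub_iff_add_eq',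
      ← integral_sub (integrable_finsetSum Δ i1) i2]
    refine integral_congr_ae (Eventually.of_forall fun x => ?_)
    simp only
    push_cast
    rw [sub_mul, Finset.sum_mul]
    simp only [mul_assoc]
  rw [e]
  refine (norm_sub_le _ _).trans (add_le_add ((norm_sum_le _ _).trans
    (Finset.sum_le_sum fun i hi => ?_)) ?_)
  · rw [norm_mul, Complex.norm_real, Real.norm_eq_abs]
    exact mul_le_of_le_one_left (norm_nonneg _) (hε i hi)
  · rw [← integral_finsetSum T fun b hb => (hH b hb).int_norm hΦ P]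
    refine norm_integral_le_of_norm_le (integrable_finsetSum T fun b hb => (hH b hb).int_norm hΦ P)
      (Eventually.of_forall fun x => ?_)
    rw [norm_mul, Complex.norm_real, Real.norm_eq_abs, ← Finset.sum_mul]
    exact mul_le_mul_of_nonneg_right (h x) (norm_nonneg _)

theorem int_mul_sub {H : Ω → ℝ} (hH : W01 H) {f : Ω → ℂ} (hf : BM f) (c : ℂ) :
    ∫ x, (H x : ℂ) * (f x - c) ∂P = ∫ x, (H x : ℂ) * f x ∂P - c * (∫ x, H x ∂P : ℝ) := by
  simp only [mul_sub]
  rw [integral_sub ((hH.bm.mul hf).integrable P) ((hH.bm.mul (BM.const c)).integrable P),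
    integral_mul_const, integral_complex_ofReal, mul_comm c]

/-- second moments under the tilted weight -/
theorem tilt_two (Δ : Finset ι) {ε : ι → ℝ} (hε : ∀ i ∈ Δ, |ε i| ≤ 1) {A : ι → Ω → ℝ}
    (hA : ∀ i ∈ Δ, W01 (A i)) (T : Finset κ) {H : κ → Ω → ℝ} (hH : ∀ b ∈ T, W01 (H b))
    {w : Ω → ℝ} (hw : W01 w) (h : ∀ x, |∑ i ∈ Δ, ε i * A i x - w x| ≤ ∑ b ∈ T, H b x)
    {V V' : Ω → ℂ} (hV : BM V) (hV' : BM V') {O O' : ι → Ω → ℂ} (hO : ∀ i ∈ Δ, BM (O i))
    (hO' : ∀ i ∈ Δ, BM (O' i)) {c : ℂ} {N N' e₁ b e q q₀ k l : ℝ} (hN : 0 < N) (hN' : 0 < N')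
    (hl : 0 < l) (hk : 0 ≤ k)
    (h1 : ∑ i ∈ Δ, ‖∫ x, (A i x : ℂ) * (O i x * starRingEnd ℂ (O' i x)) ∂P -
      c * (∫ x, A i x ∂P : ℝ)‖ ≤ e₁ * (N * N'))
    (h2 : ∑ i ∈ Δ, ∫ x, A i x * ‖O i x‖ ^ 2 ∂P ≤ b * N ^ 2)
    (h2' : ∑ i ∈ Δ, ∫ x, A i x * ‖O' i x‖ ^ 2 ∂P ≤ b * N' ^ 2)
    (h3 : ∑ i ∈ Δ, ∫ x, A i x * ‖V x - O i x‖ ^ 2 ∂P ≤ e * N ^ 2)
    (h3' : ∑ i ∈ Δ, ∫ x, A i x * ‖V' x - O' i x‖ ^ 2 ∂P ≤ e * N' ^ 2)
    (h4 : ∑ j ∈ T, ∫ x, H j x * ‖V x‖ ^ 2 ∂P ≤ q * N ^ 2)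
    (h4' : ∑ j ∈ T, ∫ x, H j x * ‖V' x‖ ^ 2 ∂P ≤ q * N' ^ 2)
    (h5 : ∑ j ∈ T, ∫ x, H j x ∂P ≤ q₀) (hc : ‖c‖ ≤ k * (N * N')) :
    ‖∫ x, (w x : ℂ) * (V x * starRingEnd ℂ (V' x)) ∂P - c * (∫ x, w x ∂P : ℝ)‖ ≤
      (e₁ + l * b + e / l + e + q + k * q₀) * (N * N') := by
  have hΦ : BM (fun x => V x * starRingEnd ℂ (V' x)) := hV.mul hV'.conj
  rw [← int_mul_sub hw hΦ]
  refine (tilt_le Δ hε hA T hH hw h (hΦ.sub (BM.const c))).trans ?_
  have hE : ∀ i ∈ Δ, BM (fun x => V x - O i x) := fun i hi => hV.sub (hO i hi)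
  have hE' : ∀ i ∈ Δ, BM (fun x => V' x - O' i x) := fun i hi => hV'.sub (hO' i hi)
  have c1 := sum_cross_le (P := P) Δ hA hO hE' hN hN' hl h2 h3'
  have c2 := sum_cross_le (P := P) Δ hA hE hO' hN hN' (inv_pos.mpr hl) h3 h2'
  have c3 := sum_cross_le (P := P) Δ hA hE hE' hN hN' one_pos h3 h3'
  have c4 := sum_cross_le (P := P) T hH (f := fun _ => V) (f' := fun _ => V') (fun _ _ => hV)
    (fun _ _ => hV') hN hN' one_pos h4 h4'
  have m : ∑ i ∈ Δ, ‖∫ x, (A i x : ℂ) * (V x * starRingEnd ℂ (V' x) - c) ∂P‖ ≤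
      ∑ i ∈ Δ, (‖∫ x, (A i x : ℂ) * (O i x * starRingEnd ℂ (O' i x)) ∂P - c * (∫ x, A i x ∂P : ℝ)‖ +
        (∫ x, A i x * ‖O i x * starRingEnd ℂ (V' x - O' i x)‖ ∂P +
        ∫ x, A i x * ‖(V x - O i x) * starRingEnd ℂ (O' i x)‖ ∂P +
        ∫ x, A i x * ‖(V x - O i x) * starRingEnd ℂ (V' x - O' i x)‖ ∂P)) := by
    refine Finset.sum_le_sum fun i hi => ?_
    have b0 := (hO i hi).mul (hO' i hi).conj
    have b1 := (hO i hi).mul (hE' i hi).conj
    have b2 := (hE i hi).mul (hO' i hi).conj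
    have b3 := (hE i hi).mul (hE' i hi).conj
    have a := (hA i hi).bm
    rw [← int_mul_sub (hA i hi) b0]
    have e : ∫ x, (A i x : ℂ) * (V x * starRingEnd ℂ (V' x) - c) ∂P =
        ∫ x, (A i x : ℂ) * (O i x * starRingEnd ℂ (O' i x) - c) ∂P +
        (∫ x, (A i x : ℂ) * (O i x * starRingEnd ℂ (V' x - O' i x)) ∂P +
        ∫ x, (A i x : ℂ) * ((V x - O i x) * starRingEnd ℂ (O' i x)) ∂P +
        ∫ x, (A i x : ℂ) * ((V x - O i x) * starRingEnd ℂ (V' x - O' i x)) ∂P) := by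
      rw [← integral_add ((a.mul b1).integrable P) ((a.mul b2).integrable P),
        ← integral_add (((a.mul b1).add (a.mul b2)).integrable P) ((a.mul b3).integrable P),
        ← integral_add ((a.mul (b0.sub (BM.const c))).integrable P)
          ((((a.mul b1).add (a.mul b2)).add (a.mul b3)).integrable P)]
      refine integral_congr_ae (Eventually.of_forall fun x => ?_)
      simp only [map_sub]
      ring
    rw [e]
    refine (norm_add_le _ _).trans (add_le_add le_rfl ((norm_add₃_le).trans ?_))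
    exact add_le_add (add_le_add (norm_int_le (hA i hi) _) (norm_int_le (hA i hi) _))
      (norm_int_le (hA i hi) _)
  have m2 : ∑ j ∈ T, ∫ x, H j x * ‖V x * starRingEnd ℂ (V' x) - c‖ ∂P ≤
      ∑ j ∈ T, (∫ x, H j x * ‖V x * starRingEnd ℂ (V' x)‖ ∂P + ‖c‖ * ∫ x, H j x ∂P) := by
    refine Finset.sum_le_sum fun j hj => ?_
    rw [← integral_const_mul, ← integral_add ((hH j hj).int_norm hΦ P)
      (((hH j hj).integrable P).const_mul _)]
    refine integral_mono ((hH j hj).int_norm (hΦ.sub (BM.const c)) P)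
      (((hH j hj).int_norm hΦ P).add (((hH j hj).integrable P).const_mul _)) fun x => ?_
    have := mul_le_mul_of_nonneg_left (norm_sub_le (V x * starRingEnd ℂ (V' x)) c) ((hH j hj).nonneg x)
    simp only
    linarith
  simp only [Finset.sum_add_distrib, ← Finset.mul_sum] at m m2
  have h0 : 0 ≤ ∑ j ∈ T, ∫ x, H j x ∂P :=
    Finset.sum_nonneg fun j hj => integral_nonneg (hH j hj).nonneg
  have c5 : ‖c‖ * ∑ j ∈ T, ∫ x, H j x ∂P ≤ k * (N * N') * q₀ :=
    mul_le_mul hc h5 h0 (by positivity)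
  have e2 : (l⁻¹ * e + b / l⁻¹) / 2 = (l * b + e / l) / 2 := by field_simp; ring
  rw [e2] at c2
  nlinarith [c1, c2, c3, c4, c5, m, m2, h1]

theorem sum_sq_add_le (s : Finset ι) {H : ι → Ω → ℝ} (hH : ∀ i ∈ s, W01 (H i))
    {f g : ι → Ω → ℂ} (hf : ∀ i ∈ s, BM (f i)) (hg : ∀ i ∈ s, BM (g i)) :
    ∑ i ∈ s, ∫ x, H i x * ‖f i x + g i x‖ ^ 2 ∂P ≤
      2 * ∑ i ∈ s, ∫ x, H i x * ‖f i x‖ ^ 2 ∂P + 2 * ∑ i ∈ s, ∫ x, H i x * ‖g i x‖ ^ 2 ∂P := by
  rw [Finset.mul_sum, Finset.mul_sum, ← Finset.sum_add_distrib]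
  refine Finset.sum_le_sum fun i hi => ?_
  have i1 := (hH i hi).int_norm_pow (hf i hi) 2 P
  have i2 := (hH i hi).int_norm_pow (hg i hi) 2 P
  rw [← integral_const_mul, ← integral_const_mul, ← integral_add (i1.const_mul 2) (i2.const_mul 2)]
  refine integral_mono ((hH i hi).int_norm_pow ((hf i hi).add (hg i hi)) 2 P)
    ((i1.const_mul 2).add (i2.const_mul 2)) fun x => ?_
  have h1 : ‖f i x + g i x‖ ^ 2 ≤ 2 * ‖f i x‖ ^ 2 + 2 * ‖g i x‖ ^ 2 := by
    have := pow_le_pow_left₀ (norm_nonneg _) (norm_add_le (f i x) (g i x)) 2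
    nlinarith [sq_nonneg (‖f i x‖ - ‖g i x‖)]
  have := mul_le_mul_of_nonneg_left h1 ((hH i hi).nonneg x)
  simp only
  linarith

end Pool.Agent.Eps
end
end

-- part Pool.Agent.Lib.MP_3bda03_nt.TestC
section

/-!
The paraboloid test: Beta and Gamma integrals, the peak lemma, the mirror kernel.
-/

set_option autoImplicit false

noncomputable section

open MeasureTheory Real Set

namespace Pool.Agent.Eps.Tst

lemma beta_int {s : ℝ} (hs : 0 < s) :
    ∫ x in (0 : ℝ)..1, x ^ (s - 1) * (1 - x) ^ (s - 1) = Gamma s ^ 2 / Gamma (2 * s) := by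
  have h1 := ProbabilityTheory.beta_eq_betaIntegralReal s s hs hs
  have h2 : Complex.betaIntegral s s =
      ((∫ x in (0 : ℝ)..1, x ^ (s - 1) * (1 - x) ^ (s - 1) : ℝ) : ℂ) := by
    rw [Complex.betaIntegral, ← intervalIntegral.integral_ofReal]
    refine intervalIntegral.integral_congr fun x hx => ?_
    rw [uIcc_of_le zero_le_one] at hx
    rw [Complex.ofReal_mul, Complex.ofReal_cpow hx.1, Complex.ofReal_cpow (sub_nonneg.mpr hx.2)]
    push_cast
    rfl
  rw [h2, Complex.ofReal_re, ProbabilityTheory.beta] at h1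
  rw [← h1, two_mul, sq]

/-- the limiting covariance kernel -/
def K0 (s u u' : ℝ) : ℝ := (rexp u * rexp u' / (rexp u + rexp u') ^ 2) ^ s

lemma K0_nonneg (s u u' : ℝ) : 0 ≤ K0 s u u' := by unfold K0; positivity

lemma K0_symm (s u u' : ℝ) : K0 s u u' = K0 s u' u := by unfold K0; rw [mul_comm, add_comm]

lemma K0_le_one {s : ℝ} (hs : 0 ≤ s) (u u' : ℝ) : K0 s u u' ≤ 1 := by
  refine Real.rpow_le_one (by positivity) ?_ hs
  rw [div_le_one (by positivity)]
  nlinarith [exp_pos u, exp_pos u', mul_pos (exp_pos u) (exp_pos u')]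

lemma measurable_K0 (s : ℝ) : Measurable (Function.uncurry (K0 s)) := by
  unfold K0 Function.uncurry
  fun_prop

lemma K0_eq (s u u' : ℝ) :
    K0 s u u' = (rexp u + rexp u') ^ (-(2 * s)) * (rexp (s * u) * rexp (s * u')) := by
  have h : 0 < rexp u + rexp u' := by positivity
  unfold K0
  rw [Real.div_rpow (by positivity) (by positivity), Real.mul_rpow (exp_pos _).le (exp_pos _).le,
    ← Real.exp_mul, ← Real.exp_mul, ← Real.rpow_natCast, ← Real.rpow_mul h.le, Real.rpow_neg h.le,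
    mul_comm u, mul_comm u']
  push_cast
  rw [div_eq_inv_mul]

lemma int_K0 {s v : ℝ} (hs : 1 ≤ s) (hv : 0 ≤ v) (u : ℝ) :
    ∫ u' in Ioc 0 v, K0 s u u' ≤ Gamma s ^ 2 / Gamma (2 * s) := by
  have hp : ∀ y, 0 < rexp u + rexp y := fun y => by positivity
  have hg : Continuous fun x : ℝ => x ^ (s - 1) * (1 - x) ^ (s - 1) :=
    (Real.continuous_rpow_const (by linarith)).mul
      ((Real.continuous_rpow_const (by linarith)).comp (by fun_prop))
  have h := intervalIntegral.integral_comp_mul_deriv (a := 0) (b := v)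
    (f := fun y => rexp y / (rexp u + rexp y))
    (f' := fun y => rexp u * rexp y / (rexp u + rexp y) ^ 2)
    (g := fun x : ℝ => x ^ (s - 1) * (1 - x) ^ (s - 1))
    (fun y _ => ((Real.hasDerivAt_exp y).div ((Real.hasDerivAt_exp y).const_add _)
      (hp y).ne').congr_deriv (by ring))
    (Continuous.continuousOn (Continuous.div (by fun_prop) (by fun_prop)
      fun y => (pow_pos (hp y) 2).ne')) hg
  have e : ∀ y, ((fun x : ℝ => x ^ (s - 1) * (1 - x) ^ (s - 1)) ∘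
      fun y => rexp y / (rexp u + rexp y)) y * (rexp u * rexp y / (rexp u + rexp y) ^ 2) =
      K0 s u y := fun y => by
    have h1 : 1 - rexp y / (rexp u + rexp y) = rexp u / (rexp u + rexp y) := by
      have := hp y; field_simp; ring
    simp only [Function.comp]
    rw [h1, ← Real.mul_rpow (by positivity) (by positivity),
      show rexp y / (rexp u + rexp y) * (rexp u / (rexp u + rexp y)) =
        rexp u * rexp y / (rexp u + rexp y) ^ 2 from by have := hp y; field_simp,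
      K0, Real.rpow_sub_one (by positivity), div_mul_cancel₀ _ (by positivity)]
  simp_rw [e] at h
  rw [← intervalIntegral.integral_of_le hv, h, ← beta_int (by linarith)]
  have m0 : rexp 0 / (rexp u + rexp 0) ≤ rexp v / (rexp u + rexp v) := by
    rw [div_le_div_iff₀ (hp _) (hp _)]
    nlinarith [exp_le_exp.mpr hv, exp_pos u]
  refine intervalIntegral.integral_mono_interval (by positivity) m0 ?_ ?_
    (hg.intervalIntegrable _ _)
  · rw [div_le_one (hp _)]; linarith [exp_pos u]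
  · filter_upwards [ae_restrict_mem measurableSet_Ioc] with x hx
    exact mul_nonneg (Real.rpow_nonneg hx.1.le _) (Real.rpow_nonneg (sub_nonneg.mpr hx.2) _)

lemma gamma_ratio {s : ℝ} (hs : 0 < s) :
    rexp (-s * Real.log 2) ^ 2 ≤ √s * (Gamma s ^ 2 / Gamma (2 * s)) := by
  have h1 := Real.Gamma_mul_Gamma_add_half s
  have g1 := Gamma_pos_of_pos hs
  have g2 : 0 < Gamma (2 * s) := Gamma_pos_of_pos (by linarith)
  have h2 := Real.Gamma_mul_add_mul_le_rpow_Gamma_mul_rpow_Gamma (s := s) (t := s + 1)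
    (a := 1 / 2) (b := 1 / 2) hs (by linarith) (by norm_num) (by norm_num) (by norm_num)
  rw [show 1 / 2 * s + 1 / 2 * (s + 1) = s + 1 / 2 by ring, Gamma_add_one hs.ne',
    ← Real.sqrt_eq_rpow, ← Real.sqrt_eq_rpow, Real.sqrt_mul hs.le, mul_left_comm,
    Real.mul_self_sqrt g1.le] at h2
  have h3 : rexp (-s * Real.log 2) ^ 2 ≤ (2 : ℝ) ^ (1 - 2 * s) := by
    rw [Real.rpow_def_of_pos two_pos, ← Real.exp_nat_mul, exp_le_exp]
    push_cast
    nlinarith [Real.log_pos one_lt_two]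
  have h4 : 1 ≤ √π := Real.one_le_sqrt.mpr (by linarith [Real.pi_gt_three])
  rw [← mul_div_assoc, le_div_iff₀ g2]
  calc _ ≤ (2 : ℝ) ^ (1 - 2 * s) * Gamma (2 * s) * √π := by
        refine (mul_le_mul_of_nonneg_right h3 g2.le).trans (le_mul_of_one_le_right ?_ h4)
        positivity
    _ = Gamma s * Gamma (s + 1 / 2) := by rw [h1]; ring
    _ ≤ Gamma s * (√s * Gamma s) := by gcongr
    _ = _ := by ring

lemma int_gam {a x : ℝ} (ha : 0 < a) (hx : 0 < x) :
    IntegrableOn (fun t : ℝ => t ^ (a - 1) * rexp (-(x * t))) (Ioi 0) := by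
  have := integrableOn_rpow_mul_exp_neg_mul_rpow (s := a - 1) (p := 1) (b := x) (by linarith)
    one_pos hx
  simpa using this

lemma cheb {s x p q l : ℝ} (hs : 1 ≤ s) (hx : 0 < x) (hl : 0 < l) (hp : x * rexp p ≤ s - l)
    (hq : s + l ≤ x * rexp q) :
    (1 - s / l ^ 2) * ((1 / x) ^ s * Gamma s) ≤ ∫ u in p..q, rexp (s * u - x * rexp u) := by
  have hs0 : 0 < s := by linarith
  have hpq : rexp p ≤ rexp q := le_of_mul_le_mul_left (by linarith) hx
  have hg : Continuous fun t : ℝ => t ^ (s - 1) * rexp (-(x * t)) :=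
    (Real.continuous_rpow_const (by linarith)).mul (by fun_prop)
  have h := intervalIntegral.integral_comp_mul_deriv (a := p) (b := q) (f := rexp) (f' := rexp)
    (g := fun t : ℝ => t ^ (s - 1) * rexp (-(x * t))) (fun y _ => Real.hasDerivAt_exp y)
    (by fun_prop) hg
  have e : ∀ u, ((fun t : ℝ => t ^ (s - 1) * rexp (-(x * t))) ∘ rexp) u * rexp u =
      rexp (s * u - x * rexp u) := fun u => by
    simp only [Function.comp]
    rw [← Real.exp_mul, ← Real.exp_add, ← Real.exp_add]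
    congr 1; ring
  simp_rw [e] at h
  have i0 := int_gam hs0 hx
  have i1 := int_gam (a := s + 1) (by linarith) hx
  have i2 := int_gam (a := s + 1 + 1) (by linarith) hx
  have j1 : IntegrableOn (fun t : ℝ => (1 - s ^ 2 / l ^ 2) * (t ^ (s - 1) * rexp (-(x * t))) +
      2 * x * s / l ^ 2 * (t ^ (s + 1 - 1) * rexp (-(x * t)))) (Ioi 0) :=
    (i0.const_mul _).add (i1.const_mul _)
  have j2 := i2.const_mul (x ^ 2 / l ^ 2)
  have h2 : (1 - s / l ^ 2) * ((1 / x) ^ s * Gamma s) = ∫ t in Ioi (0 : ℝ),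
      ((1 - s ^ 2 / l ^ 2) * (t ^ (s - 1) * rexp (-(x * t))) +
      2 * x * s / l ^ 2 * (t ^ (s + 1 - 1) * rexp (-(x * t))) -
      x ^ 2 / l ^ 2 * (t ^ (s + 1 + 1 - 1) * rexp (-(x * t)))) := by
    rw [integral_sub j1 j2, integral_add (i0.const_mul _) (i1.const_mul _), integral_const_mul,
      integral_const_mul, integral_const_mul, integral_rpow_mul_exp_neg_mul_Ioi hs0 hx,
      integral_rpow_mul_exp_neg_mul_Ioi (by linarith) hx,
      integral_rpow_mul_exp_neg_mul_Ioi (by linarith) hx, Gamma_add_one (s := s + 1) (by linarith),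
      Gamma_add_one hs0.ne', Real.rpow_add_one (by positivity) (s + 1),
      Real.rpow_add_one (by positivity) s]
    field_simp
    ring
  have h3 : ∫ t in rexp p..rexp q, t ^ (s - 1) * rexp (-(x * t)) = ∫ t in Ioi (0 : ℝ),
      (Ioc (rexp p) (rexp q)).indicator (fun t : ℝ => t ^ (s - 1) * rexp (-(x * t))) t := by
    rw [setIntegral_indicator measurableSet_Ioc, intervalIntegral.integral_of_le hpq,
      inter_eq_right.mpr (show Ioc (rexp p) (rexp q) ⊆ Ioi 0 from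
        fun t ht => (exp_pos p).trans ht.1)]
  rw [h, h2, h3]
  refine setIntegral_mono_on (j1.sub j2) (i0.indicator measurableSet_Ioc) measurableSet_Ioi
    fun t ht => ?_
  have ht0 : 0 < t := ht
  have e1 : t ^ (s + 1 - 1) = t ^ (s - 1) * t := by
    rw [← Real.rpow_add_one ht0.ne']; congr 1; ring
  have e2 : t ^ (s + 1 + 1 - 1) = t ^ (s - 1) * t * t := by
    rw [← Real.rpow_add_one ht0.ne', ← Real.rpow_add_one ht0.ne']; congr 1; ring
  have g0 : 0 ≤ t ^ (s - 1) * rexp (-(x * t)) := by positivity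
  have e3 : (1 - s ^ 2 / l ^ 2) * (t ^ (s - 1) * rexp (-(x * t))) +
      2 * x * s / l ^ 2 * (t ^ (s + 1 - 1) * rexp (-(x * t))) -
      x ^ 2 / l ^ 2 * (t ^ (s + 1 + 1 - 1) * rexp (-(x * t))) =
      (1 - (x * t - s) ^ 2 / l ^ 2) * (t ^ (s - 1) * rexp (-(x * t))) := by
    rw [e1, e2]; ring
  rw [e3]
  by_cases hm : t ∈ Ioc (rexp p) (rexp q)
  · rw [indicator_of_mem hm]
    exact mul_le_of_le_one_left g0 (sub_le_self _ (by positivity))
  · rw [indicator_of_notMem hm]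
    refine mul_nonpos_of_nonpos_of_nonneg (sub_nonpos.mpr ?_) g0
    rw [one_le_div (by positivity)]
    rw [mem_Ioc, not_and_or, not_lt, not_le] at hm
    rcases hm with hm | hm
    · have := mul_le_mul_of_nonneg_left hm hx.le
      nlinarith
    · have := mul_le_mul_of_nonneg_left hm.le hx.le
      nlinarith

lemma peak_le {x p : ℝ} (hx : 0 < x) (hp : 0 < p) (u : ℝ) :
    p * u - x * rexp u ≤ p * Real.log (p / x) - p := by
  have h1 : x * rexp u = p * rexp (u - Real.log (p / x)) := by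
    rw [Real.exp_sub, Real.exp_log (by positivity)]; field_simp
  have h2 := Real.add_one_le_exp (u - Real.log (p / x))
  rw [h1]
  nlinarith

lemma peak_ge {x p v L h : ℝ} (hx : 0 < x) (hp : 0 < p) (h0 : 0 < h) (h1 : h ≤ 1)
    (h2 : p * h ^ 2 ≤ 1 / 2) (hv : v ≤ Real.log (p / x)) (hL : Real.log (p / x) + h ≤ L) :
    rexp (p * Real.log (p / x) - p) * (h / 2) ≤ ∫ u in v..L, rexp (p * u - x * rexp u) := by
  set a := Real.log (p / x) with ha
  have hc : Continuous fun u => rexp (p * u - x * rexp u) := by fun_prop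
  calc _ = ∫ _ in a..(a + h), rexp (p * a - p) / 2 := by simp; ring
    _ ≤ ∫ u in a..(a + h), rexp (p * u - x * rexp u) := by
        refine intervalIntegral.integral_mono_on (by linarith) (by simp)
          (hc.intervalIntegrable _ _) fun u hu => ?_
        have e1 : x * rexp u = p * rexp (u - a) := by
          rw [Real.exp_sub, ha, Real.exp_log (by positivity)]; field_simp
        have e2 := (abs_le.mp (Real.abs_exp_sub_one_sub_id_le (x := u - a)
          (abs_le.mpr ⟨by linarith [hu.1], by linarith [hu.2]⟩))).2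
        have e3 : (u - a) ^ 2 ≤ h ^ 2 := pow_le_pow_left₀ (by linarith [hu.1]) (by linarith [hu.2]) 2
        have e4 : p * a - p + -(1 / 2) ≤ p * u - x * rexp u := by
          rw [e1]; nlinarith
        have e5 := Real.add_one_le_exp (-(1 / 2))
        refine le_trans ?_ (exp_le_exp.mpr e4)
        rw [Real.exp_add]
        nlinarith [exp_pos (p * a - p)]
    _ ≤ _ := intervalIntegral.integral_mono_interval hv (by linarith) hL
        (ae_of_all _ fun u => (exp_pos _).le) (hc.intervalIntegrable _ _)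

lemma one_add_le_cosh {y : ℝ} (hy : 0 ≤ y) : 1 + y ^ 2 / 2 ≤ cosh y := by
  have h1 := Real.cosh_two_mul (y / 2)
  have h2 := Real.cosh_sq (y / 2)
  have h3 : y / 2 ≤ sinh (y / 2) := Real.self_le_sinh_iff.mpr (by linarith)
  rw [show 2 * (y / 2) = y by ring] at h1
  nlinarith

/-- the bump that dominates the mirror terms -/
def bump (s u : ℝ) : ℝ := rexp (-s * Real.log 2) / (1 + s * u ^ 2 / 4)

lemma bump_nonneg {s : ℝ} (hs : 0 ≤ s) (u : ℝ) : 0 ≤ bump s u := by unfold bump; positivity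

lemma bump_le {s : ℝ} (hs : 0 ≤ s) (u : ℝ) : bump s u ≤ rexp (-s * Real.log 2) :=
  div_le_self (exp_pos _).le (le_add_of_nonneg_right (by positivity))

lemma continuous_bump {s : ℝ} (hs : 0 ≤ s) : Continuous (bump s) :=
  Continuous.div (by fun_prop) (by fun_prop) fun u => by positivity

lemma int_bump {s v : ℝ} (hs : 0 < s) :
    ∫ u in (0 : ℝ)..v, bump s u ≤ 4 * rexp (-s * Real.log 2) / √s := by
  have hr : 0 < √s := Real.sqrt_pos.mpr hs
  have h : ∀ u ∈ uIcc (0 : ℝ) v, HasDerivAt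
      (fun u => 2 * rexp (-s * Real.log 2) / √s * arctan (√s / 2 * u)) (bump s u) u := fun u _ => by
    refine ((((hasDerivAt_id u).const_mul (√s / 2)).arctan).const_mul _).congr_deriv ?_
    simp only [id, bump, mul_pow, div_pow, Real.sq_sqrt hs.le]
    field_simp
    ring
  rw [intervalIntegral.integral_eq_sub_of_hasDerivAt h ((continuous_bump hs.le).intervalIntegrable _ _)]
  have h1 := Real.arctan_lt_pi_div_two (√s / 2 * v)
  have h2 := Real.pi_le_four
  simp only [mul_zero, Real.arctan_zero, sub_zero]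
  calc _ ≤ 2 * rexp (-s * Real.log 2) / √s * 2 := by gcongr; linarith
    _ = _ := by ring

lemma mir {s u u' : ℝ} (hs : 1 ≤ s) (hu : 0 ≤ u) (hu' : 0 ≤ u') :
    (1 + rexp u * rexp u') ^ (-(2 * s)) * (rexp (s * u) * rexp (s * u')) ≤ bump s u * bump s u' := by
  have k : ∀ y, 0 ≤ y → 1 + s * y ^ 2 / 4 ≤ cosh (y / 2) ^ (2 * s) := fun y hy => by
    have h1 := one_add_mul_self_le_rpow_one_add (s := (y / 2) ^ 2 / 2) (p := 2 * s)
      (by linarith [sq_nonneg (y / 2)]) (by linarith)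
    refine le_trans (le_of_eq (by ring)) (h1.trans (Real.rpow_le_rpow (by positivity)
      (one_add_le_cosh (by linarith)) (by linarith)))
  have h1 : cosh (u / 2) * cosh (u' / 2) ≤ cosh (u / 2 + u' / 2) := by
    rw [Real.cosh_add]
    exact le_add_of_nonneg_right (mul_nonneg (Real.sinh_nonneg_iff.mpr (by linarith))
      (Real.sinh_nonneg_iff.mpr (by linarith)))
  have h2 : 1 + rexp u * rexp u' = rexp (Real.log 2 + (u + u') / 2) * cosh (u / 2 + u' / 2) := by
    rw [Real.exp_add, Real.exp_log two_pos, Real.cosh_eq, ← Real.exp_add,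
      show u / 2 + u' / 2 = (u + u') / 2 by ring]
    have a1 : rexp ((u + u') / 2) * rexp ((u + u') / 2) = rexp (u + u') := by
      rw [← Real.exp_add]; congr 1; ring
    have a2 : rexp ((u + u') / 2) * rexp (-((u + u') / 2)) = 1 := by
      rw [← Real.exp_add]; simp
    linarith
  have c1 := Real.cosh_pos (u / 2)
  have c2 := Real.cosh_pos (u' / 2)
  have h3 : (1 + s * u ^ 2 / 4) * (1 + s * u' ^ 2 / 4) ≤ cosh (u / 2 + u' / 2) ^ (2 * s) := by
    refine le_trans ?_ (Real.rpow_le_rpow (by positivity) h1 (by linarith))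
    rw [Real.mul_rpow c1.le c2.le]
    exact mul_le_mul (k u hu) (k u' hu') (by positivity) (by positivity)
  rw [h2, Real.mul_rpow (exp_pos _).le (Real.cosh_pos _).le, ← Real.exp_mul, bump, bump,
    div_mul_div_comm, Real.rpow_neg (Real.cosh_pos _).le, mul_right_comm, ← div_eq_mul_inv]
  refine div_le_div₀ (by positivity) (le_of_eq ?_) (by positivity) h3
  rw [← Real.exp_add, ← Real.exp_add, ← Real.exp_add]
  congr 1; ring

lemma log_le_lin {y μ : ℝ} (hy : 0 < y) (h1 : μ ≤ 1 / 2) :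
    Real.log y ≤ (1 - μ) * (y - 1) + 2 * μ ^ 2 := by
  have h2 : 0 < 1 - μ := by linarith
  have h3 := Real.log_le_sub_one_of_pos (mul_pos h2 hy)
  have h4 := Real.one_sub_inv_le_log_of_pos h2
  rw [Real.log_mul h2.ne' hy.ne'] at h3
  have h5 : (1 - μ)⁻¹ ≤ 1 + μ + 2 * μ ^ 2 := by
    rw [inv_eq_one_div, div_le_iff₀ h2]
    nlinarith [mul_nonneg (sq_nonneg μ) (show 0 ≤ 1 - 2 * μ by linarith)]
  linarith

lemma exists_pos {Ω : Type} [MeasurableSpace Ω] {μ : Measure Ω} [IsProbabilityMeasure μ]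
    {q : Ω → ℝ} (hq : Integrable q μ) {D ε : ℝ} (hD : 0 ≤ D) (hε : 0 ≤ ε) (h1 : ∀ x, q x ≤ D)
    {G : Set Ω} (hG : MeasurableSet G) (h2 : μ Gᶜ ≤ ENNReal.ofReal ε) (h3 : ε * D < ∫ x, q x ∂μ) :
    ∃ x ∈ G, 0 < q x := by
  by_contra hc
  push Not at hc
  have h4 : ∫ x, q x ∂μ ≤ ∫ x, Gᶜ.indicator (fun _ => D) x ∂μ := by
    refine integral_mono hq ((integrable_const D).indicator hG.compl) fun x => ?_
    by_cases hx : x ∈ G
    · rw [indicator_of_notMem (by simpa using hx)]; exact hc x hx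
    · rw [indicator_of_mem (by simpa using hx)]; exact h1 x
  rw [integral_indicator_const _ hG.compl, smul_eq_mul] at h4
  have h5 : μ.real Gᶜ ≤ ε := ENNReal.toReal_le_of_le_ofReal hε h2
  nlinarith

end Pool.Agent.Eps.Tst
end
end

-- part Pool.Agent.Lib.MP_3bda03_nt.TestA
section

/-!
The paraboloid test, deterministic part: a linear and a quadratic functional that dominate all
averages against hyperbolic cosines.
-/

set_option autoImplicit false

noncomputable section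

open MeasureTheory Real Set

namespace Pool.Agent.Eps.Tst

/-- normalised bridge test function -/
def psi (v σ u : ℝ) : ℝ := ((if v * (1 - σ ^ 2) < u then 1 else 0) - σ ^ 2) / σ

def BB (v : ℝ) (f : ℝ → ℝ) (σ : ℝ) : ℝ := ∫ u in Ioc 0 v, psi v σ u * f u

def be (v : ℝ) (f : ℝ → ℝ) : ℝ := ∫ u in Ioc 0 v, f u

def DD (v c : ℝ) (f : ℝ → ℝ) : ℝ :=
  0.47 * be v f + 0.3135 * be v f ^ 2 / (2 * c) +
    (∫ σ in Ioc (0 : ℝ) 1, (0.1672 * BB v f σ + 0.273 * BB v f σ ^ 2 / (2 * c))) + c / 2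

lemma int_bdd {α : Type} [MeasurableSpace α] {ν : Measure α} [IsFiniteMeasure ν] {f : α → ℝ}
    (hf : Measurable f) {C : ℝ} (hC : ∀ᵐ x ∂ν, |f x| ≤ C) : Integrable f ν :=
  Integrable.of_bound hf.aestronglyMeasurable C hC

lemma ii_bdd {f : ℝ → ℝ} (hf : Measurable f) {C : ℝ} (hC : ∀ x, |f x| ≤ C) (a b : ℝ) :
    IntervalIntegrable f volume a b :=
  ⟨int_bdd hf (ae_of_all _ hC), int_bdd hf (ae_of_all _ hC)⟩

lemma int_step {v w : ℝ} (h0 : 0 ≤ w) (h1 : w ≤ v) (f : ℝ → ℝ) :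
    ∫ u in Ioc 0 v, (if w < u then 1 else 0) * f u = ∫ u in w..v, f u := by
  have : (fun u => (if w < u then 1 else 0) * f u) = (Ioi w).indicator f := by
    ext u; by_cases h : w < u <;> simp [h]
  rw [this, setIntegral_indicator measurableSet_Ioi, Ioc_inter_Ioi, max_eq_right h0,
    intervalIntegral.integral_of_le h1]

lemma measurable_psi (v : ℝ) : Measurable (Function.uncurry (psi v)) := by
  unfold psi Function.uncurry
  refine Measurable.div (Measurable.sub (Measurable.ite ?_ measurable_const measurable_const)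
    (by fun_prop)) measurable_fst
  exact measurableSet_lt (by fun_prop) measurable_snd

lemma measurable_psi' (v σ : ℝ) : Measurable (psi v σ) :=
  (measurable_psi v).of_uncurry_left

lemma abs_psi_le {v σ : ℝ} (h0 : 0 < σ) (h1 : σ ≤ 1) (u : ℝ) : |psi v σ u| ≤ 1 / σ := by
  unfold psi
  rw [abs_div, abs_of_pos h0]
  gcongr
  have : σ ^ 2 ≤ 1 := by nlinarith
  split_ifs <;> rw [abs_le] <;> constructor <;> nlinarith

lemma step_mem {v σ : ℝ} (hv : 0 < v) (h0 : 0 < σ) (h1 : σ ≤ 1) :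
    0 ≤ v * (1 - σ ^ 2) ∧ v * (1 - σ ^ 2) ≤ v := by
  have : σ ^ 2 ≤ 1 := by nlinarith
  constructor <;> nlinarith [sq_nonneg σ]

lemma meas_step (w : ℝ) : Measurable fun u : ℝ => (if w < u then (1 : ℝ) else 0) :=
  Measurable.ite measurableSet_Ioi measurable_const measurable_const

lemma int_lin {v σ : ℝ} (hv : 0 < v) (h0 : 0 < σ) (h1 : σ ≤ 1) (a b : ℝ) :
    ∫ u in Ioc 0 v, ((if v * (1 - σ ^ 2) < u then 1 else 0) * a + b) = v * σ ^ 2 * a + v * b := by
  obtain ⟨h2, h3⟩ := step_mem hv h0 h1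
  rw [integral_add (int_bdd ((meas_step _).mul_const a) (C := |a|) (ae_of_all _ fun u => by
    split_ifs <;> simp)) (integrable_const _), int_step h2 h3 (fun _ => a)]
  simp [hv.le]
  left; ring

lemma int_abs_psi {v σ : ℝ} (hv : 0 < v) (h0 : 0 < σ) (h1 : σ ≤ 1) :
    ∫ u in Ioc 0 v, |psi v σ u| ≤ 2 * v := by
  have h2 : σ ^ 2 ≤ 1 := by nlinarith
  have : (fun u => |psi v σ u|) = fun u =>
      (if v * (1 - σ ^ 2) < u then 1 else 0) * ((1 - 2 * σ ^ 2) / σ) + σ := by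
    ext u
    unfold psi
    rw [abs_div, abs_of_pos h0]
    split_ifs
    · rw [abs_of_nonneg (by linarith)]; field_simp; ring
    · rw [zero_sub, abs_neg, abs_of_nonneg (sq_nonneg _)]; field_simp; ring
  rw [this, int_lin hv h0 h1]
  have : v * σ ^ 2 * ((1 - 2 * σ ^ 2) / σ) + v * σ = 2 * v * (σ * (1 - σ ^ 2)) := by
    field_simp; ring
  rw [this]
  have : σ * (1 - σ ^ 2) ≤ 1 := by nlinarith [sq_nonneg σ]
  nlinarith

lemma int_sq_psi {v σ : ℝ} (hv : 0 < v) (h0 : 0 < σ) (h1 : σ ≤ 1) :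
    ∫ u in Ioc 0 v, psi v σ u ^ 2 = v * (1 - σ ^ 2) := by
  have : (fun u => psi v σ u ^ 2) = fun u =>
      (if v * (1 - σ ^ 2) < u then 1 else 0) * ((1 - 2 * σ ^ 2) / σ ^ 2) + σ ^ 2 := by
    ext u
    unfold psi
    split_ifs <;> field_simp <;> ring
  rw [this, int_lin hv h0 h1]
  field_simp; ring

lemma abs_psi_small {v σ u : ℝ} (hv : 0.3 ≤ v) (h0 : 0 < σ) (h1 : σ ≤ 1) (hu : u ≤ 0.1) :
    |psi v σ u| ≤ 1 := by
  have h2 : σ ^ 2 ≤ 1 := by nlinarith
  unfold psi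
  rw [abs_div, abs_of_pos h0, div_le_one h0]
  split_ifs with h
  · rw [abs_of_nonneg (by linarith)]
    have : 1 - σ ^ 2 ≤ 1 / 3 := by nlinarith
    nlinarith
  · rw [zero_sub, abs_neg, abs_of_nonneg (sq_nonneg _)]; nlinarith

lemma abs_BB_le {v σ C : ℝ} (hv : 0 < v) (h0 : 0 < σ) (h1 : σ ≤ 1) {f : ℝ → ℝ}
    (hC : ∀ u, |f u| ≤ C) : |BB v f σ| ≤ C * (2 * v) := by
  have hC0 : 0 ≤ C := (abs_nonneg _).trans (hC 0)
  have hi : Integrable (fun u => |psi v σ u|) (volume.restrict (Ioc 0 v)) :=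
    (int_bdd (measurable_psi' v σ) (ae_of_all _ (abs_psi_le h0 h1))).abs
  calc |BB v f σ| ≤ ∫ u in Ioc 0 v, C * |psi v σ u| := by
        refine norm_integral_le_of_norm_le (f := fun u => psi v σ u * f u) (hi.const_mul C)
          (ae_of_all _ fun u => ?_)
        rw [Real.norm_eq_abs, abs_mul, mul_comm]
        gcongr
        exact hC u
    _ ≤ _ := by rw [integral_const_mul]; gcongr; exact int_abs_psi hv h0 h1

lemma measurable_BB {Ω : Type} [MeasurableSpace Ω] (v : ℝ) {F : ℝ → Ω → ℝ}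
    (hF : Measurable (Function.uncurry F)) :
    Measurable fun p : Ω × ℝ => BB v (fun u => F u p.1) p.2 := by
  refine (StronglyMeasurable.integral_prod_right' (ν := volume.restrict (Ioc 0 v))
    (f := fun q : (Ω × ℝ) × ℝ => psi v q.1.2 q.2 * F q.2 q.1.1)
    (Measurable.stronglyMeasurable ?_)).measurable
  exact ((measurable_psi v).comp (measurable_fst.snd.prodMk measurable_snd)).mul
    (hF.comp (measurable_snd.prodMk measurable_fst.fst))

lemma BB_eq {v σ C : ℝ} (hv : 0 < v) (h0 : 0 < σ) (h1 : σ ≤ 1) {f : ℝ → ℝ} (hf : Measurable f)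
    (hC : ∀ u, |f u| ≤ C) :
    ∫ u in (v * (1 - σ ^ 2))..v, f u = σ * BB v f σ + σ ^ 2 * be v f := by
  obtain ⟨h2, h3⟩ := step_mem hv h0 h1
  have hi : Integrable (fun u => psi v σ u * f u) (volume.restrict (Ioc 0 v)) :=
    int_bdd ((measurable_psi' v σ).mul hf) (C := 1 / σ * C) (ae_of_all _ fun u => by
      rw [abs_mul]; exact mul_le_mul (abs_psi_le h0 h1 u) (hC u) (abs_nonneg _) (by positivity))
  rw [← int_step h2 h3, BB, be, ← integral_const_mul, ← integral_const_mul,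
    ← integral_add (hi.const_mul _) ((int_bdd hf (ae_of_all _ hC)).const_mul _)]
  congr 1
  ext u
  unfold psi
  field_simp
  ring

lemma poly_ineq {τ : ℝ} (h0 : 0 ≤ τ) (h1 : τ ≤ 1) :
    (τ ^ 2 / 3 - 0.47) ^ 2 / 0.3135 +
      ((128 / 315 - 16 / 15 * 0.1672) * τ + 0.1672 ^ 2) / 0.273 ≤ 1 := by
  rw [div_add_div _ _ (by norm_num) (by norm_num), div_le_one (by norm_num)]
  nlinarith [mul_nonneg (mul_nonneg h0 (sub_nonneg.mpr h1)) (sq_nonneg (τ - 0.51)),
    mul_nonneg (sub_nonneg.mpr h1) (sq_nonneg (τ - 0.51)), sq_nonneg (τ - 0.51)]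

lemma int_W (τ z : ℝ) (hτ : 0 < τ) :
    ∫ σ in (0 : ℝ)..τ, (4 * (τ ^ 2 - σ ^ 2) * σ ^ 2 / τ ^ 4 - z) ^ 2 =
      (128 / 315 - 16 / 15 * z) * τ + z ^ 2 * τ := by
  have h : ∀ σ ∈ uIcc (0 : ℝ) τ, HasDerivAt (fun σ : ℝ => 16 / (5 * τ ^ 4) * σ ^ 5 -
      32 / (7 * τ ^ 6) * σ ^ 7 + 16 / (9 * τ ^ 8) * σ ^ 9 - 8 * z / (3 * τ ^ 2) * σ ^ 3 +
      8 * z / (5 * τ ^ 4) * σ ^ 5 + z ^ 2 * σ)
      ((4 * (τ ^ 2 - σ ^ 2) * σ ^ 2 / τ ^ 4 - z) ^ 2) σ := by
    intro σ _
    have := ((((((hasDerivAt_pow 5 σ).const_mul (16 / (5 * τ ^ 4))).sub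
      ((hasDerivAt_pow 7 σ).const_mul (32 / (7 * τ ^ 6)))).add
      ((hasDerivAt_pow 9 σ).const_mul (16 / (9 * τ ^ 8)))).sub
      ((hasDerivAt_pow 3 σ).const_mul (8 * z / (3 * τ ^ 2)))).add
      ((hasDerivAt_pow 5 σ).const_mul (8 * z / (5 * τ ^ 4)))).add
      ((hasDerivAt_id σ).const_mul (z ^ 2))
    refine this.congr_deriv ?_
    push_cast
    field_simp
    ring
  rw [intervalIntegral.integral_eq_sub_of_hasDerivAt h (Continuous.intervalIntegrable
    (by fun_prop) _ _)]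
  field_simp
  ring

lemma amgm {a A c w : ℝ} (hA : 0 < A) (hc : 0 < c) :
    w * a ≤ A * a ^ 2 / (2 * c) + c / 2 * (w ^ 2 / A) := by
  have : A * a ^ 2 / (2 * c) + c / 2 * (w ^ 2 / A) - w * a = (A * a - c * w) ^ 2 / (2 * c * A) := by
    field_simp; ring
  have h2 : 0 ≤ (A * a - c * w) ^ 2 / (2 * c * A) := by positivity
  linarith

section det

variable {v c C : ℝ} {f : ℝ → ℝ}

lemma BB_ii (hv : 0 < v) (hf : Measurable f) (hC : ∀ u, |f u| ≤ C) {p q : ℝ} (hp : 0 ≤ p)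
    (hpq : p ≤ q) (hq : q ≤ 1) {W : ℝ → ℝ} (hW : Continuous W) (k : ℕ) :
    IntervalIntegrable (fun σ => W σ * BB v f σ ^ k) volume p q := by
  refine IntervalIntegrable.continuousOn_mul ?_ hW.continuousOn
  rw [intervalIntegrable_iff_integrableOn_Ioc_of_le hpq]
  have hm : Measurable (BB v f) :=
    Measurable.of_uncurry_left (f := fun (_ : Unit) σ => BB v f σ)
      (measurable_BB (Ω := Unit) v (F := fun u _ => f u) (hf.comp measurable_fst)) (x := ())
  refine int_bdd (hm.pow_const k) (C := (C * (2 * v)) ^ k) ?_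
  filter_upwards [ae_restrict_mem measurableSet_Ioc] with σ hσ
  rw [abs_pow]
  exact pow_le_pow_left₀ (abs_nonneg _) (abs_BB_le hv (hp.trans_lt hσ.1) (hσ.2.trans hq) hC) k

lemma PP_ii (hv : 0 < v) (hf : Measurable f) (hC : ∀ u, |f u| ≤ C) {p q : ℝ} (hp : 0 ≤ p)
    (hpq : p ≤ q) (hq : q ≤ 1) :
    IntervalIntegrable (fun σ => 0.1672 * BB v f σ + 0.273 * BB v f σ ^ 2 / (2 * c))
      volume p q := by
  have h1 := BB_ii hv hf hC hp hpq hq (W := fun _ => 0.1672) continuous_const 1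
  have h2 := BB_ii hv hf hC hp hpq hq (W := fun _ => 0.273) continuous_const 2
  simp only [pow_one] at h1
  exact h1.add (h2.div_const _)

lemma key (hv : 0 < v) (hc : 0 < c) (hf : Measurable f) (hC : ∀ u, |f u| ≤ C) {p q : ℝ}
    (hp : 0 ≤ p) (hpq : p ≤ q) (hq : q ≤ 1) {W : ℝ → ℝ} (hW : Continuous W) :
    ∫ σ in p..q, W σ * BB v f σ ≤
      (∫ σ in p..q, (0.1672 * BB v f σ + 0.273 * BB v f σ ^ 2 / (2 * c))) +
        c / 2 * ((∫ σ in p..q, (W σ - 0.1672) ^ 2) / 0.273) := by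
  have h1 := BB_ii hv hf hC hp hpq hq hW 1
  simp only [pow_one] at h1
  have h3 : IntervalIntegrable (fun σ => c / 2 * ((W σ - 0.1672) ^ 2 / 0.273)) volume p q :=
    Continuous.intervalIntegrable (by fun_prop) _ _
  rw [← intervalIntegral.integral_div, ← intervalIntegral.integral_const_mul,
    ← intervalIntegral.integral_add (PP_ii hv hf hC hp hpq hq) h3]
  refine intervalIntegral.integral_mono_on hpq h1 ((PP_ii hv hf hC hp hpq hq).add h3)
    fun σ _ => ?_
  have := amgm (a := BB v f σ) (w := W σ - 0.1672) (A := 0.273) (by norm_num) hc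
  linarith

lemma key0 (hv : 0 < v) (hc : 0 < c) (hf : Measurable f) (hC : ∀ u, |f u| ≤ C) {p : ℝ}
    (hp : 0 ≤ p) (hp1 : p ≤ 1) :
    0 ≤ (∫ σ in p..1, (0.1672 * BB v f σ + 0.273 * BB v f σ ^ 2 / (2 * c))) +
        c / 2 * (0.1672 ^ 2 * (1 - p) / 0.273) := by
  have := key hv hc hf hC hp hp1 le_rfl (W := fun _ => 0) continuous_const
  simp only [zero_mul, intervalIntegral.integral_const, smul_eq_mul, mul_zero] at this
  convert this using 3
  ring

lemma lin_le (hv : 0 < v) (hc : 0 < c) (hf : Measurable f) (hC : ∀ u, |f u| ≤ C) {m : ℝ}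
    (h0 : 0 ≤ m) (h1 : m ≤ 1) : m * be v f ≤ DD v c f := by
  have h2 := key0 hv hc hf hC le_rfl zero_le_one
  have h3 := amgm (a := be v f) (w := m - 0.47) (A := 0.3135) (by norm_num) hc
  rw [intervalIntegral.integral_of_le zero_le_one] at h2
  have h4 : (m - 0.47) ^ 2 / 0.3135 + 0.1672 ^ 2 * (1 - 0) / 0.273 ≤ 1 := by
    rw [div_add_div _ _ (by norm_num) (by norm_num), div_le_one (by norm_num)]
    nlinarith
  have h5 := mul_le_mul_of_nonneg_left h4 (half_pos hc).le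
  unfold DD
  linarith

lemma tau_le (hv : 0 < v) (hc : 0 < c) (hf : Measurable f) (hC : ∀ u, |f u| ≤ C) {τ : ℝ}
    (h0 : 0 < τ) (h1 : τ ≤ 1) :
    (∫ σ in (0 : ℝ)..τ, 4 * (τ ^ 2 - σ ^ 2) * σ ^ 2 / τ ^ 4 * BB v f σ) + τ ^ 2 / 3 * be v f ≤
      DD v c f := by
  have h2 := key0 hv hc hf hC h0.le h1
  have h3 := amgm (a := be v f) (w := τ ^ 2 / 3 - 0.47) (A := 0.3135) (by norm_num) hc
  have h4 := key hv hc hf hC le_rfl h0.le h1
    (W := fun σ => 4 * (τ ^ 2 - σ ^ 2) * σ ^ 2 / τ ^ 4) (by fun_prop)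
  rw [int_W τ _ h0] at h4
  have h5 := intervalIntegral.integral_add_adjacent_intervals
    (PP_ii (c := c) hv hf hC le_rfl h0.le h1) (PP_ii (c := c) hv hf hC h0.le h1 le_rfl)
  rw [intervalIntegral.integral_of_le zero_le_one] at h5
  have h6 := mul_le_mul_of_nonneg_left (poly_ineq h0.le h1) (half_pos hc).le
  have h7 : c / 2 * (((128 / 315 - 16 / 15 * 0.1672) * τ + 0.1672 ^ 2) / 0.273) =
      c / 2 * (0.1672 ^ 2 * (1 - τ) / 0.273) +
      c / 2 * (((128 / 315 - 16 / 15 * 0.1672) * τ + 0.1672 ^ 2 * τ) / 0.273) := by ring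
  unfold DD
  rw [← h5]
  linarith

lemma cont_F (hf : Measurable f) (hC : ∀ u, |f u| ≤ C) (v : ℝ) :
    Continuous fun w => ∫ u in w..v, f u := by
  have := (intervalIntegral.continuous_primitive (ii_bdd hf hC) v).neg
  refine this.congr fun w => ?_
  simp only [Pi.neg_apply]
  rw [← intervalIntegral.integral_symm]

lemma G3_le (hv : 0 < v) (hc : 0 < c) (hf : Measurable f) (hC : ∀ u, |f u| ≤ C) {w : ℝ}
    (h0 : 0 ≤ w) (h1 : w ≤ v) :
    ∫ x in w..v, (x - w) * ((∫ u in x..v, f u) - DD v c f) ≤ 0 := by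
  rcases h1.eq_or_lt with rfl | h1
  · simp
  set τ := √(1 - w / v) with hτ
  have hw : w / v < 1 := (div_lt_one hv).mpr h1
  have hw0 : 0 ≤ w / v := by positivity
  have t0 : 0 < τ := Real.sqrt_pos.mpr (by linarith)
  have t2 : τ ^ 2 = 1 - w / v := Real.sq_sqrt (by linarith)
  have t1 : τ ≤ 1 := by nlinarith
  have t3 : v * (1 - τ ^ 2) = w := by rw [t2]; field_simp; ring
  have hF := cont_F hf hC v
  have h2 := intervalIntegral.integral_comp_mul_deriv (a := τ) (b := 0)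
    (f := fun σ => v * (1 - σ ^ 2)) (f' := fun σ => -(2 * v * σ))
    (g := fun x => (x - w) * ((∫ u in x..v, f u) - DD v c f))
    (fun σ _ => (((hasDerivAt_pow 2 σ).const_sub 1).const_mul v).congr_deriv
      (by push_cast; ring))
    (by fun_prop) (by fun_prop)
  simp only [t3, ne_eq, OfNat.ofNat_ne_zero, not_false_eq_true, zero_pow, sub_zero, mul_one] at h2
  rw [← h2, intervalIntegral.integral_symm]
  have h3 := tau_le hv hc hf hC t0 t1
  have h4 := BB_ii hv hf hC le_rfl t0.le t1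
    (W := fun σ => 4 * (τ ^ 2 - σ ^ 2) * σ ^ 2 / τ ^ 4) (by fun_prop) 1
  simp only [pow_one] at h4
  have h5 : ∫ σ in (0 : ℝ)..τ, (4 * (τ ^ 2 - σ ^ 2) * σ / τ ^ 4 * (σ ^ 2 * be v f - DD v c f)) =
      τ ^ 2 / 3 * be v f - DD v c f := by
    have h : ∀ σ ∈ uIcc (0 : ℝ) τ, HasDerivAt (fun σ : ℝ => be v f / τ ^ 2 * σ ^ 4 -
        2 * be v f / (3 * τ ^ 4) * σ ^ 6 - 2 * DD v c f / τ ^ 2 * σ ^ 2 + DD v c f / τ ^ 4 * σ ^ 4)
        (4 * (τ ^ 2 - σ ^ 2) * σ / τ ^ 4 * (σ ^ 2 * be v f - DD v c f)) σ := by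
      intro σ _
      have := ((((hasDerivAt_pow 4 σ).const_mul (be v f / τ ^ 2)).sub
        ((hasDerivAt_pow 6 σ).const_mul (2 * be v f / (3 * τ ^ 4)))).sub
        ((hasDerivAt_pow 2 σ).const_mul (2 * DD v c f / τ ^ 2))).add
        ((hasDerivAt_pow 4 σ).const_mul (DD v c f / τ ^ 4))
      refine this.congr_deriv ?_
      push_cast
      field_simp
      ring
    rw [intervalIntegral.integral_eq_sub_of_hasDerivAt h (Continuous.intervalIntegrable
      (by fun_prop) _ _)]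
    field_simp
    ring
  have h6 : ∫ σ in (0 : ℝ)..τ, ((fun x => (x - w) * ((∫ u in x..v, f u) - DD v c f)) ∘
      fun σ => v * (1 - σ ^ 2)) σ * -(2 * v * σ) =
      -(v ^ 2 * τ ^ 4 / 2) * ((∫ σ in (0 : ℝ)..τ, 4 * (τ ^ 2 - σ ^ 2) * σ ^ 2 / τ ^ 4 * BB v f σ) +
        (τ ^ 2 / 3 * be v f - DD v c f)) := by
    rw [← h5, ← intervalIntegral.integral_add h4 (Continuous.intervalIntegrable (by fun_prop) _ _),
      ← intervalIntegral.integral_const_mul, intervalIntegral.integral_of_le t0.le,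
      intervalIntegral.integral_of_le t0.le]
    refine setIntegral_congr_fun measurableSet_Ioc fun σ hσ => ?_
    simp only [Function.comp]
    rw [BB_eq hv hσ.1 (hσ.2.trans t1) hf hC, ← t3]
    field_simp
    ring
  rw [h6]
  have : 0 < v ^ 2 * τ ^ 4 / 2 := by positivity
  nlinarith

lemma hasDerivAt_left {g : ℝ → ℝ} (hg : Continuous g) (v w : ℝ) :
    HasDerivAt (fun w => ∫ x in w..v, g x) (-g w) w :=
  intervalIntegral.integral_hasDerivAt_left (hg.intervalIntegrable _ _)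
    (hg.stronglyMeasurableAtFilter _ _) hg.continuousAt

lemma sinh_le {γ : ℝ → ℝ} (hγ : Continuous γ) (hv : 0 < v)
    (h : ∀ w, 0 ≤ w → w ≤ v → ∫ x in w..v, (x - w) * γ x ≤ 0) {a : ℝ} (ha : 0 ≤ a) :
    ∫ w in (0 : ℝ)..v, sinh (a * w) * γ w ≤ 0 := by
  set G2 : ℝ → ℝ := fun w => ∫ x in w..v, γ x with hG2
  set G3 : ℝ → ℝ := fun w => (∫ x in w..v, x * γ x) - w * G2 w with hG3
  have d2 : ∀ w, HasDerivAt G2 (-γ w) w := hasDerivAt_left hγ v
  have d3 : ∀ w, HasDerivAt G3 (-G2 w) w := fun w => by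
    have := (hasDerivAt_left (g := fun x => x * γ x) (by fun_prop) v w).sub
      ((hasDerivAt_id w).mul (d2 w))
    refine this.congr_deriv ?_
    simp
  have c3 : Continuous G3 := continuous_iff_continuousAt.mpr fun w => (d3 w).continuousAt
  have e3 : ∀ w, 0 ≤ w → w ≤ v → G3 w ≤ 0 := fun w h0 h1 => by
    have := h w h0 h1
    simp only [sub_mul] at this
    rwa [intervalIntegral.integral_sub (Continuous.intervalIntegrable (by fun_prop) _ _)
      (Continuous.intervalIntegrable (by fun_prop) _ _), intervalIntegral.integral_const_mul] at this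
  have d4 : ∀ w ∈ uIcc (0 : ℝ) v, HasDerivAt
      (fun w => -(sinh (a * w) * G2 w) - a * cosh (a * w) * G3 w)
      (sinh (a * w) * γ w - a ^ 2 * sinh (a * w) * G3 w) w := fun w _ => by
    have h1 : HasDerivAt (fun w => a * w) a w := by simpa using (hasDerivAt_id w).const_mul a
    have := ((h1.sinh.mul (d2 w)).neg).sub ((h1.cosh.const_mul a).mul (d3 w))
    refine this.congr_deriv ?_
    ring
  have h5 := intervalIntegral.integral_eq_sub_of_hasDerivAt d4
    (Continuous.intervalIntegrable (by fun_prop) _ _)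
  rw [intervalIntegral.integral_sub (Continuous.intervalIntegrable (by fun_prop) _ _)
    (Continuous.intervalIntegrable (by fun_prop) _ _)] at h5
  have h6 : ∫ w in (0 : ℝ)..v, a ^ 2 * sinh (a * w) * G3 w ≤ 0 := by
    rw [← neg_nonneg, ← intervalIntegral.integral_neg]
    refine intervalIntegral.integral_nonneg hv.le fun w hw => ?_
    have h7 : 0 ≤ sinh (a * w) := Real.sinh_nonneg_iff.mpr (mul_nonneg ha hw.1)
    have h8 := e3 w hw.1 hw.2
    have : 0 ≤ a ^ 2 * sinh (a * w) := by positivity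
    nlinarith
  have h9 : G2 v = 0 := by simp [hG2]
  have h10 : G3 v = 0 := by simp [hG3, h9]
  have h11 := e3 0 le_rfl hv.le
  simp only [h9, h10, mul_zero, sinh_zero, cosh_zero, zero_mul, neg_zero, sub_zero, mul_one] at h5
  nlinarith

lemma int_sinh (a u : ℝ) : ∫ w in (0 : ℝ)..u, a * sinh (a * w) = cosh (a * u) - 1 := by
  have h : ∀ w ∈ uIcc (0 : ℝ) u, HasDerivAt (fun w => cosh (a * w)) (a * sinh (a * w)) w :=
    fun w _ => by
      have h1 : HasDerivAt (fun w => a * w) a w := by simpa using (hasDerivAt_id w).const_mul a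
      simpa [mul_comm] using h1.cosh
  rw [intervalIntegral.integral_eq_sub_of_hasDerivAt h
    (Continuous.intervalIntegrable (by fun_prop) _ _)]
  simp

lemma cosh_eq (hv : 0 < v) (hf : Measurable f) (hC : ∀ u, |f u| ≤ C) {a : ℝ} (ha : 0 ≤ a) :
    ∫ u in (0 : ℝ)..v, f u * cosh (a * u) =
      be v f + ∫ w in (0 : ℝ)..v, a * sinh (a * w) * ∫ u in w..v, f u := by
  have hC0 : 0 ≤ C := (abs_nonneg _).trans (hC 0)
  have hi : Integrable (Function.uncurry fun w u =>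
      a * sinh (a * w) * ((if w < u then 1 else 0) * f u))
      ((volume.restrict (Ioc 0 v)).prod (volume.restrict (Ioc 0 v))) := by
    refine int_bdd (C := a * sinh (a * v) * C) ?_ ?_
    · refine Measurable.mul (by fun_prop) (Measurable.mul ?_ (hf.comp measurable_snd))
      exact Measurable.ite (measurableSet_lt measurable_fst measurable_snd) measurable_const
        measurable_const
    · rw [Measure.prod_restrict]
      filter_upwards [ae_restrict_mem (measurableSet_Ioc.prod measurableSet_Ioc)] with p hp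
      have h7 : 0 ≤ sinh (a * p.1) := Real.sinh_nonneg_iff.mpr (mul_nonneg ha hp.1.1.le)
      have h8 : sinh (a * p.1) ≤ sinh (a * v) :=
        Real.sinh_le_sinh.mpr (mul_le_mul_of_nonneg_left hp.1.2 ha)
      simp only [Function.uncurry]
      rw [abs_mul, abs_of_nonneg (mul_nonneg ha h7)]
      refine mul_le_mul (by gcongr) ?_ (abs_nonneg _) (mul_nonneg ha (h7.trans h8))
      split_ifs
      · simpa using hC _
      · simpa using hC0
  have h1 := integral_integral_swap hi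
  have h2 : ∫ w in (0 : ℝ)..v, a * sinh (a * w) * ∫ u in w..v, f u =
      ∫ w in Ioc 0 v, ∫ u in Ioc 0 v, a * sinh (a * w) * ((if w < u then 1 else 0) * f u) := by
    rw [intervalIntegral.integral_of_le hv.le]
    refine setIntegral_congr_fun measurableSet_Ioc fun w hw => ?_
    rw [integral_const_mul, int_step hw.1.le hw.2]
  have h3 : ∫ u in Ioc 0 v, ∫ w in Ioc 0 v, a * sinh (a * w) * ((if w < u then 1 else 0) * f u) =
      ∫ u in Ioc 0 v, (f u * cosh (a * u) - f u) := by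
    refine setIntegral_congr_fun measurableSet_Ioc fun u hu => ?_
    have : (fun w => a * sinh (a * w) * ((if w < u then 1 else 0) * f u)) =
        (Iio u).indicator fun w => a * sinh (a * w) * f u := by
      ext w; by_cases h : w < u <;> simp [h]
    rw [this, setIntegral_indicator measurableSet_Iio, integral_mul_const,
      show Ioc 0 v ∩ Iio u = Ioo 0 u from by
        ext w; simp only [mem_inter_iff, mem_Ioc, mem_Iio, mem_Ioo]
        exact ⟨fun h => ⟨h.1.1, h.2⟩, fun h => ⟨⟨h.1, h.2.le.trans hu.2⟩, h.2⟩⟩,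
      ← integral_Ioc_eq_integral_Ioo, ← intervalIntegral.integral_of_le hu.1.le, int_sinh]
    ring
  rw [h2, h1, h3, integral_sub ((ii_bdd hf hC 0 v).mul_continuousOn (by fun_prop)).1
    (ii_bdd hf hC 0 v).1, intervalIntegral.integral_of_le hv.le, be]
  ring

theorem det (hv : 0 < v) (hc : 0 < c) (hf : Measurable f) (hC : ∀ u, |f u| ≤ C) :
    0 ≤ DD v c f ∧ ∀ a, 0 ≤ a →
      ∫ u in (0 : ℝ)..v, f u * cosh (a * u) ≤ cosh (a * v) * DD v c f := by
  refine ⟨by simpa using lin_le hv hc hf hC le_rfl zero_le_one, fun a ha => ?_⟩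
  have h1 := lin_le hv hc hf hC zero_le_one le_rfl
  have hF := cont_F hf hC v
  have h2 := sinh_le (γ := fun w => (∫ u in w..v, f u) - DD v c f) (by fun_prop) hv
    (fun w h0 h1 => G3_le hv hc hf hC h0 h1) ha
  have h3 : ∫ w in (0 : ℝ)..v, a * sinh (a * w) * ∫ u in w..v, f u =
      (a * ∫ w in (0 : ℝ)..v, sinh (a * w) * ((∫ u in w..v, f u) - DD v c f)) +
        (cosh (a * v) - 1) * DD v c f := by
    rw [← int_sinh, ← intervalIntegral.integral_const_mul, ← intervalIntegral.integral_mul_const,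
      ← intervalIntegral.integral_add (Continuous.intervalIntegrable (by fun_prop) _ _)
        (Continuous.intervalIntegrable (by fun_prop) _ _)]
    congr 1
    ext w
    ring
  rw [cosh_eq hv hf hC ha, h3]
  nlinarith [mul_nonpos_of_nonneg_of_nonpos ha h2]

end det

end Pool.Agent.Eps.Tst
end
end
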