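import Pool.Agent.Lib.MP_3bda03_nt.Fiber
import Pool.Agent.Lib.MP_3bda03_nt.TestA
import Pool.Agent.Lib.MP_3bda03_nt.Ana

-- part Pool.Agent.Lib.MP_3bda03_nt.TestD
section

/-!
The paraboloid test: numerical facts in large dimension, the covariance kernel on the near range.
-/

set_option autoImplicit false

noncomputable section

open scoped Topology
open MeasureTheory Real Set Filter

namespace Pool.Agent.Eps.Tst

/-- end of the near range -/
def vv (n : ℕ) : ℝ := Real.log ((n : ℝ) / 4 / (π * rho1 n)) - 100 / √n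

def SS (n : ℕ) : ℝ := rexp (-((n : ℝ) / 4) * Real.log 2)

def de (n : ℕ) : ℝ := SS n / √n

/-- total mass of the drift -/
def D0 (n : ℕ) : ℝ := 2 * TT n * ((1 / (π * rho1 n)) ^ ((n : ℝ) / 4) * Gamma ((n : ℝ) / 4))

structure Big (n : ℕ) : Prop where
  lb : (n : ℝ) / (2 * rexp 1) ≤ π * rho1 n
  ex : ∀ τ ∈ Icc (0 : ℝ) 4, rexp (π * τ * (rho1 n + 1)) ≤ (n : ℝ) ^ 4 * rexp (τ * n / (2 * rexp 1))
  r : 10 ^ 11 ≤ √(n : ℝ)
  v : 0.3 ≤ vv n
  p : 12 * (n : ℝ) ^ 8 ≤ rexp (0.000025 * n)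
  far : 3 * rexp 10201 * Real.log (1 + √n) ≤ 1e-12 * √n

lemma e_lb : 2.718 < rexp 1 := lt_trans (by norm_num) Real.exp_one_gt_d9

lemma e_ub : rexp 1 < 2.719 := lt_trans Real.exp_one_lt_d9 (by norm_num)

lemma big : ∀ᶠ n : ℕ in atTop, Big n := by
  have hs : Tendsto (fun n : ℕ => √(n : ℝ)) atTop atTop :=
    tendsto_sqrt_atTop.comp tendsto_natCast_atTop_atTop
  have h1 := (Real.isLittleO_log_id_atTop.def (c := 1e-12 / (6 * rexp 10201)) (by positivity))
  have h2 := (tendsto_atTop_add_const_left atTop 1 hs).eventually h1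
  filter_upwards [rho1_lb, rho1_exp_le, hs.eventually_ge_atTop (10 ^ 11), gr_rho1_key,
    gr_ev_log_sq (ε := 0.001) (by norm_num), gr_ev_log_ge 1, En_pow_le 12 8 (ε := 0.000025)
    (by norm_num), h2, gr_ev_ge 1] with n a1 a2 a3 a4 a5 a6 a7 a8 a9
  have n0 : (0 : ℝ) < n := by linarith
  have x0 : 0 < π * rho1 n := lt_of_lt_of_le (by positivity) a1
  refine ⟨a1, a2, a3, ?_, ?_, ?_⟩
  · have b1 : rexp 1 / 2 / 1.004 ≤ (n : ℝ) / 4 / (π * rho1 n) := by
      rw [div_le_div_iff₀ (by norm_num) x0]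
      nlinarith
    have b2 := Real.log_le_log (by positivity) b1
    rw [Real.log_div (by positivity) (by norm_num), Real.log_div (by positivity) (by norm_num),
      Real.log_exp] at b2
    have b3 := Real.log_le_sub_one_of_pos (show (0 : ℝ) < 1.004 by norm_num)
    have b4 : 100 / √(n : ℝ) ≤ 0.001 := by
      rw [div_le_iff₀ (by positivity)]; linarith
    have := Real.log_two_lt_d9
    unfold vv
    linarith
  · exact (le_mul_of_one_le_right (by positivity) (one_le_pow₀ (one_le_En n))).trans a7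
  · simp only [id, Real.norm_eq_abs] at a8
    rw [abs_of_pos (show 0 < 1 + √(n : ℝ) by positivity)] at a8
    have b1 := (le_abs_self _).trans a8
    have b2 : 0 < rexp 10201 := exp_pos _
    calc _ ≤ 3 * rexp 10201 * (1e-12 / (6 * rexp 10201) * (2 * √n)) := by
          refine mul_le_mul_of_nonneg_left (b1.trans ?_) (by positivity)
          exact mul_le_mul_of_nonneg_left (by linarith) (by positivity)
      _ = _ := by field_simp; norm_num

section

variable {n : ℕ}

lemma Big.rpos (h : Big n) : 0 < √(n : ℝ) := lt_of_lt_of_le (by norm_num) h.r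

lemma rsq (n : ℕ) : √(n : ℝ) * √(n : ℝ) = n := Real.mul_self_sqrt (Nat.cast_nonneg n)

lemma Big.rn (h : Big n) : 10 ^ 11 * √(n : ℝ) ≤ n := by
  nth_rewrite 2 [← rsq n]
  exact mul_le_mul_of_nonneg_right h.r h.rpos.le

lemma Big.n_ge (h : Big n) : (10 : ℝ) ^ 22 ≤ n := by nlinarith [h.rn, h.r]

lemma Big.npos (h : Big n) : (0 : ℝ) < n := lt_of_lt_of_le (by norm_num) h.n_ge

lemma Big.one_le (h : Big n) : 1 ≤ n := by
  have := h.npos
  exact_mod_cast this

lemma Big.xpos (h : Big n) : 0 < π * rho1 n :=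
  lt_of_lt_of_le (by have := h.npos; positivity) h.lb

lemma Big.rho_pos (h : Big n) : 0 < rho1 n := (pos_iff_pos_of_mul_pos h.xpos).mp Real.pi_pos

lemma Big.t0_le (h : Big n) : (n : ℝ) / 4 / (π * rho1 n) ≤ rexp 1 / 2 := by
  have := h.lb
  rw [div_le_iff₀ (by positivity)] at this
  rw [div_le_iff₀ h.xpos]
  linarith

lemma Big.x_exp (h : Big n) (u : ℝ) :
    π * rho1 n * rexp u = n / 4 * rexp (u - vv n - 100 / √n) := by
  have := h.xpos
  have := h.npos
  rw [vv, sub_sub, sub_add_cancel, Real.exp_sub, Real.exp_log (by positivity)]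
  field_simp

lemma Big.v_le (h : Big n) : vv n ≤ 0.30686 := by
  have b2 := Real.log_le_log (by have := h.xpos; have := h.npos; positivity) h.t0_le
  rw [Real.log_div (by positivity) two_ne_zero, Real.log_exp] at b2
  have := Real.log_two_gt_d9
  have : 0 ≤ 100 / √(n : ℝ) := by positivity
  unfold vv
  linarith

lemma Big.exp_le (h : Big n) {u : ℝ} (hu : u ≤ vv n) : rexp u ≤ 1.36 := by
  have h1 : u ≤ Real.log ((n : ℝ) / 4 / (π * rho1 n)) :=
    hu.trans (sub_le_self _ (by positivity))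
  have h2 := exp_le_exp.mpr h1
  rw [Real.exp_log (by have := h.xpos; have := h.npos; positivity)] at h2
  linarith [h.t0_le, e_ub]

lemma Big.le_exp (h : Big n) {u : ℝ} (hu : vv n ≤ u) : 1.34 ≤ rexp u := by
  have h1 := Real.quadratic_le_exp_of_nonneg (show (0 : ℝ) ≤ 0.3 by norm_num)
  have h2 := exp_le_exp.mpr (h.v.trans hu)
  linarith

/-- polynomial factors against any exponential rate that is used -/
lemma Big.poly (h : Big n) {j : ℕ} (hj : j ≤ 8) {ε : ℝ} (hε : 0.000025 ≤ ε) :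
    12 * (n : ℝ) ^ j * rexp (-(ε * n)) ≤ 1 := by
  have h1 : (1 : ℝ) ≤ n := by exact_mod_cast h.one_le
  rw [Real.exp_neg, ← div_eq_mul_inv, div_le_one (exp_pos _)]
  calc _ ≤ 12 * (n : ℝ) ^ 8 := by gcongr
    _ ≤ _ := h.p.trans (exp_le_exp.mpr (by gcongr))

lemma SS_pos (n : ℕ) : 0 < SS n := exp_pos _

lemma Big.de_pos (h : Big n) : 0 < de n := div_pos (SS_pos n) h.rpos

lemma de_sq (n : ℕ) : de n ^ 2 = SS n ^ 2 / n := by
  rw [de, div_pow, Real.sq_sqrt (Nat.cast_nonneg n)]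

lemma Big.T_ge (h : Big n) : 10 ^ 20 ≤ TT n := by
  unfold TT; linarith [h.n_ge]

lemma Big.D0_pos (h : Big n) : 0 < D0 n := by
  have := h.xpos
  have := h.T_ge
  have := Gamma_pos_of_pos (show 0 < (n : ℝ) / 4 by linarith [h.npos])
  unfold D0
  positivity

lemma Big.D0_sq (h : Big n) :
    D0 n ^ 2 = 0.308 * (Gamma ((n : ℝ) / 4) ^ 2 / Gamma (2 * ((n : ℝ) / 4))) := by
  have n0 := h.npos
  have h1 := rho1_pow n h.one_le
  have g : 0 < Gamma ((n : ℝ) / 2) := Gamma_pos_of_pos (by linarith)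
  have h2 : ((1 / (π * rho1 n)) ^ ((n : ℝ) / 4)) ^ 2 = 1 / (TT n * (n / 2 * Gamma (n / 2))) := by
    rw [← Gamma_add_one (by positivity), ← h1, ← Real.rpow_natCast,
      ← Real.rpow_mul (by have := h.xpos; positivity), Real.div_rpow zero_le_one h.xpos.le,
      Real.one_rpow]
    congr 2
    push_cast; ring
  rw [D0, mul_pow, mul_pow, mul_pow, h2, show 2 * ((n : ℝ) / 4) = n / 2 by ring, TT]
  field_simp
  norm_num

lemma sqrt_quarter (n : ℕ) : √((n : ℝ) / 4) = √n / 2 := by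
  rw [Real.sqrt_div (Nat.cast_nonneg n), show (4 : ℝ) = 2 ^ 2 by norm_num, Real.sqrt_sq zero_le_two]

lemma Big.de_le (h : Big n) : 200000 * de n ≤ D0 n := by
  have h1 := gamma_ratio (s := (n : ℝ) / 4) (by linarith [h.npos])
  rw [sqrt_quarter] at h1
  refine le_of_sq_le_sq ?_ h.D0_pos.le
  rw [mul_pow, de_sq, h.D0_sq, ← mul_div_assoc, div_le_iff₀ h.npos]
  change SS n ^ 2 ≤ _ at h1
  generalize Gamma ((n : ℝ) / 4) ^ 2 / Gamma (2 * ((n : ℝ) / 4)) = g at *
  have g0 : 0 ≤ √n * g := by nlinarith [sq_nonneg (SS n)]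
  have g1 : 0 ≤ g := (mul_nonneg_iff_of_pos_left h.rpos).mp g0
  nlinarith [mul_le_mul_of_nonneg_right h.rn g1]

lemma a2_nonneg (n : ℕ) (ρ : ℝ) : 0 ≤ a2 n ρ := le_max_left _ _

lemma a2_le_one (n : ℕ) (ρ : ℝ) : a2 n ρ ≤ 1 := max_le zero_le_one (min_le_left _ _)

lemma a2_eq_one {ρ : ℝ} (hρ : ρ ≤ rho1 n) : a2 n ρ = 1 := by
  have h1 : rexp n * rexp (-n) = 1 := by rw [← Real.exp_add]; simp
  have h2 : 1 ≤ rexp n * (rho1 n + rexp (-n) - ρ) := by
    nlinarith [mul_nonneg (exp_pos (n : ℝ)).le (sub_nonneg.mpr hρ)]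
  rw [a2, ramp, min_eq_left h2, max_eq_right zero_le_one]

lemma a2_eq_zero {ρ : ℝ} (hρ : rho1 n + 1 ≤ ρ) : a2 n ρ = 0 := by
  have h1 : rexp (-(n : ℝ)) ≤ 1 := Real.exp_le_one_iff.mpr (by simp)
  have h2 : rexp n * (rho1 n + rexp (-n) - ρ) ≤ 0 :=
    mul_nonpos_of_nonneg_of_nonpos (exp_pos _).le (by linarith)
  rw [a2, ramp, max_eq_left ((min_le_right _ _).trans h2)]

lemma continuous_a2 (n : ℕ) : Continuous (a2 n) := by
  unfold a2 ramp
  fun_prop

lemma ft_pos (t ρ : ℝ) : 0 < ft t ρ := exp_pos _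

lemma ft_add (t t' ρ : ℝ) : ft (t + t') ρ = ft t ρ * ft t' ρ := by
  unfold ft
  rw [← Real.exp_add]; congr 1; ring

lemma In_ft_e (n : ℕ) : In n (ft (rexp 1)) = rexp (-(n : ℝ) / 2) := by
  rw [In_ft n (exp_pos 1), ← Real.exp_mul, one_mul]

lemma Big.ball_maj (h : Big n) {τ : ℝ} (h0 : 0 ≤ τ) (h1 : τ ≤ rexp 1) (ρ : ℝ) :
    ft τ ρ * a2 n ρ ≤
      (n : ℝ) ^ 4 * rexp (-(τ * n / (2 * rexp 1))) * rexp (n / 2) * ft (rexp 1) ρ := by
  by_cases hρ : rho1 n + 1 ≤ ρ
  · rw [a2_eq_zero hρ, mul_zero]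
    have := ft_pos (rexp 1) ρ
    positivity
  have h2 := h.ex (rexp 1 - τ) ⟨by linarith, by linarith [e_ub]⟩
  have h3 : (rexp 1 - τ) * n / (2 * rexp 1) = -(τ * n / (2 * rexp 1)) + n / 2 := by
    field_simp; ring
  rw [h3, Real.exp_add, ← mul_assoc] at h2
  refine (mul_le_of_le_one_right (ft_pos _ _).le (a2_le_one n ρ)).trans
    (le_trans ?_ (mul_le_mul_of_nonneg_right h2 (ft_pos _ _).le))
  unfold ft
  rw [← Real.exp_add, exp_le_exp]
  nlinarith [mul_nonneg (mul_nonneg Real.pi_pos.le (sub_nonneg.mpr h1))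
    (show 0 ≤ rho1 n + 1 - ρ by linarith)]

lemma abs_In_le {φ : ℝ → ℝ} {τ c : ℝ} (hτ : 0 < τ)
    (hφ : ∀ ρ, |φ ρ| ≤ ft τ ρ + c * ft (rexp 1) ρ) :
    |In n φ| ≤ τ ^ (-(n : ℝ) / 2) + c * rexp (-(n : ℝ) / 2) := by
  have i1 := integrable_ft n hτ
  have i2 := (integrable_ft n (exp_pos 1)).const_mul c
  rw [← In_ft n hτ, ← In_ft_e, In, In, In, ← integral_const_mul, ← integral_add i1 i2]
  exact norm_integral_le_of_norm_le (f := fun y : Ev n => φ (‖y‖ ^ 2)) (i1.add i2)
    (ae_of_all _ fun y => hφ _)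

lemma G_le (n : ℕ) (u : ℝ) :
    rexp ((n : ℝ) / 4 * u) * rexp (-(rexp u * n / (2 * rexp 1))) ≤ SS n := by
  have h1 := Real.add_one_le_exp (u - 1 + Real.log 2)
  rw [Real.exp_add, Real.exp_log two_pos, Real.exp_sub] at h1
  rw [← Real.exp_add, SS, exp_le_exp, show rexp u * n / (2 * rexp 1) =
    n / 4 * (rexp u / rexp 1 * 2) by field_simp; ring]
  nlinarith [mul_le_mul_of_nonneg_left h1 (show (0 : ℝ) ≤ n / 4 by positivity)]

lemma G_neg_le (n : ℕ) {u : ℝ} (hu : 0 ≤ u) :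
    rexp ((n : ℝ) / 4 * -u) * rexp (-(rexp (-u) * n / (2 * rexp 1))) ≤
      SS n * rexp (-(0.01 * n)) := by
  have h1 := Real.add_one_le_exp (-u)
  have h2 : 0.7355 ≤ 2 / rexp 1 := by rw [le_div_iff₀ (exp_pos 1)]; linarith [e_ub]
  have h3 : 2 / rexp 1 ≤ 1 := by rw [div_le_one (exp_pos 1)]; linarith [e_lb]
  have h4 := Real.log_two_lt_d9
  have h5 : Real.log 2 + 0.04 ≤ u + rexp (-u) * (2 / rexp 1) := by nlinarith
  rw [← Real.exp_add, SS, ← Real.exp_add, exp_le_exp, show rexp (-u) * n / (2 * rexp 1) =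
    n / 4 * (rexp (-u) * (2 / rexp 1)) by field_simp; ring]
  nlinarith [mul_le_mul_of_nonneg_left h5 (show (0 : ℝ) ≤ n / 4 by positivity)]

lemma abs_hh_le' {u : ℝ} (hu : rexp u ≤ 3 / 2) (ρ : ℝ) :
    |hh n (rexp u) ρ| ≤ ft (rexp u) ρ + rexp (u * (-(n : ℝ) / 2)) * (ft (rexp (-u)) ρ * a2 n ρ) := by
  rw [hh, if_pos hu, ← Real.exp_mul, ← Real.exp_neg, mul_assoc]
  have h1 := a2_nonneg n ρ
  have h2 := a2_le_one n ρ
  have h3 := ft_pos (rexp u) ρ
  have h4 : 0 ≤ rexp (u * (-(n : ℝ) / 2)) * (ft (rexp (-u)) ρ * a2 n ρ) := by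
    have := ft_pos (rexp (-u)) ρ
    positivity
  rw [abs_le]
  constructor <;> nlinarith

lemma Big.kernel (h : Big n) {u u' : ℝ} (h0 : 0 ≤ u) (h1 : u ≤ vv n) (h0' : 0 ≤ u')
    (h1' : u' ≤ vv n) :
    |In n (fun ρ => hh n (rexp u) ρ * hh n (rexp u') ρ)| *
      (rexp ((n : ℝ) / 4 * u) * rexp ((n : ℝ) / 4 * u')) ≤ K0 (n / 4) u u' + de n ^ 2 / 4 := by
  have t1 := h.exp_le h1
  have t2 := h.exp_le h1'
  have t3 : rexp (-u) ≤ 1 := Real.exp_le_one_iff.mpr (by linarith)
  have t4 : rexp (-u') ≤ 1 := Real.exp_le_one_iff.mpr (by linarith)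
  have he := e_lb
  set X : ℝ → ℝ := fun τ => rexp (-(τ * n / (2 * rexp 1))) with hX
  have XA : ∀ a b, X (a + b) = X a * X b := fun a b => by
    simp only [hX]; rw [← Real.exp_add]; congr 1; ring
  set w : ℝ → ℝ := fun y => rexp (y * (-(n : ℝ) / 2)) with hw
  have key := abs_In_le (n := n) (φ := fun ρ => hh n (rexp u) ρ * hh n (rexp u') ρ)
    (τ := rexp u + rexp u') (c := (n : ℝ) ^ 4 * rexp (n / 2) * (w u' * X (rexp u + rexp (-u')) +
      w u * X (rexp (-u) + rexp u') + w u * w u' * X (rexp (-u) + rexp (-u')))) (by positivity)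
    fun ρ => by
      have b1 := h.ball_maj (τ := rexp u + rexp (-u')) (by positivity) (by linarith) ρ
      have b2 := h.ball_maj (τ := rexp (-u) + rexp u') (by positivity) (by linarith) ρ
      have b3 := h.ball_maj (τ := rexp (-u) + rexp (-u')) (by positivity) (by linarith) ρ
      rw [ft_add] at b1 b2 b3
      have c1 := mul_le_mul_of_nonneg_left b1 (exp_pos (u' * (-(n : ℝ) / 2))).le
      have c2 := mul_le_mul_of_nonneg_left b2 (exp_pos (u * (-(n : ℝ) / 2))).le
      have c3 := mul_le_mul_of_nonneg_left ((mul_le_of_le_one_right (mul_nonneg (mul_pos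
        (ft_pos _ _) (ft_pos _ _)).le (a2_nonneg n ρ)) (a2_le_one n ρ)).trans b3)
        (mul_pos (exp_pos (u * (-(n : ℝ) / 2))) (exp_pos (u' * (-(n : ℝ) / 2)))).le
      rw [abs_mul, ft_add]
      refine (mul_le_mul (abs_hh_le' (by linarith) ρ) (abs_hh_le' (by linarith) ρ) (abs_nonneg _)
        ((abs_nonneg _).trans (abs_hh_le' (n := n) (u := u) (by linarith) ρ))).trans ?_
      simp only [hw, hX]
      linarith
  refine (mul_le_mul_of_nonneg_right key (by positivity)).trans ?_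
  rw [add_mul, K0_eq, show -(2 * ((n : ℝ) / 4)) = -(n : ℝ) / 2 by ring]
  refine add_le_add le_rfl ?_
  have e0 : rexp (n / 2) * rexp (-(n : ℝ) / 2) = 1 := by
    rw [← Real.exp_add, show (n : ℝ) / 2 + -(n : ℝ) / 2 = 0 by ring, Real.exp_zero]
  have e1 : ∀ y, w y * rexp ((n : ℝ) / 4 * y) = rexp ((n : ℝ) / 4 * -y) := fun y => by
    simp only [hw]; rw [← Real.exp_add]; congr 1; ring
  have g1 : rexp ((n : ℝ) / 4 * u) * X (rexp u) ≤ SS n := G_le n u
  have g2 : rexp ((n : ℝ) / 4 * u') * X (rexp u') ≤ SS n := G_le n u'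
  have g3 : w u * rexp ((n : ℝ) / 4 * u) * X (rexp (-u)) ≤ SS n * rexp (-(0.01 * n)) := by
    rw [e1]; exact G_neg_le n h0
  have g4 : w u' * rexp ((n : ℝ) / 4 * u') * X (rexp (-u')) ≤ SS n * rexp (-(0.01 * n)) := by
    rw [e1]; exact G_neg_le n h0'
  have g5 : w u * rexp ((n : ℝ) / 4 * u) * X (rexp (-u)) ≤ SS n := by
    rw [e1]; exact G_le n (-u)
  have p1 := mul_le_mul g1 g4 (by positivity) (SS_pos n).le
  have p2 := mul_le_mul g2 g3 (by positivity) (SS_pos n).le
  have p3 := mul_le_mul g5 g4 (by positivity) (SS_pos n).le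
  have p4 := h.poly (j := 5) (by norm_num) (ε := 0.01) (by norm_num)
  have n0 := h.npos
  calc _ = (n : ℝ) ^ 4 * (rexp (n / 2) * rexp (-(n : ℝ) / 2)) *
        (rexp ((n : ℝ) / 4 * u) * X (rexp u) * (w u' * rexp ((n : ℝ) / 4 * u') * X (rexp (-u'))) +
        rexp ((n : ℝ) / 4 * u') * X (rexp u') * (w u * rexp ((n : ℝ) / 4 * u) * X (rexp (-u))) +
        w u * rexp ((n : ℝ) / 4 * u) * X (rexp (-u)) *
          (w u' * rexp ((n : ℝ) / 4 * u') * X (rexp (-u')))) := by
        rw [XA, XA, XA]; ring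
    _ ≤ (n : ℝ) ^ 4 * 1 * (3 * (SS n * (SS n * rexp (-(0.01 * n))))) := by
        rw [e0]; gcongr; linarith
    _ = 12 * (n : ℝ) ^ 5 * rexp (-(0.01 * n)) * (SS n ^ 2 / n / 4) := by field_simp; ring
    _ ≤ _ := by
        rw [de_sq]
        exact mul_le_of_le_one_left (by positivity) p4

lemma Nt_near {u : ℝ} (hu : rexp u ≤ 1.38) : Nt n (rexp u) * rexp ((n : ℝ) / 4 * u) = SS n := by
  rw [Nt, if_pos hu, Real.rpow_def_of_pos (by positivity), Real.log_mul two_ne_zero (exp_pos u).ne',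
    Real.log_exp, ← Real.exp_add, SS]
  congr 1; ring

lemma Big.eps_le (h : Big n) : rexp (-0.0003 * n) ≤ 1 / (12 * n) := by
  have := h.poly (j := 1) (by norm_num) (ε := 0.0003) (by norm_num)
  rw [le_div_iff₀ (by have := h.npos; positivity), neg_mul]
  linarith

lemma Big.eps_S (h : Big n) : rexp (-0.0003 * n) * SS n ≤ de n := by
  rw [de, div_eq_inv_mul, inv_eq_one_div]
  refine mul_le_mul_of_nonneg_right (h.eps_le.trans (one_div_le_one_div_of_le h.rpos ?_))
    (SS_pos n).le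
  linarith [h.rn, h.rpos]

lemma Big.mirror2 (h : Big n) {u u' : ℝ} (h0 : 0 ≤ u) (h1 : rexp u ≤ 1.1) (h0' : 0 ≤ u')
    (h1' : rexp u' ≤ 1.1) :
    (1 + rexp u * rexp u') ^ (-2 * mh n) * (rexp ((n : ℝ) / 4 * u) * rexp ((n : ℝ) / 4 * u')) ≤
      1.5 * (bump (n / 4) u * bump (n / 4) u') := by
  have h2 := mir (s := (n : ℝ) / 4) (by linarith [h.n_ge]) h0 h0'
  have h3 : 0 < rexp u * rexp u' := by positivity
  have h4 : rexp u * rexp u' ≤ 1.1 * 1.1 := mul_le_mul h1 h1' (exp_pos _).le (by norm_num)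
  have h5 : (1 + rexp u * rexp u') ^ (-2 * mh n) ≤
      1.5 * (1 + rexp u * rexp u') ^ (-(2 * ((n : ℝ) / 4))) := by
    refine (Real.rpow_le_rpow_of_exponent_le (by linarith)
      (show -2 * mh n ≤ 1 / 2 + -(2 * ((n : ℝ) / 4)) by linarith [(mh_le n).1])).trans ?_
    rw [Real.rpow_add (by linarith), ← Real.sqrt_eq_rpow]
    exact mul_le_mul_of_nonneg_right (Real.sqrt_le_iff.mpr ⟨by norm_num, by linarith⟩)
      (by positivity)
  calc _ ≤ 1.5 * (1 + rexp u * rexp u') ^ (-(2 * ((n : ℝ) / 4))) *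
        (rexp ((n : ℝ) / 4 * u) * rexp ((n : ℝ) / 4 * u')) := by gcongr
    _ ≤ _ := by rw [mul_assoc]; gcongr

lemma Big.mirror1 (h : Big n) {u : ℝ} (h0 : 0 ≤ u) (h1 : rexp u ≤ 1.1) :
    (rexp u ^ 2 + 1) ^ (-mh n) * rexp ((n : ℝ) / 4 * u) ≤ 1.3 * bump (n / 4) u := by
  have h2 := h.mirror2 h0 h1 h0 h1
  have h3 := bump_nonneg (s := (n : ℝ) / 4) (by positivity) u
  refine le_of_sq_le_sq ?_ (by positivity)
  rw [mul_pow, ← Real.rpow_natCast, ← Real.rpow_mul (by positivity),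
    show rexp u ^ 2 + 1 = 1 + rexp u * rexp u by ring,
    show -mh n * ((2 : ℕ) : ℝ) = -2 * mh n by push_cast; ring, sq]
  nlinarith [mul_nonneg h3 h3]

end

end Pool.Agent.Eps.Tst
end
end

-- part Pool.Agent.Lib.MP_3bda03_nt.TestE
section

/-!
The paraboloid test: the drift and the far range.
-/

set_option autoImplicit false

noncomputable section

open scoped Topology
open MeasureTheory Real Set Filter

namespace Pool.Agent.Eps.Tst

variable {n : ℕ}

lemma log3_lb : 1.02 ≤ Real.log 3 := by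
  have h1 := Real.one_sub_inv_le_log_of_pos (show (0 : ℝ) < 3 / 2 by norm_num)
  rw [Real.log_div (by norm_num) two_ne_zero] at h1
  linarith [Real.log_two_gt_d9]

lemma log3_ub : Real.log 3 ≤ 1.2 := by
  have h1 := Real.log_le_sub_one_of_pos (show (0 : ℝ) < 3 / 2 by norm_num)
  rw [Real.log_div (by norm_num) two_ne_zero] at h1
  linarith [Real.log_two_lt_d9]

lemma Big.inv_r (h : Big n) : 1 / √(n : ℝ) ≤ 1e-11 := by
  rw [div_le_iff₀ h.rpos]; linarith [h.r]

lemma Big.x_ge (h : Big n) (u : ℝ) :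
    n / 4 * (1 + (u - vv n) - 100 * (1 / √n)) ≤ π * rho1 n * rexp u := by
  rw [h.x_exp]
  refine mul_le_mul_of_nonneg_left ?_ (by positivity)
  have := Real.add_one_le_exp (u - vv n - 100 / √n)
  rw [mul_one_div]
  linarith

lemma Big.c_rho (h : Big n) :
    π ^ ((n : ℝ) / 2) / Gamma ((n : ℝ) / 2) * rho1 n ^ ((n : ℝ) / 2) = TT n * (n / 2) := by
  have n0 := h.npos
  have g : 0 < Gamma ((n : ℝ) / 2) := Gamma_pos_of_pos (by linarith)
  rw [div_mul_eq_mul_div, ← Real.mul_rpow Real.pi_pos.le h.rho_pos.le, rho1_pow n h.one_le,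
    Gamma_add_one (by positivity)]
  field_simp

lemma Big.c_pos (h : Big n) : 0 < π ^ ((n : ℝ) / 2) / Gamma ((n : ℝ) / 2) := by
  have := Gamma_pos_of_pos (show 0 < (n : ℝ) / 2 by linarith [h.npos])
  have := Real.pi_pos
  positivity

lemma Big.drift (h : Big n) {u : ℝ} (hu : vv n ≤ u) :
    1.999 * TT n * ft (rexp u) (rho1 n) ≤ In n (fun ρ => ft (rexp u) ρ * a2 n ρ) := by
  have n0 := h.npos
  have r0 := h.rho_pos
  set t := rexp u with ht
  have t0 : 0 < t := exp_pos u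
  set b : ℝ := 0.9998 * (n / 4) with hb
  set κ : ℝ := 1.0002 * (n / 4) with hκ
  have k0 : 0 < κ := by positivity
  have hx : b ≤ 0.9999 * (π * rho1 n * t) := by
    have h1 := h.x_ge u
    have h2 := h.inv_r
    have h3 : (n : ℝ) / 4 * 0.9999 ≤ n / 4 * (1 + (u - vv n) - 100 * (1 / √n)) :=
      mul_le_mul_of_nonneg_left (by linarith) (by positivity)
    linarith
  have hi : IntegrableOn (fun ρ : ℝ => ρ ^ ((n : ℝ) / 2 - 1) * (ft t ρ * a2 n ρ)) (Ioi 0) := by
    refine (int_gam (a := (n : ℝ) / 2) (x := π * t) (by positivity) (by positivity)).mono'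
      (Measurable.aestronglyMeasurable ?_) ?_
    · exact (measurable_id.pow_const _).mul
        (Continuous.measurable (Continuous.mul (by unfold ft; fun_prop) (continuous_a2 n)))
    · filter_upwards [ae_restrict_mem measurableSet_Ioi] with ρ hρ
      have h1 : 0 ≤ ρ ^ ((n : ℝ) / 2 - 1) := Real.rpow_nonneg (le_of_lt hρ) _
      rw [Real.norm_of_nonneg (mul_nonneg h1 (mul_nonneg (ft_pos _ _).le (a2_nonneg n ρ)))]
      refine mul_le_mul_of_nonneg_left
        ((mul_le_of_le_one_right (ft_pos _ _).le (a2_le_one n ρ)).trans (le_of_eq ?_)) h1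
      unfold ft; congr 1; ring
  have hle : 0.9999 * rho1 n ≤ rho1 n := by linarith
  have h1 : ∫ ρ in Ioc (0.9999 * rho1 n) (rho1 n), ρ ^ ((n : ℝ) / 2 - 1) * (ft t ρ * a2 n ρ) ≤
      ∫ ρ in Ioi (0 : ℝ), ρ ^ ((n : ℝ) / 2 - 1) * (ft t ρ * a2 n ρ) := by
    refine setIntegral_mono_set hi ?_ (LE.le.eventuallyLE
      (show Ioc (0.9999 * rho1 n) (rho1 n) ⊆ Ioi 0 from fun ρ hρ => lt_trans (by positivity) hρ.1))
    filter_upwards [ae_restrict_mem measurableSet_Ioi] with ρ hρ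
    exact mul_nonneg (Real.rpow_nonneg (le_of_lt hρ) _)
      (mul_nonneg (ft_pos _ _).le (a2_nonneg n ρ))
  have h2 : ∫ ρ in Ioc (0.9999 * rho1 n) (rho1 n), rho1 n ^ b * ft t (rho1 n) * ρ ^ (κ - 1) ≤
      ∫ ρ in Ioc (0.9999 * rho1 n) (rho1 n), ρ ^ ((n : ℝ) / 2 - 1) * (ft t ρ * a2 n ρ) := by
    refine setIntegral_mono_on
      ((intervalIntegral.intervalIntegrable_rpow' (by linarith)).1.const_mul _)
      (hi.mono_set fun ρ hρ => lt_trans (by positivity) hρ.1) measurableSet_Ioc fun ρ hρ => ?_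
    have p0 : 0 < ρ := lt_trans (by positivity) hρ.1
    rw [a2_eq_one hρ.2, mul_one, show (n : ℝ) / 2 - 1 = κ - 1 + b by rw [hκ, hb]; ring,
      Real.rpow_add p0, mul_comm, mul_assoc]
    refine mul_le_mul_of_nonneg_left ?_ (Real.rpow_nonneg p0.le _)
    rw [Real.rpow_def_of_pos r0, Real.rpow_def_of_pos p0, ft, ft, ← Real.exp_add, ← Real.exp_add,
      exp_le_exp]
    have l1 := Real.log_le_sub_one_of_pos (div_pos r0 p0)
    rw [Real.log_div r0.ne' p0.ne', div_sub_one p0.ne'] at l1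
    have l2 : b * ((rho1 n - ρ) / ρ) ≤ π * t * (rho1 n - ρ) := by
      rw [← mul_div_assoc, div_le_iff₀ p0]
      have l3 : b ≤ π * t * ρ := by
        have := mul_le_mul_of_nonneg_left hρ.1.le (show 0 ≤ π * t by positivity)
        linarith
      nlinarith [mul_le_mul_of_nonneg_right l3 (sub_nonneg.mpr hρ.2)]
    nlinarith [mul_le_mul_of_nonneg_left l1 (show 0 ≤ b by positivity)]
  rw [integral_const_mul, ← intervalIntegral.integral_of_le hle, integral_rpow (Or.inl (by linarith)),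
    sub_add_cancel, Real.mul_rpow (by norm_num) r0.le] at h2
  have h3 : (0.9999 : ℝ) ^ κ ≤ 0.0002 := by
    have l1 := Real.log_le_sub_one_of_pos (show (0 : ℝ) < 0.9999 by norm_num)
    have l2 := h.poly (j := 1) (by norm_num) (ε := 0.000025) le_rfl
    have l3 : (0.9999 : ℝ) ^ κ ≤ rexp (-(0.000025 * n)) := by
      rw [Real.rpow_def_of_pos (by norm_num), exp_le_exp]
      nlinarith [mul_le_mul_of_nonneg_right l1 k0.le]
    nlinarith [h.n_ge, exp_pos (-(0.000025 * (n : ℝ)))]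
  have h4 : rho1 n ^ b * rho1 n ^ κ = rho1 n ^ ((n : ℝ) / 2) := by
    rw [← Real.rpow_add r0]; congr 1; rw [hκ, hb]; ring
  rw [In_radial h.one_le]
  refine le_trans ?_ (mul_le_mul_of_nonneg_left (h2.trans h1) h.c_pos.le)
  have h5 : π ^ ((n : ℝ) / 2) / Gamma ((n : ℝ) / 2) * (rho1 n ^ b * ft t (rho1 n) *
      ((rho1 n ^ κ - 0.9999 ^ κ * rho1 n ^ κ) / κ)) =
      (π ^ ((n : ℝ) / 2) / Gamma ((n : ℝ) / 2) * (rho1 n ^ b * rho1 n ^ κ)) / κ *
        (1 - 0.9999 ^ κ) * ft t (rho1 n) := by ring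
  rw [h5, h4, h.c_rho]
  refine mul_le_mul_of_nonneg_right ?_ (ft_pos _ _).le
  have h6 : TT n * (n / 2) / κ = 2 / 1.0002 * TT n := by rw [hκ]; field_simp; norm_num
  rw [h6]
  nlinarith [h.T_ge, mul_le_mul_of_nonneg_left h3 (show 0 ≤ TT n by linarith [h.T_ge])]

lemma Big.tail (h : Big n) {u : ℝ} (hu : vv n ≤ u) :
    In n (fun ρ => if rho1 n < ρ then ft (2 * rexp u) ρ else 0) ≤
      rexp 10201 * TT n / (u - vv n + 1 / √n) * ft (rexp u) (rho1 n) ^ 2 := by
  have n0 := h.npos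
  have r0 := h.rho_pos
  have i0 : 0 < 1 / √(n : ℝ) := one_div_pos.mpr h.rpos
  set t := rexp u with ht
  set μ : ℝ := 101 * (1 / √n) with hμ
  set d : ℝ := u - vv n + 1 / √n with hd
  have d0 : 0 < d := by linarith
  set β : ℝ := (n / 2 * d) / rho1 n with hβ
  have β0 : 0 < β := by positivity
  have m2 : (n : ℝ) * μ ^ 2 = 10201 := by
    rw [hμ, mul_pow, div_pow, Real.sq_sqrt n0.le]; field_simp; norm_num
  set A : ℝ := rho1 n ^ ((n : ℝ) / 2 - 1) * rexp 10201 * ft t (rho1 n) ^ 2 * rexp (β * rho1 n)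
    with hA
  have h1 : ∫ ρ in Ioi (0 : ℝ), ρ ^ ((n : ℝ) / 2 - 1) * (if rho1 n < ρ then ft (2 * t) ρ else 0) =
      ∫ ρ in Ioi (rho1 n), ρ ^ ((n : ℝ) / 2 - 1) * ft (2 * t) ρ := by
    have : (fun ρ : ℝ => ρ ^ ((n : ℝ) / 2 - 1) * (if rho1 n < ρ then ft (2 * t) ρ else 0)) =
        (Ioi (rho1 n)).indicator fun ρ => ρ ^ ((n : ℝ) / 2 - 1) * ft (2 * t) ρ := by
      ext ρ; by_cases hρ : rho1 n < ρ <;> simp [hρ]
    rw [this, setIntegral_indicator measurableSet_Ioi, Ioi_inter_Ioi, max_eq_right r0.le]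
  have h2 : ∫ ρ in Ioi (rho1 n), ρ ^ ((n : ℝ) / 2 - 1) * ft (2 * t) ρ ≤
      ∫ ρ in Ioi (rho1 n), A * rexp (-β * ρ) := by
    refine integral_mono_of_nonneg ?_ ((integrableOn_exp_mul_Ioi (by linarith) _).const_mul A) ?_
    · filter_upwards [ae_restrict_mem measurableSet_Ioi] with ρ hρ
      exact mul_nonneg (Real.rpow_nonneg (r0.trans hρ).le _) (ft_pos _ _).le
    filter_upwards [ae_restrict_mem measurableSet_Ioi] with ρ hρ
    have p1 : rho1 n < ρ := hρ
    have p0 : 0 < ρ := r0.trans p1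
    rw [hA, Real.rpow_def_of_pos r0, Real.rpow_def_of_pos p0, ft, ft, ← Real.exp_nat_mul,
      ← Real.exp_add, ← Real.exp_add, ← Real.exp_add, ← Real.exp_add, ← Real.exp_add, exp_le_exp]
    have l1 := log_le_lin (μ := μ) (div_pos p0 r0) (by linarith [h.inv_r])
    rw [Real.log_div p0.ne' r0.ne'] at l1
    have l2 := Real.log_le_log r0 p1.le
    set ξ := ρ / rho1 n - 1 with hξ
    have x0 : 0 ≤ ξ := by rw [hξ, sub_nonneg, one_le_div r0]; exact p1.le
    have x1 : ρ = rho1 n + rho1 n * ξ := by rw [hξ]; field_simp; ring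
    have x2 : β * rho1 n = n / 2 * d := by rw [hβ]; field_simp
    have x3 := mul_le_mul_of_nonneg_right (h.x_ge u) x0
    have x4 := mul_le_mul_of_nonneg_left l1 (show (0 : ℝ) ≤ n / 2 by positivity)
    have x5 : -β * ρ = -(β * rho1 n) - n / 2 * d * ξ := by rw [← x2]; nth_rewrite 1 [x1]; ring
    have x6 : -π * (2 * t) * ρ = 2 * (-π * t * rho1 n) - 2 * (π * rho1 n * t * ξ) := by
      nth_rewrite 1 [x1]; ring
    rw [x5, x6]
    push_cast
    rw [hμ] at x4 m2
    rw [hd]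
    nlinarith
  rw [In_radial h.one_le, h1]
  refine (mul_le_mul_of_nonneg_left h2 h.c_pos.le).trans (le_of_eq ?_)
  rw [integral_const_mul, integral_exp_mul_Ioi (by linarith), hA, Real.rpow_sub_one r0.ne']
  have e1 : rexp (β * rho1 n) * rexp (-β * rho1 n) = 1 := by rw [← Real.exp_add]; simp
  calc _ = (π ^ ((n : ℝ) / 2) / Gamma ((n : ℝ) / 2) * rho1 n ^ ((n : ℝ) / 2)) *
        (rexp (β * rho1 n) * rexp (-β * rho1 n)) * rexp 10201 * ft t (rho1 n) ^ 2 /
          (β * rho1 n) := by field_simp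
    _ = _ := by rw [h.c_rho, e1, hβ]; field_simp

lemma Big.ft_ge (h : Big n) {t : ℝ} (h0 : 0 ≤ t) (h1 : t ≤ 4) :
    rexp (-(t * n / (2 * rexp 1))) ≤ (n : ℝ) ^ 4 * ft t (rho1 n) := by
  have h2 := h.ex t ⟨h0, h1⟩
  have h3 : rexp (π * t * rho1 n) ≤ rexp (π * t * (rho1 n + 1)) :=
    exp_le_exp.mpr (by nlinarith [mul_nonneg Real.pi_pos.le h0])
  rw [ft, show -π * t * rho1 n = -(π * t * rho1 n) by ring, Real.exp_neg, Real.exp_neg,
    ← div_eq_mul_inv, inv_eq_one_div, div_le_div_iff₀ (exp_pos _) (exp_pos _)]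
  linarith

lemma Big.In_hh_sq (h : Big n) {u : ℝ} (hu : vv n ≤ u) :
    In n (fun ρ => hh n (rexp u) ρ * hh n (rexp u) ρ) ≤
      (rexp 10201 * TT n / (u - vv n + 1 / √n) + 1) * ft (rexp u) (rho1 n) ^ 2 := by
  have t1 := h.le_exp hu
  have n0 := h.npos
  set c : ℝ := ft (rexp u) (rho1 n) ^ 2 * rexp (n / 2) with hc
  have i1 : Integrable fun y : Ev n =>
      if rho1 n < ‖y‖ ^ 2 then ft (2 * rexp u) (‖y‖ ^ 2) else 0 := by
    refine (integrable_ft n (t := 2 * rexp u) (by positivity)).mono'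
      (Measurable.aestronglyMeasurable (Measurable.ite (measurableSet_lt measurable_const
        (by fun_prop)) (by unfold ft; fun_prop) measurable_const)) (ae_of_all _ fun y => ?_)
    split_ifs
    · rw [Real.norm_of_nonneg (ft_pos _ _).le]
    · simpa using (ft_pos _ _).le
  have i2 := (integrable_ft n (exp_pos 1)).const_mul c
  have key : ∀ ρ, hh n (rexp u) ρ * hh n (rexp u) ρ ≤
      (if rho1 n < ρ then ft (2 * rexp u) ρ else 0) + c * ft (rexp 1) ρ := fun ρ => by
    have a0 := a2_nonneg n ρ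
    have a1 := a2_le_one n ρ
    have f0 := ft_pos (rexp u) ρ
    have kA : (ft (rexp u) ρ * (1 - a2 n ρ)) ^ 2 ≤ if rho1 n < ρ then ft (2 * rexp u) ρ else 0 := by
      split_ifs with hρ
      · rw [two_mul, ft_add, ← sq]
        exact pow_le_pow_left₀ (mul_nonneg f0.le (by linarith))
          (mul_le_of_le_one_right f0.le (by linarith)) 2
      · rw [a2_eq_one (not_lt.mp hρ)]; simp
    have kB : (if rexp u ≤ 3 / 2 then rexp u ^ (-(n : ℝ) / 2) * ft (rexp u)⁻¹ ρ * a2 n ρ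
        else 0) ^ 2 ≤ c * ft (rexp 1) ρ := by
      split_ifs with ht
      swap
      · have := ft_pos (rexp 1) ρ
        rw [zero_pow two_ne_zero]; positivity
      have y0 : 0 < (rexp u)⁻¹ := by positivity
      have y1 : rexp u * (rexp u)⁻¹ = 1 := mul_inv_cancel₀ (exp_pos u).ne'
      have y2 : (rexp u)⁻¹ ≤ 0.75 := by nlinarith
      have b1 := h.ball_maj (τ := (rexp u)⁻¹ + (rexp u)⁻¹) (by positivity) (by linarith [e_lb]) ρ
      have b2 := h.ft_ge (t := rexp u + rexp u) (by positivity) (by linarith)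
      rw [ft_add] at b1 b2
      have b3 := h.poly (j := 8) le_rfl (ε := 0.02) (by norm_num)
      have b4 : rexp (u * (-(n : ℝ) / 2)) ^ 2 *
          rexp (-(((rexp u)⁻¹ + (rexp u)⁻¹) * n / (2 * rexp 1))) ≤
          rexp (-(0.02 * n)) * rexp (-((rexp u + rexp u) * n / (2 * rexp 1))) := by
        rw [← Real.exp_nat_mul, ← Real.exp_add, ← Real.exp_add, exp_le_exp]
        have z1 := Real.add_one_le_exp (-u)
        rw [Real.exp_neg] at z1
        have z2 : 1 / rexp 1 ≤ 0.368 := by rw [div_le_iff₀ (exp_pos 1)]; linarith [e_lb]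
        have z3 : (rexp u - (rexp u)⁻¹) * (1 / rexp 1) ≤ u - 0.02 := by
          have : (rexp u - (rexp u)⁻¹) * (1 / rexp 1) ≤ (rexp u - (rexp u)⁻¹) * 0.368 :=
            mul_le_mul_of_nonneg_left z2 (by linarith)
          nlinarith [mul_nonneg (show 0 ≤ 1 - (rexp u)⁻¹ by linarith) (sub_nonneg.mpr ht)]
        have z4 := mul_le_mul_of_nonneg_left z3 n0.le
        have z5 : ∀ a : ℝ, (a + a) * n / (2 * rexp 1) = n * (a * (1 / rexp 1)) := fun a => by
          field_simp; ring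
        rw [z5, z5]
        push_cast
        nlinarith
      have f1 := ft_pos (rexp u)⁻¹ ρ
      have f2 := ft_pos (rexp 1) ρ
      rw [← Real.exp_mul]
      calc _ = rexp (u * (-(n : ℝ) / 2)) ^ 2 *
            (ft (rexp u)⁻¹ ρ * ft (rexp u)⁻¹ ρ * a2 n ρ * a2 n ρ) := by ring
        _ ≤ rexp (u * (-(n : ℝ) / 2)) ^ 2 * ((n : ℝ) ^ 4 *
            rexp (-(((rexp u)⁻¹ + (rexp u)⁻¹) * n / (2 * rexp 1))) * rexp (n / 2) *
              ft (rexp 1) ρ) :=
            mul_le_mul_of_nonneg_left ((mul_le_of_le_one_right (by positivity) a1).trans b1)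
              (by positivity)
        _ = (n : ℝ) ^ 4 * (rexp (u * (-(n : ℝ) / 2)) ^ 2 *
            rexp (-(((rexp u)⁻¹ + (rexp u)⁻¹) * n / (2 * rexp 1)))) *
              (rexp (n / 2) * ft (rexp 1) ρ) := by ring
        _ ≤ (n : ℝ) ^ 4 * (rexp (-(0.02 * n)) *
            ((n : ℝ) ^ 4 * (ft (rexp u) (rho1 n) * ft (rexp u) (rho1 n)))) *
              (rexp (n / 2) * ft (rexp 1) ρ) :=
            mul_le_mul_of_nonneg_right (mul_le_mul_of_nonneg_left
              (b4.trans (mul_le_mul_of_nonneg_left b2 (exp_pos _).le)) (by positivity))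
              (by positivity)
        _ = (12 * (n : ℝ) ^ 8 * rexp (-(0.02 * n))) * (c * ft (rexp 1) ρ / 12) := by
            rw [hc]; ring
        _ ≤ c * ft (rexp 1) ρ / 12 := mul_le_of_le_one_left (by positivity) b3
        _ ≤ _ := div_le_self (by positivity) (by norm_num)
    have B0 : 0 ≤ (if rexp u ≤ 3 / 2 then rexp u ^ (-(n : ℝ) / 2) * ft (rexp u)⁻¹ ρ * a2 n ρ
        else 0) := by
      have := ft_pos (rexp u)⁻¹ ρ
      split_ifs <;> positivity
    rw [hh]
    nlinarith [mul_nonneg (mul_nonneg f0.le (sub_nonneg.mpr a1)) B0]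
  have h1 := integral_mono_of_nonneg (μ := (volume : Measure (Ev n)))
    (f := fun y => hh n (rexp u) (‖y‖ ^ 2) * hh n (rexp u) (‖y‖ ^ 2))
    (ae_of_all _ fun y => mul_self_nonneg _) (i1.add i2) (ae_of_all _ fun y => key _)
  have h2 := integral_add i1 i2
  have h3 := h.tail hu
  have h4 := In_ft_e n
  have e0 : rexp (n / 2) * rexp (-(n : ℝ) / 2) = 1 := by
    rw [← Real.exp_add, show (n : ℝ) / 2 + -(n : ℝ) / 2 = 0 by ring, Real.exp_zero]
  unfold In at h3 h4 ⊢
  rw [integral_const_mul, h4, hc, mul_assoc, e0] at h2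
  refine (h1.trans (le_of_eq h2)).trans ?_
  linarith

lemma Big.Nt_far (h : Big n) {u : ℝ} (hu : vv n ≤ u) :
    rexp (-0.00015 * n) * Nt n (rexp u) ≤ ft (rexp u) (rho1 n) := by
  have n0 := h.npos
  have t1 := h.le_exp hu
  rw [Nt]
  split_ifs with ht
  swap
  · exact mul_le_of_le_one_left (exp_pos _).le (Real.exp_le_one_iff.mpr (by nlinarith))
  have b2 := h.ft_ge (t := rexp u) (by positivity) (by linarith)
  have b3 := h.poly (j := 4) (by norm_num) (ε := 0.00004) (by norm_num)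
  set r := 2 * rexp u / rexp 1 with hr
  have r1 : 0.985 ≤ r := by rw [hr, le_div_iff₀ (exp_pos 1)]; linarith [e_ub]
  have r2 : r ≤ 1.016 := by rw [hr, div_le_iff₀ (exp_pos 1)]; linarith [e_lb]
  have l1 := Real.one_sub_inv_le_log_of_pos (show 0 < r by linarith)
  have l2 : r⁻¹ ≤ 2 - r + 0.0004 := by
    rw [inv_eq_one_div, div_le_iff₀ (by linarith)]; nlinarith
  have l3 : Real.log r = Real.log (2 * rexp u) - 1 := by
    rw [hr, Real.log_div (by positivity) (exp_pos 1).ne', Real.log_exp]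
  have b4 : rexp (-0.00015 * n) * (2 * rexp u) ^ (-(n : ℝ) / 4) ≤
      rexp (-(0.00004 * n)) * rexp (-(rexp u * n / (2 * rexp 1))) := by
    rw [Real.rpow_def_of_pos (by positivity), ← Real.exp_add, ← Real.exp_add, exp_le_exp,
      show rexp u * n / (2 * rexp 1) = n / 4 * r by rw [hr]; field_simp; ring]
    nlinarith [mul_le_mul_of_nonneg_left (show r - 0.0004 ≤ Real.log (2 * rexp u) by linarith)
      (show (0 : ℝ) ≤ n / 4 by positivity)]
  have f0 := ft_pos (rexp u) (rho1 n)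
  calc _ ≤ rexp (-(0.00004 * n)) * ((n : ℝ) ^ 4 * ft (rexp u) (rho1 n)) :=
        b4.trans (mul_le_mul_of_nonneg_left b2 (exp_pos _).le)
    _ = (12 * (n : ℝ) ^ 4 * rexp (-(0.00004 * n))) * (ft (rexp u) (rho1 n) / 12) := by ring
    _ ≤ ft (rexp u) (rho1 n) / 12 := mul_le_of_le_one_left (by positivity) b3
    _ ≤ _ := div_le_self f0.le (by norm_num)

lemma Big.mass (h : Big n) : (1 - 1 / 2401) * D0 n ≤
    2 * TT n * ∫ u in vv n..Real.log 3, rexp ((n : ℝ) / 4 * u - π * rho1 n * rexp u) := by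
  have n0 := h.npos
  have r0 := h.rpos
  have h1 := cheb (s := (n : ℝ) / 4) (x := π * rho1 n) (p := vv n) (q := Real.log 3)
    (l := 24.5 * √n) (by linarith [h.n_ge]) h.xpos (by positivity) ?_ ?_
  · have e : (n : ℝ) / 4 / (24.5 * √n) ^ 2 = 1 / 2401 := by
      rw [mul_pow, Real.sq_sqrt n0.le]; field_simp; norm_num
    rw [e] at h1
    rw [D0, mul_left_comm]
    exact mul_le_mul_of_nonneg_left h1 (by linarith [h.T_ge])
  · rw [h.x_exp, sub_self, zero_sub]
    set y := 100 / √(n : ℝ) with hy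
    have y0 : 0 ≤ y := by positivity
    have y1 : √(n : ℝ) * y = 100 := by rw [hy]; field_simp
    have e1 : rexp (-y) ≤ 1 - y + y ^ 2 := by
      rw [Real.exp_neg, inv_eq_one_div, div_le_iff₀ (exp_pos y)]
      have := Real.add_one_le_exp y
      nlinarith [mul_le_mul_of_nonneg_left this (show 0 ≤ 1 - y + y ^ 2 by nlinarith),
        pow_nonneg y0 3]
    have e2 : (n : ℝ) / 4 * (1 - y + y ^ 2) = n / 4 - 25 * √n + 2500 := by
      have : (n : ℝ) / 4 * (1 - y + y ^ 2) = n / 4 - √n * (√n * y) / 4 + (√n * y) ^ 2 / 4 := by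
        rw [mul_pow, Real.sq_sqrt n0.le, ← mul_assoc, rsq]; ring
      rw [this, y1]; ring
    have e3 := mul_le_mul_of_nonneg_left e1 (show (0 : ℝ) ≤ n / 4 by positivity)
    linarith [h.r]
  · rw [Real.exp_log (by norm_num)]
    have e1 : (n : ℝ) / 6 ≤ n / (2 * rexp 1) :=
      div_le_div_of_nonneg_left n0.le (by positivity) (by linarith [e_ub])
    linarith [h.lb, h.rn]

lemma Big.peak (h : Big n) {α : ℝ} (h0 : 0 ≤ α) (h1 : α ≤ n / 4) : ∃ M : ℝ,
    (∀ u, 0 ≤ u → rexp ((n : ℝ) / 4 * u - π * rho1 n * rexp u) * cosh (α * u) ≤ M) ∧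
    M ≤ 4 * √n * ∫ u in vv n..Real.log 3,
      rexp ((n : ℝ) / 4 * u - π * rho1 n * rexp u) * cosh (α * u) := by
  have n0 := h.npos
  have r0 := h.rpos
  have x0 := h.xpos
  set p := (n : ℝ) / 4 + α with hp
  have p0 : 0 < p := by positivity
  have e : ∀ u, rexp ((n : ℝ) / 4 * u - π * rho1 n * rexp u) * rexp (α * u) =
      rexp (p * u - π * rho1 n * rexp u) := fun u => by
    rw [← Real.exp_add]; congr 1; rw [hp]; ring
  refine ⟨rexp (p * Real.log (p / (π * rho1 n)) - p), fun u hu => ?_, ?_⟩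
  · refine le_trans ?_ (exp_le_exp.mpr (peak_le x0 p0 u))
    rw [← e, Real.cosh_eq]
    refine mul_le_mul_of_nonneg_left ?_ (exp_pos _).le
    have : rexp (-(α * u)) ≤ rexp (α * u) := exp_le_exp.mpr (by nlinarith [mul_nonneg h0 hu])
    linarith
  have h2 := peak_ge (v := vv n) (L := Real.log 3) (h := 1 / √n) x0 p0 (by positivity)
    (by linarith [h.inv_r]) (by
      rw [div_pow, Real.sq_sqrt n0.le, one_pow, mul_one_div, div_le_iff₀ n0]; linarith)
    ((sub_le_self _ (by positivity)).trans (Real.log_le_log (by positivity)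
      (div_le_div_of_nonneg_right (by linarith) x0.le))) (by
      have a1 : p / (π * rho1 n) ≤ rexp 1 := by
        have := h.t0_le
        rw [div_le_iff₀ x0] at this ⊢
        linarith
      have a2 := Real.log_le_log (by positivity) a1
      rw [Real.log_exp] at a2
      linarith [log3_lb, h.inv_r])
  have h3 : ∫ u in vv n..Real.log 3, rexp (p * u - π * rho1 n * rexp u) ≤ ∫ u in vv n..Real.log 3,
      2 * (rexp ((n : ℝ) / 4 * u - π * rho1 n * rexp u) * cosh (α * u)) := by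
    refine intervalIntegral.integral_mono_on (by linarith [h.v_le, log3_lb])
      (Continuous.intervalIntegrable (by fun_prop) _ _)
      (Continuous.intervalIntegrable (by fun_prop) _ _) fun u _ => ?_
    rw [← e, Real.cosh_eq]
    nlinarith [mul_pos (exp_pos ((n : ℝ) / 4 * u - π * rho1 n * rexp u)) (exp_pos (-(α * u)))]
  rw [intervalIntegral.integral_const_mul] at h3
  have h4 := mul_le_mul_of_nonneg_left (h2.trans h3) (show 0 ≤ 2 * √(n : ℝ) by positivity)
  have h5 : 2 * √(n : ℝ) * (rexp (p * Real.log (p / (π * rho1 n)) - p) * (1 / √n / 2)) =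
      rexp (p * Real.log (p / (π * rho1 n)) - p) := by field_simp
  linarith

end Pool.Agent.Eps.Tst
end
end

-- part Pool.Agent.Lib.MP_3bda03_nt.Test
section

set_option autoImplicit false

noncomputable section

open scoped BigOperators Classical Topology
open MeasureTheory Real Filter Set

namespace Pool.Agent.Eps

namespace Tst

variable {n : ℕ}

lemma exp_mem {u : ℝ} (hu : u ∈ Icc 0 (Real.log 3)) : rexp u ∈ Icc (1 : ℝ) 3 :=
  ⟨Real.one_le_exp hu.1, by simpa [Real.exp_log] using exp_le_exp.mpr hu.2⟩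

lemma Big.v_pos (h : Big n) : 0 < vv n := by linarith [h.v]

lemma Big.v_lt (h : Big n) : vv n + 0.7 ≤ Real.log 3 := by linarith [h.v_le, log3_lb]

lemma In_drift_nonneg (n : ℕ) (t : ℝ) : 0 ≤ In n (fun ρ => ft t ρ * a2 n ρ) :=
  integral_nonneg fun _ => mul_nonneg (ft_pos _ _).le (a2_nonneg n _)

lemma In_drift_le {t : ℝ} (ht : 1 ≤ t) : In n (fun ρ => ft t ρ * a2 n ρ) ≤ 1 := by
  have h1 : In n (fun ρ => ft t ρ * a2 n ρ) ≤ In n (ft t) :=
    integral_mono_of_nonneg (ae_of_all _ fun _ => mul_nonneg (ft_pos _ _).le (a2_nonneg n _))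
      (integrable_ft n (by linarith))
      (ae_of_all _ fun _ => mul_le_of_le_one_right (ft_pos _ _).le (a2_le_one n _))
  rw [In_ft n (by linarith)] at h1
  refine h1.trans (Real.rpow_le_one_of_one_le_of_nonpos ht ?_)
  linarith [(Nat.cast_nonneg n : (0 : ℝ) ≤ n)]

lemma Nt_nonneg (n : ℕ) {t : ℝ} (ht : 0 ≤ t) : 0 ≤ Nt n t := by
  unfold Nt; split_ifs <;> positivity

lemma Big.Nt_le (h : Big n) {t : ℝ} (ht : 1 ≤ t) : Nt n t ≤ 1 := by
  unfold Nt
  split_ifs
  · exact Real.rpow_le_one_of_one_le_of_nonpos (by linarith) (by linarith [h.npos])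
  · exact Real.exp_le_one_iff.mpr (by nlinarith [h.xpos])

lemma measurable_Ub (n : ℕ) {w : ℝ → ℝ} (hw : Measurable w) :
    Measurable fun u => Ub n (w (rexp u)) (rexp u) := by
  have h1 : Measurable fun u => In n (fun ρ => ft (rexp u) ρ * a2 n ρ) := by
    refine (StronglyMeasurable.integral_prod_right (ν := (volume : Measure (Ev n)))
      (f := fun u y => ft (rexp u) (‖y‖ ^ 2) * a2 n (‖y‖ ^ 2))
      (Continuous.stronglyMeasurable ?_)).measurable
    have := continuous_a2 n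
    unfold ft Function.uncurry
    fun_prop
  have h2 : Measurable fun u => Nt n (rexp u) :=
    Measurable.ite (measurableSet_le measurable_exp measurable_const) (by fun_prop) (by fun_prop)
  have h3 : Measurable fun u => if rexp u ≤ 1.1 then 7 * (rexp u ^ 2 + 1) ^ (-mh n) else 0 :=
    Measurable.ite (measurableSet_le measurable_exp measurable_const) (by fun_prop) measurable_const
  exact (((hw.comp measurable_exp).add h3).add (h2.const_mul _)).sub h1

lemma Big.abs_Ub_le (h : Big n) {a t C : ℝ} (ha : |a| ≤ C) (ht : 1 ≤ t) : |Ub n a t| ≤ C + 9 := by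
  have h1 := In_drift_nonneg n t
  have h2 := In_drift_le (n := n) ht
  have h3 := Nt_nonneg n (t := t) (by linarith)
  have h4 := h.Nt_le ht
  have h5 : rexp (-0.0003 * n) ≤ 1 := Real.exp_le_one_iff.mpr (by linarith [h.npos])
  have h6 := mul_le_mul h5 h4 h3 zero_le_one
  have h7 := mul_nonneg (exp_pos (-0.0003 * (n : ℝ))).le h3
  have h8 : (t ^ 2 + 1) ^ (-mh n) ≤ 1 := Real.rpow_le_one_of_one_le_of_nonpos
    (by linarith [sq_nonneg t]) (by linarith [gr_mh_nonneg n])
  have h9 : 0 ≤ (t ^ 2 + 1) ^ (-mh n) := by positivity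
  rw [abs_le] at ha ⊢
  unfold Ub
  split_ifs <;> constructor <;> linarith

lemma ii_on {f : ℝ → ℝ} (hf : Measurable f) {C p q : ℝ} (hpq : p ≤ q)
    (hC : ∀ u ∈ Ioc p q, |f u| ≤ C) : IntervalIntegrable f volume p q := by
  rw [intervalIntegrable_iff_integrableOn_Ioc_of_le hpq]
  refine int_bdd hf (C := C) ?_
  filter_upwards [ae_restrict_mem measurableSet_Ioc] with u hu using hC u hu

lemma Big.Ub_far (h : Big n) {u : ℝ} (hu : vv n ≤ u) (a : ℝ) :
    Ub n a (rexp u) ≤ a + (1 - 1.999 * TT n) * ft (rexp u) (rho1 n) := by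
  have h1 := h.drift hu
  have h2 := h.Nt_far hu
  have h3 : rexp (-0.0003 * n) * Nt n (rexp u) ≤ rexp (-0.00015 * n) * Nt n (rexp u) :=
    mul_le_mul_of_nonneg_right (exp_le_exp.mpr (by linarith [h.npos])) (Nt_nonneg n (exp_pos u).le)
  rw [Ub, if_neg (by linarith [h.le_exp hu])]
  linarith

lemma Big.Ub_near (h : Big n) {u : ℝ} (h0 : 0 ≤ u) (hu : u ≤ vv n) (a : ℝ) :
    Ub n a (rexp u) * rexp ((n : ℝ) / 4 * u) ≤
      a * rexp ((n : ℝ) / 4 * u) + (10 * bump (n / 4) u + de n) := by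
  have h1 := mul_nonneg (In_drift_nonneg n (rexp u)) (exp_pos ((n : ℝ) / 4 * u)).le
  have h2 := Nt_near (n := n) (u := u) (by linarith [h.exp_le hu])
  have h3 := h.eps_S
  have h4 := bump_nonneg (s := (n : ℝ) / 4) (by positivity) u
  rw [← h2] at h3
  unfold Ub
  split_ifs with ht
  · have h5 := h.mirror1 h0 ht
    linarith
  · linarith

lemma Big.int_bump (h : Big n) (v : ℝ) : ∫ u in (0 : ℝ)..v, bump (n / 4) u ≤ 8 * de n := by
  refine (Tst.int_bump (by linarith [h.npos])).trans (le_of_eq ?_)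
  rw [sqrt_quarter, de, SS]
  field_simp
  norm_num

lemma Big.ft_mono (h : Big n) {t : ℝ} (ht : t ≤ 3) : ft 3 (rho1 n) ≤ ft t (rho1 n) :=
  exp_le_exp.mpr (by nlinarith [h.xpos])

lemma Big.abs_div_le (h : Big n) {a t C : ℝ} (ha : |a| ≤ C) (ht : t ≤ 3) :
    |a / ft t (rho1 n)| ≤ C / ft 3 (rho1 n) := by
  rw [abs_div, abs_of_pos (ft_pos _ _)]
  exact div_le_div₀ ((abs_nonneg _).trans ha) ha (ft_pos _ _) (h.ft_mono ht)

lemma Big.final (h : Big n) {w : ℝ → ℝ} (hw : Measurable w) {C : ℝ}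
    (hC : ∀ t ∈ Icc (1 : ℝ) 3, |w t| ≤ C) {α : ℝ} (h0 : 0 ≤ α) (h1 : α ≤ n / 4)
    (hD : ∫ u in (0 : ℝ)..vv n, w (rexp u) * rexp ((n : ℝ) / 4 * u) * cosh (α * u) ≤
      cosh (α * vv n) * (0.997 * D0 n))
    (hP : ∫ u in vv n..Real.log 3, (w (rexp u) / ft (rexp u) (rho1 n)) ^ 2 ≤
      (0.0005 * TT n) ^ 2 / √n) :
    IntervalIntegrable (fun u => Ub n (w (rexp u)) (rexp u) * (rexp (n * u / 4) * cosh (α * u)))
        volume 0 (Real.log 3) ∧
      ∫ u in (0 : ℝ)..Real.log 3,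
        Ub n (w (rexp u)) (rexp u) * (rexp (n * u / 4) * cosh (α * u)) < 0 := by
  have v0 := h.v_pos
  have v1 : vv n ≤ Real.log 3 := by linarith [h.v_lt]
  have r0 := h.rpos
  have T0 := h.T_ge
  have hi : ∀ p q, 0 ≤ p → p ≤ q → q ≤ Real.log 3 → IntervalIntegrable
      (fun u => Ub n (w (rexp u)) (rexp u) * (rexp (n * u / 4) * cosh (α * u))) volume p q :=
    fun p q hp hpq hq => (ii_on (measurable_Ub n hw) hpq fun u hu => by
      have := exp_mem (u := u) ⟨hp.trans hu.1.le, hu.2.trans hq⟩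
      exact h.abs_Ub_le (hC _ this) this.1).mul_continuousOn (by fun_prop)
  refine ⟨hi _ _ le_rfl (v0.le.trans v1) le_rfl, ?_⟩
  rw [← intervalIntegral.integral_add_adjacent_intervals (hi _ _ le_rfl v0.le v1)
    (hi _ _ v0.le v1 le_rfl)]
  have c0 := Real.cosh_pos (α * vv n)
  have near : ∫ u in (0 : ℝ)..vv n, Ub n (w (rexp u)) (rexp u) * (rexp (n * u / 4) * cosh (α * u)) ≤
      cosh (α * vv n) * (0.9975 * D0 n) := by
    have i1 : IntervalIntegrable (fun u => w (rexp u) * rexp ((n : ℝ) / 4 * u) * cosh (α * u))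
        volume 0 (vv n) :=
      ((ii_on (hw.comp measurable_exp) v0.le fun u hu =>
        hC _ (exp_mem ⟨hu.1.le, hu.2.trans v1⟩)).mul_continuousOn (by fun_prop)).mul_continuousOn
        (by fun_prop)
    have cb := continuous_bump (s := (n : ℝ) / 4) (by positivity)
    have i2 : IntervalIntegrable (fun u => cosh (α * vv n) * (10 * bump (n / 4) u + de n))
        volume 0 (vv n) := Continuous.intervalIntegrable (by fun_prop) _ _
    refine (intervalIntegral.integral_mono_on v0.le (hi _ _ le_rfl v0.le v1) (i1.add i2)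
      fun u hu => ?_).trans ?_
    · have a1 := mul_le_mul_of_nonneg_right (h.Ub_near hu.1 hu.2 (w (rexp u)))
        (Real.cosh_pos (α * u)).le
      have a2 : cosh (α * u) ≤ cosh (α * vv n) := Real.cosh_le_cosh.mpr (by
        rw [abs_of_nonneg (mul_nonneg h0 hu.1), abs_of_nonneg (mul_nonneg h0 v0.le)]
        exact mul_le_mul_of_nonneg_left hu.2 h0)
      have a3 := mul_le_mul_of_nonneg_right a2 (add_nonneg (mul_nonneg (by norm_num : (0 : ℝ) ≤ 10)
        (bump_nonneg (s := (n : ℝ) / 4) (by positivity) u)) h.de_pos.le)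
      rw [show (n : ℝ) * u / 4 = n / 4 * u by ring]
      linarith
    · rw [intervalIntegral.integral_add i1 i2, intervalIntegral.integral_const_mul,
        intervalIntegral.integral_add (Continuous.intervalIntegrable (by fun_prop) _ _)
          (by simp), intervalIntegral.integral_const_mul, intervalIntegral.integral_const]
      have a1 := h.int_bump (vv n)
      have a2 : (vv n - 0) • de n ≤ de n := by
        rw [smul_eq_mul]; exact mul_le_of_le_one_left h.de_pos.le (by linarith [h.v_le])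
      have a3 : 10 * (∫ u in (0 : ℝ)..vv n, bump (n / 4) u) + (vv n - 0) • de n ≤ 0.0005 * D0 n := by
        linarith [h.de_le, h.de_pos]
      linarith [mul_le_mul_of_nonneg_left a3 c0.le]
  obtain ⟨M, hM1, hM2⟩ := h.peak h0 h1
  set W : ℝ → ℝ := fun u => rexp ((n : ℝ) / 4 * u - π * rho1 n * rexp u) * cosh (α * u) with hW
  have cW : Continuous W := by simp only [hW]; fun_prop
  have W0 : ∀ u, 0 < W u := fun u => mul_pos (exp_pos _) (Real.cosh_pos _)
  have M0 : 0 < M := (W0 0).trans_le (hM1 0 le_rfl)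
  set a : ℝ := 0.0005 * TT n with ha
  have a0 : 0 < a := by linarith
  set J := ∫ u in vv n..Real.log 3, W u with hJ
  have J1 : cosh (α * vv n) *
      ∫ u in vv n..Real.log 3, rexp ((n : ℝ) / 4 * u - π * rho1 n * rexp u) ≤ J := by
    rw [← intervalIntegral.integral_const_mul]
    refine intervalIntegral.integral_mono_on v1 (Continuous.intervalIntegrable (by fun_prop) _ _)
      (cW.intervalIntegrable _ _) fun u hu => ?_
    rw [mul_comm]
    refine mul_le_mul_of_nonneg_left (Real.cosh_le_cosh.mpr ?_) (exp_pos _).le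
    rw [abs_of_nonneg (mul_nonneg h0 v0.le), abs_of_nonneg (mul_nonneg h0 (v0.le.trans hu.1))]
    exact mul_le_mul_of_nonneg_left hu.1 h0
  have J0 : 0 ≤ J := intervalIntegral.integral_nonneg v1 fun u _ => (W0 u).le
  have far : ∫ u in vv n..Real.log 3,
      Ub n (w (rexp u)) (rexp u) * (rexp (n * u / 4) * cosh (α * u)) ≤ -(1.997 * TT n * J) := by
    have i1 : IntervalIntegrable (fun u => (a + 1 - 1.999 * TT n) * W u) volume (vv n)
        (Real.log 3) := Continuous.intervalIntegrable (by fun_prop) _ _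
    have i2 : IntervalIntegrable (fun u => M / (4 * a) * (w (rexp u) / ft (rexp u) (rho1 n)) ^ 2)
        volume (vv n) (Real.log 3) := by
      refine (ii_on (C := (C / ft 3 (rho1 n)) ^ 2) (Measurable.pow_const
        ((hw.comp measurable_exp).div (by unfold ft; fun_prop)) 2) v1 fun u hu => ?_).const_mul _
      have := exp_mem (u := u) ⟨v0.le.trans hu.1.le, hu.2⟩
      rw [abs_pow]
      exact pow_le_pow_left₀ (abs_nonneg _) (h.abs_div_le (hC _ this) this.2) 2
    refine (intervalIntegral.integral_mono_on v1 (hi _ _ v0.le v1 le_rfl) (i1.add i2)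
      fun u hu => ?_).trans ?_
    · have f0 := ft_pos (rexp u) (rho1 n)
      have b1 := mul_le_mul_of_nonneg_right (h.Ub_far hu.1 (w (rexp u)))
        (mul_pos (exp_pos (n * u / 4)) (Real.cosh_pos (α * u))).le
      have b2 : ft (rexp u) (rho1 n) * (rexp (n * u / 4) * cosh (α * u)) = W u := by
        simp only [hW, ft]
        rw [← mul_assoc, ← Real.exp_add]
        congr 2; ring
      set R := w (rexp u) / ft (rexp u) (rho1 n) with hR
      have b3 : w (rexp u) = R * ft (rexp u) (rho1 n) := by rw [hR]; field_simp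
      have b4 : R ≤ a + R ^ 2 / (4 * a) := by
        rw [← sub_le_iff_le_add', le_div_iff₀ (by positivity)]
        nlinarith [sq_nonneg (R - 2 * a)]
      have b5 := mul_le_mul_of_nonneg_right b4 (W0 u).le
      have b6 := mul_le_mul_of_nonneg_left (hM1 u (v0.le.trans hu.1))
        (show 0 ≤ R ^ 2 / (4 * a) by positivity)
      refine b1.trans ?_
      rw [b3, ← add_mul, mul_assoc, b2]
      have b7 : M / (4 * a) * R ^ 2 = R ^ 2 / (4 * a) * M := by ring
      linarith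
    · rw [intervalIntegral.integral_add i1 i2, intervalIntegral.integral_const_mul,
        intervalIntegral.integral_const_mul]
      have b1 := mul_le_mul_of_nonneg_left hP (show 0 ≤ M / (4 * a) by positivity)
      have b2 : M / (4 * a) * (a ^ 2 / √n) ≤ a * J := by
        calc _ ≤ 4 * √n * J / (4 * a) * (a ^ 2 / √n) := by gcongr
          _ = _ := by field_simp
      nlinarith [mul_le_mul_of_nonneg_right (show 1 ≤ 0.001 * TT n by linarith) J0]
  have m1 := mul_le_mul_of_nonneg_left h.mass c0.le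
  have m2 := mul_le_mul_of_nonneg_left J1 (show 0 ≤ TT n by linarith)
  have m3 := mul_pos c0 h.D0_pos
  linarith

section prob

variable {Ω : Type} [MeasurableSpace Ω] {μ : Measure Ω} [IsProbabilityMeasure μ] {U : ℝ → Ω → ℝ}

/-- the rescaled noise on the near range -/
def FF (n : ℕ) (U : ℝ → Ω → ℝ) (u : ℝ) (x : Ω) : ℝ :=
  if u ∈ Icc 0 (Real.log 3) then U (rexp u) x * rexp ((n : ℝ) / 4 * u) else 0

/-- the rescaled noise on the far range -/
def RR (n : ℕ) (U : ℝ → Ω → ℝ) (u : ℝ) (x : Ω) : ℝ :=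
  if u ∈ Icc 0 (Real.log 3) then U (rexp u) x / ft (rexp u) (rho1 n) else 0

lemma measurable_U (hU : Measurable (Function.uncurry U)) :
    Measurable fun p : ℝ × Ω => U (rexp p.1) p.2 :=
  hU.comp (f := fun p : ℝ × Ω => (rexp p.1, p.2)) (by fun_prop)

lemma measurable_FF (n : ℕ) (hU : Measurable (Function.uncurry U)) :
    Measurable (Function.uncurry (FF n U)) :=
  Measurable.ite (measurable_fst measurableSet_Icc) ((measurable_U hU).mul (by fun_prop))
    measurable_const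

lemma measurable_RR (n : ℕ) (hU : Measurable (Function.uncurry U)) :
    Measurable (Function.uncurry (RR n U)) :=
  Measurable.ite (measurable_fst measurableSet_Icc)
    ((measurable_U hU).div (by unfold ft; fun_prop)) measurable_const

omit [MeasurableSpace Ω] in
lemma abs_FF_le (n : ℕ) {C : ℝ} (hC : ∀ t ∈ Icc (1 : ℝ) 3, ∀ x, |U t x| ≤ C) (u : ℝ) (x : Ω) :
    |FF n U u x| ≤ C * rexp ((n : ℝ) / 4 * Real.log 3) := by
  have C0 : 0 ≤ C := (abs_nonneg _).trans (hC 1 ⟨le_rfl, by norm_num⟩ x)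
  unfold FF
  split_ifs with hu
  · rw [abs_mul, abs_of_pos (exp_pos _)]
    exact mul_le_mul (hC _ (exp_mem hu) x)
      (exp_le_exp.mpr (mul_le_mul_of_nonneg_left hu.2 (by positivity))) (exp_pos _).le C0
  · rw [abs_zero]; positivity

omit [MeasurableSpace Ω] in
lemma Big.abs_RR_le (h : Big n) {C : ℝ} (hC : ∀ t ∈ Icc (1 : ℝ) 3, ∀ x, |U t x| ≤ C) (u : ℝ)
    (x : Ω) : |RR n U u x ^ 2| ≤ (C / ft 3 (rho1 n)) ^ 2 := by
  rw [abs_pow]
  unfold RR
  split_ifs with hu
  · exact pow_le_pow_left₀ (abs_nonneg _) (h.abs_div_le (hC _ (exp_mem hu) x) (exp_mem hu).2) 2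
  · rw [abs_zero, zero_pow two_ne_zero]; positivity

lemma Big.near (h : Big n) (hM : Mom n μ U) :
    Integrable (fun x => DD (vv n) (0.994 * D0 n) (fun u => FF n U u x)) μ ∧
      ∫ x, DD (vv n) (0.994 * D0 n) (fun u => FF n U u x) ∂μ ≤ 0.994 * D0 n := by
  obtain ⟨C, hC⟩ := hM.bdd
  have D0p := h.D0_pos
  have s0 : (0 : ℝ) ≤ n / 4 := by positivity
  have mem : ∀ u ∈ Ioc 0 (vv n), u ∈ Icc 0 (Real.log 3) := fun u hu =>
    ⟨hu.1.le, by linarith [hu.2, h.v_lt]⟩
  obtain ⟨i1, i2⟩ := expect (μ := μ) (measurable_FF n hM.meas) (abs_FF_le n hC) (v := vv n)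
    (c := 0.994 * D0 n) (δ := de n) h.v (by linarith [h.v_le]) (by positivity) h.de_pos.le
    (fun u hu => by
      simp only [FF, if_pos (mem u hu)]
      rw [integral_mul_const, abs_mul, abs_of_pos (exp_pos _)]
      refine (mul_le_mul_of_nonneg_right (hM.first _ (exp_mem (mem u hu))) (exp_pos _).le).trans ?_
      rw [mul_assoc, Nt_near (by linarith [h.exp_le hu.2])]
      exact h.eps_S)
    (K := fun u u' => 2 * K0 (n / 4) u u') ((measurable_K0 _).const_mul 2)
    (fun u u' => by rw [K0_symm]) (fun u u' => mul_nonneg zero_le_two (K0_nonneg _ _ _))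
    (KB := 2) (fun u u' => by linarith [K0_le_one s0 u u'])
    (k := 2 * (Gamma ((n : ℝ) / 4) ^ 2 / Gamma (2 * ((n : ℝ) / 4))))
    (fun u => by
      rw [integral_const_mul]
      exact mul_le_mul_of_nonneg_left (int_K0 (by linarith [h.n_ge]) h.v_pos.le u) zero_le_two)
    (b := fun u => 6 * bump (n / 4) u) ((continuous_bump s0).measurable.const_mul 6)
    (MB := 6 * rexp (-((n : ℝ) / 4) * Real.log 2))
    (fun u => mul_nonneg (by norm_num) (bump_nonneg s0 u))
    (fun u => mul_le_mul_of_nonneg_left (bump_le s0 u) (by norm_num)) (M := 48 * de n)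
    (by
      rw [integral_const_mul, ← intervalIntegral.integral_of_le h.v_pos.le]
      linarith [h.int_bump (vv n)])
    (fun u hu u' hu' => by
      simp only [FF, if_pos (mem u hu), if_pos (mem u' hu')]
      set e := rexp ((n : ℝ) / 4 * u) * rexp ((n : ℝ) / 4 * u') with he
      have e0 : 0 < e := by positivity
      have a1 : ∀ x, U (rexp u) x * rexp ((n : ℝ) / 4 * u) * (U (rexp u') x *
          rexp ((n : ℝ) / 4 * u')) = U (rexp u) x * U (rexp u') x * e := fun x => by rw [he]; ring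
      simp_rw [a1]
      rw [integral_mul_const, abs_mul, abs_of_pos e0]
      have a2 := hM.second _ (exp_mem (mem u hu)) _ (exp_mem (mem u' hu'))
      have a3 := h.kernel hu.1.le hu.2 hu'.1.le hu'.2
      have a4 := abs_add_le (∫ x, U (rexp u) x * U (rexp u') x ∂μ -
        2 * In n (fun ρ => hh n (rexp u) ρ * hh n (rexp u') ρ))
        (2 * In n (fun ρ => hh n (rexp u) ρ * hh n (rexp u') ρ))
      rw [sub_add_cancel, abs_mul, abs_two] at a4
      have a5 := mul_le_mul_of_nonneg_right (a4.trans (add_le_add a2 le_rfl)) e0.le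
      have a6 : rexp (-0.0003 * n) * Nt n (rexp u) * Nt n (rexp u') * e ≤ de n ^ 2 / 2 := by
        have b1 := Nt_near (n := n) (u := u) (by linarith [h.exp_le hu.2])
        have b2 := Nt_near (n := n) (u := u') (by linarith [h.exp_le hu'.2])
        have n0 := h.npos
        have s1 := SS_pos n
        calc _ = rexp (-0.0003 * n) * ((Nt n (rexp u) * rexp ((n : ℝ) / 4 * u)) *
              (Nt n (rexp u') * rexp ((n : ℝ) / 4 * u'))) := by rw [he]; ring
          _ ≤ 1 / (12 * n) * (SS n * SS n) := by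
              rw [b1, b2]; exact mul_le_mul_of_nonneg_right h.eps_le (by positivity)
          _ = SS n ^ 2 / n / 12 := by field_simp
          _ ≤ _ := by
              rw [de_sq]
              exact div_le_div_of_nonneg_left (by positivity) (by norm_num) (by norm_num)
      have b1 := bump_nonneg s0 u
      have b2 := bump_nonneg s0 u'
      have d0 := h.de_pos
      have a7 : (if rexp u ≤ 1.1 ∧ rexp u' ≤ 1.1 then 20 * (1 + rexp u * rexp u') ^ (-2 * mh n)
          else 0) * e ≤ (if u ≤ 0.1 then 6 * bump (n / 4) u else 0) *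
            (if u' ≤ 0.1 then 6 * bump (n / 4) u' else 0) := by
        by_cases hc : rexp u ≤ 1.1 ∧ rexp u' ≤ 1.1
        · have := h.mirror2 hu.1.le hc.1 hu'.1.le hc.2
          rw [if_pos hc, if_pos (by linarith [Real.add_one_le_exp u, hc.1]),
            if_pos (by linarith [Real.add_one_le_exp u', hc.2])]
          nlinarith [mul_nonneg b1 b2]
        · rw [if_neg hc, zero_mul]
          split_ifs <;> positivity
      have c1 : 0 ≤ (if u ≤ 0.1 then 6 * bump (n / 4) u else 0) := by split_ifs <;> positivity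
      have c2 : 0 ≤ (if u' ≤ 0.1 then 6 * bump (n / 4) u' else 0) := by split_ifs <;> positivity
      nlinarith [mul_nonneg c1 d0.le, mul_nonneg c2 d0.le])
  refine ⟨i1, i2.trans ?_⟩
  have d1 := h.de_le
  have d0 := h.de_pos
  have d2 := h.D0_sq
  have d3 := h.v_le
  generalize Gamma ((n : ℝ) / 4) ^ 2 / Gamma (2 * ((n : ℝ) / 4)) = g at *
  have g0 : 0 ≤ g := by nlinarith [sq_nonneg (D0 n)]
  have d4 : (0.4955 * (2 * g) * vv n + (48 * de n + de n) ^ 2) / (2 * (0.994 * D0 n)) ≤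
      0.4968 * D0 n := by
    rw [div_le_iff₀ (by positivity)]
    have : (200000 * de n) ^ 2 ≤ D0 n ^ 2 := pow_le_pow_left₀ (by positivity) d1 2
    nlinarith [mul_le_mul_of_nonneg_left d3 g0]
  linarith

omit [IsProbabilityMeasure μ] in
lemma Big.far2 (h : Big n) (hM : Mom n μ U) {u : ℝ} (h0 : vv n ≤ u) (h1 : u ≤ Real.log 3) :
    ∫ x, RR n U u x ^ 2 ∂μ ≤ 3 * rexp 10201 * TT n * (u - vv n + 1 / √n)⁻¹ := by
  have mem : u ∈ Icc 0 (Real.log 3) := ⟨h.v_pos.le.trans h0, h1⟩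
  have f0 := ft_pos (rexp u) (rho1 n)
  have i0 : 0 < 1 / √(n : ℝ) := one_div_pos.mpr h.rpos
  have d0 : 0 < u - vv n + 1 / √n := by linarith
  simp only [RR, if_pos mem, div_pow]
  rw [integral_div, div_le_iff₀ (by positivity)]
  have a2 := (abs_le.mp (hM.second _ (exp_mem mem) _ (exp_mem mem))).2
  rw [if_neg (fun hc => by linarith [hc.1, h.le_exp h0])] at a2
  have a3 := h.In_hh_sq h0
  have a4 := h.Nt_far h0
  have a5 : rexp (-0.0003 * n) * Nt n (rexp u) * Nt n (rexp u) ≤ ft (rexp u) (rho1 n) ^ 2 := by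
    have := pow_le_pow_left₀ (mul_nonneg (exp_pos _).le (Nt_nonneg n (exp_pos u).le)) a4 2
    rw [mul_pow, ← Real.exp_nat_mul, show ((2 : ℕ) : ℝ) * (-0.00015 * n) = -0.0003 * n by
      push_cast; ring] at this
    linarith
  have a6 : 3 ≤ rexp 10201 * TT n / (u - vv n + 1 / √n) := by
    rw [le_div_iff₀ d0]
    have := Real.one_le_exp (show (0 : ℝ) ≤ 10201 by norm_num)
    nlinarith [h.T_ge, h.inv_r, log3_ub, h.v]
  have a7 := mul_le_mul_of_nonneg_right a6 (sq_nonneg (ft (rexp u) (rho1 n)))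
  simp_rw [sq (U _ _)]
  rw [← div_eq_mul_inv, mul_assoc 3, mul_div_assoc 3]
  linarith

lemma Big.Phi (h : Big n) (hM : Mom n μ U) :
    Integrable (fun x => ∫ u in Ioc (vv n) (Real.log 3), RR n U u x ^ 2) μ ∧
      ∫ x, (∫ u in Ioc (vv n) (Real.log 3), RR n U u x ^ 2) ∂μ ≤ 1e-12 * √n * TT n := by
  obtain ⟨C, hC⟩ := hM.bdd
  have v1 : vv n ≤ Real.log 3 := by linarith [h.v_lt]
  have i0 : 0 < 1 / √(n : ℝ) := one_div_pos.mpr h.rpos
  have T0 : 0 ≤ TT n := by linarith [h.T_ge]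
  have hi : Integrable (Function.uncurry fun x u => RR n U u x ^ 2)
      (μ.prod (volume.restrict (Ioc (vv n) (Real.log 3)))) :=
    int_bdd (((measurable_RR n hM.meas).comp measurable_swap).pow_const 2)
      (ae_of_all _ fun p => h.abs_RR_le hC p.2 p.1)
  refine ⟨hi.integral_prod_left, ?_⟩
  rw [integral_integral_swap hi]
  have ic : IntervalIntegrable (fun u => 3 * rexp 10201 * TT n * (u - vv n + 1 / √n)⁻¹) volume
      (vv n) (Real.log 3) := by
    refine (ContinuousOn.intervalIntegrable (ContinuousOn.inv₀ (by fun_prop) fun u hu => ?_)).const_mul _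
    rw [uIcc_of_le v1] at hu
    linarith [hu.1]
  refine (setIntegral_mono_on hi.integral_prod_right ic.1 measurableSet_Ioc
    fun u hu => h.far2 hM hu.1.le hu.2).trans ?_
  rw [← intervalIntegral.integral_of_le v1, intervalIntegral.integral_const_mul]
  have e : ∫ u in vv n..Real.log 3, (u - vv n + 1 / √n)⁻¹ ≤ Real.log (1 + √n) := by
    simp_rw [sub_add_eq_add_sub, add_sub_assoc]
    rw [intervalIntegral.integral_comp_add_right (fun y => y⁻¹),
      integral_inv_of_pos (by linarith) (by linarith)]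
    refine Real.log_le_log (div_pos (by linarith) (by linarith)) ?_
    rw [div_le_iff₀ (by linarith), add_sub_cancel, add_mul, mul_one_div_cancel h.rpos.ne']
    linarith [log3_ub, h.v]
  have := mul_le_mul_of_nonneg_left e (show 0 ≤ 3 * rexp 10201 * TT n by positivity)
  nlinarith [mul_le_mul_of_nonneg_right h.far T0]

lemma Big.Psi (h : Big n) (hM : Mom n μ U) :
    Integrable (fun x => RR n U (Real.log 3) x ^ 2) μ ∧
      ∫ x, RR n U (Real.log 3) x ^ 2 ∂μ ≤ 2e-12 * √n * TT n := by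
  obtain ⟨C, hC⟩ := hM.bdd
  have i0 : 0 < 1 / √(n : ℝ) := one_div_pos.mpr h.rpos
  have T0 : 0 ≤ TT n := by linarith [h.T_ge]
  refine ⟨int_bdd ((measurable_RR n hM.meas).of_uncurry_left.pow_const 2)
    (ae_of_all _ fun x => h.abs_RR_le hC _ x),
    (h.far2 hM (by linarith [h.v_lt]) le_rfl).trans ?_⟩
  have a1 : (Real.log 3 - vv n + 1 / √n)⁻¹ ≤ 2 := by
    rw [inv_eq_one_div, div_le_iff₀ (by linarith [h.v_lt])]; linarith [h.v_lt]
  have a2 : 1 ≤ Real.log (1 + √n) := by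
    rw [Real.le_log_iff_exp_le (by positivity)]; linarith [e_ub, h.r]
  have a3 := mul_le_mul_of_nonneg_left a2 (show 0 ≤ 3 * rexp 10201 by positivity)
  have a4 := mul_le_mul_of_nonneg_left a1 (show 0 ≤ 3 * rexp 10201 * TT n by positivity)
  nlinarith [mul_le_mul_of_nonneg_right (a3.trans h.far) T0]

end prob

end Tst

open Tst in
/-- second moments force a sample point where the drift beats the noise at every scale -/
theorem test : ∀ᶠ n : ℕ in atTop, ∀ (Ω : Type) [MeasurableSpace Ω] (μ : Measure Ω)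
    [IsProbabilityMeasure μ] (U : ℝ → Ω → ℝ) (G : Set Ω), Mom n μ U → MeasurableSet G →
    μ Gᶜ ≤ ENNReal.ofReal (rexp (-0.0003 * n)) →
    ∃ x ∈ G, Ub n (U 3 x) 3 < 0 ∧ ∀ α ∈ Set.Icc (0 : ℝ) (n / 4),
      IntervalIntegrable (fun u => Ub n (U (rexp u) x) (rexp u) * (rexp (n * u / 4) * Real.cosh (α * u)))
        volume 0 (Real.log 3) ∧
      ∫ u in (0 : ℝ)..Real.log 3,
        Ub n (U (rexp u) x) (rexp u) * (rexp (n * u / 4) * Real.cosh (α * u)) < 0 := by
  filter_upwards [big] with n h Ω _ μ _ U G hM hG hμ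
  obtain ⟨C, hC⟩ := hM.bdd
  obtain ⟨i1, e1⟩ := h.near hM
  obtain ⟨i2, e2⟩ := h.Phi hM
  obtain ⟨i3, e3⟩ := h.Psi hM
  have D0p := h.D0_pos
  have r0 := h.rpos
  have T0 : 0 < TT n := by linarith [h.T_ge]
  have v1 : vv n ≤ Real.log 3 := by linarith [h.v_lt]
  have hd := fun x => det (v := vv n) (c := 0.994 * D0 n) (f := fun u => FF n U u x) h.v_pos
    (by positivity) (measurable_FF n hM.meas).of_uncurry_right fun u => abs_FF_le n hC u x
  set Pm : ℝ := (0.0005 * TT n) ^ 2 / √n with hPm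
  set Qm : ℝ := (TT n / 2) ^ 2 with hQm
  have P0 : 0 < Pm := by positivity
  have Q0 : 0 < Qm := by positivity
  have p0 : ∀ x, 0 ≤ D0 n / Pm * ∫ u in Ioc (vv n) (Real.log 3), RR n U u x ^ 2 := fun x =>
    mul_nonneg (by positivity) (integral_nonneg fun u => sq_nonneg _)
  have q0 : ∀ x, 0 ≤ D0 n / Qm * RR n U (Real.log 3) x ^ 2 := fun x => by positivity
  have j1 : Integrable (fun x => 0.997 * D0 n - DD (vv n) (0.994 * D0 n) (fun u => FF n U u x)) μ :=
    (integrable_const _).sub i1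
  have j2 : Integrable (fun x => 0.997 * D0 n - DD (vv n) (0.994 * D0 n) (fun u => FF n U u x) -
      D0 n / Pm * ∫ u in Ioc (vv n) (Real.log 3), RR n U u x ^ 2) μ := j1.sub (i2.const_mul _)
  obtain ⟨x, hx, hq⟩ := exists_pos (μ := μ) (q := fun x => 0.997 * D0 n -
      DD (vv n) (0.994 * D0 n) (fun u => FF n U u x) -
      (D0 n / Pm * ∫ u in Ioc (vv n) (Real.log 3), RR n U u x ^ 2) -
      D0 n / Qm * RR n U (Real.log 3) x ^ 2) (j2.sub (i3.const_mul _)) D0p.le (exp_pos _).le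
    (fun x => by linarith [(hd x).1, p0 x, q0 x]) hG hμ (by
      rw [integral_sub j2 (i3.const_mul _), integral_sub j1 (i2.const_mul _),
        integral_sub (integrable_const _) i1, integral_const_mul (D0 n / Pm),
        integral_const_mul (D0 n / Qm), integral_const, probReal_univ, one_smul]
      have a1 := mul_le_mul_of_nonneg_left e2 (show 0 ≤ D0 n / Pm by positivity)
      have a2 := mul_le_mul_of_nonneg_left e3 (show 0 ≤ D0 n / Qm by positivity)
      have a3 : D0 n / Pm * (1e-12 * √n * TT n) ≤ 0.0005 * D0 n := by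
        rw [div_mul_eq_mul_div, div_le_iff₀ P0, hPm, ← mul_div_assoc, le_div_iff₀ r0]
        have b1 : D0 n * (1e-12 * √n * TT n) * √n = 1e-12 * (D0 n * TT n * (√n * √n)) := by ring
        rw [b1, rsq]
        have b2 : 0.0005 * D0 n * (0.0005 * TT n) ^ 2 =
          0.0005 ^ 3 * (77 / 2000) * (D0 n * TT n * n) := by unfold TT; ring
        rw [b2]
        exact mul_le_mul_of_nonneg_right (by norm_num) (by positivity)
      have a4 : D0 n / Qm * (2e-12 * √n * TT n) ≤ 0.0005 * D0 n := by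
        rw [div_mul_eq_mul_div, div_le_iff₀ Q0, hQm]
        have b1 : √(n : ℝ) ≤ TT n := by unfold TT; linarith [h.rn]
        nlinarith [mul_le_mul_of_nonneg_left b1 (mul_pos D0p T0).le, mul_pos (mul_pos D0p T0) T0]
      have a5 : rexp (-0.0003 * n) ≤ 0.001 :=
        h.eps_le.trans (by rw [div_le_iff₀ (by linarith [h.n_ge])]; linarith [h.n_ge])
      linarith [mul_le_mul_of_nonneg_right a5 D0p.le])
  have k0 := (hd x).1
  have k1 := p0 x
  have k2 := q0 x
  have hw : Measurable fun t => U t x := hM.meas.of_uncurry_right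
  refine ⟨x, hx, ?_, fun α hα => h.final hw (fun t ht => hC t ht x) hα.1 hα.2 ?_ ?_⟩
  · have a1 : D0 n / Qm * RR n U (Real.log 3) x ^ 2 ≤ D0 n / Qm * Qm := by
      rw [div_mul_cancel₀ _ Q0.ne']; linarith
    have a2 := le_of_sq_le_sq (le_of_mul_le_mul_left a1 (by positivity)) (by positivity)
    have a3 := h.Ub_far v1 (U 3 x)
    rw [RR, if_pos ⟨h.v_pos.le.trans v1, le_rfl⟩, div_le_iff₀ (ft_pos _ _)] at a2
    rw [Real.exp_log (by norm_num)] at a2 a3
    nlinarith [mul_le_mul_of_nonneg_right h.T_ge (ft_pos 3 (rho1 n)).le, ft_pos 3 (rho1 n)]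
  · refine le_trans (le_of_eq (intervalIntegral.integral_congr fun u hu => ?_))
      (((hd x).2 α hα.1).trans (mul_le_mul_of_nonneg_left (by linarith) (Real.cosh_pos _).le))
    rw [uIcc_of_le h.v_pos.le] at hu
    simp only [FF, if_pos (show u ∈ Icc 0 (Real.log 3) from ⟨hu.1, hu.2.trans v1⟩)]
  · have a1 : D0 n / Pm * ∫ u in Ioc (vv n) (Real.log 3), RR n U u x ^ 2 ≤ D0 n / Pm * Pm := by
      rw [div_mul_cancel₀ _ P0.ne']; linarith
    refine le_trans (le_of_eq ?_) (le_of_mul_le_mul_left a1 (by positivity))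
    rw [intervalIntegral.integral_of_le v1]
    refine setIntegral_congr_fun measurableSet_Ioc fun u hu => ?_
    simp only [RR, if_pos (show u ∈ Icc 0 (Real.log 3) from ⟨h.v_pos.le.trans hu.1.le, hu.2⟩)]

end Pool.Agent.Eps
end
end
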