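import Pool.Agent.Lib.MP_3bda03_nt.Prob
import Pool.Agent.Lib.MP_3bda03_nt.Test
import Pool.Agent.Lib.MP_3bda03_nt.Ana

set_option autoImplicit false

open scoped BigOperators Topology
open MeasureTheory Filter Pool.Agent.Eps

namespace Pool.Agent.Results.MP_3bda03_nt.LargeDim

theorem theta_decay {n : ℕ} {ω σ t : ℝ} (hω : 0 < ω) (ht : 3 ≤ t) (x : Xs (n / 2))
    (h : ∀ (k : Zv (n / 2)) (jl : Zv (n % 2) × Zv (n / 2)), (k, jl) ≠ 0 → σ ≤ rho ω x k jl) :
    theta n ω x t - 1 ≤ ft (t - 3) σ * (theta n ω x 3 - 1) := by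
  classical
  have t0 : 0 < t := by linarith
  have c0 := ft_pos (t - 3) σ
  have key : ∀ k : Zv (n / 2), FS (n % 2) ω (ft t) k x - (if k = 0 then 1 else 0) ≤
      ft (t - 3) σ * (FS (n % 2) ω (ft 3) k x - (if k = 0 then 1 else 0)) := by
    intro k
    have s0 : HasSum (fun jl : Zv (n % 2) × Zv (n / 2) =>
        if jl = 0 then (if k = 0 then (1 : ℝ) else 0) else 0) (if k = 0 then 1 else 0) :=
      hasSum_ite_eq _ _
    refine hasSum_le (fun jl => ?_) ((summable_ft hω t0 x k).hasSum.sub s0)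
      (((summable_ft hω (by norm_num) x k).hasSum.sub s0).mul_left _)
    by_cases hk : (k, jl) = 0
    · obtain ⟨rfl, rfl⟩ := Prod.mk_eq_zero.1 hk
      simp [rho_zero_eq, rho_zero_zero, ft_zero]
    · have e : (if jl = 0 then (if k = 0 then (1 : ℝ) else 0) else 0) = 0 := by
        split_ifs with h1 h2
        · exact absurd (Prod.mk_eq_zero.2 ⟨h2, h1⟩) hk
        · rfl
        · rfl
      rw [e, sub_zero, sub_zero]
      unfold ft
      rw [← Real.exp_add]
      refine Real.exp_le_exp.2 ?_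
      have := mul_le_mul_of_nonneg_left (h k jl hk) (mul_nonneg Real.pi_pos.le (sub_nonneg.2 ht))
      linarith
  have s1 : HasSum (fun k : Zv (n / 2) => if k = 0 then (1 : ℝ) else 0) 1 := hasSum_ite_eq _ _
  exact hasSum_le key ((summable_FS_ft hω t0 x).hasSum.sub s1)
    (((summable_FS_ft hω (by norm_num) x).hasSum.sub s1).mul_left _)

theorem ft_mul_le {n : ℕ} {σ t : ℝ} (ht : 3 ≤ t) (h : (n : ℝ) / (2 * Real.exp 1) ≤ Real.pi * σ) :
    ft (t - 3) σ * (3 : ℝ) ^ (-(n : ℝ) / 2) ≤ t ^ (-(n : ℝ) / 2) := by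
  have n0 : (0 : ℝ) ≤ n := Nat.cast_nonneg n
  have h6 : (n : ℝ) / 6 ≤ Real.pi * σ := le_trans (div_le_div_of_nonneg_left n0 (by positivity)
    (by linarith [Real.exp_one_lt_d9])) h
  unfold ft
  rw [Real.rpow_def_of_pos (by norm_num), Real.rpow_def_of_pos (by linarith), ← Real.exp_add]
  refine Real.exp_le_exp.2 ?_
  have h1 := Real.log_le_sub_one_of_pos (show 0 < t / 3 by linarith)
  rw [Real.log_div (by linarith) (by norm_num)] at h1
  have h2 := mul_le_mul_of_nonneg_left h1 n0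
  have h3 := mul_le_mul_of_nonneg_left h6 (sub_nonneg.2 ht)
  linarith

/-- In every sufficiently large dimension some lattice of covolume one has an Epstein zeta function
without zeros on the positive real axis. -/
theorem result : ∃ n₀ : ℕ, ∀ n : ℕ, n₀ ≤ n →
      ∃ A : Matrix (Fin n) (Fin n) ℝ, |A.det| = 1 ∧
        ∃ F : ℂ → ℂ,
          DifferentiableOn ℂ F {((n : ℂ) / 2)}ᶜ ∧
          (∀ s : ℂ, (n : ℝ) / 2 < s.re →
            F s = ∑' k : {k : Fin n → ℤ // k ≠ 0},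
              (((∑ i, (∑ j, A i j * ((k.1 j : ℤ) : ℝ)) ^ 2 : ℝ) : ℂ)) ^ (-s)) ∧
          (∀ x : ℝ, 0 < x → x ≠ (n : ℝ) / 2 → F (x : ℂ) ≠ 0) := by
  rw [← eventually_atTop]
  filter_upwards [prob, test, rho1_lb, eventually_ge_atTop 1] with n h1 h2 h3 hn
  obtain ⟨ω, ⟨μ, U, G, hP, hM, hG, hμ, hx⟩, hω⟩ := (h1.and self_mem_nhdsWithin).exists
  obtain ⟨x, hxG, h4, h5⟩ := h2 _ μ U G hM hG hμ
  obtain ⟨h6, h7⟩ := hx x hxG
  obtain ⟨A, hA, hθ⟩ := exists_matrix n hω x
  refine ⟨A, hA, ana hn A hA (fun t ht => ?_) fun α h0 hα => ?_⟩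
  · rw [hθ _ (inv_pos.2 ht), hθ _ ht, theta_inv hω ht]
  · have hI := integrableOn_thetaM A (by intro e; rw [e] at hA; simp at hA) h0 hα
    have l3 : (0 : ℝ) ≤ Real.log 3 := Real.log_nonneg (by norm_num)
    obtain ⟨i1, i2⟩ := h5 α ⟨h0, hα.le⟩
    have hw : ∀ u : ℝ, 0 ≤ Real.exp (n * u / 4) * Real.cosh (α * u) := fun u =>
      (mul_pos (Real.exp_pos _) (Real.cosh_pos _)).le
    rw [← Set.Ioc_union_Ioi_eq_Ioi l3, setIntegral_union (Set.Ioc_disjoint_Ioi le_rfl)
      measurableSet_Ioi (hI.mono_set Set.Ioc_subset_Ioi_self) (hI.mono_set (Set.Ioi_subset_Ioi l3))]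
    rw [intervalIntegral.integral_of_le l3] at i2
    have a := setIntegral_mono_on (hI.mono_set Set.Ioc_subset_Ioi_self) i1.1 measurableSet_Ioc
      fun u hu => by
        rw [hθ _ (Real.exp_pos u)]
        refine mul_le_mul_of_nonneg_right (h6 _ ⟨Real.one_le_exp hu.1.le, ?_⟩) (hw u)
        exact (Real.exp_le_exp.2 hu.2).trans (Real.exp_log (by norm_num)).le
    have b : ∫ u in Set.Ioi (Real.log 3), (thetaM A (Real.exp u) - 1 - Real.exp u ^ (-(n : ℝ) / 2)) *
        (Real.exp (n * u / 4) * Real.cosh (α * u)) ≤ 0 :=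
      setIntegral_nonpos measurableSet_Ioi fun u hu => by
        have hu3 : 3 ≤ Real.exp u :=
          (Real.exp_log (by norm_num)).ge.trans (Real.exp_le_exp.2 (le_of_lt hu))
        rw [hθ _ (Real.exp_pos u)]
        refine mul_nonpos_of_nonpos_of_nonneg ?_ (hw u)
        have c1 := theta_decay hω hu3 x h7
        have c2 := ft_mul_le hu3 h3
        have c3 := h6 3 ⟨by norm_num, le_rfl⟩
        have c4 := mul_le_mul_of_nonneg_left
          (show theta n ω x 3 - 1 ≤ (3 : ℝ) ^ (-(n : ℝ) / 2) by linarith)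
          (ft_pos (Real.exp u - 3) (rho1 n)).le
        linarith
    linarith

end Pool.Agent.Results.MP_3bda03_nt.LargeDim
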