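import Pool.Agent.Lib.MP_3bda03_nt.B.Small

set_option autoImplicit false

namespace Pool.Agent.Results.MP_3bda03_nt.SmallDim

/-- In every dimension up to 96 some lattice of covolume one has an Epstein zeta function
without zeros on the positive real axis. -/
theorem result : ∀ n : ℕ, 1 ≤ n → n ≤ 96 →
      ∃ A : Matrix (Fin n) (Fin n) ℝ, |A.det| = 1 ∧
        ∃ F : ℂ → ℂ,
          DifferentiableOn ℂ F {((n : ℂ) / 2)}ᶜ ∧
          (∀ s : ℂ, (n : ℝ) / 2 < s.re →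
            F s = ∑' k : {k : Fin n → ℤ // k ≠ 0},
              (((∑ i, (∑ j, A i j * ((k.1 j : ℤ) : ℝ)) ^ 2 : ℝ) : ℂ)) ^ (-s)) ∧
          (∀ x : ℝ, 0 < x → x ≠ (n : ℝ) / 2 → F (x : ℂ) ≠ 0) :=
  fun _ h1 h2 => Pool.Agent.Eps.B.goal_small h1 h2

end Pool.Agent.Results.MP_3bda03_nt.SmallDim
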