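import Pool.Agent.Lib.MP_3bda03_nt.ProbB

-- part Pool.Agent.Lib.MP_3bda03_nt.ProbC
section

/-! Families dominated by the nice sets, and the bad pairs of the inclusion-exclusion. -/

set_option autoImplicit false

noncomputable section

open scoped BigOperators Classical Topology
open MeasureTheory Real Complex Filter

namespace Pool.Agent.Eps

def Xc (n : ℕ) (c : ℝ) : ℝ := rexp (TT n / 2 - c * n)

theorem Xc_pos (n : ℕ) (c : ℝ) : 0 < Xc n c := Real.exp_pos _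

theorem Xc_anti (n : ℕ) {c c' : ℝ} (h : c ≤ c') : Xc n c' ≤ Xc n c := by
  unfold Xc
  exact Real.exp_le_exp.mpr (by nlinarith [(Nat.cast_nonneg n : (0 : ℝ) ≤ n)])

theorem exp_mul_Xc (n : ℕ) (a c : ℝ) : rexp (a * n) * Xc n c = Xc n (c - a) := by
  unfold Xc; rw [← Real.exp_add]; congr 1; ring

theorem exp_T_le (n : ℕ) : rexp (TT n / 2 + 1) ≤ 3 * Xc n 0 := by
  unfold Xc
  rw [Real.exp_add, zero_mul, sub_zero, mul_comm]
  gcongr
  exact (Real.exp_one_lt_d9.trans (by norm_num)).le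

theorem slack : ∀ᶠ n : ℕ in atTop, ∀ (C : ℝ) (a b : ℕ) (c : ℝ), C ≤ 1000 → a ≤ 20 → b ≤ 20 →
    C * ((n : ℝ) ^ a * En n ^ b) * Xc n c ≤ Xc n (c - 0.00001) := by
  filter_upwards [En_pow_le 1000 20 (ε := 0.00001) (by norm_num), eventually_ge_atTop 1]
    with n h hn C a b c hC ha hb
  rw [← exp_mul_Xc]
  refine mul_le_mul_of_nonneg_right (le_trans ?_ h) (Xc_pos n c).le
  have h1 : (1 : ℝ) ≤ n := by exact_mod_cast hn
  have h2 := one_le_En n
  rw [mul_assoc]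
  exact mul_le_mul hC (mul_le_mul (pow_le_pow_right₀ h1 ha) (pow_le_pow_right₀ h2 hb)
    (by positivity) (by positivity)) (by positivity) (by norm_num)

theorem Wt.pr_nonneg {n : ℕ} {ω : ℝ} (hn : 1 ≤ n) (hω : 0 < ω) {p : Zv (n / 2) → ℝ} (hp : Wt n ω p)
    {k : Zv (n / 2)} (hk : k ∈ Kp n ω) : 0 ≤ p k := by
  have h := (Maj_pos hn hω k).trans_le (hp.maj_le k hk)
  have : (0 : ℝ) < (n : ℝ) ^ 4 := by positivity
  exact ((mul_pos_iff_of_pos_left this).1 h).le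

theorem Dl_mono (n : ℕ) (ω : ℝ) {M M' : ℕ} (h : M ≤ M') : Dl n ω M ⊆ Dl n ω M' := by
  intro S hS
  unfold Dl at *
  rw [Finset.mem_filter] at *
  exact ⟨hS.1, hS.2.1, hS.2.2.trans h⟩

theorem Dl_sub (n : ℕ) (ω : ℝ) (M : ℕ) : Dl n ω M ⊆ (Kp n ω).powerset := Finset.filter_subset _ _

theorem Nz_mul_ge (n : ℕ) {τ τ' : ℝ} (h : 1 ≤ τ) (h' : 1 ≤ τ') :
    (1.0095 * (τ + τ')) ^ (-2 * mh n) ≤ Nz n τ * Nz n τ' := by
  have a := one_le_Lz τ
  have b := one_le_Lz τ'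
  have p1 : 0 < 2 * τ * Lz τ := by nlinarith [a.1]
  have p2 : 0 < 2 * τ' * Lz τ' := by nlinarith [b.1]
  unfold Nz
  rw [← Real.mul_rpow p1.le p2.le, show -2 * mh n = 2 * (-mh n) by ring,
    Real.rpow_mul (by positivity), Real.rpow_two]
  refine Real.rpow_le_rpow_of_nonpos (by positivity) ?_ (by linarith [pr_mh_nonneg n])
  have h1 : Lz τ * Lz τ' ≤ 1.0095 * 1.0095 := mul_le_mul a.2 b.2 (by linarith [b.1]) (by norm_num)
  have h2 : 4 * (τ * τ') ≤ (τ + τ') ^ 2 := by nlinarith [sq_nonneg (τ - τ')]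
  calc 2 * τ * Lz τ * (2 * τ' * Lz τ') = 4 * (τ * τ') * (Lz τ * Lz τ') := by ring
    _ ≤ (τ + τ') ^ 2 * (1.0095 * 1.0095) :=
        mul_le_mul h2 h1 (by nlinarith [a.1, b.1]) (by positivity)
    _ = _ := by ring

/-- families of weights dominated by the products over nice sets -/
structure Dom {ι : Type} (n : ℕ) (ω : ℝ) (s : Finset ι) (σ : ι → Finset (Zv (n / 2)))
    (H : ι → Xs (n / 2) → ℝ) (M : ℝ) : Prop where
  mem : ∀ i ∈ s, σ i ∈ Dl n ω (MM n + 1)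
  inv : ∀ i ∈ s, InvW (spanS (σ i)) (H i)
  le : ∀ i ∈ s, ∀ x, H i x ≤ AS n ω (σ i) x
  card : ∀ S ∈ Dl n ω (MM n + 1), ((s.filter fun i => σ i = S).card : ℝ) ≤ M
  nonneg : 0 ≤ M

theorem Dom.sum_le {ι : Type} {n : ℕ} {ω : ℝ} {s : Finset ι} {σ : ι → Finset (Zv (n / 2))}
    {H : ι → Xs (n / 2) → ℝ} {M : ℝ} (h : Dom n ω s σ H M) {F : Finset (Zv (n / 2)) → ℝ}
    (hF : ∀ S ∈ Dl n ω (MM n + 1), 0 ≤ F S) :
    ∑ i ∈ s, F (σ i) ≤ M * ∑ S ∈ Dl n ω (MM n + 1), F S := by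
  rw [← Finset.sum_fiberwise_of_maps_to h.mem, Finset.mul_sum]
  refine Finset.sum_le_sum fun S hS => ?_
  rw [Finset.sum_congr rfl (g := fun _ => F S) fun i hi => by rw [(Finset.mem_filter.1 hi).2],
    Finset.sum_const, nsmul_eq_mul]
  exact mul_le_mul_of_nonneg_right (h.card S hS) (hF S hS)

theorem Dom.sum_int_le {ι : Type} {n : ℕ} {ω : ℝ} {s : Finset ι} {σ : ι → Finset (Zv (n / 2))}
    {H : ι → Xs (n / 2) → ℝ} {M : ℝ} (h : Dom n ω s σ H M)
    (hA : ∀ S : Finset (Zv (n / 2)), InvW (spanS S) (AS n ω S))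
    {f : Finset (Zv (n / 2)) → Xs (n / 2) → ℂ} (hf : ∀ S ∈ Dl n ω (MM n + 1), BM (f S)) (j : ℕ) :
    ∑ i ∈ s, ∫ x, H i x * ‖f (σ i) x‖ ^ j ∂PP (n / 2) ≤
      M * ∑ S ∈ Dl n ω (MM n + 1), ∫ x, AS n ω S x * ‖f S x‖ ^ j ∂PP (n / 2) := by
  refine le_trans (Finset.sum_le_sum fun i hi => ?_)
    (h.sum_le (F := fun S => ∫ x, AS n ω S x * ‖f S x‖ ^ j ∂PP (n / 2)) fun S _ =>
      integral_nonneg fun x => mul_nonneg ((hA S).nonneg x) (by positivity))
  exact integral_mono ((h.inv i hi).w01.int_norm_pow (hf _ (h.mem i hi)) j _)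
    ((hA _).w01.int_norm_pow (hf _ (h.mem i hi)) j _)
    fun x => mul_le_mul_of_nonneg_right (h.le i hi x) (by positivity)

theorem dom_fam : ∀ᶠ n : ℕ in atTop, ∀ᶠ ω in 𝓝[>] (0 : ℝ), ∀ (ι : Type) (s : Finset ι)
    (σ : ι → Finset (Zv (n / 2))) (H : ι → Xs (n / 2) → ℝ) (M : ℝ), Dom n ω s σ H M →
      Fam n ω s (fun i => spanS (σ i)) (fun _ => 1) H ∧
      ∑ i ∈ s, ∫ x, H i x ∂PP (n / 2) ≤ 3 * M * Xc n 0 ∧
      ∑ i ∈ s, (∫ x, H i x ∂PP (n / 2)) * Err n ω (spanS (σ i)) 1 ≤ 4 * M * Xc n 0.03905 := by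
  filter_upwards [nice_adm, AA_inv, wt_pp, EAS_le, sum_Sh_le, eventually_ge_atTop 1]
    with n h1 h2 h3 h4 h5 hn
  filter_upwards [h2, h3, h4, h5, Ioo_mem_nhdsGT one_pos] with ω h2 h3 h4 h5 hω ι s σ H M hD
  have hp : ∀ S ∈ Dl n ω (MM n + 1), 0 ≤ ∏ k ∈ S, pp n ω k := fun S hS =>
    Finset.prod_nonneg fun k hk => h3.pr_nonneg hn hω.1 (Finset.mem_powerset.1 (Dl_sub n ω _ hS) hk)
  have hH : ∀ i ∈ s, ∫ x, H i x ∂PP (n / 2) ≤ ∏ k ∈ σ i, pp n ω k := fun i hi =>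
    (integral_mono (hD.inv i hi).integrable (h2.2 _).integrable (hD.le i hi)).trans
      (h4 _ (hD.mem i hi))
  have hs : ∑ S ∈ Dl n ω (MM n + 1), ∏ k ∈ S, pp n ω k ≤ 3 * Xc n 0 :=
    ((Finset.sum_le_sum_of_subset_of_nonneg (Dl_sub n ω _) fun S hS _ => Finset.prod_nonneg
      fun k hk => h3.pr_nonneg hn hω.1 (Finset.mem_powerset.1 hS hk)).trans
      (sum_prod_le hn hω.1 h3)).trans (exp_T_le n)
  have hM := hD.nonneg
  refine ⟨⟨fun i hi => (h1 ω hω.1 1 le_rfl _ (hD.mem i hi)).1,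
    fun i _ => one_le_pow₀ ((one_le_inv₀ hω.1).2 hω.2.le), hD.inv⟩, ?_, ?_⟩
  · calc _ ≤ ∑ i ∈ s, ∏ k ∈ σ i, pp n ω k := Finset.sum_le_sum hH
      _ ≤ M * ∑ S ∈ Dl n ω (MM n + 1), ∏ k ∈ S, pp n ω k := hD.sum_le hp
      _ ≤ M * (3 * Xc n 0) := by gcongr
      _ = _ := by ring
  · have hE : ∀ S, 0 ≤ Err n ω (spanS S) 1 := fun S => by
      unfold Err; have := Sh_nonneg n ω (spanS S); positivity
    have h6 : rexp (TT n / 2 + 0.00015 * n) = Xc n (-0.00015) := by unfold Xc; congr 1; ring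
    have h7 := Xc_anti n (c := -0.00015) (c' := 0) (by norm_num)
    calc _ ≤ ∑ i ∈ s, (∏ k ∈ σ i, pp n ω k) * Err n ω (spanS (σ i)) 1 :=
          Finset.sum_le_sum fun i hi => mul_le_mul_of_nonneg_right (hH i hi) (hE _)
      _ ≤ M * ∑ S ∈ Dl n ω (MM n + 1), (∏ k ∈ S, pp n ω k) * Err n ω (spanS S) 1 :=
          hD.sum_le (F := fun S => (∏ k ∈ S, pp n ω k) * Err n ω (spanS S) 1)
            fun S hS => mul_nonneg (hp S hS) (hE S)
      _ = M * (rexp (-0.0392 * n) * (∑ S ∈ Dl n ω (MM n + 1), ∏ k ∈ S, pp n ω k +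
          ∑ S ∈ Dl n ω (MM n + 1), (∏ k ∈ S, pp n ω k) * Sh n ω (spanS S))) := by
          rw [← Finset.sum_add_distrib, Finset.mul_sum (Dl n ω (MM n + 1)) _ (rexp _)]
          congr 1
          refine Finset.sum_congr rfl fun S _ => ?_
          unfold Err; ring
      _ ≤ M * (rexp (-0.0392 * n) * (4 * Xc n (-0.00015))) := by
          gcongr
          have := h5 _ h3
          linarith
      _ = 4 * M * (rexp (-0.0392 * n) * Xc n (-0.00015)) := by ring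
      _ = _ := by rw [exp_mul_Xc]; norm_num

theorem bm_Mir : ∀ᶠ n : ℕ in atTop, ∀ᶠ ω in 𝓝[>] (0 : ℝ),
    ∀ (W : Submodule ℝ (Ev (n / 2))) (D : ℝ), Adm n ω W D 1 → ∀ z : ℂ, 1 ≤ z.re → z.re ≤ 4 →
      BM (Mir n ω W z) := by
  filter_upwards [Mir_le] with n h
  filter_upwards [h] with ω h W D hA z h1 h2
  have m := (measurable_parts n ω W).2.2.1
  have m2 := (meas_comp2 m (measurable_const (a := z))).comp (measurable_prodMk_left (x := (0 : ℝ)))
  exact ⟨m2, _, h W D hA z h1 h2⟩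

theorem dom_z : ∀ᶠ n : ℕ in atTop, ∀ᶠ ω in 𝓝[>] (0 : ℝ), ∀ (ι : Type) (s : Finset ι)
    (σ : ι → Finset (Zv (n / 2))) (H : ι → Xs (n / 2) → ℝ) (M : ℝ), Dom n ω s σ H M →
      (∀ z z' : ℂ, Adz z → Adz z' → ∑ i ∈ s, ‖∫ x, (H i x : ℂ) *
        (Osc n ω (spanS (σ i)) z x * starRingEnd ℂ (Osc n ω (spanS (σ i)) z' x)) ∂PP (n / 2) -
          KK n ω z z' * (∫ x, H i x ∂PP (n / 2) : ℝ)‖ ≤
        26 * M * Xc n 0.03905 * (Nz n z.re * Nz n z'.re)) ∧
      (∀ z : ℂ, Adz z → ∑ i ∈ s, ‖∫ x, (H i x : ℂ) * Osc n ω (spanS (σ i)) z x ∂PP (n / 2) -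
          Del n ω z * (∫ x, H i x ∂PP (n / 2) : ℝ)‖ ≤ 4 * M * Xc n 0.03905 * Nz n z.re) ∧
      ∀ z : ℂ, Adz z → ∑ i ∈ s, ∫ x, H i x * ‖Osc n ω (spanS (σ i)) z x‖ ^ 2 ∂PP (n / 2) ≤
        (rexp (0.005 * n) * ∑ i ∈ s, ∫ x, H i x ∂PP (n / 2) + 26 * M * Xc n 0.03905) *
          Nz n z.re ^ 2 := by
  filter_upwards [dom_fam, second_moment, first_moment, KK_le, sum_Mir_le, bm_Mir, AA_inv, nice_adm]
    with n h1 h2 h3 h4 h5 h6 h7 h8
  filter_upwards [h1, h2, h3, h4, h5, h6, h7, self_mem_nhdsWithin]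
    with ω h1 h2 h3 h4 h5 h6 h7 hω ι s σ H M hD
  obtain ⟨hF, -, hE⟩ := h1 ι s σ H M hD
  have hM := hD.nonneg
  have two : ∀ z z' : ℂ, Adz z → Adz z' → ∑ i ∈ s, ‖∫ x, (H i x : ℂ) *
        (Osc n ω (spanS (σ i)) z x * starRingEnd ℂ (Osc n ω (spanS (σ i)) z' x)) ∂PP (n / 2) -
          KK n ω z z' * (∫ x, H i x ∂PP (n / 2) : ℝ)‖ ≤
        26 * M * Xc n 0.03905 * (Nz n z.re * Nz n z'.re) := by
    intro z z' hz hz'
    have r := hz.re_mem
    have r' := hz'.re_mem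
    have hre : (z + starRingEnd ℂ z').re = z.re + z'.re := by simp
    have hN := mul_pos (Nz_pos n r.1).1 (Nz_pos n r'.1).1
    have m1 := hD.sum_int_le h7.2 (f := fun S => Mir n ω (spanS S) (z + starRingEnd ℂ z'))
      (fun S hS => h6 _ 1 (h8 ω hω 1 le_rfl S hS).1 _ (by rw [hre]; linarith [r.1, r'.1])
        (by rw [hre]; linarith [r.2, r'.2])) 1
    simp only [pow_one] at m1
    have m2 := h5 (z + starRingEnd ℂ z') (by rw [hre]; linarith [r.1, r'.1])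
      (by rw [hre]; linarith [r.2, r'.2])
    have m3 : rexp (TT n / 2 - 0.05 * n) * (1.0095 * (z + starRingEnd ℂ z').re) ^ (-2 * mh n) ≤
        Xc n 0.03905 * (Nz n z.re * Nz n z'.re) := by
      rw [hre]
      exact mul_le_mul (Xc_anti n (by norm_num)) (Nz_mul_ge n r.1 r'.1)
        (Real.rpow_nonneg (by linarith [r.1, r'.1]) _) (Xc_pos _ _).le
    have m4 := mul_le_mul_of_nonneg_left (m2.trans m3) hM
    have m5 := mul_le_mul_of_nonneg_right hE hN.le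
    refine (Finset.sum_le_sum fun i hi => h2 _ 1 _ (hF.adm i hi) (hF.dle i hi) (hF.inv i hi)
      z z' hz hz').trans ?_
    simp only [Finset.sum_add_distrib, mul_assoc, ← Finset.mul_sum]
    simp only [← mul_assoc _ (Err n ω _ 1), ← Finset.sum_mul]
    nlinarith [m1, m4, m5]
  refine ⟨two, fun z hz => ?_, fun z hz => ?_⟩
  · refine (Finset.sum_le_sum fun i hi => h3 _ 1 _ (hF.adm i hi) (hF.dle i hi) (hF.inv i hi)
      z hz).trans ?_
    rw [← Finset.sum_mul]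
    exact mul_le_mul_of_nonneg_right hE (Nz_pos n hz.re_mem.1).1.le
  · have m := two z z hz hz
    have k := h4 z z hz hz
    calc _ ≤ ∑ i ∈ s, (‖KK n ω z z‖ * ∫ x, H i x ∂PP (n / 2) + ‖∫ x, (H i x : ℂ) *
        (Osc n ω (spanS (σ i)) z x * starRingEnd ℂ (Osc n ω (spanS (σ i)) z x)) ∂PP (n / 2) -
          KK n ω z z * (∫ x, H i x ∂PP (n / 2) : ℝ)‖) := by
          refine Finset.sum_le_sum fun i hi => ?_
          have h0 : 0 ≤ ∫ x, H i x ∂PP (n / 2) := integral_nonneg (hF.inv i hi).nonneg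
          simp only [Complex.mul_conj', ← Complex.ofReal_pow, ← Complex.ofReal_mul,
            integral_complex_ofReal]
          set a := ∫ x, H i x * ‖Osc n ω (spanS (σ i)) z x‖ ^ 2 ∂PP (n / 2)
          have := norm_sub_norm_le (a : ℂ) (KK n ω z z * (∫ x, H i x ∂PP (n / 2) : ℝ))
          rw [norm_mul, Complex.norm_real, Complex.norm_real, Real.norm_of_nonneg h0,
            Real.norm_eq_abs] at this
          linarith [le_abs_self a]
      _ ≤ _ := by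
          rw [Finset.sum_add_distrib, ← Finset.mul_sum]
          have h0 : 0 ≤ ∑ i ∈ s, ∫ x, H i x ∂PP (n / 2) :=
            Finset.sum_nonneg fun i hi => integral_nonneg (hF.inv i hi).nonneg
          have := mul_le_mul_of_nonneg_right k h0
          nlinarith [this, m]

theorem dom_t : ∀ᶠ n : ℕ in atTop, ∀ᶠ ω in 𝓝[>] (0 : ℝ), ∀ (ι : Type) (s : Finset ι)
    (σ : ι → Finset (Zv (n / 2))) (H : ι → Xs (n / 2) → ℝ) (M : ℝ), Dom n ω s σ H M →
    ∀ t ∈ Set.Icc (1 : ℝ) 3, ∀ ζ g : ℝ → ℂ, Mx n t ζ g →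
      (∀ i ∈ s, BM (Ov n ω (spanS (σ i)) ζ g)) ∧
      ∑ i ∈ s, ∫ x, H i x * ‖Ov n ω (spanS (σ i)) ζ g x‖ ^ 2 ∂PP (n / 2) ≤ 4 * (n : ℝ) ^ 14 *
        (rexp (0.005 * n) * ∑ i ∈ s, ∫ x, H i x ∂PP (n / 2) + 26 * M * Xc n 0.03905) *
          Nt n t ^ 2 ∧
      ∑ i ∈ s, ∫ x, H i x * ‖(Vt n ω t x : ℂ) - Ov n ω (spanS (σ i)) ζ g x‖ ^ 2 ∂PP (n / 2) ≤
        34 * (n : ℝ) ^ 14 * (M * Xc n 0.087) * Nt n t ^ 2 := by
  filter_upwards [dom_fam, dom_z, fam_O, fam_E, sum_Sg_sq_le, sum_Mir_sq_le, bm_Mir, AA_inv,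
    nice_adm, Sg_le, eventually_ge_atTop 1] with n h1 h2 h3 h4 h5 h6 h7 h8 h9 h10 hn
  filter_upwards [h1, h2, h3, h4, h5, h6, h7, h8, h10, self_mem_nhdsWithin]
    with ω h1 h2 h3 h4 h5 h6 h7 h8 h10 hω ι s σ H M hD t ht ζ g hM
  obtain ⟨hF, hq, -⟩ := h1 ι s σ H M hD
  have hM0 := hD.nonneg
  have h0 : 0 ≤ ∑ i ∈ s, ∫ x, H i x ∂PP (n / 2) :=
    Finset.sum_nonneg fun i hi => integral_nonneg (hF.inv i hi).nonneg
  have x1 := Xc_pos n 0.03905
  have x2 := Xc_pos n 0.087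
  obtain ⟨o1, o2⟩ := h3 ι s _ _ H hF t ht ζ g hM
  refine ⟨o1, o2 _ (by positivity) (h2 ι s σ H M hD).2.2,
    h4 ι s _ _ H hF t ht ζ g hM _ (by positivity) ?_ (fun z hz => ?_) ?_⟩
  · have m1 := hD.sum_int_le h8.2 (f := fun S x => (Sg n ω (spanS S) t x : ℂ)) (fun S hS =>
      ⟨Complex.measurable_ofReal.comp (measurable_Sg n ω _ t), _, fun x => by
        rw [Complex.norm_real, Real.norm_eq_abs]
        exact h10 _ _ (h9 ω hω 1 le_rfl S hS).1 t ht x⟩) 2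
    simp only [Complex.norm_real, Real.norm_eq_abs, sq_abs] at m1
    refine m1.trans ?_
    rw [mul_assoc]
    exact mul_le_mul_of_nonneg_left ((h5 t ht).trans
      (mul_le_mul_of_nonneg_right (Xc_anti n (by norm_num)) (by positivity))) hM0
  · have r : 1 ≤ z.re ∧ z.re ≤ 4 := by rcases hz with h | h <;> rw [h] <;> norm_num
    refine (hD.sum_int_le h8.2 (f := fun S => Mir n ω (spanS S) z)
      (fun S hS => h7 _ 1 (h9 ω hω 1 le_rfl S hS).1 _ r.1 r.2) 2).trans ?_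
    rw [mul_assoc]
    exact mul_le_mul_of_nonneg_left (h6 z hz) hM0
  · simp only [one_pow, mul_one]
    refine hq.trans ?_
    have h1 : (1 : ℝ) ≤ n := by exact_mod_cast hn
    have e : Xc n 0.087 * rexp (8 * n) = rexp (7.913 * n) * Xc n 0 := by
      rw [mul_comm, exp_mul_Xc, exp_mul_Xc]; norm_num
    have h3 : 3 ≤ rexp (7.913 * n) := by linarith [Real.add_one_le_exp (7.913 * n)]
    rw [mul_assoc M, e]
    have := Xc_pos n 0
    nlinarith [mul_le_mul_of_nonneg_right h3 (mul_nonneg hM0 this.le)]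

end Pool.Agent.Eps
end
end

-- part Pool.Agent.Lib.MP_3bda03_nt.ProbD
section

/-! The bad pairs of the inclusion-exclusion. -/

set_option autoImplicit false

noncomputable section

open scoped BigOperators Classical Topology
open MeasureTheory Real Complex Filter

namespace Pool.Agent.Eps

section
variable (n : ℕ) (ω : ℝ)

abbrev Pr := Finset (Zv (n / 2)) × Zv (n / 2)

def Hp (p : Pr n) (x : Xs (n / 2)) : ℝ := AS n ω p.1 x * AA n ω p.2 x

def Tb : Finset (Pr n) :=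
  (Dl n ω (MM n) ×ˢ Kp n ω).filter fun p => p.2 ∉ p.1 ∧ insert p.2 p.1 ∉ Dl n ω (MM n)

def Tb1 : Finset (Pr n) :=
  (Dl n ω (MM n) ×ˢ Kp n ω).filter fun p => p.2 ∉ p.1 ∧ iv p.2 ∈ spanS p.1

def Tb2 : Finset (Pr n) :=
  (Dl n ω (MM n) ×ˢ Kp n ω).filter fun p =>
    p.2 ∉ p.1 ∧ Nice n ω (insert p.2 p.1) ∧ p.1.card = MM n

def Tb3 : Finset (Pr n) :=
  (Dl n ω (MM n) ×ˢ Kp n ω).filter fun p => iv p.2 ∉ spanS p.1 ∧ ¬ Nice n ω (insert p.2 p.1)

end

theorem sum_pair {α β : Type*} (s : Finset α) (t : Finset β) (P : α × β → Prop) [DecidablePred P]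
    (f : α × β → ℝ) :
    ∑ p ∈ (s ×ˢ t).filter P, f p = ∑ a ∈ s, ∑ b ∈ t.filter (fun b => P (a, b)), f (a, b) := by
  simp only [Finset.sum_filter, Finset.sum_product]

theorem pr_mem_Dl {n : ℕ} {ω : ℝ} {M : ℕ} {S : Finset (Zv (n / 2))} :
    S ∈ Dl n ω M ↔ S ⊆ Kp n ω ∧ Nice n ω S ∧ S.card ≤ M := by
  simp [Dl]

theorem sum_Tb_le (n : ℕ) (ω : ℝ) {F : Pr n → ℝ} (hF : ∀ p, 0 ≤ F p) :
    ∑ p ∈ Tb n ω, F p ≤ ∑ p ∈ Tb1 n ω, F p + ∑ p ∈ Tb2 n ω, F p + ∑ p ∈ Tb3 n ω, F p := by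
  simp only [Tb, Tb1, Tb2, Tb3, Finset.sum_filter, ← Finset.sum_add_distrib]
  refine Finset.sum_le_sum fun p hp => ?_
  have h0 := hF p
  obtain ⟨hS, hv⟩ := Finset.mem_product.1 hp
  by_cases h : p.2 ∉ p.1 ∧ insert p.2 p.1 ∉ Dl n ω (MM n)
  · rw [if_pos h]
    by_cases h1 : iv p.2 ∈ spanS p.1
    · rw [if_pos ⟨h.1, h1⟩]; split_ifs <;> linarith
    · by_cases h2 : Nice n ω (insert p.2 p.1)
      · have h3 : p.1.card = MM n := by
          by_contra h3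
          refine h.2 (pr_mem_Dl.2 ⟨Finset.insert_subset hv (pr_mem_Dl.1 hS).1, h2, ?_⟩)
          have := (pr_mem_Dl.1 hS).2.2
          rw [Finset.card_insert_of_notMem h.1]
          omega
        rw [if_pos (c := p.2 ∉ p.1 ∧ Nice n ω (insert p.2 p.1) ∧ p.1.card = MM n) ⟨h.1, h2, h3⟩]
        split_ifs <;> linarith
      · rw [if_pos (c := iv p.2 ∉ spanS p.1 ∧ ¬ Nice n ω (insert p.2 p.1)) ⟨h1, h2⟩]
        split_ifs <;> linarith
  · rw [if_neg h]; split_ifs <;> linarith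

theorem MM_succ_le {n : ℕ} (hn : 2 ≤ n) : ((MM n + 1 : ℕ) : ℝ) ≤ n := by
  have : MM n + 1 ≤ n := by unfold MM; omega
  exact_mod_cast this

theorem bad_fams : ∀ᶠ n : ℕ in atTop, ∀ᶠ ω in 𝓝[>] (0 : ℝ),
    (∀ p, W01 (Hp n ω p)) ∧
    (Dom n ω (Tb1 n ω) (fun p => p.1) (Hp n ω) (En n ^ 2) ∧
      ∑ p ∈ Tb1 n ω, ∫ x, Hp n ω p x ∂PP (n / 2) ≤ Xc n 0.09) ∧
    (Dom n ω (Tb2 n ω) (fun p => insert p.2 p.1) (Hp n ω) n ∧
      ∑ p ∈ Tb2 n ω, ∫ x, Hp n ω p x ∂PP (n / 2) ≤ n * Xc n 0.045) ∧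
    (Fam n ω (Tb3 n ω) (fun p => ext (spanS p.1) p.2) (fun p => 1 + 1 / dk ω (spanS p.1) p.2)
      (Hp n ω) ∧ ∑ p ∈ Tb3 n ω, (∫ x, Hp n ω p x ∂PP (n / 2)) *
        (1 + 1 / dk ω (spanS p.1) p.2) ^ 3 ≤ En n ^ 3 * Xc n 0.25) := by
  filter_upwards [AA_inv, card_Kp_span_le, sum_dep_le, EAS_le, EAv_le, sum_size_le, wt_pp, nice_adm,
    adm_ext, dk_inv_le, sum_bad_le, eventually_ge_atTop 2] with n h1 h2 h3 h4 h5 h6 h7 h8 h9 h10 h11 hn
  filter_upwards [h1, h3, h4, h5, h7, h10, h11, self_mem_nhdsWithin]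
    with ω h1 h3 h4 h5 h7 h10 h11 hω
  have hA : ∀ k, W01 (AA n ω k) := fun k => (h1.1 ⊤ k trivial).w01
  have hm : Dl n ω (MM n) ⊆ Dl n ω (MM n + 1) := Dl_mono n ω (Nat.le_succ _)
  have hp : ∀ S ⊆ Kp n ω, 0 ≤ ∏ k ∈ S, pp n ω k := fun S hS =>
    Finset.prod_nonneg fun k hk => h7.pr_nonneg (by omega) hω (hS hk)
  refine ⟨fun p => (h1.2 p.1).w01.mul (hA p.2), ⟨⟨fun p hp => ?_, fun p hp => ?_, fun p _ x => ?_,
    fun S hS => ?_, by positivity⟩, ?_⟩, ?_, ⟨⟨fun p hp => ?_, fun p hp => ?_, fun p hp => ?_⟩, ?_⟩⟩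
  · exact hm (Finset.mem_product.1 (Finset.mem_filter.1 hp).1).1
  · exact (h1.2 p.1).mul (h1.1 _ p.2 (Finset.mem_filter.1 hp).2.2)
  · exact mul_le_of_le_one_right ((h1.2 p.1).nonneg x) ((hA p.2).le_one x)
  · refine le_trans ?_ (h2 ω hω S hS)
    rw [Nat.cast_le]
    refine Finset.card_le_card_of_injOn (fun p => p.2) (fun p hp => ?_) (fun p hp q hq e => ?_)
    · obtain ⟨a, b⟩ := Finset.mem_filter.1 hp
      obtain ⟨c, d⟩ := Finset.mem_filter.1 a
      exact Finset.mem_coe.2 (Finset.mem_filter.2 ⟨(Finset.mem_product.1 c).2, b ▸ d.2⟩)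
    · exact Prod.ext ((Finset.mem_filter.1 hp).2.trans (Finset.mem_filter.1 hq).2.symm) e
  · unfold Tb1; rw [sum_pair]; exact h3
  · have e : ∀ p ∈ Tb2 n ω, Hp n ω p = AS n ω (insert p.2 p.1) := fun p hp => by
      funext x; unfold Hp AS
      rw [Finset.prod_insert (Finset.mem_filter.1 hp).2.1, mul_comm]
    have hc : ∀ p ∈ Tb2 n ω, (insert p.2 p.1).card = MM n + 1 := fun p hp => by
      rw [Finset.card_insert_of_notMem (Finset.mem_filter.1 hp).2.1, (Finset.mem_filter.1 hp).2.2.2]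
    have hD : Dom n ω (Tb2 n ω) (fun p => insert p.2 p.1) (Hp n ω) n := by
      refine ⟨fun p hp => ?_, fun p hp => e p hp ▸ h1.2 _, fun p hp x => by rw [e p hp],
        fun S hS => ?_, by positivity⟩
      · obtain ⟨a, b⟩ := Finset.mem_filter.1 hp
        obtain ⟨c, d⟩ := Finset.mem_product.1 a
        exact pr_mem_Dl.2 ⟨Finset.insert_subset d (pr_mem_Dl.1 c).1, b.2.1, (hc p hp).le⟩
      · refine le_trans ?_ (MM_succ_le hn)
        rw [Nat.cast_le]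
        refine le_trans ?_ (pr_mem_Dl.1 hS).2.2
        refine Finset.card_le_card_of_injOn (fun p => p.2) (fun p hp => ?_) (fun p hp q hq e => ?_)
        · exact Finset.mem_coe.2 ((Finset.mem_filter.1 hp).2 ▸ Finset.mem_insert_self _ _)
        · obtain ⟨a, b⟩ := Finset.mem_filter.1 hp
          obtain ⟨c, d⟩ := Finset.mem_filter.1 hq
          refine Prod.ext ?_ e
          rw [← Finset.erase_insert (Finset.mem_filter.1 a).2.1,
            ← Finset.erase_insert (Finset.mem_filter.1 c).2.1, b, d]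
          exact congrArg _ e
    refine ⟨hD, ?_⟩
    have s1 := hD.sum_le (F := fun S => if S.card = MM n + 1 then ∏ k ∈ S, pp n ω k else 0)
      fun S hS => by split_ifs; exacts [hp S (pr_mem_Dl.1 hS).1, le_rfl]
    refine (Finset.sum_le_sum fun p hp => ?_).trans (s1.trans ?_)
    · rw [if_pos (hc p hp), e p hp]; exact h4 _ (hD.mem p hp)
    · refine mul_le_mul_of_nonneg_left (le_trans ?_ (h6 ω hω _ h7)) (by positivity)
      rw [← Finset.sum_filter]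
      exact Finset.sum_le_sum_of_subset_of_nonneg (Finset.filter_subset_filter _ (Dl_sub n ω _))
        fun S hS _ => hp S (Finset.mem_powerset.1 (Finset.mem_filter.1 hS).1)
  · obtain ⟨a, b⟩ := Finset.mem_filter.1 hp
    obtain ⟨c, d⟩ := Finset.mem_product.1 a
    have := h9 ω hω _ 1 0 p.2 (h8 ω hω 0 (by norm_num) p.1 c).1 (Finset.filter_subset _ _ d) b.1
    simpa only [one_mul, zero_add] using this
  · obtain ⟨a, b⟩ := Finset.mem_filter.1 hp
    exact h10 _ 1 p.2 (h8 ω hω 0 (by norm_num) p.1 (Finset.mem_product.1 a).1).1 b.1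
  · exact ((h1.2 p.1).mono (le_ext _ p.2).1).mul (h1.1 _ p.2 (le_ext _ p.2).2)
  · have s1 := h11 _ h7
    calc _ ≤ ∑ p ∈ Tb3 n ω, En n ^ 3 * ((∏ k ∈ p.1, pp n ω k) *
          (Maj n ω p.2 * (1 + 1 / dk ω (spanS p.1) p.2) ^ 4)) := by
          refine Finset.sum_le_sum fun p hp => ?_
          obtain ⟨a, b⟩ := Finset.mem_filter.1 hp
          have d := dk_pos hω p.1 b.1
          refine (mul_le_mul_of_nonneg_right (h5 p.1 (hm (Finset.mem_product.1 a).1) p.2 b.1)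
            (by positivity)).trans (le_of_eq ?_)
          ring
      _ ≤ _ := by
          rw [← Finset.mul_sum]
          refine mul_le_mul_of_nonneg_left ?_ (by have := one_le_En n; positivity)
          unfold Tb3; rw [sum_pair]; exact s1

theorem min_rpow_le (n : ℕ) {z : ℂ} (hz : z.re = 1.45 ∨ z.re = 1.55) :
    (z.re * min ‖z‖ 5) ^ (-mh n) ≤ rexp (0.085 * n) * Nz n z.re := by
  have r : 1.45 ≤ z.re ∧ z.re ≤ 1.55 := by rcases hz with h | h <;> rw [h] <;> norm_num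
  have h1 : z.re ≤ min ‖z‖ 5 := le_min (Complex.re_le_norm z) (by linarith [r.2])
  have h2 : 1.3978 ≤ rexp 0.34 := by
    have := Real.quadratic_le_exp_of_nonneg (x := 0.34) (by norm_num)
    linarith [show (1.3978 : ℝ) = 1 + 0.34 + 0.34 ^ 2 / 2 by norm_num]
  have a := one_le_Lz z.re
  have p1 : 0 < 2 * z.re * Lz z.re := by nlinarith [a.1, r.1]
  have h3 : 2 * z.re * Lz z.re * rexp (-0.34) ≤ z.re * min ‖z‖ 5 := by
    rw [Real.exp_neg, ← div_eq_mul_inv, div_le_iff₀ (Real.exp_pos _)]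
    have : 2 * Lz z.re ≤ min ‖z‖ 5 * rexp 0.34 := by nlinarith [a.2, r.1]
    nlinarith [r.1]
  refine (Real.rpow_le_rpow_of_nonpos (by positivity) h3 (by linarith [pr_mh_nonneg n])).trans ?_
  rw [Real.mul_rpow p1.le (Real.exp_pos _).le, ← Real.exp_mul, mul_comm]
  refine mul_le_mul_of_nonneg_right (Real.exp_le_exp.mpr ?_) (Real.rpow_nonneg p1.le _)
  linarith [(mh_le n).2]

theorem bm_Vt : ∀ᶠ n : ℕ in atTop, ∀ ω : ℝ, 0 < ω → Measurable (Function.uncurry (Vt n ω)) ∧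
    ∃ C : ℝ, ∀ t ∈ Set.Icc (1 : ℝ) 3, ∀ x, |Vt n ω t x| ≤ C := by
  filter_upwards [abs_hh_le] with n h ω hω
  constructor
  · have m1 : Measurable fun t => In n (hh n t) := by
      have : StronglyMeasurable fun p : ℝ × Ev n => hh n p.1 (‖p.2‖ ^ 2) :=
        ((measurable_hh n).comp (measurable_fst.prodMk
          (measurable_snd.norm.pow_const 2))).stronglyMeasurable
      exact (this.integral_prod_right' (ν := volume)).measurable
    exact (Finset.measurable_sum _ fun k _ => measurable_FS₂ ω (measurable_hh n) k).sub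
      (m1.comp measurable_fst)
  · refine ⟨∑ _k ∈ Kn n ω, 2 * ((1 + 1 / √(2 / 3)) ^ (n % 2) * (1 + ω / √(2 / 3)) ^ (n / 2)) +
      2 * In n (ft (2 / 3)), fun t ht x => ?_⟩
    refine (abs_sub _ _).trans (add_le_add ((Finset.abs_sum_le_sum_abs _ _).trans
      (Finset.sum_le_sum fun k _ => ?_)) ?_)
    · refine (FS_le_of_le hω (by norm_num) (h t ht) x k).2.trans (mul_le_mul_of_nonneg_left
        ((FS_ft_le hω (by norm_num) x k).trans (mul_le_of_le_one_left (by positivity) ?_)) zero_le_two)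
      rw [Real.exp_le_one_iff]
      have : 0 ≤ π * (2 / 3) * (ω ^ 2 * ‖iv k‖ ^ 2) := by positivity
      linarith
    · unfold In
      rw [← integral_const_mul, ← Real.norm_eq_abs]
      exact norm_integral_le_of_norm_le ((integrable_ft n (by norm_num)).const_mul 2)
        (Eventually.of_forall fun y => h t ht _ (by positivity))

theorem bm_Vt' : ∀ᶠ n : ℕ in atTop, ∀ ω : ℝ, 0 < ω → ∀ t ∈ Set.Icc (1 : ℝ) 3,
    BM fun x => (Vt n ω t x : ℂ) := by
  filter_upwards [bm_Vt] with n h ω hω t ht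
  obtain ⟨m, C, hC⟩ := h ω hω
  have m2 : Measurable (Vt n ω t) := m.of_uncurry_left
  exact ⟨Complex.measurable_ofReal.comp m2, C, fun x => by
    rw [Complex.norm_real, Real.norm_eq_abs]; exact hC t ht x⟩

theorem sum_V_le {ι Ω : Type} [MeasurableSpace Ω] {P : Measure Ω} [IsProbabilityMeasure P]
    (s : Finset ι) {H : ι → Ω → ℝ} (hH : ∀ i ∈ s, W01 (H i)) {V : Ω → ℂ} (hV : BM V)
    {O : ι → Ω → ℂ} (hO : ∀ i ∈ s, BM (O i)) :
    ∑ i ∈ s, ∫ x, H i x * ‖V x‖ ^ 2 ∂P ≤ 2 * ∑ i ∈ s, ∫ x, H i x * ‖O i x‖ ^ 2 ∂P +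
      2 * ∑ i ∈ s, ∫ x, H i x * ‖V x - O i x‖ ^ 2 ∂P := by
  have := sum_sq_add_le (P := P) s hH hO (g := fun i x => V x - O i x) fun i hi => hV.sub (hO i hi)
  simpa only [add_sub_cancel] using this

theorem bad3_le : ∀ᶠ n : ℕ in atTop, ∀ᶠ ω in 𝓝[>] (0 : ℝ), ∀ t ∈ Set.Icc (1 : ℝ) 3,
    ∑ p ∈ Tb3 n ω, ∫ x, Hp n ω p x * ‖(Vt n ω t x : ℂ)‖ ^ 2 ∂PP (n / 2) ≤
      76 * ((n : ℝ) ^ 14 * En n ^ 13) * Xc n 0.08 * Nt n t ^ 2 := by
  filter_upwards [bad_fams, fam_O, fam_E, second_moment_crude, Sg_le, Mir_le, bm_Mir, bm_Vt',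
    exists_mx] with n h1 h2 h3 h4 h5 h6 h7 h8 h9
  filter_upwards [h1, h2, h3, h4, h5, h6, h7, self_mem_nhdsWithin]
    with ω h1 h2 h3 h4 h5 h6 h7 hω t ht
  obtain ⟨hW, -, -, hF, hq⟩ := h1
  obtain ⟨ζ, g, hM⟩ := h9 t ht
  set D : Pr n → ℝ := fun p => 1 + 1 / dk ω (spanS p.1) p.2 with hDdef
  have hE := one_le_En n
  have x1 := Xc_pos n 0.08
  have x2 := Xc_pos n 0.25
  have hD : ∀ p ∈ Tb3 n ω, 1 ≤ D p := fun p hp => (hF.adm p hp).one_le
  have h0 : ∀ p, 0 ≤ ∫ x, Hp n ω p x ∂PP (n / 2) := fun p => integral_nonneg (hW p).nonneg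
  -- pointwise bounds `‖f‖ ≤ D c` sum up
  have key : ∀ (f : Pr n → Xs (n / 2) → ℂ) (c : ℝ), (∀ p ∈ Tb3 n ω, BM (f p)) →
      (∀ p ∈ Tb3 n ω, ∀ x, ‖f p x‖ ≤ D p * c) →
      ∑ p ∈ Tb3 n ω, ∫ x, Hp n ω p x * ‖f p x‖ ^ 2 ∂PP (n / 2) ≤ En n ^ 3 * Xc n 0.25 * c ^ 2 := by
    intro f c hf hb
    refine le_trans (Finset.sum_le_sum fun p hp => ?_)
      ((Finset.sum_mul _ _ _).symm.le.trans (mul_le_mul_of_nonneg_right hq (sq_nonneg c)))
    rw [mul_assoc, ← integral_mul_const]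
    refine integral_mono ((hW p).int_norm_pow (hf p hp) 2 _) (((hW p).integrable _).mul_const _)
      fun x => mul_le_mul_of_nonneg_left ?_ ((hW p).nonneg x)
    refine (pow_le_pow_left₀ (norm_nonneg _) (hb p hp x) 2).trans ?_
    rw [mul_pow]
    exact mul_le_mul_of_nonneg_right (pow_le_pow_right₀ (hD p hp) (by norm_num)) (sq_nonneg c)
  have b1 : En n ^ 3 * Xc n 0.25 ≤ En n ^ 13 * Xc n 0.08 :=
    mul_le_mul (pow_le_pow_right₀ hE (by norm_num)) (Xc_anti n (by norm_num)) x2.le (by positivity)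
  obtain ⟨o1, o2⟩ := h2 _ _ _ _ _ hF t ht ζ g hM
  have o3 := o2 (En n ^ 13 * Xc n 0.08) (by positivity) fun z hz => by
    calc _ ≤ ∑ p ∈ Tb3 n ω, (∫ x, Hp n ω p x ∂PP (n / 2)) * D p ^ 3 *
          (rexp (0.05 * n) * Nz n z.re ^ 2) :=
          Finset.sum_le_sum fun p hp => (h4 _ _ _ (hF.adm p hp) (hF.dle p hp) (hF.inv p hp)
            z hz).trans (le_of_eq (by simp only [hDdef]; ring))
      _ ≤ En n ^ 3 * Xc n 0.25 * (rexp (0.05 * n) * Nz n z.re ^ 2) := by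
          rw [← Finset.sum_mul]; gcongr
      _ = En n ^ 3 * (rexp (0.05 * n) * Xc n 0.25) * Nz n z.re ^ 2 := by ring
      _ ≤ _ := by
          rw [exp_mul_Xc]
          exact mul_le_mul_of_nonneg_right (mul_le_mul (pow_le_pow_right₀ hE (by norm_num))
            (Xc_anti n (by norm_num)) (Xc_pos _ _).le (by positivity)) (sq_nonneg _)
  have e3 := h3 _ _ _ _ _ hF t ht ζ g hM (En n ^ 13 * Xc n 0.08) (by positivity) ?_ (fun z hz => ?_) ?_
  · have := sum_V_le (P := PP (n / 2)) (Tb3 n ω) (fun p _ => hW p) (h8 ω hω t ht) o1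
    linarith
  · have := key (fun p x => (Sg n ω (ext (spanS p.1) p.2) t x : ℂ)) (En n ^ 5 * Nt n t) (fun p hp =>
      ⟨Complex.measurable_ofReal.comp (measurable_Sg n ω _ t), _, fun x => by
        rw [Complex.norm_real, Real.norm_eq_abs]; exact h5 _ _ (hF.adm p hp) t ht x⟩)
      (fun p hp x => by
        rw [Complex.norm_real, Real.norm_eq_abs, ← mul_assoc]; exact h5 _ _ (hF.adm p hp) t ht x)
    simp only [Complex.norm_real, Real.norm_eq_abs, sq_abs] at this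
    refine this.trans ?_
    calc _ = En n ^ 13 * Xc n 0.25 * Nt n t ^ 2 := by ring
      _ ≤ _ := by gcongr; exact Xc_anti n (by norm_num)
  · have r : 1 ≤ z.re ∧ z.re ≤ 4 := by rcases hz with h | h <;> rw [h] <;> norm_num
    have := key (fun p => Mir n ω (ext (spanS p.1) p.2) z)
      (En n ^ 3 * (rexp (0.085 * n) * Nz n z.re)) (fun p hp => h7 _ _ (hF.adm p hp) z r.1 r.2)
      (fun p hp x => (h6 _ _ (hF.adm p hp) z r.1 r.2 x).trans (by
        rw [← mul_assoc]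
        exact mul_le_mul_of_nonneg_left (min_rpow_le n hz) (by have := hD p hp; positivity)))
    refine this.trans ?_
    calc _ = En n ^ 9 * (rexp (0.085 * n) * (rexp (0.085 * n) * Xc n 0.25)) * Nz n z.re ^ 2 := by ring
      _ = En n ^ 9 * Xc n 0.08 * Nz n z.re ^ 2 := by rw [exp_mul_Xc, exp_mul_Xc]; norm_num
      _ ≤ _ := by gcongr; norm_num
  · calc _ ≤ ∑ p ∈ Tb3 n ω, (∫ x, Hp n ω p x ∂PP (n / 2)) * D p ^ 3 :=
          Finset.sum_le_sum fun p hp =>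
            mul_le_mul_of_nonneg_left (pow_le_pow_right₀ (hD p hp) (by norm_num)) (h0 p)
      _ ≤ _ := hq.trans (b1.trans (le_mul_of_one_le_right (by positivity)
          (Real.one_le_exp (by positivity))))

theorem bad_le : ∀ᶠ n : ℕ in atTop, ∀ᶠ ω in 𝓝[>] (0 : ℝ),
    ∑ p ∈ Tb n ω, ∫ x, Hp n ω p x ∂PP (n / 2) ≤ Xc n 0.0449 ∧ ∀ t ∈ Set.Icc (1 : ℝ) 3,
    ∑ p ∈ Tb n ω, ∫ x, Hp n ω p x * ‖(Vt n ω t x : ℂ)‖ ^ 2 ∂PP (n / 2) ≤
      Xc n 0.03904 * Nt n t ^ 2 := by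
  filter_upwards [bad_fams, bad3_le, dom_t, bm_Vt', exists_mx, slack, eventually_ge_atTop 1]
    with n h1 h2 h3 h4 h5 h6 hn
  filter_upwards [h1, h2, h3, self_mem_nhdsWithin] with ω h1 h2 h3 hω
  obtain ⟨hW, ⟨d1, q1⟩, ⟨d2, q2⟩, hF, q3⟩ := h1
  have hE := one_le_En n
  have h1 : (1 : ℝ) ≤ n := by exact_mod_cast hn
  have h0 : ∀ p, 0 ≤ ∫ x, Hp n ω p x ∂PP (n / 2) := fun p => integral_nonneg (hW p).nonneg
  have mono : ∀ a b : ℕ, a ≤ 15 → b ≤ 13 → ∀ c c' : ℝ, c' ≤ c →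
      (n : ℝ) ^ a * En n ^ b * Xc n c ≤ (n : ℝ) ^ 15 * En n ^ 13 * Xc n c' := fun a b ha hb c c' hc =>
    mul_le_mul (mul_le_mul (pow_le_pow_right₀ h1 ha) (pow_le_pow_right₀ hE hb) (by positivity)
      (by positivity)) (Xc_anti n hc) (Xc_pos _ _).le (by positivity)
  constructor
  · have q3' : ∑ p ∈ Tb3 n ω, ∫ x, Hp n ω p x ∂PP (n / 2) ≤ En n ^ 3 * Xc n 0.25 :=
      le_trans (Finset.sum_le_sum fun p hp =>
        le_mul_of_one_le_right (h0 p) (one_le_pow₀ (hF.adm p hp).one_le)) q3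
    have s := h6 3 15 13 0.045 (by norm_num) (by norm_num) (by norm_num)
    have a1 := mono 0 0 (by norm_num) (by norm_num) 0.09 0.045 (by norm_num)
    have a2 := mono 1 0 (by norm_num) (by norm_num) 0.045 0.045 (by norm_num)
    have a3 := mono 0 3 (by norm_num) (by norm_num) 0.25 0.045 (by norm_num)
    have a4 := Xc_anti n (c := 0.0449) (c' := 0.045 - 0.00001) (by norm_num)
    simp only [pow_zero, pow_one, one_mul, mul_one] at a1 a2 a3
    linarith [sum_Tb_le n ω h0]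
  · intro t ht
    obtain ⟨ζ, g, hM⟩ := h5 t ht
    obtain ⟨o1, o2, o3⟩ := h3 _ _ _ _ _ d1 t ht ζ g hM
    obtain ⟨p1, p2, p3⟩ := h3 _ _ _ _ _ d2 t ht ζ g hM
    have v1 := sum_V_le (P := PP (n / 2)) (Tb1 n ω) (fun p _ => hW p) (h4 ω hω t ht) o1
    have v2 := sum_V_le (P := PP (n / 2)) (Tb2 n ω) (fun p _ => hW p) (h4 ω hω t ht) p1
    have v3 := h2 t ht
    have v0 := sum_Tb_le n ω (F := fun p => ∫ x, Hp n ω p x * ‖(Vt n ω t x : ℂ)‖ ^ 2 ∂PP (n / 2))
      fun p => integral_nonneg fun x => mul_nonneg ((hW p).nonneg x) (sq_nonneg _)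
    have r1 : rexp (0.005 * n) * ∑ p ∈ Tb1 n ω, ∫ x, Hp n ω p x ∂PP (n / 2) ≤ Xc n 0.085 := by
      refine (mul_le_mul_of_nonneg_left q1 (Real.exp_pos _).le).trans ?_
      rw [exp_mul_Xc]; norm_num
    have r2 : rexp (0.005 * n) * ∑ p ∈ Tb2 n ω, ∫ x, Hp n ω p x ∂PP (n / 2) ≤ n * Xc n 0.04 := by
      refine (mul_le_mul_of_nonneg_left q2 (Real.exp_pos _).le).trans ?_
      rw [mul_left_comm, exp_mul_Xc]; norm_num
    have s := h6 644 15 13 0.03905 (by norm_num) (by norm_num) (by norm_num)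
    have a1 := mono 14 0 (by norm_num) (by norm_num) 0.085 0.03905 (by norm_num)
    have a2 := mono 14 2 (by norm_num) (by norm_num) 0.03905 0.03905 (by norm_num)
    have a3 := mono 14 2 (by norm_num) (by norm_num) 0.087 0.03905 (by norm_num)
    have a4 := mono 15 0 (by norm_num) (by norm_num) 0.04 0.03905 (by norm_num)
    have a5 := mono 15 0 (by norm_num) (by norm_num) 0.03905 0.03905 (by norm_num)
    have a6 := mono 15 0 (by norm_num) (by norm_num) 0.087 0.03905 (by norm_num)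
    have a7 := mono 14 13 (by norm_num) (by norm_num) 0.08 0.03905 (by norm_num)
    have b1 := mul_le_mul_of_nonneg_left r1 (show (0 : ℝ) ≤ (n : ℝ) ^ 14 by positivity)
    have b2 := mul_le_mul_of_nonneg_left r2 (show (0 : ℝ) ≤ (n : ℝ) ^ 14 by positivity)
    have e : (0.03905 - 0.00001 : ℝ) = 0.03904 := by norm_num
    rw [e] at s
    have fin : 2 * (4 * (n : ℝ) ^ 14 * (rexp (0.005 * n) * ∑ p ∈ Tb1 n ω, ∫ x, Hp n ω p x ∂PP (n / 2) +
        26 * En n ^ 2 * Xc n 0.03905)) + 2 * (34 * (n : ℝ) ^ 14 * (En n ^ 2 * Xc n 0.087)) +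
        (2 * (4 * (n : ℝ) ^ 14 * (rexp (0.005 * n) * ∑ p ∈ Tb2 n ω, ∫ x, Hp n ω p x ∂PP (n / 2) +
        26 * n * Xc n 0.03905)) + 2 * (34 * (n : ℝ) ^ 14 * (n * Xc n 0.087))) +
        76 * ((n : ℝ) ^ 14 * En n ^ 13) * Xc n 0.08 ≤ Xc n 0.03904 := by
      simp only [pow_zero, mul_one] at a1 a4 a5 a6
      linarith
    have := mul_le_mul_of_nonneg_right fin (sq_nonneg (Nt n t))
    linarith

end Pool.Agent.Eps
end
end

-- part Pool.Agent.Lib.MP_3bda03_nt.ProbE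
section

/-! First and second moments of the noise against the hole weight. -/

set_option autoImplicit false

noncomputable section

open scoped BigOperators Classical Topology
open MeasureTheory Real Complex Filter

namespace Pool.Agent.Eps

def Dt (n : ℕ) (ω : ℝ) (ζ g : ℝ → ℂ) : ℂ := ∫ y, g y * Del n ω (ζ y) ∂nu

def Kt (n : ℕ) (ω : ℝ) (ζ g ζ' g' : ℝ → ℂ) : ℂ :=
  ∫ p : ℝ × ℝ, (g p.1 * starRingEnd ℂ (g' p.2)) * KK n ω (ζ p.1) (ζ' p.2) ∂(nu.prod nu)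

theorem ww_euler : ∀ᶠ n : ℕ in atTop, ∀ᶠ ω in 𝓝[>] (0 : ℝ), W01 (ww n ω) ∧
    (∀ x, |∑ S ∈ Dl n ω (MM n), (-1 : ℝ) ^ S.card * AS n ω S x - ww n ω x| ≤
      ∑ p ∈ Tb n ω, Hp n ω p x) ∧ rexp (-TT n / 2 - 3) ≤ ∫ x, ww n ω x ∂PP (n / 2) := by
  filter_upwards [AA_inv, alt_lb, bad_le, bad_fams, eventually_ge_atTop 500] with n h1 h2 h3 h4 hn
  filter_upwards [h1, h2, h3, h4] with ω h1 h2 h3 h4
  have hA : ∀ k, W01 (AA n ω k) := fun k => (h1.1 ⊤ k trivial).w01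
  have hw : W01 (ww n ω) :=
    ⟨Finset.measurable_prod _ fun k _ => measurable_const.sub (hA k).meas,
      fun x => Finset.prod_nonneg fun k _ => sub_nonneg.2 ((hA k).le_one x),
      fun x => Finset.prod_le_one (fun k _ => sub_nonneg.2 ((hA k).le_one x))
        fun k _ => sub_le_self _ ((hA k).nonneg x)⟩
  have hd := Dl_down (ω := ω) (show 3 ≤ n by omega) (MM n)
  have he : ∀ x, |∑ S ∈ Dl n ω (MM n), (-1 : ℝ) ^ S.card * AS n ω S x - ww n ω x| ≤
      ∑ p ∈ Tb n ω, Hp n ω p x := fun x => by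
    have := euler_le (Kp n ω) (Dl n ω (MM n)) (fun S hS => (hd.2 S hS).1) hd.1
      (fun S hS => (hd.2 S hS).2) (fun k => AA n ω k x)
      fun k _ => ⟨(hA k).nonneg x, (hA k).le_one x⟩
    unfold Tb; rw [sum_pair]; exact this
  refine ⟨hw, he, ?_⟩
  have i1 : ∀ S ∈ Dl n ω (MM n),
      Integrable (fun x => (-1 : ℝ) ^ S.card * AS n ω S x) (PP (n / 2)) :=
    fun S _ => (h1.2 S).integrable.const_mul _
  have i2 : ∀ p ∈ Tb n ω, Integrable (Hp n ω p) (PP (n / 2)) := fun p _ => (h4.1 p).integrable _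
  have m := integral_mono ((integrable_finsetSum _ i1).sub (integrable_finsetSum _ i2))
    (hw.integrable (PP (n / 2))) fun x => by
      have := (abs_le.1 (he x)).2
      simp only [Pi.sub_apply]
      linarith
  simp only [Pi.sub_apply] at m
  rw [integral_sub (integrable_finsetSum _ i1) (integrable_finsetSum _ i2), integral_finsetSum _ i1,
    integral_finsetSum _ i2] at m
  simp only [integral_const_mul] at m
  have h5 : (500 : ℝ) ≤ n := by exact_mod_cast hn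
  have a1 : Xc n 0.0449 ≤ rexp (-TT n / 2 - 3) := by
    unfold Xc TT; exact Real.exp_le_exp.mpr (by linarith)
  have a2 : 2 * rexp (-TT n / 2 - 3) ≤ rexp (-TT n / 2 - 2) := by
    rw [show -TT n / 2 - 2 = 1 + (-TT n / 2 - 3) by ring, Real.exp_add]
    gcongr
    linarith [Real.add_one_le_exp 1]
  linarith [h3.1]

theorem Mx.point {n : ℕ} {t : ℝ} {ζ g : ℝ → ℂ} (h : Mx n t ζ g) (f : ℝ → ℝ) (y : ℝ) :
    ‖g y‖ * (if (ζ y).re ≤ 1.1 then f (ζ y).re else 0) =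
      if y = 0 then (if t ≤ 1.1 then f t else 0) else 0 := by
  by_cases hy : y = 0
  · rw [if_pos hy, hy]
    rcases le_or_gt t (3 / 2) with ht | ht
    · simp [(h.lo ht).1, (h.lo ht).2]
    · rw [h.hi ht, if_neg (show ¬ t ≤ 1.1 by linarith)]; simp
  · rw [if_neg hy, if_neg, mul_zero]
    rcases h.re y hy with e | e <;> rw [e] <;> norm_num

theorem Dt_le : ∀ᶠ n : ℕ in atTop, ∀ᶠ ω in 𝓝[>] (0 : ℝ), ∀ t ∈ Set.Icc (1 : ℝ) 3,
    ∀ ζ g : ℝ → ℂ, Mx n t ζ g → BM (fun y => Del n ω (ζ y)) ∧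
      ‖Dt n ω ζ g‖ ≤ (if t ≤ 1.1 then 6 * (t ^ 2 + 1) ^ (-mh n) else 0) +
        rexp (-0.0005 * n) * (2 * (n : ℝ) ^ 7 * Nt n t) ∧
      ‖Dt n ω ζ g‖ ≤ 14 * (n : ℝ) ^ 7 * Nt n t := by
  filter_upwards [Del_le'] with n h
  filter_upwards [h] with ω h t ht ζ g hM
  have h7 : ∀ y, ‖Del n ω (ζ y)‖ ≤ 7 * Nz n (ζ y).re := fun y => by
    have r := (hM.adz y).re_mem
    have p := Nz_pos n r.1
    have a : rexp (-0.0005 * n) * Nz n (ζ y).re ≤ Nz n (ζ y).re :=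
      mul_le_of_le_one_left p.1.le (Real.exp_le_one_iff.2 (by
        have : (0 : ℝ) ≤ n := Nat.cast_nonneg n
        linarith))
    refine (h _ (hM.adz y)).trans ?_
    split_ifs with h1
    · have : ((ζ y).re ^ 2 + 1) ^ (-mh n) ≤ Nz n (ζ y).re := by
        unfold Nz Lz
        rw [if_pos (by linarith), mul_one]
        exact Real.rpow_le_rpow_of_nonpos (by linarith [r.1]) (by nlinarith [sq_nonneg ((ζ y).re - 1)])
          (by linarith [pr_mh_nonneg n])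
      linarith
    · linarith [p.1]
  refine ⟨⟨(measurable_parts n ω ⊤).2.2.2.2.2.1.comp hM.mz, 7, fun y => (h7 y).trans ?_⟩, ?_, ?_⟩
  · linarith [(Nz_pos n (hM.adz y).re_mem.1).2]
  · have np := nu_point (if t ≤ 1.1 then 6 * (t ^ 2 + 1) ^ (-mh n) else 0)
    refine (norm_integral_le_of_norm_le (np.1.add (hM.intN.const_mul (rexp (-0.0005 * n))))
      (Eventually.of_forall fun y => ?_)).trans ?_
    · have := mul_le_mul_of_nonneg_left (h _ (hM.adz y)) (norm_nonneg (g y))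
      rw [mul_add, hM.point (fun τ => 6 * (τ ^ 2 + 1) ^ (-mh n))] at this
      simp only [Pi.add_apply, norm_mul]
      linarith
    · simp only [Pi.add_apply]
      rw [integral_add np.1 (hM.intN.const_mul _), np.2, integral_const_mul]
      gcongr
      exact hM.mass
  · refine (norm_integral_le_of_norm_le (hM.intN.const_mul 7)
      (Eventually.of_forall fun y => ?_)).trans ?_
    · have := mul_le_mul_of_nonneg_left (h7 y) (norm_nonneg (g y))
      rw [norm_mul]; linarith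
    · rw [integral_const_mul]; linarith [hM.mass]

theorem Mx.mass_mul {n : ℕ} {t t' : ℝ} {ζ g ζ' g' : ℝ → ℂ} (h : Mx n t ζ g) (h' : Mx n t' ζ' g') :
    (∫ y, ‖g y‖ * Nz n (ζ y).re ∂nu) * ∫ y, ‖g' y‖ * Nz n (ζ' y).re ∂nu ≤
      4 * (n : ℝ) ^ 14 * (Nt n t * Nt n t') :=
  (mul_le_mul h.mass h'.mass h'.mass_nonneg (h.mass_nonneg.trans h.mass)).trans (le_of_eq (by ring))

theorem meas_comp3 {F : ℂ → ℂ → ℂ} (h : Measurable fun p : ℂ × ℂ => F p.1 p.2) {ζ ζ' : ℝ → ℂ}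
    (hζ : Measurable ζ) (hζ' : Measurable ζ') : Measurable fun p : ℝ × ℝ => F (ζ p.1) (ζ' p.2) :=
  h.comp ((hζ.comp measurable_fst).prodMk (hζ'.comp measurable_snd))

theorem Kt_le : ∀ᶠ n : ℕ in atTop, ∀ᶠ ω in 𝓝[>] (0 : ℝ), ∀ t ∈ Set.Icc (1 : ℝ) 3,
    ∀ t' ∈ Set.Icc (1 : ℝ) 3, ∀ ζ g ζ' g' : ℝ → ℂ, Mx n t ζ g → Mx n t' ζ' g' →
      BM (fun p : ℝ × ℝ => KK n ω (ζ p.1) (ζ' p.2)) ∧
      ‖Kt n ω ζ g ζ' g'‖ ≤ rexp (0.005 * n) * (4 * (n : ℝ) ^ 14) * (Nt n t * Nt n t') ∧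
      ‖Kt n ω ζ g ζ' g' - Dt n ω ζ g * starRingEnd ℂ (Dt n ω ζ' g') -
          2 * (In n (fun ρ => hh n t ρ * hh n t' ρ) : ℝ)‖ ≤
        (if t ≤ 1.1 ∧ t' ≤ 1.1 then 20 * (1 + t * t') ^ (-2 * mh n) else 0) +
          rexp (-0.0005 * n) * (4 * (n : ℝ) ^ 14 * (Nt n t * Nt n t')) := by
  filter_upwards [KK_le, KK_sub_le, Dt_le] with n h1 h2 h3
  filter_upwards [h1, h2, h3] with ω h1 h2 h3 t ht t' ht' ζ g ζ' g' hM hM'
  have mK := meas_comp3 (measurable_parts n ω ⊤).2.2.2.2.2.2 hM.mz hM'.mz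
  have bK : BM (fun p : ℝ × ℝ => KK n ω (ζ p.1) (ζ' p.2)) := by
    refine ⟨mK, rexp (0.005 * n), fun p => (h1 _ _ (hM.adz _) (hM'.adz _)).trans ?_⟩
    have a := Nz_pos n (hM.adz p.1).re_mem.1
    have b := Nz_pos n (hM'.adz p.2).re_mem.1
    exact mul_le_of_le_one_right (Real.exp_pos _).le (mul_le_one₀ a.2 b.1.le b.2)
  have iN := hM.intN.mul_prod hM'.intN
  have eN := integral_prod_mul (μ := nu) (ν := nu) (fun y => ‖g y‖ * Nz n (ζ y).re)
    (fun y => ‖g' y‖ * Nz n (ζ' y).re)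
  have mm := hM.mass_mul hM'
  have iG : Integrable (fun p : ℝ × ℝ => g p.1 * starRingEnd ℂ (g' p.2)) (nu.prod nu) :=
    hM.int.mul_prod (int_conj hM'.int)
  refine ⟨bK, ?_, ?_⟩
  · refine (norm_integral_le_of_norm_le (iN.const_mul (rexp (0.005 * n)))
      (Eventually.of_forall fun p => ?_)).trans ?_
    · have := mul_le_mul_of_nonneg_left (h1 _ _ (hM.adz p.1) (hM'.adz p.2))
        (mul_nonneg (norm_nonneg (g p.1)) (norm_nonneg (g' p.2)))
      simp only [norm_mul, Complex.norm_conj]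
      linarith
    · rw [integral_const_mul, eN, mul_assoc]
      exact mul_le_mul_of_nonneg_left mm (Real.exp_pos _).le
  · have bD : BM (fun p : ℝ × ℝ => Del n ω (ζ p.1) * starRingEnd ℂ (Del n ω (ζ' p.2))) :=
      ((h3 t ht ζ g hM).1.comp measurable_fst).mul ((h3 t' ht' ζ' g' hM').1.comp measurable_snd).conj
    have bI : BM (fun p : ℝ × ℝ => isq (ζ p.1 + starRingEnd ℂ (ζ' p.2)) ^ n) := by
      refine ⟨(measurable_isq.comp ((hM.mz.comp measurable_fst).add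
        (Complex.continuous_conj.measurable.comp (hM'.mz.comp measurable_snd)))).pow_const n, 1,
        fun p => norm_isq_le n ?_⟩
      have a := (hM.adz p.1).re_mem.1
      have b := (hM'.adz p.2).re_mem.1
      simp only [Complex.add_re, Complex.conj_re]
      linarith
    have i1 := BM.int_mul iG bK
    have i2 := BM.int_mul iG bD
    have i3 := BM.int_mul iG bI
    have e1 := In_mix_two n one_pos hM.mz (fun y => (hM.adz y).re_mem.1) hM.int hM'.mz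
      (fun y => (hM'.adz y).re_mem.1) hM'.int (fun ρ _ => hM.rep ρ) (fun ρ _ => hM'.rep ρ)
    have e0 := integral_prod _ i3
    simp only at e0
    rw [← e0] at e1
    have e2 := integral_sub i1 i2
    have e3 := integral_sub (i1.sub i2) (i3.const_mul 2)
    simp only [Pi.sub_apply] at e3
    unfold Kt Dt
    rw [mix_mul_conj, e1, ← e2, ← integral_const_mul, ← e3]
    set c := if t ≤ 1.1 ∧ t' ≤ 1.1 then 20 * (1 + t * t') ^ (-2 * mh n) else 0 with hc
    have np := nu_point c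
    have np1 := nu_point (1 : ℝ)
    have iP := np.1.mul_prod np1.1
    refine (norm_integral_le_of_norm_le (iP.add (iN.const_mul (rexp (-0.0005 * n))))
      (Eventually.of_forall fun p => ?_)).trans ?_
    · have a := mul_le_mul_of_nonneg_left (h2 _ _ (hM.adz p.1) (hM'.adz p.2))
        (mul_nonneg (norm_nonneg (g p.1)) (norm_nonneg (g' p.2)))
      have b : ‖g p.1‖ * ‖g' p.2‖ * (if (ζ p.1).re ≤ 1.1 ∧ (ζ' p.2).re ≤ 1.1 then
          20 * (1 + (ζ p.1).re * (ζ' p.2).re) ^ (-2 * mh n) else 0) =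
          (if p.1 = 0 then c else 0) * if p.2 = 0 then 1 else 0 := by
        have b1 := hM'.point (fun τ => 20 * (1 + (ζ p.1).re * τ) ^ (-2 * mh n)) p.2
        have b2 := hM.point (fun τ => if p.2 = 0 then
          (if t' ≤ 1.1 then 20 * (1 + τ * t') ^ (-2 * mh n) else 0) else 0) p.1
        simp only [ite_and] at hc ⊢
        calc _ = ‖g p.1‖ * if (ζ p.1).re ≤ 1.1 then ‖g' p.2‖ * (if (ζ' p.2).re ≤ 1.1 then
              20 * (1 + (ζ p.1).re * (ζ' p.2).re) ^ (-2 * mh n) else 0) else 0 := by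
              split_ifs <;> ring
          _ = _ := by rw [b1, b2, hc]; split_ifs <;> simp
      have e : g p.1 * starRingEnd ℂ (g' p.2) * KK n ω (ζ p.1) (ζ' p.2) -
          g p.1 * starRingEnd ℂ (g' p.2) * (Del n ω (ζ p.1) * starRingEnd ℂ (Del n ω (ζ' p.2))) -
          2 * (g p.1 * starRingEnd ℂ (g' p.2) * isq (ζ p.1 + starRingEnd ℂ (ζ' p.2)) ^ n) =
          g p.1 * starRingEnd ℂ (g' p.2) * (KK n ω (ζ p.1) (ζ' p.2) -
            Del n ω (ζ p.1) * starRingEnd ℂ (Del n ω (ζ' p.2)) -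
            2 * isq (ζ p.1 + starRingEnd ℂ (ζ' p.2)) ^ n) := by ring
      rw [mul_add, b] at a
      simp only [Pi.add_apply]
      rw [e, norm_mul, norm_mul, Complex.norm_conj]
      linarith
    · simp only [Pi.add_apply]
      rw [integral_add iP (iN.const_mul _), integral_const_mul, eN,
        integral_prod_mul (fun y : ℝ => if y = 0 then c else 0) (fun y : ℝ => if y = 0 then (1 : ℝ) else 0),
        np.2, np1.2, mul_one]
      gcongr

theorem mom_w : ∀ᶠ n : ℕ in atTop, ∀ᶠ ω in 𝓝[>] (0 : ℝ), ∀ t ∈ Set.Icc (1 : ℝ) 3,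
    ∀ ζ g : ℝ → ℂ, Mx n t ζ g →
      ‖∫ x, (ww n ω x : ℂ) * Vt n ω t x ∂PP (n / 2) -
        Dt n ω ζ g * (∫ x, ww n ω x ∂PP (n / 2) : ℝ)‖ ≤ Xc n 0.03903 * Nt n t ∧
      ∀ t' ∈ Set.Icc (1 : ℝ) 3, ∀ ζ' g' : ℝ → ℂ, Mx n t' ζ' g' →
        ‖∫ x, (ww n ω x : ℂ) * (Vt n ω t x * Vt n ω t' x) ∂PP (n / 2) -
          Kt n ω ζ g ζ' g' * (∫ x, ww n ω x ∂PP (n / 2) : ℝ)‖ ≤
            Xc n 0.03903 * (Nt n t * Nt n t') := by
  filter_upwards [ww_euler, bad_le, bad_fams, dom_fam, dom_z, dom_t, Dt_le, Kt_le, bm_Vt', AA_inv,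
    parts_bm, slack, eventually_ge_atTop 2] with n h1 h2 h3 h4 h5 h6 h7 h8 h9 h10 h11 h12 hn
  filter_upwards [h1, h2, h3, h4, h5, h6, h7, h8, h10, h11, self_mem_nhdsWithin]
    with ω h1 h2 h3 h4 h5 h6 h7 h8 h10 h11 hω
  obtain ⟨hw, he, -⟩ := h1
  have hD : Dom n ω (Dl n ω (MM n)) (fun S => S) (AS n ω) 1 :=
    ⟨fun S hS => Dl_mono n ω (Nat.le_succ _) hS, fun S _ => h10.2 S, fun _ _ _ => le_rfl,
      fun S _ => by
        rw [Finset.filter_eq']; split_ifs <;> simp, zero_le_one⟩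
  obtain ⟨hF, hq, -⟩ := h4 _ _ _ _ _ hD
  obtain ⟨z2, z1, -⟩ := h5 _ _ _ _ _ hD
  have hA : ∀ S ∈ Dl n ω (MM n), W01 (AS n ω S) := fun S _ => (h10.2 S).w01
  have hε : ∀ S ∈ Dl n ω (MM n), |(-1 : ℝ) ^ S.card| ≤ 1 := fun S _ => by simp
  have n1 : (2 : ℝ) ≤ n := by exact_mod_cast hn
  have n14 : (1 : ℝ) ≤ (n : ℝ) ^ 14 := one_le_pow₀ (by linarith)
  have n7 : 4 * (n : ℝ) ^ 7 ≤ (n : ℝ) ^ 14 := by
    have : (4 : ℝ) ≤ (n : ℝ) ^ 7 := le_trans (by norm_num) (pow_le_pow_left₀ zero_le_two n1 7)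
    calc _ ≤ (n : ℝ) ^ 7 * (n : ℝ) ^ 7 := by gcongr
      _ = _ := by ring
  have x0 := Xc_pos n 0.03905
  have x1 := Xc_pos n (-0.005)
  have x2 := Xc_pos n 0.087
  have hb : ∀ t ∈ Set.Icc (1 : ℝ) 3, ∀ ζ g : ℝ → ℂ, Mx n t ζ g →
      ∑ S ∈ Dl n ω (MM n), ∫ x, AS n ω S x * ‖Ov n ω (spanS S) ζ g x‖ ^ 2 ∂PP (n / 2) ≤
        116 * (n : ℝ) ^ 14 * Xc n (-0.005) * Nt n t ^ 2 := fun t ht ζ g hM => by
    refine (h6 _ _ _ _ _ hD t ht ζ g hM).2.1.trans (mul_le_mul_of_nonneg_right ?_ (sq_nonneg _))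
    have a := mul_le_mul_of_nonneg_left hq (Real.exp_pos (0.005 * n)).le
    have b := exp_mul_Xc n 0.005 0
    have c := Xc_anti n (c := -0.005) (c' := 0.03905) (by norm_num)
    rw [zero_sub] at b
    have d : rexp (0.005 * n) * ∑ S ∈ Dl n ω (MM n), ∫ x, AS n ω S x ∂PP (n / 2) +
        26 * 1 * Xc n 0.03905 ≤ 29 * Xc n (-0.005) := by linarith
    calc _ ≤ 4 * (n : ℝ) ^ 14 * (29 * Xc n (-0.005)) := by gcongr
      _ = _ := by ring
  have tot : 104 * (n : ℝ) ^ 14 * Xc n 0.03905 +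
      rexp (-0.046 * n) * (116 * (n : ℝ) ^ 14 * Xc n (-0.005)) +
      34 * (n : ℝ) ^ 14 * (1 * Xc n 0.087) / rexp (-0.046 * n) +
      34 * (n : ℝ) ^ 14 * (1 * Xc n 0.087) + Xc n 0.03904 +
      rexp (0.005 * n) * (4 * (n : ℝ) ^ 14) * Xc n 0.0449 ≤ Xc n 0.03903 := by
    have s := h12 293 14 0 0.03904 (by norm_num) (by norm_num) (by norm_num)
    have e : (0.03904 - 0.00001 : ℝ) = 0.03903 := by norm_num
    rw [e, pow_zero, mul_one] at s
    have a1 := Xc_anti n (c := 0.03904) (c' := 0.03905) (by norm_num)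
    have a2 : rexp (-0.046 * n) * Xc n (-0.005) ≤ Xc n 0.03904 := by
      rw [exp_mul_Xc]; exact Xc_anti n (by norm_num)
    have a3 : Xc n 0.087 / rexp (-0.046 * n) ≤ Xc n 0.03904 := by
      rw [div_eq_mul_inv, ← Real.exp_neg, ← neg_mul, mul_comm, exp_mul_Xc]
      exact Xc_anti n (by norm_num)
    have a4 := Xc_anti n (c := 0.03904) (c' := 0.087) (by norm_num)
    have a5 : rexp (0.005 * n) * Xc n 0.0449 ≤ Xc n 0.03904 := by
      rw [exp_mul_Xc]; exact Xc_anti n (by norm_num)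
    have p : (0 : ℝ) ≤ (n : ℝ) ^ 14 := by positivity
    have b1 := mul_le_mul_of_nonneg_left a1 p
    have b2 := mul_le_mul_of_nonneg_left a2 p
    have b3 := mul_le_mul_of_nonneg_left a3 p
    have b4 := mul_le_mul_of_nonneg_left a4 p
    have b5 := mul_le_mul_of_nonneg_left a5 p
    have b6 := le_mul_of_one_le_left (Xc_pos n 0.03904).le n14
    rw [one_mul, mul_div_assoc]
    linarith
  intro t ht ζ g hM
  have hN := Nt_pos n ht.1
  obtain ⟨o1, -, o3⟩ := h6 _ _ _ _ _ hD t ht ζ g hM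
  have bO := fun S hS => (h11 _ _ (hF.adm S hS) (hF.dle S hS) ζ hM.mz hM.adz).1
  constructor
  · have m := mix_one (P := PP (n / 2)) (ν := nu) _ hA bO (h7 t ht ζ g hM).1 hM.mg hM.int
      (N := fun y => 4 * 1 * Xc n 0.03905 * Nz n (ζ y).re)
      (by simpa only [mul_left_comm] using hM.intN.const_mul (4 * 1 * Xc n 0.03905))
      (fun y => by simp only; exact z1 _ (hM.adz y))
    simp only [mul_left_comm _ (4 * 1 * Xc n 0.03905)] at m
    rw [integral_const_mul] at m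
    have := tilt_two (P := PP (n / 2)) _ hε hA (Tb n ω) (fun p _ => h3.1 p) hw he (h9 ω hω t ht)
      (BM.const 1) o1 (fun _ _ => BM.const 1) (c := Dt n ω ζ g) (N := Nt n t) (N' := 1)
      (e₁ := 104 * (n : ℝ) ^ 14 * Xc n 0.03905) (q := Xc n 0.03904) (q₀ := Xc n 0.0449)
      (k := rexp (0.005 * n) * (4 * (n : ℝ) ^ 14)) hN one_pos (Real.exp_pos (-0.046 * n))
      (by positivity) ?_ (hb t ht ζ g hM) ?_ o3 ?_ (h2.2 t ht) ?_ h2.1 ?_
    · simp only [map_one, mul_one] at this tot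
      exact this.trans (mul_le_mul_of_nonneg_right tot hN.le)
    · simp only [map_one, mul_one]
      unfold Ov Dt
      refine m.trans ?_
      calc _ ≤ 4 * 1 * Xc n 0.03905 * (2 * (n : ℝ) ^ 7 * Nt n t) := by gcongr; exact hM.mass
        _ = 2 * (4 * (n : ℝ) ^ 7) * (Xc n 0.03905 * Nt n t) := by ring
        _ ≤ 104 * (n : ℝ) ^ 14 * (Xc n 0.03905 * Nt n t) := by gcongr ?_ * _; linarith
        _ = _ := by ring
    · simp only [norm_one, one_pow, mul_one]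
      refine hq.trans ?_
      have := Xc_anti n (c := -0.005) (c' := 0) (by norm_num)
      nlinarith
    · simp only [sub_self, norm_zero]
      simp only [ne_eq, OfNat.ofNat_ne_zero, not_false_eq_true, zero_pow, mul_zero, integral_zero,
        Finset.sum_const_zero]
      positivity
    · simp only [norm_one, one_pow, mul_one]
      exact h2.1.trans (Xc_anti n (by norm_num))
    · rw [mul_one]
      refine (h7 t ht ζ g hM).2.2.trans (mul_le_mul_of_nonneg_right ?_ hN.le)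
      have := le_mul_of_one_le_left (show 0 ≤ 4 * (n : ℝ) ^ 14 by positivity)
        (Real.one_le_exp (show 0 ≤ 0.005 * (n : ℝ) by positivity))
      have p : (0 : ℝ) ≤ (n : ℝ) ^ 7 := by positivity
      linarith
  · intro t' ht' ζ' g' hM'
    have hN' := Nt_pos n ht'.1
    obtain ⟨o1', -, o3'⟩ := h6 _ _ _ _ _ hD t' ht' ζ' g' hM'
    have bO' := fun S hS => (h11 _ _ (hF.adm S hS) (hF.dle S hS) ζ' hM'.mz hM'.adz).1
    obtain ⟨k1, k2, -⟩ := h8 t ht t' ht' ζ g ζ' g' hM hM'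
    have m := mix_two (P := PP (n / 2)) (ν := nu) _ hA bO bO' k1 hM.mg hM'.mg hM.int hM'.int
      hM.intN hM'.intN (B := 26 * 1 * Xc n 0.03905)
      (fun y y' => by simp only; exact z2 _ _ (hM.adz y) (hM'.adz y'))
    simp only at m
    have := tilt_two (P := PP (n / 2)) _ hε hA (Tb n ω) (fun p _ => h3.1 p) hw he (h9 ω hω t ht)
      (h9 ω hω t' ht') o1 o1' (c := Kt n ω ζ g ζ' g') (N := Nt n t) (N' := Nt n t')
      (e₁ := 104 * (n : ℝ) ^ 14 * Xc n 0.03905) hN hN' (Real.exp_pos (-0.046 * n))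
      (by positivity) ?_ (hb t ht ζ g hM) (hb t' ht' ζ' g' hM') o3 o3' (h2.2 t ht) (h2.2 t' ht')
      h2.1 k2
    · simp only [Complex.conj_ofReal] at this
      exact this.trans (mul_le_mul_of_nonneg_right tot (mul_pos hN hN').le)
    · unfold Ov Kt
      refine m.trans ?_
      calc _ ≤ 26 * 1 * Xc n 0.03905 * (4 * (n : ℝ) ^ 14 * (Nt n t * Nt n t')) :=
            mul_le_mul_of_nonneg_left (hM.mass_mul hM') (by positivity)
        _ = _ := by ring

end Pool.Agent.Eps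
end
end

-- part Pool.Agent.Lib.MP_3bda03_nt.Prob
section

/-! The tilted ensemble. -/

set_option autoImplicit false

noncomputable section

open scoped BigOperators Classical Topology
open MeasureTheory Real Complex Filter

namespace Pool.Agent.Eps

theorem integral_tilt {Ω : Type} [MeasurableSpace Ω] (P : Measure Ω) {w : Ω → ℝ} (hw : W01 w)
    {Z : ℝ} (hZ : 0 < Z) (f : Ω → ℝ) :
    ∫ x, f x ∂(P.withDensity fun x => ENNReal.ofReal (w x / Z)) = (∫ x, w x * f x ∂P) / Z := by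
  rw [integral_withDensity_eq_integral_toReal_smul (hw.meas.div_const Z).ennreal_ofReal
    (Eventually.of_forall fun x => ENNReal.ofReal_lt_top), ← integral_div]
  refine integral_congr_ae (Eventually.of_forall fun x => ?_)
  simp only [ENNReal.toReal_ofReal (div_nonneg (hw.nonneg x) hZ.le), smul_eq_mul]
  ring

theorem prob_tilt {Ω : Type} [MeasurableSpace Ω] (P : Measure Ω) [IsProbabilityMeasure P]
    {w : Ω → ℝ} (hw : W01 w) (hZ : 0 < ∫ x, w x ∂P) :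
    IsProbabilityMeasure (P.withDensity fun x => ENNReal.ofReal (w x / ∫ x, w x ∂P)) := by
  constructor
  rw [withDensity_apply _ MeasurableSet.univ, Measure.restrict_univ,
    ← ofReal_integral_eq_lintegral_ofReal ((hw.integrable P).div_const _)
      (Eventually.of_forall fun x => div_nonneg (hw.nonneg x) hZ.le), integral_div,
    div_self hZ.ne', ENNReal.ofReal_one]

theorem cov_arith {a a' m I δ e k N N' ind : ℝ} {d d' K : ℂ} (hN : 0 ≤ N) (hN' : 0 ≤ N')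
    (hδ : 0 ≤ δ) (hδ1 : δ ≤ 1) (h1 : ‖(a : ℂ) - d‖ ≤ δ * N) (h2 : ‖(a' : ℂ) - d'‖ ≤ δ * N')
    (h3 : ‖(m : ℂ) - K‖ ≤ δ * (N * N')) (h4 : ‖d‖ ≤ k * N) (h5 : ‖d'‖ ≤ k * N')
    (h6 : ‖K - d * starRingEnd ℂ d' - 2 * (I : ℂ)‖ ≤ ind + δ * (e * (N * N'))) :
    |m - a * a' - 2 * I| ≤ ind + δ * (2 + 2 * k + e) * (N * N') := by
  have e1 : ((m - a * a' - 2 * I : ℝ) : ℂ) = ((m : ℂ) - K) + (K - d * starRingEnd ℂ d' - 2 * (I : ℂ)) -
      (d * starRingEnd ℂ ((a' : ℂ) - d') + ((a : ℂ) - d) * starRingEnd ℂ d' +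
        ((a : ℂ) - d) * starRingEnd ℂ ((a' : ℂ) - d')) := by
    simp only [map_sub, Complex.conj_ofReal]; push_cast; ring
  rw [← Real.norm_eq_abs, ← Complex.norm_real, e1]
  refine (norm_sub_le _ _).trans ((add_le_add (norm_add_le _ _) norm_add₃_le).trans ?_)
  simp only [norm_mul, Complex.norm_conj]
  have b1 := mul_le_mul h4 h2 (norm_nonneg _) ((norm_nonneg _).trans h4)
  have b2 := mul_le_mul h1 h5 (norm_nonneg _) ((norm_nonneg _).trans h1)
  have b3 := mul_le_mul h1 h2 (norm_nonneg _) ((norm_nonneg _).trans h1)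
  have b4 := mul_le_mul_of_nonneg_right hδ1 (mul_nonneg hδ (mul_nonneg hN hN'))
  linarith

theorem ramp_mono (n : ℕ) : Monotone (ramp n) := fun _ _ h =>
  max_le_max le_rfl (min_le_min le_rfl (mul_le_mul_of_nonneg_left h (Real.exp_pos _).le))

theorem ramp_of_ge (n : ℕ) {u : ℝ} (h : rexp (-n) ≤ u) : ramp n u = 1 := by
  have : 1 ≤ rexp n * u := by
    calc (1 : ℝ) = rexp n * rexp (-n) := by rw [← Real.exp_add]; simp
      _ ≤ _ := by gcongr
  unfold ramp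
  rw [min_eq_left this, max_eq_right zero_le_one]

theorem ramp_le_ft (n : ℕ) (σ ρ : ℝ) : |ramp n (σ - ρ)| ≤ rexp (π * σ) * ft 1 ρ := by
  rw [abs_of_nonneg (ramp_mem n _).1]
  refine (ramp_le_exp n Real.pi_pos.le _).trans (le_of_eq ?_)
  unfold ft; rw [← Real.exp_add]; congr 1; ring

theorem bb_mem (n : ℕ) (ρ : ℝ) :
    0 ≤ bb n ρ ∧ |bb n ρ| ≤ rexp (π * (rho1 n + 2 * rexp (-n))) * ft 1 ρ := by
  have h : 0 ≤ bb n ρ := sub_nonneg.2 (ramp_mono n (by linarith [Real.exp_pos (-(n : ℝ))]))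
  refine ⟨h, le_trans ?_ (ramp_le_ft n _ ρ)⟩
  rw [abs_of_nonneg h, abs_of_nonneg (ramp_mem n _).1]
  exact sub_le_self _ (ramp_mem n _).1

theorem measurable_bb (n : ℕ) : Measurable (bb n) :=
  (((continuous_ramp n).comp (by fun_prop)).sub ((continuous_ramp n).comp (by fun_prop))).measurable

def shl (n : ℕ) (ω : ℝ) (x : Xs (n / 2)) : ℝ := ∑ k ∈ Kn n ω, FS (n % 2) ω (bb n) k x

def far (n : ℕ) (ω t : ℝ) (x : Xs (n / 2)) : ℝ :=
  ∑' k : Zv (n / 2), if k ∈ Kn n ω ∨ k = 0 then 0 else FS (n % 2) ω (ft t) k x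

theorem FS_bb_nonneg (n : ℕ) (ω : ℝ) (k : Zv (n / 2)) (x : Xs (n / 2)) :
    0 ≤ FS (n % 2) ω (bb n) k x := tsum_nonneg fun _ => (bb_mem n _).1

theorem far_nonneg (n : ℕ) (ω t : ℝ) (x : Xs (n / 2)) : 0 ≤ far n ω t x :=
  tsum_nonneg fun k => by split_ifs; exacts [le_rfl, FS_ft_nonneg _ _ _ _]

theorem gap : ∀ᶠ n : ℕ in atTop, ∀ᶠ ω in 𝓝[>] (0 : ℝ), ∀ x, 0 < ww n ω x → shl n ω x < 1 →
    ∀ (k : Zv (n / 2)) (jl : Zv (n % 2) × Zv (n / 2)), (k, jl) ≠ 0 →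
      rho1 n + rexp (-n) ≤ rho ω x k jl := by
  filter_upwards [AA_inv, rho1_le, eventually_ge_atTop 2] with n h1 h2 hn
  filter_upwards [h1, fibre_sep (r := n % 2) (m := n / 2) (by omega) (by omega) (rho1 n + 1),
    self_mem_nhdsWithin] with ω h1 h3 hω x hw hs k jl hk
  by_contra hc
  have hc := not_le.1 hc
  have he : rexp (-(n : ℝ)) ≤ 1 := Real.exp_le_one_iff.2 (by simp)
  have n1 : (2 : ℝ) ≤ n := by exact_mod_cast hn
  have hk0 : k ≠ 0 := by
    rintro rfl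
    exact hk (by rw [h3.2 x jl (by linarith)]; rfl)
  have hρ := le_rho ω x k jl
  have hKn : k ∈ Kn n ω := (mem_Kn hω k).2 ⟨hk0, by
    have hω' : 0 < ω := hω
    refine (pow_le_pow_iff_left₀ (by positivity) (by linarith) two_ne_zero).1 ?_
    rw [mul_pow]; nlinarith [h2.2]⟩
  rcases le_or_gt (rho ω x k jl) (rho1 n - rexp (-n)) with h | h
  · have a1 : 1 ≤ AA n ω k x := by
      have s := (FS_le_of_le (r := n % 2) hω one_pos (φ := aa n) (fun ρ _ => ramp_le_ft n _ ρ) x k).1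
      have := s.le_tsum jl fun _ _ => (ramp_mem n _).1
      rwa [show aa n (rho ω x k jl) = 1 from ramp_of_ge n (by linarith)] at this
    have a2 : ∀ v ∈ Kp n ω, AA n ω v x < 1 := fun v hv =>
      lt_of_le_of_ne ((h1.1 ⊤ v trivial).le_one x)
        fun e => Finset.prod_ne_zero_iff.1 hw.ne' v hv (by rw [e, sub_self])
    rcases mem_Kp_or hω hKn (by linarith) with hv | hv
    · linarith [a2 k hv]
    · have := a2 _ hv
      unfold AA at this a1
      rw [FS_neg] at this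
      linarith
  · have a1 : 1 ≤ FS (n % 2) ω (bb n) k x := by
      have s := (FS_le_of_le (r := n % 2) hω one_pos (φ := bb n) (fun ρ _ => (bb_mem n ρ).2) x k).1
      have := s.le_tsum jl fun _ _ => (bb_mem n _).1
      rwa [show bb n (rho ω x k jl) = 1 by
        unfold bb
        rw [ramp_of_ge n (by linarith), ramp_of_nonpos n (by linarith), sub_zero]] at this
    have := Finset.single_le_sum (f := fun k => FS (n % 2) ω (bb n) k x)
      (fun k _ => FS_bb_nonneg n ω k x) hKn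
    unfold shl at hs
    linarith

theorem theta_split (n : ℕ) {ω t : ℝ} (hω : 0 < ω) (ht : 1 ≤ t) (x : Xs (n / 2)) :
    theta n ω x t ≤ F00 (n / 2) (n % 2) ω 1 + ∑ k ∈ Kn n ω, FS (n % 2) ω (ft t) k x +
      far n ω 1 x := by
  have h0 : (0 : Zv (n / 2)) ∉ Kn n ω := fun h => ((mem_Kn hω 0).1 h).1 rfl
  have s1 := hasSum_sum_of_ne_finset_zero (L := SummationFilter.unconditional _)
    (f := fun k => if k ∈ insert 0 (Kn n ω) then FS (n % 2) ω (ft t) k x else 0)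
    (s := insert 0 (Kn n ω)) fun k hk => if_neg hk
  have s2 : Summable fun k : Zv (n / 2) =>
      if k ∈ Kn n ω ∨ k = 0 then 0 else FS (n % 2) ω (ft 1) k x :=
    Summable.of_nonneg_of_le (fun k => by split_ifs; exacts [le_rfl, FS_ft_nonneg _ _ _ _])
      (fun k => by split_ifs; exacts [FS_ft_nonneg _ _ _ _, le_rfl])
      (summable_FS_ft (r := n % 2) hω one_pos x)
  rw [Finset.sum_ite_of_true fun k hk => hk, Finset.sum_insert h0, FS_zero_eq] at s1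
  have s3 := hasSum_le (fun k => ?_) (summable_FS_ft (r := n % 2) hω (by linarith : 0 < t) x).hasSum
    (s1.add s2.hasSum)
  · have := F00_anti (m := n / 2) (r := n % 2) hω one_pos ht
    unfold theta far
    unfold F00 at this ⊢
    linarith
  · by_cases hk : k ∈ Kn n ω ∨ k = 0
    · rw [if_pos hk, if_pos (Finset.mem_insert.2 hk.symm), add_zero]
    · rw [if_neg hk, if_neg fun h => hk (Finset.mem_insert.1 h).symm, zero_add]
      exact (summable_ft hω (by linarith) x k).tsum_le_tsum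
        (fun jl => ft_le_ft (mul_le_mul_of_nonneg_right ht (rho_nonneg ω x k jl)))
        (summable_ft hω one_pos x k)

theorem In_hh_le (n : ℕ) {t : ℝ} (ht : 0 < t) :
    In n (hh n t) ≤ t ^ (-(n : ℝ) / 2) - In n (fun ρ => ft t ρ * a2 n ρ) := by
  have i : ∀ s : ℝ, 0 < s → Integrable fun y : Ev n => ft s (‖y‖ ^ 2) * a2 n (‖y‖ ^ 2) := fun s hs =>
    (integrable_ft n hs).mul_bdd (c := 1)
      ((continuous_ramp n).comp (by fun_prop)).aestronglyMeasurable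
      (Eventually.of_forall fun y => by
        unfold a2; rw [Real.norm_of_nonneg (ramp_mem n _).1]; exact (ramp_mem n _).2)
  have i1 := (integrable_ft n ht).sub (i t ht)
  rw [← In_ft n ht]
  unfold In
  rw [← integral_sub (integrable_ft n ht) (i t ht)]
  refine integral_mono ?_ i1 fun y => ?_
  · unfold hh
    simp only [mul_sub, mul_one, mul_assoc]
    refine i1.sub ?_
    split_ifs
    · exact (i _ (inv_pos.2 ht)).const_mul _
    · exact integrable_zero _ _ _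
  · unfold hh
    simp only [mul_sub, mul_one]
    refine sub_le_self _ ?_
    split_ifs
    · exact mul_nonneg (mul_nonneg (Real.rpow_nonneg ht.le _) (ft_pos _ _).le) (ramp_mem n _).1
    · exact le_rfl

theorem prob_num : ∀ᶠ n : ℕ in atTop,
    rexp (-0.0005 * n) * (100 * (n : ℝ) ^ 14) ≤ rexp (-0.0003 * n) ∧
    Xc n 0.03903 ≤ rexp (-0.0005 * n) * rexp (-TT n / 2 - 3) ∧
    2 * rexp (-0.03 * n) ≤ rexp (-0.0003 * n) * rexp (-TT n / 2 - 3) ∧
    rexp (-(n : ℝ) ^ 2 / 2) ≤ rexp (-0.0005 * n) * rexp (-n) := by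
  filter_upwards [En_pow_le 100 14 (ε := 0.0002) (by norm_num), eventually_ge_atTop 100000]
    with n h hn
  have n1 : (100000 : ℝ) ≤ n := by exact_mod_cast hn
  refine ⟨?_, ?_, ?_, ?_⟩
  · have := (le_mul_of_one_le_right (by positivity) (one_le_pow₀ (one_le_En n))).trans h
    calc _ ≤ rexp (-0.0005 * n) * rexp (0.0002 * n) := by gcongr
      _ = _ := by rw [← Real.exp_add]; congr 1; ring
  · rw [← Real.exp_add]; unfold Xc TT; exact Real.exp_le_exp.2 (by linarith)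
  · calc _ ≤ rexp 1 * rexp (-0.03 * n) := by gcongr; linarith [Real.add_one_le_exp 1]
      _ ≤ _ := by
        rw [← Real.exp_add, ← Real.exp_add]; unfold TT; exact Real.exp_le_exp.2 (by linarith)
  · rw [← Real.exp_add]; exact Real.exp_le_exp.2 (by nlinarith)

/-- the tilted ensemble -/
theorem prob : ∀ᶠ n : ℕ in atTop, ∀ᶠ ω in 𝓝[>] (0 : ℝ),
    ∃ (μ : Measure (Xs (n / 2))) (U : ℝ → Xs (n / 2) → ℝ) (G : Set (Xs (n / 2))),
      IsProbabilityMeasure μ ∧ Mom n μ U ∧ MeasurableSet G ∧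
      μ Gᶜ ≤ ENNReal.ofReal (rexp (-0.0003 * n)) ∧
      ∀ x ∈ G, (∀ t ∈ Set.Icc (1 : ℝ) 3,
          theta n ω x t - 1 - t ^ (-(n : ℝ) / 2) ≤ Ub n (U t x) t) ∧
        ∀ (k : Zv (n / 2)) (jl : Zv (n % 2) × Zv (n / 2)), (k, jl) ≠ 0 → rho1 n ≤ rho ω x k jl := by
  filter_upwards [ww_euler, mom_w, Dt_le, Kt_le, bm_Vt, bm_Vt', exists_mx, shell_le, far_le, gap,
    ft_le_Nt, prob_num, eventually_ge_atTop 2] with n h1 h2 h3 h4 h5 h6 h7 h8 h9 h10 h11 h12 hn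
  filter_upwards [h1, h2, h3, h4, h8, h9, h10, self_mem_nhdsWithin,
    eventually_F00 (r := n % 2) (m := n / 2) (by omega) (by omega) one_pos
      (Real.exp_pos (-(n : ℝ) ^ 2 / 2)) 1] with ω h1 h2 h3 h4 h8 h9 h10 hω hF
  obtain ⟨hw, -, hZ⟩ := h1
  obtain ⟨k1, k2, k3, k4⟩ := h12
  obtain ⟨mV, C, hC⟩ := h5 ω hω
  set Z := ∫ x, ww n ω x ∂PP (n / 2) with hZdef
  have Z0 : 0 < Z := (Real.exp_pos _).trans_le hZ
  set μ := (PP (n / 2)).withDensity fun x => ENNReal.ofReal (ww n ω x / Z) with hμ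
  have hP : IsProbabilityMeasure μ := prob_tilt _ hw Z0
  have hI : ∀ f : Xs (n / 2) → ℝ, ∫ x, f x ∂μ = (∫ x, ww n ω x * f x ∂PP (n / 2)) / Z :=
    integral_tilt _ hw Z0
  set δ := rexp (-0.0005 * n) with hδ
  have δ0 : 0 < δ := Real.exp_pos _
  have n1 : (2 : ℝ) ≤ n := by exact_mod_cast hn
  have δ1 : δ ≤ 1 := Real.exp_le_one_iff.2 (by linarith)
  have n7 : (1 : ℝ) ≤ (n : ℝ) ^ 7 := one_le_pow₀ (by linarith)
  have n14 : (n : ℝ) ^ 7 ≤ (n : ℝ) ^ 14 := pow_le_pow_right₀ (by linarith) (by norm_num)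
  have hX : Xc n 0.03903 ≤ δ * Z := k2.trans (by gcongr)
  have dv : ∀ (f : Xs (n / 2) → ℝ) (c : ℂ) (N : ℝ), 0 ≤ N →
      ‖∫ x, (ww n ω x : ℂ) * f x ∂PP (n / 2) - c * Z‖ ≤ Xc n 0.03903 * N →
      ‖((∫ x, f x ∂μ : ℝ) : ℂ) - c‖ ≤ δ * N := fun f c N hN h => by
    have e : ((∫ x, f x ∂μ : ℝ) : ℂ) - c =
        (∫ x, (ww n ω x : ℂ) * f x ∂PP (n / 2) - c * Z) / Z := by
      have : (Z : ℂ) ≠ 0 := by exact_mod_cast Z0.ne'
      simp only [← Complex.ofReal_mul, integral_complex_ofReal]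
      rw [hI]; push_cast; field_simp
    rw [e, norm_div, Complex.norm_real, Real.norm_of_nonneg Z0.le, div_le_iff₀ Z0]
    calc _ ≤ δ * Z * N := h.trans (by gcongr)
      _ = _ := by ring
  have iV : ∀ t ∈ Set.Icc (1 : ℝ) 3, Integrable (Vt n ω t) μ := fun t ht =>
    Integrable.of_bound mV.of_uncurry_left.aestronglyMeasurable C (Eventually.of_forall (hC t ht))
  have m1 : ∀ t ∈ Set.Icc (1 : ℝ) 3, ∀ ζ g, Mx n t ζ g →
      ‖((∫ x, Vt n ω t x ∂μ : ℝ) : ℂ) - Dt n ω ζ g‖ ≤ δ * Nt n t := fun t ht ζ g hM =>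
    dv _ _ _ (Nt_pos n ht.1).le (h2 t ht ζ g hM).1
  refine ⟨μ, fun t x => Vt n ω t x - ∫ x, Vt n ω t x ∂μ,
    {x | 0 < ww n ω x ∧ shl n ω x < 1 ∧ far n ω 1 x ≤ rexp (-(n : ℝ) ^ 2 / 2)}, hP,
    ⟨?_, ⟨C + C, fun t ht x => ?_⟩, fun t ht => ?_, fun t ht t' ht' => ?_⟩, ?_⟩
  · exact mV.sub ((mV.stronglyMeasurable.integral_prod_right (ν := μ)).measurable.comp measurable_fst)
  · refine (abs_sub _ _).trans (add_le_add (hC t ht x) ?_)
    simpa using norm_integral_le_of_norm_le_const (μ := μ) (f := Vt n ω t) (C := C)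
      (Eventually.of_forall (hC t ht))
  · rw [integral_sub (iV t ht) (integrable_const _)]
    have := Nt_pos n ht.1
    simp only [integral_const, probReal_univ, one_smul, sub_self, abs_zero]
    positivity
  · obtain ⟨ζ, g, hM⟩ := h7 t ht
    obtain ⟨ζ', g', hM'⟩ := h7 t' ht'
    have hN := Nt_pos n ht.1
    have hN' := Nt_pos n ht'.1
    have iVV : Integrable (fun x => Vt n ω t x * Vt n ω t' x) μ :=
      (iV t ht).mul_bdd (c := C) mV.of_uncurry_left.aestronglyMeasurable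
        (Eventually.of_forall (hC t' ht'))
    have e : ∫ x, (Vt n ω t x - ∫ x, Vt n ω t x ∂μ) * (Vt n ω t' x - ∫ x, Vt n ω t' x ∂μ) ∂μ =
        ∫ x, Vt n ω t x * Vt n ω t' x ∂μ - (∫ x, Vt n ω t x ∂μ) * ∫ x, Vt n ω t' x ∂μ := by
      have e0 := integral_sub (iVV.sub ((iV t' ht').const_mul (∫ x, Vt n ω t x ∂μ)))
        (((iV t ht).mul_const (∫ x, Vt n ω t' x ∂μ)).sub
          (integrable_const ((∫ x, Vt n ω t x ∂μ) * ∫ x, Vt n ω t' x ∂μ)))
      simp only [Pi.sub_apply] at e0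
      simp only [sub_mul, mul_sub]
      rw [e0, integral_sub iVV ((iV t' ht').const_mul _),
        integral_sub ((iV t ht).mul_const _) (integrable_const _), integral_const_mul,
        integral_mul_const]
      simp
    have m2 := dv (fun x => Vt n ω t x * Vt n ω t' x) _ _ (mul_pos hN hN').le
      (by simpa only [Complex.ofReal_mul] using (h2 t ht ζ g hM).2 t' ht' ζ' g' hM')
    have := cov_arith hN.le hN'.le δ0.le δ1 (m1 t ht ζ g hM) (m1 t' ht' ζ' g' hM') m2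
      (h3 t ht ζ g hM).2.2 (h3 t' ht' ζ' g' hM').2.2 (h4 t ht t' ht' ζ g ζ' g' hM hM').2.2
    rw [e]
    refine this.trans (add_le_add le_rfl ?_)
    rw [mul_assoc (rexp (-0.0003 * n))]
    refine mul_le_mul_of_nonneg_right (le_trans ?_ k1) (mul_pos hN hN').le
    gcongr
    linarith
  have mS : Measurable (shl n ω) :=
    Finset.measurable_sum _ fun k _ => measurable_FS ω (measurable_bb n) k
  have mF : Measurable (far n ω 1) := Measurable.tsum fun k => by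
    split_ifs
    · exact measurable_const
    · exact measurable_FS ω (by unfold ft; fun_prop) k
  have mG : MeasurableSet {x | 0 < ww n ω x ∧ shl n ω x < 1 ∧
      far n ω 1 x ≤ rexp (-(n : ℝ) ^ 2 / 2)} :=
    (measurableSet_lt measurable_const hw.meas).inter ((measurableSet_lt mS measurable_const).inter
      (measurableSet_le mF measurable_const))
  refine ⟨mG, ?_, fun x hx => ⟨fun t ht => ?_, fun k jl hk => ?_⟩⟩
  · rw [← ofReal_measureReal (measure_ne_top _ _), ← integral_indicator_one mG.compl, hI]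
    refine ENNReal.ofReal_le_ofReal ?_
    rw [div_le_iff₀ Z0]
    have iS : Integrable (shl n ω) (PP (n / 2)) := integrable_finsetSum _ fun k _ => by
      refine Integrable.of_bound (measurable_FS ω (measurable_bb n) k).aestronglyMeasurable _
        (Eventually.of_forall fun x =>
          (FS_le_of_le (r := n % 2) hω one_pos (φ := bb n) (fun ρ _ => (bb_mem n ρ).2) x k).2.trans
          (mul_le_mul_of_nonneg_left (FS_ft_le hω one_pos x k) (Real.exp_pos _).le))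
    have iF : Integrable (far n ω 1) (PP (n / 2)) := h9.1
    have a := integral_mono_of_nonneg (μ := PP (n / 2))
      (f := fun x => ww n ω x * Set.indicator {x | 0 < ww n ω x ∧ shl n ω x < 1 ∧
        far n ω 1 x ≤ rexp (-(n : ℝ) ^ 2 / 2)}ᶜ 1 x)
      (Eventually.of_forall fun x => mul_nonneg (hw.nonneg x)
        (Set.indicator_nonneg (fun _ _ => zero_le_one) x))
      (iS.add (iF.div_const (rexp (-(n : ℝ) ^ 2 / 2)))) (Eventually.of_forall fun x => by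
        have b1 : 0 ≤ shl n ω x := Finset.sum_nonneg fun k _ => FS_bb_nonneg n ω k x
        have b2 := div_nonneg (far_nonneg n ω 1 x) (Real.exp_pos (-(n : ℝ) ^ 2 / 2)).le
        have b3 := hw.le_one x
        simp only [Pi.add_apply, Set.indicator_apply, Set.mem_compl_iff, Set.mem_ofPred_eq,
          Pi.one_apply]
        split_ifs with h
        · linarith
        · simp only [not_and_or, not_lt, not_le] at h
          rcases h with h | h | h
          · linarith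
          · linarith
          · linarith [(one_le_div (Real.exp_pos _)).2 h.le])
    simp only [Pi.add_apply] at a
    rw [integral_add iS (iF.div_const _), integral_div] at a
    have b : (∫ x, far n ω 1 x ∂PP (n / 2)) / rexp (-(n : ℝ) ^ 2 / 2) ≤ rexp (-0.03 * n) := by
      rw [div_le_iff₀ (Real.exp_pos _), ← Real.exp_add]
      exact h9.2.trans (Real.exp_le_exp.2 (by nlinarith))
    have c : rexp (-0.0003 * n) * rexp (-TT n / 2 - 3) ≤ rexp (-0.0003 * n) * Z := by gcongr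
    have d : ∫ x, shl n ω x ∂PP (n / 2) ≤ rexp (-0.03 * n) := h8
    linarith
  · obtain ⟨ζ, g, hM⟩ := h7 t ht
    have hN := Nt_pos n ht.1
    have a1 := theta_split n hω ht.1 x
    have a2' : ∑ k ∈ Kn n ω, FS (n % 2) ω (ft t) k x = ∑ k ∈ Kn n ω, FS (n % 2) ω (hh n t) k x := by
      refine Finset.sum_congr rfl fun k hk => tsum_congr fun jl => ?_
      have := h10 x hx.1 hx.2.1 k jl fun e => ((mem_Kn hω k).1 hk).1 (congrArg Prod.fst e)
      unfold hh a2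
      rw [ramp_of_nonpos n (by linarith)]
      simp
    have a3 := In_hh_le n (show 0 < t by linarith [ht.1])
    have a4 := m1 t ht ζ g hM
    have a5 := (h3 t ht ζ g hM).2.1
    have a6 := norm_sub_norm_le ((∫ x, Vt n ω t x ∂μ : ℝ) : ℂ) (Dt n ω ζ g)
    rw [Complex.norm_real, Real.norm_eq_abs] at a6
    have a7 := le_abs_self (∫ x, Vt n ω t x ∂μ)
    have a8 : (if t ≤ 1.1 then 6 * (t ^ 2 + 1) ^ (-mh n) else 0) ≤
        if t ≤ 1.1 then 7 * (t ^ 2 + 1) ^ (-mh n) else 0 := by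
      have : 0 ≤ (t ^ 2 + 1) ^ (-mh n) := Real.rpow_nonneg (by positivity) _
      split_ifs <;> linarith
    have a9 : rexp (-(n : ℝ) ^ 2 / 2) ≤ δ * Nt n t :=
      k4.trans (mul_le_mul_of_nonneg_left (h11 t ht).2.2 δ0.le)
    have a10 := mul_le_mul_of_nonneg_right k1 hN.le
    have a11 := mul_le_mul_of_nonneg_right n7 (mul_pos δ0 hN).le
    have a12 := mul_le_mul_of_nonneg_right n14 (mul_pos δ0 hN).le
    have a13 := hx.2.2
    unfold Ub Vt
    unfold Vt at a4 a6 a7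
    nlinarith
  · linarith [h10 x hx.1 hx.2.1 k jl hk, Real.exp_pos (-(n : ℝ))]

end Pool.Agent.Eps
end
end
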