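import Pool.Agent.Lib.MP_3bda03_nt.TupleB

-- part Pool.Agent.Lib.MP_3bda03_nt.TupleC
section

set_option autoImplicit false

noncomputable section

open scoped BigOperators Classical Topology
open MeasureTheory Real Complex Filter

namespace Pool.Agent.Eps

variable {m r : ℕ}

lemma tup_mem_bot {k : Zv m} : iv k ∈ spanS ∅ ↔ k = 0 := by
  simp [spanS, ← iv_zero (m := m), iv_injective.eq_iff]

lemma tup_small : ∀ᶠ ω in 𝓝[>] (0 : ℝ), 0 < ω ∧ ω ≤ 1 := Ioc_mem_nhdsGT one_pos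

lemma tup_int_Fz {ω : ℝ} {z : ℂ} (hω : 0 < ω) (hz : 0 < z.re) (k : Zv m) :
    Integrable (Fz r ω z k) (PP m) :=
  .of_bound (continuous_Fz hω hz k).aestronglyMeasurable _ (.of_forall fun x =>
    (norm_Fz_le hω hz x k).trans (FS_ft_le hω hz x k))

lemma tup_int_FS {ω β C : ℝ} (hω : 0 < ω) (hβ : 0 < β) {φ : ℝ → ℝ} (hm : Measurable φ)
    (hφ : ∀ ρ, 0 ≤ ρ → |φ ρ| ≤ C * ft β ρ) (hC : 0 ≤ C) (k : Zv m) :
    Integrable (FS r ω φ k) (PP m) :=
  .of_bound (measurable_FS ω hm k).aestronglyMeasurable _ (.of_forall fun x =>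
    (FS_le_of_le hω hβ hφ x k).2.trans (mul_le_mul_of_nonneg_left (FS_ft_le hω hβ x k) hC))

lemma tup_ramp (n : ℕ) (σ ρ : ℝ) : |ramp n (σ - ρ)| ≤ rexp (π * σ) * ft 1 ρ := by
  rw [abs_of_nonneg (ramp_mem _ _).1, ft, ← Real.exp_add]
  exact (ramp_le_exp n pi_pos.le _).trans_eq (by congr 1; ring)

lemma tup_Wz : ∀ᶠ n : ℕ in atTop, ∀ᶠ ω in 𝓝[>] (0 : ℝ), ∀ z : ℂ, z.re = rexp 1 →
    ‖∑ k ∈ Kn n ω, ∫ x, Fz (n % 2) ω z k x ∂PP (n / 2) - isq z ^ n‖ ≤
      8 * rexp (1 - 0.5305 * n) := by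
  filter_upwards [Rem_le, Del_le, first_moment', eventually_ge_atTop 3] with n a1 a2 a3 hn
  filter_upwards [a1, a2, a3, tup_small] with ω b1 b2 b3 ⟨hω, hω1⟩ z hz
  have he := tup_e
  have h0 := exp_pos 1
  have hn' : (0 : ℝ) ≤ n := n.cast_nonneg
  have h1 := (mh_le n).1
  have hA := (adm_bot n hω).succ hn
  have hD : (1 : ℝ) ≤ ω⁻¹ ^ (MM n + 2) := one_le_pow₀ ((one_le_inv₀ hω).mpr hω1)
  have c1 := b1 _ _ hA hD z (by linarith) (by linarith)
  have c2 := b2 z (by linarith) (by linarith)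
  have c3 := b3 _ _ _ hA hD (InvW.one _) z (by linarith) (by linarith)
  have i1 : Integrable (Rem n ω (spanS ∅) z) (PP (n / 2)) := .of_bound
    ((measurable_parts n ω _).2.2.2.2.1.comp measurable_prodMk_left).aestronglyMeasurable _
    (.of_forall c1)
  have i2 := fun k : Zv (n / 2) => tup_int_Fz (r := n % 2) hω (hz ▸ h0) k
  have i3 := integrable_finsetSum (Kn n ω) fun k _ => i2 k
  have e1 : ∀ x, Osc n ω (spanS ∅) z x =
      ∑ k ∈ Kn n ω, Fz (n % 2) ω z k x - isq z ^ n - Rem n ω (spanS ∅) z x := fun x => by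
    have : Str n ω (spanS ∅) z x = 0 := Finset.sum_eq_zero fun k hk => by
      rw [Finset.mem_filter, mem_Kn hω, tup_mem_bot] at hk
      exact absurd hk.2 hk.1.1
    simp [Rem, Wz, this, Mir, tup_mem_bot]
  have e2 : Err n ω (spanS ∅) 1 = rexp (-0.0392 * n) := by simp [Err, Sh, tup_mem_bot]
  simp only [ofReal_one, one_mul, e1, e2, integral_const, probReal_univ, smul_eq_mul,
    mul_one] at c3 c1
  rw [integral_sub (i3.sub' (integrable_const _)) i1, integral_sub i3 (integrable_const _),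
    integral_finsetSum _ fun k _ => i2 k, integral_const, probReal_univ, one_smul] at c3
  have c4 := norm_integral_le_of_norm_le_const (μ := PP (n / 2)) (.of_forall c1)
  rw [probReal_univ, mul_one] at c4
  have c5 : (z.re * (‖z‖ + ‖z‖⁻¹)) ^ (-mh n) ≤ rexp (-(2.122 * mh n)) := by
    refine tup_rpow_le ?_ (tup_mh n)
    have d1 : rexp 1 ≤ ‖z‖ := hz ▸ re_le_norm z
    have d2 := tup_exp_two_mul (x := 0.061) (by norm_num) (by norm_num)
    have d3 : ‖z‖ * ‖z‖⁻¹ = 1 := mul_inv_cancel₀ (by linarith)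
    have d4 : 0 < ‖z‖⁻¹ := inv_pos.mpr (by linarith)
    rw [show (2.122 : ℝ) = 1 + 1 + 2 * 0.061 by norm_num, Real.exp_add, Real.exp_add, hz]
    have d5 : rexp 1 * rexp 1 + 1 ≤ rexp 1 * (‖z‖ + ‖z‖⁻¹) := by
      have : ‖z‖⁻¹ ≤ 1 := inv_le_one_of_one_le₀ (by linarith)
      nlinarith [mul_nonneg (sub_nonneg.mpr d1) (show 0 ≤ rexp 1 - ‖z‖⁻¹ by linarith)]
    norm_num at d2
    nlinarith
  have c6 : (1.0095 * z.re) ^ (-2 * mh n) ≤ rexp (-(1 * (2 * mh n))) := by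
    rw [neg_mul]
    exact tup_rpow_le (by linarith) (by linarith [tup_mh n])
  have c7 := mul_le_mul_of_nonneg_left c6 (exp_pos (-0.0392 * n)).le
  rw [← Real.exp_add] at c7
  have d : ∀ t : ℝ, t ≤ 1 - 0.5305 * n → rexp t ≤ rexp (1 - 0.5305 * n) := fun t => exp_le_exp.mpr
  have d1 := d (-(2.122 * mh n)) (by linarith)
  have d2 := d (-0.0392 * n + -(1 * (2 * mh n))) (by linarith)
  have d3 := d (-5 * n) (by linarith)
  calc _ = ‖(∑ k ∈ Kn n ω, ∫ x, Fz (n % 2) ω z k x ∂PP (n / 2) - isq z ^ n -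
        ∫ x, Rem n ω (spanS ∅) z x ∂PP (n / 2) - Del n ω z) +
        ∫ x, Rem n ω (spanS ∅) z x ∂PP (n / 2) + Del n ω z‖ := by congr 1; ring
    _ ≤ _ := norm_add₃_le.trans (by linarith)

lemma tup_tot : ∀ᶠ n : ℕ in atTop, ∀ᶠ ω in 𝓝[>] (0 : ℝ), ∀ σ ≤ rho1 n + 1,
    |∑ k ∈ Kn n ω, ∫ x, FS (n % 2) ω (fun ρ => ramp n (σ - ρ)) k x ∂PP (n / 2) -
      In n fun ρ => ramp n (σ - ρ)| ≤ rexp (-0.0302 * n) := by
  filter_upwards [tup_Wz, rho1_exp_le, tup_poly (24 * rexp 1) 5 (ε := 0.0003) (by norm_num),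
    eventually_ge_atTop 40] with n a1 a2 a3 hn
  filter_upwards [a1, tup_small] with ω b1 ⟨hω, _⟩ σ hσ
  have he := tup_e
  have h0 := exp_pos 1
  obtain ⟨g, -, g1, g2, g3⟩ := mix_ramp hn σ (τ := rexp 1) (by linarith) (by linarith)
  have hζ : Measurable fun y : ℝ => (rexp 1 + y * I : ℂ) := by fun_prop
  have hre : ∀ y : ℝ, (rexp 1 + y * I : ℂ).re = rexp 1 := fun y => by simp [-ofReal_exp]
  have c1 := fun k => tup_fubini (m := n / 2) (r := n % 2) hω h0 g1 g3 k (F := fun _ => 1)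
    measurable_const (by simp)
  simp only [one_mul] at c1
  have c2 := (In_mix n h0 hζ (fun y => (hre y).ge) g1 fun ρ _ => g3 ρ).2
  have i1 : Integrable fun y : ℝ => g y * isq (rexp 1 + y * I) ^ n :=
    g1.mul_bdd (c := 1) ((measurable_isq.comp hζ).pow_const n).aestronglyMeasurable
      (.of_forall fun y => by
        rw [norm_isq_pow n (by rw [hre]; exact h0)]
        exact rpow_le_one_of_one_le_of_nonpos (le_trans (by rw [hre]; linarith) (re_le_norm _))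
          (by have : (0 : ℝ) ≤ n := n.cast_nonneg; linarith))
  rw [← Real.norm_eq_abs, ← norm_real, ofReal_sub, ofReal_sum, c2]
  simp only [← integral_complex_ofReal, (c1 _).2]
  rw [← integral_finsetSum _ fun k _ => (c1 k).1,
    ← integral_sub (integrable_finsetSum _ fun k _ => (c1 k).1) i1]
  refine (norm_integral_le_of_norm_le (g1.norm.mul_const (8 * rexp (1 - 0.5305 * n)))
    (.of_forall fun y => by
      rw [← Finset.mul_sum, ← mul_sub, norm_mul]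
      exact mul_le_mul_of_nonneg_left (b1 _ (hre y)) (norm_nonneg _))).trans ?_
  rw [integral_mul_const]
  have c3 := a2 (rexp 1) ⟨h0.le, by linarith⟩
  have c4 := a3 5 0 le_rfl (by norm_num)
  calc _ ≤ 3 * n * ((n : ℝ) ^ 4 * rexp (rexp 1 * n / (2 * rexp 1))) *
        (8 * rexp (1 - 0.5305 * n)) := by
        gcongr
        refine g2.trans (mul_le_mul_of_nonneg_left (le_trans ?_ c3) (by positivity))
        gcongr
    _ = 24 * rexp 1 * (n : ℝ) ^ 5 * En n ^ 0 * rexp (-0.0305 * n) := by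
        rw [show rexp 1 * n / (2 * rexp 1) = n / 2 by field_simp, show 1 - 0.5305 * (n : ℝ) =
          1 + -0.0305 * n - n / 2 by ring, Real.exp_sub, Real.exp_add]
        field_simp
        norm_num
    _ ≤ rexp (0.0003 * n) * rexp (-0.0305 * n) := by gcongr
    _ = _ := by rw [← Real.exp_add]; congr 1; ring

lemma tup_sum_mu1 : ∀ᶠ n : ℕ in atTop, ∀ᶠ ω in 𝓝[>] (0 : ℝ),
    ∑ k ∈ Kp n ω, mu1 n ω k ≤ TT n / 2 + 1 / 2 := by
  filter_upwards [tup_tot, tup_ok, In_aa_le] with n a1 a2 a3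
  filter_upwards [a1, a2] with ω b1 h
  have c1 : ∑ k ∈ Kn n ω, mu1 n ω k - In n (aa n) ≤ _ := (abs_le.mp (b1 _ (by linarith))).2
  have c2 : rexp (-0.0302 * n) ≤ 1 := exp_le_one_iff.mpr (by linarith [h.one_le])
  have c3 : ∑ k ∈ (Kp n ω).image Neg.neg, mu1 n ω k = ∑ k ∈ Kp n ω, mu1 n ω k := by
    rw [Finset.sum_image neg_injective.injOn]
    simp only [mu1, AA, FS_neg]
  have c4 := Finset.sum_le_sum_of_subset_of_nonneg (f := mu1 n ω)
    (s := Kp n ω ∪ (Kp n ω).image Neg.neg) (t := Kn n ω) (Finset.union_subset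
      (Finset.filter_subset _ _) (Finset.image_subset_iff.mpr fun k hk => by
        simpa [mem_Kn h.pos, iv_neg] using (Finset.mem_filter.mp hk).1))
    fun k _ _ => (h.mu1_mem k).1
  rw [Finset.sum_union (Finset.disjoint_right.mpr fun k hk => by
    obtain ⟨j, hj, rfl⟩ := Finset.mem_image.mp hk
    exact neg_notMem_Kp hj), c3] at c4
  linarith

theorem wt_pp : ∀ᶠ n : ℕ in atTop, ∀ᶠ ω in 𝓝[>] (0 : ℝ), Wt n ω (pp n ω) := by
  filter_upwards [tup_sum_mu1, tup_ok, sum_Maj_le, eventually_ge_atTop 800] with n a1 a2 a3 hn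
  filter_upwards [a1, a2, a3] with ω b1 h b3
  have hn' : (800 : ℝ) ≤ n := by exact_mod_cast hn
  refine ⟨fun k hk => ?_, fun k _ => h.maj_le k, ?_⟩
  · have c1 := div_le_self (h.maj k).le (one_le_pow₀ (n := 4) h.one_le)
    rw [pp]
    split_ifs with h1
    · linarith [h.mu1_le (k := k) (tup_mem_Dl.mpr ⟨by simpa, h1, by simp⟩)]
    · linarith [h.maj k]
  · have c1 := b3 0 (by norm_num) 1 0 (Kp n ω) one_ne_zero
    simp only [mul_zero, zero_mul, Real.exp_zero, mul_one, zero_div, add_zero, one_rpow] at c1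
    have c2 : (∑ k ∈ Kp n ω, Maj n ω k) / (n : ℝ) ^ 4 ≤ 1 / 2 := by
      rw [div_le_iff₀ (by positivity)]
      nlinarith [pow_pos (show (0 : ℝ) < n by linarith) 3]
    refine (Finset.sum_le_sum (g := fun k => mu1 n ω k + Maj n ω k / (n : ℝ) ^ 4)
      fun k _ => ?_).trans ?_
    · rw [pp]
      split_ifs <;> linarith [(h.mu1_mem k).1]
    · rw [Finset.sum_add_distrib, ← Finset.sum_div]
      linarith

theorem EAS_le : ∀ᶠ n : ℕ in atTop, ∀ᶠ ω in 𝓝[>] (0 : ℝ), ∀ S ∈ Dl n ω (MM n + 1),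
    ∫ x, AS n ω S x ∂PP (n / 2) ≤ ∏ k ∈ S, pp n ω k :=
  tup_ok.mono fun _ h => h.mono fun _ h => h.EAS

theorem EAv_le : ∀ᶠ n : ℕ in atTop, ∀ᶠ ω in 𝓝[>] (0 : ℝ), ∀ S ∈ Dl n ω (MM n + 1),
    ∀ v : Zv (n / 2), iv v ∉ spanS S →
      ∫ x, AS n ω S x * AA n ω v x ∂PP (n / 2) ≤
        (∏ k ∈ S, pp n ω k) * (Maj n ω v * (1 + 1 / dk ω (spanS S) v)) * En n ^ 3 := by
  filter_upwards [tup_ok, avg_FS_le, nice_adm] with n a1 a2 a3
  filter_upwards [a1] with ω h S hS v hv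
  have he := tup_e
  have h0 := exp_pos 1
  have hA := h.as S
  have hω := h.pos
  have c1 := a2 ω hω _ 1 _ (a3 ω hω 1 le_rfl S hS).1 hA (rexp 1) ⟨by linarith, by linarith⟩ v hv
  have c2 := dk_pos hω S hv
  have c3 := one_le_En n
  have c4 := h.one_le
  have i1 : Integrable (fun x => AS n ω S x * FS (n % 2) ω (ft (rexp 1)) v x) (PP (n / 2)) :=
    (tup_int_FS hω h0 (C := 1) (by unfold ft; fun_prop) (fun ρ _ => by
      rw [one_mul, ft, abs_exp]) zero_le_one v).bdd_mul (c := 1) hA.meas.aestronglyMeasurable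
      (.of_forall fun x => by rw [Real.norm_of_nonneg (hA.nonneg x)]; exact hA.le_one x)
  have c5 := integral_mono ((hA.mono le_top).mul (h.aa ⊤ v trivial)).integrable
    (i1.const_mul (rexp (π * rexp 1 * rho1 n))) fun x => by
      simp only [mul_left_comm _ (AS n ω S x)]
      exact mul_le_mul_of_nonneg_left (AA_le_FS hω h0 v x).2 (hA.nonneg x)
  rw [integral_const_mul] at c5
  have c6 : rexp 1 ^ (-mh n) = rexp (-1 / 2) ^ (n / 2) := by
    rw [exp_one_rpow, ← Real.exp_nat_mul, mh]; congr 1; ring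
  calc _ ≤ _ := c5.trans (mul_le_mul_of_nonneg_left c1 (exp_pos _).le)
    _ = (∫ x, AS n ω S x ∂PP (n / 2)) * (Maj n ω v / (100 * n) * (1 + 1 / dk ω (spanS S) v)) *
        En n ^ 3 := by rw [c6, Maj, mul_pow]; field_simp
    _ ≤ _ := by
      have := h.maj v
      have := (tup_mean hA).1
      gcongr
      · exact this.trans (h.EAS S hS)
      · exact h.EAS S hS
      · exact div_le_self (by linarith) (by linarith)

theorem shell_le : ∀ᶠ n : ℕ in atTop, ∀ᶠ ω in 𝓝[>] (0 : ℝ),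
    ∫ x, ∑ k ∈ Kn n ω, FS (n % 2) ω (bb n) k x ∂PP (n / 2) ≤ rexp (-0.03 * n) := by
  filter_upwards [tup_tot, In_bb_le, tup_poly 3 0 (ε := 0.0002) (by norm_num),
    eventually_ge_atTop 1] with n a1 a2 a3 hn
  filter_upwards [a1, tup_small] with ω b1 ⟨hω, _⟩
  have hn' : (1 : ℝ) ≤ n := by exact_mod_cast hn
  have c0 : rexp (-n) ≤ 1 / 2 := by
    have := Real.add_one_le_exp (n : ℝ)
    rw [Real.exp_neg, one_div]
    exact inv_anti₀ two_pos (by linarith)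
  have c1 := (abs_le.mp (b1 (rho1 n + 2 * rexp (-n)) (by linarith))).2
  have c2 := (abs_le.mp (b1 (rho1 n - rexp (-n)) (by linarith [exp_pos (-n : ℝ)]))).1
  have i := fun σ k => tup_int_FS (m := n / 2) (r := n % 2) (φ := fun ρ => ramp n (σ - ρ)) hω
    one_pos ((continuous_ramp n).comp (continuous_const.sub continuous_id)).measurable
    (fun ρ _ => tup_ramp n σ ρ) (exp_pos _).le k
  have e1 : ∀ k x, FS (n % 2) ω (bb n) k x =
      FS (n % 2) ω (fun ρ => ramp n (rho1 n + 2 * rexp (-n) - ρ)) k x -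
      FS (n % 2) ω (fun ρ => ramp n (rho1 n - rexp (-n) - ρ)) (k : Zv (n / 2)) x := fun k x =>
    (FS_le_of_le hω one_pos (fun ρ _ => tup_ramp n _ ρ) x k).1.tsum_sub
      (FS_le_of_le hω one_pos (fun ρ _ => tup_ramp n _ ρ) x k).1
  simp only [e1]
  rw [integral_finsetSum _ fun k _ => (i _ k).sub' (i _ k),
    Finset.sum_congr rfl fun k _ => integral_sub (i _ k) (i _ k), Finset.sum_sub_distrib]
  have c3 : rexp (-n / 2) ≤ rexp (-0.0302 * n) := exp_le_exp.mpr (by linarith)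
  have c4 := mul_le_mul_of_nonneg_right (a3 0 0 le_rfl le_rfl) (exp_pos (-0.0302 * n)).le
  rw [← Real.exp_add, show 0.0002 * (n : ℝ) + -0.0302 * n = -0.03 * n by ring] at c4
  simp only [pow_zero, mul_one] at c4
  linarith

end Pool.Agent.Eps
end
end

-- part Pool.Agent.Lib.MP_3bda03_nt.Tuple
section

set_option autoImplicit false

noncomputable section

open scoped BigOperators Classical Topology
open MeasureTheory Real Complex Filter

namespace Pool.Agent.Eps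

lemma tup_cs {m : ℕ} {ω β β₁ β₂ : ℝ} (hω : 0 < ω) (h₁ : 0 < β₁) (h₂ : 0 < β₂) (h : β₁ + β₂ ≤ 2 * β)
    (W : Submodule ℝ (Ev m)) : th0 ω W β ^ 2 ≤ th ω W β₁ * th0 ω W β₂ := by
  have key : ∀ l : ℝ, 0 < l → 2 * th0 ω W β ≤ l * th0 ω W β₁ + l⁻¹ * th0 ω W β₂ := fun l hl => by
    have s1 := (summable_th hω h₁ fun κ => iv κ ∈ W ∧ κ ≠ 0).mul_left l
    have s2 := (summable_th hω h₂ fun κ => iv κ ∈ W ∧ κ ≠ 0).mul_left l⁻¹
    rw [th0, th0, th0, ← tsum_mul_left, ← tsum_mul_left, ← tsum_mul_left, ← s1.tsum_add s2]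
    refine ((summable_th hω (by linarith) _).mul_left _).tsum_le_tsum (fun κ => ?_) (s1.add s2)
    split_ifs
    · have h0 : 0 ≤ π * (ω ^ 2 * ‖iv κ‖ ^ 2) := by positivity
      set a := rexp (-π * β₁ * (ω ^ 2 * ‖iv κ‖ ^ 2) / 2) with ha
      set b := rexp (-π * β₂ * (ω ^ 2 * ‖iv κ‖ ^ 2) / 2) with hb
      have e1 : rexp (-π * β₁ * (ω ^ 2 * ‖iv κ‖ ^ 2)) = a * a := by
        rw [ha, ← Real.exp_add, add_halves]
      have e2 : rexp (-π * β₂ * (ω ^ 2 * ‖iv κ‖ ^ 2)) = b * b := by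
        rw [hb, ← Real.exp_add, add_halves]
      have e3 : rexp (-π * β * (ω ^ 2 * ‖iv κ‖ ^ 2)) ≤ a * b := by
        rw [ha, hb, ← Real.exp_add]
        exact exp_le_exp.mpr (by nlinarith)
      have e4 : l * l⁻¹ = 1 := mul_inv_cancel₀ hl.ne'
      have e5 : 0 ≤ l⁻¹ * (l * a - b) ^ 2 := by positivity
      have e6 : l⁻¹ * (l * a - b) ^ 2 = l * (a * a) + l⁻¹ * (b * b) - 2 * (a * b) := by
        field_simp; ring
      rw [e1, e2]; linarith
    · simp
  have a0 := th0_nonneg ω β W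
  have a1 := th0_nonneg ω β₁ W
  have a2 := th0_nonneg ω β₂ W
  rw [th_eq hω h₁]
  rcases a0.eq_or_lt with h0 | h0
  · rw [← h0, zero_pow two_ne_zero]; positivity
  · have := key (th0 ω W β / (1 + th0 ω W β₁)) (by positivity)
    rw [inv_div, div_mul_eq_mul_div, div_mul_eq_mul_div, div_add_div _ _ (by positivity) h0.ne',
      le_div_iff₀ (by positivity)] at this
    refine le_of_mul_le_mul_right ?_ (show 0 < 1 + th0 ω W β₁ by positivity)
    nlinarith [sq_nonneg (th0 ω W β)]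

lemma tup_Dl_mono {n : ℕ} {ω : ℝ} : Dl n ω (MM n) ⊆ Dl n ω (MM n + 1) := fun _ h =>
  tup_mem_Dl.mpr ⟨(tup_mem_Dl.mp h).1, (tup_mem_Dl.mp h).2.1, (tup_mem_Dl.mp h).2.2.trans
    (Nat.le_succ _)⟩

lemma tup_sum_prod {n M : ℕ} {ω : ℝ} (h : TupOK n ω) (hw : Wt n ω (pp n ω)) :
    ∑ S ∈ Dl n ω M, ∏ k ∈ S, pp n ω k ≤ rexp (TT n / 2 + 1) :=
  (Finset.sum_le_sum_of_subset_of_nonneg (Finset.filter_subset _ _) fun _ _ _ =>
    Finset.prod_nonneg fun k _ => (h.pp_pos k).le).trans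
    (sum_prod_le (le_trans (by norm_num) h.hn) h.pos hw)

/-- asymptotic independence of the points of a nice set -/
theorem sum_EAS_sub_le : ∀ᶠ n : ℕ in atTop, ∀ᶠ ω in 𝓝[>] (0 : ℝ),
    ∑ S ∈ Dl n ω (MM n), |∫ x, AS n ω S x ∂PP (n / 2) - ∏ k ∈ S, mu1 n ω k| ≤
      rexp (TT n / 2 - 0.05 * n) := by
  filter_upwards [tup_ok, wt_pp, sum_Sh_le, nice_adm, tup_poly (4 * rexp 1) 9 (ε := 0.002)
    (by norm_num), (Real.tendsto_log_atTop.comp tendsto_natCast_atTop_atTop).eventually_ge_atTop 30]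
    with n a1 a2 a3 a4 a5 hl
  filter_upwards [a1, a2, a3] with ω h hw b3
  have he := tup_e
  have h0 := exp_pos 1
  have h1 := (mh_le n).1
  have h2 := one_le_En n
  have h3 := h.one_le
  have hp : ∀ S : Finset (Zv (n / 2)), 0 ≤ ∏ k ∈ S, pp n ω k := fun S =>
    Finset.prod_nonneg fun k _ => (h.pp_pos k).le
  have hl : (30 : ℝ) ≤ Real.log n := hl
  have c1 : ∀ S ∈ Dl n ω (MM n), |∫ x, AS n ω S x ∂PP (n / 2) - ∏ k ∈ S, mu1 n ω k| ≤
      2 * (n : ℝ) ^ 9 * (En n * rexp (-(0.21 * mh n)) * ((∏ k ∈ S, pp n ω k) * Sh n ω (spanS S)) +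
        rexp (-0.1 * n) * ∏ k ∈ S, pp n ω k) := fun S hS => by
    have d1 := tup_cs (β := 1 / rexp 1) (β₁ := 1 / Real.log n) (β₂ := 0.7) h.pos (by positivity)
      (by norm_num) (by
        have : 1 / Real.log n ≤ 1 / 30 := one_div_le_one_div_of_le (by norm_num) hl
        have : 1 / 2.72 ≤ 1 / rexp 1 := one_div_le_one_div_of_le h0 (by linarith)
        norm_num at *
        linarith) (spanS S)
    have d2 := (a4 ω h.pos 1 le_rfl S (tup_Dl_mono hS)).2.1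
    have d3 := th0_le_Sh (n := n) h.pos (β := 0.7) (by norm_num) (by norm_num) (spanS S)
    have d4 : (1 + 0.7 / rexp 1) ^ (-mh n) ≤ rexp (-(0.21 * mh n)) := by
      refine tup_rpow_le ?_ (tup_mh n)
      have := tup_exp_two_mul (x := 0.105) (by norm_num) (by norm_num)
      have : 0.7 / 2.72 ≤ 0.7 / rexp 1 := div_le_div_of_nonneg_left (by norm_num) h0 (by linarith)
      norm_num at *
      linarith
    have d5 : th0 ω (spanS S) 0.7 ≤ rexp (-(0.21 * mh n)) * Sh n ω (spanS S) := by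
      rw [← le_div_iff₀' (by positivity), div_eq_inv_mul, ← rpow_neg (by positivity)] at d3
      exact d3.trans (mul_le_mul_of_nonneg_right d4 (Sh_nonneg _ _ _))
    have d6 : tupSb n ω S ^ 2 ≤ 2 * (En n * rexp (-(0.21 * mh n)) * Sh n ω (spanS S) +
        rexp (-0.1 * n)) := by
      have := mul_le_mul d2 d5 (th0_nonneg _ _ _) (by linarith)
      rw [show -0.1 * (n : ℝ) = -0.05 * n + -0.05 * n by ring, Real.exp_add, tupSb]
      nlinarith [sq_nonneg (th0 ω (spanS S) (1 / rexp 1) - rexp (-0.05 * n))]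
    have d7 : (S.card : ℝ) ≤ n := by
      have := (tup_mem_Dl.mp hS).2.2
      unfold MM at this
      exact_mod_cast (by omega)
    have := hp S
    calc _ ≤ _ := h.sub_le (tup_Dl_mono hS) S le_rfl
      _ ≤ n * ((n : ℝ) ^ 8 * (2 * (En n * rexp (-(0.21 * mh n)) * Sh n ω (spanS S) +
          rexp (-0.1 * n))) * ∏ k ∈ S, pp n ω k) := by gcongr
      _ = _ := by ring
  refine (Finset.sum_le_sum c1).trans ?_
  rw [← Finset.mul_sum, Finset.sum_add_distrib, ← Finset.mul_sum, ← Finset.mul_sum]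
  have c2 := (Finset.sum_le_sum_of_subset_of_nonneg tup_Dl_mono fun S _ _ =>
    mul_nonneg (hp S) (Sh_nonneg n ω (spanS S))).trans (b3 _ hw)
  have c3 := tup_sum_prod (M := MM n) h hw
  calc _ ≤ 2 * (n : ℝ) ^ 9 * (En n * rexp (-(0.21 * mh n)) * rexp (TT n / 2 + 0.00015 * n) +
        En n * rexp (-0.1 * n) * rexp (TT n / 2 + 1)) := by
        have := Finset.sum_nonneg fun S (_ : S ∈ Dl n ω (MM n)) => hp S
        gcongr
        exact le_mul_of_one_le_left (exp_pos _).le h2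
    _ ≤ 2 * (n : ℝ) ^ 9 * (En n * rexp (1 + (TT n / 2 - 0.052 * n)) +
        En n * rexp (1 + (TT n / 2 - 0.052 * n))) := by
        rw [mul_assoc (En n), mul_assoc (En n), ← Real.exp_add, ← Real.exp_add]
        gcongr _ * (_ * rexp ?_ + _ * rexp ?_) <;> linarith
    _ = 4 * rexp 1 * (n : ℝ) ^ 9 * En n ^ 1 * rexp (TT n / 2 - 0.052 * n) := by
        rw [Real.exp_add]; ring
    _ ≤ rexp (0.002 * n) * rexp (TT n / 2 - 0.052 * n) := by
        gcongr
        exact a5 9 1 le_rfl (by norm_num)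
    _ = _ := by rw [← Real.exp_add]; congr 1; ring

lemma tup_mu1_le : ∀ᶠ n : ℕ in atTop, ∀ᶠ ω in 𝓝[>] (0 : ℝ), ∀ v : Zv (n / 2), v ≠ 0 →
    mu1 n ω v ≤ Maj n ω v * (1 + 1 / dk ω (spanS ∅) v) * En n ^ 3 := by
  filter_upwards [EAv_le, eventually_ge_atTop 3] with n a1 hn
  filter_upwards [a1] with ω b1 v hv
  simpa [AS, mu1] using b1 ∅ (Dl_down hn _).1 v (mt tup_mem_bot.mp hv)

lemma tup_mu1_small : ∀ᶠ n : ℕ in atTop, ∀ᶠ ω in 𝓝[>] (0 : ℝ), ∀ v : Zv (n / 2), v ≠ 0 →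
    mu1 n ω v ≤ rexp (-n) := by
  filter_upwards [tup_mu1_le, dk_inv_le, eventually_ge_atTop 40] with n a1 a2 hn
  have h2 := one_le_En n
  have h3 : (0 : ℝ) < n := by positivity
  filter_upwards [a1, a2, tup_small, Ioc_mem_nhdsGT (show 0 < rexp (-n) /
    (100 * n * rexp (π * rexp 1 * rho1 n) * En n ^ 3) by positivity)] with ω b1 b2 ⟨hω, h1⟩ h4 v hv
  have c1 := b2 _ _ v (adm_bot n hω) (mt tup_mem_bot.mp hv)
  have c2 : Maj n ω v ≤ 100 * n * rexp (π * rexp 1 * rho1 n) * ω ^ (MM n + 2 + 1) := by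
    refine (mul_le_of_le_one_right (by positivity) (exp_le_one_iff.mpr ?_)).trans
      (mul_le_mul_of_nonneg_left ((pow_le_pow_left₀ (by positivity) (mul_le_of_le_one_right hω.le
        (exp_le_one_iff.mpr (by norm_num))) _).trans (pow_le_pow_of_le_one hω.le h1 ?_))
        (by positivity))
    · have : 0 ≤ π * rexp 1 * (ω ^ 2 * ‖iv v‖ ^ 2) := by positivity
      linarith
    · unfold MM; omega
  have c3 := dk_pos hω ∅ (mt tup_mem_bot.mp hv)
  calc _ ≤ _ := b1 v hv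
    _ ≤ 100 * n * rexp (π * rexp 1 * rho1 n) * ω ^ (MM n + 2 + 1) * ω⁻¹ ^ (MM n + 2) *
        En n ^ 3 := by gcongr
    _ = ω * (100 * n * rexp (π * rexp 1 * rho1 n) * En n ^ 3) := by
        rw [pow_succ ω, inv_pow]; field_simp
    _ ≤ _ := (le_div_iff₀ (by positivity)).mp h4.2

lemma tup_count {α : Type*} [DecidableEq α] (K : Finset α) (Δ : Finset (Finset α))
    (hK : ∀ S ∈ Δ, S ⊆ K) (M : ℕ) (f : Finset α → ℝ) (hf : ∀ S, 0 ≤ f S) :
    ∑ S ∈ Δ, ∑ v ∈ K, (if v ∉ S ∧ S.card = M then f (insert v S) else 0) ≤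
      (M + 1) * ∑ S ∈ K.powerset.filter (fun S => S.card = M + 1), f S := by
  rw [Finset.sum_comm, Finset.mul_sum, Finset.sum_congr rfl (g := fun S => ∑ v ∈ K,
    if v ∈ S then f S else 0) fun S hS => by
      rw [Finset.mem_filter, Finset.mem_powerset] at hS
      rw [← Finset.sum_filter, Finset.filter_mem_eq_inter, Finset.inter_eq_right.mpr hS.1,
        Finset.sum_const, hS.2]
      simp, Finset.sum_comm (t := K)]
  refine Finset.sum_le_sum fun v hv => ?_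
  rw [← Finset.sum_filter, ← Finset.sum_filter, ← Finset.sum_image (g := insert v) fun S hS T hT h =>
    by rw [← Finset.erase_insert (Finset.mem_filter.mp hS).2.1, h,
      Finset.erase_insert (Finset.mem_filter.mp hT).2.1]]
  refine Finset.sum_le_sum_of_subset_of_nonneg (Finset.image_subset_iff.mpr fun S hS => ?_)
    fun _ _ _ => hf _
  rw [Finset.mem_filter] at hS
  simp [Finset.insert_subset_iff, hv, hK S hS.1, Finset.card_insert_of_notMem hS.2.1, hS.2.2]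

/-- the alternating sum of the means over nice sets -/
theorem alt_lb : ∀ᶠ n : ℕ in atTop, ∀ᶠ ω in 𝓝[>] (0 : ℝ),
    rexp (-TT n / 2 - 2) ≤
      ∑ S ∈ Dl n ω (MM n), (-1 : ℝ) ^ S.card * ∫ x, AS n ω S x ∂PP (n / 2) := by
  filter_upwards [tup_ok, wt_pp, sum_EAS_sub_le, tup_mu1_le, tup_mu1_small, tup_sum_mu1,
    sum_bad_le, sum_size_le, card_Kp_span_le, tup_poly (4 * rexp 3) 3 (ε := 0.0065) (by norm_num)]
    with n a1 a2 a3 a4 a5 a6 a7 a8 a9 a10
  filter_upwards [a1, a2, a3, a4, a5, a6, a7] with ω h hw b3 b4 b5 b6 b7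
  have hn : 3 ≤ n := le_trans (by norm_num) h.hn
  have h2 := one_le_En n
  have h3 : (40 : ℝ) ≤ n := by exact_mod_cast h.hn
  have hω := h.pos
  have hp : ∀ S : Finset (Zv (n / 2)), 0 ≤ ∏ k ∈ S, pp n ω k := fun S =>
    Finset.prod_nonneg fun k _ => (h.pp_pos k).le
  have hK : ∀ v ∈ Kp n ω, v ≠ 0 := fun v hv => ((mem_Kn hω v).mp (Finset.mem_filter.mp hv).1).1
  have hm : ∀ {M S}, S ∈ Dl n ω M → ∀ k ∈ S, mu1 n ω k ≤ pp n ω k := fun hS k hk => by
    rw [← h.mu1_le_pp hS hk]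
    exact le_add_of_nonneg_right (by have := h.maj k; positivity)
  obtain ⟨d0, d1⟩ := Dl_down (n := n) (ω := ω) hn (MM n)
  have c1 := euler_le (Kp n ω) _ (fun S hS => (d1 S hS).1) d0 (fun S hS => (d1 S hS).2)
    (mu1 n ω) fun k _ => h.mu1_mem k
  have c2 : ∀ S ∈ Dl n ω (MM n), ∑ v ∈ (Kp n ω).filter (fun v => v ∉ S ∧
      insert v S ∉ Dl n ω (MM n)), (∏ k ∈ S, mu1 n ω k) * mu1 n ω v ≤
      En n ^ 2 * rexp (-n) * ∏ k ∈ S, pp n ω k + En n ^ 3 * ∑ v ∈ (Kp n ω).filter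
        (fun v => iv v ∉ spanS S ∧ ¬ Nice n ω (insert v S)),
        (∏ k ∈ S, pp n ω k) * (Maj n ω v * (1 + 1 / dk ω (spanS S) v) ^ 4) +
      ∑ v ∈ Kp n ω, if v ∉ S ∧ S.card = MM n then ∏ k ∈ insert v S, pp n ω k else 0 := by
    intro S hS
    have e0 := hp S
    have e1 : ∏ k ∈ S, mu1 n ω k ≤ ∏ k ∈ S, pp n ω k :=
      Finset.prod_le_prod (fun k _ => (h.mu1_mem k).1) (hm hS)
    have e2 : ∑ v ∈ (Kp n ω).filter (fun v => iv v ∈ spanS S), (∏ k ∈ S, pp n ω k) * rexp (-n) ≤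
        En n ^ 2 * rexp (-n) * ∏ k ∈ S, pp n ω k := by
      rw [Finset.sum_const, nsmul_eq_mul, mul_comm _ (rexp _), mul_assoc]
      exact mul_le_mul_of_nonneg_right (a9 ω hω S (tup_Dl_mono hS)) (by positivity)
    refine le_trans ?_ (add_le_add_left (add_le_add_left e2 _) _)
    simp only [Finset.mul_sum, Finset.sum_filter, ← Finset.sum_add_distrib]
    refine Finset.sum_le_sum fun v hv => ?_
    have e3 := (h.mu1_mem v).1
    have e4 := h.maj v
    have e5 := hp (insert v S)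
    have e6 : ∀ p : Prop, [Decidable p] → 0 ≤ if p then ∏ k ∈ insert v S, pp n ω k else 0 :=
      fun p _ => by split_ifs <;> positivity
    have e7 : ∀ p : Prop, [Decidable p] → 0 ≤ En n ^ 3 * if p then (∏ k ∈ S, pp n ω k) *
      (Maj n ω v * (1 + 1 / dk ω (spanS S) v) ^ 4) else 0 := fun p _ => by
        split_ifs <;> positivity
    by_cases g1 : iv v ∈ spanS S
    · refine le_add_of_le_of_nonneg (le_add_of_le_of_nonneg ?_ (e7 _)) (e6 _)
      rw [if_pos g1]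
      split_ifs
      · exact mul_le_mul e1 (b5 v (hK v hv)) e3 e0
      · positivity
    rw [if_neg g1, zero_add]
    by_cases g0 : v ∉ S ∧ insert v S ∉ Dl n ω (MM n)
    swap
    · rw [if_neg g0]; exact add_nonneg (e7 _) (e6 _)
    rw [if_pos g0]
    by_cases g2 : Nice n ω (insert v S)
    · have g3 : insert v S ∈ Dl n ω (MM n + 1) := tup_mem_Dl.mpr ⟨Finset.insert_subset hv
        (d1 S hS).1, g2, (Finset.card_insert_le _ _).trans (by
          have := (tup_mem_Dl.mp hS).2.2; omega)⟩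
      have g4 : S.card = MM n := by
        by_contra g4
        exact g0.2 (tup_mem_Dl.mpr ⟨(tup_mem_Dl.mp g3).1, g2, (Finset.card_insert_le _ _).trans
          (by have := (tup_mem_Dl.mp hS).2.2; omega)⟩)
      refine le_add_of_nonneg_of_le (e7 _) ?_
      rw [if_pos ⟨g0.1, g4⟩, Finset.prod_insert g0.1, mul_comm (pp n ω v)]
      exact mul_le_mul e1 (hm g3 v (by simp)) e3 e0
    · refine le_add_of_le_of_nonneg ?_ (e6 _)
      rw [if_pos ⟨g1, g2⟩, mul_left_comm]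
      refine mul_le_mul e1 ((b4 v (hK v hv)).trans ?_) e3 e0
      have g3 := dk_pos hω S g1
      have g4 := dk_le_dk_bot hω S g1
      rw [mul_comm]
      gcongr
      refine le_trans ?_ (le_self_pow₀ (le_add_of_nonneg_right (by positivity)) (by norm_num))
      gcongr
  have c3 := Finset.sum_le_sum c2
  rw [Finset.sum_add_distrib, Finset.sum_add_distrib, ← Finset.mul_sum, ← Finset.mul_sum] at c3
  have c4 := (tup_count (Kp n ω) _ (fun S hS => (d1 S hS).1) (MM n) _ hp).trans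
    (mul_le_mul (b := (n : ℝ)) (by
      have : MM n + 1 ≤ n := by unfold MM; omega
      exact_mod_cast this) (a8 ω hω _ hw) (Finset.sum_nonneg fun S _ => hp S) (by linarith))
  have c5 := mul_le_mul_of_nonneg_left (tup_sum_prod (M := MM n) h hw)
    (show 0 ≤ En n ^ 2 * rexp (-n) by positivity)
  have c6 := mul_le_mul_of_nonneg_left (b7 _ hw) (show 0 ≤ En n ^ 3 by positivity)
  have c7 : |∑ S ∈ Dl n ω (MM n), (-1 : ℝ) ^ S.card * ∫ x, AS n ω S x ∂PP (n / 2) -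
      ∑ S ∈ Dl n ω (MM n), (-1 : ℝ) ^ S.card * ∏ k ∈ S, mu1 n ω k| ≤
      rexp (TT n / 2 - 0.05 * n) := by
    rw [← Finset.sum_sub_distrib]
    refine (Finset.abs_sum_le_sum_abs _ _).trans (le_trans (le_of_eq ?_) b3)
    simp [← mul_sub, abs_mul]
  have c8 : rexp (-TT n / 2 - 1) ≤ ∏ k ∈ Kp n ω, (1 - mu1 n ω k) := by
    have e1 : rexp (-n) * (n + 1) ≤ 1 := by
      rw [Real.exp_neg, inv_mul_le_iff₀ (exp_pos _), mul_one]
      exact Real.add_one_le_exp _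
    have e2 := exp_pos (-n : ℝ)
    refine le_trans (b := ∏ k ∈ Kp n ω, rexp (-((1 + 2 * rexp (-n)) * mu1 n ω k))) ?_
      (Finset.prod_le_prod (fun _ _ => (exp_pos _).le) fun k hk => ?_)
    · rw [← Real.exp_sum, Finset.sum_neg_distrib, ← Finset.mul_sum, exp_le_exp]
      have := mul_le_mul_of_nonneg_left b6 (show 0 ≤ 1 + 2 * rexp (-n) by positivity)
      unfold TT at *
      nlinarith
    · have e3 := b5 k (hK k hk)
      have e4 := h.mu1_mem k
      have e5 := Real.add_one_le_exp ((1 + 2 * rexp (-n)) * mu1 n ω k)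
      rw [Real.exp_neg, inv_le_iff_one_le_mul₀ (exp_pos _)]
      refine le_trans ?_ (mul_le_mul_of_nonneg_left e5 (by linarith))
      have : (1 + 2 * rexp (-n)) * mu1 n ω k ≤ 2 * rexp (-n) := by nlinarith
      nlinarith
  set δ := rexp 1 * n * En n ^ 3 * rexp (TT n / 2 - 0.045 * n) with hδ
  have h1 : 1 ≤ rexp 1 := one_le_exp zero_le_one
  have h4 : 1 ≤ En n ^ 3 := one_le_pow₀ h2
  have t : ∀ a b : ℝ, 0 ≤ a → a ≤ rexp 1 * n * En n ^ 3 → b ≤ TT n / 2 - 0.045 * n →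
      a * rexp b ≤ δ := fun a b _ _ _ => by rw [hδ]; gcongr
  have t0 : (n : ℝ) * En n ^ 3 ≤ rexp 1 * n * En n ^ 3 := by
    rw [mul_assoc]; exact le_mul_of_one_le_left (by positivity) h1
  have t1 := t 1 (TT n / 2 - 0.05 * n) zero_le_one (by nlinarith) (by linarith)
  have t2 := t (En n ^ 2) (-n + (TT n / 2 + 1)) (by positivity) (by
    have := pow_le_pow_right₀ h2 (show 2 ≤ 3 by norm_num); nlinarith) (by linarith)
  have t3 := t (En n ^ 3) (TT n / 2 - 0.25 * n) (by positivity) (by nlinarith) (by linarith)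
  have t4 := t n (TT n / 2 - 0.045 * n) (by positivity) (by nlinarith) le_rfl
  rw [Real.exp_add, ← mul_assoc] at t2
  have t5 : 4 * δ ≤ rexp (-TT n / 2 - 2) := by
    have := mul_le_mul_of_nonneg_right (a10 1 3 (by norm_num) le_rfl)
      (exp_pos (TT n / 2 - 0.045 * n - 2)).le
    rw [← Real.exp_add] at this
    calc _ = _ := by
          rw [hδ, show (3 : ℝ) = 1 + 2 by norm_num, Real.exp_add, Real.exp_sub _ 2]
          field_simp
      _ ≤ _ := this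
      _ = _ := by congr 1; unfold TT; ring
  have t6 : 2 * rexp (-TT n / 2 - 2) ≤ rexp (-TT n / 2 - 1) := by
    rw [show -TT n / 2 - 1 = 1 + (-TT n / 2 - 2) by ring, Real.exp_add]
    exact mul_le_mul_of_nonneg_right (by linarith [tup_e.1]) (exp_pos _).le
  linarith [(abs_le.mp c1).1, (abs_le.mp c7).1]

theorem far_le : ∀ᶠ n : ℕ in atTop, ∀ᶠ ω in 𝓝[>] (0 : ℝ),
    (Integrable (fun x => ∑' k : Zv (n / 2),
      if k ∈ Kn n ω ∨ k = 0 then 0 else FS (n % 2) ω (ft 1) k x) (PP (n / 2))) ∧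
    ∫ x, (∑' k : Zv (n / 2), if k ∈ Kn n ω ∨ k = 0 then 0 else FS (n % 2) ω (ft 1) k x)
      ∂PP (n / 2) ≤ rexp (-(n : ℝ) ^ 2) := by
  filter_upwards [avg_FS_le, sum_dk_le, tup_poly (6 * rexp 4) 9 (ε := 1) one_pos,
    eventually_ge_atTop 40] with n a1 a2 a3 hn
  filter_upwards [a2, tup_small] with ω b2 ⟨hω, hω1⟩
  have h2 := one_le_En n
  have h3 : (40 : ℝ) ≤ n := by exact_mod_cast hn
  have hA := adm_bot n hω
  have hF : ∀ (k : Zv (n / 2)) x, 0 ≤ FS (n % 2) ω (ft 1) k x := fun k x =>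
    tsum_nonneg fun _ => (exp_pos _).le
  have hm : ∀ k : Zv (n / 2), Measurable fun x =>
      if k ∈ Kn n ω ∨ k = 0 then 0 else FS (n % 2) ω (ft 1) k x := fun k => by
    split_ifs
    exacts [measurable_const, measurable_FS ω (by unfold ft; fun_prop) k]
  have hs := (summable_th hω one_pos fun _ : Zv (n / 2) => True).mul_right
    ((1 + 1 / √1) ^ (n % 2) * (1 + ω / √1) ^ (n / 2))
  have hb : ∀ (k : Zv (n / 2)) x, ‖if k ∈ Kn n ω ∨ k = 0 then 0 else FS (n % 2) ω (ft 1) k x‖ ≤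
      (if True then rexp (-π * 1 * (ω ^ 2 * ‖iv k‖ ^ 2)) else 0) *
        ((1 + 1 / √1) ^ (n % 2) * (1 + ω / √1) ^ (n / 2)) := fun k x => by
    split_ifs
    · rw [norm_zero]; positivity
    · rw [Real.norm_of_nonneg (hF k x)]; exact FS_ft_le hω one_pos x k
  have hi := fun k => Integrable.of_bound (μ := PP (n / 2)) (hm k).aestronglyMeasurable _
    (.of_forall (hb k))
  refine ⟨.of_bound (Measurable.tsum hm).aestronglyMeasurable _ (.of_forall fun x =>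
    tsum_of_norm_bounded hs.hasSum fun k => hb k x), ?_⟩
  have c0 := hasSum_integral_of_summable_integral_norm hi (.of_nonneg_of_le
    (fun _ => integral_nonneg fun _ => norm_nonneg _) (fun k => by
      simpa using integral_mono (hi k).norm (integrable_const _) (hb k)) hs)
  set K := En n ^ 3 * ω ^ (n / 2) * rexp (-(π * n ^ 2 / 2)) with hK
  set c : Zv (n / 2) → ℝ := fun k => rexp 4 * rexp (-π * 1 * (ω ^ 2 * ‖iv k‖ ^ 2)) *
    (1 + 1 / dk ω (spanS ∅) k) with hc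
  have hc0 : ∀ k ∈ Kn n ω, 0 < dk ω (spanS ∅) k := fun k hk =>
    dk_pos hω ∅ (mt tup_mem_bot.mp ((mem_Kn hω k).mp hk).1)
  have s1 := fun k₀ : Zv (n / 2) => (summable_th hω (β := 1 / 2) (by norm_num)
    fun k => iv k ∈ ext (spanS ∅) k₀).hasSum.mul_left (c k₀)
  have s2 := summable_gauss (m := n / 2) (s := ω ^ 2 / 2) (by positivity) 0
  refine (hasSum_le (fun k => ?_) c0 (((s2.hasSum.mul_left 2).add
    (hasSum_sum (s := Kn n ω) fun k _ => s1 k)).mul_left K)).trans ?_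
  · have d0 : ∀ k₀ ∈ Kn n ω, 0 ≤ c k₀ * if iv k ∈ ext (spanS ∅) k₀ then
        rexp (-π * (1 / 2) * (ω ^ 2 * ‖iv k‖ ^ 2)) else 0 := fun k₀ h => by
      have := hc0 k₀ h
      split_ifs <;> positivity
    have d1 := Finset.sum_nonneg d0
    split_ifs with hk
    · rw [integral_zero]; positivity
    rw [not_or, mem_Kn hω] at hk
    have d2 : iv k ∉ spanS ∅ := mt tup_mem_bot.mp hk.2
    have d3 := a1 ω hω _ 1 _ (hA.succ (by omega)) (InvW.one _) 1 (by norm_num) k d2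
    have d4 := dk_pos hω ∅ d2
    have d5 : (n : ℝ) ^ 2 ≤ ω ^ 2 * ‖iv k‖ ^ 2 := by
      rw [← mul_pow]
      exact pow_le_pow_left₀ (by positivity) (not_le.mp fun h => hk.1 ⟨hk.2, h⟩).le 2
    have d6 : rexp (-π * 1 * (ω ^ 2 * ‖iv k‖ ^ 2)) ≤
        rexp (-(π * n ^ 2 / 2)) * rexp (-π * (1 / 2) * (ω ^ 2 * ‖iv k‖ ^ 2)) := by
      rw [← Real.exp_add, exp_le_exp]
      nlinarith [pi_pos]
    simp only [one_mul, integral_const, probReal_univ, smul_eq_mul, one_rpow, mul_one] at d3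
    rw [add_zero, show -π * (ω ^ 2 / 2) * ‖iv k‖ ^ 2 = -π * (1 / 2) * (ω ^ 2 * ‖iv k‖ ^ 2) by ring]
    rw [mul_one] at d6
    calc _ ≤ _ := d3
      _ ≤ En n ^ 3 * (1 + 1 / dk ω (spanS ∅) k) * (ω ^ (n / 2) * (rexp (-(π * n ^ 2 / 2)) *
          rexp (-π * (1 / 2) * (ω ^ 2 * ‖iv k‖ ^ 2)))) := by gcongr
      _ = K * ((1 + 1 / dk ω (spanS ∅) k) * rexp (-π * (1 / 2) * (ω ^ 2 * ‖iv k‖ ^ 2))) := by ring
      _ ≤ _ := mul_le_mul_of_nonneg_left ?_ (by positivity)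
    by_cases d7 : 1 ≤ dk ω (spanS ∅) k
    · refine le_add_of_le_of_nonneg (mul_le_mul_of_nonneg_right ?_ (exp_pos _).le) d1
      linarith [(div_le_one d4).mpr d7]
    · obtain ⟨k₀, e1, e2, -⟩ := exists_gen hω ∅ d2
      have e3 : dk ω (spanS ∅) k = ω * ‖iv k₀‖ := by simpa [spanS] using e2
      have e4 : k₀ ≠ 0 := fun h => by simp [h, iv_zero, d4.ne'] at e3
      have e5 := ext_eq_of_mem e1 (mt tup_mem_bot.mp e4)
      have e6 : k₀ ∈ Kn n ω := (mem_Kn hω _).mpr ⟨e4, by linarith⟩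
      refine le_add_of_nonneg_of_le (by positivity) (le_trans ?_ (Finset.single_le_sum d0 e6))
      rw [if_pos (e5 ▸ (le_ext _ k).2), hc]
      simp only [dk_congr e5]
      refine mul_le_mul_of_nonneg_right (le_mul_of_one_le_left (by positivity) ?_) (exp_pos _).le
      rw [← Real.exp_add, ← mul_pow, ← e3]
      refine one_le_exp ?_
      have : dk ω (spanS ∅) k ^ 2 ≤ 1 := pow_le_one₀ d4.le (by linarith)
      nlinarith [pi_pos, pi_le_four]
  · have d1 : ω ^ (n / 2) * ∑' k : Zv (n / 2), rexp (-π * (ω ^ 2 / 2) * ‖iv k + 0‖ ^ 2) ≤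
        rexp n := by
      refine (mul_le_mul_of_nonneg_left (tsum_gauss_le (by positivity) 0) (by positivity)).trans ?_
      have e1 : 1 / √(ω ^ 2 / 2) ≤ 1 / (ω / 2) :=
        one_div_le_one_div_of_le (by positivity) (le_sqrt_of_sq_le (by nlinarith))
      have e2 : ω * (1 + 1 / √(ω ^ 2 / 2)) ≤ rexp 2 := by
        have := mul_le_mul_of_nonneg_left e1 hω.le
        rw [show ω * (1 / (ω / 2)) = 2 by field_simp] at this
        linarith [Real.add_one_le_exp 2]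
      rw [← mul_pow]
      refine (pow_le_pow_left₀ (by positivity) e2 _).trans ?_
      rw [← Real.exp_nat_mul, exp_le_exp]
      exact_mod_cast Nat.div_mul_le_self n 2
    have d2 := b2 _ _ 0 (by norm_num) hA 1 (by norm_num) 2 (by norm_num)
    rw [Finset.filter_true_of_mem fun k hk => mt tup_mem_bot.mp ((mem_Kn hω k).mp hk).1,
      one_rpow, one_mul, mul_one (_ ^ 9)] at d2
    have d3 : ∑ k ∈ Kn n ω, c k * ∑' κ : Zv (n / 2), (if iv κ ∈ ext (spanS ∅) k then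
        rexp (-π * (1 / 2) * (ω ^ 2 * ‖iv κ‖ ^ 2)) else 0) ≤ 2 * rexp 4 * ∑ k ∈ Kn n ω,
        rexp (-π * 1 * (ω ^ 2 * ‖iv k‖ ^ 2)) * (1 + 1 / dk ω (spanS ∅) k) ^ 2 := by
      rw [Finset.mul_sum]
      refine Finset.sum_le_sum fun k hk => ?_
      have e0 := hc0 k hk
      have e1 := th_ext_le hω (β := 1 / 2) (by norm_num) ∅
        (mt tup_mem_bot.mp ((mem_Kn hω k).mp hk).1)
      have e2 : th ω (spanS (∅ : Finset (Zv (n / 2)))) (1 / 2 / 4) = 1 := by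
        simp [th_eq hω (show (0 : ℝ) < 1 / 2 / 4 by norm_num), th0, tup_mem_bot, -one_div]
      have e3 : 1 / (dk ω (spanS ∅) k * √(1 / 2)) ≤ 1 / (dk ω (spanS ∅) k * (1 / 2)) := by
        gcongr
        exact le_sqrt_of_sq_le (by norm_num)
      rw [show 1 / (dk ω (spanS ∅) k * (1 / 2)) = 2 * (1 / dk ω (spanS ∅) k) by field_simp] at e3
      rw [e2, one_mul, th] at e1
      calc _ ≤ c k * (2 * (1 + 1 / dk ω (spanS ∅) k)) :=
            mul_le_mul_of_nonneg_left (by linarith) (by positivity)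
        _ = _ := by rw [hc]; ring
    have d4 := a3 9 3 le_rfl (by norm_num)
    have d5 : 1 ≤ rexp n := one_le_exp (by linarith)
    have d6 : 1 ≤ rexp 4 * (n : ℝ) ^ 9 :=
      one_le_mul_of_one_le_of_one_le (one_le_exp (by norm_num)) (one_le_pow₀ (by linarith))
    calc _ ≤ K * (2 * ∑' k : Zv (n / 2), rexp (-π * (ω ^ 2 / 2) * ‖iv k + 0‖ ^ 2) +
          2 * rexp 4 * ∑ k ∈ Kn n ω, rexp (-π * 1 * (ω ^ 2 * ‖iv k‖ ^ 2)) *
            (1 + 1 / dk ω (spanS ∅) k) ^ 2) := by gcongr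
      _ = En n ^ 3 * rexp (-(π * n ^ 2 / 2)) * (2 * (ω ^ (n / 2) * ∑' k : Zv (n / 2),
          rexp (-π * (ω ^ 2 / 2) * ‖iv k + 0‖ ^ 2)) + 2 * rexp 4 * (ω ^ (n / 2) * ∑ k ∈ Kn n ω,
          rexp (-π * 1 * (ω ^ 2 * ‖iv k‖ ^ 2)) * (1 + 1 / dk ω (spanS ∅) k) ^ 2)) := by
          rw [hK]; ring
      _ ≤ En n ^ 3 * rexp (-(π * n ^ 2 / 2)) * (2 * rexp n + 2 * rexp 4 * (n : ℝ) ^ 9) := by gcongr
      _ ≤ En n ^ 3 * rexp (-(π * n ^ 2 / 2)) * (6 * rexp 4 * (n : ℝ) ^ 9 * rexp n) := by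
          gcongr
          nlinarith
      _ = 6 * rexp 4 * (n : ℝ) ^ 9 * En n ^ 3 * (rexp (-(π * n ^ 2 / 2)) * rexp n) := by ring
      _ ≤ rexp (1 * n) * (rexp (-(π * n ^ 2 / 2)) * rexp n) := by gcongr
      _ ≤ _ := by
          rw [← Real.exp_add, ← Real.exp_add, exp_le_exp]
          nlinarith [pi_gt_three]

end Pool.Agent.Eps
end
end

-- part Pool.Agent.Lib.MP_3bda03_nt.SigA
section

/-!
Gaussian sums and conditional means of products of two or three fibre sums.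
-/

set_option autoImplicit false

noncomputable section

open scoped BigOperators Classical Topology
open MeasureTheory Real Complex Filter

namespace Pool.Agent.Eps

variable {m r : ℕ}

/-- scaled Gaussian weight of a vector -/
def sgG (ω β : ℝ) (v : Ev m) : ℝ := rexp (-π * β * (ω ^ 2 * ‖v‖ ^ 2))

theorem sgG_pos (ω β : ℝ) (v : Ev m) : 0 < sgG ω β v := Real.exp_pos _

theorem sgG_zero (ω β : ℝ) : sgG ω β (0 : Ev m) = 1 := by simp [sgG]

theorem sg_tsum_prod_le {α β : Type*} {f : α × β → ℝ} {g : α → ℝ} (hf : ∀ p, 0 ≤ f p)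
    (h₁ : ∀ a, Summable fun b => f (a, b)) (h₂ : ∀ a, ∑' b, f (a, b) ≤ g a) (hg : Summable g) :
    Summable f ∧ ∑' p, f p ≤ ∑' a, g a := by
  have h₃ : Summable fun a => ∑' b, f (a, b) :=
    Summable.of_nonneg_of_le (fun a => tsum_nonneg fun b => hf _) h₂ hg
  have hs : Summable f := (summable_prod_of_nonneg hf).2 ⟨h₁, h₃⟩
  refine ⟨hs, ?_⟩
  rw [hs.tsum_prod' h₁]
  exact h₃.tsum_le_tsum h₂ hg

theorem sg_quad {A B a b s : ℝ} (hs : 0 < s) (hsd : s = A + B * (a ^ 2 + b ^ 2))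
    (y u v : Ev m) :
    s * ‖y + -((B / s) • (a • u + b • v))‖ ^ 2 + A * B / s * ‖u‖ ^ 2 + A * B / s * ‖v‖ ^ 2 ≤
      A * ‖y‖ ^ 2 + B * ‖u - a • y‖ ^ 2 + B * ‖v - b • y‖ ^ 2 := by
  simp only [EuclideanSpace.real_norm_sq_eq, Finset.mul_sum, ← Finset.sum_add_distrib]
  refine Finset.sum_le_sum fun i _ => ?_
  simp only [PiLp.add_apply, PiLp.neg_apply, PiLp.smul_apply, PiLp.sub_apply, smul_eq_mul]
  have hA : A = s - B * (a ^ 2 + b ^ 2) := by linarith
  have key : A * y i ^ 2 + B * (u i - a * y i) ^ 2 + B * (v i - b * y i) ^ 2 -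
      (s * (y i + -(B / s * (a * u i + b * v i))) ^ 2 + A * B / s * u i ^ 2 +
        A * B / s * v i ^ 2) = B ^ 2 / s * (b * u i - a * v i) ^ 2 := by
    rw [hA]
    field_simp
    ring
  have : 0 ≤ B ^ 2 / s * (b * u i - a * v i) ^ 2 := by positivity
  linarith

theorem sg_om_pow {ω s : ℝ} (hω : 0 < ω) (hs : 0 < s) :
    ω ^ m * (1 + 1 / √(s * ω ^ 2)) ^ m = (ω + 1 / √s) ^ m := by
  rw [← mul_pow, Real.sqrt_mul hs.le, Real.sqrt_sq hω.le]
  congr 1
  have : 0 < √s := Real.sqrt_pos.2 hs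
  field_simp

/-- completing the square with three Gaussian factors -/
theorem sg_gauss_three {ω A B a b s : ℝ} (hω : 0 < ω) (hs : 0 < s)
    (hsd : s = A + B * (a ^ 2 + b ^ 2)) (u v : Ev m) :
    (Summable fun η : Zv m =>
      sgG ω B (u - a • iv η) * sgG ω B (v - b • iv η) * sgG ω A (iv η)) ∧
    ∑' η : Zv m, sgG ω B (u - a • iv η) * sgG ω B (v - b • iv η) * sgG ω A (iv η) ≤
      (1 + 1 / √(s * ω ^ 2)) ^ m * (sgG ω (A * B / s) u * sgG ω (A * B / s) v) := by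
  have hs' : 0 < s * ω ^ 2 := by positivity
  set w : Ev m := -((B / s) • (a • u + b • v)) with hw
  have hpt : ∀ η : Zv m, sgG ω B (u - a • iv η) * sgG ω B (v - b • iv η) * sgG ω A (iv η) ≤
      rexp (-π * (s * ω ^ 2) * ‖iv η + w‖ ^ 2) * (sgG ω (A * B / s) u * sgG ω (A * B / s) v) := by
    intro η
    unfold sgG
    rw [← Real.exp_add, ← Real.exp_add, ← Real.exp_add, ← Real.exp_add]
    apply Real.exp_le_exp.2
    have h := sg_quad hs hsd (iv η) u v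
    rw [← hw] at h
    have h2 : 0 ≤ π * ω ^ 2 := by positivity
    nlinarith [mul_le_mul_of_nonneg_left h h2]
  have hsum := (summable_gauss hs' w).mul_right (sgG ω (A * B / s) u * sgG ω (A * B / s) v)
  have hnn : ∀ η : Zv m,
      0 ≤ sgG ω B (u - a • iv η) * sgG ω B (v - b • iv η) * sgG ω A (iv η) := fun η =>
    (mul_pos (mul_pos (sgG_pos _ _ _) (sgG_pos _ _ _)) (sgG_pos _ _ _)).le
  have hsm := Summable.of_nonneg_of_le hnn hpt hsum
  refine ⟨hsm, (hsm.tsum_le_tsum hpt hsum).trans ?_⟩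
  rw [tsum_mul_right]
  exact mul_le_mul_of_nonneg_right (tsum_gauss_le hs' w)
    (mul_pos (sgG_pos _ _ _) (sgG_pos _ _ _)).le

theorem sg_eleven {β : ℝ} (hβ : 1 / 100 ≤ β) (hr : r ≤ 1) : (1 + 1 / √β) ^ r ≤ 11 := by
  have h1 : (1 / 10 : ℝ) ≤ √β := by
    apply Real.le_sqrt_of_sq_le
    linarith
  have h2 : 1 / √β ≤ 10 := by
    rw [div_le_iff₀ (by linarith)]
    linarith
  have h3 : 0 ≤ 1 / √β := by positivity
  interval_cases r
  · simp
  · simp only [pow_one]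
    linarith

theorem sg_Cp_le {ω β : ℝ} (hω : 0 < ω) (hβ : 1 / 100 ≤ β) (hr : r ≤ 1) (k η : Zv m) :
    ‖Cp r ω (β : ℂ) k η‖ ≤
      11 * (ω ^ m * β ^ (-(m : ℝ) / 2)) * sgG ω β (iv k) * sgG ω β⁻¹ (iv η) := by
  have hβ0 : 0 < β := by linarith
  have h := norm_Cp_le (r := r) hω (z := (β : ℂ)) (by simpa using hβ0) k η
  have hn : ‖(β : ℂ)‖ = β := by rw [Complex.norm_real, Real.norm_of_nonneg hβ0.le]
  rw [hn, Complex.ofReal_re] at h
  have e1 : β / β ^ 2 = β⁻¹ := by field_simp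
  rw [e1] at h
  refine h.trans ?_
  unfold sgG
  rw [mul_assoc (11 * _)]
  refine mul_le_mul_of_nonneg_right ?_ (by positivity)
  exact mul_le_mul_of_nonneg_right (sg_eleven hβ hr) (by positivity)

theorem sg_summable_Cp {ω β : ℝ} (hω : 0 < ω) (hβ : 0 < β) (k : Zv m) :
    Summable fun η : Zv m => ‖Cp r ω (β : ℂ) k η‖ :=
  (summable_Cp (r := r) hω (z := (β : ℂ)) (by simpa using hβ)).prod_factor k

theorem sg_FS_eq {ω β : ℝ} (hω : 0 < ω) (hβ : 0 < β) (k : Zv m) (x : Xs m) :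
    ((FS r ω (ft β) k x : ℝ) : ℂ) = ∑' η : Zv m, Cp r ω (β : ℂ) k η * ch η k x := by
  rw [← Fz_ofReal hω hβ, Fz_eq_tsum hω (by simpa using hβ)]

theorem sg_real_le_norm {Ω : Type*} [MeasurableSpace Ω] (μ : Measure Ω) (f : Ω → ℝ) :
    ∫ x, f x ∂μ ≤ ‖∫ x, (f x : ℂ) ∂μ‖ := by
  rw [integral_complex_ofReal, Complex.norm_real]
  exact le_abs_self _

/-- the indicator-weighted Gaussian summed by `th` -/
def sgT (ω β : ℝ) (W : Submodule ℝ (Ev m)) (κ : Zv m) : ℝ :=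
  if iv κ ∈ W then sgG ω β (iv κ) else 0

theorem sgT_nonneg (ω β : ℝ) (W : Submodule ℝ (Ev m)) (κ : Zv m) : 0 ≤ sgT ω β W κ := by
  unfold sgT
  split_ifs
  · exact (sgG_pos _ _ _).le
  · exact le_rfl

theorem sgT_summable {ω β : ℝ} (hω : 0 < ω) (hβ : 0 < β) (W : Submodule ℝ (Ev m)) :
    Summable (sgT ω β W) := summable_th hω hβ (fun κ => iv κ ∈ W)

theorem sgT_tsum (ω β : ℝ) (W : Submodule ℝ (Ev m)) : ∑' κ, sgT ω β W κ = th ω W β := rfl

theorem sg_th_nonneg (ω β : ℝ) (W : Submodule ℝ (Ev m)) : 0 ≤ th ω W β :=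
  tsum_nonneg (sgT_nonneg ω β W)

/-- conditional mean of one fibre sum -/
theorem sg_one {ω E : ℝ} (hω : 0 < ω) (hE : 1 / 100 ≤ E) (hr : r ≤ 1)
    {W : Submodule ℝ (Ev m)} {H : Xs m → ℝ} (h : InvW W H) {k : Zv m} (hk : iv k ∉ W) :
    ∫ x, H x * FS r ω (ft E) k x ∂PP m ≤ (∫ x, H x ∂PP m) *
      (11 * (ω ^ m * E ^ (-(m : ℝ) / 2)) * sgG ω E (iv k) * th ω (ext W k) E⁻¹) := by
  have hE0 : 0 < E := by linarith
  refine (sg_real_le_norm _ _).trans ?_
  simp only [Complex.ofReal_mul, sg_FS_eq hω hE0]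
  refine (avg_one_le h hk (sg_summable_Cp hω hE0 k)).trans ?_
  refine mul_le_mul_of_nonneg_left ?_ (integral_nonneg h.nonneg)
  rw [← sgT_tsum, ← tsum_mul_left]
  have hpt : ∀ η : Zv m, (if iv η ∈ ext W k then ‖Cp r ω (E : ℂ) k η‖ else 0) ≤
      11 * (ω ^ m * E ^ (-(m : ℝ) / 2)) * sgG ω E (iv k) * sgT ω E⁻¹ (ext W k) η := by
    intro η
    unfold sgT
    split_ifs
    · exact sg_Cp_le hω hE hr k η
    · simp
  have hs := (sgT_summable hω (inv_pos.2 hE0) (ext W k)).mul_left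
    (11 * (ω ^ m * E ^ (-(m : ℝ) / 2)) * sgG ω E (iv k))
  refine Summable.tsum_le_tsum hpt (Summable.of_nonneg_of_le (fun η => ?_) hpt hs) hs
  split_ifs
  · exact norm_nonneg _
  · exact le_rfl

/-- shear of pairs -/
def sgE2 (a : ℤ) : Zv m × Zv m ≃ Zv m × Zv m where
  toFun p := (p.1 - a • p.2, p.2)
  invFun p := (p.1 + a • p.2, p.2)
  left_inv p := by simp
  right_inv p := by simp

/-- shear of triples -/
def sgE3 (a b : ℤ) : (Zv m × Zv m) × Zv m ≃ Zv m × Zv m × Zv m where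
  toFun p := (p.1.1 - a • p.2, p.1.2 - b • p.2, p.2)
  invFun p := ((p.1 + a • p.2.2, p.2.1 + b • p.2.2), p.2.2)
  left_inv p := by simp
  right_inv p := by simp

/-- conditional mean of two fibre sums over parallel vectors -/
theorem sg_two {ω E β s : ℝ} (hω : 0 < ω) (hE : 1 / 100 ≤ E) (hβ : 1 / 100 ≤ β) (hr : r ≤ 1)
    {W : Submodule ℝ (Ev m)} {H : Xs m → ℝ} (h : InvW W H) {k : Zv m} (hk : iv k ∉ W) {a : ℤ}
    (hsd : s = β⁻¹ + E⁻¹ * (a : ℝ) ^ 2) :
    ∫ x, H x * (FS r ω (ft E) k x * FS r ω (ft β) (a • k) x) ∂PP m ≤ (∫ x, H x ∂PP m) *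
      (121 * (ω ^ m * E ^ (-(m : ℝ) / 2)) * (β ^ (-(m : ℝ) / 2) * (ω + 1 / √s) ^ m) *
        th ω (ext W k) (β⁻¹ * E⁻¹ / s) * (sgG ω E (iv k) * sgG ω β (iv (a • k)))) := by
  have hE0 : 0 < E := by linarith
  have hβ0 : 0 < β := by linarith
  have hs : 0 < s := by rw [hsd]; positivity
  have hc : 0 < β⁻¹ * E⁻¹ / s := by positivity
  refine (sg_real_le_norm _ _).trans ?_
  simp only [Complex.ofReal_mul, sg_FS_eq hω hE0, sg_FS_eq hω hβ0]
  refine (avg_two_le h k (a • k) (sg_summable_Cp hω hE0 k) (sg_summable_Cp hω hβ0 _)).trans ?_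
  refine mul_le_mul_of_nonneg_left ?_ (integral_nonneg h.nonneg)
  set K : ℝ := 121 * (ω ^ m * E ^ (-(m : ℝ) / 2)) * (ω ^ m * β ^ (-(m : ℝ) / 2)) *
    (sgG ω E (iv k) * sgG ω β (iv (a • k))) with hK
  have hK0 : 0 ≤ K := by
    have := sgG_pos ω E (iv k)
    have := sgG_pos ω β (iv (a • k))
    positivity
  set g : Zv m × Zv m → ℝ := fun p => if iv p.1 ∈ ext W k then
    K * (sgG ω E⁻¹ (iv p.1 - (a : ℝ) • iv p.2) * sgG ω E⁻¹ ((0 : Ev m) - (0 : ℝ) • iv p.2) *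
      sgG ω β⁻¹ (iv p.2)) else 0 with hg
  have hg0 : ∀ p, 0 ≤ g p := by
    intro p
    simp only [hg]
    split_ifs
    · exact mul_nonneg hK0
        (mul_pos (mul_pos (sgG_pos _ _ _) (sgG_pos _ _ _)) (sgG_pos _ _ _)).le
    · exact le_rfl
  have hsd' : s = β⁻¹ + E⁻¹ * ((a : ℝ) ^ 2 + (0 : ℝ) ^ 2) := by rw [hsd]; ring
  have hG := fun l : Zv m => sg_gauss_three (m := m) hω hs hsd' (iv l) 0
  obtain ⟨hgs, hgb⟩ := sg_tsum_prod_le (f := g)
    (g := fun l => K * (1 + 1 / √(s * ω ^ 2)) ^ m * sgT ω (β⁻¹ * E⁻¹ / s) (ext W k) l) hg0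
    (fun l => by
      simp only [hg]
      split_ifs
      · exact (hG l).1.mul_left K
      · exact summable_zero)
    (fun l => by
      simp only [hg, sgT]
      split_ifs
      · rw [tsum_mul_left, mul_assoc K]
        refine mul_le_mul_of_nonneg_left ((hG l).2.trans (le_of_eq ?_)) hK0
        rw [sgG_zero, mul_one]
      · simp)
    ((sgT_summable hω hc _).mul_left _)
  rw [← (sgE2 a).tsum_eq]
  have hpt : ∀ p : Zv m × Zv m, (if Surv W (sgE2 a p).1 k (sgE2 a p).2 (a • k) 0 0 then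
      ‖Cp r ω (E : ℂ) k (sgE2 a p).1‖ * ‖Cp r ω (β : ℂ) (a • k) (sgE2 a p).2‖ else 0) ≤ g p := by
    intro p
    split_ifs with hS
    · have hm := surv_par (p := a) (q := 1) hk one_ne_zero (by simp [iv_zero]) hS
      have hm' : iv p.1 ∈ ext W k := by
        simpa [sgE2] using hm
      simp only [hg, if_pos hm']
      have b1 := sg_Cp_le hω hE hr k (sgE2 a p).1
      have b2 := sg_Cp_le hω hβ hr (a • k) (sgE2 a p).2
      refine (mul_le_mul b1 b2 (norm_nonneg _) ((norm_nonneg _).trans b1)).trans (le_of_eq ?_)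
      have e1 : iv (sgE2 a p).1 = iv p.1 - (a : ℝ) • iv p.2 := by
        rw [← iv_zsmul, ← iv_sub]
        rfl
      have e2 : (sgE2 a p).2 = p.2 := rfl
      rw [e1, e2, hK]
      simp only [zero_smul, sub_zero, sgG_zero]
      ring
    · exact hg0 p
  refine (Summable.tsum_le_tsum hpt (Summable.of_nonneg_of_le (fun p => ?_) hpt hgs) hgs).trans
    (hgb.trans (le_of_eq ?_))
  · split_ifs
    · positivity
    · exact le_rfl
  · rw [tsum_mul_left, sgT_tsum, hK, ← sg_om_pow hω hs]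
    ring

/-- conditional mean of three fibre sums -/
theorem sg_three {ω E β s : ℝ} (hω : 0 < ω) (hE : 1 / 100 ≤ E) (hβ : 1 / 100 ≤ β) (hr : r ≤ 1)
    {W : Submodule ℝ (Ev m)} {H : Xs m → ℝ} (h : InvW W H) {k₁ k₂ κ : Zv m} (hk₁ : iv k₁ ∉ W)
    (hk₂ : iv k₂ ∉ ext W k₁) {a b : ℤ} (hκ : iv (κ - a • k₁ - b • k₂) ∈ W)
    (hsd : s = β⁻¹ + E⁻¹ * ((a : ℝ) ^ 2 + (b : ℝ) ^ 2)) :
    ∫ x, H x * (FS r ω (ft E) k₁ x * FS r ω (ft E) k₂ x * FS r ω (ft β) κ x) ∂PP m ≤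
      (∫ x, H x ∂PP m) *
      (1331 * (ω ^ m * E ^ (-(m : ℝ) / 2)) ^ 2 * (β ^ (-(m : ℝ) / 2) * (ω + 1 / √s) ^ m) *
        th ω (ext (ext W k₁) k₂) (β⁻¹ * E⁻¹ / s) ^ 2 *
        (sgG ω E (iv k₁) * sgG ω E (iv k₂) * sgG ω β (iv κ))) := by
  have hE0 : 0 < E := by linarith
  have hβ0 : 0 < β := by linarith
  have hs : 0 < s := by rw [hsd]; positivity
  have hc : 0 < β⁻¹ * E⁻¹ / s := by positivity
  refine (sg_real_le_norm _ _).trans ?_
  simp only [Complex.ofReal_mul, sg_FS_eq hω hE0, sg_FS_eq hω hβ0]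
  refine (avg_three_le h k₁ k₂ κ (sg_summable_Cp hω hE0 k₁) (sg_summable_Cp hω hE0 k₂)
    (sg_summable_Cp hω hβ0 κ)).trans ?_
  refine mul_le_mul_of_nonneg_left ?_ (integral_nonneg h.nonneg)
  set W' := ext (ext W k₁) k₂ with hW'
  set K : ℝ := 1331 * (ω ^ m * E ^ (-(m : ℝ) / 2)) ^ 2 * (ω ^ m * β ^ (-(m : ℝ) / 2)) *
    (sgG ω E (iv k₁) * sgG ω E (iv k₂) * sgG ω β (iv κ)) with hK
  have hK0 : 0 ≤ K := by
    have := sgG_pos ω E (iv k₁)
    have := sgG_pos ω E (iv k₂)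
    have := sgG_pos ω β (iv κ)
    positivity
  set g : (Zv m × Zv m) × Zv m → ℝ := fun p => if iv p.1.1 ∈ W' ∧ iv p.1.2 ∈ W' then
    K * (sgG ω E⁻¹ (iv p.1.1 - (a : ℝ) • iv p.2) * sgG ω E⁻¹ (iv p.1.2 - (b : ℝ) • iv p.2) *
      sgG ω β⁻¹ (iv p.2)) else 0 with hg
  have hg0 : ∀ p, 0 ≤ g p := by
    intro p
    simp only [hg]
    split_ifs
    · exact mul_nonneg hK0
        (mul_pos (mul_pos (sgG_pos _ _ _) (sgG_pos _ _ _)) (sgG_pos _ _ _)).le
    · exact le_rfl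
  have hG := fun l : Zv m × Zv m => sg_gauss_three (m := m) hω hs hsd (iv l.1) (iv l.2)
  have hT := sgT_summable hω hc W'
  have hT0 := sgT_nonneg ω (β⁻¹ * E⁻¹ / s) W'
  have hTT := hT.mul_of_nonneg hT hT0 hT0
  obtain ⟨hgs, hgb⟩ := sg_tsum_prod_le (f := g)
    (g := fun l => K * (1 + 1 / √(s * ω ^ 2)) ^ m *
      (sgT ω (β⁻¹ * E⁻¹ / s) W' l.1 * sgT ω (β⁻¹ * E⁻¹ / s) W' l.2)) hg0
    (fun l => by
      simp only [hg]
      split_ifs
      · exact (hG l).1.mul_left K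
      · exact summable_zero)
    (fun l => by
      simp only [hg]
      split_ifs with hl
      · rw [tsum_mul_left, mul_assoc K]
        refine mul_le_mul_of_nonneg_left ((hG l).2.trans (le_of_eq ?_)) hK0
        simp only [sgT, if_pos hl.1, if_pos hl.2]
      · rw [tsum_zero]
        have := hT0 l.1
        have := hT0 l.2
        positivity)
    (hTT.mul_left _)
  rw [← (sgE3 a b).tsum_eq]
  have hpt : ∀ p : (Zv m × Zv m) × Zv m,
      (if Surv W (sgE3 a b p).1 k₁ (sgE3 a b p).2.1 k₂ (sgE3 a b p).2.2 κ then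
        ‖Cp r ω (E : ℂ) k₁ (sgE3 a b p).1‖ * ‖Cp r ω (E : ℂ) k₂ (sgE3 a b p).2.1‖ *
          ‖Cp r ω (β : ℂ) κ (sgE3 a b p).2.2‖ else 0) ≤ g p := by
    intro p
    split_ifs with hS
    · obtain ⟨a', b', c', h1, h2⟩ := surv_indep hk₁ hk₂ (surv_three hκ hS)
      have f1 : (sgE3 a b p).1 + a • (sgE3 a b p).2.2 = p.1.1 := by simp [sgE3]
      have f2 : (sgE3 a b p).2.1 + b • (sgE3 a b p).2.2 = p.1.2 := by simp [sgE3]
      rw [f1] at h1
      rw [f2] at h2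
      have hW : W ≤ W' := (le_ext W k₁).1.trans (le_ext _ k₂).1
      have m1 : iv k₁ ∈ W' := (le_ext _ k₂).1 (le_ext W k₁).2
      have m2 : iv k₂ ∈ W' := (le_ext _ k₂).2
      have hm : iv p.1.1 ∈ W' ∧ iv p.1.2 ∈ W' := by
        constructor
        · have := W'.add_mem (W'.add_mem (hW h1) (W'.smul_mem b' m2)) (W'.smul_mem a' m1)
          simpa using this
        · have := W'.add_mem (W'.add_mem (hW h2) (W'.smul_mem c' m2)) (W'.smul_mem b' m1)
          simpa using this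
      simp only [hg, if_pos hm]
      have b1 := sg_Cp_le hω hE hr k₁ (sgE3 a b p).1
      have b2 := sg_Cp_le hω hE hr k₂ (sgE3 a b p).2.1
      have b3 := sg_Cp_le hω hβ hr κ (sgE3 a b p).2.2
      have b12 := mul_le_mul b1 b2 (norm_nonneg _) ((norm_nonneg _).trans b1)
      refine (mul_le_mul b12 b3 (norm_nonneg _) ((by positivity : (0 : ℝ) ≤ _).trans b12)).trans
        (le_of_eq ?_)
      have e1 : iv (sgE3 a b p).1 = iv p.1.1 - (a : ℝ) • iv p.2 := by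
        rw [← iv_zsmul, ← iv_sub]
        rfl
      have e2 : iv (sgE3 a b p).2.1 = iv p.1.2 - (b : ℝ) • iv p.2 := by
        rw [← iv_zsmul, ← iv_sub]
        rfl
      have e3 : (sgE3 a b p).2.2 = p.2 := rfl
      rw [e1, e2, e3, hK]
      ring
    · exact hg0 p
  refine (Summable.tsum_le_tsum hpt (Summable.of_nonneg_of_le (fun p => ?_) hpt hgs) hgs).trans
    (hgb.trans (le_of_eq ?_))
  · split_ifs
    · positivity
    · exact le_rfl
  · rw [tsum_mul_left, ← hT.tsum_mul_tsum hT hTT, sgT_tsum, hK, ← sg_om_pow hω hs]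
    ring

theorem sg_sum_one {ω E β a : ℝ} (hω : 0 < ω) (hE : 0 < E) (hβ : 0 ≤ β) (w : Ev m)
    (K : Finset (Zv m)) :
    ω ^ m * ∑ i ∈ K, sgG ω E (iv i) * sgG ω β (a • iv i + w) ≤
      (ω + 1 / √(E + β * a ^ 2)) ^ m * sgG ω (E * β / (E + β * a ^ 2)) w := by
  have hs : 0 < E * (1 : ℝ) ^ 2 + β * a ^ 2 := by positivity
  obtain ⟨h1, h2⟩ := gauss_two (m := m) hω hE.le hβ hs 0 w
  have e1 : ∀ i : Zv m, sgG ω E (iv i) * sgG ω β (a • iv i + w) =
      rexp (-π * ω ^ 2 * (E * ‖(1 : ℝ) • iv i + 0‖ ^ 2 + β * ‖a • iv i + w‖ ^ 2)) := by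
    intro i
    unfold sgG
    rw [← Real.exp_add, one_smul, add_zero]
    congr 1
    ring
  simp only [e1]
  refine (mul_le_mul_of_nonneg_left (h1.sum_le_tsum K fun i _ => (Real.exp_pos _).le)
    (by positivity)).trans (h2.trans (le_of_eq ?_))
  unfold sgG
  rw [one_pow, mul_one, smul_zero, one_smul, zero_sub, norm_neg]
  congr 2
  ring

theorem sg_sum_two {ω E β a b R : ℝ} (hω : 0 < ω) (hE : 0 < E) (hβ : 0 ≤ β)
    (hsm : ∀ s : ℝ, 0 < s → s ≤ R → (ω + 1 / √s) ^ m ≤ 2 * s ^ (-(m : ℝ) / 2))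
    (ha : E + β * a ^ 2 ≤ R) (hb : E + β * b ^ 2 ≤ R) (w : Ev m) (K : Finset (Zv m)) :
    ∑ j ∈ K, ∑ i ∈ K, (ω ^ m) ^ 2 *
        (sgG ω E (iv i) * sgG ω E (iv j) * sgG ω β (a • iv i + (b • iv j + w))) ≤
      4 * (E ^ 2 * (1 + β * (a ^ 2 + b ^ 2) / E)) ^ (-(m : ℝ) / 2) *
        sgG ω (β / (1 + β * (a ^ 2 + b ^ 2) / E)) w := by
  set s₁ := E + β * a ^ 2 with hs₁
  have h₁ : 0 < s₁ := by positivity
  set β' := E * β / s₁ with hβ'
  have hβ'0 : 0 ≤ β' := by positivity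
  have hβ'1 : β' ≤ β := by
    rw [hβ', div_le_iff₀ h₁, hs₁]
    nlinarith [mul_nonneg hβ (mul_nonneg hβ (sq_nonneg a))]
  set s₂ := E + β' * b ^ 2 with hs₂
  have h₂ : 0 < s₂ := by positivity
  have h₂R : s₂ ≤ R := by nlinarith [sq_nonneg b]
  have hin : ∀ j : Zv m, ∑ i ∈ K, (ω ^ m) ^ 2 *
      (sgG ω E (iv i) * sgG ω E (iv j) * sgG ω β (a • iv i + (b • iv j + w))) ≤
      2 * s₁ ^ (-(m : ℝ) / 2) * (ω ^ m * (sgG ω E (iv j) * sgG ω β' (b • iv j + w))) := by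
    intro j
    have h := sg_sum_one (a := a) hω hE hβ (b • iv j + w) K
    rw [← hs₁, ← hβ'] at h
    have h' := h.trans (mul_le_mul_of_nonneg_right (hsm s₁ h₁ ha) (sgG_pos _ _ _).le)
    have hj : 0 ≤ ω ^ m * sgG ω E (iv j) := (mul_pos (pow_pos hω _) (sgG_pos _ _ _)).le
    have h'' := mul_le_mul_of_nonneg_left h' hj
    rw [Finset.mul_sum, Finset.mul_sum] at h''
    refine le_trans (le_of_eq (Finset.sum_congr rfl fun i _ => by ring)) (h''.trans (le_of_eq ?_))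
    ring
  refine (Finset.sum_le_sum fun j _ => hin j).trans ?_
  rw [← Finset.mul_sum, ← Finset.mul_sum]
  have h := sg_sum_one (a := b) hω hE hβ'0 w K
  rw [← hs₂] at h
  have h' := h.trans (mul_le_mul_of_nonneg_right (hsm s₂ h₂ h₂R) (sgG_pos _ _ _).le)
  refine (mul_le_mul_of_nonneg_left h' (by positivity)).trans (le_of_eq ?_)
  have e1 : s₁ * s₂ = E ^ 2 * (1 + β * (a ^ 2 + b ^ 2) / E) := by
    rw [hs₂, hβ', hs₁]
    field_simp
    ring
  have e2 : E * β' / s₂ = β / (1 + β * (a ^ 2 + b ^ 2) / E) := by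
    have e3 : 1 + β * (a ^ 2 + b ^ 2) / E = s₁ * s₂ / E ^ 2 := by
      rw [e1]
      field_simp
    rw [e3, hβ']
    field_simp
  rw [e2, ← e1, Real.mul_rpow h₁.le h₂.le]
  ring

/-- the sum over two free vectors and over the combination -/
theorem sg_sum_three {ω E β R : ℝ} {a b : ℤ} (hω : 0 < ω) (hE : 0 < E) (hβ : 0 < β)
    (hsm : ∀ s : ℝ, 0 < s → s ≤ R → (ω + 1 / √s) ^ m ≤ 2 * s ^ (-(m : ℝ) / 2))
    (ha : E + β * (a : ℝ) ^ 2 ≤ R) (hb : E + β * (b : ℝ) ^ 2 ≤ R) (W : Submodule ℝ (Ev m))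
    (K F : Finset (Zv m)) :
    ∑ j ∈ K, ∑ i ∈ K, ∑ κ ∈ F, (if iv (κ - a • i - b • j) ∈ W then (ω ^ m) ^ 2 *
        (sgG ω E (iv i) * sgG ω E (iv j) * sgG ω β (iv κ)) else 0) ≤
      4 * (E ^ 2 * (1 + β * ((a : ℝ) ^ 2 + (b : ℝ) ^ 2) / E)) ^ (-(m : ℝ) / 2) *
        th ω W (β / (1 + β * ((a : ℝ) ^ 2 + (b : ℝ) ^ 2) / E)) := by
  set g : Zv m → Zv m → Zv m → ℝ := fun j i κ => if iv κ ∈ W then (ω ^ m) ^ 2 *
    (sgG ω E (iv i) * sgG ω E (iv j) *
      sgG ω β ((a : ℝ) • iv i + ((b : ℝ) • iv j + iv κ))) else 0 with hg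
  have hgs : ∀ j i, Summable (g j i) := by
    intro j i
    have h := (shift_le hω hβ W ((a : ℝ) • iv i + (b : ℝ) • iv j)).1.mul_left
      ((ω ^ m) ^ 2 * (sgG ω E (iv i) * sgG ω E (iv j)))
    refine h.congr fun κ => ?_
    simp only [hg]
    split_ifs
    · rw [show (a : ℝ) • iv i + ((b : ℝ) • iv j + iv κ) =
        iv κ + ((a : ℝ) • iv i + (b : ℝ) • iv j) by abel]
      unfold sgG
      ring
    · simp
  have hg0 : ∀ j i κ, 0 ≤ g j i κ := by
    intro j i κ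
    simp only [hg]
    split_ifs
    · exact (mul_pos (by positivity)
        (mul_pos (mul_pos (sgG_pos _ _ _) (sgG_pos _ _ _)) (sgG_pos _ _ _))).le
    · exact le_rfl
  have h1 : ∀ j i : Zv m, ∑ κ ∈ F, (if iv (κ - a • i - b • j) ∈ W then (ω ^ m) ^ 2 *
      (sgG ω E (iv i) * sgG ω E (iv j) * sgG ω β (iv κ)) else 0) ≤ ∑' κ, g j i κ := by
    intro j i
    rw [← (Equiv.subRight (a • i + b • j)).tsum_eq]
    have hs := (Equiv.subRight (a • i + b • j)).summable_iff.2 (hgs j i)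
    refine le_trans (le_of_eq (Finset.sum_congr rfl fun κ _ => ?_))
      (hs.sum_le_tsum F fun κ _ => hg0 _ _ _)
    simp only [hg, Equiv.subRight_apply, sub_sub]
    congr 4
    rw [iv_sub, iv_add, iv_zsmul, iv_zsmul]
    abel
  refine (Finset.sum_le_sum fun j _ => Finset.sum_le_sum fun i _ => h1 j i).trans ?_
  have h2 : ∀ j, ∑ i ∈ K, ∑' κ, g j i κ = ∑' κ, ∑ i ∈ K, g j i κ := fun j =>
    (Summable.tsum_finsetSum fun i _ => hgs j i).symm
  have h3 : ∀ j, Summable fun κ => ∑ i ∈ K, g j i κ := fun j => summable_sum fun i _ => hgs j i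
  simp only [h2]
  rw [← Summable.tsum_finsetSum fun j _ => h3 j, ← sgT_tsum, ← tsum_mul_left]
  have hY : 0 < β / (1 + β * ((a : ℝ) ^ 2 + (b : ℝ) ^ 2) / E) := by positivity
  refine Summable.tsum_le_tsum (fun κ => ?_) (summable_sum fun j _ => h3 j)
    ((sgT_summable hω hY W).mul_left _)
  simp only [hg, sgT]
  split_ifs
  · exact sg_sum_two hω hE hβ.le hsm ha hb _ K
  · simp

theorem sg_small (m : ℕ) (R : ℝ) : ∀ᶠ ω in 𝓝[>] (0 : ℝ),
    ∀ s : ℝ, 0 < s → s ≤ R → (ω + 1 / √s) ^ m ≤ 2 * s ^ (-(m : ℝ) / 2) := by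
  have hc : Continuous fun ω : ℝ => (1 + ω * √R) ^ m := by fun_prop
  have ht : Tendsto (fun ω : ℝ => (1 + ω * √R) ^ m) (𝓝[>] 0) (𝓝 1) := by
    have := hc.tendsto 0
    simp only [zero_mul, add_zero, one_pow] at this
    exact this.mono_left nhdsWithin_le_nhds
  filter_upwards [ht.eventually_le_const (show (1 : ℝ) < 2 by norm_num), self_mem_nhdsWithin]
    with ω h hω s hs hR
  have hω0 : 0 < ω := hω
  have hq : 0 < √s := Real.sqrt_pos.2 hs
  have e1 : ω + 1 / √s = (1 + ω * √s) * (√s)⁻¹ := by field_simp; ring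
  have e2 : ((√s)⁻¹) ^ m = s ^ (-(m : ℝ) / 2) := by
    rw [Real.sqrt_eq_rpow, ← Real.rpow_neg hs.le, ← Real.rpow_natCast, ← Real.rpow_mul hs.le]
    congr 1
    ring
  rw [e1, mul_pow, e2]
  refine mul_le_mul_of_nonneg_right (le_trans ?_ h) (by positivity)
  have := Real.sqrt_le_sqrt hR
  gcongr

/-- removing one element from the members of a down-closed family -/
theorem sg_sum_erase {α : Type*} [DecidableEq α] (K : Finset α) (D : Finset (Finset α))
    (hK : ∀ S ∈ D, S ⊆ K) (hD : ∀ S ∈ D, ∀ S', S' ⊆ S → S' ∈ D) (g : Finset α → α → ℝ)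
    (hg : ∀ S i, 0 ≤ g S i) :
    ∑ S ∈ D, ∑ i ∈ S, g (S.erase i) i ≤ ∑ S ∈ D, ∑ i ∈ K, g S i := by
  have h1 : ∑ S ∈ D, ∑ i ∈ S, g (S.erase i) i =
      ∑ S ∈ D, ∑ i ∈ K, if i ∈ S then g (S.erase i) i else 0 := by
    refine Finset.sum_congr rfl fun S hS => ?_
    rw [← Finset.sum_filter, Finset.filter_mem_eq_inter, Finset.inter_eq_right.2 (hK S hS)]
  rw [h1, Finset.sum_comm, Finset.sum_comm (s := D)]
  refine Finset.sum_le_sum fun i _ => ?_
  rw [← Finset.sum_filter]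
  have hinj : Set.InjOn (fun S : Finset α => S.erase i) (D.filter fun S => i ∈ S) := by
    intro S hS S' hS' h
    have h1 : i ∈ S := (Finset.mem_filter.1 (Finset.mem_coe.1 hS)).2
    have h2 : i ∈ S' := (Finset.mem_filter.1 (Finset.mem_coe.1 hS')).2
    rw [← Finset.insert_erase h1, ← Finset.insert_erase h2]
    exact congrArg _ h
  rw [← Finset.sum_image (f := fun S => g S i) hinj]
  refine Finset.sum_le_sum_of_subset_of_nonneg ?_ fun S _ _ => hg S i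
  intro S hS
  obtain ⟨S', hS', rfl⟩ := Finset.mem_image.1 hS
  exact hD S' (Finset.mem_filter.1 hS').1 _ (Finset.erase_subset _ _)

/-- bounded measurable functions -/
def SgB (f : Xs m → ℝ) : Prop := Measurable f ∧ ∃ C : ℝ, ∀ x, |f x| ≤ C

theorem SgB.integrable {f : Xs m → ℝ} (h : SgB f) : Integrable f (PP m) := by
  obtain ⟨h1, C, h2⟩ := h
  exact Integrable.of_bound h1.aestronglyMeasurable C (Eventually.of_forall h2)

theorem SgB.mul {f g : Xs m → ℝ} (hf : SgB f) (hg : SgB g) : SgB fun x => f x * g x := by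
  obtain ⟨h1, C, h2⟩ := hf
  obtain ⟨h3, C', h4⟩ := hg
  refine ⟨h1.mul h3, C * C', fun x => ?_⟩
  rw [abs_mul]
  exact mul_le_mul (h2 x) (h4 x) (abs_nonneg _) ((abs_nonneg _).trans (h2 x))

theorem SgB.const (c : ℝ) : SgB fun _ : Xs m => c := ⟨measurable_const, |c|, fun _ => le_rfl⟩

theorem InvW.sgB {W : Submodule ℝ (Ev m)} {H : Xs m → ℝ} (h : InvW W H) : SgB H :=
  ⟨h.meas, 1, fun x => by rw [abs_of_nonneg (h.nonneg x)]; exact h.le_one x⟩

theorem sg_ft_pos (β ρ : ℝ) : 0 < ft β ρ := Real.exp_pos _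

theorem sg_measurable_ft (β : ℝ) : Measurable (ft β) := by
  unfold ft
  fun_prop

theorem sg_FS_nonneg (ω : ℝ) {φ : ℝ → ℝ} (hφ : ∀ ρ, 0 ≤ φ ρ) (k : Zv m) (x : Xs m) :
    0 ≤ FS r ω φ k x := tsum_nonneg fun _ => hφ _

theorem sg_F_nonneg (ω β : ℝ) (k : Zv m) (x : Xs m) : 0 ≤ FS r ω (ft β) k x :=
  sg_FS_nonneg ω (fun ρ => (sg_ft_pos β ρ).le) k x

theorem sgB_F {ω β : ℝ} (hω : 0 < ω) (hβ : 0 < β) (k : Zv m) : SgB (FS r ω (ft β) k) :=
  ⟨measurable_FS ω (sg_measurable_ft β) k, _, fun x => by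
    rw [abs_of_nonneg (sg_F_nonneg ω β k x)]
    exact FS_ft_le hω hβ x k⟩

theorem sg_summable_V {ω β : ℝ} (hω : 0 < ω) (hβ : 0 < β) (P : Zv m → Prop) [DecidablePred P]
    (x : Xs m) : Summable fun κ : Zv m => if P κ then FS r ω (ft β) κ x else 0 := by
  refine Summable.of_nonneg_of_le (fun κ => ?_) (fun κ => ?_) (summable_FS_ft (r := r) hω hβ x)
  · split_ifs
    · exact sg_F_nonneg _ _ _ _
    · exact le_rfl
  · split_ifs
    · exact le_rfl
    · exact sg_F_nonneg _ _ _ _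

theorem sg_V_nonneg (ω β : ℝ) (P : Zv m → Prop) [DecidablePred P] (x : Xs m) :
    0 ≤ ∑' κ : Zv m, if P κ then FS r ω (ft β) κ x else 0 := by
  refine tsum_nonneg fun κ => ?_
  split_ifs
  · exact sg_F_nonneg _ _ _ _
  · exact le_rfl

/-- pointwise bound of a restricted theta series -/
theorem sg_V_le {ω β : ℝ} (hω : 0 < ω) (hβ : 0 < β) (P : Zv m → Prop) [DecidablePred P]
    {W : Submodule ℝ (Ev m)} (hP : ∀ κ, P κ → iv κ ∈ W) (x : Xs m) :
    (∑' κ : Zv m, if P κ then FS r ω (ft β) κ x else 0) ≤ F00 m r ω (β / 4) * th ω W β := by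
  rw [← sgT_tsum, ← tsum_mul_left]
  have hF : 0 ≤ F00 m r ω (β / 4) := zero_le_one.trans (one_le_F00 hω (by positivity))
  refine Summable.tsum_le_tsum (fun κ => ?_) (sg_summable_V hω hβ P x)
    ((sgT_summable hω hβ W).mul_left _)
  split_ifs with h
  · rw [sgT, if_pos (hP κ h), mul_comm]
    exact FS_ft_le_F00 hω hβ x κ
  · exact mul_nonneg hF (sgT_nonneg _ _ _ _)

theorem sgB_V {ω β : ℝ} (hω : 0 < ω) (hβ : 0 < β) (P : Zv m → Prop) [DecidablePred P] :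
    SgB fun x : Xs m => ∑' κ : Zv m, if P κ then FS r ω (ft β) κ x else 0 := by
  refine ⟨Measurable.tsum fun κ => ?_, F00 m r ω (β / 4) * th ω (⊤ : Submodule ℝ (Ev m)) β,
    fun x => ?_⟩
  · split_ifs
    · exact measurable_FS ω (sg_measurable_ft β) κ
    · exact measurable_const
  · rw [abs_of_nonneg (sg_V_nonneg ω β P x)]
    exact sg_V_le hω hβ P (fun _ _ => Submodule.mem_top) x

end Pool.Agent.Eps
end
end
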