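import Pool.Agent.Lib.MP_3bda03_nt.T2C

-- part Pool.Agent.Lib.MP_3bda03_nt.T2
section

set_option autoImplicit false

noncomputable section

open scoped BigOperators Classical Topology
open MeasureTheory Real Complex Filter

namespace Pool.Agent.Eps

lemma t2_F00 {n : ℕ} (hn : 2 ≤ n) {ε : ℝ} (hε : 0 < ε) :
    ∀ᶠ ω in 𝓝[>] (0 : ℝ), F00 (n / 2) (n % 2) ω (1 / 4) - 1 ≤ ε := by
  have h := tendsto_F00 (m := n / 2) (r := n % 2) (by omega) (by omega)
    (by norm_num : (0 : ℝ) < 1 / 4)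
  filter_upwards [h.eventually_le_const (show (1 : ℝ) < 1 + ε by linarith)] with ω hω
  linarith

lemma t2_exp_R0 : rexp 0.1569 ≤ 1.17 := by
  have h := Real.exp_bound' (x := 0.1569) (by norm_num) (by norm_num) (n := 4) (by norm_num)
  refine h.trans ?_
  simp only [Finset.sum_range_succ, Finset.sum_range_zero, Nat.factorial]
  norm_num

/-- a doubly small quantity is below the standard error -/
lemma t2_tiny_le {n : ℕ} {ω D τ τ' : ℝ} (W : Submodule ℝ (Ev (n / 2))) (hD : 1 ≤ D) (h1 : 1 ≤ τ)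
    (h2 : τ ≤ 1.55) (h1' : 1 ≤ τ') (h2' : τ' ≤ 1.55) :
    D ^ 3 * rexp (-2 * n) ≤ Err n ω W D * (Nz n τ * Nz n τ') := by
  have a1 := t2_NN_lb n h1 h2 h1' h2'
  have a2 : rexp (-2 * n) ≤ rexp (-0.0392 * n) * rexp (-(n : ℝ)) := by
    rw [← Real.exp_add]
    apply Real.exp_le_exp.2
    have : (0 : ℝ) ≤ n := Nat.cast_nonneg n
    linarith
  have a3 := Sh_nonneg n ω W
  have a4 : D ^ 3 ≤ D ^ 3 + D * Sh n ω W := le_add_of_nonneg_right (by positivity)
  unfold Err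
  calc _ ≤ D ^ 3 * (rexp (-0.0392 * n) * rexp (-(n : ℝ))) :=
        mul_le_mul_of_nonneg_left a2 (by positivity)
    _ = rexp (-0.0392 * n) * D ^ 3 * rexp (-(n : ℝ)) := by ring
    _ ≤ _ := mul_le_mul (mul_le_mul_of_nonneg_left a4 (by positivity)) a1 (by positivity)
        (by positivity)

/-- bound for one parallel pair -/
lemma t2_pair : ∀ᶠ n : ℕ in atTop, ∀ᶠ ω in 𝓝[>] (0 : ℝ),
    ∀ (W : Submodule ℝ (Ev (n / 2))) (D : ℝ) (H : Xs (n / 2) → ℝ), Adm n ω W D 1 → InvW W H →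
      ∀ z z' : ℂ, Adz z → Adz z' → ∀ k ∈ Kn n ω, ∀ k' ∈ Kn n ω,
      iv k ∉ W → iv k' ∉ W → iv k' ∈ ext W k → k' ≠ k → k' ≠ -k →
      ‖∫ x, (H x : ℂ) * (Pz n ω W z k x * starRingEnd ℂ (Pz n ω W z' k' x)) ∂PP (n / 2)‖ ≤
        (∫ x, H x ∂PP (n / 2)) *
          ((3 * (ω ^ (n / 2) * D * En n ^ 3) ^ 2 * ((1 + 1 / dk ω W k) * gw ω z.re k) +
            (if dk ω W k < 1 / (n : ℝ) ^ 2 then
              2 * (ω ^ (n / 2) * D * En n ^ 3) * (1 + 1 / dk ω W k) else 0)) * gw ω z'.re k' +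
          ∑ a ∈ t2Q n, t2B n D z.re z'.re a * (ω ^ (n / 2) *
            if t2P W a ((-a.1) • k + a.2 • k') then gw ω z.re k * gw ω z'.re k' else 0)) := by
  filter_upwards [t2_swap, t2_avg_FS, t2_fine_pair, eventually_ge_atTop 2] with n hswap havg hfine hn
  filter_upwards [hfine, t2_F00 hn one_pos, self_mem_nhdsWithin] with ω hfine hF hω W D H hW hH
    z z' hz hz' k hkK k' hkK' hk hk' hke hne hne'
  have hω : 0 < ω := hω
  obtain ⟨a1, a2⟩ := t2_adz hz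
  obtain ⟨b1, b2⟩ := t2_adz hz'
  have hz0 : 0 < z.re := by linarith
  have hz0' : 0 < z'.re := by linarith
  have c5 := t2_cont_FS (r := n % 2) hω hz0 k
  have c6 := t2_cont_FS (r := n % 2) hω hz0' k'
  have h1 := hswap ω hω W D H hW hH z z' hz hz' k k' hk hk' hke
  have h2 : ‖∫ x, (H x : ℂ) * (Fz (n % 2) ω z k x * starRingEnd ℂ (Fz (n % 2) ω z' k' x))
      ∂PP (n / 2)‖ ≤
      ∫ x, H x * (FS (n % 2) ω (ft z.re) k x * FS (n % 2) ω (ft z'.re) k' x) ∂PP (n / 2) := by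
    refine t2_norm_le hH (t2_int_cont (by fun_prop)) fun x => ?_
    rw [norm_mul, Complex.norm_conj]
    exact mul_le_mul (norm_Fz_le hω hz0 x k) (norm_Fz_le hω hz0' x k') (norm_nonneg _)
      (t2_FS_nonneg _ _ _ _)
  have hD := hW.one_le
  have hE := one_le_En n
  have hd := t2_dk_pos hω hW hk
  have hEH := t2_EH_nonneg hH
  have g1 := gw_pos ω z.re k
  have g2 := gw_pos ω z'.re k'
  have h3 : ∫ x, H x * (FS (n % 2) ω (ft z.re) k x * FS (n % 2) ω (ft z'.re) k' x) ∂PP (n / 2) ≤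
      (∫ x, H x ∂PP (n / 2)) * ((if dk ω W k < 1 / (n : ℝ) ^ 2 then
              2 * (ω ^ (n / 2) * D * En n ^ 3) * (1 + 1 / dk ω W k) else 0) * gw ω z'.re k' +
          ∑ a ∈ t2Q n, t2B n D z.re z'.re a * (ω ^ (n / 2) *
            if t2P W a ((-a.1) • k + a.2 • k') then gw ω z.re k * gw ω z'.re k' else 0)) := by
    by_cases hb : dk ω W k < 1 / (n : ℝ) ^ 2
    · rw [if_pos hb]
      have s0 : 0 ≤ ∑ a ∈ t2Q n, t2B n D z.re z'.re a * (ω ^ (n / 2) *
            if t2P W a ((-a.1) • k + a.2 • k') then gw ω z.re k * gw ω z'.re k' else 0) :=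
        Finset.sum_nonneg fun a _ => by
          have := t2B_nonneg (n := n) hD a1 b1 a
          split_ifs <;> positivity
      have p1 : ∀ x, FS (n % 2) ω (ft z'.re) k' x ≤ 2 * gw ω z'.re k' := fun x => by
        have q1 := FS_ft_le_F00 (r := n % 2) hω hz0' x k'
        have q2 := F00_anti (m := n / 2) (r := n % 2) hω (by norm_num : (0 : ℝ) < 1 / 4)
          (by linarith : 1 / 4 ≤ z'.re / 4)
        change _ ≤ gw ω z'.re k' * _ at q1
        nlinarith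
      have p2 : ∫ x, H x * (FS (n % 2) ω (ft z.re) k x * FS (n % 2) ω (ft z'.re) k' x) ∂PP (n / 2) ≤
          ∫ x, 2 * gw ω z'.re k' * (H x * FS (n % 2) ω (ft z.re) k x) ∂PP (n / 2) := by
        refine integral_mono (t2_int_mul hH (t2_int_cont (by fun_prop)))
          ((t2_int_mul hH (t2_int_cont c5)).const_mul _) fun x => ?_
        have := mul_le_mul_of_nonneg_left (p1 x)
          (mul_nonneg (hH.nonneg x) (t2_FS_nonneg (r := n % 2) ω z.re k x))
        dsimp only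
        linarith
      rw [integral_const_mul] at p2
      have p3 := havg ω hω W D H hW hH z.re a1 (by linarith) k hk
      have p4 := gw_le_one ω hz0.le k
      have p5 : (1 + 1 / dk ω W k) * (ω ^ (n / 2) * D * En n ^ 3 * gw ω z.re k) ≤
          (1 + 1 / dk ω W k) * (ω ^ (n / 2) * D * En n ^ 3) :=
        mul_le_mul_of_nonneg_left (mul_le_of_le_one_right (by positivity) p4) (by positivity)
      have p6 := mul_le_mul_of_nonneg_left (p3.trans (mul_le_mul_of_nonneg_left p5 hEH))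
        (by positivity : 0 ≤ 2 * gw ω z'.re k')
      have p7 := mul_nonneg hEH s0
      rw [mul_add]
      linarith
    · rw [if_neg hb, zero_mul, zero_add]
      exact hfine W D H hW hH z.re z'.re a1 a2 b1 b2 k hkK k' hkK' hk hk' hke hne hne' (not_lt.1 hb)
  have h4 := norm_le_insert' (∫ x, (H x : ℂ) * (Pz n ω W z k x * starRingEnd ℂ (Pz n ω W z' k' x))
    ∂PP (n / 2)) (∫ x, (H x : ℂ) * (Fz (n % 2) ω z k x * starRingEnd ℂ (Fz (n % 2) ω z' k' x))
      ∂PP (n / 2))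
  calc _ ≤ _ := h4
    _ ≤ _ := add_le_add (h2.trans h3) h1
    _ = _ := by ring

/-- pairs of fibres that are parallel modulo `W` but not equal up to sign -/
theorem par_pairs : ∀ᶠ n : ℕ in atTop, ∀ᶠ ω in 𝓝[>] (0 : ℝ),
    ∀ (W : Submodule ℝ (Ev (n / 2))) (D : ℝ) (H : Xs (n / 2) → ℝ), Adm n ω W D 1 →
      D ≤ ω⁻¹ ^ (MM n + 2) → InvW W H → ∀ z z' : ℂ, Adz z → Adz z' →
      ∑ k ∈ (Kn n ω).filter (fun k => iv k ∉ W),
        ∑ k' ∈ (Kn n ω).filter (fun k' => iv k' ∉ W ∧ iv k' ∈ ext W k ∧ k' ≠ k ∧ k' ≠ -k),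
          ‖∫ x, (H x : ℂ) * (Pz n ω W z k x * starRingEnd ℂ (Pz n ω W z' k' x)) ∂PP (n / 2)‖ ≤
        (∫ x, H x ∂PP (n / 2)) * Err n ω W D * (Nz n z.re * Nz n z'.re) := by
  filter_upwards [t2_pair, t2_th_ext, t2_term_le, sum_dk_le, tail_le, t2_MM, eventually_ge_atTop 1,
    t2_decay 432 11 (by norm_num) (by norm_num) (by norm_num : 4 * (0.0392 : ℝ) < 0.1569) t2_exp_R0,
    En_pow_le 6 5 (by norm_num : (0 : ℝ) < 18)]
    with n hpair hth hterm hsum htail hMM hn hdec hEn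
  filter_upwards [hpair, hsum, htail, t2_pow_le n (2 * (n : ℝ) ^ 3), self_mem_nhdsWithin,
    t2_small (9 * En n ^ 8 * (n : ℝ) ^ 9) (j := n / 2 - (MM n + 2)) (by omega)
      (Real.exp_pos (-2 * n))] with ω hpair hsum htail hpow hω hsmall W D H hW hDω hH z z' hz hz'
  have hω : 0 < ω := hω
  have hn' : (1 : ℝ) ≤ n := by exact_mod_cast hn
  obtain ⟨a1, a2⟩ := t2_adz hz
  obtain ⟨b1, b2⟩ := t2_adz hz'
  have hD := hW.one_le
  have hE := one_le_En n
  have hEH := t2_EH_nonneg hH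
  set A := (Kn n ω).filter (fun k => iv k ∉ W) with hA
  set u := ω ^ (n / 2) * D * En n ^ 3 with hu
  have u0 : 0 ≤ u := by positivity
  set c : Zv (n / 2) → Zv (n / 2) → ℝ := fun k k' => ∑ a ∈ t2Q n, t2B n D z.re z'.re a *
    (ω ^ (n / 2) * if t2P W a ((-a.1) • k + a.2 • k') then gw ω z.re k * gw ω z'.re k' else 0)
    with hc
  have c0 : ∀ k k', 0 ≤ c k k' := fun k k' => Finset.sum_nonneg fun a _ => by
    have := t2B_nonneg (n := n) hD a1 b1 a
    have := gw_pos ω z.re k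
    have := gw_pos ω z'.re k'
    split_ifs <;> positivity
  have inner : ∀ k ∈ A, ∑ k' ∈ (Kn n ω).filter
      (fun k' => iv k' ∉ W ∧ iv k' ∈ ext W k ∧ k' ≠ k ∧ k' ≠ -k),
      ‖∫ x, (H x : ℂ) * (Pz n ω W z k x * starRingEnd ℂ (Pz n ω W z' k' x)) ∂PP (n / 2)‖ ≤
      (∫ x, H x ∂PP (n / 2)) * (3 * u ^ 2 * D * En n ^ 2 * (gw ω z.re k * (1 + 1 / dk ω W k) ^ 2) +
        2 * u * D * En n ^ 2 * (if dk ω W k < 1 / (n : ℝ) ^ 2 then (1 + 1 / dk ω W k) ^ 4 else 0) +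
        ∑ k' ∈ Kn n ω, c k k') := by
    intro k hkA
    obtain ⟨hkK, hk⟩ := Finset.mem_filter.1 hkA
    have hd := t2_dk_pos hω hW hk
    have g1 := gw_pos ω z.re k
    refine (Finset.sum_le_sum fun k' hk' => by
      obtain ⟨q0, q1, q2, q3, q4⟩ := Finset.mem_filter.1 hk'
      exact hpair W D H hW hH z z' hz hz' k hkK k' q0 hk q1 q2 q3 q4).trans ?_
    rw [← Finset.mul_sum, Finset.sum_add_distrib, ← Finset.mul_sum]
    refine mul_le_mul_of_nonneg_left (add_le_add ?_ (Finset.sum_le_sum_of_subset_of_nonneg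
      (Finset.filter_subset _ _) fun k' _ _ => c0 k k')) hEH
    have p1 := (t2_sum_le_th hω (by linarith : 0 < z'.re) (ext W k) _ fun k' hk' =>
      (Finset.mem_filter.1 (show k' ∈ (Kn n ω).filter
        (fun k' => iv k' ∉ W ∧ iv k' ∈ ext W k ∧ k' ≠ k ∧ k' ≠ -k) from hk')).2.2.1).trans
      (hth ω hω W D hW k hk z'.re b1)
    refine (mul_le_mul_of_nonneg_left p1 ?_).trans ?_
    · split_ifs <;> positivity
    · rw [← hu]
      set d := 1 + 1 / dk ω W k with hdd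
      have d1 : 1 ≤ d := le_add_of_nonneg_right (by positivity)
      split_ifs
      · have : d ^ 2 ≤ d ^ 4 := pow_le_pow_right₀ d1 (by norm_num)
        have := mul_le_mul_of_nonneg_left this (by positivity : 0 ≤ 2 * u * D * En n ^ 2)
        nlinarith
      · apply le_of_eq; ring
  refine (Finset.sum_le_sum inner).trans ?_
  rw [← Finset.mul_sum, mul_assoc (∫ x, H x ∂PP (n / 2))]
  refine mul_le_mul_of_nonneg_left ?_ hEH
  rw [Finset.sum_add_distrib, Finset.sum_add_distrib, ← Finset.mul_sum, ← Finset.mul_sum]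
  have tiny := t2_tiny_le (ω := ω) W hD a1 a2 b1 b2
  have S1 : 3 * u ^ 2 * D * En n ^ 2 * ∑ k ∈ A, gw ω z.re k * (1 + 1 / dk ω W k) ^ 2 ≤
      D ^ 3 * rexp (-2 * n) / 3 := by
    have q1 := hsum W D 1 (by norm_num) hW z.re ⟨by linarith, by linarith⟩ 2 (by norm_num)
    have q2 := t2_rpow_le_one n a1
    have q3 : D * (n : ℝ) ^ 9 * z.re ^ (-mh n) ≤ D * (n : ℝ) ^ 9 :=
      mul_le_of_le_one_right (by positivity) q2
    have q4 := t2_spare hMM hω hDω
    calc _ = 3 * (ω ^ (n / 2) * D ^ 3 * En n ^ 8) *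
          (ω ^ (n / 2) * ∑ k ∈ A, gw ω z.re k * (1 + 1 / dk ω W k) ^ 2) := by rw [hu]; ring
      _ ≤ 3 * (ω ^ (n / 2) * D ^ 3 * En n ^ 8) * (D * (n : ℝ) ^ 9) :=
        mul_le_mul_of_nonneg_left (q1.trans q3) (by positivity)
      _ = D ^ 3 * (9 * En n ^ 8 * (n : ℝ) ^ 9 * (ω ^ (n / 2) * D)) / 3 := by ring
      _ ≤ _ := by
        refine div_le_div_of_nonneg_right (mul_le_mul_of_nonneg_left
          (le_trans (mul_le_mul_of_nonneg_left q4 (by positivity)) hsmall) (by positivity))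
          (by norm_num)
  have S2 : 2 * u * D * En n ^ 2 * ∑ k ∈ A,
      (if dk ω W k < 1 / (n : ℝ) ^ 2 then (1 + 1 / dk ω W k) ^ 4 else 0) ≤
      D ^ 3 * rexp (-2 * n) / 3 := by
    have q1 := htail W D 1 (by norm_num) hW
    rw [← Finset.sum_filter, hA, Finset.filter_filter]
    have q2 : 6 * En n ^ 5 * rexp (-20 * n) ≤ rexp (-2 * n) := by
      have : (1 : ℝ) ≤ (n : ℝ) ^ 5 := one_le_pow₀ hn'
      calc _ ≤ rexp (18 * n) * rexp (-20 * n) := by
            refine mul_le_mul_of_nonneg_right (le_trans ?_ hEn) (Real.exp_pos _).le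
            have : 0 ≤ 6 * En n ^ 5 := by positivity
            nlinarith
        _ = _ := by rw [← Real.exp_add]; congr 1; ring
    calc _ = 2 * D ^ 2 * En n ^ 5 * (ω ^ (n / 2) * ∑ k ∈ (Kn n ω).filter
          (fun k => iv k ∉ W ∧ dk ω W k < 1 / (n : ℝ) ^ 2), (1 + 1 / dk ω W k) ^ 4) := by
          rw [hu]; ring
      _ ≤ 2 * D ^ 2 * En n ^ 5 * (D * rexp (-20 * n)) :=
        mul_le_mul_of_nonneg_left q1 (by positivity)
      _ = D ^ 3 * (6 * En n ^ 5 * rexp (-20 * n)) / 3 := by ring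
      _ ≤ _ := div_le_div_of_nonneg_right (mul_le_mul_of_nonneg_left q2 (by positivity))
          (by norm_num)
  have S3 : ∑ k ∈ A, ∑ k' ∈ Kn n ω, c k k' ≤ Err n ω W D * (Nz n z.re * Nz n z'.re) / 3 := by
    refine (Finset.sum_le_sum_of_subset_of_nonneg (Finset.filter_subset _ _)
      fun k _ _ => Finset.sum_nonneg fun k' _ => c0 k k').trans ?_
    have e : ∑ k ∈ Kn n ω, ∑ k' ∈ Kn n ω, c k k' = ∑ a ∈ t2Q n, t2B n D z.re z'.re a *
        (ω ^ (n / 2) * ∑ k ∈ Kn n ω, ∑ k' ∈ Kn n ω,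
          if t2P W a ((-a.1) • k + a.2 • k') then gw ω z.re k * gw ω z'.re k' else 0) := by
      simp only [hc, Finset.mul_sum]
      rw [Finset.sum_comm (s := t2Q n)]
      exact Finset.sum_congr rfl fun k _ => Finset.sum_comm
    rw [e]
    refine (Finset.sum_le_card_nsmul _ _ _ fun a ha => (mul_le_mul_of_nonneg_left
      (t2_fine_sum hω hpow W a1 a2 b1 b2 ha _) (t2B_nonneg hD a1 b1 a)).trans
      (hterm ω hω W D hW z.re z'.re a1 a2 b1 b2 a ha)).trans ?_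
    rw [nsmul_eq_mul]
    have N1 := t2_Nz_pos n (by linarith : 0 < z.re)
    have N2 := t2_Nz_pos n (by linarith : 0 < z'.re)
    have hSh := Sh_nonneg n ω W
    have q1 : En n ^ 4 ≤ En n ^ 11 := pow_le_pow_right₀ hE (by norm_num)
    have q2 : 432 * (n : ℝ) ^ 11 * En n ^ 4 * (1.17 : ℝ) ^ (-mh n) ≤ rexp (-0.0392 * n) :=
      le_trans (by gcongr) hdec
    unfold Err
    calc _ ≤ 3 * (n : ℝ) ^ 6 * (48 * (n : ℝ) ^ 5 * En n ^ 4 * (1.17 : ℝ) ^ (-mh n) *
          (Nz n z.re * Nz n z'.re) * (D ^ 3 + D * Sh n ω W)) :=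
          mul_le_mul_of_nonneg_right (t2Q_card hn) (by positivity)
      _ = (432 * (n : ℝ) ^ 11 * En n ^ 4 * (1.17 : ℝ) ^ (-mh n)) *
          ((D ^ 3 + D * Sh n ω W) * (Nz n z.re * Nz n z'.re) / 3) := by ring
      _ ≤ rexp (-0.0392 * n) * ((D ^ 3 + D * Sh n ω W) * (Nz n z.re * Nz n z'.re) / 3) :=
          mul_le_mul_of_nonneg_right q2 (by positivity)
      _ = _ := by ring
  linarith

end Pool.Agent.Eps
end
end

-- part Pool.Agent.Lib.MP_3bda03_nt.T4A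
section

set_option autoImplicit false

noncomputable section

open scoped BigOperators Classical Topology
open MeasureTheory Real Complex Filter

namespace Pool.Agent.Eps

lemma t4_re (z z' : ℂ) : (z + starRingEnd ℂ z').re = z.re + z'.re := by simp

lemma t4_cont_Osc (n : ℕ) {ω : ℝ} (hω : 0 < ω) (W : Submodule ℝ (Ev (n / 2))) {z : ℂ}
    (hz : 0 < z.re) : Continuous (Osc n ω W z) :=
  continuous_finsetSum _ fun k _ => continuous_Pz n hω W hz k

lemma t4_split (n : ℕ) (ω : ℝ) (W : Submodule ℝ (Ev (n / 2))) (s : ℂ) (x : Xs (n / 2)) :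
    ∑ k ∈ (Kn n ω).filter (fun k => iv k ∉ W), Fz (n % 2) ω s k x - isq s ^ n - Osc n ω W s x =
      Mir n ω W s x + Rem n ω W s x := by
  have h := Finset.sum_filter_add_sum_filter_not (Kn n ω) (fun k => iv k ∈ W)
    (fun k => Fz (n % 2) ω s k x)
  unfold Rem Wz Str
  rw [← h]; ring

lemma t4_int_Mir {n : ℕ} {ω C : ℝ} {W : Submodule ℝ (Ev (n / 2))} {s : ℂ}
    (h : ∀ x, ‖Mir n ω W s x‖ ≤ C) : Integrable (fun x => ‖Mir n ω W s x‖) (PP (n / 2)) := by
  have hm : Measurable fun x => Mir n ω W s x :=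
    (measurable_parts n ω W).2.2.1.comp (measurable_const.prodMk measurable_id)
  exact (integrable_const C).mono' hm.norm.aestronglyMeasurable
    (Eventually.of_forall fun x => by simpa using h x)

lemma t4_sum_le_NN (n : ℕ) {τ τ' : ℝ} (h1 : 1 ≤ τ) (h1' : 1 ≤ τ') :
    (1.0095 * (τ + τ')) ^ (-2 * mh n) ≤ Nz n τ * Nz n τ' := by
  have e : (1.0095 * (τ + τ')) ^ (-2 * mh n) = ((1.0095 * (τ + τ')) ^ 2) ^ (-mh n) := by
    rw [← Real.rpow_natCast, ← Real.rpow_mul (by positivity)]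
    congr 1; push_cast; ring
  rw [e]
  have a1 := t2_Lz τ
  have a2 := t2_Lz τ'
  have a3 : Lz τ * Lz τ' ≤ 1.0095 * 1.0095 := mul_le_mul a1.2 a2.2 (by linarith) (by norm_num)
  have h := t2_le_NN n (by linarith : 0 < τ) (by linarith : 0 < τ') (R := 1) one_pos
    (Y := (1.0095 * (τ + τ')) ^ 2) (by
      have : 4 * τ * τ' ≤ (τ + τ') ^ 2 := by nlinarith [sq_nonneg (τ - τ')]
      have := mul_le_mul this a3 (by nlinarith) (by positivity)
      nlinarith)
  simpa using h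

lemma t4_Err_nonneg {n : ℕ} {ω D : ℝ} (W : Submodule ℝ (Ev (n / 2))) (hD : 1 ≤ D) :
    0 ≤ Err n ω W D := by
  have := Sh_nonneg n ω W
  unfold Err
  positivity

/-- the diagonal pairs -/
theorem t4_diag_pairs : ∀ᶠ n : ℕ in atTop, ∀ᶠ ω in 𝓝[>] (0 : ℝ),
    ∀ (W : Submodule ℝ (Ev (n / 2))) (D : ℝ) (H : Xs (n / 2) → ℝ), Adm n ω W D 1 →
      D ≤ ω⁻¹ ^ (MM n + 2) → InvW W H → ∀ z z' : ℂ, Adz z → Adz z' →
      ‖∑ k ∈ (Kn n ω).filter (fun k => iv k ∉ W),
          ∫ x, (H x : ℂ) * (Pz n ω W z k x * starRingEnd ℂ (Pz n ω W z' k x)) ∂PP (n / 2) -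
        (isq (z + starRingEnd ℂ z') ^ n + Del n ω (z + starRingEnd ℂ z')) *
          (∫ x, H x ∂PP (n / 2) : ℝ)‖ ≤
        2 * (∫ x, H x ∂PP (n / 2)) * Err n ω W D * (Nz n z.re * Nz n z'.re) +
          ∫ x, H x * ‖Mir n ω W (z + starRingEnd ℂ z') x‖ ∂PP (n / 2) := by
  filter_upwards [t2_swap, avg_FS_le, sum_dk_le, first_moment', Mir_le, Rem_le,
    eventually_ge_atTop 2] with n hswap havg hsum hfirst hMir hRem hn
  have hE := one_le_En n
  have hn' : (2 : ℝ) ≤ n := by exact_mod_cast hn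
  have c0 : 0 < En n ^ 3 * (n : ℝ) ^ 9 * ((1 / 2 : ℝ) ^ (-mh n)) ^ 2 := by positivity
  filter_upwards [hsum, hfirst, hMir, hRem, self_mem_nhdsWithin,
    t2_small (9 * En n ^ 6 * (n : ℝ) ^ 9) (j := n / 2) (by omega) (Real.exp_pos (-2 * n)),
    t2_F00 hn (show 0 < rexp (-2 * n) / 3 / (En n ^ 3 * (n : ℝ) ^ 9 * ((1 / 2 : ℝ) ^ (-mh n)) ^ 2)
      by positivity)]
    with ω hsum hfirst hMir hRem hω hsmall hF W D H hW hDω hH z z' hz hz'
  have hω : 0 < ω := hω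
  obtain ⟨a1, a2⟩ := t2_adz hz
  obtain ⟨b1, b2⟩ := t2_adz hz'
  have hz0 : 0 < z.re := by linarith
  have hz0' : 0 < z'.re := by linarith
  have hD := hW.one_le
  have hEH := t2_EH_nonneg hH
  have hre := t4_re z z'
  set s := z + starRingEnd ℂ z' with hs
  have s0 : 0 < s.re := by linarith
  set A := (Kn n ω).filter (fun k => iv k ∉ W) with hA
  set E := ∫ x, H x ∂PP (n / 2) with hEdef
  have F1 := one_le_F00 (m := n / 2) (r := n % 2) hω (by norm_num : (0 : ℝ) < 1 / 4)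
  have S1 : ‖∑ k ∈ A, ∫ x, (H x : ℂ) * (Pz n ω W z k x * starRingEnd ℂ (Pz n ω W z' k x))
      ∂PP (n / 2) - ∑ k ∈ A, ∫ x, (H x : ℂ) *
        (Fz (n % 2) ω z k x * starRingEnd ℂ (Fz (n % 2) ω z' k x)) ∂PP (n / 2)‖ ≤
      E * (D ^ 3 * rexp (-2 * n) / 3) := by
    rw [← Finset.sum_sub_distrib]
    refine (norm_sum_le_of_le (n := fun k => E * (3 * (ω ^ (n / 2) * D * En n ^ 3) ^ 2 *
      (gw ω z.re k * (1 + 1 / dk ω W k) ^ 1))) _ fun k hkA => ?_).trans ?_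
    · obtain ⟨hkK, hk⟩ := Finset.mem_filter.1 hkA
      refine (hswap ω hω W D H hW hH z z' hz hz' k k hk hk (le_ext W k).2).trans
        (mul_le_mul_of_nonneg_left (mul_le_mul_of_nonneg_left ?_ (by positivity)) hEH)
      have hd := t2_dk_pos hω hW hk
      have g1 := gw_pos ω z.re k
      have g2 := gw_le_one ω hz0'.le k
      rw [pow_one, ← mul_assoc, mul_comm (gw ω z.re k)]
      exact mul_le_of_le_one_right (by positivity) g2
    · rw [← Finset.mul_sum, ← Finset.mul_sum]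
      refine mul_le_mul_of_nonneg_left ?_ hEH
      have q1 := hsum W D 1 (by norm_num) hW z.re ⟨by linarith, by linarith⟩ 1 (by norm_num)
      have q2 := t2_rpow_le_one n a1
      have q3 : D * (n : ℝ) ^ 9 * z.re ^ (-mh n) ≤ D * (n : ℝ) ^ 9 :=
        mul_le_of_le_one_right (by positivity) q2
      calc _ = 3 * (ω ^ (n / 2) * D ^ 2 * En n ^ 6) *
            (ω ^ (n / 2) * ∑ k ∈ A, gw ω z.re k * (1 + 1 / dk ω W k) ^ 1) := by ring
        _ ≤ 3 * (ω ^ (n / 2) * D ^ 2 * En n ^ 6) * (D * (n : ℝ) ^ 9) :=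
          mul_le_mul_of_nonneg_left (q1.trans q3) (by positivity)
        _ = D ^ 3 * (9 * En n ^ 6 * (n : ℝ) ^ 9 * ω ^ (n / 2)) / 3 := by ring
        _ ≤ _ := div_le_div_of_nonneg_right (mul_le_mul_of_nonneg_left hsmall (by positivity))
          (by norm_num)
  have S2 : ‖∑ k ∈ A, ∫ x, (H x : ℂ) *
        (Fz (n % 2) ω z k x * starRingEnd ℂ (Fz (n % 2) ω z' k x)) ∂PP (n / 2) -
      ∑ k ∈ A, ∫ x, (H x : ℂ) * Fz (n % 2) ω s k x ∂PP (n / 2)‖ ≤
      E * (D ^ 3 * rexp (-2 * n) / 3) := by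
    rw [← Finset.sum_sub_distrib]
    refine (norm_sum_le_of_le (n := fun k => E * ((F00 (n / 2) (n % 2) ω (1 / 4) - 1) *
      (D * En n ^ 3 * (1 / 2 : ℝ) ^ (-mh n) * ω ^ (n / 2)) *
      (gw ω (1 / 2) k * (1 + 1 / dk ω W k) ^ 1))) _ fun k hkA => ?_).trans ?_
    · obtain ⟨hkK, hk⟩ := Finset.mem_filter.1 hkA
      have c3 := continuous_Fz (r := n % 2) hω hz0 k
      have c4 := continuous_Fz (r := n % 2) hω hz0' k
      have c5 := continuous_Fz (r := n % 2) hω s0 k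
      have c6 := t2_cont_FS (r := n % 2) hω (by norm_num : (0 : ℝ) < 1 / 2) k
      rw [← integral_sub (t2_int_mulC hH (t2_int_cont (by fun_prop)))
        (t2_int_mulC hH (t2_int_cont c5))]
      simp only [← mul_sub]
      refine (t2_norm_le hH (t2_int_cont (c6.mul continuous_const))
        fun x => cross_le hω a1 b1 x k).trans ?_
      simp only [Pi.mul_apply, ← mul_assoc]
      rw [integral_mul_const]
      have q1 := havg ω hω W D H hW hH (1 / 2) ⟨by norm_num, by norm_num⟩ k hk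
      refine (mul_le_mul_of_nonneg_right q1 (by linarith)).trans (le_of_eq ?_)
      rw [gw]; ring
    · rw [← Finset.mul_sum, ← Finset.mul_sum]
      refine mul_le_mul_of_nonneg_left ?_ hEH
      have q1 := hsum W D 1 (by norm_num) hW (1 / 2) ⟨by norm_num, by norm_num⟩ 1 (by norm_num)
      have q2 : D ^ 2 ≤ D ^ 3 := pow_le_pow_right₀ hD (by norm_num)
      rw [le_div_iff₀ c0] at hF
      have q3 : 0 ≤ F00 (n / 2) (n % 2) ω (1 / 4) - 1 := by linarith
      calc _ = (F00 (n / 2) (n % 2) ω (1 / 4) - 1) * (D * En n ^ 3 * (1 / 2 : ℝ) ^ (-mh n)) *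
            (ω ^ (n / 2) * ∑ k ∈ A, gw ω (1 / 2) k * (1 + 1 / dk ω W k) ^ 1) := by ring
        _ ≤ (F00 (n / 2) (n % 2) ω (1 / 4) - 1) * (D * En n ^ 3 * (1 / 2 : ℝ) ^ (-mh n)) *
            (D * (n : ℝ) ^ 9 * (1 / 2 : ℝ) ^ (-mh n)) :=
          mul_le_mul_of_nonneg_left q1 (by positivity)
        _ = D ^ 2 * ((F00 (n / 2) (n % 2) ω (1 / 4) - 1) *
            (En n ^ 3 * (n : ℝ) ^ 9 * ((1 / 2 : ℝ) ^ (-mh n)) ^ 2)) := by ring
        _ ≤ D ^ 3 * (rexp (-2 * n) / 3) := mul_le_mul q2 hF (by positivity) (by positivity)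
        _ = _ := by ring
  have cO := t4_cont_Osc n hω W s0
  have cF : Continuous fun x => ∑ k ∈ A, Fz (n % 2) ω s k x :=
    continuous_finsetSum _ fun k _ => continuous_Fz hω s0 k
  have iM := t4_int_Mir (hMir W D hW s (by linarith) (by linarith))
  have S3 : ‖∑ k ∈ A, ∫ x, (H x : ℂ) * Fz (n % 2) ω s k x ∂PP (n / 2) - isq s ^ n * (E : ℂ) -
      ∫ x, (H x : ℂ) * Osc n ω W s x ∂PP (n / 2)‖ ≤
      ∫ x, H x * ‖Mir n ω W s x‖ ∂PP (n / 2) + E * (D ^ 3 * rexp (-2 * n) / 3) := by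
    have e1 : isq s ^ n * (E : ℂ) = ∫ x, (H x : ℂ) * isq s ^ n ∂PP (n / 2) := by
      rw [integral_mul_const, integral_complex_ofReal, mul_comm]
    have i1 : Integrable (fun x => (H x : ℂ) * ∑ k ∈ A, Fz (n % 2) ω s k x) (PP (n / 2)) :=
      t2_int_mulC hH (t2_int_cont cF)
    have i2 : Integrable (fun x => (H x : ℂ) * isq s ^ n) (PP (n / 2)) :=
      t2_int_mulC hH (integrable_const _)
    have i3 : Integrable (fun x => (H x : ℂ) * ∑ k ∈ A, Fz (n % 2) ω s k x -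
        (H x : ℂ) * isq s ^ n) (PP (n / 2)) := i1.sub i2
    rw [← integral_finsetSum _ fun k _ => t2_int_mulC hH (t2_int_cont (continuous_Fz hω s0 k)), e1]
    simp only [← Finset.mul_sum]
    rw [← integral_sub i1 i2, ← integral_sub i3 (t2_int_mulC hH (t2_int_cont cO))]
    simp only [← mul_sub, hA, t4_split]
    refine (t2_norm_le hH (b := fun x => ‖Mir n ω W s x‖ + D ^ 3 * rexp (-2 * n) / 3)
      (iM.add (integrable_const _)) fun x => (norm_add_le _ _).trans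
        (add_le_add le_rfl ((hRem W D hW hDω s (by linarith) (by linarith) x).trans ?_))).trans ?_
    · have q1 : D ≤ D ^ 3 := le_self_pow₀ hD (by norm_num)
      have q2 : rexp (-5 * n) ≤ rexp (-2 * n) / 3 := by
        have q3 : rexp (-2 * n) = rexp (-5 * n) * rexp (3 * n) := by
          rw [← Real.exp_add]; congr 1; ring
        have q4 := Real.add_one_le_exp (3 * n : ℝ)
        have q5 := Real.exp_pos (-5 * n : ℝ)
        rw [q3]; nlinarith
      rw [mul_div_assoc]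
      exact mul_le_mul q1 q2 (Real.exp_pos _).le (by positivity)
    · simp only [mul_add]
      rw [integral_add (t2_int_mul hH iM) (hH.integrable.mul_const _), integral_mul_const]
  have S4 := hfirst W D H hW hDω hH s (by linarith) (by linarith)
  have S5 : E * Err n ω W D * (1.0095 * s.re) ^ (-2 * mh n) ≤
      E * Err n ω W D * (Nz n z.re * Nz n z'.re) := by
    rw [hre]
    exact mul_le_mul_of_nonneg_left (t4_sum_le_NN n a1 b1) (mul_nonneg hEH (t4_Err_nonneg W hD))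
  have tiny := mul_le_mul_of_nonneg_left (t2_tiny_le (ω := ω) W hD a1 a2 b1 b2) hEH
  rw [← hEdef] at S4
  generalize (∑ k ∈ A, ∫ x, (H x : ℂ) * (Pz n ω W z k x * starRingEnd ℂ (Pz n ω W z' k x))
      ∂PP (n / 2)) = T0 at S1 ⊢
  generalize (∑ k ∈ A, ∫ x, (H x : ℂ) *
        (Fz (n % 2) ω z k x * starRingEnd ℂ (Fz (n % 2) ω z' k x)) ∂PP (n / 2)) = T1 at S1 S2
  generalize (∑ k ∈ A, ∫ x, (H x : ℂ) * Fz (n % 2) ω s k x ∂PP (n / 2)) = T2 at S2 S3
  generalize (∫ x, (H x : ℂ) * Osc n ω W s x ∂PP (n / 2)) = T3 at S3 S4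
  have e : T0 - (isq s ^ n + Del n ω s) * (E : ℂ) = (T0 - T1) + (T1 - T2) +
      (T2 - isq s ^ n * (E : ℂ) - T3) + (T3 - Del n ω s * (E : ℂ)) := by ring
  rw [e]
  have := norm_add₄_le (a := T0 - T1) (b := T1 - T2) (c := T2 - isq s ^ n * (E : ℂ) - T3)
    (d := T3 - Del n ω s * (E : ℂ))
  linarith

end Pool.Agent.Eps
end
end

-- part Pool.Agent.Lib.MP_3bda03_nt.T4
section

set_option autoImplicit false

noncomputable section

open scoped BigOperators Classical Topology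
open MeasureTheory Real Complex Filter

namespace Pool.Agent.Eps

lemma t4_sum_split {n : ℕ} {ω : ℝ} (hω : 0 < ω) (W : Submodule ℝ (Ev (n / 2))) {k : Zv (n / 2)}
    (hkK : k ∈ Kn n ω) (hk : iv k ∉ W) (f : Zv (n / 2) → ℂ) :
    ∑ k' ∈ (Kn n ω).filter (fun k => iv k ∉ W), f k' =
      ∑ k' ∈ (Kn n ω).filter (fun k' => iv k' ∉ ext W k), f k' + (f k + f (-k)) +
        ∑ k' ∈ (Kn n ω).filter (fun k' => iv k' ∉ W ∧ iv k' ∈ ext W k ∧ k' ≠ k ∧ k' ≠ -k),
          f k' := by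
  obtain ⟨h0, h1⟩ := (mem_Kn hω k).1 hkK
  have hnK : -k ∈ Kn n ω := (mem_Kn hω (-k)).2 ⟨neg_ne_zero.2 h0, by rwa [iv_neg, norm_neg]⟩
  have hn : iv (-k) ∉ W := by rwa [iv_neg, W.neg_mem_iff]
  have he := (le_ext W k).2
  have hne : iv (-k) ∈ ext W k := by rwa [iv_neg, Submodule.neg_mem_iff]
  have hkk : k ≠ -k := by
    intro h
    apply h0
    funext i
    have := congrFun h i
    simp only [Pi.neg_apply] at this
    simp only [Pi.zero_apply]
    omega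
  have e1 : f k = ∑ k' ∈ Kn n ω, if k' = k then f k' else 0 := by
    rw [Finset.sum_ite_eq', if_pos hkK]
  have e2 : f (-k) = ∑ k' ∈ Kn n ω, if k' = -k then f k' else 0 := by
    rw [Finset.sum_ite_eq', if_pos hnK]
  rw [e1, e2]
  simp only [Finset.sum_filter, ← Finset.sum_add_distrib]
  refine Finset.sum_congr rfl fun k' _ => ?_
  by_cases c1 : k' = k
  · subst c1
    simp [hk, he, hkk]
  by_cases c2 : k' = -k
  · subst c2
    simp [hn, hne, c1]
  by_cases c3 : iv k' ∈ ext W k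
  · simp [c1, c2, c3]
  · have c4 : iv k' ∉ W := fun h => c3 ((le_ext W k).1 h)
    simp [c1, c2, c3, c4]

lemma t4_exp_a : rexp (-0.0199) ≤ 0.981 := by
  rw [Real.exp_neg, inv_le_comm₀ (Real.exp_pos _) (by norm_num)]
  have := Real.add_one_le_exp (0.0199 : ℝ)
  norm_num at this ⊢
  linarith

lemma t4_exp_b : rexp 0.0021 ≤ 1.0022 := by
  have h := Real.exp_bound' (x := 0.0021) (by norm_num) (by norm_num) (n := 2) (by norm_num)
  refine h.trans ?_
  simp only [Finset.sum_range_succ, Finset.sum_range_zero, Nat.factorial]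
  norm_num

lemma t4_exp_c : rexp (-0.33) ≤ 1.37⁻¹ := by
  rw [Real.exp_neg]
  apply inv_anti₀ (by norm_num)
  have := Real.quadratic_le_exp_of_nonneg (show (0 : ℝ) ≤ 0.33 by norm_num)
  norm_num at this ⊢
  linarith

lemma t4_isq_le (n : ℕ) {s : ℂ} (hs : 1 ≤ s.re) : ‖isq s ^ n‖ ≤ (s.re ^ 2) ^ (-mh n) := by
  rw [norm_isq_pow n (by linarith), ← Real.rpow_natCast, ← Real.rpow_mul (by linarith)]
  have h1 := Complex.re_le_norm s
  have h2 := (mh_le n).2
  have h3 : (0 : ℝ) ≤ n := Nat.cast_nonneg n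
  calc ‖s‖ ^ (-(n : ℝ) / 2) ≤ s.re ^ (-(n : ℝ) / 2) :=
        Real.rpow_le_rpow_of_nonpos (by linarith) h1 (by linarith)
    _ ≤ _ := Real.rpow_le_rpow_of_exponent_le hs (by push_cast; linarith)

lemma t4_Del_arg {z : ℂ} (hz : 1 ≤ z.re) : z.re ^ 2 + 1 ≤ z.re * (‖z‖ + ‖z‖⁻¹) := by
  have h1 := Complex.re_le_norm z
  have h2 : 0 < ‖z‖ := by linarith
  rw [← sub_nonneg]
  have e : z.re * (‖z‖ + ‖z‖⁻¹) - (z.re ^ 2 + 1) = (‖z‖ - z.re) * (z.re * ‖z‖ - 1) / ‖z‖ := by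
    field_simp; ring
  rw [e]
  exact div_nonneg (mul_nonneg (by linarith) (by nlinarith)) h2.le

lemma t4_Mr_arg {z z' : ℂ} (hz : 1 ≤ z.re) (hz' : 1 ≤ z'.re) {c : ℝ}
    (hc : ∀ P : ℝ, z.re * z'.re ≤ P → c * (4 * P) ≤ (P + 1) ^ 2) :
    c * (4 * z.re * z'.re) ≤
      ‖z‖ * ‖z'‖ * (z.re + z'.re / ‖z'‖ ^ 2) * (z'.re + z.re / ‖z‖ ^ 2) := by
  have h1 := Complex.re_le_norm z
  have h1' := Complex.re_le_norm z'
  have h2 : 0 < ‖z‖ := by linarith
  have h2' : 0 < ‖z'‖ := by linarith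
  have h3 := hc (‖z‖ * ‖z'‖) (mul_le_mul h1 h1' (by linarith) h2.le)
  generalize ‖z‖ = a at *
  generalize ‖z'‖ = b at *
  generalize z.re = t at *
  generalize z'.re = t' at *
  have e : a * b * (t + t' / b ^ 2) * (t' + t / a ^ 2) =
      (t * t' * (a * b + 1) ^ 2 + (t * b - t' * a) ^ 2) / (a * b) := by
    field_simp; ring
  rw [e, le_div_iff₀ (by positivity)]
  have h4 := mul_le_mul_of_nonneg_left h3 (by positivity : 0 ≤ t * t')
  nlinarith [sq_nonneg (t * b - t' * a)]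

lemma t4_four_le (n : ℕ) {τ τ' : ℝ} (h1 : 1 ≤ τ) (h1' : 1 ≤ τ') :
    (4 * τ * τ') ^ (-mh n) ≤ (0.981 : ℝ) ^ (-mh n) * (Nz n τ * Nz n τ') := by
  refine t2_le_NN n (by linarith) (by linarith) (by norm_num) ?_
  have a1 := t2_Lz τ
  have a2 := t2_Lz τ'
  have a3 : Lz τ * Lz τ' ≤ 1.0095 * 1.0095 := mul_le_mul a1.2 a2.2 (by linarith) (by norm_num)
  have := mul_le_mul_of_nonneg_left a3 (by positivity : 0 ≤ 4 * τ * τ')
  have : 0 ≤ 4 * τ * τ' := by positivity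
  nlinarith

/-- the diagonal pairs -/
theorem diag_pairs : ∀ᶠ n : ℕ in atTop, ∀ᶠ ω in 𝓝[>] (0 : ℝ),
    ∀ (W : Submodule ℝ (Ev (n / 2))) (D : ℝ) (H : Xs (n / 2) → ℝ), Adm n ω W D 1 →
      D ≤ ω⁻¹ ^ (MM n + 2) → InvW W H → ∀ z z' : ℂ, Adz z → Adz z' →
      ‖∑ k ∈ (Kn n ω).filter (fun k => iv k ∉ W),
          ∫ x, (H x : ℂ) * (Pz n ω W z k x * starRingEnd ℂ (Pz n ω W z' k x)) ∂PP (n / 2) -
        (isq (z + starRingEnd ℂ z') ^ n + Del n ω (z + starRingEnd ℂ z')) *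
          (∫ x, H x ∂PP (n / 2) : ℝ)‖ ≤
        2 * (∫ x, H x ∂PP (n / 2)) * Err n ω W D * (Nz n z.re * Nz n z'.re) +
          ∫ x, H x * ‖Mir n ω W (z + starRingEnd ℂ z') x‖ ∂PP (n / 2) := by
  exact t4_diag_pairs

/-- conditional second moment -/
theorem second_moment : ∀ᶠ n : ℕ in atTop, ∀ᶠ ω in 𝓝[>] (0 : ℝ),
    ∀ (W : Submodule ℝ (Ev (n / 2))) (D : ℝ) (H : Xs (n / 2) → ℝ), Adm n ω W D 1 →
      D ≤ ω⁻¹ ^ (MM n + 2) → InvW W H → ∀ z z' : ℂ, Adz z → Adz z' →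
      ‖∫ x, (H x : ℂ) * (Osc n ω W z x * starRingEnd ℂ (Osc n ω W z' x)) ∂PP (n / 2) -
        KK n ω z z' * (∫ x, H x ∂PP (n / 2) : ℝ)‖ ≤
        6 * (∫ x, H x ∂PP (n / 2)) * Err n ω W D * (Nz n z.re * Nz n z'.re) +
          2 * ∫ x, H x * ‖Mir n ω W (z + starRingEnd ℂ z') x‖ ∂PP (n / 2) := by
  filter_upwards [par_pairs, indep_pairs, diag_pairs] with n hpar hind hdiag
  filter_upwards [hpar, hind, hdiag, self_mem_nhdsWithin] with ω hpar hind hdiag hω W D H hW hDω hH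
    z z' hz hz'
  have hω : 0 < ω := hω
  have hz0 : 0 < z.re := by linarith [(t2_adz hz).1]
  have hz0' : 0 < z'.re := by linarith [(t2_adz hz').1]
  have h1 := hpar W D H hW hDω hH z z' hz hz'
  have h2 := hind W D H hW hDω hH z z' hz hz'
  have h3 := hdiag W D H hW hDω hH z z' hz hz'
  set f : Zv (n / 2) → Zv (n / 2) → ℂ := fun k k' =>
    ∫ x, (H x : ℂ) * (Pz n ω W z k x * starRingEnd ℂ (Pz n ω W z' k' x)) ∂PP (n / 2) with hf
  have hI : ∀ k k', Integrable (fun x => (H x : ℂ) *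
      (Pz n ω W z k x * starRingEnd ℂ (Pz n ω W z' k' x))) (PP (n / 2)) := fun k k' => by
    have c1 := continuous_Pz n hω W hz0 k
    have c2 := continuous_Pz n hω W hz0' k'
    exact t2_int_mulC hH (t2_int_cont (by fun_prop))
  have e1 : ∫ x, (H x : ℂ) * (Osc n ω W z x * starRingEnd ℂ (Osc n ω W z' x)) ∂PP (n / 2) =
      ∑ k ∈ (Kn n ω).filter (fun k => iv k ∉ W), ∑ k' ∈ (Kn n ω).filter (fun k => iv k ∉ W),
        f k k' := by
    simp only [Osc, map_sum, Finset.sum_mul_sum]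
    simp only [Finset.mul_sum]
    rw [integral_finsetSum _ fun k _ => integrable_finsetSum _ fun k' _ => hI k k']
    exact Finset.sum_congr rfl fun k _ => integral_finsetSum _ fun k' _ => hI k k'
  have e2 : ∀ k ∈ (Kn n ω).filter (fun k => iv k ∉ W),
      ∑ k' ∈ (Kn n ω).filter (fun k => iv k ∉ W), f k k' =
      ∑ k' ∈ (Kn n ω).filter (fun k' => iv k' ∉ ext W k), f k k' + 2 * f k k +
        ∑ k' ∈ (Kn n ω).filter (fun k' => iv k' ∉ W ∧ iv k' ∈ ext W k ∧ k' ≠ k ∧ k' ≠ -k),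
          f k k' := by
    intro k hkA
    obtain ⟨hkK, hk⟩ := Finset.mem_filter.1 hkA
    have hneg : f k (-k) = f k k := by simp only [hf, Pz_neg]
    rw [t4_sum_split hω W hkK hk, hneg]
    ring
  rw [e1, Finset.sum_congr rfl e2, Finset.sum_add_distrib, Finset.sum_add_distrib,
    ← Finset.mul_sum]
  have h4 : ‖∑ k ∈ (Kn n ω).filter (fun k => iv k ∉ W),
      ∑ k' ∈ (Kn n ω).filter (fun k' => iv k' ∉ W ∧ iv k' ∈ ext W k ∧ k' ≠ k ∧ k' ≠ -k), f k k'‖ ≤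
      (∫ x, H x ∂PP (n / 2)) * Err n ω W D * (Nz n z.re * Nz n z'.re) :=
    (norm_sum_le_of_le _ fun k _ => norm_sum_le _ _).trans h1
  unfold KK
  change ‖∑ k ∈ _, ∑ k' ∈ _, f k k' - _‖ ≤ _ at h2
  change ‖∑ k ∈ _, f k k - _‖ ≤ _ at h3
  generalize (∑ k ∈ (Kn n ω).filter (fun k => iv k ∉ W),
      ∑ k' ∈ (Kn n ω).filter (fun k' => iv k' ∉ W ∧ iv k' ∈ ext W k ∧ k' ≠ k ∧ k' ≠ -k), f k k') =
    T1 at h4 ⊢
  generalize (∑ k ∈ (Kn n ω).filter (fun k => iv k ∉ W),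
      ∑ k' ∈ (Kn n ω).filter (fun k' => iv k' ∉ ext W k), f k k') = T2 at h2 ⊢
  generalize (∑ k ∈ (Kn n ω).filter (fun k => iv k ∉ W), f k k) = T3 at h3 ⊢
  generalize ((∫ x, H x ∂PP (n / 2) : ℝ) : ℂ) = E at h2 h3 ⊢
  generalize isq (z + starRingEnd ℂ z') ^ n = a at h3 ⊢
  generalize Del n ω (z + starRingEnd ℂ z') = b at h3 ⊢
  have e : T2 + 2 * T3 + T1 - (2 * a + 2 * b + Del n ω z * starRingEnd ℂ (Del n ω z') +
      Mr n ω z z') * E = (T2 - (Del n ω z * starRingEnd ℂ (Del n ω z') + Mr n ω z z') * E) +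
      (T3 - (a + b) * E) + (T3 - (a + b) * E) + T1 := by ring
  rw [e]
  have := norm_add₄_le (a := T2 - (Del n ω z * starRingEnd ℂ (Del n ω z') + Mr n ω z z') * E)
    (b := T3 - (a + b) * E) (c := T3 - (a + b) * E) (d := T1)
  linarith

theorem KK_le : ∀ᶠ n : ℕ in atTop, ∀ᶠ ω in 𝓝[>] (0 : ℝ), ∀ z z' : ℂ, Adz z → Adz z' →
    ‖KK n ω z z'‖ ≤ rexp (0.005 * n) * (Nz n z.re * Nz n z'.re) := by
  filter_upwards [Del_le, Mr_le, t2_growth 70 0 (R := 0.981) (by norm_num) (by norm_num)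
    (by norm_num : (0.0199 : ℝ) < 4 * 0.005) t4_exp_a] with n hDel hMr hgr
  filter_upwards [hDel, hMr] with ω hDel hMr z z' hz hz'
  obtain ⟨a1, a2⟩ := t2_adz hz
  obtain ⟨b1, b2⟩ := t2_adz hz'
  have hre := t4_re z z'
  set s := z + starRingEnd ℂ z' with hs
  have y0 : 0 < 4 * z.re * z'.re := by positivity
  have y1 : 4 * z.re * z'.re ≤ s.re ^ 2 := by rw [hre]; nlinarith [sq_nonneg (z.re - z'.re)]
  have p1 : ‖isq s ^ n‖ ≤ (4 * z.re * z'.re) ^ (-mh n) :=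
    (t4_isq_le n (by linarith)).trans (t2_rpow_anti n y0 y1)
  have p2 : ‖Del n ω s‖ ≤ 6 * (4 * z.re * z'.re) ^ (-mh n) :=
    (hDel s (by linarith) (by linarith)).trans (mul_le_mul_of_nonneg_left
      (t2_rpow_anti n y0 (by linarith [t4_Del_arg (z := s) (by linarith)])) (by norm_num))
  have p3 : ∀ w : ℂ, 1 ≤ w.re → w.re ≤ 4 → ‖Del n ω w‖ ≤ 6 * (2 * w.re) ^ (-mh n) := fun w c1 c2 =>
    (hDel w c1 c2).trans (mul_le_mul_of_nonneg_left
      (t2_rpow_anti n (by linarith) (by nlinarith [t4_Del_arg c1, sq_nonneg (w.re - 1)]))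
      (by norm_num))
  have p4 : ‖Del n ω z * starRingEnd ℂ (Del n ω z')‖ ≤ 36 * (4 * z.re * z'.re) ^ (-mh n) := by
    rw [norm_mul, Complex.norm_conj]
    refine (mul_le_mul (p3 z a1 (by linarith)) (p3 z' b1 (by linarith)) (norm_nonneg _)
      (by positivity)).trans (le_of_eq ?_)
    rw [show 4 * z.re * z'.re = (2 * z.re) * (2 * z'.re) by ring,
      Real.mul_rpow (x := 2 * z.re) (by linarith) (by linarith)]
    ring
  have p5 : ‖Mr n ω z z'‖ ≤ 20 * (4 * z.re * z'.re) ^ (-mh n) :=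
    (hMr z z' hz hz').trans (mul_le_mul_of_nonneg_left (t2_rpow_anti n y0
      (by simpa using t4_Mr_arg a1 b1 (c := 1) (fun P hP => by nlinarith [sq_nonneg (P - 1)])))
      (by norm_num))
  have p6 := t4_four_le n a1 b1
  have N1 := t2_Nz_pos n (by linarith : 0 < z.re)
  have N2 := t2_Nz_pos n (by linarith : 0 < z'.re)
  have p7 := mul_le_mul_of_nonneg_right hgr (by positivity : 0 ≤ Nz n z.re * Nz n z'.re)
  unfold KK
  have p8 := norm_add₄_le (a := 2 * isq s ^ n) (b := 2 * Del n ω s)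
    (c := Del n ω z * starRingEnd ℂ (Del n ω z')) (d := Mr n ω z z')
  rw [norm_mul 2, norm_mul 2, Complex.norm_two] at p8
  simp only [pow_zero, mul_one] at p7
  rw [← hs]
  linarith

/-- the covariance is the white one up to a small mirror term -/
theorem KK_sub_le : ∀ᶠ n : ℕ in atTop, ∀ᶠ ω in 𝓝[>] (0 : ℝ), ∀ z z' : ℂ, Adz z → Adz z' →
    ‖KK n ω z z' - Del n ω z * starRingEnd ℂ (Del n ω z') - 2 * isq (z + starRingEnd ℂ z') ^ n‖ ≤
      (if z.re ≤ 1.1 ∧ z'.re ≤ 1.1 then 20 * (1 + z.re * z'.re) ^ (-2 * mh n) else 0) +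
        rexp (-0.0005 * n) * (Nz n z.re * Nz n z'.re) := by
  filter_upwards [Del_le, Mr_le, t2_decay 32 0 (R := 1.0022) (by norm_num) (by norm_num)
    (by norm_num : 4 * (0.0005 : ℝ) < 0.0021) t4_exp_b] with n hDel hMr hdec
  filter_upwards [hDel, hMr] with ω hDel hMr z z' hz hz'
  obtain ⟨a1, a2⟩ := t2_adz hz
  obtain ⟨b1, b2⟩ := t2_adz hz'
  have hre := t4_re z z'
  set s := z + starRingEnd ℂ z' with hs
  have e : KK n ω z z' - Del n ω z * starRingEnd ℂ (Del n ω z') - 2 * isq s ^ n =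
      2 * Del n ω s + Mr n ω z z' := by unfold KK; ring
  have N1 := t2_Nz_pos n (by linarith : 0 < z.re)
  have N2 := t2_Nz_pos n (by linarith : 0 < z'.re)
  have L1 := t2_Lz z.re
  have L2 := t2_Lz z'.re
  have L3 : Lz z.re * Lz z'.re ≤ 1.0095 * 1.0095 := mul_le_mul L1.2 L2.2 (by linarith) (by norm_num)
  have t1 : 1 ≤ z.re * z'.re := by nlinarith
  have t2 : z.re * z'.re ≤ 1.55 * 1.55 := mul_le_mul a2 b2 (by linarith) (by norm_num)
  have p0 : (1.0022 : ℝ) * (4 * z.re * z'.re * (Lz z.re * Lz z'.re)) ≤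
      s.re * (‖s‖ + ‖s‖⁻¹) := by
    refine le_trans ?_ (t4_Del_arg (by linarith))
    have y1 : 4 * (z.re * z'.re) ≤ s.re ^ 2 := by rw [hre]; nlinarith [sq_nonneg (z.re - z'.re)]
    have := mul_le_mul_of_nonneg_left L3 (by linarith : 0 ≤ z.re * z'.re)
    nlinarith
  have p1 : ‖Del n ω s‖ ≤ 6 * ((1.0022 : ℝ) ^ (-mh n) * (Nz n z.re * Nz n z'.re)) :=
    (hDel s (by linarith) (by linarith)).trans (mul_le_mul_of_nonneg_left
      (t2_le_NN n (by linarith) (by linarith) (by norm_num) p0) (by norm_num))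
  have p2 := mul_le_mul_of_nonneg_right hdec (by positivity : 0 ≤ Nz n z.re * Nz n z'.re)
  simp only [pow_zero, mul_one] at p2
  have p3 : 0 ≤ (1.0022 : ℝ) ^ (-mh n) * (Nz n z.re * Nz n z'.re) := by positivity
  have p4 := hMr z z' hz hz'
  rw [e]
  refine (norm_add_le _ _).trans ?_
  rw [norm_mul, Complex.norm_two]
  split_ifs with hc
  · have r1 := t2_adz_real hz (by linarith [hc.1])
    have r2 := t2_adz_real hz' (by linarith [hc.2])
    rw [r1, r2] at p4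
    have e2 : z.re * z'.re * (z.re + z'.re / z'.re ^ 2) * (z'.re + z.re / z.re ^ 2) =
        (1 + z.re * z'.re) ^ 2 := by field_simp; ring
    have e3 : ((1 + z.re * z'.re) ^ 2) ^ (-mh n) = (1 + z.re * z'.re) ^ (-2 * mh n) := by
      rw [← Real.rpow_natCast, ← Real.rpow_mul (by positivity)]
      congr 1; push_cast; ring
    rw [e2, e3] at p4
    linarith
  · have p5 : ‖Mr n ω z z'‖ ≤ 20 * ((1.0022 : ℝ) ^ (-mh n) * (Nz n z.re * Nz n z'.re)) := by
      refine p4.trans (mul_le_mul_of_nonneg_left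
        (t2_le_NN n (by linarith) (by linarith) (by norm_num) ?_) (by norm_num))
      have := t4_Mr_arg a1 b1 (c := 1.0022 * (Lz z.re * Lz z'.re)) fun P hP => by
        have q1 : 1.1 ≤ P := by
          rcases not_and_or.1 hc with h | h <;> nlinarith [not_le.1 h]
        rcases t2_Lz_cases z.re with ⟨c1, c2⟩ | ⟨c1, c2⟩ <;>
          rcases t2_Lz_cases z'.re with ⟨c3, c4⟩ | ⟨c3, c4⟩ <;> rw [c2, c4]
        · nlinarith
        · have : 1.38 ≤ P := by nlinarith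
          nlinarith
        · have : 1.38 ≤ P := by nlinarith
          nlinarith
        · have : 1.38 ≤ P := by nlinarith
          nlinarith
      linarith
    linarith

theorem Del_le' : ∀ᶠ n : ℕ in atTop, ∀ᶠ ω in 𝓝[>] (0 : ℝ), ∀ z : ℂ, Adz z →
    ‖Del n ω z‖ ≤ (if z.re ≤ 1.1 then 6 * (z.re ^ 2 + 1) ^ (-mh n) else 0) +
      rexp (-0.0005 * n) * Nz n z.re := by
  filter_upwards [Del_le, t2_decay 6 0 (R := 1.0022) (by norm_num) (by norm_num)
    (by norm_num : 4 * (0.0005 : ℝ) < 0.0021) t4_exp_b] with n hDel hdec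
  filter_upwards [hDel] with ω hDel z hz
  obtain ⟨a1, a2⟩ := t2_adz hz
  have N1 := t2_Nz_pos n (by linarith : 0 < z.re)
  have p1 := hDel z a1 (by linarith)
  have p2 := mul_le_mul_of_nonneg_right hdec N1.le
  simp only [pow_zero, mul_one] at p2
  have p3 := t4_Del_arg a1
  split_ifs with hc
  · have := t2_rpow_anti n (by positivity) p3
    have : 0 ≤ rexp (-0.0005 * n) * Nz n z.re := by positivity
    linarith
  · have p4 : (1.0022 : ℝ) * (2 * z.re * Lz z.re) ≤ z.re * (‖z‖ + ‖z‖⁻¹) := by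
      refine le_trans ?_ p3
      have hc := not_le.1 hc
      rcases t2_Lz_cases z.re with ⟨c1, c2⟩ | ⟨c1, c2⟩ <;> rw [c2] <;> nlinarith
    have := t2_le_N n (by linarith) (by norm_num) p4
    linarith

/-- crude conditional second moment -/
theorem second_moment_crude : ∀ᶠ n : ℕ in atTop, ∀ᶠ ω in 𝓝[>] (0 : ℝ),
    ∀ (W : Submodule ℝ (Ev (n / 2))) (D : ℝ) (H : Xs (n / 2) → ℝ), Adm n ω W D 1 →
      D ≤ ω⁻¹ ^ (MM n + 2) → InvW W H → ∀ z : ℂ, Adz z →
      ∫ x, H x * ‖Osc n ω W z x‖ ^ 2 ∂PP (n / 2) ≤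
        (∫ x, H x ∂PP (n / 2)) * (D ^ 3 * rexp (0.05 * n) * Nz n z.re ^ 2) := by
  filter_upwards [second_moment, KK_le, Mir_le, t2_Env,
    t2_growth 6 3 (R := 0.981) (by norm_num) (by norm_num)
      (by norm_num : (0.0199 : ℝ) < 4 * 0.05) t4_exp_a,
    t2_growth 36000 2 (R := 1.37⁻¹) (by norm_num) (by norm_num)
      (by norm_num : (0.33 : ℝ) < 4 * 0.0892) t4_exp_c,
    En_pow_le 39 0 (by norm_num : (0 : ℝ) < 0.045), eventually_ge_atTop 1]
    with n hsec hKK hMir hEnv hg1 hg2 hg3 hn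
  filter_upwards [hsec, hKK, hMir, self_mem_nhdsWithin] with ω hsec hKK hMir hω W D H hW hDω hH z hz
  have hω : 0 < ω := hω
  obtain ⟨a1, a2⟩ := t2_adz hz
  have hn1 : (1 : ℝ) ≤ n := by exact_mod_cast hn
  have hD := hW.one_le
  have hE := one_le_En n
  have hEH := t2_EH_nonneg hH
  have N1 := t2_Nz_pos n (by linarith : 0 < z.re)
  have h1 := hsec W D H hW hDω hH z z hz hz
  have h2 := hKK z z hz hz
  have hre := t4_re z z
  have e1 : ∫ x, (H x : ℂ) * (Osc n ω W z x * starRingEnd ℂ (Osc n ω W z x)) ∂PP (n / 2) =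
      ((∫ x, H x * ‖Osc n ω W z x‖ ^ 2 ∂PP (n / 2) : ℝ) : ℂ) := by
    rw [← integral_complex_ofReal]
    simp only [Complex.mul_conj', Complex.ofReal_mul, Complex.ofReal_pow]
  rw [e1] at h1
  have hD3 : 1 ≤ D ^ 3 := one_le_pow₀ hD
  have hD1 : D ≤ D ^ 3 := le_self_pow₀ hD (by norm_num)
  have hD2 : D * D ≤ D ^ 3 := by nlinarith
  have hM := hMir W D hW (z + starRingEnd ℂ z) (by linarith) (by linarith)
  have q1 : ∫ x, H x * ‖Mir n ω W (z + starRingEnd ℂ z) x‖ ∂PP (n / 2) ≤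
      (∫ x, H x ∂PP (n / 2)) * (D ^ 3 * rexp (0.05 * n) * Nz n z.re ^ 2 / 6) := by
    rw [← integral_mul_const]
    refine integral_mono (t2_int_mul hH (t4_int_Mir hM)) (hH.integrable.mul_const _) fun x =>
      mul_le_mul_of_nonneg_left ((hM x).trans ?_) (hH.nonneg x)
    have r1 : 4 * z.re * z.re ≤ (z + starRingEnd ℂ z).re * min ‖z + starRingEnd ℂ z‖ 5 := by
      have r2 : (z + starRingEnd ℂ z).re ≤ min ‖z + starRingEnd ℂ z‖ 5 :=
        le_min (Complex.re_le_norm _) (by linarith)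
      nlinarith
    have r3 := (t2_rpow_anti n (by positivity) r1).trans (t4_four_le n a1 a1)
    have r4 : (1 : ℝ) ≤ (n : ℝ) ^ 3 := one_le_pow₀ hn1
    have r5 : 6 * En n ^ 3 * (0.981 : ℝ) ^ (-mh n) ≤ rexp (0.05 * n) := by
      refine le_trans ?_ hg1
      have : 0 ≤ 6 * En n ^ 3 * (0.981 : ℝ) ^ (-mh n) := by positivity
      nlinarith
    calc _ ≤ D * En n ^ 3 * ((0.981 : ℝ) ^ (-mh n) * (Nz n z.re * Nz n z.re)) :=
          mul_le_mul_of_nonneg_left r3 (by positivity)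
      _ = D * (6 * En n ^ 3 * (0.981 : ℝ) ^ (-mh n)) * Nz n z.re ^ 2 / 6 := by ring
      _ ≤ _ := by gcongr
  simp only [pow_zero, mul_one] at hg3
  have x1 : rexp (0.05 * n) = rexp (0.005 * n) * rexp (0.045 * n) := by
    rw [← Real.exp_add]; congr 1; ring
  have x2 : 1 ≤ rexp (0.005 * n) := Real.one_le_exp (by positivity)
  have x3 : 39 * rexp (0.005 * n) ≤ rexp (0.05 * n) := by rw [x1]; nlinarith
  have q2 : 6 * Err n ω W D ≤ D ^ 3 * rexp (0.05 * n) / 3 := by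
    have r1 := Sh_le_th (n := n) hω W
    have r2 := hW.th_le (1 / 1000) (by norm_num)
    rw [hEnv _ le_rfl] at r2
    have r3 : (1.37⁻¹ : ℝ) ^ (-mh n) = (1.37 : ℝ) ^ mh n := by
      rw [Real.inv_rpow (by norm_num), Real.rpow_neg (by norm_num), inv_inv]
    rw [r3] at hg2
    have r4 : (1 : ℝ) ≤ (n : ℝ) ^ 2 := one_le_pow₀ hn1
    have r5 : 36000 * En n ^ 2 * (1.37 : ℝ) ^ mh n ≤ rexp (0.0892 * n) := by
      refine le_trans ?_ hg2
      have : 0 ≤ 36000 * En n ^ 2 * (1.37 : ℝ) ^ mh n := by positivity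
      nlinarith
    have r6 : rexp (-0.0392 * n) * rexp (0.0892 * n) = rexp (0.05 * n) := by
      rw [← Real.exp_add]; congr 1; ring
    have r7 : rexp (-0.0392 * n) ≤ 1 := Real.exp_le_one_iff.2 (by linarith)
    have r8 : Sh n ω W ≤ 1000 * (1.37 : ℝ) ^ mh n * (D * En n ^ 2) :=
      r1.trans (mul_le_mul_of_nonneg_left r2 (by positivity))
    have r9 : rexp (-0.0392 * n) * (D * Sh n ω W) ≤ D ^ 3 * rexp (0.05 * n) / 36 := by
      calc _ ≤ rexp (-0.0392 * n) * (D * (1000 * (1.37 : ℝ) ^ mh n * (D * En n ^ 2))) := by gcongr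
        _ = D * D * (rexp (-0.0392 * n) * (36000 * En n ^ 2 * (1.37 : ℝ) ^ mh n)) / 36 := by ring
        _ ≤ D ^ 3 * (rexp (-0.0392 * n) * rexp (0.0892 * n)) / 36 := by gcongr
        _ = _ := by rw [r6]
    have r10 : rexp (-0.0392 * n) * D ^ 3 ≤ D ^ 3 * rexp (0.05 * n) / 36 := by
      have : rexp (-0.0392 * n) ≤ rexp (0.05 * n) / 36 := by linarith
      calc _ ≤ rexp (0.05 * n) / 36 * D ^ 3 := by gcongr
        _ = _ := by ring
    unfold Err
    linarith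
  have q3 : ‖KK n ω z z‖ ≤ D ^ 3 * rexp (0.05 * n) * Nz n z.re ^ 2 / 3 := by
    refine h2.trans ?_
    have : rexp (0.005 * n) ≤ D ^ 3 * rexp (0.05 * n) / 3 := by nlinarith
    calc _ ≤ D ^ 3 * rexp (0.05 * n) / 3 * (Nz n z.re * Nz n z.re) := by gcongr
      _ = _ := by ring
  have q4 := norm_le_insert' (((∫ x, H x * ‖Osc n ω W z x‖ ^ 2 ∂PP (n / 2) : ℝ) : ℂ))
    (KK n ω z z * (∫ x, H x ∂PP (n / 2) : ℝ))
  rw [norm_mul, Complex.norm_real, Complex.norm_real, Real.norm_of_nonneg hEH,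
    Real.norm_eq_abs] at q4
  have q5 := mul_le_mul_of_nonneg_right q3 hEH
  have q6 := mul_le_mul_of_nonneg_left q2
    (by positivity : 0 ≤ (∫ x, H x ∂PP (n / 2)) * (Nz n z.re * Nz n z.re))
  have q7 := le_abs_self (∫ x, H x * ‖Osc n ω W z x‖ ^ 2 ∂PP (n / 2))
  nlinarith

end Pool.Agent.Eps
end
end
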