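import Pool.Agent.Lib.MP_3bda03_nt.SigC
import Pool.Agent.Lib.MP_3bda03_nt.SigA
import Pool.Agent.Lib.MP_3bda03_nt.T4
import Pool.Agent.Lib.MP_3bda03_nt.TestA

-- part Pool.Agent.Lib.MP_3bda03_nt.SigD
section

/-!
The part of the noise carried by the span of a nice set.
-/

set_option autoImplicit false

noncomputable section

open scoped BigOperators Classical Topology
open MeasureTheory Real Complex Filter

namespace Pool.Agent.Eps

theorem sg_ft_amgm (β b ρ : ℝ) {l : ℝ} (hl : 0 < l) :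
    ft β ρ ≤ l / 2 * ft (2 * β - b) ρ + l⁻¹ / 2 * ft b ρ := by
  have e1 : ft β ρ = ft (β - b / 2) ρ * ft (b / 2) ρ := by
    unfold ft
    rw [← Real.exp_add]
    congr 1
    ring
  have e2 : ft (2 * β - b) ρ = ft (β - b / 2) ρ ^ 2 := by
    unfold ft
    rw [sq, ← Real.exp_add]
    congr 1
    ring
  have e3 : ft b ρ = ft (b / 2) ρ ^ 2 := by
    unfold ft
    rw [sq, ← Real.exp_add]
    congr 1
    ring
  rw [e1, e2, e3]
  set p := ft (β - b / 2) ρ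
  set q := ft (b / 2) ρ
  have h : l / 2 * p ^ 2 + l⁻¹ / 2 * q ^ 2 - p * q = (l * p - q) ^ 2 / (2 * l) := by
    field_simp
    ring
  have : 0 ≤ (l * p - q) ^ 2 / (2 * l) := by positivity
  linarith

/-- Cauchy-Schwarz for restricted theta series -/
theorem sg_V_sq {m r : ℕ} {ω β b C : ℝ} (hω : 0 < ω) (hb : 0 < b) (hβ : b < 2 * β) (hC : 0 < C)
    (P : Zv m → Prop) [DecidablePred P] (x : Xs m)
    (h : (∑' κ : Zv m, if P κ then FS r ω (ft b) κ x else 0) ≤ C) :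
    (∑' κ : Zv m, if P κ then FS r ω (ft β) κ x else 0) ^ 2 ≤
      C * ∑' κ : Zv m, if P κ then FS r ω (ft (2 * β - b)) κ x else 0 := by
  have hβ0 : 0 < β := by linarith
  have hβ1 : 0 < 2 * β - b := by linarith
  have hF : ∀ l : ℝ, 0 < l → ∀ κ : Zv m, FS r ω (ft β) κ x ≤
      l / 2 * FS r ω (ft (2 * β - b)) κ x + l⁻¹ / 2 * FS r ω (ft b) κ x := by
    intro l hl κ
    have s1 := (summable_ft (r := r) hω hβ1 x κ).mul_left (l / 2)
    have s2 := (summable_ft (r := r) hω hb x κ).mul_left (l⁻¹ / 2)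
    unfold FS
    rw [← tsum_mul_left, ← tsum_mul_left, ← s1.tsum_add s2]
    exact Summable.tsum_le_tsum (fun jl => sg_ft_amgm _ _ _ hl) (summable_ft hω hβ0 x κ)
      (s1.add s2)
  have hV : ∀ l : ℝ, 0 < l → (∑' κ : Zv m, if P κ then FS r ω (ft β) κ x else 0) ≤
      l / 2 * (∑' κ : Zv m, if P κ then FS r ω (ft (2 * β - b)) κ x else 0) +
        l⁻¹ / 2 * ∑' κ : Zv m, if P κ then FS r ω (ft b) κ x else 0 := by
    intro l hl
    have s1 := (sg_summable_V (r := r) hω hβ1 P x).mul_left (l / 2)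
    have s2 := (sg_summable_V (r := r) hω hb P x).mul_left (l⁻¹ / 2)
    rw [← tsum_mul_left, ← tsum_mul_left, ← s1.tsum_add s2]
    refine Summable.tsum_le_tsum (fun κ => ?_) (sg_summable_V hω hβ0 P x) (s1.add s2)
    split_ifs
    · exact hF l hl κ
    · simp
  have h0 := sg_V_nonneg (r := r) ω β P x
  have h1 := sg_V_nonneg (r := r) ω (2 * β - b) P x
  set X := ∑' κ : Zv m, if P κ then FS r ω (ft β) κ x else 0
  set Y := ∑' κ : Zv m, if P κ then FS r ω (ft (2 * β - b)) κ x else 0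
  set Z := ∑' κ : Zv m, if P κ then FS r ω (ft b) κ x else 0
  rcases h0.eq_or_lt with h0 | h0
  · rw [← h0]
    have := mul_nonneg hC.le h1
    linarith
  · have h2 := hV (C / X) (by positivity)
    have h3 : (C / X)⁻¹ / 2 * Z ≤ X / 2 := by
      refine (mul_le_mul_of_nonneg_left h (by positivity)).trans (le_of_eq ?_)
      field_simp
    have h4 : X / 2 ≤ C / X / 2 * Y := by linarith
    have h5 := mul_le_mul_of_nonneg_left h4 (show 0 ≤ 2 * X by positivity)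
    have e1 : 2 * X * (C / X / 2 * Y) = C * Y := by field_simp
    rw [e1] at h5
    linarith

theorem sg_cutG_nonneg (n : ℕ) (ρ : ℝ) : 0 ≤ cutG n ρ := by
  unfold cutG
  split_ifs
  · exact (Real.exp_pos _).le
  · exact le_rfl

theorem sg_cutG_le (n : ℕ) {b : ℝ} (hb : b ≤ 2 / 3) (ρ : ℝ) :
    cutG n ρ ≤ rexp (π * b * rho1 n) * ft b ρ := by
  unfold cutG ft
  split_ifs with h
  · rw [← Real.exp_add]
    refine Real.exp_le_exp.2 ?_
    nlinarith [mul_nonneg (mul_nonneg Real.pi_pos.le (sub_nonneg.2 hb)) (sub_nonneg.2 h)]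
  · positivity

theorem sg_ft_le_cutG (n : ℕ) {s ρ : ℝ} (hs : 2 / 3 ≤ s) (h : rho1 n ≤ ρ) :
    ft s ρ ≤ ft s (rho1 n) * cutG n ρ := by
  unfold cutG ft
  rw [if_pos h, ← Real.exp_add]
  refine Real.exp_le_exp.2 ?_
  nlinarith [mul_nonneg (mul_nonneg Real.pi_pos.le (sub_nonneg.2 hs)) (sub_nonneg.2 h)]

theorem sg_FS_cutG {m r : ℕ} (n : ℕ) {ω b : ℝ} (hω : 0 < ω) (hb0 : 0 < b) (hb : b ≤ 2 / 3)
    (k : Zv m) (x : Xs m) :
    (Summable fun jl : Zv r × Zv m => cutG n (rho ω x k jl)) ∧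
      FS r ω (cutG n) k x ≤ rexp (π * b * rho1 n) * FS r ω (ft b) k x := by
  have h := FS_le_of_le (r := r) hω hb0 (φ := cutG n) (C := rexp (π * b * rho1 n))
    (fun ρ _ => by rw [abs_of_nonneg (sg_cutG_nonneg n ρ)]; exact sg_cutG_le n hb ρ) x k
  exact ⟨h.1, (le_abs_self _).trans h.2⟩

theorem sg_U {m r : ℕ} (n : ℕ) {ω b : ℝ} (hω : 0 < ω) (hb0 : 0 < b) (hb : b ≤ 2 / 3)
    (P : Zv m → Prop) [DecidablePred P] (x : Xs m) :
    (Summable fun κ : Zv m => if P κ then FS r ω (cutG n) κ x else 0) ∧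
      (∑' κ : Zv m, if P κ then FS r ω (cutG n) κ x else 0) ≤
        rexp (π * b * rho1 n) * ∑' κ : Zv m, if P κ then FS r ω (ft b) κ x else 0 := by
  have s1 := (sg_summable_V (r := r) hω hb0 P x).mul_left (rexp (π * b * rho1 n))
  have hpt : ∀ κ : Zv m, (if P κ then FS r ω (cutG n) κ x else 0) ≤
      rexp (π * b * rho1 n) * if P κ then FS r ω (ft b) κ x else 0 := by
    intro κ
    split_ifs
    · exact (sg_FS_cutG n hω hb0 hb κ x).2
    · simp
  have s2 : Summable fun κ : Zv m => if P κ then FS r ω (cutG n) κ x else 0 := by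
    refine Summable.of_nonneg_of_le (fun κ => ?_) hpt s1
    split_ifs
    · exact sg_FS_nonneg ω (sg_cutG_nonneg n) κ x
    · exact le_rfl
  refine ⟨s2, ?_⟩
  rw [← tsum_mul_left]
  exact s2.tsum_le_tsum hpt s1

theorem sg_U_nonneg {m r : ℕ} (n : ℕ) (ω : ℝ) (P : Zv m → Prop) [DecidablePred P] (x : Xs m) :
    0 ≤ ∑' κ : Zv m, if P κ then FS r ω (cutG n) κ x else 0 := by
  refine tsum_nonneg fun κ => ?_
  split_ifs
  · exact sg_FS_nonneg ω (sg_cutG_nonneg n) κ x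
  · exact le_rfl

theorem sg_a2_eq_one (n : ℕ) {ρ : ℝ} (h : ρ ≤ rho1 n) : a2 n ρ = 1 := by
  unfold a2 ramp
  have h1 : 1 ≤ rexp n * (rho1 n + rexp (-n) - ρ) := by
    have e1 : rexp n * rexp (-n) = 1 := by rw [← Real.exp_add]; simp
    nlinarith [mul_nonneg (Real.exp_pos (n : ℝ)).le (sub_nonneg.2 h)]
  rw [min_eq_left h1]
  exact max_eq_right zero_le_one

namespace SgCtx

variable {n : ℕ} {ω : ℝ}

theorem U_le (c : SgCtx n ω) {W : Submodule ℝ (Ev (n / 2))} {D : ℝ} (hW : Adm n ω W D 1)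
    (P : Zv (n / 2) → Prop) [DecidablePred P] (hP : ∀ κ, P κ → iv κ ∈ W) (x : Xs (n / 2)) :
    (∑' κ : Zv (n / 2), if P κ then FS (n % 2) ω (cutG n) κ x else 0) ≤
      2 * (n : ℝ) ^ 4 * D * En n ^ 3 := by
  have hL := c.lg
  have hL0 : 0 < Real.log n := by linarith
  have hn := c.big
  have hEn := one_le_En n
  have hD := hW.one_le
  set b := 4 / Real.log n with hb
  have hb0 : 0 < b := by positivity
  have hb1 : b ≤ 2 / 3 := by
    rw [hb, div_le_iff₀ hL0]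
    linarith
  have hb2 : 1 / Real.log n ≤ b := div_le_div_of_nonneg_right (by norm_num) hL0.le
  have h1 : th ω W b ≤ D * En n ^ 2 := by
    refine (hW.th_le b hb0).trans (le_of_eq ?_)
    unfold Env
    have : (4 : ℝ) ^ 1 / (b * Real.log n) = 1 := by rw [hb]; field_simp
    rw [this]
    simp
  have h2 := (sg_V_le (r := n % 2) c.om hb0 P hP x).trans
    (mul_le_mul (c.F00_le hb2) h1 (sg_th_nonneg _ _ _) (by norm_num))
  have h3 : rexp (π * b * rho1 n) ≤ (n : ℝ) ^ 4 * En n := by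
    refine (c.rex' hb0.le (by linarith)).trans (mul_le_mul_of_nonneg_left ?_ (by positivity))
    refine Real.exp_le_exp.2 ?_
    have h4 : √(Real.log n) ≤ Real.log n := by
      rw [Real.sqrt_le_left hL0.le]
      nlinarith
    have h5 : 0 < √(Real.log n) := Real.sqrt_pos.2 hL0
    have h6 : b * n / (2 * rexp 1) = 2 / rexp 1 * (n / Real.log n) := by
      rw [hb]
      field_simp
      ring
    have h7 : 2 / rexp 1 ≤ 1 := by
      rw [div_le_one (Real.exp_pos 1)]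
      linarith [sg_e.1]
    have h8 : (n : ℝ) / Real.log n ≤ n / √(Real.log n) :=
      div_le_div_of_nonneg_left (by linarith) h5 h4
    rw [h6]
    exact (mul_le_of_le_one_left (by positivity) h7).trans h8
  refine (sg_U n c.om hb0 hb1 P x).2.trans
    ((mul_le_mul h3 h2 (sg_V_nonneg _ _ _ _) (by positivity)).trans (le_of_eq ?_))
  ring

theorem Nt_pos (c : SgCtx n ω) {t : ℝ} (ht : t ∈ Set.Icc (1 : ℝ) 3) : 0 < Nt n t :=
  (Real.exp_pos _).trans_le (c.nt t ht).2.2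

theorem abs_Sg_le (c : SgCtx n ω) (W : Submodule ℝ (Ev (n / 2))) {t : ℝ}
    (ht : t ∈ Set.Icc (1 : ℝ) 3) (x : Xs (n / 2)) :
    |Sg n ω W t x| ≤ 2 * (n : ℝ) ^ 4 * Nt n t *
      ∑' κ : Zv (n / 2), if iv κ ∈ W ∧ κ ≠ 0 then FS (n % 2) ω (cutG n) κ x else 0 := by
  have hω := c.om
  have hn := c.big
  have ht0 : 0 < t := by linarith [ht.1]
  have hti : 0 < t⁻¹ := inv_pos.2 ht0
  have hN := c.Nt_pos ht
  have hn4 : (1 : ℝ) ≤ (n : ℝ) ^ 4 := one_le_pow₀ (by linarith)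
  set a : ℝ := if t ≤ 3 / 2 then t ^ (-(n : ℝ) / 2) else 0 with ha
  have ha0 : 0 ≤ a := by
    rw [ha]
    split_ifs
    · positivity
    · exact le_rfl
  set M := (n : ℝ) ^ 4 * Nt n t with hM
  have hM0 : 0 < M := by positivity
  have b1 : ∀ ρ, rho1 n ≤ ρ → ft t ρ ≤ M * cutG n ρ := by
    intro ρ hρ
    refine (sg_ft_le_cutG n (by linarith [ht.1]) hρ).trans
      (mul_le_mul_of_nonneg_right ((c.nt t ht).1.trans ?_) (sg_cutG_nonneg n ρ))
    exact le_mul_of_one_le_left hN.le hn4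
  have b2 : ∀ ρ, rho1 n ≤ ρ → a * ft t⁻¹ ρ ≤ M * cutG n ρ := by
    intro ρ hρ
    rw [ha]
    split_ifs with h
    · have h1 : 2 / 3 ≤ t⁻¹ := by
        rw [le_inv_comm₀ (by norm_num) ht0]
        linarith
      refine (mul_le_mul_of_nonneg_left (sg_ft_le_cutG n h1 hρ) (by positivity)).trans ?_
      rw [← mul_assoc]
      exact mul_le_mul_of_nonneg_right ((c.nt t ht).2.1 h) (sg_cutG_nonneg n ρ)
    · rw [zero_mul]
      exact mul_nonneg hM0.le (sg_cutG_nonneg n ρ)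
  set φ : ℝ → ℝ := fun ρ => (ft t ρ + a * ft t⁻¹ ρ) * (1 - a2 n ρ) with hφ
  have φ0 : ∀ ρ, 0 ≤ φ ρ := fun ρ => mul_nonneg
    (add_nonneg (sg_ft_pos _ _).le (mul_nonneg ha0 (sg_ft_pos _ _).le))
    (sub_nonneg.2 (ramp_mem n _).2)
  have φ1 : ∀ ρ, φ ρ ≤ 2 * M * cutG n ρ := by
    intro ρ
    have p1 := mul_nonneg hM0.le (sg_cutG_nonneg n ρ)
    simp only [hφ]
    rcases le_total ρ (rho1 n) with h | h
    · rw [sg_a2_eq_one n h, sub_self, mul_zero]
      linarith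
    · have p2 : 1 - a2 n ρ ≤ 1 := sub_le_self _ (ramp_mem n _).1
      refine (mul_le_of_le_one_right
        (add_nonneg (sg_ft_pos _ _).le (mul_nonneg ha0 (sg_ft_pos _ _).le)) p2).trans ?_
      linarith [b1 ρ h, b2 ρ h]
  have hhh : ∀ ρ, hh n t ρ = φ ρ - a * ft t⁻¹ ρ := by
    intro ρ
    simp only [hφ, hh, ha]
    split_ifs <;> ring
  have sc : ∀ κ : Zv (n / 2), Summable fun jl : Zv (n % 2) × Zv (n / 2) =>
      2 * M * cutG n (rho ω x κ jl) := fun κ =>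
    (sg_FS_cutG n hω (show (0 : ℝ) < 2 / 3 by norm_num) le_rfl κ x).1.mul_left _
  have sf : ∀ κ : Zv (n / 2), Summable fun jl : Zv (n % 2) × Zv (n / 2) =>
      a * ft t⁻¹ (rho ω x κ jl) := fun κ => (summable_ft hω hti x κ).mul_left _
  have h1 := sg_hasSum_mem ((Kn n ω).filter fun k => iv k ∈ W)
    fun k => FS (n % 2) ω (hh n t) k x
  have h2 := (sg_summable_V (r := n % 2) hω hti (fun η => iv η ∈ W ∧ η ≠ 0) x).hasSum.mul_left a
  have e1 : Sg n ω W t x = ∑ k ∈ (Kn n ω).filter (fun k => iv k ∈ W), FS (n % 2) ω (hh n t) k x +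
      a * ∑' η : Zv (n / 2), if iv η ∈ W ∧ η ≠ 0 then FS (n % 2) ω (ft t⁻¹) η x else 0 := by
    unfold Sg
    rw [ha]
    split_ifs
    · rfl
    · rw [zero_mul]
  have h3 := (sg_U (r := n % 2) n hω (show (0 : ℝ) < 2 / 3 by norm_num) le_rfl
    (fun η => iv η ∈ W ∧ η ≠ 0) x).1.hasSum.mul_left (2 * M)
  rw [e1, ← (h1.add h2).tsum_eq, mul_assoc 2, ← hM, ← Real.norm_eq_abs]
  refine tsum_of_norm_bounded h3 fun κ => ?_
  rw [Real.norm_eq_abs]
  by_cases hp : iv κ ∈ W ∧ κ ≠ 0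
  · simp only [if_pos hp]
    by_cases hk : κ ∈ Kn n ω
    · rw [if_pos (Finset.mem_filter.2 ⟨hk, hp.1⟩)]
      have sφ : Summable fun jl : Zv (n % 2) × Zv (n / 2) => φ (rho ω x κ jl) :=
        Summable.of_nonneg_of_le (fun jl => φ0 _) (fun jl => φ1 _) (sc κ)
      have e2 : FS (n % 2) ω (hh n t) κ x + a * FS (n % 2) ω (ft t⁻¹) κ x =
          FS (n % 2) ω φ κ x := by
        unfold FS
        simp only [hhh]
        rw [sφ.tsum_sub (sf κ), tsum_mul_left]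
        ring
      rw [e2, abs_of_nonneg (sg_FS_nonneg ω φ0 κ x)]
      unfold FS
      rw [← tsum_mul_left]
      exact sφ.tsum_le_tsum (fun jl => φ1 _) (sc κ)
    · rw [if_neg fun h => hk (Finset.mem_filter.1 h).1, zero_add,
        abs_of_nonneg (mul_nonneg ha0 (sg_F_nonneg _ _ _ _))]
      have h5 : (n : ℝ) ≤ ω * ‖iv κ‖ := by
        by_contra hcon
        exact hk ((mem_Kn hω κ).2 ⟨hp.2, (not_le.1 hcon).le⟩)
      have h6 : (n : ℝ) ^ 2 ≤ ω ^ 2 * ‖iv κ‖ ^ 2 := by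
        rw [← mul_pow]
        exact pow_le_pow_left₀ (by linarith) h5 2
      unfold FS
      rw [← tsum_mul_left, ← tsum_mul_left]
      refine (sf κ).tsum_le_tsum (fun jl => ?_) (sc κ)
      have h7 : rho1 n ≤ rho ω x κ jl := by
        have := le_rho ω x κ jl
        nlinarith [c.rle.2]
      have := mul_nonneg hM0.le (sg_cutG_nonneg n (rho ω x κ jl))
      linarith [b2 _ h7]
  · simp only [if_neg hp]
    have hq : κ ∉ (Kn n ω).filter fun k => iv k ∈ W := fun h => hp ⟨(Finset.mem_filter.1 h).2,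
      ((mem_Kn hω κ).1 (Finset.mem_filter.1 h).1).1⟩
    rw [if_neg hq]
    simp

theorem Sg_sq (c : SgCtx n ω) {t : ℝ} (ht : t ∈ Set.Icc (1 : ℝ) 3) :
    ∑ S ∈ Dl n ω (MM n + 1), ∫ x, AS n ω S x * Sg n ω (spanS S) t x ^ 2 ∂PP (n / 2) ≤
      104 * (n : ℝ) ^ 13 * En n ^ 13 * rexp (TT n / 2 - 0.096 * n) * Nt n t ^ 2 := by
  have hω := c.om
  have hn := c.big
  have hEn := one_le_En n
  have hN := c.Nt_pos ht
  have hE0 : 0 < rexp 1 := Real.exp_pos 1
  set β : ℝ := 2 * (2 / 3) - 1 / 1000 with hβd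
  have hβ : β ∈ Set.Icc (1 / 100 : ℝ) 1.4 := ⟨by norm_num [hβd], by norm_num [hβd]⟩
  have hβ0 : 0 < β := by norm_num [hβd]
  set M := 2 * (n : ℝ) ^ 4 * Nt n t with hM
  set c₁ := M ^ 2 * (rexp (π * (2 / 3) * rho1 n) ^ 2 * (2 * En n)) with hc₁
  set c₂ := M ^ 2 * (8 * (n : ℝ) ^ 5 * En n ^ 3 * rexp (-(n : ℝ) ^ 2)) with hc₂
  have h1 : ∀ S ∈ Dl n ω (MM n + 1),
      ∫ x, AS n ω S x * Sg n ω (spanS S) t x ^ 2 ∂PP (n / 2) ≤
      c₁ * (∫ x, AS n ω S x * ∑' κ : Zv (n / 2),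
        (if iv κ ∈ spanS S ∧ κ ≠ 0 ∧ κ ∉ S ∧ -κ ∉ S then FS (n % 2) ω (ft β) κ x else 0)
          ∂PP (n / 2)) + (∫ x, AS n ω S x ∂PP (n / 2)) * c₂ := by
    intro S hS
    have i1 := ((c.inv S).sgB.mul (sgB_V (r := n % 2) hω hβ0
      fun κ => iv κ ∈ spanS S ∧ κ ≠ 0 ∧ κ ∉ S ∧ -κ ∉ S)).integrable.const_mul c₁
    have i2 : Integrable (fun x => AS n ω S x * c₂) (PP (n / 2)) :=
      (c.inv S).integrable.mul_const _
    refine (integral_mono_of_nonneg (Eventually.of_forall fun x =>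
      mul_nonneg ((c.inv S).nonneg x) (sq_nonneg _)) (i1.add i2)
      (Eventually.of_forall fun x => ?_)).trans (le_of_eq ?_)
    swap
    · simp only [Pi.add_apply]
      rw [integral_add i1 i2, integral_const_mul, integral_mul_const]
    simp only [Pi.add_apply]
    have hA := (c.inv S).nonneg x
    have a1 := c.abs_Sg_le (spanS S) ht x
    rw [← hM] at a1
    have a2 := c.U_le (c.adm S hS).1 (fun κ => iv κ ∈ spanS S ∧ κ ≠ 0) (fun κ h => h.1) x
    have a3 := c.U_le (c.adm S hS).1 (fun κ => iv κ ∈ spanS S ∧ κ ≠ 0 ∧ κ ∉ S ∧ -κ ∉ S)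
      (fun κ h => h.1) x
    have a4 := sg_U (r := n % 2) n hω (show (0 : ℝ) < 2 / 3 by norm_num) le_rfl
      (fun κ => iv κ ∈ spanS S ∧ κ ≠ 0 ∧ κ ∉ S ∧ -κ ∉ S) x
    have a5 := sg_split_pm S (fun κ => FS (n % 2) ω (cutG n) κ x)
      (fun κ => sg_FS_nonneg ω (sg_cutG_nonneg n) κ x) (fun κ => FS_neg _ _ _ _) (spanS S) a4.1
    have a6 := sg_V_sq (r := n % 2) (β := 2 / 3) (b := 1 / 1000) hω (by norm_num) (by norm_num)
      (show 0 < 2 * En n by positivity) (fun κ => iv κ ∈ spanS S ∧ κ ≠ 0 ∧ κ ∉ S ∧ -κ ∉ S) x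
      (c.V_le hS c.inv_log_le _ (fun κ h => h.1) x)
    rw [← hβd] at a6
    have a7 : AS n ω S x * ∑ k ∈ S, FS (n % 2) ω (cutG n) k x ≤
        n * (rexp (-(n : ℝ) ^ 2) * AS n ω S x) := by
      rw [Finset.mul_sum]
      refine (Finset.sum_le_card_nsmul _ _ (rexp (-(n : ℝ) ^ 2) * AS n ω S x)
        fun k hk => ?_).trans ?_
      · have e1 : AS n ω S x = AA n ω k x * AS n ω (S.erase k) x :=
          (Finset.mul_prod_erase S (fun k => AA n ω k x) hk).symm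
        have := mul_le_mul_of_nonneg_right (c.amf k x).2 ((c.inv (S.erase k)).nonneg x)
        rw [e1]
        linarith
      · rw [nsmul_eq_mul]
        exact mul_le_mul_of_nonneg_right (c.card_le hS) (by positivity)
    have p1 := sg_U_nonneg (r := n % 2) n ω (fun κ => iv κ ∈ spanS S ∧ κ ≠ 0) x
    have p2 := sg_U_nonneg (r := n % 2) n ω
      (fun κ => iv κ ∈ spanS S ∧ κ ≠ 0 ∧ κ ∉ S ∧ -κ ∉ S) x
    have p3 : 0 ≤ ∑ k ∈ S, FS (n % 2) ω (cutG n) k x :=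
      Finset.sum_nonneg fun k _ => sg_FS_nonneg ω (sg_cutG_nonneg n) k x
    set U := ∑' κ : Zv (n / 2), if iv κ ∈ spanS S ∧ κ ≠ 0 then FS (n % 2) ω (cutG n) κ x else 0
    set Uc := ∑' κ : Zv (n / 2),
      if iv κ ∈ spanS S ∧ κ ≠ 0 ∧ κ ∉ S ∧ -κ ∉ S then FS (n % 2) ω (cutG n) κ x else 0
    set U1 := ∑ k ∈ S, FS (n % 2) ω (cutG n) k x
    set V := ∑' κ : Zv (n / 2),
      if iv κ ∈ spanS S ∧ κ ≠ 0 ∧ κ ∉ S ∧ -κ ∉ S then FS (n % 2) ω (ft β) κ x else 0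
    set B := 2 * (n : ℝ) ^ 4 * 1 * En n ^ 3 with hB
    have q1 : Sg n ω (spanS S) t x ^ 2 ≤ M ^ 2 * U ^ 2 := by
      rw [← mul_pow, ← sq_abs]
      exact pow_le_pow_left₀ (abs_nonneg _) a1 2
    have q2 : U ^ 2 ≤ Uc ^ 2 + 4 * B * U1 := by
      nlinarith [mul_le_mul_of_nonneg_left a5 p1, mul_le_mul_of_nonneg_left a5 p2,
        mul_le_mul_of_nonneg_right a2 p3, mul_le_mul_of_nonneg_right a3 p3]
    have q3 : Uc ^ 2 ≤ rexp (π * (2 / 3) * rho1 n) ^ 2 * (2 * En n * V) := by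
      refine (pow_le_pow_left₀ p2 a4.2 2).trans ?_
      rw [mul_pow]
      exact mul_le_mul_of_nonneg_left a6 (by positivity)
    have q4 := mul_le_mul_of_nonneg_left (q1.trans (mul_le_mul_of_nonneg_left
      (q2.trans (add_le_add q3 le_rfl)) (sq_nonneg M))) hA
    have q5 := mul_le_mul_of_nonneg_left a7 (show 0 ≤ M ^ 2 * (4 * B) by positivity)
    rw [hc₁, hc₂]
    rw [hB] at q4 q5
    linarith
  refine (Finset.sum_le_sum h1).trans ?_
  rw [Finset.sum_add_distrib, ← Finset.mul_sum]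
  have t1 := mul_le_mul_of_nonneg_left (c.comb hβ) (show 0 ≤ c₁ by positivity)
  have t2 := c.sumE_mul (show 0 ≤ c₂ by positivity)
  have z1 : rexp (π * (2 / 3) * rho1 n) ^ 2 ≤ (n : ℝ) ^ 4 * rexp (0.2453 * n) := by
    have a1 := c.rex' (τ := 4 / 3) (by norm_num) (by norm_num)
    rw [sq, ← Real.exp_add]
    refine (le_of_eq (by congr 1; ring)).trans (a1.trans ?_)
    refine mul_le_mul_of_nonneg_left (Real.exp_le_exp.2 ?_) (by positivity)
    rw [div_le_iff₀ (by positivity)]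
    nlinarith [Real.exp_one_gt_d9]
  have z2 : (1 + 2 * β / rexp 1) ^ (-(n : ℝ) / 2) ≤ rexp (-0.3415 * n) := by
    have a1 : (1.98 : ℝ) ≤ 1 + 2 * β / rexp 1 := by
      have : 0.98 ≤ 2 * β / rexp 1 := by
        rw [le_div_iff₀ hE0, hβd]
        linarith [Real.exp_one_lt_d9]
      linarith
    refine (Real.rpow_le_rpow_of_nonpos (by norm_num) a1 (by linarith)).trans ?_
    rw [Real.rpow_def_of_pos (by norm_num)]
    refine Real.exp_le_exp.2 ?_
    have a2 : Real.log 1.98 = Real.log 2 + Real.log 0.99 := by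
      rw [← Real.log_mul (by norm_num) (by norm_num)]
      norm_num
    have a3 := Real.one_sub_inv_le_log_of_pos (show (0 : ℝ) < 0.99 by norm_num)
    have a4 : 0.683 ≤ Real.log 1.98 := by
      rw [a2]
      norm_num at a3 ⊢
      linarith [Real.log_two_gt_d9]
    nlinarith
  set X := rexp (TT n / 2 - 0.096 * n) with hX
  have hX0 : 0 < X := Real.exp_pos _
  have z3 : rexp (0.2453 * n) * rexp (TT n / 2) * rexp (-0.3415 * n) ≤ X := by
    rw [← Real.exp_add, ← Real.exp_add]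
    exact Real.exp_le_exp.2 (by linarith)
  have z4 : rexp (TT n / 2 + 1) * rexp (-(n : ℝ) ^ 2) ≤ X := by
    rw [← Real.exp_add]
    exact Real.exp_le_exp.2 (by nlinarith)
  have z5 : c₁ * (rexp (TT n / 2) * En n ^ 7 * (1 + 2 * β / rexp 1) ^ (-(n : ℝ) / 2)) ≤
      8 * ((n : ℝ) ^ 12 * En n ^ 8) * (X * Nt n t ^ 2) := by
    have a1 := mul_le_mul z1 z2 (by positivity) (by positivity)
    have a2 := mul_le_mul_of_nonneg_left a1
      (show 0 ≤ M ^ 2 * (2 * En n) * (rexp (TT n / 2) * En n ^ 7) by positivity)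
    have a3 := mul_le_mul_of_nonneg_left z3
      (show 0 ≤ 8 * ((n : ℝ) ^ 12 * En n ^ 8) * Nt n t ^ 2 by positivity)
    rw [hc₁]
    rw [hM] at a2 ⊢
    linarith
  have z6 : rexp (TT n / 2 + 1) * c₂ ≤ 32 * ((n : ℝ) ^ 13 * En n ^ 3) * (X * Nt n t ^ 2) := by
    have a3 := mul_le_mul_of_nonneg_left z4
      (show 0 ≤ 32 * ((n : ℝ) ^ 13 * En n ^ 3) * Nt n t ^ 2 by positivity)
    rw [hc₂, hM]
    linarith
  have z7 : (n : ℝ) ^ 12 * En n ^ 8 ≤ (n : ℝ) ^ 13 * En n ^ 13 :=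
    mul_le_mul (pow_le_pow_right₀ (by linarith) (by norm_num))
      (pow_le_pow_right₀ hEn (by norm_num)) (by positivity) (by positivity)
  have z8 : (n : ℝ) ^ 13 * En n ^ 3 ≤ (n : ℝ) ^ 13 * En n ^ 13 :=
    mul_le_mul_of_nonneg_left (pow_le_pow_right₀ hEn (by norm_num)) (by positivity)
  have z9 := mul_le_mul_of_nonneg_right z7 (show 0 ≤ X * Nt n t ^ 2 by positivity)
  have z10 := mul_le_mul_of_nonneg_right z8 (show 0 ≤ X * Nt n t ^ 2 by positivity)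
  have z11 : 0 ≤ (n : ℝ) ^ 13 * En n ^ 13 * (X * Nt n t ^ 2) := by positivity
  linarith

end SgCtx

end Pool.Agent.Eps
end
end

-- part Pool.Agent.Lib.MP_3bda03_nt.Sig
section

set_option autoImplicit false

noncomputable section

open scoped BigOperators Classical Topology
open MeasureTheory Real Complex Filter

namespace Pool.Agent.Eps

theorem sg_norm_Mir_le (n : ℕ) {ω : ℝ} (hω : 0 < ω) (W : Submodule ℝ (Ev (n / 2))) {z : ℂ}
    (hz : 0 < z.re) (x : Xs (n / 2)) :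
    ‖Mir n ω W z x‖ ≤ ‖z‖ ^ (-(n : ℝ) / 2) * ∑' κ : Zv (n / 2),
      if iv κ ∈ W ∧ κ ≠ 0 then FS (n % 2) ω (ft (z.re / ‖z‖ ^ 2)) κ x else 0 := by
  have hζ : 0 < ‖z‖ := hz.trans_le (Complex.re_le_norm z)
  have e1 : (z⁻¹).re = z.re / ‖z‖ ^ 2 := by rw [Complex.inv_re, Complex.normSq_eq_norm_sq]
  have hi : 0 < (z⁻¹).re := by rw [e1]; positivity
  unfold Mir
  rw [norm_mul, norm_isq_pow n hz, ← e1]
  refine mul_le_mul_of_nonneg_left ?_ (by positivity)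
  refine tsum_of_norm_bounded (sg_summable_V hω hi (fun κ => iv κ ∈ W ∧ κ ≠ 0) x).hasSum
    fun κ => ?_
  split_ifs
  · exact norm_Fz_le hω hi x κ
  · simp

theorem sg_key {τ ζ : ℝ} (hτ : 1 ≤ τ) (hζ : τ ≤ ζ) :
    Real.log τ + 1 / (rexp 1 * τ) ≤ Real.log ζ + τ / ζ ^ 2 / rexp 1 := by
  have hτ0 : 0 < τ := by linarith
  have hζ0 : 0 < ζ := by linarith
  have hE0 : 0 < rexp 1 := Real.exp_pos 1
  have h1 := Real.one_sub_inv_le_log_of_pos (show 0 < ζ / τ by positivity)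
  rw [Real.log_div hζ0.ne' hτ0.ne', inv_div] at h1
  set u := τ / ζ with hu
  have hu0 : 0 ≤ u := by positivity
  have hu1 : u ≤ 1 := by rw [hu, div_le_one hζ0]; exact hζ
  have e1 : τ / ζ ^ 2 / rexp 1 = u ^ 2 * (1 / (rexp 1 * τ)) := by
    rw [hu]
    field_simp
  have h2 : 1 / (rexp 1 * τ) ≤ 1 / 2 :=
    one_div_le_one_div_of_le (by norm_num) (by nlinarith [sg_e.1])
  have h3 : 0 ≤ 1 / (rexp 1 * τ) := by positivity
  rw [e1]
  set y := 1 / (rexp 1 * τ)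
  nlinarith [mul_nonneg (sub_nonneg.2 hu1) (sub_nonneg.2 h2),
    mul_nonneg (mul_nonneg (sub_nonneg.2 hu1) (sub_nonneg.2 hu1)) h3]

theorem sg_num {τ : ℝ} (h : τ = 1.45 ∨ τ = 1.55) :
    Real.log (2 * τ * 1.0095) / 2 - Real.log τ - 1 / (rexp 1 * τ) + 1 / 1000 / (2 * rexp 1) ≤
      -0.0875 := by
  have hE0 : 0 < rexp 1 := Real.exp_pos 1
  have hτ0 : 0 < τ := by rcases h with h | h <;> rw [h] <;> norm_num
  have e1 : Real.log (2 * τ * 1.0095) = Real.log (2.019 / τ) + 2 * Real.log τ := by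
    rw [two_mul (Real.log τ), ← Real.log_mul hτ0.ne' hτ0.ne',
      ← Real.log_mul (by positivity) (by positivity)]
    congr 1
    field_simp
    norm_num
  have e2 : 1 / (rexp 1 * τ) = (rexp 1)⁻¹ * τ⁻¹ := by field_simp
  have e3 : 1 / 1000 / (2 * rexp 1) = (rexp 1)⁻¹ / 2000 := by field_simp; norm_num
  have h1 : 0.36787 ≤ (rexp 1)⁻¹ := by
    rw [le_inv_comm₀ (by norm_num) hE0]
    have := Real.exp_one_lt_d9
    norm_num at this ⊢
    linarith
  rw [e1, e2, e3]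
  rcases h with h | h
  · have h2 : Real.log (2.019 / τ) ≤ 0.3312 := by
      rw [Real.log_le_iff_le_exp (by positivity), h]
      refine le_trans ?_ (Real.sum_le_exp_of_nonneg (by norm_num) 5)
      simp only [Finset.sum_range_succ, Finset.sum_range_zero, Nat.factorial]
      norm_num
    have h3 : τ⁻¹ = 20 / 29 := by rw [h]; norm_num
    rw [h3]
    linarith
  · have h2 : Real.log (2.019 / τ) ≤ 0.28 := by
      rw [Real.log_le_iff_le_exp (by positivity), h]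
      refine le_trans ?_ (Real.quadratic_le_exp_of_nonneg (by norm_num))
      norm_num
    have h3 : τ⁻¹ = 20 / 31 := by rw [h]; norm_num
    rw [h3]
    linarith

theorem sg_rpow_mh (n : ℕ) {y : ℝ} (hy : 1 ≤ y) :
    rexp (Real.log y * (-(n : ℝ) / 2)) ≤ y ^ (-2 * mh n) := by
  rw [← Real.rpow_def_of_pos (by linarith)]
  exact Real.rpow_le_rpow_of_exponent_le hy (by linarith [(sg_half n).2])

namespace SgCtx

variable {n : ℕ} {ω : ℝ}

theorem of_bound (c : SgCtx n ω) (f : Finset (Zv (n / 2)) → Xs (n / 2) → ℝ) {B : ℝ} (hB : 0 ≤ B)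
    (h₀ : ∀ S x, 0 ≤ f S x) (h₁ : ∀ S ∈ Dl n ω (MM n + 1), ∀ x, f S x ≤ B) :
    ∑ S ∈ Dl n ω (MM n + 1), ∫ x, AS n ω S x * f S x ∂PP (n / 2) ≤ 3 * rexp (TT n / 2) * B := by
  refine le_trans (Finset.sum_le_sum fun S hS => ?_) ((c.sumE_mul hB).trans ?_)
  · rw [← integral_mul_const]
    exact integral_mono_of_nonneg (Eventually.of_forall fun x =>
      mul_nonneg ((c.inv S).nonneg x) (h₀ S x)) ((c.inv S).integrable.mul_const _)
      (Eventually.of_forall fun x => mul_le_mul_of_nonneg_left (h₁ S hS x) ((c.inv S).nonneg x))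
  · refine mul_le_mul_of_nonneg_right ?_ hB
    rw [Real.exp_add, mul_comm]
    exact mul_le_mul_of_nonneg_right sg_e.2 (Real.exp_pos _).le

theorem of_V (c : SgCtx n ω) (f : Finset (Zv (n / 2)) → Xs (n / 2) → ℝ) {B β : ℝ} (hB : 0 ≤ B)
    (hβ : β ∈ Set.Icc (1 / 100 : ℝ) 1.4) (h₀ : ∀ S x, 0 ≤ f S x)
    (h₁ : ∀ S ∈ Dl n ω (MM n + 1), ∀ x, f S x ≤ B * ∑' κ : Zv (n / 2),
      if iv κ ∈ spanS S ∧ κ ≠ 0 then FS (n % 2) ω (ft β) κ x else 0) :
    ∑ S ∈ Dl n ω (MM n + 1), ∫ x, AS n ω S x * f S x ∂PP (n / 2) ≤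
      B * (rexp (TT n / 2) * En n ^ 8 * rexp (-β * n / (2 * rexp 1))) := by
  have hβ0 : 0 < β := by linarith [hβ.1]
  refine le_trans ?_ (mul_le_mul_of_nonneg_left (c.all hβ) hB)
  rw [Finset.mul_sum]
  refine Finset.sum_le_sum fun S hS => ?_
  rw [← integral_const_mul]
  refine integral_mono_of_nonneg (Eventually.of_forall fun x =>
    mul_nonneg ((c.inv S).nonneg x) (h₀ S x))
    (((c.inv S).sgB.mul (sgB_V (r := n % 2) c.om hβ0
      fun κ => iv κ ∈ spanS S ∧ κ ≠ 0)).integrable.const_mul B)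
    (Eventually.of_forall fun x => ?_)
  have := mul_le_mul_of_nonneg_left (h₁ S hS x) ((c.inv S).nonneg x)
  simp only
  linarith

theorem Mir_one (c : SgCtx n ω) {z : ℂ} (h₁ : 2 ≤ z.re) (h₂ : z.re ≤ 3.1)
    (hM : ∀ S ∈ Dl n ω (MM n + 1), ∀ x,
      ‖Mir n ω (spanS S) z x‖ ≤ 1 * En n ^ 3 * (z.re * min ‖z‖ 5) ^ (-mh n)) :
    ∑ S ∈ Dl n ω (MM n + 1), ∫ x, AS n ω S x * ‖Mir n ω (spanS S) z x‖ ∂PP (n / 2) ≤
      3 * En n ^ 8 * rexp (TT n / 2 - 0.054 * n) * (1.0095 * z.re) ^ (-2 * mh n) := by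
  have hn := c.big
  have hEn := one_le_En n
  have hE0 : 0 < rexp 1 := Real.exp_pos 1
  set τ := z.re with hτ
  have hτ0 : 0 < τ := by linarith
  have hζ : τ ≤ ‖z‖ := Complex.re_le_norm z
  have hζ0 : 0 < ‖z‖ := by linarith
  have hP : 0 < (1.0095 * τ) ^ (-2 * mh n) := by positivity
  rcases le_total 5 ‖z‖ with h5 | h5
  · rw [min_eq_right h5] at hM
    refine (c.of_bound _ (by positivity) (fun S x => norm_nonneg _) hM).trans ?_
    have hm : 0 ≤ mh n := by unfold mh; positivity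
    have a1 : (τ * 5) ^ (-mh n) ≤ (1.5 * (1.0095 * τ) ^ (2 : ℝ)) ^ (-mh n) := by
      refine Real.rpow_le_rpow_of_nonpos (by positivity) ?_ (by linarith)
      rw [Real.rpow_two]
      nlinarith
    rw [Real.mul_rpow (x := 1.5) (by norm_num) (by positivity), ← Real.rpow_mul (by positivity),
      show 2 * -mh n = -2 * mh n by ring] at a1
    have a2 : (1.5 : ℝ) ^ (-mh n) ≤ rexp (-0.054 * n) := by
      rw [Real.rpow_def_of_pos (by norm_num)]
      refine Real.exp_le_exp.2 ?_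
      have a3 := Real.one_sub_inv_le_log_of_pos (show (0 : ℝ) < 1.5 by norm_num)
      have a4 : 1 / 3 ≤ Real.log 1.5 := by
        refine le_trans (le_of_eq ?_) a3
        norm_num
      nlinarith [(mh_le n).1]
    have a5 := a1.trans (mul_le_mul_of_nonneg_right a2 hP.le)
    have a6 : En n ^ 3 ≤ En n ^ 8 := pow_le_pow_right₀ hEn (by norm_num)
    have a7 := mul_le_mul a6 a5 (by positivity) (by positivity)
    have a8 := mul_le_mul_of_nonneg_left a7 (show 0 ≤ 3 * rexp (TT n / 2) by positivity)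
    rw [sub_eq_add_neg, Real.exp_add, ← neg_mul]
    linarith
  · have hβ : τ / ‖z‖ ^ 2 ∈ Set.Icc (1 / 100 : ℝ) 1.4 := by
      constructor
      · rw [le_div_iff₀ (by positivity)]
        nlinarith
      · rw [div_le_iff₀ (by positivity)]
        nlinarith
    refine (c.of_V _ (by positivity) hβ (fun S x => norm_nonneg _)
      fun S _ x => sg_norm_Mir_le n c.om _ hτ0 x).trans ?_
    have a1 := sg_rpow_mh n (y := 1.0095 * τ) (by linarith)
    have a2 : ‖z‖ ^ (-(n : ℝ) / 2) * rexp (-(τ / ‖z‖ ^ 2) * n / (2 * rexp 1)) ≤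
        rexp (-0.054 * n) * rexp (Real.log (1.0095 * τ) * (-(n : ℝ) / 2)) := by
      rw [Real.rpow_def_of_pos hζ0, ← Real.exp_add, ← Real.exp_add]
      refine Real.exp_le_exp.2 ?_
      have b1 := sg_key (by linarith) hζ
      have b2 : Real.log (1.0095 * τ) ≤ 0.0095 + Real.log τ := by
        rw [Real.log_mul (by norm_num) hτ0.ne']
        linarith [Real.log_le_sub_one_of_pos (show (0 : ℝ) < 1.0095 by norm_num)]
      have b3 : 0.118 ≤ 1 / (rexp 1 * τ) := by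
        rw [le_div_iff₀ (by positivity)]
        nlinarith [Real.exp_one_lt_d9]
      have e1 : -(τ / ‖z‖ ^ 2) * n / (2 * rexp 1) = τ / ‖z‖ ^ 2 / rexp 1 * (-(n : ℝ) / 2) := by
        field_simp
      rw [e1]
      nlinarith
    have a3 := a2.trans (mul_le_mul_of_nonneg_left a1 (Real.exp_pos _).le)
    have a4 := mul_le_mul_of_nonneg_left a3 (show 0 ≤ rexp (TT n / 2) * En n ^ 8 by positivity)
    have a5 : 0 ≤ rexp (TT n / 2) * En n ^ 8 * (rexp (-0.054 * n) * (1.0095 * τ) ^ (-2 * mh n)) := by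
      positivity
    rw [sub_eq_add_neg, Real.exp_add, ← neg_mul]
    linarith

theorem Mir_two (c : SgCtx n ω) {z : ℂ} (h : z.re = 1.45 ∨ z.re = 1.55)
    (hM : ∀ S ∈ Dl n ω (MM n + 1), ∀ x,
      ‖Mir n ω (spanS S) z x‖ ≤ 1 * En n ^ 3 * (z.re * min ‖z‖ 5) ^ (-mh n)) :
    ∑ S ∈ Dl n ω (MM n + 1), ∫ x, AS n ω S x * ‖Mir n ω (spanS S) z x‖ ^ 2 ∂PP (n / 2) ≤
      3 * En n ^ 9 * rexp (TT n / 2 - 0.0875 * n) * Nz n z.re ^ 2 := by
  have hn := c.big
  have hEn := one_le_En n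
  have hE0 : 0 < rexp 1 := Real.exp_pos 1
  set τ := z.re with hτ
  have h₁ : 1.45 ≤ τ := by rcases h with h | h <;> linarith
  have h₂ : τ ≤ 1.55 := by rcases h with h | h <;> linarith
  have hτ0 : 0 < τ := by linarith
  have hζ : τ ≤ ‖z‖ := Complex.re_le_norm z
  have hζ0 : 0 < ‖z‖ := by linarith
  have hNz : Nz n τ = (2 * τ * 1.0095) ^ (-mh n) := by
    unfold Nz Lz
    rw [if_neg (by linarith)]
  have hNz2 : Nz n τ ^ 2 = (2 * τ * 1.0095) ^ (-2 * mh n) := by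
    rw [hNz, sq, ← Real.rpow_add (by positivity)]
    congr 1
    ring
  have hP : 0 < Nz n τ := by rw [hNz]; positivity
  rcases le_total 5 ‖z‖ with h5 | h5
  · rw [min_eq_right h5] at hM
    refine (c.of_bound _ (sq_nonneg _) (fun S x => sq_nonneg _)
      fun S hS x => pow_le_pow_left₀ (norm_nonneg _) (hM S hS x) 2).trans ?_
    have hm : 0 ≤ mh n := by unfold mh; positivity
    have a1 : (τ * 5) ^ (-mh n) ≤ (2 * (2 * τ * 1.0095)) ^ (-mh n) :=
      Real.rpow_le_rpow_of_nonpos (by positivity) (by linarith) (by linarith)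
    rw [Real.mul_rpow (x := 2) (by norm_num) (by positivity), ← hNz] at a1
    have a2 : ((2 : ℝ) ^ (-mh n)) ^ 2 ≤ rexp (-0.0875 * n) := by
      rw [Real.rpow_def_of_pos (by norm_num), sq, ← Real.exp_add]
      refine Real.exp_le_exp.2 ?_
      nlinarith [(mh_le n).1, Real.log_two_gt_d9]
    have a3 := pow_le_pow_left₀ (by positivity) a1 2
    rw [mul_pow] at a3
    have a5 := a3.trans (mul_le_mul_of_nonneg_right a2 (sq_nonneg _))
    have a6 : En n ^ 6 ≤ En n ^ 9 := pow_le_pow_right₀ hEn (by norm_num)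
    have a7 := mul_le_mul a6 a5 (by positivity) (by positivity)
    have a8 := mul_le_mul_of_nonneg_left a7 (show 0 ≤ 3 * rexp (TT n / 2) by positivity)
    rw [sub_eq_add_neg, Real.exp_add, ← neg_mul]
    linarith
  · have k1 : 0.058 ≤ τ / ‖z‖ ^ 2 := by
      rw [le_div_iff₀ (by positivity)]
      nlinarith
    have k2 : τ / ‖z‖ ^ 2 ≤ 0.7 := by
      rw [div_le_iff₀ (by positivity)]
      nlinarith
    have hβ : 2 * (τ / ‖z‖ ^ 2) - 1 / 1000 ∈ Set.Icc (1 / 100 : ℝ) 1.4 :=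
      ⟨by linarith, by linarith⟩
    refine (c.of_V (B := (‖z‖ ^ (-(n : ℝ) / 2)) ^ 2 * (2 * En n)) _ (by positivity) hβ
      (fun S x => sq_nonneg _) fun S hS x => ?_).trans ?_
    · refine (pow_le_pow_left₀ (norm_nonneg _) (sg_norm_Mir_le n c.om _ hτ0 x) 2).trans ?_
      rw [mul_pow, mul_assoc]
      refine mul_le_mul_of_nonneg_left ?_ (by positivity)
      exact sg_V_sq c.om (by norm_num) (by linarith) (by positivity) _ x
        (c.V_le hS c.inv_log_le _ (fun κ h => h.1) x)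
    have a1 := sg_rpow_mh n (y := 2 * τ * 1.0095) (by linarith)
    rw [← hNz2] at a1
    have a2 : (‖z‖ ^ (-(n : ℝ) / 2)) ^ 2 *
        rexp (-(2 * (τ / ‖z‖ ^ 2) - 1 / 1000) * n / (2 * rexp 1)) ≤
        rexp (-0.0875 * n) * rexp (Real.log (2 * τ * 1.0095) * (-(n : ℝ) / 2)) := by
      rw [Real.rpow_def_of_pos hζ0, sq, ← Real.exp_add, ← Real.exp_add, ← Real.exp_add]
      refine Real.exp_le_exp.2 ?_
      have b1 := sg_key (by linarith) hζ
      have b2 := sg_num h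
      have e1 : -(2 * (τ / ‖z‖ ^ 2) - 1 / 1000) * n / (2 * rexp 1) =
          (1 / 1000 / (2 * rexp 1) - τ / ‖z‖ ^ 2 / rexp 1) * n := by
        field_simp
        ring
      rw [e1]
      nlinarith
    have a3 := a2.trans (mul_le_mul_of_nonneg_left a1 (Real.exp_pos _).le)
    have a4 := mul_le_mul_of_nonneg_left a3
      (show 0 ≤ 2 * (rexp (TT n / 2) * En n ^ 9) by positivity)
    have a5 : 0 ≤ rexp (TT n / 2) * En n ^ 9 * (rexp (-0.0875 * n) * Nz n τ ^ 2) := by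
      positivity
    rw [sub_eq_add_neg (TT n / 2), Real.exp_add, ← neg_mul]
    linarith

theorem absorb (c : SgCtx n ω) {C ε a X : ℝ} {j i : ℕ} (hC : 0 ≤ C) (hi : i ≤ j) (hX : 0 ≤ X)
    (h : C * (n : ℝ) ^ j * En n ^ j ≤ rexp (ε * n)) :
    C * En n ^ i * rexp (TT n / 2 - (a + ε) * n) * X ≤ rexp (TT n / 2 - a * n) * X := by
  have hn := c.big
  have hEn := one_le_En n
  refine mul_le_mul_of_nonneg_right ?_ hX
  have h1 : C * En n ^ i ≤ C * (n : ℝ) ^ j * En n ^ j := by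
    rw [mul_assoc]
    refine mul_le_mul_of_nonneg_left ((pow_le_pow_right₀ hEn hi).trans ?_) hC
    exact le_mul_of_one_le_left (by positivity) (one_le_pow₀ (by linarith))
  refine (mul_le_mul_of_nonneg_right (h1.trans h) (Real.exp_pos _).le).trans (le_of_eq ?_)
  rw [← Real.exp_add]
  congr 1
  ring

end SgCtx

/-- integer combinations of length at least two of the points of a nice set -/
theorem sum_comb_le : ∀ᶠ n : ℕ in atTop, ∀ᶠ ω in 𝓝[>] (0 : ℝ), ∀ β ∈ Set.Icc (1 / 100 : ℝ) 1.4,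
    ∑ S ∈ Dl n ω (MM n + 1), ∫ x, AS n ω S x * ∑' κ : Zv (n / 2),
      (if iv κ ∈ spanS S ∧ κ ≠ 0 ∧ κ ∉ S ∧ -κ ∉ S then FS (n % 2) ω (ft β) κ x else 0)
        ∂PP (n / 2) ≤ rexp (TT n / 2) * En n ^ 10 * (1 + 2 * β / rexp 1) ^ (-(n : ℝ) / 2) := by
  filter_upwards [sg_ctx] with n h
  filter_upwards [h] with ω c β hβ
  have := (SgCtx.Y_mem hβ).1
  refine (c.comb hβ).trans (mul_le_mul_of_nonneg_right (mul_le_mul_of_nonneg_left
    (pow_le_pow_right₀ (one_le_En n) (by norm_num)) (Real.exp_pos _).le) (by positivity))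

theorem sum_all_le : ∀ᶠ n : ℕ in atTop, ∀ᶠ ω in 𝓝[>] (0 : ℝ), ∀ β ∈ Set.Icc (1 / 100 : ℝ) 1.4,
    ∑ S ∈ Dl n ω (MM n + 1), ∫ x, AS n ω S x * ∑' κ : Zv (n / 2),
      (if iv κ ∈ spanS S ∧ κ ≠ 0 then FS (n % 2) ω (ft β) κ x else 0) ∂PP (n / 2) ≤
        rexp (TT n / 2) * En n ^ 11 * rexp (-β * n / (2 * rexp 1)) := by
  filter_upwards [sg_ctx] with n h
  filter_upwards [h] with ω c β hβ
  exact (c.all hβ).trans (mul_le_mul_of_nonneg_right (mul_le_mul_of_nonneg_left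
    (pow_le_pow_right₀ (one_le_En n) (by norm_num)) (Real.exp_pos _).le) (Real.exp_pos _).le)

/-- a further point of the hole in the span of a nice set -/
theorem sum_dep_le : ∀ᶠ n : ℕ in atTop, ∀ᶠ ω in 𝓝[>] (0 : ℝ),
    ∑ S ∈ Dl n ω (MM n), ∑ v ∈ (Kp n ω).filter (fun v => v ∉ S ∧ iv v ∈ spanS S),
      ∫ x, AS n ω S x * AA n ω v x ∂PP (n / 2) ≤ rexp (TT n / 2 - 0.09 * n) := by
  filter_upwards [sg_ctx, En_pow_le 1 7 (show (0 : ℝ) < 0.006 by norm_num)] with n h h'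
  filter_upwards [h] with ω c
  rw [one_mul] at h'
  refine c.dep.trans ((mul_le_mul_of_nonneg_right h' (Real.exp_pos _).le).trans (le_of_eq ?_))
  rw [← Real.exp_add]
  congr 1
  ring

theorem measurable_Sg (n : ℕ) (ω : ℝ) (W : Submodule ℝ (Ev (n / 2))) (t : ℝ) :
    Measurable (Sg n ω W t) := by
  unfold Sg
  refine (Finset.measurable_sum _ fun k _ =>
    measurable_FS ω (measurable_hh n).of_uncurry_left k).add ?_
  split_ifs
  · refine (Measurable.tsum fun η => ?_).const_mul _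
    split_ifs
    · exact measurable_FS ω (sg_measurable_ft _) η
    · exact measurable_const
  · exact measurable_const

theorem Sg_le : ∀ᶠ n : ℕ in atTop, ∀ᶠ ω in 𝓝[>] (0 : ℝ),
    ∀ (W : Submodule ℝ (Ev (n / 2))) (D : ℝ), Adm n ω W D 1 → ∀ t ∈ Set.Icc (1 : ℝ) 3, ∀ x,
      |Sg n ω W t x| ≤ D * En n ^ 5 * Nt n t := by
  filter_upwards [sg_ctx] with n h
  filter_upwards [h] with ω c W D hW t ht x
  have hN := c.Nt_pos ht
  have hD := hW.one_le
  have hEn := one_le_En n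
  have hn := c.big
  have h1 := mul_le_mul_of_nonneg_left (c.U_le hW (fun κ => iv κ ∈ W ∧ κ ≠ 0) (fun κ h => h.1) x)
    (show 0 ≤ 2 * (n : ℝ) ^ 4 * Nt n t by positivity)
  refine (c.abs_Sg_le W ht x).trans (h1.trans ?_)
  have h2 : 4 * (n : ℝ) ^ 8 ≤ En n ^ 2 := by
    have : 0 ≤ (n : ℝ) ^ 8 := by positivity
    nlinarith [c.poly]
  have h3 := mul_le_mul_of_nonneg_right h2 (show 0 ≤ D * En n ^ 3 * Nt n t by positivity)
  linarith

theorem sum_Sg_sq_le : ∀ᶠ n : ℕ in atTop, ∀ᶠ ω in 𝓝[>] (0 : ℝ), ∀ t ∈ Set.Icc (1 : ℝ) 3,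
    ∑ S ∈ Dl n ω (MM n + 1), ∫ x, AS n ω S x * Sg n ω (spanS S) t x ^ 2 ∂PP (n / 2) ≤
      rexp (TT n / 2 - 0.09 * n) * Nt n t ^ 2 := by
  filter_upwards [sg_ctx, En_pow_le 104 13 (show (0 : ℝ) < 0.006 by norm_num)] with n h h'
  filter_upwards [h] with ω c t ht
  refine (c.Sg_sq ht).trans (mul_le_mul_of_nonneg_right
    ((mul_le_mul_of_nonneg_right h' (Real.exp_pos _).le).trans (le_of_eq ?_)) (sq_nonneg _))
  rw [← Real.exp_add]
  congr 1
  ring

theorem sum_Mir_sq_le : ∀ᶠ n : ℕ in atTop, ∀ᶠ ω in 𝓝[>] (0 : ℝ), ∀ z : ℂ,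
    (z.re = 1.45 ∨ z.re = 1.55) →
    ∑ S ∈ Dl n ω (MM n + 1), ∫ x, AS n ω S x * ‖Mir n ω (spanS S) z x‖ ^ 2 ∂PP (n / 2) ≤
      rexp (TT n / 2 - 0.087 * n) * Nz n z.re ^ 2 := by
  filter_upwards [sg_ctx, Mir_le, En_pow_le 3 9 (show (0 : ℝ) < 0.0005 by norm_num)]
    with n h hM h'
  filter_upwards [h, hM] with ω c hM z hz
  have h₁ : 1 ≤ z.re := by rcases hz with h | h <;> rw [h] <;> norm_num
  have h₂ : z.re ≤ 4 := by rcases hz with h | h <;> rw [h] <;> norm_num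
  refine (c.Mir_two hz fun S hS x => hM _ _ (c.adm S hS).1 z h₁ h₂ x).trans ?_
  have := c.absorb (a := 0.087) (i := 9) (by norm_num) le_rfl (sq_nonneg (Nz n z.re)) h'
  rwa [show (0.087 : ℝ) + 0.0005 = 0.0875 by norm_num] at this

theorem sum_Mir_le : ∀ᶠ n : ℕ in atTop, ∀ᶠ ω in 𝓝[>] (0 : ℝ), ∀ z : ℂ, 2 ≤ z.re → z.re ≤ 3.1 →
    ∑ S ∈ Dl n ω (MM n + 1), ∫ x, AS n ω S x * ‖Mir n ω (spanS S) z x‖ ∂PP (n / 2) ≤
      rexp (TT n / 2 - 0.05 * n) * (1.0095 * z.re) ^ (-2 * mh n) := by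
  filter_upwards [sg_ctx, Mir_le, En_pow_le 3 9 (show (0 : ℝ) < 0.004 by norm_num)]
    with n h hM h'
  filter_upwards [h, hM] with ω c hM z h₁ h₂
  refine (c.Mir_one h₁ h₂ fun S hS x =>
    hM _ _ (c.adm S hS).1 z (by linarith) (by linarith) x).trans ?_
  have := c.absorb (a := 0.05) (i := 8) (X := (1.0095 * z.re) ^ (-2 * mh n)) (by norm_num)
    (by norm_num) (by positivity) h'
  rwa [show (0.05 : ℝ) + 0.004 = 0.054 by norm_num] at this

end Pool.Agent.Eps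
end
end

-- part Pool.Agent.Lib.MP_3bda03_nt.ProbB
section

/-! The noise relative to a subspace: decomposition and sums over families. -/

set_option autoImplicit false

noncomputable section

open scoped BigOperators Classical Topology
open MeasureTheory Real Complex Filter

namespace Pool.Agent.Eps

def nu : Measure ℝ := Measure.dirac 0 + volume

instance : SFinite nu := by unfold nu; infer_instance

theorem nu_point {E : Type*} [NormedAddCommGroup E] [NormedSpace ℝ E] [CompleteSpace E] (c : E) :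
    Integrable (fun y : ℝ => if y = 0 then c else 0) nu ∧
      ∫ y, (if y = 0 then c else 0) ∂nu = c := by
  have e : (fun y : ℝ => if y = 0 then c else 0) = Set.indicator {0} (fun _ => c) := by
    funext y; simp [Set.indicator_apply]
  have h : nu {0} = 1 := by simp [nu]
  rw [e]
  constructor
  · exact (integrable_indicator_iff (measurableSet_singleton 0)).2
      (integrableOn_const (by simp [h]))
  · rw [integral_indicator_const _ (measurableSet_singleton 0), Measure.real, h]; simp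

/-- the superposition data of the noise at the parameter `t` -/
structure Mx (n : ℕ) (t : ℝ) (ζ g : ℝ → ℂ) : Prop where
  mz : Measurable ζ
  mg : Measurable g
  adz : ∀ y, Adz (ζ y)
  re : ∀ y, y ≠ 0 → (ζ y).re = 1.45 ∨ (ζ y).re = 1.55
  lo : t ≤ 3 / 2 → ζ 0 = t ∧ g 0 = 1
  hi : 3 / 2 < t → g 0 = 0
  int : Integrable g nu
  mass : ∫ y, ‖g y‖ * Nz n (ζ y).re ∂nu ≤ 2 * (n : ℝ) ^ 7 * Nt n t
  rep : ∀ ρ : ℝ, (hh n t ρ : ℂ) = ∫ y, g y * cexp (-(π : ℂ) * ζ y * ρ) ∂nu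
  fs : ∀ ω : ℝ, 0 < ω → ∀ (k : Zv (n / 2)) (x : Xs (n / 2)),
    (FS (n % 2) ω (hh n t) k x : ℂ) = ∫ y, g y * Fz (n % 2) ω (ζ y) k x ∂nu
  inn : (In n (hh n t) : ℂ) = ∫ y, g y * isq (ζ y) ^ n ∂nu

theorem exists_mx : ∀ᶠ n : ℕ in atTop, ∀ t ∈ Set.Icc (1 : ℝ) 3, ∃ ζ g, Mx n t ζ g := by
  filter_upwards [Vt_mix] with n h t ht
  obtain ⟨ζ, g, a, b, c, d, e, f, i, j, k, l, m⟩ := h t ht
  exact ⟨ζ, g, a, b, c, d, e, f, i, j, k, l, m⟩

theorem Adz.re_mem {z : ℂ} (h : Adz z) : 1 ≤ z.re ∧ z.re ≤ 1.55 := by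
  rcases h with ⟨_, h1, h2⟩ | h | h
  · exact ⟨h1, by linarith⟩
  · rw [h]; norm_num
  · rw [h]; norm_num

theorem pr_mh_nonneg (n : ℕ) : 0 ≤ mh n := by unfold mh; positivity

theorem one_le_Lz (τ : ℝ) : 1 ≤ Lz τ ∧ Lz τ ≤ 1.0095 := by
  unfold Lz; split_ifs <;> norm_num

theorem Nz_pos (n : ℕ) {τ : ℝ} (h : 1 ≤ τ) : 0 < Nz n τ ∧ Nz n τ ≤ 1 := by
  have h1 := (one_le_Lz τ).1
  have h2 : 1 ≤ 2 * τ * Lz τ := by nlinarith
  exact ⟨Real.rpow_pos_of_pos (by linarith) _,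
    Real.rpow_le_one_of_one_le_of_nonpos h2 (by linarith [pr_mh_nonneg n])⟩

theorem Nt_pos (n : ℕ) {t : ℝ} (h : 1 ≤ t) : 0 < Nt n t := by
  unfold Nt; split_ifs
  · exact Real.rpow_pos_of_pos (by linarith) _
  · exact Real.exp_pos _

theorem measurable_Nz (n : ℕ) : Measurable (Nz n) := by
  unfold Nz Lz
  refine Measurable.pow_const (Measurable.mul (by fun_prop) ?_) _
  exact Measurable.ite measurableSet_Iic measurable_const measurable_const

theorem Mx.intN {n : ℕ} {t : ℝ} {ζ g : ℝ → ℂ} (h : Mx n t ζ g) :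
    Integrable (fun y => ‖g y‖ * Nz n (ζ y).re) nu := by
  refine h.int.norm.mul_bdd (c := 1)
    ((measurable_Nz n).comp (Complex.measurable_re.comp h.mz)).aestronglyMeasurable
    (Eventually.of_forall fun y => ?_)
  have := Nz_pos n (h.adz y).re_mem.1
  rw [Real.norm_of_nonneg this.1.le]; exact this.2

theorem Mx.mass_nonneg {n : ℕ} {t : ℝ} {ζ g : ℝ → ℂ} (h : Mx n t ζ g) :
    0 ≤ ∫ y, ‖g y‖ * Nz n (ζ y).re ∂nu :=
  integral_nonneg fun y => mul_nonneg (norm_nonneg _) (Nz_pos n (h.adz y).re_mem.1).1.le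

theorem InvW.w01 {m : ℕ} {W : Submodule ℝ (Ev m)} {H : Xs m → ℝ} (h : InvW W H) : W01 H :=
  ⟨h.meas, h.nonneg, h.le_one⟩

theorem norm_isq_le (n : ℕ) {z : ℂ} (hz : 1 ≤ z.re) : ‖isq z ^ n‖ ≤ 1 := by
  rw [norm_isq_pow n (by linarith)]
  refine Real.rpow_le_one_of_one_le_of_nonpos (hz.trans (Complex.re_le_norm z)) ?_
  have : (0 : ℝ) ≤ n := Nat.cast_nonneg n
  linarith

section
variable (n : ℕ) (ω : ℝ) (W : Submodule ℝ (Ev (n / 2))) (ζ g : ℝ → ℂ)

def Mir0 (p : ℝ × Xs (n / 2)) : ℂ := if p.1 = 0 then 0 else Mir n ω W (ζ p.1) p.2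

def Ov (x : Xs (n / 2)) : ℂ := ∫ y, g y * Osc n ω W (ζ y) x ∂nu

def Mv (x : Xs (n / 2)) : ℂ := ∫ y, g y * Mir0 n ω W ζ (y, x) ∂nu

def Rv (x : Xs (n / 2)) : ℂ := ∫ y, g y * Rem n ω W (ζ y) x ∂nu

end

theorem meas_comp2 {Ω : Type} [MeasurableSpace Ω] {F : ℂ → Ω → ℂ}
    (h : Measurable fun p : ℂ × Ω => F p.1 p.2) {ζ : ℝ → ℂ} (hζ : Measurable ζ) :
    Measurable fun p : ℝ × Ω => F (ζ p.1) p.2 :=
  h.comp ((hζ.comp measurable_fst).prodMk measurable_snd)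

theorem BM.slice {Ω : Type} [MeasurableSpace Ω] {F : ℝ → Ω → ℂ}
    (h : BM fun p : ℝ × Ω => F p.1 p.2) {g : ℝ → ℂ} (hg : Integrable g nu) (x : Ω) :
    Integrable (fun y => g y * F y x) nu :=
  BM.int_mul hg (h.comp (measurable_prodMk_right (y := x)))

theorem BM.mix' {Ω : Type} [MeasurableSpace Ω] {F : ℝ → Ω → ℂ}
    (h : BM fun p : ℝ × Ω => F p.1 p.2) {g : ℝ → ℂ} (hgm : Measurable g) (hg : Integrable g nu) :
    BM fun x => ∫ y, g y * F y x ∂nu := h.mix hgm hg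

theorem parts_bm : ∀ᶠ n : ℕ in atTop, ∀ᶠ ω in 𝓝[>] (0 : ℝ),
    ∀ (W : Submodule ℝ (Ev (n / 2))) (D : ℝ), Adm n ω W D 1 → D ≤ ω⁻¹ ^ (MM n + 2) →
    ∀ ζ : ℝ → ℂ, Measurable ζ → (∀ y, Adz (ζ y)) →
      BM (fun p : ℝ × Xs (n / 2) => Osc n ω W (ζ p.1) p.2) ∧
      BM (fun p : ℝ × Xs (n / 2) => Mir n ω W (ζ p.1) p.2) ∧
      BM (fun p : ℝ × Xs (n / 2) => Rem n ω W (ζ p.1) p.2) ∧
      BM (fun p : ℝ × Xs (n / 2) => Str n ω W (ζ p.1) p.2) ∧
      BM (Mir0 n ω W ζ) := by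
  filter_upwards [Mir_le, Rem_le] with n h1 h2
  filter_upwards [h1, h2, self_mem_nhdsWithin] with ω h1 h2 hω W D hA hD ζ hζ ha
  obtain ⟨m1, m2, m3, m4, m5, -, -⟩ := measurable_parts n ω W
  obtain ⟨C, hC⟩ := exists_bound n hω
  have bM : BM (fun p : ℝ × Xs (n / 2) => Mir n ω W (ζ p.1) p.2) := by
    refine ⟨meas_comp2 m3 hζ, D * En n ^ 3, fun p => ?_⟩
    have r := (ha p.1).re_mem
    refine (h1 W D hA _ r.1 (by linarith [r.2]) p.2).trans (mul_le_of_le_one_right ?_ ?_)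
    · have := hA.one_le; have := one_le_En n; positivity
    · refine Real.rpow_le_one_of_one_le_of_nonpos ?_ (by linarith [pr_mh_nonneg n])
      have : 1 ≤ min ‖ζ p.1‖ 5 := le_min (r.1.trans (Complex.re_le_norm _)) (by norm_num)
      nlinarith [r.1]
  have bR : BM (fun p : ℝ × Xs (n / 2) => Rem n ω W (ζ p.1) p.2) :=
    ⟨meas_comp2 m5 hζ, _, fun p => h2 W D hA hD _ (ha p.1).re_mem.1 (by linarith [(ha p.1).re_mem.2]) p.2⟩
  have bS : BM (fun p : ℝ × Xs (n / 2) => Str n ω W (ζ p.1) p.2) :=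
    ⟨meas_comp2 m2 hζ, C, fun p => (hC W _ (ha p.1).re_mem.1 p.2).2⟩
  have bW : BM (fun p : ℝ × Xs (n / 2) => Wz n ω (ζ p.1) p.2) :=
    ⟨meas_comp2 m4 hζ, C, fun p => (hC W _ (ha p.1).re_mem.1 p.2).1⟩
  refine ⟨?_, bM, bR, bS, ?_⟩
  · have := ((bW.sub bS).sub bM).sub bR
    have e : (fun p : ℝ × Xs (n / 2) => Osc n ω W (ζ p.1) p.2) = fun p =>
        Wz n ω (ζ p.1) p.2 - Str n ω W (ζ p.1) p.2 - Mir n ω W (ζ p.1) p.2 -
          Rem n ω W (ζ p.1) p.2 := by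
      funext p; unfold Rem; ring
    rw [e]; exact this
  · obtain ⟨C', hC'⟩ := bM.bdd
    refine ⟨Measurable.ite (measurable_fst (measurableSet_singleton 0)) measurable_const bM.meas,
      C', fun p => ?_⟩
    unfold Mir0; split_ifs
    · simpa using (norm_nonneg _).trans (hC' p)
    · exact hC' p

theorem Mir_ofReal (n : ℕ) {ω t : ℝ} (hω : 0 < ω) (ht : 0 < t) (W : Submodule ℝ (Ev (n / 2)))
    (x : Xs (n / 2)) : Mir n ω W t x = ((t ^ (-(n : ℝ) / 2) *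
      ∑' η : Zv (n / 2), (if iv η ∈ W ∧ η ≠ 0 then FS (n % 2) ω (ft t⁻¹) η x else 0) : ℝ) : ℂ) := by
  unfold Mir
  rw [isq_ofReal_pow n ht, Complex.ofReal_mul, Complex.ofReal_tsum]
  congr 1
  refine tsum_congr fun η => ?_
  split_ifs
  · rw [← Complex.ofReal_inv, Fz_ofReal hω (inv_pos.mpr ht)]
  · simp

theorem Vt_decomp : ∀ᶠ n : ℕ in atTop, ∀ᶠ ω in 𝓝[>] (0 : ℝ),
    ∀ (W : Submodule ℝ (Ev (n / 2))) (D : ℝ), Adm n ω W D 1 → D ≤ ω⁻¹ ^ (MM n + 2) →
    ∀ t ∈ Set.Icc (1 : ℝ) 3, ∀ ζ g : ℝ → ℂ, Mx n t ζ g → ∀ x,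
      (Vt n ω t x : ℂ) - Ov n ω W ζ g x = Sg n ω W t x + (Mv n ω W ζ g x + Rv n ω W ζ g x) := by
  filter_upwards [parts_bm] with n h1
  filter_upwards [h1, self_mem_nhdsWithin] with ω h1 hω W D hA hD t ht ζ g hM x
  obtain ⟨bO, bM, bR, bS, bM0⟩ := h1 W D hA hD ζ hM.mz hM.adz
  have iF : ∀ k, Integrable (fun y => g y * Fz (n % 2) ω (ζ y) k x) nu := fun k =>
    (FS_mix (r := n % 2) hω one_pos hM.mz (fun y => (hM.adz y).re_mem.1) hM.int
      (fun ρ _ => hM.rep ρ) k x).1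
  have iq : Integrable (fun y => g y * isq (ζ y) ^ n) nu :=
    BM.int_mul hM.int ⟨(measurable_isq.comp hM.mz).pow_const n, 1,
      fun y => norm_isq_le n (hM.adz y).re_mem.1⟩
  have iO := BM.slice (F := fun y => Osc n ω W (ζ y)) bO hM.int x
  have iM := BM.slice (F := fun y => Mir n ω W (ζ y)) bM hM.int x
  have iR := BM.slice (F := fun y => Rem n ω W (ζ y)) bR hM.int x
  have iS := BM.slice (F := fun y => Str n ω W (ζ y)) bS hM.int x
  have iM0 := BM.int_mul hM.int (bM0.comp (measurable_prodMk_right (y := x)))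
  have e1 : (Vt n ω t x : ℂ) = ∫ y, g y * Wz n ω (ζ y) x ∂nu := by
    unfold Vt Wz
    push_cast
    simp only [hM.fs ω hω, hM.inn, mul_sub, Finset.mul_sum]
    rw [integral_sub (integrable_finsetSum _ fun k _ => iF k) iq, integral_finsetSum _ fun k _ => iF k]
  have e2 : ∫ y, g y * Str n ω W (ζ y) x ∂nu =
      ((∑ k ∈ (Kn n ω).filter (fun k => iv k ∈ W), FS (n % 2) ω (hh n t) k x : ℝ) : ℂ) := by
    unfold Str
    push_cast
    simp only [hM.fs ω hω, Finset.mul_sum]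
    rw [integral_finsetSum _ fun k _ => iF k]
  have e3 : ∫ y, g y * Mir n ω W (ζ y) x ∂nu = g 0 * Mir n ω W (ζ 0) x + Mv n ω W ζ g x := by
    unfold Mv
    rw [← (nu_point (g 0 * Mir n ω W (ζ 0) x)).2, ← integral_add (nu_point _).1 iM0]
    refine integral_congr_ae (Eventually.of_forall fun y => ?_)
    simp only [Mir0]
    split_ifs with h
    · simp [h]
    · simp
  have e4 : ∫ y, g y * Wz n ω (ζ y) x ∂nu = ∫ y, g y * Str n ω W (ζ y) x ∂nu +
      ∫ y, g y * Mir n ω W (ζ y) x ∂nu + Ov n ω W ζ g x + Rv n ω W ζ g x := by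
    unfold Ov Rv
    have a1 := integral_add iS iM
    have a2 := integral_add (iS.add iM) iO
    have a3 := integral_add ((iS.add iM).add iO) iR
    simp only [Pi.add_apply] at a2 a3
    rw [← a1, ← a2, ← a3]
    refine integral_congr_ae (Eventually.of_forall fun y => ?_)
    simp only [Rem]
    ring
  rw [e1, e4, e2, e3]
  unfold Sg
  rcases le_or_gt t (3 / 2) with h | h
  · rw [if_pos h, (hM.lo h).1, (hM.lo h).2, Mir_ofReal n hω (by linarith [ht.1])]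
    push_cast; ring
  · rw [if_neg (not_le.mpr h), hM.hi h]
    push_cast; ring

/-- a family of admissible subspaces with invariant weights -/
structure Fam {ι : Type} (n : ℕ) (ω : ℝ) (s : Finset ι) (W : ι → Submodule ℝ (Ev (n / 2)))
    (D : ι → ℝ) (H : ι → Xs (n / 2) → ℝ) : Prop where
  adm : ∀ i ∈ s, Adm n ω (W i) (D i) 1
  dle : ∀ i ∈ s, D i ≤ ω⁻¹ ^ (MM n + 2)
  inv : ∀ i ∈ s, InvW (W i) (H i)

theorem fam_O : ∀ᶠ n : ℕ in atTop, ∀ᶠ ω in 𝓝[>] (0 : ℝ), ∀ (ι : Type) (s : Finset ι)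
    (W : ι → Submodule ℝ (Ev (n / 2))) (D : ι → ℝ) (H : ι → Xs (n / 2) → ℝ), Fam n ω s W D H →
    ∀ t ∈ Set.Icc (1 : ℝ) 3, ∀ ζ g : ℝ → ℂ, Mx n t ζ g →
      (∀ i ∈ s, BM (Ov n ω (W i) ζ g)) ∧ ∀ B : ℝ, 0 ≤ B →
      (∀ z, Adz z → ∑ i ∈ s, ∫ x, H i x * ‖Osc n ω (W i) z x‖ ^ 2 ∂PP (n / 2) ≤
        B * Nz n z.re ^ 2) →
      ∑ i ∈ s, ∫ x, H i x * ‖Ov n ω (W i) ζ g x‖ ^ 2 ∂PP (n / 2) ≤
        4 * (n : ℝ) ^ 14 * B * Nt n t ^ 2 := by
  filter_upwards [parts_bm] with n h1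
  filter_upwards [h1] with ω h1 ι s W D H hF t ht ζ g hM
  have bO := fun i hi => (h1 (W i) (D i) (hF.adm i hi) (hF.dle i hi) ζ hM.mz hM.adz).1
  refine ⟨fun i hi => BM.mix' (F := fun y => Osc n ω (W i) (ζ y)) (bO i hi) hM.mg hM.int,
    fun B hB h => ?_⟩
  have := mix_sq (P := PP (n / 2)) (ν := nu) s (fun i hi => (hF.inv i hi).w01) bO hM.mg hM.int
    (fun y => (Nz_pos n (hM.adz y).re_mem.1).1) hM.intN (B := B) (fun y => by
      simp only; exact h _ (hM.adz y))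
  simp only at this
  unfold Ov
  refine this.trans ?_
  calc _ ≤ B * (2 * (n : ℝ) ^ 7 * Nt n t) ^ 2 := by
        gcongr
        · exact hM.mass_nonneg
        · exact hM.mass
    _ = _ := by ring

theorem fam_E : ∀ᶠ n : ℕ in atTop, ∀ᶠ ω in 𝓝[>] (0 : ℝ), ∀ (ι : Type) (s : Finset ι)
    (W : ι → Submodule ℝ (Ev (n / 2))) (D : ι → ℝ) (H : ι → Xs (n / 2) → ℝ), Fam n ω s W D H →
    ∀ t ∈ Set.Icc (1 : ℝ) 3, ∀ ζ g : ℝ → ℂ, Mx n t ζ g → ∀ B : ℝ, 0 ≤ B →
      ∑ i ∈ s, ∫ x, H i x * Sg n ω (W i) t x ^ 2 ∂PP (n / 2) ≤ B * Nt n t ^ 2 →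
      (∀ z : ℂ, (z.re = 1.45 ∨ z.re = 1.55) →
        ∑ i ∈ s, ∫ x, H i x * ‖Mir n ω (W i) z x‖ ^ 2 ∂PP (n / 2) ≤ B * Nz n z.re ^ 2) →
      ∑ i ∈ s, (∫ x, H i x ∂PP (n / 2)) * D i ^ 2 ≤ B * rexp (8 * n) →
      ∑ i ∈ s, ∫ x, H i x * ‖(Vt n ω t x : ℂ) - Ov n ω (W i) ζ g x‖ ^ 2 ∂PP (n / 2) ≤
        34 * (n : ℝ) ^ 14 * B * Nt n t ^ 2 := by
  filter_upwards [parts_bm, Vt_decomp, Sg_le, Rem_le, eventually_ge_atTop 1] with n h1 h2 h3 h4 hn
  filter_upwards [h1, h2, h3, h4] with ω h1 h2 h3 h4 ι s W D H hF t ht ζ g hM B hB hS hMi hR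
  have hb := fun i hi => h1 (W i) (D i) (hF.adm i hi) (hF.dle i hi) ζ hM.mz hM.adz
  have hH := fun i hi => (hF.inv i hi).w01
  have bS : ∀ i ∈ s, BM (fun x => (Sg n ω (W i) t x : ℂ)) := fun i hi =>
    ⟨Complex.measurable_ofReal.comp (measurable_Sg n ω _ t), _, fun x => by
      rw [Complex.norm_real, Real.norm_eq_abs]; exact h3 _ _ (hF.adm i hi) t ht x⟩
  have bM : ∀ i ∈ s, BM (Mv n ω (W i) ζ g) := fun i hi => (hb i hi).2.2.2.2.mix hM.mg hM.int
  have bR : ∀ i ∈ s, BM (Rv n ω (W i) ζ g) := fun i hi =>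
    BM.mix' (F := fun y => Rem n ω (W i) (ζ y)) (hb i hi).2.2.1 hM.mg hM.int
  have hN := fun y => (Nz_pos n (hM.adz y).re_mem.1).1
  have m0 : B * (∫ y, ‖g y‖ * Nz n (ζ y).re ∂nu) ^ 2 ≤ B * (2 * (n : ℝ) ^ 7 * Nt n t) ^ 2 := by
    gcongr
    · exact hM.mass_nonneg
    · exact hM.mass
  have m1 := (mix_sq (P := PP (n / 2)) (ν := nu) s hH (fun i hi => (hb i hi).2.2.2.2) hM.mg hM.int
    hN hM.intN (B := B) (fun y => by
      by_cases hy : y = 0
      · simp only [Mir0, hy, if_true, norm_zero]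
        simp only [ne_eq, OfNat.ofNat_ne_zero, not_false_eq_true, zero_pow, mul_zero,
          integral_zero, Finset.sum_const_zero]
        positivity
      · simp only [Mir0, hy, if_false]
        exact hMi _ (hM.re y hy))).trans m0
  have m2 := (mix_sq (P := PP (n / 2)) (ν := nu) s hH (fun i hi => (hb i hi).2.2.1) hM.mg hM.int
    hN hM.intN (B := B) (fun y => by
      have r := (hM.adz y).re_mem
      have hz := le_Nz n (ζ y).re ⟨r.1, by linarith [r.2]⟩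
      calc _ ≤ ∑ i ∈ s, (∫ x, H i x ∂PP (n / 2)) * D i ^ 2 * rexp (-5 * n) ^ 2 := by
            refine Finset.sum_le_sum fun i hi => ?_
            rw [mul_assoc, ← integral_mul_const]
            refine integral_mono ((hH i hi).int_norm_pow
              ((hb i hi).2.2.1.comp measurable_prodMk_left) 2 _)
              (((hH i hi).integrable _).mul_const _) fun x => ?_
            refine mul_le_mul_of_nonneg_left ?_ ((hH i hi).nonneg x)
            rw [← mul_pow]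
            exact pow_le_pow_left₀ (norm_nonneg _)
              (h4 _ _ (hF.adm i hi) (hF.dle i hi) _ r.1 (by linarith [r.2]) x) 2
        _ ≤ B * rexp (8 * n) * rexp (-5 * n) ^ 2 := by
            rw [← Finset.sum_mul]; gcongr
        _ = B * rexp (-n) ^ 2 := by
            rw [mul_assoc, ← Real.exp_nat_mul, ← Real.exp_nat_mul, ← Real.exp_add]
            congr 2; push_cast; ring
        _ ≤ _ := by gcongr)).trans m0
  have a1 := sum_sq_add_le (P := PP (n / 2)) s hH bS (fun i hi => (bM i hi).add (bR i hi))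
  have a2 := sum_sq_add_le (P := PP (n / 2)) s hH bM bR
  have e : ∑ i ∈ s, ∫ x, H i x * ‖(Vt n ω t x : ℂ) - Ov n ω (W i) ζ g x‖ ^ 2 ∂PP (n / 2) =
      ∑ i ∈ s, ∫ x, H i x * ‖(Sg n ω (W i) t x : ℂ) +
        (Mv n ω (W i) ζ g x + Rv n ω (W i) ζ g x)‖ ^ 2 ∂PP (n / 2) :=
    Finset.sum_congr rfl fun i hi => by
      simp only [h2 _ _ (hF.adm i hi) (hF.dle i hi) t ht ζ g hM]
  simp only [Complex.norm_real, Real.norm_eq_abs, sq_abs] at a1
  rw [e]
  have hn1 : (1 : ℝ) ≤ (n : ℝ) ^ 14 := one_le_pow₀ (by exact_mod_cast hn)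
  have hp : 0 ≤ B * Nt n t ^ 2 := by positivity
  have e5 : B * (2 * (n : ℝ) ^ 7 * Nt n t) ^ 2 = 4 * ((n : ℝ) ^ 14 * (B * Nt n t ^ 2)) := by ring
  rw [e5] at m1 m2
  unfold Mv Rv at *
  nlinarith [mul_le_mul_of_nonneg_right hn1 hp]

end Pool.Agent.Eps
end
end
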