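import Pool.Agent.Lib.MP_3bda03_nt.T1A

-- part Pool.Agent.Lib.MP_3bda03_nt.T1
section

set_option autoImplicit false

noncomputable section

open scoped BigOperators Classical Topology
open MeasureTheory Real Complex Filter

namespace Pool.Agent.Eps

/-- sums over pairs, organised by the value of a unimodular combination -/
lemma t1_pair {m : ℕ} {ω A A' : ℝ} (hω : 0 < ω) (hA : 0 < A) (hA' : 0 < A') {p q : ℤ}
    (hpq : IsCoprime q p) (hs : 0 < A * (q : ℝ) ^ 2 + A' * (p : ℝ) ^ 2) (Q : Zv m → Prop)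
    [DecidablePred Q] (P : Finset (Zv m × Zv m)) (hP : ∀ x ∈ P, Q (q • x.2 - p • x.1)) :
    ω ^ m * ∑ x ∈ P, t1E ω A x.1 * t1E ω A' x.2 ≤
      (ω + 1 / √(A * (q : ℝ) ^ 2 + A' * (p : ℝ) ^ 2)) ^ m *
        ∑' δ, if Q δ then t1E ω (A * A' / (A * (q : ℝ) ^ 2 + A' * (p : ℝ) ^ 2)) δ else 0 := by
  obtain ⟨u, v, huv⟩ := hpq
  let d : Zv m × Zv m → Zv m := fun x => q • x.2 - p • x.1
  let k0 : Zv m × Zv m → Zv m := fun x => u • x.1 + v • x.2
  have e1 : ∀ x, x.1 = q • k0 x - v • d x := fun x => by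
    ext i
    simp only [k0, d, Pi.sub_apply, Pi.add_apply, Pi.smul_apply, smul_eq_mul]
    linear_combination (-x.1 i) * huv
  have e2 : ∀ x, x.2 = p • k0 x + u • d x := fun x => by
    ext i
    simp only [k0, d, Pi.sub_apply, Pi.add_apply, Pi.smul_apply, smul_eq_mul]
    linear_combination (-x.2 i) * huv
  rw [← Finset.sum_fiberwise_of_maps_to (s := P) (t := P.image d) (g := d)
    fun x hx => Finset.mem_image_of_mem d hx, Finset.mul_sum]
  refine le_trans (Finset.sum_le_sum (g := fun δ =>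
    (ω + 1 / √(A * (q : ℝ) ^ 2 + A' * (p : ℝ) ^ 2)) ^ m *
      if Q δ then t1E ω (A * A' / (A * (q : ℝ) ^ 2 + A' * (p : ℝ) ^ 2)) δ else 0) fun δ hδ => ?_) ?_
  · obtain ⟨x0, hx0, rfl⟩ := Finset.mem_image.1 hδ
    rw [if_pos (hP x0 hx0)]
    generalize d x0 = δ
    obtain ⟨g1, g2⟩ := gauss_two (p := p) (q := q) hω hA.le hA'.le hs
      (-((v : ℝ) • iv δ)) ((u : ℝ) • iv δ)
    have e3 : ‖(p : ℝ) • -((v : ℝ) • iv δ) - (q : ℝ) • (u : ℝ) • iv δ‖ = ‖iv δ‖ := by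
      have : (u : ℝ) * q + v * p = 1 := by exact_mod_cast huv
      rw [← norm_neg (iv δ), ← one_smul ℝ (-iv δ), ← this]
      congr 1
      module
    rw [e3] at g2
    refine le_trans (mul_le_mul_of_nonneg_left ?_ (by positivity)) (g2.trans (le_of_eq ?_))
    · refine le_trans (le_of_eq ?_) (g1.sum_le_tsum ((P.filter fun x => d x = δ).image k0)
        fun _ _ => Real.exp_nonneg _)
      rw [Finset.sum_image fun x hx y hy h => ?_]
      · refine Finset.sum_congr rfl fun x hx => ?_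
        have h := (Finset.mem_filter.1 hx).2
        rw [← Real.exp_add, ← h, ← sub_eq_add_neg, ← iv_zsmul, ← iv_zsmul, ← iv_zsmul, ← iv_zsmul,
          ← iv_sub, ← iv_add, ← e1, ← e2]
        congr 1
        ring
      · have h1 := (Finset.mem_filter.1 hx).2
        have h2 := (Finset.mem_filter.1 hy).2
        exact Prod.ext (by rw [e1 x, e1 y, h, h1, h2]) (by rw [e2 x, e2 y, h, h1, h2])
    · congr 2
      ring
  · rw [← Finset.mul_sum]
    exact mul_le_mul_of_nonneg_left ((summable_th hω (by positivity) Q).sum_le_tsum _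
      fun _ _ => by split_ifs <;> positivity) (by positivity)

/-- the coefficients that remain after the two diagonal terms are removed -/
def t1c (n : ℕ) (ω : ℝ) (W : Submodule ℝ (Ev (n / 2))) (z : ℂ) (k η : Zv (n / 2)) : ℂ :=
  if iv η ∉ W ∧ η ≠ k ∧ η ≠ -k then Cp (n % 2) ω z k η else 0

lemma t1_step1 {n : ℕ} {ω : ℝ} (hω : 0 < ω) {W : Submodule ℝ (Ev (n / 2))} {H : Xs (n / 2) → ℝ}
    (hH : InvW W H) {z : ℂ} (hz : 0 < z.re) :
    ‖∫ x, (H x : ℂ) * Osc n ω W z x ∂PP (n / 2) - Del n ω z * (∫ x, H x ∂PP (n / 2) : ℝ)‖ ≤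
      (∫ x, H x ∂PP (n / 2)) * (∑ k ∈ (Kn n ω).filter (fun k => iv k ∉ W),
        (∑' η, if iv η ∈ ext W k then ‖t1c n ω W z k η‖ else 0) +
        ∑ k ∈ (Kn n ω).filter (fun k => iv k ∈ W),
          ‖Cp (n % 2) ω z k k + Cp (n % 2) ω z k (-k)‖) := by
  set F := (Kn n ω).filter (fun k => iv k ∉ W) with hF
  have hc : ∀ k, Summable fun η => ‖t1c n ω W z k η‖ := fun k =>
    t1_summable_ite (t1_summable_right hω hz k) _
  let R : Zv (n / 2) → Xs (n / 2) → ℂ := fun k x => ∑' η, t1c n ω W z k η * ch η k x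
  have h1 : ∀ k ∈ F, ∀ x, Pz n ω W z k x =
      Cp (n % 2) ω z k k + Cp (n % 2) ω z k (-k) + R k x := fun k hk x => by
    have hk := (Finset.mem_filter.1 hk).2
    have hk' : iv (-k) ∉ W := by rwa [iv_neg, neg_mem_iff]
    have hne : k ≠ -k := fun h => hk (by
      have : k = 0 := funext fun i => by
        have := congrFun h i
        simp only [Pi.neg_apply] at this
        simp only [Pi.zero_apply]
        omega
      rw [this, iv_zero]
      exact W.zero_mem)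
    have a1 := hasSum_ite_eq k (Cp (n % 2) ω z k k)
    have a2 := hasSum_ite_eq (-k) (Cp (n % 2) ω z k (-k))
    have a3 : HasSum (fun η => t1c n ω W z k η * ch η k x) (R k x) :=
      (Summable.of_norm (by simpa [norm_ch] using hc k)).hasSum
    rw [← ((a1.add a2).add a3).tsum_eq]
    refine tsum_congr fun η => ?_
    have c1 : ch k k x = 1 := ch_eq_one (Submodule.mem_span_singleton_self _) x
    have c2 : ch (-k) k x = 1 := ch_eq_one (by
      rw [iv_neg, neg_mem_iff]; exact Submodule.mem_span_singleton_self _) x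
    by_cases b1 : η = k
    · subst b1
      simp [t1c, hk, hne, c1]
    by_cases b2 : η = -k
    · subst b2
      simp [t1c, hk', b1, c2]
    by_cases b3 : iv η ∈ W <;> simp [t1c, b1, b2, b3]
  have hi : Integrable (fun x => (H x : ℂ)) (PP (n / 2)) := hH.integrable.ofReal
  have h2 : ∀ k, Integrable (fun x => (H x : ℂ) * R k x) (PP (n / 2)) := fun k =>
    hi.mul_bdd (continuous_tsum (fun η => continuous_const.mul (continuous_ch η k)) (hc k)
      fun η x => by simp [norm_ch]).aestronglyMeasurable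
      (Eventually.of_forall fun x => tsum_of_norm_bounded (hc k).hasSum fun η => by simp [norm_ch])
  have h3 : ∫ x, (H x : ℂ) * Osc n ω W z x ∂PP (n / 2) =
      (∑ k ∈ F, (Cp (n % 2) ω z k k + Cp (n % 2) ω z k (-k))) * (∫ x, H x ∂PP (n / 2) : ℝ) +
        ∑ k ∈ F, ∫ x, (H x : ℂ) * R k x ∂PP (n / 2) := by
    rw [← integral_finsetSum _ fun k _ => h2 k, ← integral_complex_ofReal, ← integral_const_mul,
      ← integral_add (hi.const_mul _) (integrable_finsetSum _ fun k _ => h2 k)]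
    refine integral_congr_ae (Eventually.of_forall fun x => ?_)
    simp only [Osc]
    rw [Finset.sum_congr rfl fun k hk => h1 k hk x, Finset.sum_add_distrib, ← Finset.mul_sum]
    ring
  have h0 : 0 ≤ ∫ x, H x ∂PP (n / 2) := integral_nonneg hH.nonneg
  rw [h3, Del, ← Finset.sum_filter_add_sum_filter_not (Kn n ω) (fun k => iv k ∈ W), add_mul,
    ← hF, add_comm, add_sub_add_right_eq_sub, mul_add, Finset.mul_sum]
  refine (norm_sub_le _ _).trans (add_le_add (norm_sum_le_of_le _ fun k hk =>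
    avg_one_le hH (Finset.mem_filter.1 hk).2 (hc k)) ?_)
  rw [norm_mul, Complex.norm_real, Real.norm_of_nonneg h0, mul_comm]
  exact mul_le_mul_of_nonneg_left (norm_sum_le _ _) h0

/-- the restricted theta sum of the surviving frequencies -/
def t1T {m : ℕ} (ω : ℝ) (W : Submodule ℝ (Ev m)) (β : ℝ) (k : Zv m) : ℝ :=
  ∑' η, if iv η ∈ ext W k ∧ iv η ∉ W ∧ η ≠ k ∧ η ≠ -k then t1E ω β η else 0

lemma t1_step2 {n : ℕ} {ω : ℝ} (hω : 0 < ω) (W : Submodule ℝ (Ev (n / 2))) {z : ℂ}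
    (hz : 1 ≤ z.re) (k : Zv (n / 2)) :
    (∑' η, if iv η ∈ ext W k then ‖t1c n ω W z k η‖ else 0) ≤
      2 * ‖z‖ ^ (-mh n) * (ω ^ (n / 2) * (t1E ω z.re k * t1T ω W (z.re / ‖z‖ ^ 2) k)) := by
  refine (Real.le_norm_self _).trans ((tsum_of_norm_bounded
    ((summable_th hω (t1_star_pos hz) fun η => iv η ∈ ext W k ∧ iv η ∉ W ∧ η ≠ k ∧ η ≠ -k).hasSum.mul_left
      (2 * (ω ^ (n / 2) * ‖z‖ ^ (-mh n)) * t1E ω z.re k)) fun η => ?_).trans (le_of_eq ?_))
  · by_cases a : iv η ∈ ext W k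
    · by_cases b : iv η ∉ W ∧ η ≠ k ∧ η ≠ -k
      · rw [if_pos a, if_pos ⟨a, b⟩, t1c, if_pos b, norm_norm, mul_assoc]
        exact t1_Cp_le hω hz k η
      · simp [t1c, b]
    · simp [a]
  · rw [t1T]
    ring

lemma t1T_le {m : ℕ} {ω β : ℝ} (hω : 0 < ω) (hβ : 0 < β) (W : Submodule ℝ (Ev m)) (k : Zv m) :
    t1T ω W β k ≤ th ω (ext W k) β :=
  hasSum_le (fun η => by
    split_ifs with a b
    · exact le_rfl
    · exact absurd a.1 b
    · exact Real.exp_nonneg _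
    · exact le_rfl) (summable_th hω hβ _).hasSum (summable_th hω hβ _).hasSum

/-- large parameter -/
lemma t1_far : ∀ᶠ n : ℕ in atTop, ∀ᶠ ω in 𝓝[>] (0 : ℝ),
    ∀ (W : Submodule ℝ (Ev (n / 2))) (D : ℝ), Adm n ω W D 1 → ∀ z : ℂ, 1 ≤ z.re → z.re ≤ 4 →
      5 ≤ ‖z‖ → ‖z‖ ^ (-mh n) * (ω ^ (n / 2) * ∑ k ∈ (Kn n ω).filter (fun k => iv k ∉ W),
        t1E ω z.re k * t1T ω W (z.re / ‖z‖ ^ 2) k) ≤
        n ^ 10 * (D ^ 2 * En n ^ 2 * (z.re * 5) ^ (-mh n)) := by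
  filter_upwards [t1_grow 4, t1_log, sum_dk_le] with n hg hl hs
  filter_upwards [hs, self_mem_nhdsWithin] with ω hs hω W D h z hz hz' hζ
  have hω : 0 < ω := hω
  have h0 := t1_star_pos hz
  have hD := h.one_le
  set G := max 1 (4 * ‖z‖ / √(Real.log n)) with hG
  have hG1 : 1 ≤ G := le_max_left _ _
  have h1 : th ω W (z.re / ‖z‖ ^ 2 / 4) ≤ D * En n ^ 2 * G ^ (2 * MM n + 2) :=
    t1_env (by linarith) h (by positivity) (by
      rw [div_div, div_div_eq_mul_div, div_le_iff₀ (by linarith)]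
      nlinarith [sq_nonneg ‖z‖]) (by positivity)
  have hl0 : 0 < √(Real.log n) := Real.sqrt_pos.2 (by linarith)
  have h2 : ‖z‖ ≤ n * G := by
    have a1 : √(Real.log n) ≤ n := by
      rw [Real.sqrt_le_left n.cast_nonneg]
      have := Real.log_le_self (n.cast_nonneg (α := ℝ))
      nlinarith
    have a2 : 4 * ‖z‖ ≤ G * √(Real.log n) := (div_le_iff₀ hl0).1 (le_max_right _ _)
    nlinarith
  have h3 := hs W D 1 (by norm_num) h z.re ⟨by linarith, hz'⟩ 1 (by norm_num)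
  simp only [pow_one] at h3
  calc _ ≤ ‖z‖ ^ (-mh n) * (ω ^ (n / 2) * ∑ k ∈ (Kn n ω).filter (fun k => iv k ∉ W),
        D * En n ^ 2 * G ^ (2 * MM n + 2) * (n * G) * (t1E ω z.re k * (1 + 1 / dk ω W k))) := by
        gcongr _ * (_ * ∑ k ∈ _, ?_) with k hk
        have hk := (Finset.mem_filter.1 hk).2
        have a1 := t1_dk_pos hω h hk
        calc _ ≤ t1E ω z.re k * (D * En n ^ 2 * G ^ (2 * MM n + 2) *
              (n * G * (1 + 1 / dk ω W k))) := by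
              gcongr
              refine (t1T_le hω h0 W k).trans ((t1_th_ext hω h0 h hk (c := ‖z‖) (by linarith) (by
                rw [div_mul_cancel₀ _ (by positivity)]; exact hz)).trans ?_)
              gcongr
          _ = _ := by ring
    _ = D * En n ^ 2 * n * (‖z‖ ^ (-mh n) * G ^ (2 * MM n + 3)) * (ω ^ (n / 2) *
        ∑ k ∈ (Kn n ω).filter (fun k => iv k ∉ W), t1E ω z.re k * (1 + 1 / dk ω W k)) := by
        rw [← Finset.mul_sum]
        ring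
    _ ≤ D * En n ^ 2 * n * 5 ^ (-mh n) * (D * n ^ 9 * z.re ^ (-mh n)) := by
        have : 0 ≤ ∑ k ∈ (Kn n ω).filter (fun k => iv k ∉ W), t1E ω z.re k * (1 + 1 / dk ω W k) :=
          Finset.sum_nonneg fun k hk => by
            have := t1_dk_pos hω h (Finset.mem_filter.1 hk).2
            positivity
        gcongr
        exact hg 5 _ (by norm_num) le_rfl hζ 3 (by norm_num)
    _ = _ := by rw [Real.mul_rpow (by linarith) (by norm_num)]; ring

/-- the pairs with bounded ratio -/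
def t1P (n : ℕ) (ω : ℝ) (W : Submodule ℝ (Ev (n / 2))) : Finset (Zv (n / 2) × Zv (n / 2)) :=
  ((Kn n ω).filter (fun k => iv k ∉ W) ×ˢ Kn n ω).filter fun x =>
    1 / (n : ℝ) ^ 2 ≤ dk ω W x.1 ∧ iv x.2 ∈ ext W x.1 ∧ iv x.2 ∉ W ∧ x.2 ≠ x.1 ∧ x.2 ≠ -x.1

lemma t1_split {n : ℕ} {ω β : ℝ} (hω : 0 < ω) (hβ : 1 / 25 ≤ β) (W : Submodule ℝ (Ev (n / 2)))
    (k : Zv (n / 2)) :
    t1T ω W β k ≤ (if dk ω W k < 1 / (n : ℝ) ^ 2 then th ω (ext W k) β else 0) +
      rexp (-π * (1 / 50) * n ^ 2) * th ω (ext W k) (1 / 50) +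
      ∑ η ∈ Kn n ω, if 1 / (n : ℝ) ^ 2 ≤ dk ω W k ∧ iv η ∈ ext W k ∧ iv η ∉ W ∧ η ≠ k ∧ η ≠ -k
        then t1E ω β η else 0 := by
  have h0 : 0 < β := by linarith
  have h1 := t1_th_nonneg ω (1 / 50) (ext W k)
  split_ifs with a
  · refine (t1T_le hω h0 W k).trans ?_
    rw [add_assoc]
    refine le_add_of_nonneg_right (add_nonneg (by positivity) (Finset.sum_nonneg fun _ _ => ?_))
    split_ifs <;> positivity
  · rw [zero_add]
    have h2 := hasSum_sum_of_ne_finset_zero (L := .unconditional _) (s := Kn n ω)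
      (f := fun η => if η ∈ Kn n ω then (if 1 / (n : ℝ) ^ 2 ≤ dk ω W k ∧ iv η ∈ ext W k ∧
        iv η ∉ W ∧ η ≠ k ∧ η ≠ -k then t1E ω β η else 0) else 0) (fun k hk => if_neg hk)
    rw [Finset.sum_congr rfl fun k hk => if_pos hk] at h2
    refine hasSum_le (fun η => ?_) (summable_th hω h0 _).hasSum
      ((t1_hasSum_th hω (by norm_num) _ _).add h2)
    by_cases b : iv η ∈ ext W k ∧ iv η ∉ W ∧ η ≠ k ∧ η ≠ -k
    · rw [if_pos b, if_pos b.1]
      by_cases c : η ∈ Kn n ω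
      · rw [if_pos c, if_pos ⟨not_lt.1 a, b⟩]
        exact le_add_of_nonneg_left (by positivity)
      · rw [if_neg c, add_zero]
        have : (n : ℝ) ≤ ω * ‖iv η‖ := by
          by_contra d
          refine c ((mem_Kn hω η).2 ⟨?_, (not_le.1 d).le⟩)
          rintro rfl
          exact b.2.1 (iv_zero ▸ W.zero_mem)
        exact (t1E_anti ω (by linarith) η).trans (t1E_tail (by norm_num) n.cast_nonneg this)
    · rw [if_neg b]
      split_ifs <;> positivity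

lemma t1_Y {ζ : ℝ} (hζ : 1 ≤ ζ) {p q : ℤ} (hp : p ≠ 0) (hq : 0 < q)
    (h : ¬ (q = 1 ∧ (p = 1 ∨ p = -1))) : ζ + 4 / ζ ≤ (q : ℝ) ^ 2 * ζ + (p : ℝ) ^ 2 / ζ := by
  have h0 : 0 < ζ := by linarith
  have h1 : (1 : ℝ) ≤ (p : ℝ) ^ 2 := by exact_mod_cast (one_le_sq_iff_one_le_abs p).2 (Int.one_le_abs hp)
  rcases (show 1 = q ∨ 2 ≤ q by omega) with rfl | h2
  · have h3 : (4 : ℝ) ≤ (p : ℝ) ^ 2 := by
      have : 4 ≤ p ^ 2 := by
        rcases (show p ≤ -2 ∨ 2 ≤ p by omega) with a | a <;> nlinarith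
      exact_mod_cast this
    simp only [Int.cast_one, one_pow, one_mul]
    gcongr
  · have h3 : (4 : ℝ) ≤ (q : ℝ) ^ 2 := by
      have : 4 ≤ q ^ 2 := by nlinarith
      exact_mod_cast this
    have h4 : 1 / ζ ≤ ζ := by rw [div_le_iff₀ h0]; nlinarith
    calc ζ + 4 / ζ = ζ + 3 * (1 / ζ) + 1 / ζ := by ring
      _ ≤ 4 * ζ + 1 / ζ := by linarith
      _ ≤ _ := by gcongr

lemma t1_pair' {n : ℕ} {ω : ℝ} (hω : 0 < ω) {z : ℂ} (hz : 1 ≤ z.re) (hz' : z.re ≤ 4)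
    (hs : ∀ s : ℝ, 0 < s → s ≤ 8 * (n : ℝ) ^ 6 → (ω + 1 / √s) ^ (n / 2) ≤ 1.2 * s ^ (-mh n))
    {p q : ℤ} (hpq : IsCoprime q p) (hq : 0 < q) (hp' : |(p : ℝ)| ≤ n ^ 3) (hq' : (q : ℝ) ≤ n ^ 3)
    (Q : Zv (n / 2) → Prop) [DecidablePred Q] (P : Finset (Zv (n / 2) × Zv (n / 2)))
    (hP : ∀ x ∈ P, Q (q • x.2 - p • x.1)) :
    ‖z‖ ^ (-mh n) * (ω ^ (n / 2) * ∑ x ∈ P, t1E ω z.re x.1 * t1E ω (z.re / ‖z‖ ^ 2) x.2) ≤
      1.2 * (z.re * ((q : ℝ) ^ 2 * ‖z‖ + (p : ℝ) ^ 2 / ‖z‖)) ^ (-mh n) * ∑' δ, if Q δ then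
        t1E ω (z.re / (‖z‖ * ((q : ℝ) ^ 2 * ‖z‖ + (p : ℝ) ^ 2 / ‖z‖))) δ else 0 := by
  have hζ := t1_re_le hz
  have h0 := t1_star_pos hz
  have hq0 : (0 : ℝ) < q := by exact_mod_cast hq
  have hτ : 0 < z.re := by linarith
  have h1 : 0 < z.re * (q : ℝ) ^ 2 + z.re / ‖z‖ ^ 2 * (p : ℝ) ^ 2 := by positivity
  have h2 := t1_pair hω hτ h0 hpq h1 Q P hP
  have h3 := hs _ h1 (by
    have a1 : z.re / ‖z‖ ^ 2 ≤ 4 := (div_le_self hτ.le (one_le_pow₀ hζ)).trans hz'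
    have a2 : (p : ℝ) ^ 2 ≤ (n ^ 3) ^ 2 := by rw [← sq_abs]; gcongr
    calc _ ≤ 4 * ((n : ℝ) ^ 3) ^ 2 + 4 * (n ^ 3) ^ 2 := by gcongr
      _ = _ := by ring)
  rw [show z.re * (z.re / ‖z‖ ^ 2) / (z.re * (q : ℝ) ^ 2 + z.re / ‖z‖ ^ 2 * (p : ℝ) ^ 2) =
    z.re / (‖z‖ * ((q : ℝ) ^ 2 * ‖z‖ + (p : ℝ) ^ 2 / ‖z‖)) by field_simp] at h2
  rw [show z.re * ((q : ℝ) ^ 2 * ‖z‖ + (p : ℝ) ^ 2 / ‖z‖) =
    ‖z‖ * (z.re * (q : ℝ) ^ 2 + z.re / ‖z‖ ^ 2 * (p : ℝ) ^ 2) by field_simp,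
    Real.mul_rpow (norm_nonneg _) h1.le]
  refine (mul_le_mul_of_nonneg_left (h2.trans (mul_le_mul_of_nonneg_right h3
    (tsum_nonneg fun _ => by split_ifs <;> positivity))) (by positivity)).trans (le_of_eq ?_)
  ring

lemma t1_good : ∀ᶠ n : ℕ in atTop, ∀ᶠ ω in 𝓝[>] (0 : ℝ),
    ∀ (W : Submodule ℝ (Ev (n / 2))) (D : ℝ), Adm n ω W D 1 → ∀ z : ℂ, 1 ≤ z.re → z.re ≤ 4 →
      ‖z‖ ≤ 5 → ‖z‖ ^ (-mh n) * (ω ^ (n / 2) * ∑ x ∈ t1P n ω W,
        t1E ω z.re x.1 * t1E ω (z.re / ‖z‖ ^ 2) x.2) ≤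
        2.4 * ((z.re * (‖z‖ + ‖z‖⁻¹)) ^ (-mh n) * th0 ω W (z.re / (1 + ‖z‖ ^ 2))) +
        4 * n ^ 6 * (D * En n ^ 2 * (z.re * min (‖z‖ + 4 / ‖z‖) 5) ^ (-mh n)) := by
  filter_upwards [t1_grow 5, t1_log, eventually_ge_atTop 1] with n hg hl hn
  filter_upwards [t1_small n (8 * n ^ 6), self_mem_nhdsWithin] with ω hs hω W D h z hz hz' hζ'
  have hω : 0 < ω := hω
  have hn' : (1 : ℝ) ≤ n := by exact_mod_cast hn
  have hζ := t1_re_le hz
  have hτ : 0 < z.re := by linarith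
  have hD := h.one_le
  let R : Finset (ℤ × ℤ) := Finset.Icc (-(n : ℤ) ^ 3) (n ^ 3) ×ˢ Finset.Icc 1 ((n : ℤ) ^ 3)
  let C : ℤ × ℤ → Zv (n / 2) × Zv (n / 2) → Prop := fun a x =>
    a.1 ≠ 0 ∧ IsCoprime a.2 a.1 ∧ iv (a.2 • x.2 - a.1 • x.1) ∈ W
  let f : Zv (n / 2) × Zv (n / 2) → ℝ := fun x => t1E ω z.re x.1 * t1E ω (z.re / ‖z‖ ^ 2) x.2
  have h1 : ∑ x ∈ t1P n ω W, f x ≤ ∑ a ∈ R, ∑ x ∈ (t1P n ω W).filter (C a), f x := by
    simp only [Finset.sum_filter]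
    rw [Finset.sum_comm]
    refine Finset.sum_le_sum fun x hx => ?_
    simp only [t1P, Finset.mem_filter, Finset.mem_product, mem_Kn hω] at hx
    obtain ⟨⟨⟨⟨-, b1⟩, b2⟩, -, b3⟩, b4, b5, b6, -⟩ := hx
    obtain ⟨G, rfl, -⟩ := h.gen
    obtain ⟨p, q, c1, c2, c3, c4, c5⟩ := exists_ratio hω G b2 b5
    have key : ∀ y : ℝ, 0 ≤ y → y * dk ω (spanS G) x.1 ≤ n → y ≤ n ^ 3 := fun y hy h => by
      have := (mul_le_mul_of_nonneg_left b4 hy).trans h
      rw [mul_one_div, div_le_iff₀ (by positivity)] at this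
      exact this.trans (le_of_eq (by ring))
    have d1 : (q : ℝ) ≤ n ^ 3 := key _ (by exact_mod_cast c1.le) (c4.trans b1)
    have d2 : |(p : ℝ)| ≤ n ^ 3 := key _ (abs_nonneg _) (c5.trans b3)
    have d3 : C (p, q) x := ⟨by
      rintro (rfl : p = 0)
      rw [zero_smul, sub_zero, iv_zsmul] at c3
      exact b6 ((Submodule.smul_mem_iff _ (by exact_mod_cast c1.ne')).1 c3), c2, c3⟩
    have d4 : (p, q) ∈ R := by
      simp only [R, Finset.mem_product, Finset.mem_Icc, ← abs_le]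
      exact ⟨by exact_mod_cast d2, c1, by exact_mod_cast d1⟩
    refine le_trans (le_of_eq (if_pos d3).symm) (Finset.single_le_sum
      (f := fun a => if C a x then f x else 0) (fun a _ => ?_) d4)
    split_ifs <;> positivity
  set X := (z.re * (‖z‖ + ‖z‖⁻¹)) ^ (-mh n) * th0 ω W (z.re / (1 + ‖z‖ ^ 2)) with hX
  set Y := D * En n ^ 2 * (z.re * min (‖z‖ + 4 / ‖z‖) 5) ^ (-mh n) with hY
  have hm : 1 ≤ min (‖z‖ + 4 / ‖z‖) 5 :=
    le_min (hζ.trans (le_add_of_nonneg_right (by positivity))) (by norm_num)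
  have hX0 : 0 ≤ X := mul_nonneg (by positivity) (th0_nonneg _ _ _)
  have hY0 : 0 ≤ Y := by positivity
  have h2 : ∀ a ∈ R, ‖z‖ ^ (-mh n) * (ω ^ (n / 2) * ∑ x ∈ (t1P n ω W).filter (C a), f x) ≤
      (if a ∈ ({(1, 1), (-1, 1)} : Finset (ℤ × ℤ)) then 1.2 * X else 0) + 1.2 * Y := by
    rintro ⟨p, q⟩ ha
    simp only [R, Finset.mem_product, Finset.mem_Icc, ← abs_le] at ha
    have d1 : (q : ℝ) ≤ n ^ 3 := by exact_mod_cast ha.2.2
    have d2 : |(p : ℝ)| ≤ n ^ 3 := by exact_mod_cast ha.1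
    by_cases c : p ≠ 0 ∧ IsCoprime q p
    swap
    · rw [Finset.filter_false_of_mem fun x _ hx => c ⟨hx.1, hx.2.1⟩]
      simp only [Finset.sum_empty, mul_zero]
      split_ifs <;> positivity
    by_cases c' : q = 1 ∧ (p = 1 ∨ p = -1)
    · rw [if_pos (by simpa [and_comm, and_or_left] using c')]
      refine (t1_pair' hω hz hz' hs c.2 ha.2.1 d2 d1 (fun δ => iv δ ∈ W ∧ δ ≠ 0) _
        fun x hx => ?_).trans (le_add_of_le_of_nonneg (le_of_eq ?_) (by positivity))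
      · simp only [t1P, Finset.mem_filter] at hx
        refine ⟨hx.2.2.2, sub_ne_zero.2 ?_⟩
        obtain ⟨rfl, rfl | rfl⟩ := c'
        · simpa using hx.1.2.2.2.2.1
        · simpa using hx.1.2.2.2.2.2
      · have e1 : (q : ℝ) ^ 2 * ‖z‖ + (p : ℝ) ^ 2 / ‖z‖ = ‖z‖ + ‖z‖⁻¹ := by
          obtain ⟨rfl, rfl | rfl⟩ := c' <;> simp
        rw [e1, hX, show ‖z‖ * (‖z‖ + ‖z‖⁻¹) = 1 + ‖z‖ ^ 2 by field_simp; ring, mul_assoc]
        rfl
    · refine (t1_pair' hω hz hz' hs c.2 ha.2.1 d2 d1 (fun δ => iv δ ∈ W) _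
        fun x hx => (Finset.mem_filter.1 hx).2.2.2).trans (le_add_of_nonneg_of_le
          (by split_ifs <;> positivity) ?_)
      have e1 := t1_Y hζ c.1 ha.2.1 c'
      generalize (q : ℝ) ^ 2 * ‖z‖ + (p : ℝ) ^ 2 / ‖z‖ = y at e1
      have e2 : min (‖z‖ + 4 / ‖z‖) 5 ≤ y := (min_le_left _ _).trans e1
      have e3 : 1 ≤ y := hm.trans e2
      have e4 := t1_env (u := 5 * y) (β := z.re / (‖z‖ * y)) (by linarith) h (by positivity) (by
        rw [div_div_eq_mul_div, div_le_iff₀ hτ]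
        nlinarith [mul_le_mul_of_nonneg_right hζ' (by linarith : 0 ≤ y),
          mul_le_mul_of_nonneg_left hz (sq_nonneg y)]) (by positivity)
      rw [mul_assoc, hY, Real.mul_rpow hτ.le (by linarith), Real.mul_rpow hτ.le (by linarith)]
      refine mul_le_mul_of_nonneg_left ?_ (by norm_num)
      calc _ ≤ z.re ^ (-mh n) * y ^ (-mh n) *
            (D * En n ^ 2 * (max 1 (5 * y / √(Real.log n))) ^ (2 * MM n + 2)) :=
            mul_le_mul_of_nonneg_left e4 (by positivity)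
        _ = D * En n ^ 2 * (z.re ^ (-mh n) *
            (y ^ (-mh n) * (max 1 (5 * y / √(Real.log n))) ^ (2 * MM n + 2))) := by ring
        _ ≤ _ := by gcongr; exact hg _ _ hm (min_le_right _ _) e2 2 (by norm_num)
  have h3 : (R.card : ℝ) ≤ 3 * n ^ 6 := by
    have a1 : ((Finset.Icc (-(n : ℤ) ^ 3) (n ^ 3)).card : ℤ) = n ^ 3 + 1 - -(n : ℤ) ^ 3 :=
      Int.card_Icc_of_le _ _ (by have : (0 : ℤ) ≤ n ^ 3 := by positivity
                                 linarith)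
    have a2 : ((Finset.Icc 1 ((n : ℤ) ^ 3)).card : ℤ) = n ^ 3 + 1 - 1 :=
      Int.card_Icc_of_le _ _ (by have : (0 : ℤ) ≤ n ^ 3 := by positivity
                                 linarith)
    have a3 : ((Finset.Icc (-(n : ℤ) ^ 3) (n ^ 3)).card : ℝ) = n ^ 3 + 1 - -(n : ℝ) ^ 3 := by
      exact_mod_cast a1
    have a4 : ((Finset.Icc 1 ((n : ℤ) ^ 3)).card : ℝ) = n ^ 3 + 1 - 1 := by exact_mod_cast a2
    rw [Finset.card_product, Nat.cast_mul, a3, a4]
    have : (1 : ℝ) ≤ n ^ 3 := one_le_pow₀ hn'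
    nlinarith
  calc _ ≤ ‖z‖ ^ (-mh n) * (ω ^ (n / 2) * ∑ a ∈ R, ∑ x ∈ (t1P n ω W).filter (C a), f x) := by
        gcongr
    _ ≤ ∑ a ∈ R, ((if a ∈ ({(1, 1), (-1, 1)} : Finset (ℤ × ℤ)) then 1.2 * X else 0) + 1.2 * Y) := by
        rw [Finset.mul_sum, Finset.mul_sum]
        exact Finset.sum_le_sum h2
    _ ≤ 2 * (1.2 * X) + 3 * n ^ 6 * (1.2 * Y) := by
        rw [Finset.sum_add_distrib, Finset.sum_ite_mem, Finset.sum_const, Finset.sum_const,
          nsmul_eq_mul, nsmul_eq_mul]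
        gcongr
        exact_mod_cast (Finset.card_le_card Finset.inter_subset_right).trans Finset.card_le_two
    _ ≤ _ := by nlinarith [mul_nonneg (pow_nonneg (n.cast_nonneg (α := ℝ)) 6) hY0]

lemma t1_low {n : ℕ} {a : ℝ} (ha : 0 < a) (h : a ≤ 20) : rexp (-n) ≤ a ^ (-mh n) := by
  have h1 : (20 : ℝ) ≤ rexp 4 := by
    have := Real.quadratic_le_exp_of_nonneg (x := 2) (by norm_num)
    rw [show (4 : ℝ) = 2 + 2 by norm_num, Real.exp_add]
    nlinarith
  refine le_trans (le_of_eq ?_) (t1_rpow_exp ha (h.trans h1) (by norm_num))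
  congr 1
  ring

/-- bounded parameter -/
lemma t1_near : ∀ᶠ n : ℕ in atTop, ∀ᶠ ω in 𝓝[>] (0 : ℝ),
    ∀ (W : Submodule ℝ (Ev (n / 2))) (D : ℝ), Adm n ω W D 1 → ∀ z : ℂ, 1 ≤ z.re → z.re ≤ 4 →
      ‖z‖ ≤ 5 → ‖z‖ ^ (-mh n) * (ω ^ (n / 2) * ∑ k ∈ (Kn n ω).filter (fun k => iv k ∉ W),
        t1E ω z.re k * t1T ω W (z.re / ‖z‖ ^ 2) k) ≤
        2.4 * ((z.re * (‖z‖ + ‖z‖⁻¹)) ^ (-mh n) * th0 ω W (z.re / (1 + ‖z‖ ^ 2))) +
        17 * n ^ 10 * (D ^ 2 * En n ^ 2 * (z.re * min (‖z‖ + 4 / ‖z‖) 5) ^ (-mh n)) := by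
  filter_upwards [t1_good, t1_log, sum_dk_le, tail_le, En_pow_le 1 9 one_pos,
    eventually_ge_atTop 100] with n hg hl hs ht he hn
  filter_upwards [hg, hs, ht, self_mem_nhdsWithin] with ω hg hs ht hω W D h z hz hz' hζ'
  have hω : 0 < ω := hω
  have hn' : (100 : ℝ) ≤ n := by exact_mod_cast hn
  have hζ := t1_re_le hz
  have h0 := t1_star_pos hz
  have hD := h.one_le
  have hE := one_le_En n
  have hβ : 1 / 25 ≤ z.re / ‖z‖ ^ 2 := by
    rw [le_div_iff₀ (by positivity)]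
    nlinarith
  set F := (Kn n ω).filter (fun k => iv k ∉ W) with hF
  have hm : 1 ≤ min (‖z‖ + 4 / ‖z‖) 5 :=
    le_min (hζ.trans (le_add_of_nonneg_right (by positivity))) (by norm_num)
  have hY : rexp (-n) ≤ (z.re * min (‖z‖ + 4 / ‖z‖) 5) ^ (-mh n) :=
    t1_low (by positivity) (by nlinarith [min_le_right (‖z‖ + 4 / ‖z‖) 5])
  have h1 : ∑ k ∈ F, t1E ω z.re k * t1T ω W (z.re / ‖z‖ ^ 2) k ≤
      5 * (D * En n ^ 2) * ∑ k ∈ (Kn n ω).filter
        (fun k => iv k ∉ W ∧ dk ω W k < 1 / (n : ℝ) ^ 2), (1 + 1 / dk ω W k) ^ 4 +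
      8 * (D * En n ^ 2) * rexp (-π * (1 / 50) * n ^ 2) *
        ∑ k ∈ F, t1E ω z.re k * (1 + 1 / dk ω W k) ^ 1 +
      ∑ x ∈ t1P n ω W, t1E ω z.re x.1 * t1E ω (z.re / ‖z‖ ^ 2) x.2 := by
    rw [← Finset.filter_filter, ← hF, t1P, ← hF, Finset.sum_filter (s := F),
      Finset.sum_filter (s := F ×ˢ Kn n ω), Finset.sum_product, Finset.mul_sum, Finset.mul_sum, ← Finset.sum_add_distrib,
      ← Finset.sum_add_distrib]
    refine Finset.sum_le_sum fun k hk => ?_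
    have hk := (Finset.mem_filter.1 hk).2
    have a1 := t1_dk_pos hω h hk
    have a2 : 1 ≤ 1 + 1 / dk ω W k := le_add_of_nonneg_right (by positivity)
    refine (mul_le_mul_of_nonneg_left (t1_split hω hβ W k) (Real.exp_nonneg _)).trans ?_
    rw [mul_add, mul_add, Finset.mul_sum]
    refine add_le_add (add_le_add ?_ ?_) (le_of_eq (Finset.sum_congr rfl fun η _ => ?_))
    · split_ifs
      · have b1 := t1_th_ext hω h0 h hk (c := 5) (by norm_num) (by linarith)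
        have b2 := t1_env' hl h (β := z.re / ‖z‖ ^ 2 / 4) (by linarith)
        calc _ ≤ 1 * (D * En n ^ 2 * (5 * (1 + 1 / dk ω W k) ^ 4)) := by
              have := t1_th_nonneg ω (z.re / ‖z‖ ^ 2) (ext W k)
              gcongr
              · exact t1E_le_one _ (by linarith) _
              · refine b1.trans ?_
                gcongr
                exact le_self_pow₀ a2 (by norm_num)
          _ = _ := by ring
      · simp
    · have b1 := t1_th_ext hω (β := 1 / 50) (by norm_num) h hk (c := 8) (by norm_num) (by norm_num)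
      have b2 := t1_env' hl h (β := 1 / 50 / 4) (by norm_num)
      calc _ ≤ t1E ω z.re k * (rexp (-π * (1 / 50) * n ^ 2) *
            (D * En n ^ 2 * (8 * (1 + 1 / dk ω W k)))) := by
            gcongr
            exact b1.trans (by gcongr)
        _ = _ := by ring
    · split_ifs <;> simp
  have h2 := ht W D 1 (by norm_num) h
  have h3 := hs W D 1 (by norm_num) h z.re ⟨by linarith, hz'⟩ 1 (by norm_num)
  have h4 := hg W D h z hz hz' hζ'
  have h5 : rexp (-π * (1 / 50) * n ^ 2) * n ^ 9 ≤ rexp (-n) := by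
    calc _ ≤ rexp (-π * (1 / 50) * n ^ 2) * rexp (1 * n) := by
          gcongr
          refine le_trans ?_ he
          rw [one_mul]
          exact le_mul_of_one_le_right (by positivity) (one_le_pow₀ hE)
      _ ≤ _ := by
          rw [← Real.exp_add]
          exact Real.exp_le_exp.2 (by nlinarith [Real.pi_gt_three])
  have h6 := t1_rpow_le_one (n := n) hζ
  have h7 := t1_rpow_le_one (n := n) hz
  set Y := (z.re * min (‖z‖ + 4 / ‖z‖) 5) ^ (-mh n)
  set S1 := ∑ k ∈ (Kn n ω).filter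
    (fun k => iv k ∉ W ∧ dk ω W k < 1 / (n : ℝ) ^ 2), (1 + 1 / dk ω W k) ^ 4
  set S2 := ∑ k ∈ F, t1E ω z.re k * (1 + 1 / dk ω W k) ^ 1
  have s1 : 0 ≤ S1 := Finset.sum_nonneg fun _ _ => by positivity
  have s2 : 0 ≤ S2 := Finset.sum_nonneg fun k hk => by
    have := t1_dk_pos hω h (Finset.mem_filter.1 hk).2
    positivity
  have a1 : ‖z‖ ^ (-mh n) * (5 * (D * En n ^ 2) * (ω ^ (n / 2) * S1)) ≤
      1 * (5 * (D * En n ^ 2) * (D * Y)) := by
    gcongr ?_ * (_ * ?_)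
    refine h2.trans (mul_le_mul_of_nonneg_left (le_trans (Real.exp_le_exp.2 ?_) hY) (by linarith))
    linarith
  have a2 : ‖z‖ ^ (-mh n) * (8 * (D * En n ^ 2) * (rexp (-π * (1 / 50) * n ^ 2) *
      (ω ^ (n / 2) * S2))) ≤ 1 * (8 * (D * En n ^ 2) * (D * Y)) := by
    gcongr ?_ * (_ * ?_)
    calc _ ≤ rexp (-π * (1 / 50) * n ^ 2) * (D * n ^ 9 * 1) :=
          mul_le_mul_of_nonneg_left (h3.trans (by gcongr)) (Real.exp_nonneg _)
      _ = D * (rexp (-π * (1 / 50) * n ^ 2) * n ^ 9) := by ring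
      _ ≤ _ := by gcongr; exact h5.trans hY
  have a3 : (1 : ℝ) ≤ n ^ 10 := one_le_pow₀ (by linarith)
  have a4 : (n : ℝ) ^ 6 * (D * En n ^ 2 * Y) ≤ n ^ 10 * (D ^ 2 * En n ^ 2 * Y) := by
    have : 0 ≤ Y := (Real.exp_nonneg _).trans hY
    gcongr
    · linarith
    · norm_num
    · nlinarith
  have a5 : D ^ 2 * En n ^ 2 * Y ≤ n ^ 10 * (D ^ 2 * En n ^ 2 * Y) :=
    le_mul_of_one_le_left (by have : 0 ≤ Y := (Real.exp_nonneg _).trans hY
                              positivity) a3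
  refine (mul_le_mul_of_nonneg_left (mul_le_mul_of_nonneg_left h1 (by positivity))
    (by positivity)).trans ?_
  rw [mul_add, mul_add, mul_add, mul_add]
  nlinarith

/-- the conditional first moment, general form -/
lemma t1_main : ∀ᶠ n : ℕ in atTop, ∀ᶠ ω in 𝓝[>] (0 : ℝ),
    ∀ (W : Submodule ℝ (Ev (n / 2))) (D : ℝ) (H : Xs (n / 2) → ℝ), Adm n ω W D 1 →
      InvW W H → ∀ z : ℂ, 1 ≤ z.re → z.re ≤ 4 →
      ‖∫ x, (H x : ℂ) * Osc n ω W z x ∂PP (n / 2) - Del n ω z * (∫ x, H x ∂PP (n / 2) : ℝ)‖ ≤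
        (∫ x, H x ∂PP (n / 2)) *
          (D ^ 2 * En n ^ 3 * (z.re * min (‖z‖ + 4 / ‖z‖) 5) ^ (-mh n) + if ‖z‖ ≤ 5 then
            5 * ((z.re * (‖z‖ + ‖z‖⁻¹)) ^ (-mh n) * th0 ω W (z.re / (1 + ‖z‖ ^ 2))) else 0) := by
  filter_upwards [t1_near, t1_far, t1_log, poly_le_En 35 10, eventually_ge_atTop 2] with
    n h1 h2 hl he hn
  filter_upwards [h1, h2, self_mem_nhdsWithin, t1_pow_small (j := n / 2) (by omega) 4
    (Real.exp_pos (-n))] with ω h1 h2 hω hs W D H h hH z hz hz'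
  have hω : 0 < ω := hω
  have hn' : (2 : ℝ) ≤ n := by exact_mod_cast hn
  have hζ := t1_re_le hz
  have h0 := t1_star_pos hz
  have hD := h.one_le
  have hE := one_le_En n
  refine (t1_step1 hω hH (by linarith)).trans
    (mul_le_mul_of_nonneg_left ?_ (integral_nonneg hH.nonneg))
  have hm : 1 ≤ min (‖z‖ + 4 / ‖z‖) 5 :=
    le_min (hζ.trans (le_add_of_nonneg_right (by positivity))) (by norm_num)
  have hY : rexp (-n) ≤ (z.re * min (‖z‖ + 4 / ‖z‖) 5) ^ (-mh n) :=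
    t1_low (by positivity) (by nlinarith [min_le_right (‖z‖ + 4 / ‖z‖) 5])
  have h3 : (z.re * 5) ^ (-mh n) ≤ (z.re * min (‖z‖ + 4 / ‖z‖) 5) ^ (-mh n) :=
    t1_rpow_anti (by positivity) (by gcongr; exact min_le_right _ _)
  set Y := (z.re * min (‖z‖ + 4 / ‖z‖) 5) ^ (-mh n)
  have hY0 : 0 ≤ Y := (Real.exp_nonneg _).trans hY
  have a1 : ∑ k ∈ (Kn n ω).filter (fun k => iv k ∈ W),
      ‖Cp (n % 2) ω z k k + Cp (n % 2) ω z k (-k)‖ ≤ n ^ 10 * (D ^ 2 * En n ^ 2 * Y) := by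
    calc _ ≤ ∑ k ∈ (Kn n ω).filter (fun k => iv k ∈ W),
          ω ^ (n / 2) * 4 * if iv k ∈ W then t1E ω 1 k else 0 := by
          refine Finset.sum_le_sum fun k hk => (t1_diag hω hz k).trans ?_
          rw [if_pos (Finset.mem_filter.1 hk).2]
          calc _ ≤ 4 * 1 * (ω ^ (n / 2) * t1E ω 1 k) := by
                gcongr
                · exact t1_rpow_le_one hζ
                · exact t1E_anti ω (by linarith) k
            _ = _ := by ring
      _ ≤ ω ^ (n / 2) * 4 * th ω W 1 := sum_le_hasSum _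
          (fun _ _ => by split_ifs <;> positivity) (t1_hasSum_th hω one_pos W _)
      _ ≤ Y * (D * En n ^ 2) := by
          have := t1_th_nonneg ω 1 W
          gcongr
          · exact hs.trans hY
          · exact t1_env' hl h (by norm_num)
      _ = 1 * (D * En n ^ 2 * Y) := by ring
      _ ≤ _ := by
          gcongr
          · exact one_le_pow₀ (by linarith)
          · nlinarith
  have a2 := Finset.sum_le_sum (s := (Kn n ω).filter (fun k => iv k ∉ W))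
    fun k _ => t1_step2 hω W hz k
  rw [← Finset.mul_sum, ← Finset.mul_sum, mul_assoc] at a2
  have a3 : 35 * (n : ℝ) ^ 10 * (D ^ 2 * En n ^ 2 * Y) ≤ D ^ 2 * En n ^ 3 * Y :=
    (mul_le_mul_of_nonneg_right he (by positivity)).trans (le_of_eq (by ring))
  have a4 : 0 ≤ (n : ℝ) ^ 10 * (D ^ 2 * En n ^ 2 * Y) := by positivity
  split_ifs with c
  · have b1 := h1 W D h z hz hz' c
    have b2 : 0 ≤ (z.re * (‖z‖ + ‖z‖⁻¹)) ^ (-mh n) * th0 ω W (z.re / (1 + ‖z‖ ^ 2)) :=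
      mul_nonneg (by positivity) (th0_nonneg _ _ _)
    linarith
  · have b1 := h2 W D h z hz hz' (not_le.1 c).le
    have b2 : (n : ℝ) ^ 10 * (D ^ 2 * En n ^ 2 * (z.re * 5) ^ (-mh n)) ≤
        n ^ 10 * (D ^ 2 * En n ^ 2 * Y) := by gcongr
    linarith

/-- the gain of a factor `1.17` in the base -/
lemma t1_gain : ∀ᶠ n : ℕ in atTop, ∀ a b : ℝ, 0 < b → 1.17 * b ≤ a →
    5 * En n ^ 3 * a ^ (-mh n) ≤ rexp (-0.0392 * n) * b ^ (-mh n) := by
  filter_upwards [En_pow_le (5 * rexp 1) 3 (ε := 0.00002) (by norm_num), eventually_ge_atTop 1] with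
    n he hn a b hb h
  have hn' : (1 : ℝ) ≤ n := by exact_mod_cast hn
  have h1 : rexp 0.1569 ≤ 1.17 := by
    have := Real.exp_bound' (x := 0.1569) (by norm_num) (by norm_num) (n := 4) (by norm_num)
    refine this.trans ?_
    norm_num [Finset.sum_range_succ, Nat.factorial]
  have h2 : a ^ (-mh n) ≤ rexp (0.1569 * -mh n) * b ^ (-mh n) := by
    rw [Real.exp_mul, ← Real.mul_rpow (Real.exp_nonneg _) hb.le]
    exact t1_rpow_anti (by positivity) (le_trans (by gcongr) h)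
  have hE := one_le_En n
  have h3 : 5 * En n ^ 3 ≤ rexp (0.00002 * n - 1) := by
    rw [Real.exp_sub, le_div_iff₀ (Real.exp_pos 1)]
    refine le_trans ?_ he
    calc 5 * En n ^ 3 * rexp 1 = 5 * rexp 1 * 1 * En n ^ 3 := by ring
      _ ≤ _ := by gcongr; exact one_le_pow₀ hn'
  calc _ ≤ rexp (0.00002 * n - 1) * (rexp (0.1569 * -mh n) * b ^ (-mh n)) := by
        have : 0 ≤ a := by linarith
        gcongr
    _ ≤ _ := by
        rw [← mul_assoc, ← Real.exp_add]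
        gcongr
        linarith [(mh_le n).1]

lemma t1_final : ∀ᶠ n : ℕ in atTop, ∀ᶠ ω in 𝓝[>] (0 : ℝ),
    ∀ (W : Submodule ℝ (Ev (n / 2))) (D : ℝ) (H : Xs (n / 2) → ℝ), Adm n ω W D 1 →
      InvW W H → ∀ z : ℂ, 1 ≤ z.re → z.re ≤ 4 → ∀ b : ℝ, 0 < b →
      1.17 * b ≤ z.re * min (‖z‖ + 4 / ‖z‖) 5 →
      1.17 * b * ‖z‖ ≤ z.re * (‖z‖ ^ 2 + 1 + 0.3678 * z.re) →
      ‖∫ x, (H x : ℂ) * Osc n ω W z x ∂PP (n / 2) - Del n ω z * (∫ x, H x ∂PP (n / 2) : ℝ)‖ ≤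
        (∫ x, H x ∂PP (n / 2)) * Err n ω W D * b ^ (-mh n) := by
  filter_upwards [t1_main, t1_gain] with n h1 hg
  filter_upwards [h1, self_mem_nhdsWithin] with ω h1 hω W D H h hH z hz hz' b hb b1 b2
  have hω : 0 < ω := hω
  have hζ := t1_re_le hz
  have hD := h.one_le
  have hE := one_le_En n
  have hE3 : 1 ≤ En n ^ 3 := one_le_pow₀ hE
  have hS := Sh_nonneg n ω W
  refine (h1 W D H h hH z hz hz').trans ?_
  rw [mul_assoc (∫ x, H x ∂PP (n / 2)), Err, mul_right_comm (rexp _), mul_add (_ * _)]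
  refine mul_le_mul_of_nonneg_left (add_le_add ?_ ?_) (integral_nonneg hH.nonneg)
  · have a1 := hg _ b hb b1
    have a2 : 0 ≤ En n ^ 3 * (z.re * min (‖z‖ + 4 / ‖z‖) 5) ^ (-mh n) :=
      mul_nonneg (by positivity) (Real.rpow_nonneg (by linarith) _)
    rw [mul_comm _ (D ^ 3), mul_assoc]
    exact mul_le_mul (pow_le_pow_right₀ hD (by norm_num)) (by linarith) a2 (by positivity)
  · split_ifs with c
    swap
    · positivity
    have hτ : 0 < z.re := by linarith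
    set β := z.re / (1 + ‖z‖ ^ 2) with hβ
    have a0 : 0 < β := by positivity
    have a1 := th0_le_Sh (n := n) hω (β := β) (by
      rw [hβ, le_div_iff₀ (by positivity)]
      nlinarith) (by
      rw [hβ, div_le_one (by positivity)]
      nlinarith [Complex.re_le_norm z]) W
    have a2 : th0 ω W β ≤ (1 + β / rexp 1) ^ (-mh n) * Sh n ω W := by
      rw [Real.rpow_neg (by positivity), ← div_eq_inv_mul, le_div_iff₀' (by positivity)]
      exact a1
    have a3 := hg (z.re * (‖z‖ + ‖z‖⁻¹) * (1 + β / rexp 1)) b hb (by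
      have e1 : 0.3678 ≤ (rexp 1)⁻¹ := by
        rw [le_inv_comm₀ (by norm_num) (Real.exp_pos 1)]
        exact Real.exp_one_lt_d9.le.trans (by norm_num)
      rw [show z.re * (‖z‖ + ‖z‖⁻¹) * (1 + β / rexp 1) =
        z.re * (‖z‖ ^ 2 + 1 + (rexp 1)⁻¹ * z.re) / ‖z‖ by rw [hβ]; field_simp; ring,
        le_div_iff₀ (by positivity)]
      exact b2.trans (by gcongr))
    rw [Real.mul_rpow (by positivity) (by positivity)] at a3
    calc _ ≤ 5 * ((z.re * (‖z‖ + ‖z‖⁻¹)) ^ (-mh n) * ((1 + β / rexp 1) ^ (-mh n) * Sh n ω W)) := by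
          gcongr
      _ = 5 * 1 * ((z.re * (‖z‖ + ‖z‖⁻¹)) ^ (-mh n) * (1 + β / rexp 1) ^ (-mh n)) *
          (1 * Sh n ω W) := by ring
      _ ≤ _ := mul_le_mul (le_trans (by gcongr) a3) (by gcongr) (by positivity) (by positivity)

/-- conditional first moment, parameters of the noise -/
theorem first_moment : ∀ᶠ n : ℕ in atTop, ∀ᶠ ω in 𝓝[>] (0 : ℝ),
    ∀ (W : Submodule ℝ (Ev (n / 2))) (D : ℝ) (H : Xs (n / 2) → ℝ), Adm n ω W D 1 →
      D ≤ ω⁻¹ ^ (MM n + 2) → InvW W H → ∀ z : ℂ, Adz z →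
      ‖∫ x, (H x : ℂ) * Osc n ω W z x ∂PP (n / 2) - Del n ω z * (∫ x, H x ∂PP (n / 2) : ℝ)‖ ≤
        (∫ x, H x ∂PP (n / 2)) * Err n ω W D * Nz n z.re := by
  filter_upwards [t1_final] with n h1
  filter_upwards [h1] with ω h1 W D H h _ hH z hz
  have hz1 : 1 ≤ z.re ∧ z.re ≤ 4 := by
    rcases hz with ⟨-, a, b⟩ | a | a <;> constructor <;> linarith
  have hL : 1 ≤ Lz z.re ∧ Lz z.re ≤ 1.0095 := by
    unfold Lz
    split_ifs <;> norm_num
  have hζ := t1_re_le hz1.1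
  have hτ : 0 < z.re := by linarith
  refine h1 W D H h hH z hz1.1 hz1.2 _ (by have := hL.1; positivity) ?_ ?_
  · have : 4 ≤ min (‖z‖ + 4 / ‖z‖) 5 := le_min (by
      rw [← sub_le_iff_le_add', le_div_iff₀ (by linarith)]
      nlinarith [sq_nonneg (‖z‖ - 2)]) (by norm_num)
    nlinarith [mul_le_mul_of_nonneg_left hL.2 hτ.le]
  · have a1 : 2.36223 * ‖z‖ ≤ ‖z‖ ^ 2 + 1 + 0.3678 * z.re := by
      rcases hz with ⟨a, -⟩ | a | a
      · rw [← Complex.abs_re_eq_norm.2 a, abs_of_pos hτ]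
        nlinarith [sq_nonneg (z.re - 1)]
      · nlinarith [sq_nonneg (‖z‖ - 1.2)]
      · nlinarith [sq_nonneg (‖z‖ - 1.2)]
    calc 1.17 * (2 * z.re * Lz z.re) * ‖z‖ ≤ 1.17 * (2 * z.re * 1.0095) * ‖z‖ := by
          gcongr
          exact hL.2
      _ = z.re * (2.36223 * ‖z‖) := by ring
      _ ≤ _ := by gcongr

/-- conditional first moment, parameters of the diagonal of the covariance -/
theorem first_moment' : ∀ᶠ n : ℕ in atTop, ∀ᶠ ω in 𝓝[>] (0 : ℝ),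
    ∀ (W : Submodule ℝ (Ev (n / 2))) (D : ℝ) (H : Xs (n / 2) → ℝ), Adm n ω W D 1 →
      D ≤ ω⁻¹ ^ (MM n + 2) → InvW W H → ∀ z : ℂ, 2 ≤ z.re → z.re ≤ 3.1 →
      ‖∫ x, (H x : ℂ) * Osc n ω W z x ∂PP (n / 2) - Del n ω z * (∫ x, H x ∂PP (n / 2) : ℝ)‖ ≤
        (∫ x, H x ∂PP (n / 2)) * Err n ω W D * (1.0095 * z.re) ^ (-2 * mh n) := by
  filter_upwards [t1_final] with n h1
  filter_upwards [h1] with ω h1 W D H h _ hH z hz hz'
  have hτ : 0 < z.re := by linarith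
  have hζ := Complex.re_le_norm z
  rw [show -2 * mh n = (2 : ℕ) * -mh n by push_cast; ring, Real.rpow_mul (by positivity),
    Real.rpow_natCast]
  refine h1 W D H h hH z (by linarith) (by linarith) _ (by positivity) ?_ ?_
  · have : 1.2 * z.re ≤ min (‖z‖ + 4 / ‖z‖) 5 := le_min (by
      rw [← sub_le_iff_le_add', le_div_iff₀ (by linarith)]
      nlinarith [mul_nonneg (sub_nonneg.2 hζ) (sub_nonneg.2 hζ),
        mul_nonneg (sub_nonneg.2 hζ) hτ.le]) (by linarith)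
    nlinarith
  · have a1 : 1.2 * z.re * ‖z‖ ≤ ‖z‖ ^ 2 + 1 + 0.3678 * z.re := by
      nlinarith [mul_nonneg (sub_nonneg.2 hζ) (sub_nonneg.2 hζ),
        mul_nonneg (sub_nonneg.2 hζ) hτ.le, mul_nonneg (sub_nonneg.2 hz) (sub_nonneg.2 hz')]
    calc 1.17 * (1.0095 * z.re) ^ 2 * ‖z‖ = 1.17 * 1.0095 ^ 2 * (z.re ^ 2 * ‖z‖) := by ring
      _ ≤ 1.2 * (z.re ^ 2 * ‖z‖) := by gcongr; norm_num
      _ = z.re * (1.2 * z.re * ‖z‖) := by ring
      _ ≤ _ := by gcongr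

end Pool.Agent.Eps
end
end

-- part Pool.Agent.Lib.MP_3bda03_nt.SetsA
section

set_option autoImplicit false

noncomputable section

open scoped BigOperators Classical Topology
open MeasureTheory Real Complex Filter

namespace Pool.Agent.Eps

/-- inclusion-exclusion over a down-closed family -/
theorem euler_le {α : Type*} [DecidableEq α] (K : Finset α) (Δ : Finset (Finset α))
    (hK : ∀ S ∈ Δ, S ⊆ K) (h0 : ∅ ∈ Δ) (hdown : ∀ S ∈ Δ, ∀ S', S' ⊆ S → S' ∈ Δ)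
    (A : α → ℝ) (hA : ∀ k ∈ K, 0 ≤ A k ∧ A k ≤ 1) :
    |∑ S ∈ Δ, (-1 : ℝ) ^ S.card * ∏ k ∈ S, A k - ∏ k ∈ K, (1 - A k)| ≤
      ∑ S ∈ Δ, ∑ v ∈ K.filter (fun v => v ∉ S ∧ insert v S ∉ Δ), (∏ k ∈ S, A k) * A v := by
  induction K using Finset.induction_on generalizing Δ with
  | empty =>
    have : Δ = {∅} := Finset.eq_singleton_iff_unique_mem.2
      ⟨h0, fun S hS => Finset.subset_empty.1 (hK S hS)⟩
    subst this
    simp
  | insert v K hv ih =>
    have hAv := hA v (Finset.mem_insert_self _ _)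
    have hP : ∀ S ∈ Δ, 0 ≤ ∏ k ∈ S, A k := fun S hS =>
      Finset.prod_nonneg fun k hk => (hA k (hK S hS hk)).1
    set D := Δ.filter fun S => v ∉ S with hD
    have hDΔ : D ⊆ Δ := Finset.filter_subset _ _
    have h1 := ih D (fun S hS => by
        rw [hD, Finset.mem_filter] at hS
        exact (Finset.subset_insert_iff_of_notMem hS.2).1 (hK S hS.1))
      (by simp [hD, h0]) (fun S hS S' h => by
        rw [hD, Finset.mem_filter] at hS ⊢
        exact ⟨hdown S hS.1 S' h, fun h' => hS.2 (h h')⟩)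
      fun k hk => hA k (Finset.mem_insert_of_mem hk)
    have h2 : ∑ S ∈ Δ.filter (fun S => ¬v ∉ S), (-1 : ℝ) ^ S.card * ∏ k ∈ S, A k =
        -A v * ∑ S ∈ D.filter (fun S => insert v S ∈ Δ), (-1 : ℝ) ^ S.card * ∏ k ∈ S, A k := by
      rw [Finset.mul_sum]
      symm
      refine Finset.sum_bij (fun S _ => insert v S) (fun S hS => ?_) (fun S hS S' hS' h => ?_)
        (fun S hS => ?_) fun S hS => ?_
      · simp [(Finset.mem_filter.1 hS).2]
      · rw [← Finset.erase_insert (Finset.mem_filter.1 (Finset.mem_filter.1 hS).1).2, h,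
          Finset.erase_insert (Finset.mem_filter.1 (Finset.mem_filter.1 hS').1).2]
      · simp only [Finset.mem_filter, not_not] at hS
        refine ⟨S.erase v, ?_, Finset.insert_erase hS.2⟩
        simp [hD, Finset.insert_erase hS.2, hS.1, hdown S hS.1 _ (Finset.erase_subset v S)]
      · have := (Finset.mem_filter.1 (Finset.mem_filter.1 hS).1).2
        rw [Finset.card_insert_of_notMem this, Finset.prod_insert this]
        ring
    have h3 : |∑ S ∈ D.filter (fun S => ¬insert v S ∈ Δ), (-1 : ℝ) ^ S.card * ∏ k ∈ S, A k| ≤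
        ∑ S ∈ D, if insert v S ∉ Δ then ∏ k ∈ S, A k else 0 := by
      rw [← Finset.sum_filter]
      refine (Finset.abs_sum_le_sum_abs _ _).trans (Finset.sum_le_sum fun S hS => ?_)
      rw [abs_mul, abs_pow, abs_neg, abs_one, one_pow, one_mul,
        abs_of_nonneg (hP S (hDΔ (Finset.mem_filter.1 hS).1))]
    have h4 : ∑ S ∈ D, ∑ u ∈ K.filter (fun u => u ∉ S ∧ insert u S ∉ D), (∏ k ∈ S, A k) * A u +
        A v * ∑ S ∈ D, (if insert v S ∉ Δ then ∏ k ∈ S, A k else 0) ≤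
        ∑ S ∈ Δ, ∑ u ∈ (insert v K).filter (fun u => u ∉ S ∧ insert u S ∉ Δ),
          (∏ k ∈ S, A k) * A u := by
      rw [Finset.mul_sum, ← Finset.sum_add_distrib]
      refine le_trans (le_of_eq (Finset.sum_congr rfl fun S hS => ?_))
        (Finset.sum_le_sum_of_subset_of_nonneg hDΔ fun S hS _ => Finset.sum_nonneg fun u hu =>
          mul_nonneg (hP S hS) (hA u (Finset.mem_filter.1 hu).1).1)
      have hvS := (Finset.mem_filter.1 hS).2
      rw [Finset.sum_filter, Finset.sum_filter, Finset.sum_insert hv, add_comm]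
      congr 1
      · simp [hvS, mul_comm]
      · refine Finset.sum_congr rfl fun u hu => if_congr (and_congr_right fun _ => ?_) rfl rfl
        have : v ≠ u := fun h => hv (h ▸ hu)
        simp [hD, hvS, this]
    rw [← Finset.sum_filter_add_sum_filter_not Δ (fun S => v ∉ S), h2, Finset.prod_insert hv]
    rw [← hD]
    rw [← Finset.sum_filter_add_sum_filter_not D (fun S => insert v S ∈ Δ)
      fun S => (-1 : ℝ) ^ S.card * ∏ k ∈ S, A k] at h1 ⊢
    refine le_trans ?_ h4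
    generalize ∑ S ∈ D.filter (fun S => insert v S ∈ Δ), (-1 : ℝ) ^ S.card * ∏ k ∈ S, A k = x at *
    generalize ∑ S ∈ D.filter (fun S => ¬insert v S ∈ Δ), (-1 : ℝ) ^ S.card * ∏ k ∈ S, A k = y at *
    generalize ∏ k ∈ K, (1 - A k) = P at *
    have h5 : x + y + -A v * x - (1 - A v) * P = (1 - A v) * (x + y - P) + A v * y := by ring
    rw [h5]
    refine (abs_add_le _ _).trans (add_le_add ?_ ?_)
    · rw [abs_mul, abs_of_nonneg (sub_nonneg.2 hAv.2)]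
      exact (mul_le_of_le_one_left (abs_nonneg _) (by linarith)).trans h1
    · rw [abs_mul, abs_of_nonneg hAv.1]
      exact mul_le_mul_of_nonneg_left h3 hAv.1

theorem thn_pos {n : ℕ} (hn : 3 ≤ n) : 0 < thn n :=
  pow_pos (Real.log_pos (by exact_mod_cast (by omega : 1 < n))) 2

theorem iv_comb {m : ℕ} (S : Finset (Zv m)) (ξ : Zv m → ℤ) :
    iv (∑ k ∈ S, ξ k • k) = ∑ k ∈ S, (ξ k : ℝ) • iv k := by
  rw [iv_sum]
  exact Finset.sum_congr rfl fun k _ => iv_zsmul _ _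

theorem mem_spanS {m : ℕ} {S : Finset (Zv m)} {w : Ev m} :
    w ∈ spanS S ↔ ∃ c : Zv m → ℝ, ∑ k ∈ S, c k • iv k = w :=
  Submodule.mem_span_image_finset_iff_exists_fun' ℝ

theorem spanS_mono {m : ℕ} {S S' : Finset (Zv m)} (h : S' ⊆ S) : spanS S' ≤ spanS S :=
  Submodule.span_mono (Set.image_mono h)

theorem Nice.indep {n : ℕ} {ω : ℝ} (hn : 3 ≤ n) {S : Finset (Zv (n / 2))} (h : Nice n ω S)
    (c : Zv (n / 2) → ℝ) (hc : ∑ k ∈ S, c k • iv k = 0) : ∀ k ∈ S, c k = 0 := by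
  intro k₀ hk₀
  by_contra hne
  have ht := thn_pos hn
  have hpos := abs_pos.2 hne
  obtain ⟨N, hN⟩ : ∃ N : ℝ, N * |c k₀| = ω ^ 2 * (∑ k ∈ S, ‖iv k‖) ^ 2 / thn n + 1 :=
    ⟨_, div_mul_cancel₀ _ hpos.ne'⟩
  have hN0 : 0 ≤ N := by
    have : 0 < N * |c k₀| := by rw [hN]; positivity
    exact ((mul_pos_iff_of_pos_right hpos).1 this).le
  have h1 := h.an fun k => round (N * c k)
  have h2 : ‖iv (∑ k ∈ S, round (N * c k) • k)‖ ≤ ∑ k ∈ S, ‖iv k‖ := by
    have : iv (∑ k ∈ S, round (N * c k) • k) =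
        ∑ k ∈ S, ((round (N * c k) : ℝ) - N * c k) • iv k := by
      simp only [iv_comb, sub_smul, Finset.sum_sub_distrib, mul_smul, ← Finset.smul_sum, hc,
        smul_zero, sub_zero]
    rw [this]
    refine (norm_sum_le _ _).trans (Finset.sum_le_sum fun k _ => ?_)
    rw [norm_smul, Real.norm_eq_abs, abs_sub_comm]
    exact mul_le_of_le_one_left (norm_nonneg _) ((abs_sub_round _).trans (by norm_num))
  have h3 : |((round (N * c k₀) : ℤ) : ℝ)| ≤ ∑ k ∈ S, |((round (N * c k) : ℤ) : ℝ)| :=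
    Finset.single_le_sum (f := fun k => |((round (N * c k) : ℤ) : ℝ)|)
      (fun _ _ => abs_nonneg _) hk₀
  have h4 := abs_sub_round (N * c k₀)
  have h5 := abs_sub_abs_le_abs_sub (N * c k₀) (round (N * c k₀) : ℝ)
  rw [abs_mul, abs_of_nonneg hN0, hN] at h5
  have h6 : ω ^ 2 * ‖iv (∑ k ∈ S, round (N * c k) • k)‖ ^ 2 ≤ ω ^ 2 * (∑ k ∈ S, ‖iv k‖) ^ 2 := by
    gcongr
  have h7 : ω ^ 2 * (∑ k ∈ S, ‖iv k‖) ^ 2 / thn n < ∑ k ∈ S, |((round (N * c k) : ℤ) : ℝ)| := by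
    linarith
  rw [div_lt_iff₀ ht] at h7
  linarith

theorem sum_ite_sub {α M : Type*} [DecidableEq α] [AddCommMonoid M] {S S' : Finset α} (hS : S' ⊆ S) (f : α → M) :
    ∑ k ∈ S, (if k ∈ S' then f k else 0) = ∑ k ∈ S', f k := by
  rw [← Finset.sum_filter, Finset.filter_mem_eq_inter, Finset.inter_eq_right.2 hS]

theorem Nice.mono {n : ℕ} {ω : ℝ} (hn : 3 ≤ n) {S S' : Finset (Zv (n / 2))} (h : Nice n ω S)
    (hS : S' ⊆ S) : Nice n ω S' := by
  refine ⟨fun ξ => ?_, fun η hη => ?_⟩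
  · have := h.an fun k => if k ∈ S' then ξ k else 0
    simp only [ite_smul, zero_smul, Int.cast_ite, Int.cast_zero, apply_ite abs, abs_zero] at this
    rwa [sum_ite_sub hS, sum_ite_sub hS] at this
  · obtain ⟨ξ, hξ⟩ := h.prim η (spanS_mono hS hη)
    obtain ⟨c, hc⟩ := mem_spanS.1 hη
    have h1 := h.indep hn (fun k => ξ k - if k ∈ S' then c k else 0) (by
      simp only [sub_smul, Finset.sum_sub_distrib, ite_smul, zero_smul]
      rw [sum_ite_sub hS, hc, ← iv_comb, ← hξ, sub_self])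
    refine ⟨ξ, hξ.trans (Finset.sum_subset hS fun k hk hk' => ?_).symm⟩
    have h2 := h1 k hk
    simp only [hk', if_false, sub_zero, Int.cast_eq_zero] at h2
    rw [h2, zero_smul]

theorem nice_empty (n : ℕ) (ω : ℝ) : Nice n ω ∅ := by
  refine ⟨fun ξ => by simp only [Finset.sum_empty, mul_zero]; positivity, fun η hη => ⟨0, ?_⟩⟩
  obtain ⟨c, hc⟩ := mem_spanS.1 hη
  rw [Finset.sum_empty] at hc ⊢
  exact iv_injective (hc.symm.trans iv_zero.symm)

theorem Nice.notMem_span {n : ℕ} {ω : ℝ} (hn : 3 ≤ n) {S S' : Finset (Zv (n / 2))} (h : Nice n ω S)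
    (hS : S' ⊆ S) {k : Zv (n / 2)} (hk : k ∈ S) (hk' : k ∉ S') : iv k ∉ spanS S' := by
  intro hη
  obtain ⟨c, hc⟩ := mem_spanS.1 hη
  have h1 := h.indep hn (fun j => (if j = k then 1 else 0) - if j ∈ S' then c j else 0) (by
    simp only [sub_smul, Finset.sum_sub_distrib, ite_smul, zero_smul, one_smul]
    rw [sum_ite_sub hS, hc, Finset.sum_ite_eq', if_pos hk, sub_self]) k hk
  simp [hk'] at h1

theorem mem_Dl {n : ℕ} {ω : ℝ} {M : ℕ} {S : Finset (Zv (n / 2))} :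
    S ∈ Dl n ω M ↔ S ⊆ Kp n ω ∧ Nice n ω S ∧ S.card ≤ M := by
  simp [Dl]

theorem Dl_down {n : ℕ} {ω : ℝ} (hn : 3 ≤ n) (M : ℕ) :
    ∅ ∈ Dl n ω M ∧ ∀ S ∈ Dl n ω M, S ⊆ Kp n ω ∧ ∀ S', S' ⊆ S → S' ∈ Dl n ω M := by
  refine ⟨mem_Dl.2 ⟨Finset.empty_subset _, nice_empty n ω, Nat.zero_le _⟩, fun S hS => ?_⟩
  obtain ⟨h1, h2, h3⟩ := mem_Dl.1 hS
  exact ⟨h1, fun S' h => mem_Dl.2 ⟨h.trans h1, h2.mono hn h, (Finset.card_le_card h).trans h3⟩⟩

theorem neg_notMem_Kp {n : ℕ} {ω : ℝ} {k : Zv (n / 2)} (hk : k ∈ Kp n ω) : -k ∉ Kp n ω := by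
  intro h
  have h1 := (Finset.mem_filter.1 hk).2.1
  have h2 := (Finset.mem_filter.1 h).2.1
  change (0 : Lex (Zv (n / 2))) < toLex k at h1
  change (0 : Lex (Zv (n / 2))) < -toLex k at h2
  exact lt_asymm h1 (neg_pos.1 h2)

theorem mem_Kp_or {n : ℕ} {ω : ℝ} (hω : 0 < ω) {k : Zv (n / 2)} (hk : k ∈ Kn n ω)
    (h : ω ^ 2 * ‖iv k‖ ^ 2 ≤ rho1 n + 1) : k ∈ Kp n ω ∨ -k ∈ Kp n ω := by
  have h1 := (mem_Kn hω k).1 hk
  rcases lt_trichotomy (0 : Lex (Zv (n / 2))) (toLex k) with h2 | h2 | h2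
  · exact Or.inl (Finset.mem_filter.2 ⟨hk, h2, h⟩)
  · exact absurd h2.symm h1.1
  · refine Or.inr (Finset.mem_filter.2 ⟨(mem_Kn hω _).2 ⟨neg_ne_zero.2 h1.1, ?_⟩, ?_, ?_⟩)
    · rw [iv_neg, norm_neg]; exact h1.2
    · exact (neg_pos.2 h2 : (0 : Lex (Zv (n / 2))) < -toLex k)
    · rw [iv_neg, norm_neg]; exact h

/-! ### Covering and geometric sums -/

theorem sum_le_cover {α β : Type*} (s : Finset α) (f : α → ℝ) (g : β → ℝ) (P : β → Prop)
    (ψ : β → α) (c : ℝ) (h : ∀ a ∈ s, ∃ b, P b ∧ ψ b = a ∧ f a ≤ g b)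
    (hc : ∀ t : Finset β, (∀ b ∈ t, P b) → ∑ b ∈ t, g b ≤ c) : ∑ a ∈ s, f a ≤ c := by
  choose φ h1 h2 h3 using h
  refine le_trans ?_ (hc (s.attach.image fun a => φ a.1 a.2) fun b hb => ?_)
  · rw [Finset.sum_image fun a _ a' _ h => Subtype.ext (by rw [← h2 a.1 a.2, h, h2]),
      ← Finset.sum_attach]
    exact Finset.sum_le_sum fun a _ => h3 _ _
  · obtain ⟨a, -, rfl⟩ := Finset.mem_image.1 hb
    exact h1 _ _

theorem sum_le_union {α ι : Type*} (s : Finset α) (I : Finset ι) (f : α → ℝ) (P : ι → α → Prop)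
    [∀ i, DecidablePred (P i)] (hf : ∀ a ∈ s, 0 ≤ f a) (h : ∀ a ∈ s, ∃ i ∈ I, P i a) :
    ∑ a ∈ s, f a ≤ ∑ i ∈ I, ∑ a ∈ s.filter (P i), f a := by
  simp only [Finset.sum_filter]
  rw [Finset.sum_comm]
  refine Finset.sum_le_sum fun a ha => ?_
  obtain ⟨i, hi, hP⟩ := h a ha
  refine le_trans (by rw [if_pos hP]) (Finset.single_le_sum
    (f := fun i => if P i a then f a else 0) (fun j _ => ?_) hi)
  split_ifs
  exacts [hf a ha, le_rfl]

theorem sum_int_exp_le {c : ℝ} (hc : 0 < c) (t : Finset ℤ) :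
    ∑ a ∈ t, rexp (-c * |(a : ℝ)|) ≤ (1 + rexp (-c)) / (1 - rexp (-c)) := by
  have h0 := (Real.exp_pos (-c)).le
  have h1 : rexp (-c) < 1 := Real.exp_lt_one_iff.2 (by linarith)
  have h2 := hasSum_geometric_of_lt_one h0 h1
  have h3 : HasSum (fun a : ℤ => rexp (-c * |(a : ℝ)|))
      ((1 - rexp (-c))⁻¹ + rexp (-c) * (1 - rexp (-c))⁻¹) := by
    refine HasSum.of_nat_of_neg_add_one ?_ ?_
    · convert h2 using 2 with j
      rw [← Real.exp_nat_mul]
      simp [mul_comm]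
    · refine (h2.mul_left (rexp (-c))).congr_fun fun j => ?_
      rw [← Real.exp_nat_mul, ← Real.exp_add]
      push_cast
      rw [abs_neg, abs_of_nonneg (by positivity)]
      ring_nf
  refine (sum_le_hasSum t (fun _ _ => (Real.exp_pos _).le) h3).trans_eq ?_
  rw [div_eq_mul_inv]
  ring

theorem sum_pi_exp_le {ι : Type*} [Fintype ι] {c : ℝ} (hc : 0 < c) (F : Finset (ι → ℤ)) :
    ∑ ξ ∈ F, rexp (-c * ∑ i, |(ξ i : ℝ)|) ≤
      ((1 + rexp (-c)) / (1 - rexp (-c))) ^ Fintype.card ι := by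
  simp only [Finset.mul_sum, Real.exp_sum]
  refine (Finset.sum_le_sum_of_subset_of_nonneg
    (t := Fintype.piFinset fun i => F.image (· i)) (fun ξ hξ => Fintype.mem_piFinset.2 fun i =>
      Finset.mem_image_of_mem _ hξ) fun _ _ _ => by positivity).trans ?_
  rw [← Finset.prod_univ_sum (fun i => F.image (· i)) fun _ (a : ℤ) => rexp (-c * |(a : ℝ)|),
    ← Finset.card_univ, ← Finset.prod_const]
  exact Finset.prod_le_prod (fun _ _ => by positivity) fun i _ => sum_int_exp_le hc _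

theorem sum_supp_exp_le {α : Type*} (S : Finset α) {c : ℝ} (hc : 0 < c) (F : Finset (α → ℤ))
    (hF : ∀ ξ ∈ F, ∀ k ∉ S, ξ k = 0) :
    ∑ ξ ∈ F, rexp (-c * ∑ k ∈ S, |(ξ k : ℝ)|) ≤ ((1 + rexp (-c)) / (1 - rexp (-c))) ^ S.card := by
  refine sum_le_cover F _ (fun ξ : S → ℤ => rexp (-c * ∑ i, |(ξ i : ℝ)|)) (fun _ => True)
    (fun ξ k => if h : k ∈ S then ξ ⟨k, h⟩ else 0) _ (fun ξ hξ => ⟨fun i => ξ i, trivial, ?_, ?_⟩)
    fun t _ => (sum_pi_exp_le hc t).trans_eq (by rw [Fintype.card_coe])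
  · funext k
    split_ifs with h
    exacts [rfl, (hF ξ hξ k h).symm]
  · rw [Finset.sum_coe_sort S fun k => |(ξ k : ℝ)|]

theorem Nice.prim' {n : ℕ} {ω : ℝ} {S : Finset (Zv (n / 2))} (h : Nice n ω S) {η : Zv (n / 2)}
    (hη : iv η ∈ spanS S) : ∃ ξ : Zv (n / 2) → ℤ, (∀ k ∉ S, ξ k = 0) ∧ ∑ k ∈ S, ξ k • k = η := by
  obtain ⟨ξ, hξ⟩ := h.prim η hη
  exact ⟨fun k => if k ∈ S then ξ k else 0, fun k hk => if_neg hk,
    (Finset.sum_congr rfl fun k hk => by simp only [if_pos hk]).trans hξ.symm⟩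

/-- theta series of a nice set, product bound -/
theorem Nice.th_le {n : ℕ} {ω β : ℝ} (hn : 3 ≤ n) (hω : 0 < ω) (hβ : 0 < β)
    {S : Finset (Zv (n / 2))} (h : Nice n ω S) :
    th ω (spanS S) β ≤
      ((1 + rexp (-π * β * thn n)) / (1 - rexp (-π * β * thn n))) ^ S.card := by
  have ht := thn_pos hn
  have hc : 0 < π * β * thn n := by positivity
  rw [show -π * β * thn n = -(π * β * thn n) by ring]
  refine Real.tsum_le_of_sum_le (fun κ => by dsimp only; split_ifs <;> positivity) fun F => ?_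
  rw [← Finset.sum_filter]
  refine sum_le_cover _ _ (fun ξ => rexp (-(π * β * thn n) * ∑ k ∈ S, |(ξ k : ℝ)|))
    (fun ξ : Zv (n / 2) → ℤ => ∀ k ∉ S, ξ k = 0) (fun ξ => ∑ k ∈ S, ξ k • k) _ (fun κ hκ => ?_)
    fun t ht => sum_supp_exp_le S hc t ht
  obtain ⟨ξ, h1, rfl⟩ := h.prim' (Finset.mem_filter.1 hκ).2
  refine ⟨ξ, h1, rfl, Real.exp_le_exp.2 ?_⟩
  have := mul_le_mul_of_nonneg_left (h.an ξ) (by positivity : 0 ≤ π * β)
  linarith

theorem coth_le {c : ℝ} (hc : 0 < c) : (1 + rexp (-c)) / (1 - rexp (-c)) ≤ 1 + 2 / c := by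
  have h1 : rexp (-c) < 1 := Real.exp_lt_one_iff.2 (by linarith)
  have h2 : rexp (-c) * (c + 1) ≤ 1 := by
    rw [Real.exp_neg, inv_mul_le_iff₀ (Real.exp_pos c), mul_one]
    exact Real.add_one_le_exp c
  rw [div_le_iff₀ (by linarith), one_add_div hc.ne', div_mul_eq_mul_div, le_div_iff₀ hc]
  nlinarith

theorem coth_nonneg {c : ℝ} (hc : 0 < c) : 0 ≤ (1 + rexp (-c)) / (1 - rexp (-c)) :=
  div_nonneg (by positivity) (sub_nonneg.2 (Real.exp_lt_one_iff.2 (by linarith)).le)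

theorem ev_log (C : ℝ) : ∀ᶠ n : ℕ in atTop, C ≤ Real.log n :=
  (Real.tendsto_log_atTop.comp tendsto_natCast_atTop_atTop).eventually_ge_atTop C

theorem exp_div_log_le {n : ℕ} (h : 1 ≤ Real.log n) {x : ℝ} (hx : x ≤ n) :
    rexp (x / Real.log n) ≤ En n := by
  refine Real.exp_le_exp.2 ((div_le_div_of_nonneg_right hx (by linarith)).trans ?_)
  exact div_le_div_of_nonneg_left (Nat.cast_nonneg _) (Real.sqrt_pos.2 (by linarith))
    (Real.sqrt_le_self_iff.2 (Or.inr h))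

theorem coth_pow_le {n : ℕ} (h : 1 ≤ Real.log n) {β : ℝ} (hβ : 0 < β) {j : ℕ} (hj : j ≤ n) :
    ((1 + rexp (-π * β * thn n)) / (1 - rexp (-π * β * thn n))) ^ j ≤
      En n * (max 1 (1 / (β * Real.log n))) ^ j := by
  have hl : 0 < Real.log n := by linarith
  have hc : 0 < π * β * thn n := by unfold thn; positivity
  rw [show -π * β * thn n = -(π * β * thn n) by ring]
  have h1 : 1 + 2 / (π * β * thn n) ≤ rexp (1 / Real.log n) * max 1 (1 / (β * Real.log n)) := by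
    have h2 : 2 / (π * β * thn n) ≤ 1 / Real.log n * (1 / (β * Real.log n)) := by
      rw [div_mul_div_comm, div_le_div_iff₀ hc (by positivity), thn]
      have : 0 < β * Real.log n ^ 2 := by positivity
      nlinarith [Real.pi_gt_three]
    have h3 := Real.add_one_le_exp (1 / Real.log n)
    have h4 := le_max_left 1 (1 / (β * Real.log n))
    have h5 := mul_le_mul_of_nonneg_left (le_max_right 1 (1 / (β * Real.log n)))
      (by positivity : 0 ≤ 1 / Real.log n)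
    nlinarith
  refine (pow_le_pow_left₀ (coth_nonneg hc) ((coth_le hc).trans h1) j).trans ?_
  rw [mul_pow, ← Real.exp_nat_mul, mul_one_div]
  exact mul_le_mul_of_nonneg_right (exp_div_log_le h (Nat.cast_le.2 hj)) (by positivity)

theorem coth_log_le {n : ℕ} (h : 1 ≤ Real.log n) {j : ℕ} (hj : j ≤ n) :
    ((1 + rexp (-π * (1 / Real.log n) * thn n)) / (1 - rexp (-π * (1 / Real.log n) * thn n))) ^ j ≤
      En n := by
  have hl : 0 < Real.log n := by linarith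
  have := coth_pow_le h (β := 1 / Real.log n) (by positivity) hj
  rwa [one_div_mul_cancel hl.ne', div_one, max_self, one_pow, mul_one] at this

theorem nice_adm : ∀ᶠ n : ℕ in atTop, ∀ ω : ℝ, 0 < ω → ∀ lvl : ℕ, lvl ≤ 1 →
    ∀ S ∈ Dl n ω (MM n + lvl), Adm n ω (spanS S) 1 lvl ∧
      th ω (spanS S) (1 / Real.log n) ≤ En n ∧ th0 ω (spanS S) (1 / 100) ≤ 1 / (n : ℝ) ^ 6 := by
  filter_upwards [ev_log 300, eventually_ge_atTop 10] with n hl hn ω hω lvl hlvl S hS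
  obtain ⟨h1, h2, h3⟩ := mem_Dl.1 hS
  have hn3 : 3 ≤ n := by omega
  have hl1 : 1 ≤ Real.log n := by linarith
  have hj : S.card ≤ n := by unfold MM at h3; omega
  refine ⟨⟨⟨S, rfl, h3, fun g hg => ((mem_Kn hω g).1 (Finset.mem_filter.1 (h1 hg)).1).2⟩, le_rfl,
    fun β hβ => (h2.th_le hn3 hω hβ).trans ((coth_pow_le hl1 hβ hj).trans ?_)⟩,
    (h2.th_le hn3 hω (by positivity)).trans (coth_log_le hl1 hj), ?_⟩
  · rw [one_mul, Env]
    refine mul_le_mul (le_self_pow₀ (one_le_En n) (by omega)) ?_ (by positivity)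
      (pow_nonneg (by linarith [one_le_En n]) _)
    refine (pow_le_pow_left₀ (by positivity) (max_le_max le_rfl ?_) _).trans
      (pow_le_pow_right₀ (le_max_left _ _) h3)
    exact div_le_div_of_nonneg_right (one_le_pow₀ (by norm_num)) (by positivity)
  · have h4 := h2.th_le hn3 hω (β := 1 / 100) (by norm_num)
    rw [th_eq hω (by norm_num)] at h4
    have hn0 : (10 : ℝ) ≤ n := by exact_mod_cast hn
    have h5 : rexp (-π * (1 / 100) * thn n) ≤ 1 / (n : ℝ) ^ 9 := by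
      rw [one_div ((n : ℝ) ^ 9), ← Real.exp_log (by positivity : (0 : ℝ) < n ^ 9), ← Real.exp_neg,
        Real.log_pow, thn]
      refine Real.exp_le_exp.2 ?_
      push_cast
      nlinarith [Real.pi_gt_three, mul_le_mul_of_nonneg_left hl (by linarith : 0 ≤ Real.log n)]
    have h6 := Real.exp_pos (-π * (1 / 100) * thn n)
    generalize rexp (-π * (1 / 100) * thn n) = q at *
    have h7 : q * n ^ 9 ≤ 1 := by rwa [le_div_iff₀ (by positivity)] at h5
    have h8 : (10 : ℝ) ^ 8 ≤ n ^ 8 := by gcongr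
    have h9 : q * n ≤ 1 / 100 := by nlinarith [mul_pos h6 (by linarith : (0 : ℝ) < n)]
    have h10 : q ≤ 1 / 2 := by nlinarith
    have h11 : (1 + q) / (1 - q) ≤ rexp (4 * q) := by
      refine le_trans ?_ (Real.add_one_le_exp _)
      rw [div_le_iff₀ (by linarith)]
      nlinarith
    have h12 : ((1 + q) / (1 - q)) ^ S.card ≤ rexp (4 * q * n) := by
      refine (pow_le_pow_left₀ (div_nonneg (by linarith) (by linarith)) h11 _).trans ?_
      rw [← Real.exp_nat_mul, mul_comm]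
      gcongr
    have h13 := Real.abs_exp_sub_one_le (x := 4 * q * n) (by
      rw [abs_of_nonneg (by positivity)]; linarith)
    rw [abs_of_nonneg (by positivity : 0 ≤ 4 * q * n)] at h13
    have h14 := le_abs_self (rexp (4 * q * n) - 1)
    rw [le_div_iff₀ (by positivity)]
    have h15 : 8 * q * n * n ^ 6 ≤ 1 := by
      have : 0 < q * n ^ 7 := by positivity
      nlinarith [mul_le_mul_of_nonneg_left (by nlinarith : (8 : ℝ) ≤ n ^ 2) this.le]
    nlinarith [mul_le_mul_of_nonneg_right (by linarith : th0 ω (spanS S) (1 / 100) ≤ 8 * q * n)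
      (by positivity : (0 : ℝ) ≤ n ^ 6)]

theorem card_Kp_span_le : ∀ᶠ n : ℕ in atTop, ∀ ω : ℝ, 0 < ω → ∀ S ∈ Dl n ω (MM n + 1),
    (((Kp n ω).filter fun v => iv v ∈ spanS S).card : ℝ) ≤ En n ^ 2 := by
  filter_upwards [nice_adm, rho1_le, ev_log 1] with n h1 h2 hl ω hω S hS
  have hb : 0 < 1 / Real.log n := by positivity
  have h3 := ((summable_th hω hb fun κ => iv κ ∈ spanS S).sum_le_tsum
    ((Kp n ω).filter fun v => iv v ∈ spanS S) fun _ _ => by split_ifs <;> positivity).trans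
    (h1 ω hω 1 le_rfl S hS).2.1
  have h4 := Finset.card_nsmul_le_sum ((Kp n ω).filter fun v => iv v ∈ spanS S)
    (fun κ => if iv κ ∈ spanS S then rexp (-π * (1 / Real.log n) * (ω ^ 2 * ‖iv κ‖ ^ 2)) else 0)
    (rexp (-(n / Real.log n))) fun v hv => by
      rw [Finset.mem_filter] at hv
      rw [if_pos hv.2, Real.exp_le_exp, div_eq_mul_one_div]
      have h5 := (Finset.mem_filter.1 hv.1).2.2.trans h2.2
      have h6 : π * (ω ^ 2 * ‖iv v‖ ^ 2) ≤ 4 * (n / 10) :=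
        mul_le_mul Real.pi_le_four h5 (by positivity) (by norm_num)
      nlinarith [mul_le_mul_of_nonneg_right (by linarith [(Nat.cast_nonneg n : (0 : ℝ) ≤ n)] :
        π * (ω ^ 2 * ‖iv v‖ ^ 2) ≤ n) hb.le]
  rw [nsmul_eq_mul, Real.exp_neg, ← div_eq_mul_inv] at h4
  have h5 := h4.trans h3
  rw [div_le_iff₀ (Real.exp_pos _)] at h5
  rw [sq]
  exact h5.trans (mul_le_mul_of_nonneg_left (exp_div_log_le hl le_rfl)
    (by linarith [one_le_En n]))

theorem Maj_pos {n : ℕ} {ω : ℝ} (hn : 1 ≤ n) (hω : 0 < ω) (k : Zv (n / 2)) : 0 < Maj n ω k := by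
  have : (0 : ℝ) < n := by exact_mod_cast hn
  unfold Maj
  positivity

theorem Wt.nonneg {n : ℕ} {ω : ℝ} (hn : 1 ≤ n) (hω : 0 < ω) {p : Zv (n / 2) → ℝ}
    (hp : Wt n ω p) {k : Zv (n / 2)} (hk : k ∈ Kp n ω) : 0 ≤ p k :=
  ((mul_pos_iff_of_pos_left (pow_pos (by exact_mod_cast hn) 4)).1
    ((Maj_pos hn hω k).trans_le (hp.maj_le k hk))).le

theorem sum_powerset_le {α : Type*} (K : Finset α) (p : α → ℝ) (hp : ∀ k ∈ K, 0 ≤ p k) :
    ∑ S ∈ K.powerset, ∏ k ∈ S, p k ≤ rexp (∑ k ∈ K, p k) := by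
  rw [← Finset.prod_one_add, Real.exp_sum]
  exact Finset.prod_le_prod (fun k hk => by linarith [hp k hk]) fun k _ => by
    linarith [Real.add_one_le_exp (p k)]

theorem sum_prod_le {n : ℕ} {ω : ℝ} (hn : 1 ≤ n) (hω : 0 < ω) {p : Zv (n / 2) → ℝ}
    (hp : Wt n ω p) : ∑ S ∈ (Kp n ω).powerset, ∏ k ∈ S, p k ≤ rexp (TT n / 2 + 1) :=
  (sum_powerset_le _ _ fun _ => hp.nonneg hn hω).trans (Real.exp_le_exp.2 hp.sum_le)

theorem sum_Dl_le {n : ℕ} {ω : ℝ} (hn : 1 ≤ n) (hω : 0 < ω) {p : Zv (n / 2) → ℝ}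
    (hp : Wt n ω p) (M : ℕ) : ∑ S ∈ Dl n ω M, ∏ k ∈ S, p k ≤ rexp (TT n / 2 + 1) :=
  (Finset.sum_le_sum_of_subset_of_nonneg (Finset.filter_subset _ _) fun _ hS _ =>
    Finset.prod_nonneg fun _ hk => hp.nonneg hn hω (Finset.mem_powerset.1 hS hk)).trans
    (sum_prod_le hn hω hp)

theorem sum_size_le : ∀ᶠ n : ℕ in atTop, ∀ ω : ℝ, 0 < ω → ∀ p : Zv (n / 2) → ℝ, Wt n ω p →
    ∑ S ∈ (Kp n ω).powerset.filter (fun S => S.card = MM n + 1), ∏ k ∈ S, p k ≤
      rexp (TT n / 2 - 0.045 * n) := by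
  filter_upwards [eventually_ge_atTop 4000] with n hn ω hω p hp
  have hp0 : ∀ k ∈ Kp n ω, 0 ≤ p k := fun _ => hp.nonneg (by omega) hω
  have hθ : rexp (4 / 3) ≤ 3.8 := by
    refine le_of_pow_le_pow_left₀ (n := 3) (by norm_num) (by norm_num) ?_
    rw [← Real.exp_nat_mul, show ((3 : ℕ) : ℝ) * (4 / 3) = (4 : ℕ) * 1 by norm_num,
      Real.exp_nat_mul]
    exact (pow_le_pow_left₀ (Real.exp_pos 1).le Real.exp_one_lt_d9.le 4).trans (by norm_num)
  have h1 := sum_powerset_le (Kp n ω) (fun k => rexp (4 / 3) * p k) fun k hk =>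
    mul_nonneg (Real.exp_pos _).le (hp0 k hk)
  have h2 : rexp (4 / 3) ^ (MM n + 1) *
      ∑ S ∈ (Kp n ω).powerset.filter (fun S => S.card = MM n + 1), ∏ k ∈ S, p k ≤
      ∑ S ∈ (Kp n ω).powerset, ∏ k ∈ S, rexp (4 / 3) * p k := by
    rw [Finset.mul_sum]
    refine le_trans (le_of_eq (Finset.sum_congr rfl fun S hS => ?_))
      (Finset.sum_le_sum_of_subset_of_nonneg (Finset.filter_subset _ _) fun S hS _ =>
        Finset.prod_nonneg fun k hk => mul_nonneg (Real.exp_pos _).le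
          (hp0 k (Finset.mem_powerset.1 hS hk)))
    rw [Finset.prod_mul_distrib, Finset.prod_const, (Finset.mem_filter.1 hS).2]
  have h3 := h2.trans h1
  rw [← Real.exp_nat_mul, ← le_div_iff₀' (Real.exp_pos _), ← Real.exp_sub, ← Finset.mul_sum] at h3
  refine h3.trans (Real.exp_le_exp.2 ?_)
  have h4 : rexp (4 / 3) * ∑ k ∈ Kp n ω, p k ≤ 3.8 * (TT n / 2 + 1) :=
    mul_le_mul hθ hp.sum_le (Finset.sum_nonneg hp0) (by norm_num)
  have h5 : (3 : ℝ) * n ≤ 40 * ((MM n + 1 : ℕ) : ℝ) := by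
    have : 3 * n ≤ 40 * (MM n + 1) := by unfold MM; omega
    exact_mod_cast this
  have h6 : (4000 : ℝ) ≤ n := by exact_mod_cast hn
  unfold TT at *
  linarith

end Pool.Agent.Eps
end
end
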