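import Pool.Agent.Lib.MP_3bda03_nt.SigA

-- part Pool.Agent.Lib.MP_3bda03_nt.SigB
section

/-!
Integer combinations of the points of a nice set.
-/

set_option autoImplicit false

noncomputable section

open scoped BigOperators Classical Topology
open MeasureTheory Real Complex Filter

namespace Pool.Agent.Eps

/-- the facts about large `n` and small `ω` that are used below -/
structure SgCtx (n : ℕ) (ω : ℝ) : Prop where
  om : 0 < ω
  lg : 1000 ≤ Real.log n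
  inv : ∀ S : Finset (Zv (n / 2)), InvW (spanS S) (AS n ω S)
  eas : ∀ S ∈ Dl n ω (MM n + 1), ∫ x, AS n ω S x ∂PP (n / 2) ≤ ∏ k ∈ S, pp n ω k
  wt : Wt n ω (pp n ω)
  adm : ∀ S ∈ Dl n ω (MM n + 1), Adm n ω (spanS S) 1 1 ∧
    th ω (spanS S) (1 / Real.log n) ≤ En n ∧ th0 ω (spanS S) (1 / 100) ≤ 1 / (n : ℝ) ^ 6
  sm : ∀ s : ℝ, 0 < s → s ≤ 100 + 2 * (n : ℝ) ^ 4 →
    (ω + 1 / √s) ^ (n / 2) ≤ 2 * s ^ (-((n / 2 : ℕ) : ℝ) / 2)
  gr : ∀ Y₁ Y : ℝ, 1 ≤ Y₁ → Y₁ ≤ 3 → Y₁ ≤ Y →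
    Y ^ (-mh n) * (max 1 (400 * Y / √(Real.log n))) ^ (2 * MM n + 20) ≤ Y₁ ^ (-mh n)
  rub : rexp (π * rexp 1 * rho1 n) ≤ (n : ℝ) ^ 2 * rexp (n / 2)
  rex : ∀ τ ∈ Set.Icc (0 : ℝ) 4,
    rexp (π * τ * (rho1 n + 1)) ≤ (n : ℝ) ^ 4 * rexp (τ * n / (2 * rexp 1))
  rle : 1 ≤ rho1 n ∧ rho1 n + 1 ≤ (n : ℝ) / 10
  f00 : F00 (n / 2) (n % 2) ω (1 / Real.log n / 4) ≤ 2
  amf : ∀ (k : Zv (n / 2)) (x : Xs (n / 2)),
    (∀ β ∈ Set.Icc (1 / 100 : ℝ) 2, AA n ω k x * FS (n % 2) ω (ft β) k x ≤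
      rexp (π * (rexp 1 - β) * rho1 n) * FS (n % 2) ω (ft (rexp 1)) k x +
        rexp (-(n : ℝ) ^ 2) * AA n ω k x) ∧
    AA n ω k x * FS (n % 2) ω (cutG n) k x ≤ rexp (-(n : ℝ) ^ 2) * AA n ω k x
  poly : 10 ^ 7 * (n : ℝ) ^ 8 ≤ En n
  nt : ∀ t ∈ Set.Icc (1 : ℝ) 3, ft t (rho1 n) ≤ Nt n t ∧
    (t ≤ 3 / 2 → t ^ (-(n : ℝ) / 2) * ft t⁻¹ (rho1 n) ≤ (n : ℝ) ^ 4 * Nt n t) ∧
    rexp (-n) ≤ Nt n t

theorem sg_ctx : ∀ᶠ n : ℕ in atTop, ∀ᶠ ω in 𝓝[>] (0 : ℝ), SgCtx n ω := by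
  have hlog : ∀ᶠ n : ℕ in atTop, 1000 ≤ Real.log n :=
    (Real.tendsto_log_atTop.comp tendsto_natCast_atTop_atTop).eventually_ge_atTop 1000
  filter_upwards [hlog, AA_inv, EAS_le, wt_pp, nice_adm, grow 400 3, rho1_ub, rho1_exp_le,
    rho1_le, AA_mul_FS_le, poly_le_En (10 ^ 7) 8, ft_le_Nt, eventually_ge_atTop 2]
    with n h1 h2 h3 h4 h5 h6 h7 h8 h9 h10 h11 h12 h13
  have hb : 0 < 1 / Real.log n / 4 := by
    have : 0 < Real.log n := by linarith
    positivity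
  have hF := (tendsto_F00 (m := n / 2) (r := n % 2) (by omega) (by omega) hb).eventually_le_const
    (show (1 : ℝ) < 2 by norm_num)
  filter_upwards [h2, h3, h4, h10, hF, sg_small (n / 2) (100 + 2 * (n : ℝ) ^ 4),
    self_mem_nhdsWithin] with ω k2 k3 k4 k10 kF ks hω
  exact ⟨hω, h1, k2.2, k3, k4, h5 ω hω 1 le_rfl, ks, h6, h7, h8, h9, kF, k10, h11, h12⟩

namespace SgCtx

variable {n : ℕ} {ω : ℝ}

theorem big (c : SgCtx n ω) : (1000 : ℝ) ≤ n := by
  have h := c.lg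
  have h1 : (0 : ℝ) ≤ n := Nat.cast_nonneg n
  exact h.trans (Real.log_le_self h1)

theorem three (c : SgCtx n ω) : 3 ≤ n := by
  have h : ((3 : ℕ) : ℝ) ≤ n := by
    have := c.big
    push_cast
    linarith
  exact_mod_cast h

theorem F00_le (c : SgCtx n ω) {β : ℝ} (hβ : 1 / Real.log n ≤ β) :
    F00 (n / 2) (n % 2) ω (β / 4) ≤ 2 := by
  have : 0 < Real.log n := by linarith [c.lg]
  exact (F00_anti c.om (by positivity) (by linarith)).trans c.f00

theorem inv_log_le (c : SgCtx n ω) : 1 / Real.log n ≤ 1 / 1000 :=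
  one_div_le_one_div_of_le (by norm_num) c.lg

theorem th_le (c : SgCtx n ω) {S : Finset (Zv (n / 2))} (hS : S ∈ Dl n ω (MM n + 1)) {β : ℝ}
    (hβ : 1 / Real.log n ≤ β) : th ω (spanS S) β ≤ En n := by
  have : 0 < Real.log n := by linarith [c.lg]
  exact (th_anti c.om (by positivity) hβ le_rfl).1.trans (c.adm S hS).2.1

theorem V_le (c : SgCtx n ω) {S : Finset (Zv (n / 2))} (hS : S ∈ Dl n ω (MM n + 1)) {β : ℝ}
    (hβ : 1 / Real.log n ≤ β) (P : Zv (n / 2) → Prop) [DecidablePred P]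
    (hP : ∀ κ, P κ → iv κ ∈ spanS S) (x : Xs (n / 2)) :
    (∑' κ : Zv (n / 2), if P κ then FS (n % 2) ω (ft β) κ x else 0) ≤ 2 * En n := by
  have : 0 < Real.log n := by linarith [c.lg]
  have hβ0 : 0 < β := lt_of_lt_of_le (by positivity) hβ
  exact (sg_V_le c.om hβ0 P hP x).trans
    (mul_le_mul (c.F00_le hβ) (c.th_le hS hβ) (sg_th_nonneg _ _ _) (by norm_num))

theorem E_nonneg (c : SgCtx n ω) (S : Finset (Zv (n / 2))) :
    0 ≤ ∫ x, AS n ω S x ∂PP (n / 2) := integral_nonneg (c.inv S).nonneg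

theorem sumE (c : SgCtx n ω) :
    ∑ S ∈ Dl n ω (MM n + 1), ∫ x, AS n ω S x ∂PP (n / 2) ≤ rexp (TT n / 2 + 1) := by
  have hn : 1 ≤ n := by have := c.three; omega
  refine (Finset.sum_le_sum c.eas).trans (le_trans ?_ (sum_prod_le hn c.om c.wt))
  refine Finset.sum_le_sum_of_subset_of_nonneg (Finset.filter_subset _ _) fun S hS _ => ?_
  refine Finset.prod_nonneg fun k hk => ?_
  have hk' := Finset.mem_powerset.1 hS hk
  have h1 := (Maj_pos hn c.om k).trans_le (c.wt.maj_le k hk')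
  have h2 : (0 : ℝ) < (n : ℝ) ^ 4 := by have := c.big; positivity
  exact ((mul_pos_iff_of_pos_left h2).1 h1).le

theorem sumE_mul (c : SgCtx n ω) {B : ℝ} (hB : 0 ≤ B) :
    ∑ S ∈ Dl n ω (MM n + 1), (∫ x, AS n ω S x ∂PP (n / 2)) * B ≤ rexp (TT n / 2 + 1) * B := by
  rw [← Finset.sum_mul]
  exact mul_le_mul_of_nonneg_right c.sumE hB

theorem nice {M : ℕ} {S : Finset (Zv (n / 2))} (hS : S ∈ Dl n ω M) : Nice n ω S :=
  (Finset.mem_filter.1 hS).2.1

theorem erase (c : SgCtx n ω) (g : Finset (Zv (n / 2)) → Zv (n / 2) → ℝ) (hg : ∀ S i, 0 ≤ g S i) :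
    ∑ S ∈ Dl n ω (MM n + 1), ∑ i ∈ S, g (S.erase i) i ≤
      ∑ S ∈ Dl n ω (MM n + 1), ∑ i ∈ Kp n ω, g S i :=
  sg_sum_erase _ _ (fun S hS => ((Dl_down c.three _).2 S hS).1)
    (fun S hS => ((Dl_down c.three _).2 S hS).2) g hg

/-- growth factor of the envelope -/
def Gp (n : ℕ) (Y : ℝ) : ℝ := (max 1 (400 * Y / √(Real.log n))) ^ (MM n + 1)

theorem one_le_Gp (n : ℕ) (Y : ℝ) : 1 ≤ Gp n Y := one_le_pow₀ (le_max_left _ _)

theorem th_env (c : SgCtx n ω) {S : Finset (Zv (n / 2))} (hS : S ∈ Dl n ω (MM n + 1)) {β Y : ℝ}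
    (hY : 0 < Y) (hβ : 1 / (100 * Y) ≤ β) : th ω (spanS S) β ≤ En n ^ 2 * Gp n Y := by
  have hβ0 : 0 < β := lt_of_lt_of_le (by positivity) hβ
  refine ((c.adm S hS).1.th_le β hβ0).trans ?_
  rw [one_mul]
  unfold Env Gp
  have hL : 1 ≤ Real.log n := by linarith [c.lg]
  have hE := one_le_En n
  refine mul_le_mul_of_nonneg_left (pow_le_pow_left₀ (by positivity)
    (max_le_max le_rfl ?_) _) (by positivity)
  have h1 : √(Real.log n) ≤ Real.log n := by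
    rw [Real.sqrt_le_left (by linarith)]
    nlinarith
  have h2 : 0 < √(Real.log n) := Real.sqrt_pos.2 (by linarith)
  rw [div_le_div_iff₀ (by positivity) h2]
  rw [div_le_iff₀ (by positivity)] at hβ
  nlinarith [mul_le_mul hβ h1 h2.le (by positivity)]

theorem grow_sq (c : SgCtx n ω) {Y₁ Y : ℝ} (h₁ : 1 ≤ Y₁) (h₂ : Y₁ ≤ 3) (h₃ : Y₁ ≤ Y) :
    Y ^ (-mh n) * Gp n Y ^ 2 ≤ Y₁ ^ (-mh n) := by
  refine le_trans (mul_le_mul_of_nonneg_left ?_ (Real.rpow_nonneg (by linarith) _))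
    (c.gr Y₁ Y h₁ h₂ h₃)
  unfold Gp
  rw [← pow_mul]
  exact pow_le_pow_right₀ (le_max_left _ _) (by omega)

theorem grow_one (c : SgCtx n ω) {Y₁ Y : ℝ} (h₁ : 1 ≤ Y₁) (h₂ : Y₁ ≤ 3) (h₃ : Y₁ ≤ Y) :
    Y ^ (-mh n) * Gp n Y ≤ Y₁ ^ (-mh n) := by
  refine le_trans (mul_le_mul_of_nonneg_left ?_ (Real.rpow_nonneg (by linarith) _))
    (c.grow_sq h₁ h₂ h₃)
  nlinarith [one_le_Gp n Y]

end SgCtx

theorem sg_mh (n : ℕ) : -((n / 2 : ℕ) : ℝ) / 2 = -mh n := by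
  unfold mh
  ring

theorem sg_half (n : ℕ) : (n : ℝ) / 2 - 1 / 2 ≤ 2 * mh n ∧ 2 * mh n ≤ (n : ℝ) / 2 := by
  have := mh_le n
  constructor <;> linarith [this.1, this.2]

theorem sg_e : 2.7 ≤ rexp 1 ∧ rexp 1 ≤ 3 := by
  constructor
  · linarith [Real.exp_one_gt_d9]
  · linarith [Real.exp_one_lt_d9]

theorem sg_Z_sq (n : ℕ) {Y : ℝ} (h₁ : 1 ≤ Y) (h₂ : Y ≤ 3) :
    Y ^ (-mh n) * Y ^ (-mh n) ≤ 2 * Y ^ (-(n : ℝ) / 2) := by
  have hY : 0 < Y := by linarith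
  rw [← Real.rpow_add hY]
  have h3 : Y ^ (-mh n + -mh n) ≤ Y ^ ((1 / 2 : ℝ) + -(n : ℝ) / 2) :=
    Real.rpow_le_rpow_of_exponent_le h₁ (by linarith [(sg_half n).1])
  refine h3.trans ?_
  rw [Real.rpow_add hY, ← Real.sqrt_eq_rpow]
  refine mul_le_mul_of_nonneg_right ?_ (by positivity)
  rw [Real.sqrt_le_left (by norm_num)]
  linarith

theorem sg_e_mh (n : ℕ) : rexp (n / 2) * (rexp 1 ^ (-mh n) * rexp 1 ^ (-mh n)) ≤ 3 := by
  rw [Real.exp_one_rpow, ← Real.exp_add, ← Real.exp_add]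
  exact (Real.exp_le_exp.2 (by linarith [(sg_half n).1])).trans sg_e.2

theorem sg_mem_span {m : ℕ} (T : Finset (Zv m)) (ξ : Zv m → ℤ) :
    iv (∑ k ∈ T, ξ k • k) ∈ spanS T := by
  rw [iv_sum]
  refine Submodule.sum_mem _ fun k hk => ?_
  rw [iv_zsmul]
  exact Submodule.smul_mem _ _ (Submodule.subset_span ⟨k, hk, rfl⟩)

namespace SgCtx

variable {n : ℕ} {ω : ℝ}

theorem Y_mem {β : ℝ} (hβ : β ∈ Set.Icc (1 / 100 : ℝ) 1.4) :
    1 ≤ 1 + 2 * β / rexp 1 ∧ 1 + 2 * β / rexp 1 ≤ 3 := by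
  have he := sg_e
  have h0 : 0 < rexp 1 := Real.exp_pos 1
  constructor
  · have : 0 ≤ 2 * β / rexp 1 := div_nonneg (by linarith [hβ.1]) h0.le
    linarith
  · have : 2 * β / rexp 1 ≤ 2 := by
      rw [div_le_iff₀ h0]
      linarith [hβ.2, he.1]
    linarith

/-- multiples of one point -/
theorem two_sum (c : SgCtx n ω) {β : ℝ} (hβ : β ∈ Set.Icc (1 / 100 : ℝ) 1.4) {a : ℤ}
    (ha₁ : 2 ≤ (a : ℝ) ^ 2) (ha₂ : (a : ℝ) ^ 2 ≤ (n : ℝ) ^ 4) :
    ∑ S ∈ Dl n ω (MM n + 1), ∑ i ∈ S,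
      ∫ x, AS n ω S x * FS (n % 2) ω (ft β) (a • i) x ∂PP (n / 2) ≤
      rexp (TT n / 2 + 1) *
        (191664 * (n : ℝ) ^ 4 * En n ^ 6 * (1 + 2 * β / rexp 1) ^ (-(n : ℝ) / 2)) := by
  have he := sg_e
  have hE0 : 0 < rexp 1 := Real.exp_pos 1
  have hβ0 : 0 < β := by linarith [hβ.1]
  have hω := c.om
  have hr : n % 2 ≤ 1 := by omega
  have hEn := one_le_En n
  have hn := c.big
  set E := rexp 1 with hE
  set Y := 1 + β * (a : ℝ) ^ 2 / E with hY
  have hY1 := Y_mem hβ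
  have hYY : 1 + 2 * β / E ≤ Y := by
    rw [hY]
    have : 2 * β ≤ β * (a : ℝ) ^ 2 := by nlinarith
    have := div_le_div_of_nonneg_right this hE0.le
    linarith
  have hY0 : 0 < Y := by linarith [hY1.1]
  set s := β⁻¹ + E⁻¹ * (a : ℝ) ^ 2 with hs
  have hs0 : 0 < s := by positivity
  have hsY : β * s = Y := by rw [hs, hY]; field_simp
  have hβi : β⁻¹ ≤ 100 := by
    rw [inv_le_comm₀ hβ0 (by norm_num)]
    linarith [hβ.1]
  have hEi : E⁻¹ ≤ 1 := inv_le_one_of_one_le₀ (by linarith [he.1])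
  have hsR : s ≤ 100 + 2 * (n : ℝ) ^ 4 := by
    have := mul_le_mul hEi ha₂ (by positivity) (by norm_num)
    have : (0 : ℝ) ≤ (n : ℝ) ^ 4 := by positivity
    linarith
  have hsm : β ^ (-((n / 2 : ℕ) : ℝ) / 2) * (ω + 1 / √s) ^ (n / 2) ≤ 2 * Y ^ (-mh n) := by
    refine (mul_le_mul_of_nonneg_left (c.sm s hs0 hsR) (by positivity)).trans (le_of_eq ?_)
    rw [← hsY, Real.mul_rpow hβ0.le hs0.le, sg_mh]
    ring
  have hc1 : 1 / (100 * Y) ≤ β⁻¹ * E⁻¹ / s := by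
    have : β⁻¹ * E⁻¹ / s = 1 / (E * Y) := by rw [← hsY]; field_simp
    rw [this]
    exact one_div_le_one_div_of_le (by positivity) (by nlinarith [he.2])
  set cc := rexp (π * E * rho1 n) with hcc
  have hcc0 : 0 < cc := Real.exp_pos _
  have hG := one_le_Gp n Y
  set Q := cc * 121 * E ^ (-mh n) * (2 * Y ^ (-mh n)) * (En n ^ 2 * Gp n Y) with hQ
  have hQ0 : 0 ≤ Q := by positivity
  set g : Finset (Zv (n / 2)) → Zv (n / 2) → ℝ := fun S i => (∫ x, AS n ω S x ∂PP (n / 2)) *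
    (Q * (ω ^ (n / 2) * (sgG ω E (iv i) * sgG ω β ((a : ℝ) • iv i + 0)))) with hg
  have hg0 : ∀ S i, 0 ≤ g S i := fun S i => mul_nonneg (c.E_nonneg S) (mul_nonneg hQ0
    (mul_pos (by positivity) (mul_pos (sgG_pos _ _ _) (sgG_pos _ _ _))).le)
  have h1 : ∀ S ∈ Dl n ω (MM n + 1), ∀ i ∈ S,
      ∫ x, AS n ω S x * FS (n % 2) ω (ft β) (a • i) x ∂PP (n / 2) ≤ g (S.erase i) i := by
    intro S hS i hi
    have hi' : iv i ∉ spanS (S.erase i) :=
      (nice hS).notMem_span c.three (Finset.erase_subset _ _) hi (Finset.notMem_erase _ _)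
    have hW : ext (spanS (S.erase i)) i = spanS S := by
      rw [← spanS_insert, Finset.insert_erase hi]
    have h2 := sg_two (r := n % 2) hω (by linarith [he.1]) hβ.1 hr (c.inv (S.erase i)) hi' hs
    rw [hW, sg_mh] at h2
    have h3 : ∫ x, AS n ω S x * FS (n % 2) ω (ft β) (a • i) x ∂PP (n / 2) ≤
        ∫ x, cc * (AS n ω (S.erase i) x *
          (FS (n % 2) ω (ft E) i x * FS (n % 2) ω (ft β) (a • i) x)) ∂PP (n / 2) := by
      refine integral_mono_of_nonneg (Eventually.of_forall fun x =>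
        mul_nonneg ((c.inv S).nonneg x) (sg_F_nonneg _ _ _ _)) ?_ (Eventually.of_forall fun x => ?_)
      · exact ((SgB.const cc).mul ((c.inv _).sgB.mul
          ((sgB_F hω hE0 i).mul (sgB_F hω hβ0 _)))).integrable
      · have e1 : AS n ω S x = AA n ω i x * AS n ω (S.erase i) x :=
          (Finset.mul_prod_erase S (fun k => AA n ω k x) hi).symm
        have b1 := (AA_le_FS hω hE0 i x).2
        have p1 := (c.inv (S.erase i)).nonneg x
        have p2 := sg_F_nonneg (r := n % 2) ω β (a • i) x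
        have := mul_le_mul_of_nonneg_right b1 (mul_nonneg p1 p2)
        simp only [e1]
        linarith
    rw [integral_const_mul] at h3
    refine h3.trans ((mul_le_mul_of_nonneg_left h2 hcc0.le).trans ?_)
    simp only [hg, hQ, add_zero, iv_zsmul]
    have b2 := c.th_env hS hY0 hc1
    rw [sg_mh] at hsm
    have b3 := mul_le_mul hsm b2 (sg_th_nonneg _ _ _) (by positivity)
    have p3 := c.E_nonneg (S.erase i)
    have p4 := sgG_pos ω E (iv i)
    have p5 := sgG_pos ω β ((a : ℝ) • iv i)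
    have := mul_le_mul_of_nonneg_left b3 (show 0 ≤ cc * (∫ x, AS n ω (S.erase i) x ∂PP (n / 2)) *
      121 * (ω ^ (n / 2) * E ^ (-mh n)) * (sgG ω E (iv i) * sgG ω β ((a : ℝ) • iv i)) by
        positivity)
    linarith
  refine (Finset.sum_le_sum fun S hS => Finset.sum_le_sum (h1 S hS)).trans
    ((c.erase g hg0).trans (le_trans (Finset.sum_le_sum fun S hS => ?_)
      (c.sumE_mul (by have := hY1.1; positivity))))
  simp only [hg]
  rw [← Finset.mul_sum, ← Finset.mul_sum, ← Finset.mul_sum]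
  refine mul_le_mul_of_nonneg_left ?_ (c.E_nonneg S)
  have h4 := sg_sum_one (a := (a : ℝ)) hω hE0 hβ0.le 0 (Kp n ω)
  rw [sgG_zero, mul_one] at h4
  have h5 : E + β * (a : ℝ) ^ 2 = E * Y := by rw [hY]; field_simp
  have h6 := c.sm (E + β * (a : ℝ) ^ 2) (by positivity) (by nlinarith [he.2, hβ.2])
  rw [h5, Real.mul_rpow hE0.le hY0.le, sg_mh, ← h5] at h6
  refine (mul_le_mul_of_nonneg_left (h4.trans h6) hQ0).trans ?_
  have z1 := c.grow_one hY1.1 hY1.2 hYY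
  have z2 : Y ^ (-mh n) ≤ (1 + 2 * β / E) ^ (-mh n) := by
    refine le_trans ?_ z1
    have : 0 ≤ Y ^ (-mh n) := by positivity
    nlinarith
  have z3 := (mul_le_mul z1 z2 (by positivity) (by have := hY1.1; positivity)).trans
    (sg_Z_sq n hY1.1 hY1.2)
  have z4 : cc * (E ^ (-mh n) * E ^ (-mh n)) ≤ 3 * (n : ℝ) ^ 2 := by
    have := mul_le_mul_of_nonneg_right c.rub
      (show 0 ≤ E ^ (-mh n) * E ^ (-mh n) by positivity)
    have h7 := mul_le_mul_of_nonneg_left (sg_e_mh n) (show (0 : ℝ) ≤ (n : ℝ) ^ 2 by positivity)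
    rw [← hE] at h7
    linarith
  have z5 := mul_le_mul z4 z3 (by positivity) (by positivity)
  have z6 : En n ^ 2 ≤ En n ^ 6 := pow_le_pow_right₀ hEn (by norm_num)
  have z7 : (n : ℝ) ^ 2 ≤ (n : ℝ) ^ 4 := pow_le_pow_right₀ (by linarith) (by norm_num)
  have z8 : 0 ≤ (1 + 2 * β / E) ^ (-(n : ℝ) / 2) := by have := hY1.1; positivity
  have z9 := mul_le_mul z7 z6 (by positivity) (by positivity)
  calc Q * (2 * (E ^ (-mh n) * Y ^ (-mh n)))
      = 484 * En n ^ 2 * (cc * (E ^ (-mh n) * E ^ (-mh n)) *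
        (Y ^ (-mh n) * Gp n Y * Y ^ (-mh n))) := by rw [hQ]; ring
    _ ≤ 484 * En n ^ 2 * (3 * (n : ℝ) ^ 2 * (2 * (1 + 2 * β / E) ^ (-(n : ℝ) / 2))) :=
        mul_le_mul_of_nonneg_left z5 (by positivity)
    _ = 2904 * ((n : ℝ) ^ 2 * En n ^ 2) * (1 + 2 * β / E) ^ (-(n : ℝ) / 2) := by ring
    _ ≤ 191664 * ((n : ℝ) ^ 4 * En n ^ 6) * (1 + 2 * β / E) ^ (-(n : ℝ) / 2) := by
        refine mul_le_mul_of_nonneg_right ?_ z8
        have : 0 ≤ (n : ℝ) ^ 4 * En n ^ 6 := by positivity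
        linarith
    _ = _ := by ring

/-- combinations with two distinguished points -/
theorem three_sum (c : SgCtx n ω) {β : ℝ} (hβ : β ∈ Set.Icc (1 / 100 : ℝ) 1.4) {a b : ℤ}
    (ha₁ : 1 ≤ (a : ℝ) ^ 2) (ha₂ : (a : ℝ) ^ 2 ≤ (n : ℝ) ^ 4)
    (hb₁ : 1 ≤ (b : ℝ) ^ 2) (hb₂ : (b : ℝ) ^ 2 ≤ (n : ℝ) ^ 4) (F : Finset (Zv (n / 2))) :
    ∑ S ∈ Dl n ω (MM n + 1), ∑ i ∈ S, ∑ j ∈ S.erase i, ∑ κ ∈ F,
      (if iv (κ - a • i - b • j) ∈ spanS ((S.erase i).erase j) then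
        ∫ x, AS n ω S x * FS (n % 2) ω (ft β) κ x ∂PP (n / 2) else 0) ≤
      rexp (TT n / 2 + 1) *
        (191664 * (n : ℝ) ^ 4 * En n ^ 6 * (1 + 2 * β / rexp 1) ^ (-(n : ℝ) / 2)) := by
  have he := sg_e
  have hE0 : 0 < rexp 1 := Real.exp_pos 1
  have hβ0 : 0 < β := by linarith [hβ.1]
  have hω := c.om
  have hr : n % 2 ≤ 1 := by omega
  have hEn := one_le_En n
  have hn := c.big
  set E := rexp 1 with hE
  set Y := 1 + β * ((a : ℝ) ^ 2 + (b : ℝ) ^ 2) / E with hY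
  have hY1 := Y_mem hβ
  have hYY : 1 + 2 * β / E ≤ Y := by
    rw [hY]
    have : 2 * β ≤ β * ((a : ℝ) ^ 2 + (b : ℝ) ^ 2) := by nlinarith
    have := div_le_div_of_nonneg_right this hE0.le
    linarith
  have hY0 : 0 < Y := by linarith [hY1.1]
  set s := β⁻¹ + E⁻¹ * ((a : ℝ) ^ 2 + (b : ℝ) ^ 2) with hs
  have hs0 : 0 < s := by positivity
  have hsY : β * s = Y := by rw [hs, hY]; field_simp
  have hβi : β⁻¹ ≤ 100 := by
    rw [inv_le_comm₀ hβ0 (by norm_num)]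
    linarith [hβ.1]
  have hEi : E⁻¹ ≤ 1 := inv_le_one_of_one_le₀ (by linarith [he.1])
  have hsR : s ≤ 100 + 2 * (n : ℝ) ^ 4 := by
    have := mul_le_mul hEi (add_le_add ha₂ hb₂) (by positivity) (by norm_num)
    linarith
  have hsm : β ^ (-mh n) * (ω + 1 / √s) ^ (n / 2) ≤ 2 * Y ^ (-mh n) := by
    refine (mul_le_mul_of_nonneg_left (c.sm s hs0 hsR) (by positivity)).trans (le_of_eq ?_)
    rw [← hsY, Real.mul_rpow hβ0.le hs0.le, sg_mh]
    ring
  have hc1 : 1 / (100 * Y) ≤ β⁻¹ * E⁻¹ / s := by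
    have : β⁻¹ * E⁻¹ / s = 1 / (E * Y) := by rw [← hsY]; field_simp
    rw [this]
    exact one_div_le_one_div_of_le (by positivity) (by nlinarith [he.2])
  have hc2 : 1 / (100 * Y) ≤ β / Y := by
    rw [div_le_div_iff₀ (by positivity) hY0]
    nlinarith [hβ.1]
  set cc := rexp (π * E * rho1 n) with hcc
  have hcc0 : 0 < cc := Real.exp_pos _
  have hG := one_le_Gp n Y
  set Q := cc ^ 2 * 1331 * (E ^ (-mh n)) ^ 2 * (2 * Y ^ (-mh n)) * (En n ^ 2 * Gp n Y) ^ 2 with hQ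
  have hQ0 : 0 ≤ Q := by positivity
  set u : Finset (Zv (n / 2)) → Zv (n / 2) → Zv (n / 2) → Zv (n / 2) → ℝ := fun S i j κ =>
    if iv (κ - a • i - b • j) ∈ spanS S then (ω ^ (n / 2)) ^ 2 *
        (sgG ω E (iv i) * sgG ω E (iv j) * sgG ω β (iv κ)) else 0 with hu
  have hu0 : ∀ S i j κ, 0 ≤ u S i j κ := by
    intro S i j κ
    simp only [hu]
    split_ifs
    · exact (mul_pos (by positivity)
        (mul_pos (mul_pos (sgG_pos _ _ _) (sgG_pos _ _ _)) (sgG_pos _ _ _))).le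
    · exact le_rfl
  set g : Finset (Zv (n / 2)) → Zv (n / 2) → Zv (n / 2) → ℝ := fun S i j =>
    (∫ x, AS n ω S x ∂PP (n / 2)) * (Q * ∑ κ ∈ F, u S i j κ) with hg
  have hg0 : ∀ S i j, 0 ≤ g S i j := fun S i j => mul_nonneg (c.E_nonneg S) (mul_nonneg hQ0
    (Finset.sum_nonneg fun κ _ => hu0 _ _ _ _))
  have h1 : ∀ S ∈ Dl n ω (MM n + 1), ∀ i ∈ S, ∀ j ∈ S.erase i, ∑ κ ∈ F,
      (if iv (κ - a • i - b • j) ∈ spanS ((S.erase i).erase j) then
        ∫ x, AS n ω S x * FS (n % 2) ω (ft β) κ x ∂PP (n / 2) else 0) ≤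
      g ((S.erase i).erase j) i j := by
    intro S hS i hi j hj
    simp only [hg, Finset.mul_sum]
    refine Finset.sum_le_sum fun κ _ => ?_
    simp only [hu]
    split_ifs with hκ
    swap
    · simp
    set T := (S.erase i).erase j with hT
    have hjS : j ∈ S := Finset.mem_of_mem_erase hj
    have hji : j ≠ i := Finset.ne_of_mem_erase hj
    have hTS : T ⊆ S := (Finset.erase_subset _ _).trans (Finset.erase_subset _ _)
    have hiT : i ∉ T := fun h => Finset.notMem_erase i S (Finset.mem_of_mem_erase h)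
    have hjT : j ∉ insert i T := by
      rw [Finset.mem_insert, not_or]
      exact ⟨hji, Finset.notMem_erase _ _⟩
    have hi' : iv i ∉ spanS T := (nice hS).notMem_span c.three hTS hi hiT
    have hj' : iv j ∉ ext (spanS T) i := by
      rw [← spanS_insert]
      exact (nice hS).notMem_span c.three (Finset.insert_subset hi hTS) hjS hjT
    have hW : ext (ext (spanS T) i) j = spanS S := by
      rw [← spanS_insert, ← spanS_insert, Finset.insert_comm, hT, Finset.insert_erase hj,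
        Finset.insert_erase hi]
    have h2 := sg_three (r := n % 2) hω (by linarith [he.1]) hβ.1 hr (c.inv T) hi' hj' hκ hs
    rw [hW, sg_mh] at h2
    have h3 : ∫ x, AS n ω S x * FS (n % 2) ω (ft β) κ x ∂PP (n / 2) ≤
        ∫ x, cc ^ 2 * (AS n ω T x * (FS (n % 2) ω (ft E) i x * FS (n % 2) ω (ft E) j x *
          FS (n % 2) ω (ft β) κ x)) ∂PP (n / 2) := by
      refine integral_mono_of_nonneg (Eventually.of_forall fun x =>
        mul_nonneg ((c.inv S).nonneg x) (sg_F_nonneg _ _ _ _)) ?_ (Eventually.of_forall fun x => ?_)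
      · exact ((SgB.const (cc ^ 2)).mul ((c.inv _).sgB.mul
          (((sgB_F hω hE0 i).mul (sgB_F hω hE0 j)).mul (sgB_F hω hβ0 _)))).integrable
      · have e1 : AS n ω S x = AA n ω i x * AS n ω (S.erase i) x :=
          (Finset.mul_prod_erase S (fun k => AA n ω k x) hi).symm
        have e2 : AS n ω (S.erase i) x = AA n ω j x * AS n ω T x :=
          (Finset.mul_prod_erase _ (fun k => AA n ω k x) hj).symm
        have b1 := AA_le_FS hω hE0 i x
        have b2 := AA_le_FS hω hE0 j x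
        have b12 := mul_le_mul b1.2 b2.2 b2.1 (b1.1.trans b1.2)
        have p1 := (c.inv T).nonneg x
        have p2 := sg_F_nonneg (r := n % 2) ω β κ x
        have := mul_le_mul_of_nonneg_right b12 (mul_nonneg p1 p2)
        simp only [e1, e2]
        linarith
    rw [integral_const_mul] at h3
    refine h3.trans ((mul_le_mul_of_nonneg_left h2 (by positivity)).trans ?_)
    have b2 := pow_le_pow_left₀ (sg_th_nonneg _ _ _) (c.th_env hS hY0 hc1) 2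
    have b3 := mul_le_mul hsm b2 (by positivity) (by positivity)
    have p3 := c.E_nonneg T
    have p4 := sgG_pos ω E (iv i)
    have p5 := sgG_pos ω E (iv j)
    have p6 := sgG_pos ω β (iv κ)
    have := mul_le_mul_of_nonneg_left b3 (show 0 ≤ cc ^ 2 * (∫ x, AS n ω T x ∂PP (n / 2)) *
      1331 * (ω ^ (n / 2) * E ^ (-mh n)) ^ 2 *
        (sgG ω E (iv i) * sgG ω E (iv j) * sgG ω β (iv κ)) by positivity)
    rw [hQ]
    linarith
  have s1 := c.erase (fun S i => ∑ j ∈ S, g (S.erase j) i j)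
    (fun S i => Finset.sum_nonneg fun j _ => hg0 _ _ _)
  have s2 := c.erase (fun S j => ∑ i ∈ Kp n ω, g S i j)
    (fun S j => Finset.sum_nonneg fun i _ => hg0 _ _ _)
  refine (Finset.sum_le_sum fun S hS => Finset.sum_le_sum fun i hi =>
    Finset.sum_le_sum (h1 S hS i hi)).trans (s1.trans ?_)
  refine le_trans (le_of_eq (Finset.sum_congr rfl fun S _ => Finset.sum_comm)) (s2.trans ?_)
  refine le_trans (Finset.sum_le_sum fun S hS => ?_)
    (c.sumE_mul (by have := hY1.1; positivity))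
  simp only [hg, ← Finset.mul_sum]
  refine mul_le_mul_of_nonneg_left ?_ (c.E_nonneg S)
  have h4 := sg_sum_three (a := a) (b := b) hω hE0 hβ0 c.sm (by nlinarith [he.2, hβ.2])
    (by nlinarith [he.2, hβ.2]) (spanS S) (Kp n ω) F
  rw [← hY, sg_mh, Real.mul_rpow (by positivity) hY0.le, sq E, Real.mul_rpow hE0.le hE0.le] at h4
  have h5 := h4.trans (mul_le_mul_of_nonneg_left (c.th_env hS hY0 hc2) (by positivity))
  refine (mul_le_mul_of_nonneg_left h5 hQ0).trans ?_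
  have z1 := c.grow_one hY1.1 hY1.2 hYY
  have z2 := c.grow_sq hY1.1 hY1.2 hYY
  have z3 := (mul_le_mul z1 z2 (by positivity) (by have := hY1.1; positivity)).trans
    (sg_Z_sq n hY1.1 hY1.2)
  have z4 : cc * (E ^ (-mh n) * E ^ (-mh n)) ≤ 3 * (n : ℝ) ^ 2 := by
    have := mul_le_mul_of_nonneg_right c.rub
      (show 0 ≤ E ^ (-mh n) * E ^ (-mh n) by positivity)
    have h7 := mul_le_mul_of_nonneg_left (sg_e_mh n) (show (0 : ℝ) ≤ (n : ℝ) ^ 2 by positivity)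
    rw [← hE] at h7
    linarith
  have z4' := pow_le_pow_left₀ (by positivity) z4 2
  have z5 := mul_le_mul z4' z3 (by positivity) (by positivity)
  have z8 : 0 ≤ (1 + 2 * β / E) ^ (-(n : ℝ) / 2) := by have := hY1.1; positivity
  calc Q * (4 * (E ^ (-mh n) * E ^ (-mh n) * Y ^ (-mh n)) * (En n ^ 2 * Gp n Y))
      = 10648 * En n ^ 6 * ((cc * (E ^ (-mh n) * E ^ (-mh n))) ^ 2 *
        (Y ^ (-mh n) * Gp n Y * (Y ^ (-mh n) * Gp n Y ^ 2))) := by rw [hQ]; ring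
    _ ≤ 10648 * En n ^ 6 * ((3 * (n : ℝ) ^ 2) ^ 2 * (2 * (1 + 2 * β / E) ^ (-(n : ℝ) / 2))) :=
        mul_le_mul_of_nonneg_left z5 (by positivity)
    _ = _ := by ring

end SgCtx

end Pool.Agent.Eps
end
end

-- part Pool.Agent.Lib.MP_3bda03_nt.SigC
section

/-!
Restricted theta series over the span of a nice set, averaged against the hole weights.
-/

set_option autoImplicit false

noncomputable section

open scoped BigOperators Classical Topology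
open MeasureTheory Real Complex Filter

namespace Pool.Agent.Eps

def sgA1 (n : ℕ) : Finset ℤ := (Finset.Icc (-(n : ℤ) ^ 2) ((n : ℤ) ^ 2)).filter fun a => a ≠ 0

def sgA2 (n : ℕ) : Finset ℤ := (Finset.Icc (-(n : ℤ) ^ 2) ((n : ℤ) ^ 2)).filter fun a => 2 ≤ |a|

theorem sg_card_Icc {n : ℕ} (hn : 1 ≤ n) (A : Finset ℤ)
    (hA : A ⊆ Finset.Icc (-(n : ℤ) ^ 2) ((n : ℤ) ^ 2)) : (A.card : ℝ) ≤ 3 * (n : ℝ) ^ 2 := by
  have h1 := Finset.card_le_card hA
  rw [Int.card_Icc] at h1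
  have h2 : (1 : ℤ) ≤ (n : ℤ) ^ 2 := one_le_pow₀ (by exact_mod_cast hn)
  have h3 : (A.card : ℤ) ≤ 3 * (n : ℤ) ^ 2 := by omega
  exact_mod_cast h3

theorem sg_sq_le {n : ℕ} {a : ℤ} (ha : a ∈ Finset.Icc (-(n : ℤ) ^ 2) ((n : ℤ) ^ 2)) :
    (a : ℝ) ^ 2 ≤ (n : ℝ) ^ 4 := by
  rw [Finset.mem_Icc] at ha
  have h : a ^ 2 ≤ ((n : ℤ) ^ 2) ^ 2 := sq_le_sq' ha.1 ha.2
  rw [← pow_mul] at h
  exact_mod_cast h

theorem sg_hasSum_mem {α : Type*} [DecidableEq α] (F : Finset α) (f : α → ℝ) :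
    HasSum (fun κ => if κ ∈ F then f κ else 0) (∑ κ ∈ F, f κ) := by
  have h : HasSum (fun κ => if κ ∈ F then f κ else 0) (∑ κ ∈ F, if κ ∈ F then f κ else 0) :=
    hasSum_sum_of_ne_finset_zero fun κ hκ => if_neg hκ
  rwa [Finset.sum_congr rfl fun κ hκ => if_pos hκ] at h

namespace SgCtx

variable {n : ℕ} {ω : ℝ}

theorem dich (c : SgCtx n ω) {S : Finset (Zv (n / 2))} (hS : Nice n ω S) {κ : Zv (n / 2)}
    (hK : κ ∈ Kn n ω) (h₁ : iv κ ∈ spanS S) (h₂ : κ ∉ S) (h₃ : -κ ∉ S) :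
    (∃ a ∈ sgA1 n, ∃ b ∈ sgA1 n, ∃ i ∈ S, ∃ j ∈ S.erase i,
      iv (κ - a • i - b • j) ∈ spanS ((S.erase i).erase j)) ∨
    ∃ h ∈ sgA2 n, ∃ i ∈ S, κ = h • i := by
  obtain ⟨ξ, hξ⟩ := hS.prim κ h₁
  obtain ⟨h0, hle⟩ := (mem_Kn c.om κ).1 hK
  have hb : ∀ i ∈ S, ξ i ∈ Finset.Icc (-(n : ℤ) ^ 2) ((n : ℤ) ^ 2) := by
    intro i hi
    have h1 := hS.an ξ
    rw [← hξ, ← mul_pow] at h1
    have h2 : (ω * ‖iv κ‖) ^ 2 ≤ (n : ℝ) ^ 2 :=
      pow_le_pow_left₀ (mul_nonneg c.om.le (norm_nonneg _)) hle 2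
    have h3 : |(ξ i : ℝ)| ≤ ∑ k ∈ S, |(ξ k : ℝ)| :=
      Finset.single_le_sum (f := fun k => |(ξ k : ℝ)|) (fun k _ => abs_nonneg _) hi
    have h4 : 1 ≤ thn n := one_le_pow₀ (by linarith [c.lg])
    have h5 : |(ξ i : ℝ)| ≤ (n : ℝ) ^ 2 := by nlinarith [abs_nonneg (ξ i : ℝ)]
    have h6 : |ξ i| ≤ (n : ℤ) ^ 2 := by exact_mod_cast h5
    exact Finset.mem_Icc.2 (abs_le.1 h6)
  obtain ⟨i, hi, hi0⟩ : ∃ i ∈ S, ξ i ≠ 0 := by
    by_contra hcon
    push Not at hcon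
    exact h0 (hξ.trans (Finset.sum_eq_zero fun k hk => by rw [hcon k hk, zero_smul]))
  have e1 : κ = ξ i • i + ∑ k ∈ S.erase i, ξ k • k :=
    hξ.trans (Finset.add_sum_erase S (fun k => ξ k • k) hi).symm
  by_cases hj : ∃ j ∈ S.erase i, ξ j ≠ 0
  · obtain ⟨j, hj, hj0⟩ := hj
    refine Or.inl ⟨ξ i, Finset.mem_filter.2 ⟨hb i hi, hi0⟩, ξ j,
      Finset.mem_filter.2 ⟨hb j (Finset.mem_of_mem_erase hj), hj0⟩, i, hi, j, hj, ?_⟩
    have e2 : κ - ξ i • i - ξ j • j = ∑ k ∈ (S.erase i).erase j, ξ k • k := by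
      rw [e1, ← Finset.add_sum_erase (S.erase i) (fun k => ξ k • k) hj]
      abel
    rw [e2]
    exact sg_mem_span _ _
  · push Not at hj
    have e2 : κ = ξ i • i := by
      rw [e1, Finset.sum_eq_zero fun k hk => by rw [hj k hk, zero_smul], add_zero]
    refine Or.inr ⟨ξ i, Finset.mem_filter.2 ⟨hb i hi, ?_⟩, i, hi, e2⟩
    have n1 : ξ i ≠ 1 := by
      intro h
      rw [h, one_smul] at e2
      exact h₂ (e2 ▸ hi)
    have n2 : ξ i ≠ -1 := by
      intro h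
      rw [h, neg_smul, one_smul] at e2
      exact h₃ (by rw [e2, neg_neg]; exact hi)
    rcases abs_cases (ξ i) with h | h <;> omega

theorem cover (c : SgCtx n ω) {S : Finset (Zv (n / 2))} (hS : Nice n ω S) (I : Zv (n / 2) → ℝ)
    (hI : ∀ κ, 0 ≤ I κ) (F : Finset (Zv (n / 2)))
    (hF : ∀ κ ∈ F, κ ∈ Kn n ω ∧ iv κ ∈ spanS S ∧ κ ∉ S ∧ -κ ∉ S) :
    ∑ κ ∈ F, I κ ≤ ∑ a ∈ sgA1 n, ∑ b ∈ sgA1 n, ∑ i ∈ S, ∑ j ∈ S.erase i, ∑ κ ∈ Kn n ω,
      (if iv (κ - a • i - b • j) ∈ spanS ((S.erase i).erase j) then I κ else 0) +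
      ∑ h ∈ sgA2 n, ∑ i ∈ S, I (h • i) := by
  set u : ℤ → ℤ → Zv (n / 2) → Zv (n / 2) → Zv (n / 2) → ℝ := fun a b i j κ =>
    if iv (κ - a • i - b • j) ∈ spanS ((S.erase i).erase j) then I κ else 0 with hu
  set v : ℤ → Zv (n / 2) → Zv (n / 2) → ℝ := fun h i κ => if κ = h • i then I (h • i) else 0
    with hv
  have hu0 : ∀ a b i j κ, 0 ≤ u a b i j κ := by
    intro a b i j κ
    simp only [hu]
    split_ifs
    · exact hI _
    · exact le_rfl
  have hv0 : ∀ h i κ, 0 ≤ v h i κ := by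
    intro h i κ
    simp only [hv]
    split_ifs
    · exact hI _
    · exact le_rfl
  have hU0 : ∀ κ, 0 ≤ ∑ a ∈ sgA1 n, ∑ b ∈ sgA1 n, ∑ i ∈ S, ∑ j ∈ S.erase i, u a b i j κ :=
    fun κ => Finset.sum_nonneg fun _ _ => Finset.sum_nonneg fun _ _ =>
      Finset.sum_nonneg fun _ _ => Finset.sum_nonneg fun _ _ => hu0 _ _ _ _ _
  have hV0 : ∀ κ, 0 ≤ ∑ h ∈ sgA2 n, ∑ i ∈ S, v h i κ :=
    fun κ => Finset.sum_nonneg fun _ _ => Finset.sum_nonneg fun _ _ => hv0 _ _ _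
  have h1 : ∀ κ ∈ F, I κ ≤ ∑ a ∈ sgA1 n, ∑ b ∈ sgA1 n, ∑ i ∈ S, ∑ j ∈ S.erase i, u a b i j κ +
      ∑ h ∈ sgA2 n, ∑ i ∈ S, v h i κ := by
    intro κ hκ
    obtain ⟨k1, k2, k3, k4⟩ := hF κ hκ
    rcases c.dich hS k1 k2 k3 k4 with ⟨a, ha, b, hb, i, hi, j, hj, h⟩ | ⟨h, hh, i, hi, e⟩
    · refine le_add_of_le_of_nonneg ?_ (hV0 κ)
      refine le_trans ?_ (Finset.single_le_sum (fun _ _ => Finset.sum_nonneg fun _ _ =>
        Finset.sum_nonneg fun _ _ => Finset.sum_nonneg fun _ _ => hu0 _ _ _ _ _) ha)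
      refine le_trans ?_ (Finset.single_le_sum (fun _ _ =>
        Finset.sum_nonneg fun _ _ => Finset.sum_nonneg fun _ _ => hu0 _ _ _ _ _) hb)
      refine le_trans ?_ (Finset.single_le_sum (fun _ _ =>
        Finset.sum_nonneg fun _ _ => hu0 _ _ _ _ _) hi)
      refine le_trans ?_ (Finset.single_le_sum (fun _ _ => hu0 _ _ _ _ _) hj)
      simp only [hu, if_pos h, le_refl]
    · refine le_add_of_nonneg_of_le (hU0 κ) ?_
      refine le_trans ?_ (Finset.single_le_sum (fun _ _ =>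
        Finset.sum_nonneg fun _ _ => hv0 _ _ _) hh)
      refine le_trans ?_ (Finset.single_le_sum (fun _ _ => hv0 _ _ _) hi)
      simp only [hv, if_pos e]
      rw [← e]
  refine (Finset.sum_le_sum h1).trans ?_
  rw [Finset.sum_add_distrib]
  refine add_le_add ?_ ?_
  · refine (Finset.sum_le_sum_of_subset_of_nonneg (fun κ hκ => (hF κ hκ).1)
      fun κ _ _ => hU0 κ).trans (le_of_eq ?_)
    rw [Finset.sum_comm]
    refine Finset.sum_congr rfl fun a _ => ?_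
    rw [Finset.sum_comm]
    refine Finset.sum_congr rfl fun b _ => ?_
    rw [Finset.sum_comm]
    refine Finset.sum_congr rfl fun i _ => ?_
    rw [Finset.sum_comm]
  · rw [Finset.sum_comm]
    refine Finset.sum_le_sum fun h _ => ?_
    rw [Finset.sum_comm]
    refine Finset.sum_le_sum fun i _ => ?_
    simp only [hv]
    rw [Finset.sum_ite_eq']
    split_ifs
    · exact le_rfl
    · exact hI _

/-- cutting a restricted theta series at scaled length `n` -/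
theorem split (c : SgCtx n ω) {S : Finset (Zv (n / 2))} (hS : S ∈ Dl n ω (MM n + 1)) {β : ℝ}
    (hβ : 1 / 100 ≤ β) (P : Zv (n / 2) → Prop) [DecidablePred P]
    (hP : ∀ κ, P κ → iv κ ∈ spanS S ∧ κ ≠ 0) (x : Xs (n / 2)) :
    (∑' κ : Zv (n / 2), if P κ then FS (n % 2) ω (ft β) κ x else 0) ≤
      ∑ κ ∈ (Kn n ω).filter P, FS (n % 2) ω (ft β) κ x + rexp (-n) * (2 * En n) := by
  have hβ0 : 0 < β := by linarith
  have hβ2 : 0 < β / 2 := by linarith
  have hω := c.om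
  have hn := c.big
  have h1 := sg_hasSum_mem ((Kn n ω).filter P) fun κ => FS (n % 2) ω (ft β) κ x
  have h2 := (sg_summable_V (r := n % 2) hω hβ2 P x).mul_left (rexp (-n))
  have h3 := c.V_le hS (β := β / 2) (by linarith [c.inv_log_le]) P (fun κ h => (hP κ h).1) x
  refine le_trans ?_ (add_le_add le_rfl (mul_le_mul_of_nonneg_left h3 (Real.exp_pos _).le))
  rw [← h1.tsum_eq, ← tsum_mul_left, ← h1.summable.tsum_add h2]
  refine Summable.tsum_le_tsum (fun κ => ?_) (sg_summable_V hω hβ0 P x) (h1.summable.add h2)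
  by_cases hp : P κ
  · simp only [if_pos hp]
    have p1 := sg_F_nonneg (r := n % 2) ω (β / 2) κ x
    by_cases hk : κ ∈ Kn n ω
    · rw [if_pos (Finset.mem_filter.2 ⟨hk, hp⟩)]
      have := mul_nonneg (Real.exp_pos (-(n : ℝ))).le p1
      linarith
    · rw [if_neg fun h => hk (Finset.mem_filter.1 h).1, zero_add]
      have h4 := FS_ft_shift (r := n % 2) hω hβ2 hβ2.le x κ
      rw [add_halves] at h4
      refine h4.trans (mul_le_mul_of_nonneg_right (Real.exp_le_exp.2 ?_) p1)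
      have h5 : (n : ℝ) ≤ ω * ‖iv κ‖ := by
        by_contra hcon
        exact hk ((mem_Kn hω κ).2 ⟨(hP κ hp).2, (not_le.1 hcon).le⟩)
      have h6 : (n : ℝ) ^ 2 ≤ ω ^ 2 * ‖iv κ‖ ^ 2 := by
        rw [← mul_pow]
        exact pow_le_pow_left₀ (by linarith) h5 2
      have h7 : 1 / 100 ≤ π * (β / 2) := by nlinarith [Real.pi_gt_three]
      have h8 := mul_le_mul h7 h6 (by positivity) (by positivity)
      nlinarith
  · simp only [if_neg hp]
    rw [if_neg fun h => hp (Finset.mem_filter.1 h).2]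
    simp

theorem comb (c : SgCtx n ω) {β : ℝ} (hβ : β ∈ Set.Icc (1 / 100 : ℝ) 1.4) :
    ∑ S ∈ Dl n ω (MM n + 1), ∫ x, AS n ω S x * ∑' κ : Zv (n / 2),
      (if iv κ ∈ spanS S ∧ κ ≠ 0 ∧ κ ∉ S ∧ -κ ∉ S then FS (n % 2) ω (ft β) κ x else 0)
        ∂PP (n / 2) ≤ rexp (TT n / 2) * En n ^ 7 * (1 + 2 * β / rexp 1) ^ (-(n : ℝ) / 2) := by
  have hβ0 : 0 < β := by linarith [hβ.1]
  have hω := c.om
  have hn := c.big
  have hn1 : 1 ≤ n := by have := c.three; omega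
  have hEn := one_le_En n
  have hY := Y_mem hβ
  set Z := (1 + 2 * β / rexp 1) ^ (-(n : ℝ) / 2) with hZ
  have hZ0 : 0 < Z := Real.rpow_pos_of_pos (by linarith [hY.1]) _
  set I : Finset (Zv (n / 2)) → Zv (n / 2) → ℝ := fun S κ =>
    ∫ x, AS n ω S x * FS (n % 2) ω (ft β) κ x ∂PP (n / 2) with hI
  have hI0 : ∀ S κ, 0 ≤ I S κ := fun S κ =>
    integral_nonneg fun x => mul_nonneg ((c.inv S).nonneg x) (sg_F_nonneg _ _ _ _)
  have h1 : ∀ S ∈ Dl n ω (MM n + 1), ∫ x, AS n ω S x * ∑' κ : Zv (n / 2),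
      (if iv κ ∈ spanS S ∧ κ ≠ 0 ∧ κ ∉ S ∧ -κ ∉ S then FS (n % 2) ω (ft β) κ x else 0)
        ∂PP (n / 2) ≤
      (∑ a ∈ sgA1 n, ∑ b ∈ sgA1 n, ∑ i ∈ S, ∑ j ∈ S.erase i, ∑ κ ∈ Kn n ω,
        (if iv (κ - a • i - b • j) ∈ spanS ((S.erase i).erase j) then I S κ else 0) +
      ∑ h ∈ sgA2 n, ∑ i ∈ S, I S (h • i)) +
      (∫ x, AS n ω S x ∂PP (n / 2)) * (rexp (-n) * (2 * En n)) := by
    intro S hS
    set F := (Kn n ω).filter fun κ => iv κ ∈ spanS S ∧ κ ≠ 0 ∧ κ ∉ S ∧ -κ ∉ S with hF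
    have i1 : ∀ κ ∈ F, Integrable (fun x => AS n ω S x * FS (n % 2) ω (ft β) κ x) (PP (n / 2)) :=
      fun κ _ => ((c.inv S).sgB.mul (sgB_F hω hβ0 κ)).integrable
    have i2 : Integrable (fun x => AS n ω S x * (rexp (-n) * (2 * En n))) (PP (n / 2)) :=
      (c.inv S).integrable.mul_const _
    refine (integral_mono_of_nonneg (Eventually.of_forall fun x =>
      mul_nonneg ((c.inv S).nonneg x) (sg_V_nonneg _ _ _ _))
      ((integrable_finsetSum F i1).add i2) (Eventually.of_forall fun x => ?_)).trans ?_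
    · have := mul_le_mul_of_nonneg_left (c.split hS hβ.1
        (fun κ => iv κ ∈ spanS S ∧ κ ≠ 0 ∧ κ ∉ S ∧ -κ ∉ S) (fun κ h => ⟨h.1, h.2.1⟩) x)
        ((c.inv S).nonneg x)
      rw [mul_add, Finset.mul_sum] at this
      exact this
    · simp only [Pi.add_apply]
      rw [integral_add (integrable_finsetSum F i1) i2, integral_finsetSum F i1,
        integral_mul_const]
      refine add_le_add (c.cover (nice hS) (I S) (hI0 S) F fun κ hκ => ?_) le_rfl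
      obtain ⟨k1, k2, -, k3, k4⟩ := Finset.mem_filter.1 hκ
      exact ⟨k1, k2, k3, k4⟩
  refine (Finset.sum_le_sum h1).trans ?_
  rw [Finset.sum_add_distrib, Finset.sum_add_distrib]
  set B := rexp (TT n / 2 + 1) * (191664 * (n : ℝ) ^ 4 * En n ^ 6 * Z) with hB
  have hB0 : 0 ≤ B := by positivity
  have c1 := sg_card_Icc hn1 (sgA1 n) (Finset.filter_subset _ _)
  have c2 := sg_card_Icc hn1 (sgA2 n) (Finset.filter_subset _ _)
  have one_sq : ∀ a ∈ sgA1 n, 1 ≤ (a : ℝ) ^ 2 := by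
    intro a ha
    have h : a ≠ 0 := (Finset.mem_filter.1 ha).2
    have h' : 1 ≤ a ^ 2 := by
      have := sq_pos_of_ne_zero h
      omega
    exact_mod_cast h'
  have two_sq : ∀ a ∈ sgA2 n, 2 ≤ (a : ℝ) ^ 2 := by
    intro a ha
    have h : 2 ≤ |a| := (Finset.mem_filter.1 ha).2
    have h' : 2 ≤ a ^ 2 := by nlinarith [sq_abs a]
    exact_mod_cast h'
  have t3 : ∑ S ∈ Dl n ω (MM n + 1), ∑ a ∈ sgA1 n, ∑ b ∈ sgA1 n, ∑ i ∈ S, ∑ j ∈ S.erase i,
      ∑ κ ∈ Kn n ω, (if iv (κ - a • i - b • j) ∈ spanS ((S.erase i).erase j) then I S κ else 0) ≤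
      3 * (n : ℝ) ^ 2 * (3 * (n : ℝ) ^ 2 * B) := by
    rw [Finset.sum_comm]
    refine (Finset.sum_le_card_nsmul _ _ (3 * (n : ℝ) ^ 2 * B) fun a ha => ?_).trans ?_
    · rw [Finset.sum_comm]
      refine (Finset.sum_le_card_nsmul _ _ B fun b hb => ?_).trans ?_
      · exact c.three_sum hβ (one_sq a ha) (sg_sq_le (Finset.mem_filter.1 ha).1)
          (one_sq b hb) (sg_sq_le (Finset.mem_filter.1 hb).1) _
      · rw [nsmul_eq_mul]
        exact mul_le_mul_of_nonneg_right c1 hB0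
    · rw [nsmul_eq_mul]
      exact mul_le_mul_of_nonneg_right c1 (by positivity)
  have t2 : ∑ S ∈ Dl n ω (MM n + 1), ∑ h ∈ sgA2 n, ∑ i ∈ S, I S (h • i) ≤
      3 * (n : ℝ) ^ 2 * B := by
    rw [Finset.sum_comm]
    refine (Finset.sum_le_card_nsmul _ _ B fun a ha => ?_).trans ?_
    · exact c.two_sum hβ (two_sq a ha) (sg_sq_le (Finset.mem_filter.1 ha).1)
    · rw [nsmul_eq_mul]
      exact mul_le_mul_of_nonneg_right c2 hB0
  have t1 := c.sumE_mul (B := rexp (-n) * (2 * En n)) (by positivity)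
  have z1 : rexp (-n) ≤ Z := by
    have h2 : (1 + 2 * β / rexp 1) ≤ rexp 2 := by
      have := Real.add_one_le_exp (2 : ℝ)
      linarith [hY.2]
    have h3 := Real.rpow_le_rpow_of_nonpos (by linarith [hY.1]) h2
      (show -(n : ℝ) / 2 ≤ 0 by linarith)
    rw [← Real.exp_mul] at h3
    refine le_trans (le_of_eq ?_) h3
    congr 1
    ring
  have z2 : rexp (TT n / 2 + 1) ≤ 3 * rexp (TT n / 2) := by
    rw [Real.exp_add, mul_comm]
    exact mul_le_mul_of_nonneg_right sg_e.2 (Real.exp_pos _).le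
  have z3 : En n ≤ (n : ℝ) ^ 8 * En n ^ 6 := by
    have a1 : En n ≤ En n ^ 6 := le_self_pow₀ hEn (by norm_num)
    have a2 : (1 : ℝ) ≤ (n : ℝ) ^ 8 := one_le_pow₀ (by linarith)
    nlinarith
  have z4 : (n : ℝ) ^ 6 ≤ (n : ℝ) ^ 8 := pow_le_pow_right₀ (by linarith) (by norm_num)
  have z5 : 3 * (n : ℝ) ^ 2 * (3 * (n : ℝ) ^ 2 * B) + 3 * (n : ℝ) ^ 2 * B +
      rexp (TT n / 2 + 1) * (rexp (-n) * (2 * En n)) ≤
      rexp (TT n / 2 + 1) * (3000000 * ((n : ℝ) ^ 8 * En n ^ 6) * Z) := by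
    have a1 := mul_le_mul z1 z3 (by positivity) hZ0.le
    have a2 := mul_le_mul_of_nonneg_right z4 (show 0 ≤ En n ^ 6 * Z by positivity)
    have a3 : 0 ≤ (n : ℝ) ^ 8 * En n ^ 6 * Z := by positivity
    have a4 : 3 * (n : ℝ) ^ 2 * (3 * (n : ℝ) ^ 2 * B) + 3 * (n : ℝ) ^ 2 * B +
        rexp (TT n / 2 + 1) * (rexp (-n) * (2 * En n)) = rexp (TT n / 2 + 1) *
        (1724976 * ((n : ℝ) ^ 8 * En n ^ 6 * Z) + 574992 * ((n : ℝ) ^ 6 * (En n ^ 6 * Z)) +
          2 * (rexp (-n) * En n)) := by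
      rw [hB]
      ring
    rw [a4]
    refine mul_le_mul_of_nonneg_left ?_ (Real.exp_pos _).le
    linarith
  refine (add_le_add (add_le_add t3 t2) t1).trans (z5.trans ?_)
  have a5 := mul_le_mul_of_nonneg_right c.poly (show 0 ≤ rexp (TT n / 2) * En n ^ 6 * Z by
    positivity)
  have a6 := mul_le_mul_of_nonneg_right z2
    (show 0 ≤ 3000000 * ((n : ℝ) ^ 8 * En n ^ 6) * Z by positivity)
  have a7 : 0 ≤ rexp (TT n / 2) * ((n : ℝ) ^ 8 * En n ^ 6) * Z := by positivity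
  calc _ ≤ _ := a6
    _ ≤ 10 ^ 7 * (n : ℝ) ^ 8 * (rexp (TT n / 2) * En n ^ 6 * Z) := by linarith
    _ ≤ _ := a5
    _ = _ := by ring

theorem card_le (c : SgCtx n ω) {S : Finset (Zv (n / 2))} (hS : S ∈ Dl n ω (MM n + 1)) :
    (S.card : ℝ) ≤ n := by
  have h1 : S.card ≤ MM n + 1 := (Finset.mem_filter.1 hS).2.2
  have h2 := c.three
  have h3 : S.card ≤ n := by
    unfold MM at h1
    omega
  exact_mod_cast h3

/-- the points of the set themselves -/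
theorem one_sum (c : SgCtx n ω) {β : ℝ} (hβ : β ∈ Set.Icc (1 / 100 : ℝ) 1.4) :
    ∑ S ∈ Dl n ω (MM n + 1), ∑ k ∈ S,
      ∫ x, AS n ω S x * FS (n % 2) ω (ft β) k x ∂PP (n / 2) ≤
      rexp (TT n / 2 + 1) * (67 * (n : ℝ) ^ 4 * En n * rexp (-β * n / (2 * rexp 1))) := by
  have he := sg_e
  have hE0 : 0 < rexp 1 := Real.exp_pos 1
  have hβ0 : 0 < β := by linarith [hβ.1]
  have hω := c.om
  have hr : n % 2 ≤ 1 := by omega
  have hEn := one_le_En n
  have hn := c.big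
  set E := rexp 1 with hE
  set cc := rexp (π * (E - β) * rho1 n) with hcc
  have hcc0 : 0 < cc := Real.exp_pos _
  set Q := cc * 11 * E ^ (-mh n) * En n with hQ
  have hQ0 : 0 ≤ Q := by positivity
  set g : Finset (Zv (n / 2)) → Zv (n / 2) → ℝ := fun S i => (∫ x, AS n ω S x ∂PP (n / 2)) *
    (Q * (ω ^ (n / 2) * (sgG ω E (iv i) * sgG ω 0 ((0 : ℝ) • iv i + 0)))) with hg
  have hg0 : ∀ S i, 0 ≤ g S i := fun S i => mul_nonneg (c.E_nonneg S) (mul_nonneg hQ0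
    (mul_pos (by positivity) (mul_pos (sgG_pos _ _ _) (sgG_pos _ _ _))).le)
  have h1 : ∀ S ∈ Dl n ω (MM n + 1), ∀ i ∈ S,
      ∫ x, AS n ω S x * FS (n % 2) ω (ft β) i x ∂PP (n / 2) ≤
        g (S.erase i) i + (∫ x, AS n ω S x ∂PP (n / 2)) * rexp (-(n : ℝ) ^ 2) := by
    intro S hS i hi
    have hi' : iv i ∉ spanS (S.erase i) :=
      (nice hS).notMem_span c.three (Finset.erase_subset _ _) hi (Finset.notMem_erase _ _)
    have hW : ext (spanS (S.erase i)) i = spanS S := by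
      rw [← spanS_insert, Finset.insert_erase hi]
    have h2 := sg_one (r := n % 2) (E := E) hω (by linarith [he.1]) hr (c.inv (S.erase i)) hi'
    rw [hW, sg_mh] at h2
    have i1 : Integrable (fun x => cc * (AS n ω (S.erase i) x * FS (n % 2) ω (ft E) i x))
        (PP (n / 2)) := ((SgB.const cc).mul ((c.inv _).sgB.mul (sgB_F hω hE0 i))).integrable
    have i2 : Integrable (fun x => AS n ω S x * rexp (-(n : ℝ) ^ 2)) (PP (n / 2)) :=
      (c.inv S).integrable.mul_const _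
    refine (integral_mono_of_nonneg (Eventually.of_forall fun x =>
      mul_nonneg ((c.inv S).nonneg x) (sg_F_nonneg _ _ _ _)) (i1.add i2)
      (Eventually.of_forall fun x => ?_)).trans ?_
    · have e1 : AS n ω S x = AA n ω i x * AS n ω (S.erase i) x :=
        (Finset.mul_prod_erase S (fun k => AA n ω k x) hi).symm
      have b1 := (c.amf i x).1 β ⟨hβ.1, by linarith [hβ.2]⟩
      have := mul_le_mul_of_nonneg_right b1 ((c.inv (S.erase i)).nonneg x)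
      simp only [Pi.add_apply, e1]
      linarith
    · simp only [Pi.add_apply]
      rw [integral_add i1 i2, integral_const_mul, integral_mul_const]
      refine add_le_add ((mul_le_mul_of_nonneg_left h2 hcc0.le).trans ?_) le_rfl
      simp only [hg, hQ, zero_smul, add_zero, sgG_zero]
      have hi3 : 1 / 1000 ≤ E⁻¹ := by
        rw [le_inv_comm₀ (by norm_num) hE0]
        linarith [he.2]
      have b2 := c.th_le hS (c.inv_log_le.trans hi3)
      have p3 := c.E_nonneg (S.erase i)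
      have p4 := sgG_pos ω E (iv i)
      have := mul_le_mul_of_nonneg_left b2 (show 0 ≤ cc * (∫ x, AS n ω (S.erase i) x ∂PP (n / 2)) *
        11 * (ω ^ (n / 2) * E ^ (-mh n)) * sgG ω E (iv i) by positivity)
      linarith
  set X := rexp (-β * n / (2 * E)) with hX
  have hX0 : 0 < X := Real.exp_pos _
  have t1 : ∑ S ∈ Dl n ω (MM n + 1), ∑ i ∈ S, g (S.erase i) i ≤
      rexp (TT n / 2 + 1) * (66 * (n : ℝ) ^ 4 * En n * X) := by
    refine (c.erase g hg0).trans (le_trans (Finset.sum_le_sum fun S hS => ?_)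
      (c.sumE_mul (by positivity)))
    simp only [hg]
    rw [← Finset.mul_sum, ← Finset.mul_sum, ← Finset.mul_sum]
    refine mul_le_mul_of_nonneg_left ?_ (c.E_nonneg S)
    have h4 := sg_sum_one (a := 0) hω hE0 le_rfl 0 (Kp n ω)
    rw [sgG_zero, mul_one, zero_mul, add_zero] at h4
    have h6 := c.sm E hE0 (by have : (0 : ℝ) ≤ (n : ℝ) ^ 4 := by positivity
                              linarith [he.2])
    rw [sg_mh] at h6
    refine (mul_le_mul_of_nonneg_left (h4.trans h6) hQ0).trans ?_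
    have z1 : cc ≤ (n : ℝ) ^ 4 * (rexp (n / 2) * X) := by
      have a1 := c.rex (E - β) ⟨by linarith [he.1, hβ.2], by linarith [he.2]⟩
      have a2 : 0 ≤ π * (E - β) := mul_nonneg Real.pi_pos.le (by linarith [he.1, hβ.2])
      refine (Real.exp_le_exp.2 (by nlinarith)).trans (a1.trans (le_of_eq ?_))
      rw [hX, ← Real.exp_add, ← hE]
      congr 2
      field_simp
      ring
    have z2 := mul_le_mul_of_nonneg_right z1
      (show 0 ≤ E ^ (-mh n) * E ^ (-mh n) * En n by positivity)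
    have z3 := mul_le_mul_of_nonneg_left (sg_e_mh n)
      (show 0 ≤ (n : ℝ) ^ 4 * X * En n by positivity)
    rw [← hE] at z3
    rw [hQ]
    linarith
  have t2 : ∑ S ∈ Dl n ω (MM n + 1), ∑ i ∈ S,
      (∫ x, AS n ω S x ∂PP (n / 2)) * rexp (-(n : ℝ) ^ 2) ≤
      rexp (TT n / 2 + 1) * ((n : ℝ) ^ 4 * En n * X) := by
    refine le_trans (Finset.sum_le_sum fun S hS => ?_) (c.sumE_mul (by positivity))
    rw [Finset.sum_const, nsmul_eq_mul, mul_left_comm]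
    refine mul_le_mul_of_nonneg_left ?_ (c.E_nonneg S)
    have a1 : rexp (-(n : ℝ) ^ 2) ≤ X := by
      refine Real.exp_le_exp.2 ?_
      rw [le_div_iff₀ (by positivity)]
      nlinarith [hβ.2, he.1]
    have a2 : (S.card : ℝ) ≤ (n : ℝ) ^ 4 * En n := by
      have := le_self_pow₀ (show (1 : ℝ) ≤ n by linarith) (show 4 ≠ 0 by norm_num)
      nlinarith [c.card_le hS]
    exact mul_le_mul a2 a1 (Real.exp_pos _).le (by positivity)
  refine (Finset.sum_le_sum fun S hS => Finset.sum_le_sum (h1 S hS)).trans ?_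
  simp only [Finset.sum_add_distrib]
  linarith

end SgCtx

theorem sg_split_pm {m : ℕ} (S : Finset (Zv m)) (g : Zv m → ℝ) (hg : ∀ κ, 0 ≤ g κ)
    (hneg : ∀ κ, g (-κ) = g κ) (W : Submodule ℝ (Ev m))
    (hs : Summable fun κ => if iv κ ∈ W ∧ κ ≠ 0 ∧ κ ∉ S ∧ -κ ∉ S then g κ else 0) :
    (∑' κ, if iv κ ∈ W ∧ κ ≠ 0 then g κ else 0) ≤
      (∑' κ, if iv κ ∈ W ∧ κ ≠ 0 ∧ κ ∉ S ∧ -κ ∉ S then g κ else 0) + 2 * ∑ k ∈ S, g k := by
  have h1 := sg_hasSum_mem S g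
  have h2 : HasSum (fun κ => if -κ ∈ S then g κ else 0) (∑ k ∈ S, g k) := by
    have := (Equiv.neg (Zv m)).hasSum_iff.2 h1
    convert this using 2 with κ
    simp only [Function.comp, Equiv.neg_apply, hneg]
  have h3 := (hs.hasSum.add h1).add h2
  rw [two_mul, ← add_assoc, ← h3.tsum_eq]
  have hpt : ∀ κ, (if iv κ ∈ W ∧ κ ≠ 0 then g κ else 0) ≤
      (if iv κ ∈ W ∧ κ ≠ 0 ∧ κ ∉ S ∧ -κ ∉ S then g κ else 0) + (if κ ∈ S then g κ else 0) +
        if -κ ∈ S then g κ else 0 := by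
    intro κ
    have := hg κ
    split_ifs <;> first | linarith | (exfalso; tauto)
  refine Summable.tsum_le_tsum hpt (Summable.of_nonneg_of_le (fun κ => ?_) hpt h3.summable)
    h3.summable
  split_ifs
  · exact hg κ
  · exact le_rfl

theorem sg_rpow_le (n : ℕ) {β : ℝ} (hβ : β ∈ Set.Icc (1 / 100 : ℝ) 1.4) :
    (1 + 2 * β / rexp 1) ^ (-(n : ℝ) / 2) ≤ rexp (-β * n / (2 * rexp 1)) := by
  have he := sg_e
  have hE0 : 0 < rexp 1 := Real.exp_pos 1
  set x := β / rexp 1 with hx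
  have h0 : 0 ≤ x := div_nonneg (by linarith [hβ.1]) hE0.le
  have h1 : x ≤ 1 := by
    rw [hx, div_le_one hE0]
    linarith [hβ.2, he.1]
  have h2 := Real.abs_exp_sub_one_sub_id_le (x := x) (by rw [abs_of_nonneg h0]; exact h1)
  have h3 : rexp x ≤ 1 + 2 * β / rexp 1 := by
    have := (abs_le.1 h2).2
    have e1 : 2 * β / rexp 1 = 2 * x := by rw [hx]; ring
    rw [e1]
    nlinarith
  have h4 := Real.rpow_le_rpow_of_nonpos (Real.exp_pos x) h3
    (show -(n : ℝ) / 2 ≤ 0 by have : (0 : ℝ) ≤ n := Nat.cast_nonneg n; linarith)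
  rw [← Real.exp_mul] at h4
  refine h4.trans (le_of_eq ?_)
  congr 1
  rw [hx]
  field_simp

namespace SgCtx

variable {n : ℕ} {ω : ℝ}

theorem all (c : SgCtx n ω) {β : ℝ} (hβ : β ∈ Set.Icc (1 / 100 : ℝ) 1.4) :
    ∑ S ∈ Dl n ω (MM n + 1), ∫ x, AS n ω S x * ∑' κ : Zv (n / 2),
      (if iv κ ∈ spanS S ∧ κ ≠ 0 then FS (n % 2) ω (ft β) κ x else 0) ∂PP (n / 2) ≤
        rexp (TT n / 2) * En n ^ 8 * rexp (-β * n / (2 * rexp 1)) := by
  have hβ0 : 0 < β := by linarith [hβ.1]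
  have hω := c.om
  have hn := c.big
  have hEn := one_le_En n
  have h1 : ∀ S ∈ Dl n ω (MM n + 1), ∫ x, AS n ω S x * ∑' κ : Zv (n / 2),
      (if iv κ ∈ spanS S ∧ κ ≠ 0 then FS (n % 2) ω (ft β) κ x else 0) ∂PP (n / 2) ≤
      (∫ x, AS n ω S x * ∑' κ : Zv (n / 2),
        (if iv κ ∈ spanS S ∧ κ ≠ 0 ∧ κ ∉ S ∧ -κ ∉ S then FS (n % 2) ω (ft β) κ x else 0)
          ∂PP (n / 2)) + 2 * ∑ k ∈ S, ∫ x, AS n ω S x * FS (n % 2) ω (ft β) k x ∂PP (n / 2) := by
    intro S hS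
    have i1 : ∀ κ ∈ S, Integrable (fun x => AS n ω S x * FS (n % 2) ω (ft β) κ x) (PP (n / 2)) :=
      fun κ _ => ((c.inv S).sgB.mul (sgB_F hω hβ0 κ)).integrable
    have i2 := ((c.inv S).sgB.mul (sgB_V (r := n % 2) hω hβ0
      fun κ => iv κ ∈ spanS S ∧ κ ≠ 0 ∧ κ ∉ S ∧ -κ ∉ S)).integrable
    have i3 := (integrable_finsetSum S i1).const_mul 2
    refine (integral_mono_of_nonneg (Eventually.of_forall fun x =>
      mul_nonneg ((c.inv S).nonneg x) (sg_V_nonneg _ _ _ _))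
      (i2.add i3) (Eventually.of_forall fun x => ?_)).trans (le_of_eq ?_)
    · have := mul_le_mul_of_nonneg_left (sg_split_pm S (fun κ => FS (n % 2) ω (ft β) κ x)
        (fun κ => sg_F_nonneg _ _ _ _) (fun κ => FS_neg _ _ _ _) (spanS S)
        (sg_summable_V hω hβ0 _ x)) ((c.inv S).nonneg x)
      rw [mul_add, mul_left_comm, Finset.mul_sum] at this
      exact this
    · simp only [Pi.add_apply]
      rw [integral_add i2 i3, integral_const_mul, integral_finsetSum S i1]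
  refine (Finset.sum_le_sum h1).trans ?_
  rw [Finset.sum_add_distrib, ← Finset.mul_sum]
  set X := rexp (-β * n / (2 * rexp 1)) with hX
  have hX0 : 0 < X := Real.exp_pos _
  have t1 := (c.comb hβ).trans (mul_le_mul_of_nonneg_left (sg_rpow_le n hβ) (by positivity))
  have t2 := c.one_sum hβ
  rw [← hX] at t1 t2
  have z2 : rexp (TT n / 2 + 1) ≤ 3 * rexp (TT n / 2) := by
    rw [Real.exp_add, mul_comm]
    exact mul_le_mul_of_nonneg_right sg_e.2 (Real.exp_pos _).le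
  have z3 := mul_le_mul_of_nonneg_right z2
    (show 0 ≤ 67 * (n : ℝ) ^ 4 * En n * X by positivity)
  have z4 : (n : ℝ) ^ 4 ≤ (n : ℝ) ^ 8 := pow_le_pow_right₀ (by linarith) (by norm_num)
  have z5 : (1 : ℝ) ≤ (n : ℝ) ^ 8 := one_le_pow₀ (by linarith)
  have z6 : 402 * (n : ℝ) ^ 4 * En n + En n ^ 7 ≤ En n ^ 8 := by
    have a1 : 402 * (n : ℝ) ^ 4 + 1 ≤ En n := by linarith [c.poly]
    have a2 : En n ≤ En n ^ 7 := le_self_pow₀ hEn (by norm_num)
    have a3 := mul_le_mul_of_nonneg_right a1 (show 0 ≤ En n ^ 7 by positivity)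
    have a4 := mul_le_mul_of_nonneg_left a2 (show 0 ≤ 402 * (n : ℝ) ^ 4 by positivity)
    nlinarith
  have z7 := mul_le_mul_of_nonneg_left z6 (show 0 ≤ rexp (TT n / 2) * X by positivity)
  linarith

theorem rex' (c : SgCtx n ω) {τ : ℝ} (h₀ : 0 ≤ τ) (h₁ : τ ≤ 4) :
    rexp (π * τ * rho1 n) ≤ (n : ℝ) ^ 4 * rexp (τ * n / (2 * rexp 1)) := by
  refine (Real.exp_le_exp.2 ?_).trans (c.rex τ ⟨h₀, h₁⟩)
  nlinarith [mul_nonneg Real.pi_pos.le h₀]

theorem dep (c : SgCtx n ω) :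
    ∑ S ∈ Dl n ω (MM n), ∑ v ∈ (Kp n ω).filter (fun v => v ∉ S ∧ iv v ∈ spanS S),
      ∫ x, AS n ω S x * AA n ω v x ∂PP (n / 2) ≤
        (n : ℝ) ^ 7 * En n ^ 7 * rexp (TT n / 2 - 0.096 * n) := by
  have hω := c.om
  have hn := c.big
  have hEn := one_le_En n
  have hE0 : 0 < rexp 1 := Real.exp_pos 1
  set β := rexp 1 / 2 with hβd
  have hβ : β ∈ Set.Icc (1 / 100 : ℝ) 1.4 :=
    ⟨by linarith [sg_e.1], by linarith [Real.exp_one_lt_d9]⟩
  have hβ0 : 0 < β := by positivity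
  set cc := rexp (π * β * rho1 n) with hcc
  have hcc0 : 0 < cc := Real.exp_pos _
  have h1 : ∀ S ∈ Dl n ω (MM n), ∑ v ∈ (Kp n ω).filter (fun v => v ∉ S ∧ iv v ∈ spanS S),
      ∫ x, AS n ω S x * AA n ω v x ∂PP (n / 2) ≤ cc * ∫ x, AS n ω S x * ∑' κ : Zv (n / 2),
        (if iv κ ∈ spanS S ∧ κ ≠ 0 ∧ κ ∉ S ∧ -κ ∉ S then FS (n % 2) ω (ft β) κ x else 0)
          ∂PP (n / 2) := by
    intro S hS
    set F := (Kp n ω).filter (fun v => v ∉ S ∧ iv v ∈ spanS S) with hF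
    have i1 : ∀ v ∈ F, Integrable (fun x => AS n ω S x * AA n ω v x) (PP (n / 2)) := by
      intro v _
      have := ((c.inv S).sgB.mul (c.inv {v}).sgB).integrable
      simpa only [AS, Finset.prod_singleton] using this
    have i2 := ((c.inv S).sgB.mul (sgB_V (r := n % 2) hω hβ0
      fun κ => iv κ ∈ spanS S ∧ κ ≠ 0 ∧ κ ∉ S ∧ -κ ∉ S)).integrable
    rw [← integral_finsetSum F i1, ← integral_const_mul]
    refine integral_mono (integrable_finsetSum F i1) (i2.const_mul cc) fun x => ?_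
    simp only
    rw [← Finset.mul_sum, mul_left_comm]
    refine mul_le_mul_of_nonneg_left ?_ ((c.inv S).nonneg x)
    have h2 := (sg_summable_V (r := n % 2) hω hβ0
      (fun κ => iv κ ∈ spanS S ∧ κ ≠ 0 ∧ κ ∉ S ∧ -κ ∉ S) x).sum_le_tsum F fun κ _ => by
        split_ifs
        · exact sg_F_nonneg _ _ _ _
        · exact le_rfl
    refine le_trans ?_ (mul_le_mul_of_nonneg_left h2 hcc0.le)
    rw [Finset.mul_sum]
    refine Finset.sum_le_sum fun v hv => ?_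
    obtain ⟨k1, k2, k3⟩ := Finset.mem_filter.1 hv
    have k4 : v ≠ 0 := ((mem_Kn hω v).1 (Finset.mem_filter.1 k1).1).1
    have k5 : -v ∉ S := fun h => neg_notMem_Kp k1 (((Dl_down c.three _).2 S hS).1 h)
    rw [if_pos ⟨k3, k4, k2, k5⟩]
    exact (AA_le_FS hω hβ0 v x).2
  refine (Finset.sum_le_sum h1).trans ?_
  rw [← Finset.mul_sum]
  have hsub : Dl n ω (MM n) ⊆ Dl n ω (MM n + 1) := by
    intro S hS
    obtain ⟨k1, k2, k3⟩ := Finset.mem_filter.1 hS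
    exact Finset.mem_filter.2 ⟨k1, k2, k3.trans (Nat.le_succ _)⟩
  have h3 := (Finset.sum_le_sum_of_subset_of_nonneg hsub fun S _ _ => integral_nonneg fun x =>
    mul_nonneg ((c.inv S).nonneg x) (sg_V_nonneg _ _ _ _)).trans (c.comb hβ)
  have z1 := c.rex' hβ0.le (by linarith [hβ.2])
  have e1 : β * n / (2 * rexp 1) = n / 4 := by rw [hβd]; field_simp; ring
  have e2 : 1 + 2 * β / rexp 1 = 2 := by rw [hβd]; field_simp; ring
  rw [e1] at z1
  rw [e2, Real.rpow_def_of_pos two_pos] at h3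
  refine (mul_le_mul z1 h3 (Finset.sum_nonneg fun S _ => integral_nonneg fun x =>
    mul_nonneg ((c.inv S).nonneg x) (sg_V_nonneg _ _ _ _)) (by positivity)).trans ?_
  have z2 : rexp (n / 4) * rexp (TT n / 2) * rexp (Real.log 2 * (-(n : ℝ) / 2)) ≤
      rexp (TT n / 2 - 0.096 * n) := by
    rw [← Real.exp_add, ← Real.exp_add]
    refine Real.exp_le_exp.2 ?_
    nlinarith [Real.log_two_gt_d9]
  have z4 : (n : ℝ) ^ 4 ≤ (n : ℝ) ^ 7 := pow_le_pow_right₀ (by linarith) (by norm_num)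
  have z5 := mul_le_mul (mul_le_mul_of_nonneg_right z4 (show 0 ≤ En n ^ 7 by positivity)) z2
    (by positivity) (by positivity)
  linarith

end SgCtx

end Pool.Agent.Eps
end
end
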