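import Pool.Agent.Lib.MP_3bda03_nt.T3A
import Pool.Agent.Lib.MP_3bda03_nt.Fiber

-- part Pool.Agent.Lib.MP_3bda03_nt.Geo
section

set_option autoImplicit false

noncomputable section

open scoped BigOperators Classical Topology
open MeasureTheory Real Complex Filter

namespace Pool.Agent.Eps

variable {m : ℕ}

theorem geo_one_le_Env (n lvl : ℕ) (β : ℝ) : 1 ≤ Env n lvl β :=
  one_le_mul_of_one_le_of_one_le (one_le_pow₀ (one_le_En n)) (one_le_pow₀ (le_max_left _ _))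

theorem adm_bot (n : ℕ) {ω : ℝ} (hω : 0 < ω) : Adm n ω (spanS ∅) 1 0 := by
  refine ⟨⟨∅, rfl, by simp, by simp⟩, le_rfl, fun β hβ => ?_⟩
  have : th0 ω (spanS (∅ : Finset (Zv (n / 2)))) β = 0 := by
    rw [th0, geo_spanS_empty]
    refine (tsum_congr fun κ => if_neg ?_).trans tsum_zero
    rintro ⟨h1, h2⟩
    exact h2 (iv_injective (by rw [iv_zero]; exact h1))
  rw [th_eq hω hβ, this, add_zero, one_mul]
  exact geo_one_le_Env _ _ _

theorem geo_log_pos {n : ℕ} (hn : 3 ≤ n) : 1 ≤ Real.log n := by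
  rw [Real.le_log_iff_exp_le (by positivity)]
  have : (3 : ℝ) ≤ n := by exact_mod_cast hn
  linarith [Real.exp_one_lt_d9]

theorem Adm.succ {n : ℕ} {ω : ℝ} {W : Submodule ℝ (Ev (n / 2))} {D : ℝ} {lvl : ℕ} (hn : 3 ≤ n)
    (h : Adm n ω W D lvl) : Adm n ω W D (lvl + 1) := by
  obtain ⟨G, h1, h2, h3⟩ := h.gen
  refine ⟨⟨G, h1, by omega, h3⟩, h.one_le, fun β hβ => (h.th_le β hβ).trans ?_⟩
  refine mul_le_mul_of_nonneg_left ?_ (by linarith [h.one_le])
  have := geo_log_pos hn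
  have hE := one_le_En n
  refine mul_le_mul (pow_le_pow_right₀ hE (by omega)) ?_ (by positivity) (by positivity)
  refine (pow_le_pow_left₀ (by positivity) (max_le_max_left 1 ?_) _).trans
    (pow_le_pow_right₀ (le_max_left _ _) (by omega))
  exact div_le_div_of_nonneg_right (pow_le_pow_right₀ (by norm_num) (by omega)) (by positivity)

theorem adm_ext : ∀ᶠ n : ℕ in atTop, ∀ ω : ℝ, 0 < ω → ∀ (W : Submodule ℝ (Ev (n / 2))) (D : ℝ)
    (lvl : ℕ) (k : Zv (n / 2)), Adm n ω W D lvl → k ∈ Kn n ω → iv k ∉ W →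
      Adm n ω (ext W k) (D * (1 + 1 / dk ω W k)) (lvl + 1) := by
  filter_upwards [poly_le_En 1 1, eventually_ge_atTop 3] with n hE hn ω hω W D lvl k h hk hkW
  obtain ⟨G, rfl, h2, h3⟩ := h.gen
  have hd := dk_pos hω G hkW
  have hD := h.one_le
  have hd1 : 1 ≤ 1 + 1 / dk ω (spanS G) k := le_add_of_nonneg_right (by positivity)
  refine ⟨⟨insert k G, (spanS_insert G k).symm, (Finset.card_insert_le _ _).trans (by omega), ?_⟩,
    one_le_mul_of_one_le_of_one_le hD hd1, fun β hβ => ?_⟩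
  · intro g hg
    rcases Finset.mem_insert.1 hg with rfl | hg
    · exact ((mem_Kn hω _).1 hk).2
    · exact h3 g hg
  have hL := geo_log_pos hn
  have hE1 := one_le_En n
  set X := max 1 (4 ^ (lvl + 1) / (β * Real.log n)) with hX
  have hX1 : 1 ≤ X := le_max_left _ _
  have e1 : Env n lvl (β / 4) = En n ^ (lvl + 1) * X ^ (MM n + lvl) := by
    rw [Env, hX]; congr 3; field_simp; ring
  have e2 : Env n (lvl + 1) β = En n ^ (lvl + 1) * X ^ (MM n + lvl) * (En n * X) := by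
    rw [Env, ← hX, ← add_assoc]; ring
  have e3 : 1 / √β ≤ En n * X := by
    rcases le_total 1 β with hb | hb
    · refine le_trans ?_ (one_le_mul_of_one_le_of_one_le hE1 hX1)
      rw [div_le_one (Real.sqrt_pos.2 hβ)]
      exact Real.one_le_sqrt.2 hb
    · have a1 : β ≤ √β := Real.le_sqrt_of_sq_le (by nlinarith)
      have a2 : Real.log n ≤ En n := by
        have := Real.log_le_sub_one_of_pos (show (0 : ℝ) < n by positivity)
        simp only [pow_one, one_mul] at hE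
        linarith
      have a3 : 1 / (β * Real.log n) ≤ X := le_trans (div_le_div_of_nonneg_right
        (one_le_pow₀ (by norm_num)) (by positivity)) (le_max_right _ _)
      calc 1 / √β ≤ 1 / β := one_div_le_one_div_of_le hβ a1
        _ = Real.log n * (1 / (β * Real.log n)) := by field_simp
        _ ≤ _ := mul_le_mul a2 a3 (by positivity) (by positivity)
  have e4 : 1 + 1 / (dk ω (spanS G) k * √β) ≤ (1 + 1 / dk ω (spanS G) k) * (En n * X) := by
    rw [add_mul, one_mul, ← one_div_mul_one_div]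
    exact add_le_add (one_le_mul_of_one_le_of_one_le hE1 hX1)
      (mul_le_mul_of_nonneg_left e3 (by positivity))
  refine (th_ext_le hω hβ G hkW).trans ?_
  refine (mul_le_mul (h.th_le _ (by positivity)) e4 (by positivity)
    (mul_nonneg (by linarith) (zero_le_one.trans (geo_one_le_Env _ _ _)))).trans (le_of_eq ?_)
  rw [e1, e2]; ring

theorem geo_dist_ge {n a : ℕ} {ω : ℝ} (hω : 0 < ω) (hω1 : ω ≤ 1) (hn : 1 ≤ n) {G : Finset (Zv m)}
    (ha : G.card ≤ a) (hG : ∀ g ∈ G, ω * ‖iv g‖ ≤ n) {η : Zv m} (hη : iv η ∉ spanS G) :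
    ω ^ (a + 1) / (((a : ℝ) + 1) * n) ^ a ≤ ω * Metric.infDist (iv η) (spanS G : Set (Ev m)) := by
  have hn' : (1 : ℝ) ≤ n := by exact_mod_cast hn
  have hR : 1 ≤ (n : ℝ) / ω := by rw [le_div_iff₀ hω]; linarith
  have h := infDist_ge hR (fun g hg => by rw [le_div_iff₀' hω]; exact hG g hg) hη
  refine le_trans ?_ (mul_le_mul_of_nonneg_left h hω.le)
  have ha' : (G.card : ℝ) ≤ a := by exact_mod_cast ha
  have h1 : ((G.card + 1 : ℝ) * (n / ω)) ^ G.card ≤ ((a + 1 : ℝ) * (n / ω)) ^ a :=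
    (pow_le_pow_left₀ (by positivity) (by gcongr) _).trans (pow_le_pow_right₀
      (one_le_mul_of_one_le_of_one_le (by linarith [Nat.cast_nonneg (α := ℝ) a]) hR) ha)
  refine le_trans (le_of_eq ?_) (mul_le_mul_of_nonneg_left
    (one_div_le_one_div_of_le (by positivity) h1) hω.le)
  rw [← mul_div_assoc ((a : ℝ) + 1), div_pow]
  field_simp
  ring

theorem geo_small (C ε : ℝ) (hε : 0 < ε) : ∀ᶠ ω in 𝓝[>] (0 : ℝ), 0 < ω ∧ ω ≤ 1 ∧ C * ω ≤ ε := by
  have h1 : Tendsto (fun ω : ℝ => C * ω) (𝓝[>] 0) (𝓝 0) := by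
    have : Tendsto (fun ω : ℝ => C * ω) (𝓝 0) (𝓝 (C * 0)) := tendsto_id.const_mul C
    rw [mul_zero] at this
    exact this.mono_left nhdsWithin_le_nhds
  filter_upwards [self_mem_nhdsWithin, h1.eventually_le_const hε,
    Ioo_mem_nhdsGT (zero_lt_one' ℝ)] with ω h2 h3 h4
  exact ⟨h2, h4.2.le, h3⟩

theorem dk_inv_le : ∀ᶠ n : ℕ in atTop, ∀ᶠ ω in 𝓝[>] (0 : ℝ),
    ∀ (W : Submodule ℝ (Ev (n / 2))) (D : ℝ) (k : Zv (n / 2)), Adm n ω W D 0 → iv k ∉ W →
      1 + 1 / dk ω W k ≤ ω⁻¹ ^ (MM n + 2) := by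
  filter_upwards [eventually_ge_atTop 1] with n hn
  filter_upwards [geo_small (1 + (((MM n : ℝ) + 1) * n) ^ MM n) 1 one_pos] with ω ⟨hω, hω1, hC⟩
    W D k h hk
  obtain ⟨G, rfl, h2, h3⟩ := h.gen
  have hn' : (0 : ℝ) < n := by exact_mod_cast hn
  have h4 := geo_le_dk hω hk fun η _ hη => geo_dist_ge hω hω1 hn h2 h3 hη
  have h5 := one_div_le_one_div_of_le (by positivity) h4
  rw [add_zero, one_div_div] at h5
  have h6 : 1 ≤ 1 / ω ^ (MM n + 1) := by
    rw [le_div_iff₀ (by positivity), one_mul]; exact pow_le_one₀ hω.le hω1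
  refine (add_le_add h6 h5).trans ?_
  rw [← add_div, inv_pow, ← one_div, div_le_div_iff₀ (by positivity) (by positivity),
    pow_succ' ω (MM n + 1), ← mul_assoc]
  exact mul_le_mul_of_nonneg_right hC (by positivity)

/-- number of integer points of an admissible subspace in a ball -/
theorem card_ball_le : ∀ᶠ n : ℕ in atTop, ∀ ω : ℝ, 0 < ω →
    ∀ (W : Submodule ℝ (Ev (n / 2))) (D : ℝ) (lvl : ℕ), lvl ≤ 3 → Adm n ω W D lvl →
    ∀ (w : Ev (n / 2)) (F : Finset (Zv (n / 2))),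
      (∀ κ ∈ F, iv κ ∈ W ∧ ω * ‖iv κ + w‖ ≤ n) → (F.card : ℝ) ≤ D * (n : ℝ) ^ (3 * (MM n + 3)) := by
  filter_upwards [eventually_ge_atTop 3, tendsto_natCast_atTop_atTop.eventually_ge_atTop
    (256 * rexp 60)] with n hn hn2 ω hω W D lvl hl h w F hF
  have hn' : (3 : ℝ) ≤ n := by exact_mod_cast hn
  have hβ : (0 : ℝ) < 1 / n ^ 2 := by positivity
  obtain ⟨s1, s2⟩ := shift_le hω hβ W w
  have s3 := (s1.sum_le_tsum F fun _ _ => by split_ifs <;> positivity).trans s2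
  have s4 : F.card • rexp (-4) ≤ _ := (Finset.card_nsmul_le_sum F _ _ fun κ hκ => by
    obtain ⟨h1, h2⟩ := hF κ hκ
    rw [if_pos h1]
    apply Real.exp_le_exp.2
    have h3 : ω ^ 2 * ‖iv κ + w‖ ^ 2 ≤ n ^ 2 := by
      rw [← mul_pow]; exact pow_le_pow_left₀ (by positivity) h2 2
    have h4 : 1 / (n : ℝ) ^ 2 * (ω ^ 2 * ‖iv κ + w‖ ^ 2) ≤ 1 := by
      rw [one_div_mul_eq_div, div_le_one (by positivity)]; exact h3
    have := mul_le_mul Real.pi_le_four h4 (by positivity) (by norm_num)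
    linarith).trans (s3.trans (h.th_le _ (by positivity)))
  have hL := geo_log_pos hn
  have hD := h.one_le
  have e1 : En n ^ (lvl + 1) ≤ rexp (4 * n) := by
    refine (pow_le_pow_right₀ (one_le_En n) (show lvl + 1 ≤ 4 by omega)).trans ?_
    rw [En, ← Real.exp_nat_mul]
    apply Real.exp_le_exp.2
    have := div_le_self (show (0 : ℝ) ≤ n by positivity) (Real.one_le_sqrt.2 hL)
    push_cast
    linarith
  have e2 : (max 1 (4 ^ lvl / (1 / (n : ℝ) ^ 2 / 4 * Real.log n))) ^ (MM n + lvl) ≤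
      (256 * (n : ℝ) ^ 2) ^ (MM n + 3) := by
    have a1 : (1 : ℝ) ≤ 256 * n ^ 2 := by nlinarith
    refine (pow_le_pow_left₀ (by positivity) (max_le a1 ?_) _).trans
      (pow_le_pow_right₀ a1 (by omega))
    have a2 : (4 : ℝ) ^ lvl ≤ 4 ^ 3 := pow_le_pow_right₀ (by norm_num) hl
    rw [div_le_iff₀ (by positivity)]
    have : 256 * (n : ℝ) ^ 2 * (1 / n ^ 2 / 4 * Real.log n) = 64 * Real.log n := by
      field_simp; norm_num
    rw [this]
    linarith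
  have e3 : rexp 4 * rexp (4 * n) ≤ rexp 60 ^ (MM n + 3) := by
    rw [← Real.exp_add, ← Real.exp_nat_mul]
    apply Real.exp_le_exp.2
    have : 4 + 4 * n ≤ (MM n + 3) * 60 := by unfold MM; omega
    exact_mod_cast this
  rw [nsmul_eq_mul, Real.exp_neg, ← div_eq_mul_inv, div_le_iff₀ (by positivity)] at s4
  refine s4.trans ?_
  rw [mul_assoc]
  refine mul_le_mul_of_nonneg_left ?_ (by linarith)
  calc Env n lvl (1 / (n : ℝ) ^ 2 / 4) * rexp 4
      ≤ rexp (4 * n) * (256 * (n : ℝ) ^ 2) ^ (MM n + 3) * rexp 4 := by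
        refine mul_le_mul_of_nonneg_right ?_ (by positivity)
        exact mul_le_mul e1 e2 (by positivity) (by positivity)
    _ = rexp 4 * rexp (4 * n) * (256 * (n : ℝ) ^ 2) ^ (MM n + 3) := by ring
    _ ≤ rexp 60 ^ (MM n + 3) * (256 * (n : ℝ) ^ 2) ^ (MM n + 3) :=
        mul_le_mul_of_nonneg_right e3 (by positivity)
    _ = (256 * rexp 60 * (n : ℝ) ^ 2) ^ (MM n + 3) := by rw [← mul_pow]; congr 1; ring
    _ ≤ ((n : ℝ) * n ^ 2) ^ (MM n + 3) := by gcongr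
    _ = _ := by rw [pow_mul]; congr 1; ring

theorem geo_red {ω : ℝ} (hω : 0 < ω) (G : Finset (Zv m)) {k : Zv m} (hk : iv k ∉ spanS G) :
    ∃ (k₀ : Zv m) (h : ℤ), iv (k - h • k₀) ∈ spanS G ∧
      dk ω (spanS G) k = ω * ‖geoP (spanS G) (iv k₀)‖ ∧
      |(h : ℝ)| * dk ω (spanS G) k ≤ ω * ‖iv k‖ ∧
      ω * ‖iv k₀‖ ≤ dk ω (spanS G) k + ∑ g ∈ G, ω * ‖iv g‖ := by
  obtain ⟨k₁, -, hd, h⟩ := exists_gen hω G hk
  obtain ⟨h, h1, h2⟩ := h k (le_ext _ k).2
  rw [geoP_dist] at hd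
  obtain ⟨c, hc⟩ := (Submodule.mem_span_image_finset_iff_exists_fun' ℝ).1
    ((spanS G).starProjection_apply_mem (iv k₁))
  have hs : iv (∑ g ∈ G, ⌊c g⌋ • g) = ∑ g ∈ G, (⌊c g⌋ : ℝ) • iv g := by
    rw [iv_sum]; simp only [iv_zsmul]
  have hm : iv (∑ g ∈ G, ⌊c g⌋ • g) ∈ spanS G := by
    rw [hs]
    exact Submodule.sum_mem _ fun g hg =>
      Submodule.smul_mem _ _ (Submodule.subset_span ⟨g, hg, rfl⟩)
  refine ⟨k₁ - ∑ g ∈ G, ⌊c g⌋ • g, h, ?_, ?_, h2, ?_⟩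
  · rw [smul_sub, sub_sub_eq_add_sub, ← sub_add_eq_add_sub, iv_add, iv_zsmul h (∑ g ∈ G, _)]
    exact Submodule.add_mem _ h1 (Submodule.smul_mem _ _ hm)
  · rw [hd, iv_sub, map_sub, geoP_zero.2 hm, sub_zero]
  · have : iv (k₁ - ∑ g ∈ G, ⌊c g⌋ • g) =
        geoP (spanS G) (iv k₁) + ∑ g ∈ G, Int.fract (c g) • iv g := by
      rw [iv_sub, hs, geoP_eq, ← hc]
      simp only [Int.fract, sub_smul, Finset.sum_sub_distrib]
      abel
    rw [this, hd, ← Finset.mul_sum, ← mul_add]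
    refine mul_le_mul_of_nonneg_left ((norm_add_le _ _).trans (add_le_add le_rfl
      ((norm_sum_le _ _).trans (Finset.sum_le_sum fun g _ => ?_)))) hω.le
    rw [norm_smul, Real.norm_eq_abs, Int.abs_fract]
    exact mul_le_of_le_one_left (norm_nonneg _) (Int.fract_lt_one _).le

theorem geo_tube {ω s L : ℝ} (hω : 0 < ω) (hω1 : ω ≤ 1) (hs : 0 ≤ s) (hL : 1 ≤ L)
    (W : Submodule ℝ (Ev m)) {a : ℕ} (ha : Module.finrank ℝ W ≤ a) (ham : a ≤ m)
    (hs1 : 2 * s + ω * √m ≤ 1) (T : Finset (Zv m))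
    (hT : ∀ k ∈ T, ω * ‖geoP W (iv k)‖ ≤ s ∧ ω * ‖iv k‖ ≤ L) :
    ω ^ m * T.card ≤ (2 * s + ω * √m) ^ (m - a) * (2 * L + √m) ^ a := by
  have h := card_tube_le W (s := s / ω) (R := L / ω) (by positivity) (by positivity) T
    fun k hk => by
      rw [geoP_dist, le_div_iff₀' hω, le_div_iff₀' hω]; exact hT k hk
  refine (mul_le_mul_of_nonneg_left h (by positivity)).trans ?_
  have e : ω ^ m = ω ^ (m - Module.finrank ℝ W) * ω ^ Module.finrank ℝ W := by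
    rw [← pow_add]; congr 1; omega
  rw [e, mul_mul_mul_comm, ← mul_pow, ← mul_pow]
  have e1 : ω * (2 * (s / ω) + √m) = 2 * s + ω * √m := by field_simp
  have e2 : ω * (2 * (L / ω) + √m) = 2 * L + ω * √m := by field_simp
  rw [e1, e2]
  have hm := Real.sqrt_nonneg (m : ℝ)
  refine mul_le_mul (pow_le_pow_of_le_one (by positivity) hs1 (by omega))
    ((pow_le_pow_left₀ (by positivity) ?_ _).trans (pow_le_pow_right₀ (by linarith) ha))
    (by positivity) (by positivity)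
  linarith [mul_le_of_le_one_left hm hω1]

theorem geo_core {ω ε δ L : ℝ} (hω : 0 < ω) (hω1 : ω ≤ 1) (hδ : 0 < δ) (hε : 0 < ε)
    (hε1 : 3 * ε ≤ 1) (hL : 1 ≤ L) (W : Submodule ℝ (Ev m)) {a : ℕ} (ha : Module.finrank ℝ W ≤ a)
    (ham : a + 6 ≤ m) (hs1 : 3 * (ω * √m) ≤ 1) (T : Finset (Zv m))
    (hT : ∀ k ∈ T, δ ≤ ω * ‖geoP W (iv k)‖ ∧ ω * ‖geoP W (iv k)‖ ≤ ε ∧ ω * ‖iv k‖ ≤ L) :
    ω ^ m * ∑ k ∈ T, 1 / (ω * ‖geoP W (iv k)‖) ^ 5 ≤
      ((3 * (ω * √m)) ^ (m - a) / δ ^ 5 + 64 * 3 ^ m * ε ^ (m - a - 5)) * (2 * L + √m) ^ a := by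
  have hm := Real.sqrt_nonneg (m : ℝ)
  rw [← Finset.sum_filter_add_sum_filter_not T (fun k => ω * ‖geoP W (iv k)‖ ≤ ω * √m),
    mul_add, add_mul]
  refine add_le_add ?_ ?_
  · have h1 := geo_tube hω hω1 (s := ω * √m) (by positivity) hL W ha (by omega) (by linarith)
      (T.filter fun k => ω * ‖geoP W (iv k)‖ ≤ ω * √m) fun k hk =>
        ⟨(Finset.mem_filter.1 hk).2, (hT k (Finset.mem_filter.1 hk).1).2.2⟩
    have h2 := Finset.sum_le_card_nsmul (T.filter fun k => ω * ‖geoP W (iv k)‖ ≤ ω * √m)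
      (fun k => 1 / (ω * ‖geoP W (iv k)‖) ^ 5) (1 / δ ^ 5) fun k hk =>
        one_div_le_one_div_of_le (by positivity)
          (pow_le_pow_left₀ hδ.le (hT k (Finset.mem_filter.1 hk).1).1 5)
    refine (mul_le_mul_of_nonneg_left h2 (by positivity)).trans ?_
    rw [nsmul_eq_mul, ← mul_assoc]
    refine (mul_le_mul_of_nonneg_right h1 (by positivity)).trans (le_of_eq ?_)
    ring
  · set T' := T.filter fun k => ¬ ω * ‖geoP W (iv k)‖ ≤ ω * √m
    have hj : ∀ k ∈ T', ∃ j : ℕ, ε * (1 / 2) ^ (j + 1) < ω * ‖geoP W (iv k)‖ ∧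
        ω * ‖geoP W (iv k)‖ ≤ ε * (1 / 2) ^ j := by
      intro k hk
      obtain ⟨h1, h2, -⟩ := hT k (Finset.mem_filter.1 hk).1
      obtain ⟨j, h3, h4⟩ := exists_nat_pow_near_of_lt_one (div_pos (hδ.trans_le h1) hε)
        ((div_le_one hε).2 h2) (show (0 : ℝ) < 1 / 2 by norm_num) (by norm_num)
      exact ⟨j, (lt_div_iff₀' hε).1 h3, (div_le_iff₀' hε).1 h4⟩
    choose! f hf using hj
    rw [← Finset.sum_fiberwise_of_maps_to (fun k hk => Finset.mem_image_of_mem f hk),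
      Finset.mul_sum]
    have hg := (summable_geometric_two.sum_le_tsum (T'.image f)
      fun _ _ => by positivity).trans_eq tsum_geometric_two
    refine le_trans ?_ ((mul_le_mul_of_nonneg_left hg (show 0 ≤ 32 * 3 ^ m * ε ^ (m - a - 5) *
      (2 * L + √m) ^ a by positivity)).trans (le_of_eq (by ring)))
    rw [Finset.mul_sum]
    refine Finset.sum_le_sum fun j hj => ?_
    obtain ⟨k₁, hk₁, rfl⟩ := Finset.mem_image.1 hj
    set x : ℝ := (1 / 2) ^ f k₁ with hx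
    have hx0 : 0 < x := by positivity
    have hx1 : x ≤ 1 := pow_le_one₀ (by norm_num) (by norm_num)
    have a1 : ω * √m ≤ ε * x :=
      (not_le.1 (Finset.mem_filter.1 hk₁).2).le.trans (hf k₁ hk₁).2
    have a2 : ε * x ≤ ε := mul_le_of_le_one_right hε.le hx1
    have h1 := geo_tube hω hω1 (s := ε * x) (by positivity) hL W ha (by omega) (by linarith)
      (T'.filter fun k => f k = f k₁) fun k hk => by
        obtain ⟨b1, b2⟩ := Finset.mem_filter.1 hk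
        exact ⟨hx ▸ b2 ▸ (hf k b1).2, (hT k (Finset.mem_filter.1 b1).1).2.2⟩
    have h2 := Finset.sum_le_card_nsmul (T'.filter fun k => f k = f k₁)
      (fun k => 1 / (ω * ‖geoP W (iv k)‖) ^ 5) (1 / (ε * x / 2) ^ 5) fun k hk => by
        obtain ⟨b1, b2⟩ := Finset.mem_filter.1 hk
        have := (hf k b1).1.le
        rw [b2, pow_succ, ← hx, ← mul_assoc, mul_one_div] at this
        exact one_div_le_one_div_of_le (by positivity) (pow_le_pow_left₀ (by positivity) this 5)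
    refine (mul_le_mul_of_nonneg_left h2 (by positivity)).trans ?_
    rw [nsmul_eq_mul, ← mul_assoc]
    refine (mul_le_mul_of_nonneg_right h1 (by positivity)).trans ?_
    obtain ⟨r, hr⟩ : ∃ r, m - a = r + 6 := ⟨m - a - 6, by omega⟩
    have a3 : (2 * (ε * x) + ω * √m) ^ (m - a) ≤ 3 ^ m * (ε ^ (r + 6) * x ^ 6) := by
      refine (pow_le_pow_left₀ (by positivity) (show _ ≤ 3 * (ε * x) by linarith) _).trans ?_
      rw [mul_pow, mul_pow, ← hr]
      exact mul_le_mul (pow_le_pow_right₀ (by norm_num) (by omega)) (mul_le_mul_of_nonneg_left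
        (pow_le_pow_of_le_one hx0.le hx1 (by omega)) (by positivity)) (by positivity)
        (by positivity)
    rw [hr, show r + 6 - 5 = r + 1 by omega]
    rw [hr] at a3
    refine (mul_le_mul_of_nonneg_right (mul_le_mul_of_nonneg_right a3 (by positivity))
      (by positivity)).trans (le_of_eq ?_)
    field_simp
    ring

theorem geo_count {n : ℕ} {ω B : ℝ} (hω : 0 < ω) (hn : 1 ≤ n) (hB : 0 ≤ B) (G : Finset (Zv m))
    (hF : ∀ (w : Ev m) (F : Finset (Zv m)),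
      (∀ κ ∈ F, iv κ ∈ spanS G ∧ ω * ‖iv κ + w‖ ≤ n) → (F.card : ℝ) ≤ B)
    (S : Finset (Zv m))
    (hS : ∀ k ∈ S, iv k ∉ spanS G ∧ ω * ‖iv k‖ ≤ n ∧ dk ω (spanS G) k ≤ 1) :
    ∃ T : Finset (Zv m), (∀ k₀ ∈ T, ∃ k ∈ S, dk ω (spanS G) k = ω * ‖geoP (spanS G) (iv k₀)‖ ∧
        ω * ‖iv k₀‖ ≤ 1 + ∑ g ∈ G, ω * ‖iv g‖) ∧
      ∑ k ∈ S, (1 + 1 / dk ω (spanS G) k) ^ 4 ≤
        48 * n * B * ∑ k₀ ∈ T, 1 / (ω * ‖geoP (spanS G) (iv k₀)‖) ^ 5 := by
  have hn' : (1 : ℝ) ≤ n := by exact_mod_cast hn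
  choose! f g h1 h2 h3 h4 using fun k (hk : k ∈ S) => geo_red hω G (hS k hk).1
  refine ⟨S.image f, fun k₀ hk₀ => ?_, ?_⟩
  · obtain ⟨k, hk, rfl⟩ := Finset.mem_image.1 hk₀
    exact ⟨k, hk, h2 k hk, by linarith [h4 k hk, (hS k hk).2.2]⟩
  rw [← Finset.sum_fiberwise_of_maps_to (fun k hk => Finset.mem_image_of_mem f hk),
    Finset.mul_sum]
  refine Finset.sum_le_sum fun k₀ hk₀ => ?_
  obtain ⟨k₁, hk₁, rfl⟩ := Finset.mem_image.1 hk₀
  rw [← h2 k₁ hk₁]
  have hd := dk_pos hω G (hS k₁ hk₁).1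
  have hd1 := (hS k₁ hk₁).2.2
  have hdk : ∀ k ∈ S.filter fun k => f k = f k₁, dk ω (spanS G) k = dk ω (spanS G) k₁ := by
    intro k hk
    obtain ⟨a1, a2⟩ := Finset.mem_filter.1 hk
    rw [h2 k a1, a2, h2 k₁ hk₁]
  set d := dk ω (spanS G) k₁
  rw [Finset.sum_congr rfl fun k hk => by rw [hdk k hk], Finset.sum_const, nsmul_eq_mul]
  have hH : (0 : ℤ) ≤ ⌊n / d⌋ := Int.floor_nonneg.2 (by positivity)
  have c1 : ((S.filter fun k => f k = f k₁).card : ℝ) ≤ (Finset.Icc (-⌊n / d⌋) ⌊n / d⌋).card * B := by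
    rw [Finset.card_eq_sum_card_fiberwise (f := g) (t := Finset.Icc (-⌊n / d⌋) ⌊n / d⌋), ← nsmul_eq_mul]
    · push_cast
      refine Finset.sum_le_card_nsmul _ _ _ fun h _ => ?_
      rw [← Finset.card_image_of_injective _ (sub_left_injective (b := h • f k₁))]
      refine hF ((h : ℝ) • iv (f k₁)) _ fun κ hκ => ?_
      obtain ⟨k, hk, rfl⟩ := Finset.mem_image.1 hκ
      obtain ⟨a1, rfl⟩ := Finset.mem_filter.1 hk
      obtain ⟨a2, a3⟩ := Finset.mem_filter.1 a1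
      refine ⟨a3 ▸ h1 k a2, ?_⟩
      rw [iv_sub, iv_zsmul, sub_add_cancel]
      exact (hS k a2).2.1
    · intro k hk
      have a1 := (Finset.mem_filter.1 hk).1
      have a2 := (h3 k a1).trans (hS k a1).2.1
      rw [hdk k hk, ← le_div_iff₀ hd, ← Int.cast_abs, ← Int.le_floor] at a2
      simpa using abs_le.1 a2
  have c2 : ((Finset.Icc (-⌊n / d⌋) ⌊n / d⌋).card : ℝ) ≤ 3 * n / d := by
    have : ((Finset.Icc (-⌊n / d⌋) ⌊n / d⌋).card : ℤ) = 2 * ⌊n / d⌋ + 1 := by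
      rw [Int.card_Icc_of_le _ _ (by omega)]; ring
    have e : ((Finset.Icc (-⌊n / d⌋) ⌊n / d⌋).card : ℝ) = 2 * ⌊n / d⌋ + 1 := by exact_mod_cast this
    have a1 := Int.floor_le (n / d)
    have a2 : 1 ≤ n / d := by rw [le_div_iff₀ hd]; linarith
    rw [e, mul_div_assoc]
    linarith
  have c3 : (1 + 1 / d) ^ 4 ≤ (2 / d) ^ 4 := by
    refine pow_le_pow_left₀ (by positivity) ?_ 4
    have : 1 ≤ 1 / d := by rw [le_div_iff₀ hd]; linarith
    rw [show 2 / d = 1 / d + 1 / d by ring]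
    linarith
  refine (mul_le_mul (c1.trans (mul_le_mul_of_nonneg_right c2 hB)) c3 (by positivity)
    (by positivity)).trans (le_of_eq ?_)
  field_simp
  ring

theorem geo_num : ∀ᶠ n : ℕ in atTop, 48 * n * (n : ℝ) ^ (3 * (MM n + 3)) *
    (64 * 3 ^ (n / 2) * (1 / (n : ℝ) ^ 2) ^ (n / 2 - (MM n + 2) - 5) *
      (2 * (1 + ((MM n + 2 : ℕ) : ℝ) * n) + √((n / 2 : ℕ) : ℝ)) ^ (MM n + 2)) ≤ rexp (-20 * n) / 2 := by
  filter_upwards [eventually_ge_atTop 200, tendsto_natCast_atTop_atTop.eventually_ge_atTop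
    (6144 * (3 * rexp 20) ^ 4)] with n hn hn2
  have hn' : (200 : ℝ) ≤ n := by exact_mod_cast hn
  have h1 : 2 * (1 + ((MM n + 2 : ℕ) : ℝ) * n) + √((n / 2 : ℕ) : ℝ) ≤ (n : ℝ) ^ 2 := by
    have a1 : √((n / 2 : ℕ) : ℝ) ≤ n := by
      refine Real.sqrt_le_iff.2 ⟨by positivity, ?_⟩
      have : ((n / 2 : ℕ) : ℝ) ≤ n := by exact_mod_cast Nat.div_le_self n 2
      nlinarith
    have a2 : 4 * (MM n + 2) ≤ n := by unfold MM; omega
    have a3 : 4 * ((MM n + 2 : ℕ) : ℝ) ≤ n := by exact_mod_cast a2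
    nlinarith
  obtain ⟨t, ht, ht'⟩ : ∃ t, 2 * (n / 2 - (MM n + 2) - 5) =
      1 + 3 * (MM n + 3) + 2 * (MM n + 2) + t ∧ n ≤ 4 * t :=
    ⟨2 * (n / 2 - (MM n + 2) - 5) - (1 + 3 * (MM n + 3) + 2 * (MM n + 2)), by unfold MM; omega,
      by unfold MM; omega⟩
  have h2 : 6144 * (3 ^ (n / 2) * rexp (20 * n)) ≤ (n : ℝ) ^ t := by
    have a0 : (1 : ℝ) ≤ 3 * rexp 20 := by linarith [Real.add_one_le_exp 20]
    calc 6144 * (3 ^ (n / 2) * rexp (20 * n)) ≤ (6144 : ℝ) ^ t * (3 * rexp 20) ^ (4 * t) := by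
          refine mul_le_mul (le_self_pow₀ (by norm_num) (by omega))
            (le_trans ?_ (pow_le_pow_right₀ a0 ht')) (by positivity) (by positivity)
          rw [mul_pow, ← Real.exp_nat_mul, mul_comm (n : ℝ)]
          gcongr
          · norm_num
          · exact Nat.div_le_self n 2
      _ = (6144 * (3 * rexp 20) ^ 4) ^ t := by rw [mul_pow (6144 : ℝ), pow_mul]
      _ ≤ _ := pow_le_pow_left₀ (by positivity) hn2 t
  calc _ ≤ 48 * n * (n : ℝ) ^ (3 * (MM n + 3)) *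
        (64 * 3 ^ (n / 2) * (1 / (n : ℝ) ^ 2) ^ (n / 2 - (MM n + 2) - 5) *
          ((n : ℝ) ^ 2) ^ (MM n + 2)) := by gcongr
    _ = 3072 * 3 ^ (n / 2) / (n : ℝ) ^ t := by
        rw [one_div, inv_pow, ← pow_mul, ← pow_mul, ht, pow_add, pow_add, pow_add]
        field_simp
        norm_num
    _ ≤ _ := by
        rw [neg_mul, Real.exp_neg, div_le_div_iff₀ (by positivity) two_pos,
          le_inv_mul_iff₀ (by positivity)]
        linarith

/-- tail lemma: vectors whose layer distance is abnormally small -/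
theorem tail_le : ∀ᶠ n : ℕ in atTop, ∀ᶠ ω in 𝓝[>] (0 : ℝ),
    ∀ (W : Submodule ℝ (Ev (n / 2))) (D : ℝ) (lvl : ℕ), lvl ≤ 2 → Adm n ω W D lvl →
      ω ^ (n / 2) * ∑ k ∈ (Kn n ω).filter (fun k => iv k ∉ W ∧ dk ω W k < 1 / (n : ℝ) ^ 2),
        (1 + 1 / dk ω W k) ^ 4 ≤ D * rexp (-20 * n) := by
  filter_upwards [eventually_ge_atTop 1000, card_ball_le, geo_num] with n hn hball hnum
  set a := MM n + 2 with ha
  set Q : ℝ := (2 * (1 + (a : ℝ) * n) + √((n / 2 : ℕ) : ℝ)) ^ a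
  set P : ℝ := 48 * n * (n : ℝ) ^ (3 * (MM n + 3))
  set s : ℝ := 3 * √((n / 2 : ℕ) : ℝ)
  filter_upwards [geo_small s 1 one_pos, geo_small
    (P * (s ^ (n / 2 - a) * ((((a : ℝ) + 1) * n) ^ a) ^ 5 * Q)) (rexp (-20 * n) / 2)
    (by positivity)] with ω ⟨hω, hω1, hs⟩ ⟨_, _, hC⟩ W D lvl hl h
  have hn' : (1000 : ℝ) ≤ n := by exact_mod_cast hn
  have hD := h.one_le
  obtain ⟨G, rfl, h2, h3⟩ := h.gen
  have hε : 1 / (n : ℝ) ^ 2 ≤ 1 / 3 := one_div_le_one_div_of_le (by norm_num) (by nlinarith)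
  obtain ⟨T, hT, hsum⟩ := geo_count hω (by omega) (by positivity) G
    (hball ω hω _ D lvl (by omega) h)
    ((Kn n ω).filter fun k => iv k ∉ spanS G ∧ dk ω (spanS G) k < 1 / (n : ℝ) ^ 2) fun k hk => by
      obtain ⟨a1, a2, a3⟩ := Finset.mem_filter.1 hk
      exact ⟨a2, ((mem_Kn hω k).1 a1).2, by linarith⟩
  have hG : G.card ≤ a := by omega
  have hc := geo_core hω hω1 (δ := ω ^ (a + 1) / (((a : ℝ) + 1) * n) ^ a) (ε := 1 / (n : ℝ) ^ 2)
    (L := 1 + (a : ℝ) * n) (by positivity) (by positivity) (by linarith)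
    (le_add_of_nonneg_right (by positivity)) (spanS G) (a := a)
    ((finrank_span_le_card _).trans (by
      simpa using Finset.card_image_le.trans hG)) (by unfold a MM; omega)
    (by simp only [s] at hs; linarith) T fun k₀ hk₀ => by
      obtain ⟨k, hk, b1, b2⟩ := hT k₀ hk₀
      obtain ⟨-, a2, a3⟩ := Finset.mem_filter.1 hk
      rw [← b1]
      refine ⟨geo_le_dk hω a2 fun η _ hη => geo_dist_ge hω hω1 (by omega) hG h3 hη, a3.le,
        b2.trans (add_le_add le_rfl ((Finset.sum_le_card_nsmul _ _ _ h3).trans ?_))⟩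
      rw [nsmul_eq_mul]
      gcongr
  refine (mul_le_mul_of_nonneg_left hsum (by positivity)).trans ?_
  rw [mul_left_comm]
  refine (mul_le_mul_of_nonneg_left hc (by positivity)).trans ?_
  have e : (3 * (ω * √((n / 2 : ℕ) : ℝ))) ^ (n / 2 - a) / (ω ^ (a + 1) / (((a : ℝ) + 1) * n) ^ a) ^ 5
      ≤ s ^ (n / 2 - a) * ((((a : ℝ) + 1) * n) ^ a) ^ 5 * ω := by
    have : ω ^ (n / 2 - a) ≤ ω ^ ((a + 1) * 5 + 1) :=
      pow_le_pow_of_le_one hω.le hω1 (by unfold a MM; omega)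
    rw [mul_left_comm, mul_pow, div_pow, div_div_eq_mul_div, div_le_iff₀ (by positivity),
      ← pow_mul ω]
    calc _ ≤ ω ^ ((a + 1) * 5 + 1) * s ^ (n / 2 - a) * ((((a : ℝ) + 1) * n) ^ a) ^ 5 := by gcongr
      _ = _ := by ring
  have e' := mul_le_mul_of_nonneg_left (mul_le_mul_of_nonneg_right e (show 0 ≤ Q by positivity))
    (show 0 ≤ P by positivity)
  calc _ = D * (P * ((3 * (ω * √((n / 2 : ℕ) : ℝ))) ^ (n / 2 - a) /
          (ω ^ (a + 1) / (((a : ℝ) + 1) * n) ^ a) ^ 5 * Q) +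
        P * (64 * 3 ^ (n / 2) * (1 / (n : ℝ) ^ 2) ^ (n / 2 - a - 5) * Q)) := by
        simp only [P, Q]; ring
    _ ≤ _ := mul_le_mul_of_nonneg_left (by linarith) (by linarith)

/-- Gaussian averages of powers of the inverse layer distance -/
theorem sum_dk_le : ∀ᶠ n : ℕ in atTop, ∀ᶠ ω in 𝓝[>] (0 : ℝ),
    ∀ (W : Submodule ℝ (Ev (n / 2))) (D : ℝ) (lvl : ℕ), lvl ≤ 2 → Adm n ω W D lvl →
      ∀ β ∈ Set.Icc (1 / 4 : ℝ) 4, ∀ j : ℕ, j ≤ 4 →
      ω ^ (n / 2) * ∑ k ∈ (Kn n ω).filter (fun k => iv k ∉ W),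
        rexp (-π * β * (ω ^ 2 * ‖iv k‖ ^ 2)) * (1 + 1 / dk ω W k) ^ j ≤
          D * (n : ℝ) ^ 9 * β ^ (-mh n) := by
  filter_upwards [eventually_ge_atTop 100, tail_le] with n hn htail
  filter_upwards [htail, geo_small (2 * ((n / 2 : ℕ) : ℝ)) 1 one_pos] with ω ht ⟨hω, hω1, hs⟩
    W D lvl hl h β ⟨hβ1, hβ2⟩ j hj
  have hβ : 0 < β := by linarith
  have hn' : (100 : ℝ) ≤ n := by exact_mod_cast hn
  have hD := h.one_le
  have ht := ht W D lvl hl h
  obtain ⟨G, rfl, -, -⟩ := h.gen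
  rw [← Finset.sum_filter_add_sum_filter_not _ (fun k => dk ω (spanS G) k < 1 / (n : ℝ) ^ 2),
    mul_add, Finset.filter_filter]
  have hp : ∀ k, iv k ∉ spanS G → (1 + 1 / dk ω (spanS G) k) ^ j ≤ (1 + 1 / dk ω (spanS G) k) ^ 4 :=
    fun k hk => pow_le_pow_right₀ (le_add_of_nonneg_right (by have := dk_pos hω G hk; positivity)) hj
  have hb : 0 < β ^ (-mh n) := Real.rpow_pos_of_pos hβ _
  have h1 : rexp (-20 * n) ≤ β ^ (-mh n) := by
    rw [Real.rpow_def_of_pos hβ]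
    apply Real.exp_le_exp.2
    have a1 := Real.log_le_sub_one_of_pos hβ
    have a2 := (mh_le n).2
    have a3 : 0 ≤ mh n := by unfold mh; positivity
    nlinarith
  have h2 : ω ^ (n / 2) * (1 + 1 / √(β * ω ^ 2)) ^ (n / 2) ≤ 3 * β ^ (-mh n) := by
    have a1 : √β ≤ 2 := Real.sqrt_le_iff.2 ⟨by norm_num, by linarith⟩
    have a2 : 0 < √β := Real.sqrt_pos.2 hβ
    have a3 : β ^ (-mh n) = (1 / √β) ^ (n / 2) := by
      rw [Real.sqrt_eq_rpow, one_div, ← Real.rpow_neg hβ.le, ← Real.rpow_natCast,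
        ← Real.rpow_mul hβ.le, mh]
      congr 1; ring
    have a4 : ω * (1 + 1 / √(β * ω ^ 2)) = (1 + ω * √β) * (1 / √β) := by
      rw [Real.sqrt_mul hβ.le, Real.sqrt_sq hω.le]; field_simp; ring
    rw [← mul_pow, a4, mul_pow, a3]
    refine mul_le_mul_of_nonneg_right ?_ (by positivity)
    calc (1 + ω * √β) ^ (n / 2) ≤ rexp (2 * ω) ^ (n / 2) := by
          refine pow_le_pow_left₀ (by positivity) ?_ _
          nlinarith [Real.add_one_le_exp (2 * ω)]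
      _ ≤ rexp 1 := by
          rw [← Real.exp_nat_mul]
          exact Real.exp_le_exp.2 (by linarith)
      _ ≤ 3 := by linarith [Real.exp_one_lt_d9]
  have hs2 : 0 < β * ω ^ 2 := by positivity
  have h3 := ((summable_gauss hs2 (0 : Ev (n / 2))).sum_le_tsum
    (((Kn n ω).filter fun k => iv k ∉ spanS G).filter
      fun k => ¬ dk ω (spanS G) k < 1 / (n : ℝ) ^ 2) fun _ _ => by positivity).trans
    (tsum_gauss_le hs2 0)
  have h4 : (1 + (n : ℝ) ^ 2) ^ 4 * 3 + 1 ≤ (n : ℝ) ^ 9 := by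
    have a1 : (1 + (n : ℝ) ^ 2) ^ 4 ≤ (2 * (n : ℝ) ^ 2) ^ 4 :=
      pow_le_pow_left₀ (by positivity) (by nlinarith) 4
    have a2 : (1 : ℝ) ≤ (n : ℝ) ^ 8 := one_le_pow₀ (by linarith)
    nlinarith
  calc _ ≤ D * rexp (-20 * n) + ω ^ (n / 2) * ((1 + (n : ℝ) ^ 2) ^ 4 *
        (1 + 1 / √(β * ω ^ 2)) ^ (n / 2)) := by
        refine add_le_add (le_trans (mul_le_mul_of_nonneg_left (Finset.sum_le_sum fun k hk => ?_)
          (by positivity)) ht) (mul_le_mul_of_nonneg_left ?_ (by positivity))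
        · have a1 := (Finset.mem_filter.1 hk).2.1
          have := dk_pos hω G a1
          refine (mul_le_of_le_one_left (by positivity) (Real.exp_le_one_iff.2 ?_)).trans (hp k a1)
          have : 0 ≤ π * β * (ω ^ 2 * ‖iv k‖ ^ 2) := by positivity
          linarith
        · refine le_trans ?_ (mul_le_mul_of_nonneg_left h3 (by positivity))
          rw [Finset.mul_sum]
          refine Finset.sum_le_sum fun k hk => ?_
          obtain ⟨a1, a2⟩ := Finset.mem_filter.1 hk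
          have a3 := (Finset.mem_filter.1 a1).2
          have a4 := dk_pos hω G a3
          rw [mul_comm, add_zero, show -π * β * (ω ^ 2 * ‖iv k‖ ^ 2) =
            -π * (β * ω ^ 2) * ‖iv k‖ ^ 2 by ring]
          refine mul_le_mul_of_nonneg_right ((hp k a3).trans
            (pow_le_pow_left₀ (by positivity) ?_ 4)) (by positivity)
          have := one_div_le_one_div_of_le (by positivity) (not_lt.1 a2)
          rw [one_div_one_div] at this
          linarith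
    _ ≤ D * β ^ (-mh n) + D * ((1 + (n : ℝ) ^ 2) ^ 4 * (3 * β ^ (-mh n))) := by
        refine add_le_add (mul_le_mul_of_nonneg_left h1 (by linarith)) ?_
        rw [mul_left_comm]
        exact (mul_le_mul_of_nonneg_left h2 (by positivity)).trans
          (le_mul_of_one_le_left (by positivity) hD)
    _ = D * ((1 + (n : ℝ) ^ 2) ^ 4 * 3 + 1) * β ^ (-mh n) := by ring
    _ ≤ _ := by gcongr

end Pool.Agent.Eps
end
end

-- part Pool.Agent.Lib.MP_3bda03_nt.T1A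
section

set_option autoImplicit false

noncomputable section

open scoped BigOperators Classical Topology
open MeasureTheory Real Complex Filter

namespace Pool.Agent.Eps

/-- the Gaussian weight of an integer vector -/
abbrev t1E {m : ℕ} (ω β : ℝ) (k : Zv m) : ℝ := rexp (-π * β * (ω ^ 2 * ‖iv k‖ ^ 2))

lemma t1E_neg {m : ℕ} (ω β : ℝ) (k : Zv m) : t1E ω β (-k) = t1E ω β k := by
  simp only [t1E, iv_neg, norm_neg]

lemma t1E_anti {m : ℕ} (ω : ℝ) {β β' : ℝ} (h : β ≤ β') (k : Zv m) : t1E ω β' k ≤ t1E ω β k := by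
  apply Real.exp_le_exp.2
  have : 0 ≤ π * (ω ^ 2 * ‖iv k‖ ^ 2) := by positivity
  nlinarith

lemma t1E_le_one {m : ℕ} (ω : ℝ) {β : ℝ} (h : 0 ≤ β) (k : Zv m) : t1E ω β k ≤ 1 := by
  apply Real.exp_le_one_iff.2
  have : 0 ≤ π * β * (ω ^ 2 * ‖iv k‖ ^ 2) := by positivity
  linarith

lemma t1E_mul {m : ℕ} (ω β β' : ℝ) (k : Zv m) : t1E ω β k * t1E ω β' k = t1E ω (β + β') k := by
  rw [← Real.exp_add]
  congr 1
  ring

/-- Gaussian tail -/
lemma t1E_tail {m : ℕ} {ω β R : ℝ} (hβ : 0 ≤ β) (hR : 0 ≤ R) {k : Zv m} (h : R ≤ ω * ‖iv k‖) :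
    t1E ω (2 * β) k ≤ rexp (-π * β * R ^ 2) * t1E ω β k := by
  rw [two_mul, ← t1E_mul]
  refine mul_le_mul_of_nonneg_right (Real.exp_le_exp.2 ?_) (Real.exp_nonneg _)
  have h1 : R ^ 2 ≤ ω ^ 2 * ‖iv k‖ ^ 2 := by rw [← mul_pow]; gcongr
  have : 0 ≤ π * β := by positivity
  nlinarith

lemma t1_re_le {z : ℂ} (hz : 1 ≤ z.re) : 1 ≤ ‖z‖ := hz.trans (Complex.re_le_norm z)

lemma t1_star_pos {z : ℂ} (hz : 1 ≤ z.re) : 0 < z.re / ‖z‖ ^ 2 := by
  have := t1_re_le hz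
  positivity

lemma t1_inv_re (z : ℂ) : (z⁻¹).re = z.re / ‖z‖ ^ 2 := by
  rw [Complex.inv_re, Complex.normSq_eq_norm_sq]

lemma t1_mh (n : ℕ) : -((n / 2 : ℕ) : ℝ) / 2 = -mh n := by
  unfold mh
  ring

lemma t1_mh_nonneg (n : ℕ) : 0 ≤ mh n := by
  unfold mh
  positivity

lemma t1_pow_r {a b : ℝ} (n : ℕ) (ha : 1 ≤ a) (hb : a ≤ b) : a ^ (n % 2) ≤ b :=
  (pow_le_pow_right₀ ha (by omega : n % 2 ≤ 1)).trans (by simpa using hb)

lemma t1_inv_sqrt {s : ℝ} (hs : 1 ≤ s) : 1 / √s ≤ 1 := by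
  have : 1 ≤ √s := Real.one_le_sqrt.2 hs
  rw [div_le_one (by linarith)]
  exact this

lemma t1_Cp_le {n : ℕ} {ω : ℝ} {z : ℂ} (hω : 0 < ω) (hz : 1 ≤ z.re) (k η : Zv (n / 2)) :
    ‖Cp (n % 2) ω z k η‖ ≤ 2 * (ω ^ (n / 2) * ‖z‖ ^ (-mh n)) *
      (t1E ω z.re k * t1E ω (z.re / ‖z‖ ^ 2) η) := by
  refine (norm_Cp_le hω (by linarith) k η).trans ?_
  rw [t1_mh]
  gcongr
  exact t1_pow_r n (by simp) (by linarith [t1_inv_sqrt hz])

lemma t1_summable {m : ℕ} {ω s : ℝ} (hω : 0 < ω) (hs : 0 < s) :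
    Summable fun k : Zv m => t1E ω s k := by
  simpa only [if_true] using summable_th hω hs fun _ : Zv m => True

lemma t1_gsum {m : ℕ} {ω s : ℝ} (hω : 0 < ω) (hs : 0 < s) :
    ω ^ m * ∑' k : Zv m, t1E ω s k ≤ (ω + 1 / √s) ^ m := by
  have h := (gauss_two (m := m) (A := s) (A' := 0) (p := 0) (q := 1) hω hs.le le_rfl
    (by simpa using hs) 0 0).2
  simp only [one_smul, add_zero, zero_mul, one_pow, mul_one, mul_zero, zero_div,
    Real.exp_zero] at h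
  refine le_trans (le_of_eq ?_) h
  congr 1
  refine tsum_congr fun k => congrArg rexp ?_
  ring

lemma t1_small (n : ℕ) (S : ℝ) : ∀ᶠ ω in 𝓝[>] (0 : ℝ), ∀ s : ℝ, 0 < s → s ≤ S →
    (ω + 1 / √s) ^ (n / 2) ≤ 1.2 * s ^ (-mh n) := by
  have h : Tendsto (fun ω : ℝ => (1 + ω * √S) ^ (n / 2)) (𝓝[>] 0) (𝓝 1) := by
    have : Continuous fun ω : ℝ => (1 + ω * √S) ^ (n / 2) := by fun_prop
    simpa using (this.tendsto 0).mono_left nhdsWithin_le_nhds
  filter_upwards [h.eventually (gt_mem_nhds (by norm_num : (1 : ℝ) < 1.2)),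
    self_mem_nhdsWithin] with ω h1 hω s hs hS
  have hω : 0 < ω := hω
  have h2 : 0 < √s := Real.sqrt_pos.2 hs
  have h3 : s ^ (-mh n) = (1 / √s) ^ (n / 2) := by
    rw [Real.sqrt_eq_rpow, one_div, ← Real.rpow_neg hs.le, ← Real.rpow_natCast,
      ← Real.rpow_mul hs.le, mh]
    congr 1
    ring
  rw [h3, show ω + 1 / √s = (1 + ω * √s) * (1 / √s) by field_simp; ring, mul_pow]
  gcongr
  refine le_trans ?_ h1.le
  gcongr

lemma t1_log : ∀ᶠ n : ℕ in atTop, 800 ≤ Real.log n :=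
  (Real.tendsto_log_atTop.comp tendsto_natCast_atTop_atTop).eventually_ge_atTop 800

lemma t1_env {n : ℕ} {ω D β u : ℝ} {W : Submodule ℝ (Ev (n / 2))} (hn : 0 < Real.log n)
    (h : Adm n ω W D 1) (hβ : 0 < β) (hu : 4 / β ≤ u ^ 2) (hu0 : 0 ≤ u) :
    th ω W β ≤ D * En n ^ 2 * (max 1 (u / √(Real.log n))) ^ (2 * MM n + 2) := by
  refine (h.th_le β hβ).trans ?_
  have hD := h.one_le
  have hE := one_le_En n
  rw [Env, mul_assoc, show 2 * MM n + 2 = 2 * (MM n + 1) by ring, pow_mul]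
  gcongr
  refine max_le (one_le_pow₀ (le_max_left _ _)) ?_
  calc (4 : ℝ) ^ 1 / (β * Real.log n) = 4 / β / Real.log n := by rw [pow_one, div_div]
    _ ≤ u ^ 2 / Real.log n := by gcongr
    _ = (u / √(Real.log n)) ^ 2 := by rw [div_pow, Real.sq_sqrt hn.le]
    _ ≤ _ := by gcongr; exact le_max_right _ _

lemma t1_env' {n : ℕ} {ω D β : ℝ} {W : Submodule ℝ (Ev (n / 2))} (hn : 800 ≤ Real.log n)
    (h : Adm n ω W D 1) (hβ : 1 / 200 ≤ β) : th ω W β ≤ D * En n ^ 2 := by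
  have h0 : 0 < √(Real.log n) := Real.sqrt_pos.2 (by linarith)
  have := t1_env (u := √(Real.log n)) (β := β) (by linarith) h (by linarith) (by
    rw [Real.sq_sqrt (by linarith), div_le_iff₀ (by linarith)]
    nlinarith) h0.le
  simpa [div_self h0.ne'] using this

/-- the form of `grow` that is used here -/
lemma t1_grow (C : ℝ) : ∀ᶠ n : ℕ in atTop, ∀ Y₁ Y : ℝ, 1 ≤ Y₁ → Y₁ ≤ 5 → Y₁ ≤ Y → ∀ j ≤ 20,
    Y ^ (-mh n) * (max 1 (C * Y / √(Real.log n))) ^ (2 * MM n + j) ≤ Y₁ ^ (-mh n) := by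
  filter_upwards [grow C 5] with n hn Y₁ Y h1 h2 h3 j hj
  refine le_trans ?_ (hn Y₁ Y h1 h2 h3)
  have : 0 ≤ Y := by linarith
  gcongr
  exact le_max_left _ _

lemma t1_th_star : ∀ᶠ n : ℕ in atTop, ∀ (ω : ℝ) (W : Submodule ℝ (Ev (n / 2))) (D : ℝ),
    Adm n ω W D 1 → ∀ z : ℂ, 1 ≤ z.re → ∀ Y₁ : ℝ, 1 ≤ Y₁ → Y₁ ≤ 5 → Y₁ ≤ ‖z‖ →
      ‖z‖ ^ (-mh n) * th ω W (z.re / ‖z‖ ^ 2) ≤ D * En n ^ 2 * Y₁ ^ (-mh n) := by
  filter_upwards [t1_grow 2, t1_log] with n hg hl ω W D h z hz Y₁ h1 h2 h3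
  have hζ := t1_re_le hz
  have hD := h.one_le
  have h4 := t1_env (u := 2 * ‖z‖) (by linarith) h (t1_star_pos hz) (by
    rw [div_div_eq_mul_div, div_le_iff₀ (by linarith)]
    nlinarith [sq_nonneg ‖z‖]) (by positivity)
  calc _ ≤ ‖z‖ ^ (-mh n) * (D * En n ^ 2 * (max 1 (2 * ‖z‖ / √(Real.log n))) ^ (2 * MM n + 2)) := by
        gcongr
    _ = D * En n ^ 2 * (‖z‖ ^ (-mh n) * (max 1 (2 * ‖z‖ / √(Real.log n))) ^ (2 * MM n + 2)) := by
        ring
    _ ≤ _ := by gcongr; exact hg Y₁ _ h1 h2 h3 2 (by norm_num)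

lemma t1_summable_right {m r : ℕ} {ω : ℝ} {z : ℂ} (hω : 0 < ω) (hz : 0 < z.re) (k : Zv m) :
    Summable fun η : Zv m => ‖Cp r ω z k η‖ := (summable_Cp hω hz).prod_factor k

lemma t1_summable_ite {ι : Type} {a : ι → ℂ} (h : Summable fun i => ‖a i‖) (P : ι → Prop)
    [DecidablePred P] : Summable fun i => ‖if P i then a i else 0‖ :=
  Summable.of_nonneg_of_le (fun _ => norm_nonneg _)
    (fun i => by split_ifs <;> simp) h

lemma t1_summable_a {m r : ℕ} {ω : ℝ} {z : ℂ} (hω : 0 < ω) (hz : 0 < z.re) (k : Zv m) (x : Xs m) :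
    Summable fun η : Zv m => ‖Cp r ω z k η * ch η k x‖ := by
  simpa [norm_ch] using t1_summable_right hω hz k

lemma t1_hasSum_th {m : ℕ} {ω β : ℝ} (hω : 0 < ω) (hβ : 0 < β) (W : Submodule ℝ (Ev m)) (c : ℝ) :
    HasSum (fun κ : Zv m => c * if iv κ ∈ W then t1E ω β κ else 0) (c * th ω W β) :=
  (summable_th hω hβ fun κ : Zv m => iv κ ∈ W).hasSum.mul_left c

theorem Pz_neg (n : ℕ) (ω : ℝ) (W : Submodule ℝ (Ev (n / 2))) (z : ℂ) (k : Zv (n / 2))
    (x : Xs (n / 2)) : Pz n ω W z (-k) x = Pz n ω W z k x := by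
  unfold Pz
  rw [← (Equiv.neg (Zv (n / 2))).tsum_eq]
  refine tsum_congr fun η => ?_
  simp only [Equiv.neg_apply, iv_neg, neg_mem_iff, Cp_neg_neg, ch_neg_neg]

theorem continuous_Pz (n : ℕ) {ω : ℝ} (hω : 0 < ω) (W : Submodule ℝ (Ev (n / 2))) {z : ℂ}
    (hz : 0 < z.re) (k : Zv (n / 2)) : Continuous (Pz n ω W z k) := by
  refine continuous_tsum (fun η => ?_) (t1_summable_right (r := n % 2) hω hz k) fun η x => ?_
  · split_ifs
    · exact continuous_const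
    · exact continuous_const.mul (continuous_ch η k)
  · split_ifs <;> simp [norm_ch]

theorem measurable_parts (n : ℕ) (ω : ℝ) (W : Submodule ℝ (Ev (n / 2))) :
    (Measurable fun p : ℂ × Xs (n / 2) => Osc n ω W p.1 p.2) ∧
    (Measurable fun p : ℂ × Xs (n / 2) => Str n ω W p.1 p.2) ∧
    (Measurable fun p : ℂ × Xs (n / 2) => Mir n ω W p.1 p.2) ∧
    (Measurable fun p : ℂ × Xs (n / 2) => Wz n ω p.1 p.2) ∧
    (Measurable fun p : ℂ × Xs (n / 2) => Rem n ω W p.1 p.2) ∧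
    Measurable (Del n ω) ∧ Measurable fun p : ℂ × ℂ => KK n ω p.1 p.2 := by
  have hi : Measurable fun p : ℂ × Xs (n / 2) => isq p.1 ^ n :=
    (measurable_isq.comp measurable_fst).pow_const n
  have h1 : Measurable fun p : ℂ × Xs (n / 2) => Osc n ω W p.1 p.2 := by
    refine Finset.measurable_sum _ fun k _ => Measurable.tsum fun η => ?_
    split_ifs
    · exact measurable_const
    · exact ((measurable_Cp ω k η).comp measurable_fst).mul
        ((continuous_ch η k).measurable.comp measurable_snd)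
  have h2 : Measurable fun p : ℂ × Xs (n / 2) => Str n ω W p.1 p.2 :=
    Finset.measurable_sum _ fun k _ => measurable_Fz₂ ω k
  have h3 : Measurable fun p : ℂ × Xs (n / 2) => Mir n ω W p.1 p.2 := by
    refine hi.mul (Measurable.tsum fun η => ?_)
    split_ifs
    · have h := (measurable_Fz₂ (r := n % 2) ω η).comp
        (measurable_fst.inv.prodMk measurable_snd :
          Measurable fun p : ℂ × Xs (n / 2) => (p.1⁻¹, p.2))
      exact h
    · exact measurable_const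
  have h4 : Measurable fun p : ℂ × Xs (n / 2) => Wz n ω p.1 p.2 :=
    (Finset.measurable_sum _ fun k _ => measurable_Fz₂ ω k).sub hi
  have h6 : Measurable (Del n ω) :=
    Finset.measurable_sum _ fun k _ => (measurable_Cp ω k k).add (measurable_Cp ω k (-k))
  have hc : Measurable (starRingEnd ℂ) := Complex.continuous_conj.measurable
  have hs : Measurable fun p : ℂ × ℂ => p.1 + starRingEnd ℂ p.2 :=
    measurable_fst.add (hc.comp measurable_snd)
  have hp : ∀ a b c d : Zv (n / 2), Measurable fun p : ℂ × ℂ =>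
      Cp (n % 2) ω p.1 a b * starRingEnd ℂ (Cp (n % 2) ω p.2 c d) := fun a b c d =>
    ((measurable_Cp ω a b).comp measurable_fst).mul
      (hc.comp ((measurable_Cp ω c d).comp measurable_snd))
  refine ⟨h1, h2, h3, h4, ((h4.sub h2).sub h3).sub h1, h6, ?_⟩
  refine (((((measurable_isq.comp hs).pow_const n).const_mul 2).add
    ((h6.comp hs).const_mul 2)).add
    ((h6.comp measurable_fst).mul (hc.comp (h6.comp measurable_snd)))).add ?_
  exact Finset.measurable_sum _ fun k _ => Finset.measurable_sum _ fun k' _ =>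
    (hp _ _ _ _).add (hp _ _ _ _)

lemma t1_norm_isq_le {n : ℕ} {z : ℂ} (hz : 1 ≤ z.re) : ‖isq z ^ n‖ ≤ ‖z‖ ^ (-mh n) := by
  rw [norm_isq_pow n (by linarith)]
  refine Real.rpow_le_rpow_of_exponent_le (t1_re_le hz) ?_
  have := (mh_le n).2
  have : (0 : ℝ) ≤ n := n.cast_nonneg
  linarith

lemma t1_rpow_le_one {n : ℕ} {a : ℝ} (ha : 1 ≤ a) : a ^ (-mh n) ≤ 1 :=
  Real.rpow_le_one_of_one_le_of_nonpos ha (by linarith [t1_mh_nonneg n])

lemma t1_rpow_anti {n : ℕ} {a b : ℝ} (ha : 0 < a) (hb : a ≤ b) : b ^ (-mh n) ≤ a ^ (-mh n) :=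
  Real.rpow_le_rpow_of_nonpos ha hb (by linarith [t1_mh_nonneg n])

/-- a crude bound, uniform in the parameter, used only for integrability -/
theorem exists_bound (n : ℕ) {ω : ℝ} (hω : 0 < ω) :
    ∃ C : ℝ, ∀ (W : Submodule ℝ (Ev (n / 2))) (z : ℂ), 1 ≤ z.re →
      ∀ x, ‖Wz n ω z x‖ ≤ C ∧ ‖Str n ω W z x‖ ≤ C := by
  refine ⟨∑ _k ∈ Kn n ω, 2 * (1 + ω) ^ (n / 2) + 1, fun W z hz x => ?_⟩
  have h1 : ∀ k : Zv (n / 2), ‖Fz (n % 2) ω z k x‖ ≤ 2 * (1 + ω) ^ (n / 2) := fun k => by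
    have h0 : 0 < z.re := by linarith
    refine ((norm_Fz_le hω h0 x k).trans (FS_ft_le hω h0 x k)).trans ?_
    have h2 := t1_inv_sqrt hz
    rw [← one_mul (2 * _)]
    gcongr
    · exact t1E_le_one ω h0.le k
    · exact t1_pow_r n (by simp) (by linarith)
    · rw [div_eq_mul_one_div]
      nlinarith
  constructor
  · refine (norm_sub_le _ _).trans (add_le_add (norm_sum_le_of_le _ fun k _ => h1 k) ?_)
    exact (t1_norm_isq_le hz).trans (t1_rpow_le_one (t1_re_le hz))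
  · refine (norm_sum_le_of_le _ fun k _ => h1 k).trans (le_trans ?_ (le_add_of_nonneg_right one_pos.le))
    exact Finset.sum_le_sum_of_subset_of_nonneg (Finset.filter_subset _ _) fun _ _ _ => by positivity

lemma t1_Fz_sub_Pz {n : ℕ} {ω : ℝ} (hω : 0 < ω) (W : Submodule ℝ (Ev (n / 2))) {z : ℂ}
    (hz : 0 < z.re) (k : Zv (n / 2)) (x : Xs (n / 2)) :
    Fz (n % 2) ω z k x - Pz n ω W z k x =
      ∑' η : Zv (n / 2), if iv η ∈ W then Cp (n % 2) ω z k η * ch η k x else 0 := by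
  have h := t1_summable_a (r := n % 2) hω hz k x
  have h1 := (t1_summable_ite h fun η => iv η ∉ W).of_norm
  simp only [ite_not] at h1
  rw [Fz_eq_tsum hω hz, Pz, ← h.of_norm.tsum_sub h1]
  refine tsum_congr fun η => ?_
  split_ifs <;> simp

theorem Fz_sub_Pz_le : ∀ᶠ n : ℕ in atTop, ∀ ω : ℝ, 0 < ω →
    ∀ (W : Submodule ℝ (Ev (n / 2))) (D : ℝ), Adm n ω W D 1 → ∀ z : ℂ, 1 ≤ z.re → z.re ≤ 4 →
      ∀ k x, ‖Fz (n % 2) ω z k x - Pz n ω W z k x‖ ≤
        ω ^ (n / 2) * D * En n ^ 3 * rexp (-π * z.re * (ω ^ 2 * ‖iv k‖ ^ 2)) := by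
  filter_upwards [t1_th_star, poly_le_En 2 0] with n h1 h2 ω hω W D h z hz _ k x
  rw [t1_Fz_sub_Pz hω W (by linarith)]
  refine (tsum_of_norm_bounded (t1_hasSum_th hω (t1_star_pos hz) W
    (2 * (ω ^ (n / 2) * ‖z‖ ^ (-mh n)) * t1E ω z.re k)) fun η => ?_).trans ?_
  · split_ifs
    · rw [norm_mul, norm_ch, mul_one, mul_assoc]
      exact t1_Cp_le hω hz k η
    · simp
  · have h3 := h1 ω W D h z hz 1 le_rfl (by norm_num) (t1_re_le hz)
    rw [Real.one_rpow, mul_one] at h3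
    have hD := h.one_le
    have hE := one_le_En n
    simp only [pow_zero, mul_one] at h2
    calc _ = 2 * (ω ^ (n / 2) * t1E ω z.re k * (‖z‖ ^ (-mh n) * th ω W (z.re / ‖z‖ ^ 2))) := by ring
      _ ≤ En n * (ω ^ (n / 2) * t1E ω z.re k * (D * En n ^ 2)) := by
          have := Real.rpow_nonneg (norm_nonneg z) (-mh n)
          have := (th_eq hω (t1_star_pos hz) W).symm ▸ add_nonneg zero_le_one (th0_nonneg ω _ W)
          gcongr
      _ = _ := by ring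

lemma t1_th_nonneg {m : ℕ} (ω β : ℝ) (W : Submodule ℝ (Ev m)) : 0 ≤ th ω W β :=
  tsum_nonneg fun _ => by split_ifs <;> positivity

/-- partial sums over the first index -/
lemma t1_left {n : ℕ} {ω : ℝ} {z : ℂ} (hω : 0 < ω) (hz : 1 ≤ z.re) (η : Zv (n / 2))
    (x : Xs (n / 2)) (F : Finset (Zv (n / 2))) :
    ‖isq z ^ n * Fz (n % 2) ω z⁻¹ η x - ∑ k ∈ F, Cp (n % 2) ω z k η * ch η k x‖ ≤
      2 * ‖z‖ ^ (-mh n) * (ω ^ (n / 2) * ∑' k, if k ∉ F then t1E ω z.re k else 0) *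
        t1E ω (z.re / ‖z‖ ^ 2) η := by
  have h0 : 0 < z.re := by linarith
  have h1 := tsum_Cp_left (r := n % 2) hω h0 η x
  rw [Nat.div_add_mod] at h1
  have h2 : Summable fun k : Zv (n / 2) => ‖Cp (n % 2) ω z k η * ch η k x‖ := by
    simpa [norm_ch] using (summable_Cp hω h0).prod_symm.prod_factor η
  have h3 := (hasSum_sum_of_ne_finset_zero (L := .unconditional _) (s := F)
    (f := fun k => if k ∈ F then Cp (n % 2) ω z k η * ch η k x else 0)
    (fun k hk => if_neg hk))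
  rw [Finset.sum_congr rfl fun k hk => if_pos hk] at h3
  rw [← h1, ← (h2.of_norm.hasSum.sub h3).tsum_eq]
  refine (tsum_of_norm_bounded ((summable_th hω h0 fun k => k ∉ F).hasSum.mul_left
    (2 * (ω ^ (n / 2) * ‖z‖ ^ (-mh n)) * t1E ω (z.re / ‖z‖ ^ 2) η)) fun k => ?_).trans
    (le_of_eq (by ring))
  by_cases hk : k ∈ F
  · simp [hk]
  · rw [if_neg hk, if_pos hk, sub_zero, norm_mul, norm_ch, mul_one, mul_assoc, mul_comm (t1E _ _ η)]
    exact t1_Cp_le hω hz k η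

lemma t1_left' {n : ℕ} {ω : ℝ} {z : ℂ} (hω : 0 < ω) (hz : 1 ≤ z.re)
    (hs : (ω + 1 / √z.re) ^ (n / 2) ≤ 1.2 * z.re ^ (-mh n)) (η : Zv (n / 2)) (x : Xs (n / 2)) :
    ‖isq z ^ n * Fz (n % 2) ω z⁻¹ η x‖ ≤
      3 * (z.re ^ (-mh n) * ‖z‖ ^ (-mh n)) * t1E ω (z.re / ‖z‖ ^ 2) η := by
  have h := t1_left hω hz η x ∅
  simp only [Finset.sum_empty, sub_zero, Finset.notMem_empty, not_false_eq_true, if_true] at h
  have h1 := (t1_gsum (m := n / 2) hω (by linarith : 0 < z.re)).trans hs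
  have h2 := Real.rpow_nonneg (norm_nonneg z) (-mh n)
  have h3 := Real.rpow_nonneg (by linarith : 0 ≤ z.re) (-mh n)
  refine h.trans (mul_le_mul_of_nonneg_right ?_ (Real.exp_nonneg _))
  nlinarith [mul_le_mul_of_nonneg_left h1 h2, mul_nonneg h2 h3]

theorem Mir_le : ∀ᶠ n : ℕ in atTop, ∀ᶠ ω in 𝓝[>] (0 : ℝ),
    ∀ (W : Submodule ℝ (Ev (n / 2))) (D : ℝ), Adm n ω W D 1 → ∀ z : ℂ, 1 ≤ z.re → z.re ≤ 4 →
      ∀ x, ‖Mir n ω W z x‖ ≤ D * En n ^ 3 * (z.re * min ‖z‖ 5) ^ (-mh n) := by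
  filter_upwards [t1_th_star, poly_le_En 3 0] with n h1 h2
  filter_upwards [t1_small n 4, self_mem_nhdsWithin] with ω h3 hω W D h z hz hz' x
  have hω : 0 < ω := hω
  rw [Mir, ← tsum_mul_left]
  refine (tsum_of_norm_bounded (t1_hasSum_th hω (t1_star_pos hz) W
    (3 * (z.re ^ (-mh n) * ‖z‖ ^ (-mh n)))) fun η => ?_).trans ?_
  · by_cases h4 : iv η ∈ W ∧ η ≠ 0
    · rw [if_pos h4, if_pos h4.1]
      exact t1_left' hω hz (h3 _ (by linarith) hz') η x
    · rw [if_neg h4, mul_zero, norm_zero]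
      have : 0 < z.re := by linarith
      split_ifs <;> positivity
  · have hm : 1 ≤ min ‖z‖ 5 := le_min (t1_re_le hz) (by norm_num)
    have h5 := h1 ω W D h z hz _ hm (min_le_right _ _) (min_le_left _ _)
    have hD := h.one_le
    have hE := one_le_En n
    have h0 : 0 < z.re := by linarith
    simp only [pow_zero, mul_one] at h2
    rw [Real.mul_rpow h0.le (by linarith)]
    calc _ = 3 * (z.re ^ (-mh n) * (‖z‖ ^ (-mh n) * th ω W (z.re / ‖z‖ ^ 2))) := by ring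
      _ ≤ En n * (z.re ^ (-mh n) * (D * En n ^ 2 * (min ‖z‖ 5) ^ (-mh n))) := by
          have := t1_th_nonneg ω (z.re / ‖z‖ ^ 2) W
          gcongr
      _ = _ := by ring

lemma t1_Rem_eq {n : ℕ} {ω : ℝ} (hω : 0 < ω) (W : Submodule ℝ (Ev (n / 2))) {z : ℂ}
    (hz : 1 ≤ z.re) (x : Xs (n / 2)) :
    Rem n ω W z x = (isq z ^ n * Fz (n % 2) ω z⁻¹ 0 x - isq z ^ n) -
      ∑' η : Zv (n / 2), if iv η ∈ W then (isq z ^ n * Fz (n % 2) ω z⁻¹ η x -
        ∑ k ∈ (Kn n ω).filter (fun k => iv k ∉ W), Cp (n % 2) ω z k η * ch η k x) else 0 := by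
  have h0 : 0 < z.re := by linarith
  set F := (Kn n ω).filter (fun k => iv k ∉ W)
  have h1 : Summable fun η : Zv (n / 2) => ‖isq z ^ n * Fz (n % 2) ω z⁻¹ η x‖ :=
    Summable.of_nonneg_of_le (fun _ => norm_nonneg _)
      (fun η => by simpa only [Finset.sum_empty, sub_zero] using t1_left hω hz η x ∅)
      ((t1_summable hω (t1_star_pos hz)).mul_left _)
  have h2 := (t1_summable_ite h1 fun η => iv η ∈ W).of_norm
  have h3 : HasSum (fun η => if iv η ∈ W then ∑ k ∈ F, Cp (n % 2) ω z k η * ch η k x else 0)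
      (∑ k ∈ F, (Fz (n % 2) ω z k x - Pz n ω W z k x)) := by
    have := hasSum_sum (s := F) fun k _ =>
      (t1_summable_ite (t1_summable_a (r := n % 2) hω h0 k x) fun η => iv η ∈ W).of_norm.hasSum
    simp only [← t1_Fz_sub_Pz hω W h0] at this
    refine this.congr_fun fun η => ?_
    split_ifs <;> simp
  have h4 : ∑' η : Zv (n / 2), (if iv η ∈ W then isq z ^ n * Fz (n % 2) ω z⁻¹ η x else 0) =
      isq z ^ n * Fz (n % 2) ω z⁻¹ 0 x + Mir n ω W z x := by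
    rw [h2.tsum_eq_add_tsum_ite 0, if_pos (iv_zero ▸ W.zero_mem), Mir, ← tsum_mul_left]
    congr 1
    refine tsum_congr fun η => ?_
    by_cases a : η = 0 <;> by_cases b : iv η ∈ W <;> simp [a, b]
  have h5 := (h2.hasSum.sub h3).tsum_eq
  rw [tsum_congr (g := fun η => (if iv η ∈ W then isq z ^ n * Fz (n % 2) ω z⁻¹ η x else 0) -
    if iv η ∈ W then ∑ k ∈ F, Cp (n % 2) ω z k η * ch η k x else 0)
    fun η => by split_ifs <;> simp, h5, h4, Rem, Wz, Str, Osc, Finset.sum_sub_distrib,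
    ← Finset.sum_filter_add_sum_filter_not (Kn n ω) (fun k => iv k ∈ W)]
  ring

lemma t1_Fz_zero {m r : ℕ} {ω : ℝ} {z : ℂ} (hω : 0 < ω) (hz : 0 < z.re) (x : Xs m) :
    ‖Fz r ω z 0 x - 1‖ ≤ F00 m r ω z.re - 1 := by
  have h0 : rho ω x (0 : Zv m) (0 : Zv r × Zv m) = 0 := by simp [rho, iv_zero, Bk, yv]
  have h1 := summable_ft (r := r) hω hz x 0
  have h2 : ∀ jl : Zv r × Zv m, ‖cexp (-(π : ℂ) * z * (rho ω x 0 jl : ℝ))‖ =
      ft z.re (rho ω x 0 jl) := fun jl => by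
    rw [Complex.norm_exp, ft]
    simp
  have h3 : Summable fun jl : Zv r × Zv m => cexp (-(π : ℂ) * z * (rho ω x 0 jl : ℝ)) :=
    Summable.of_norm (by simpa only [h2] using h1)
  rw [F00, ← FS_zero_eq ω _ x, Fz, FS, h3.tsum_eq_add_tsum_ite 0, h1.tsum_eq_add_tsum_ite 0, h0]
  simp only [ft, Complex.ofReal_zero, mul_zero, Complex.exp_zero, Real.exp_zero,
    add_sub_cancel_left]
  refine tsum_of_norm_bounded (Summable.hasSum (Summable.of_nonneg_of_le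
    (fun jl => by split_ifs <;> positivity) (fun jl => ?_) h1)) fun jl => ?_
  · split_ifs
    · exact Real.exp_nonneg _
    · exact le_rfl
  · split_ifs
    · simp
    · exact (h2 jl).le

lemma t1_out {n : ℕ} {ω τ : ℝ} (hω : 0 < ω) (hτ : 1 ≤ τ) (W : Submodule ℝ (Ev (n / 2))) :
    ∑' k, (if k ∉ (Kn n ω).filter (fun k => iv k ∉ W) then t1E ω τ k else 0) ≤
      th ω W 1 + rexp (-π * (1 / 2) * n ^ 2) * ∑' k : Zv (n / 2), t1E ω (1 / 2) k := by
  refine hasSum_le (fun k => ?_) (summable_th hω (by linarith) _).hasSum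
    ((summable_th hω one_pos fun k => iv k ∈ W).hasSum.add
      ((t1_summable hω one_half_pos).hasSum.mul_left _))
  have h1 := t1E_anti ω hτ k
  by_cases a : iv k ∈ W
  · rw [if_pos a, if_pos (by simp [a])]
    exact h1.trans (le_add_of_nonneg_right (by positivity))
  · rw [if_neg a, zero_add]
    split_ifs with b
    · positivity
    · have : (n : ℝ) ≤ ω * ‖iv k‖ := by
        by_contra c
        refine b (Finset.mem_filter.2 ⟨(mem_Kn hω k).2 ⟨?_, (not_le.1 c).le⟩, a⟩)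
        rintro rfl
        exact a (iv_zero ▸ W.zero_mem)
      exact ((t1E_anti ω (by linarith) k).trans (t1E_tail one_half_pos.le n.cast_nonneg this))

/-- powers of `ω` tend to zero -/
lemma t1_pow_small {j : ℕ} (hj : 0 < j) (C : ℝ) {ε : ℝ} (hε : 0 < ε) :
    ∀ᶠ ω in 𝓝[>] (0 : ℝ), ω ^ j * C ≤ ε := by
  have : Continuous fun ω : ℝ => ω ^ j * C := by fun_prop
  have h := (this.tendsto 0).mono_left (nhdsWithin_le_nhds (s := Set.Ioi 0))
  simp only [zero_pow hj.ne', zero_mul] at h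
  exact h.eventually (ge_mem_nhds hε)

lemma t1_rpow_exp {n : ℕ} {a c : ℝ} (ha : 0 < a) (h : a ≤ rexp c) (hc : 0 ≤ c) :
    rexp (-c * n / 4) ≤ a ^ (-mh n) := by
  refine le_trans ?_ (t1_rpow_anti ha h)
  rw [← Real.exp_mul]
  refine Real.exp_le_exp.2 ?_
  nlinarith [(mh_le n).2]

theorem Rem_le : ∀ᶠ n : ℕ in atTop, ∀ᶠ ω in 𝓝[>] (0 : ℝ),
    ∀ (W : Submodule ℝ (Ev (n / 2))) (D : ℝ), Adm n ω W D 1 → D ≤ ω⁻¹ ^ (MM n + 2) →
      ∀ z : ℂ, 1 ≤ z.re → z.re ≤ 4 → ∀ x, ‖Rem n ω W z x‖ ≤ D * rexp (-5 * n) := by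
  filter_upwards [t1_th_star, t1_log, En_pow_le 12 2 one_pos, eventually_ge_atTop 100] with
    n h1 hl h2 hn
  have hn' : (100 : ℝ) ≤ n := by exact_mod_cast hn
  have hE := one_le_En n
  obtain ⟨j, hj, hj'⟩ : ∃ j, 0 < j ∧ n / 2 = j + (MM n + 2) :=
    ⟨n / 2 - (MM n + 2), by unfold MM; omega, by unfold MM; omega⟩
  have hF := (tendsto_F00 (r := n % 2) (m := n / 2) (by omega) (by omega)
    (Real.exp_pos (-50))).eventually
    (ge_mem_nhds (lt_add_of_pos_right 1 (half_pos (Real.exp_pos (-5 * n)))))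
  filter_upwards [t1_small n 4, self_mem_nhdsWithin, hF,
    t1_pow_small hj (8 * En n ^ 4) (Real.exp_pos (-5 * n))] with ω h3 hω h4 h5 W D h hD z hz hz' x
  have hω : 0 < ω := hω
  have hD1 := h.one_le
  have hζ := t1_re_le hz
  have hmh := mh_le n
  rw [t1_Rem_eq hω W hz]
  refine (norm_sub_le _ _).trans ?_
  have a1 : ‖isq z ^ n * Fz (n % 2) ω z⁻¹ 0 x - isq z ^ n‖ ≤ rexp (-5 * n) / 2 := by
    rcases le_total ‖z‖ (rexp 25) with c | c
    · rw [← mul_sub_one, norm_mul]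
      have b1 := t1_Fz_zero (r := n % 2) hω (t1_inv_re z ▸ t1_star_pos hz) x
      have b2 := F00_anti (m := n / 2) (r := n % 2) hω (Real.exp_pos (-50)) (β' := (z⁻¹).re) (by
        rw [t1_inv_re, le_div_iff₀ (by positivity)]
        calc rexp (-50) * ‖z‖ ^ 2 ≤ rexp (-50) * rexp 25 ^ 2 := by gcongr
          _ = 1 := by rw [← Real.exp_nat_mul, ← Real.exp_add]; norm_num
          _ ≤ _ := hz)
      exact (mul_le_of_le_one_left (norm_nonneg _)
        ((t1_norm_isq_le hz).trans (t1_rpow_le_one hζ))).trans (by linarith)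
    · have b1 := t1_left' hω hz (h3 _ (by linarith) hz') 0 x
      have b2 := t1_norm_isq_le (n := n) hz
      have b3 : ‖z‖ ^ (-mh n) ≤ rexp (-5 * n) / 8 := by
        refine (t1_rpow_anti (Real.exp_pos _) c).trans ?_
        rw [← Real.exp_mul, le_div_iff₀ (by norm_num)]
        calc rexp (25 * -mh n) * 8 ≤ rexp (25 * -mh n) * rexp 7 := by
              gcongr
              linarith [Real.add_one_le_exp 7]
          _ ≤ _ := by rw [← Real.exp_add]; exact Real.exp_le_exp.2 (by linarith)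
      have b4 : 3 * (z.re ^ (-mh n) * ‖z‖ ^ (-mh n)) * t1E ω (z.re / ‖z‖ ^ 2) (0 : Zv (n / 2)) ≤
          3 * (1 * ‖z‖ ^ (-mh n)) * 1 := by
        gcongr
        · exact t1_rpow_le_one hz
        · exact t1E_le_one _ (t1_star_pos hz).le _
      linarith [norm_sub_le (isq z ^ n * Fz (n % 2) ω z⁻¹ 0 x) (isq z ^ n)]
  have a2 := tsum_of_norm_bounded (t1_hasSum_th hω (t1_star_pos hz) W _)
    (f := fun η => if iv η ∈ W then (isq z ^ n * Fz (n % 2) ω z⁻¹ η x -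
      ∑ k ∈ (Kn n ω).filter (fun k => iv k ∉ W), Cp (n % 2) ω z k η * ch η k x) else 0)
    fun η => by
      split_ifs
      · exact t1_left hω hz η x _
      · simp
  have a3 := h1 ω W D h z hz 1 le_rfl (by norm_num) hζ
  rw [Real.one_rpow, mul_one] at a3
  have a4 : ω ^ (n / 2) * th ω W 1 ≤ ω ^ j * En n ^ 2 := by
    calc _ ≤ ω ^ (n / 2) * (ω⁻¹ ^ (MM n + 2) * En n ^ 2) := by
          gcongr
          exact (t1_env' hl h (by norm_num)).trans (by gcongr)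
      _ = _ := by rw [hj', pow_add, inv_pow]; field_simp
  have a5 : rexp (-π * (1 / 2) * n ^ 2) * (ω ^ (n / 2) * ∑' k : Zv (n / 2), t1E ω (1 / 2) k) ≤
      1.2 * rexp (-6 * n) := by
    have b1 := (t1_gsum (m := n / 2) hω one_half_pos).trans (h3 _ one_half_pos (by norm_num))
    have b2 : (1 / 2 : ℝ) ^ (-mh n) ≤ rexp n := by
      refine (t1_rpow_anti (Real.exp_pos (-1)) ?_).trans ?_
      · rw [Real.exp_neg, ← one_div]
        exact one_div_le_one_div_of_le two_pos (by linarith [Real.add_one_le_exp 1])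
      · rw [← Real.exp_mul]
        exact Real.exp_le_exp.2 (by linarith)
    calc _ ≤ rexp (-π * (1 / 2) * n ^ 2) * (1.2 * rexp n) :=
          mul_le_mul_of_nonneg_left (b1.trans (by gcongr)) (Real.exp_nonneg _)
      _ = 1.2 * rexp (-π * (1 / 2) * n ^ 2 + n) := by rw [Real.exp_add]; ring
      _ ≤ _ := by gcongr; nlinarith [Real.pi_gt_three]
  have a6 : 12 * En n ^ 2 * rexp (-6 * n) ≤ rexp (-5 * n) := by
    calc _ ≤ 12 * (n : ℝ) ^ 2 * En n ^ 2 * rexp (-6 * n) := by gcongr; nlinarith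
      _ ≤ rexp (1 * n) * rexp (-6 * n) := by gcongr
      _ = _ := by rw [← Real.exp_add]; congr 1; ring
  have a7 := mul_le_mul_of_nonneg_left (t1_out hω hz W) (pow_pos hω (n / 2)).le
  have a8 : 0 < rexp (-5 * (n : ℝ)) := Real.exp_pos _
  refine (add_le_add a1 a2).trans ?_
  set X := ω ^ (n / 2) * ∑' k, (if k ∉ (Kn n ω).filter (fun k => iv k ∉ W) then t1E ω z.re k else 0)
  have a9 : 2 * En n ^ 2 * X ≤ rexp (-5 * n) / 2 := by
    have : X ≤ ω ^ j * En n ^ 2 + 1.2 * rexp (-6 * n) := by linarith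
    calc _ ≤ 2 * En n ^ 2 * (ω ^ j * En n ^ 2 + 1.2 * rexp (-6 * n)) := by gcongr
      _ = (ω ^ j * (8 * En n ^ 4)) / 4 + (12 * En n ^ 2 * rexp (-6 * n)) / 5 := by ring
      _ ≤ _ := by linarith
  have a10 : 0 ≤ X := mul_nonneg (by positivity) (tsum_nonneg fun _ => by split_ifs <;> positivity)
  calc _ = rexp (-5 * n) / 2 + 2 * X * (‖z‖ ^ (-mh n) * th ω W (z.re / ‖z‖ ^ 2)) := by ring
    _ ≤ D * (rexp (-5 * n) / 2) + 2 * X * (D * En n ^ 2) := by
        gcongr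
        exact le_mul_of_one_le_left (by positivity) hD1
    _ = D * (rexp (-5 * n) / 2 + 2 * En n ^ 2 * X) := by ring
    _ ≤ _ := by gcongr; linarith

lemma t1_diag {n : ℕ} {ω : ℝ} {z : ℂ} (hω : 0 < ω) (hz : 1 ≤ z.re) (k : Zv (n / 2)) :
    ‖Cp (n % 2) ω z k k + Cp (n % 2) ω z k (-k)‖ ≤
      4 * ‖z‖ ^ (-mh n) * (ω ^ (n / 2) * t1E ω (z.re + z.re / ‖z‖ ^ 2) k) := by
  have h1 := t1_Cp_le hω hz k k
  have h2 := t1_Cp_le hω hz k (-k)
  rw [t1E_neg] at h2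
  rw [t1E_mul] at h1 h2
  refine (norm_add_le _ _).trans ((add_le_add h1 h2).trans (le_of_eq ?_))
  ring

theorem Del_le : ∀ᶠ n : ℕ in atTop, ∀ᶠ ω in 𝓝[>] (0 : ℝ), ∀ z : ℂ, 1 ≤ z.re → z.re ≤ 4 →
    ‖Del n ω z‖ ≤ 6 * (z.re * (‖z‖ + ‖z‖⁻¹)) ^ (-mh n) := by
  refine Eventually.of_forall fun n => ?_
  filter_upwards [t1_small n 8, self_mem_nhdsWithin] with ω h3 hω z hz hz'
  have hω : 0 < ω := hω
  have hζ := t1_re_le hz
  have h0 := t1_star_pos hz
  have hs : 0 < z.re + z.re / ‖z‖ ^ 2 := by linarith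
  have h1 : z.re / ‖z‖ ^ 2 ≤ 4 := (div_le_self (by linarith) (one_le_pow₀ hζ)).trans hz'
  have h2 := (t1_gsum (m := n / 2) hω hs).trans (h3 _ hs (by linarith))
  refine (norm_sum_le_of_le _ fun k _ => t1_diag hω hz k).trans ?_
  rw [← Finset.mul_sum, ← Finset.mul_sum, show z.re * (‖z‖ + ‖z‖⁻¹) =
    ‖z‖ * (z.re + z.re / ‖z‖ ^ 2) by field_simp, Real.mul_rpow (norm_nonneg _) hs.le]
  calc _ ≤ 4 * ‖z‖ ^ (-mh n) * (1.2 * (z.re + z.re / ‖z‖ ^ 2) ^ (-mh n)) := by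
        refine mul_le_mul_of_nonneg_left (le_trans ?_ h2) (by positivity)
        gcongr
        exact (t1_summable hω hs).sum_le_tsum _ fun _ _ => Real.exp_nonneg _
    _ = 4.8 * (‖z‖ ^ (-mh n) * (z.re + z.re / ‖z‖ ^ 2) ^ (-mh n)) := by ring
    _ ≤ _ := by gcongr; norm_num

lemma t1_th_ext {n : ℕ} {ω β D c : ℝ} {W : Submodule ℝ (Ev (n / 2))} (hω : 0 < ω) (hβ : 0 < β)
    (h : Adm n ω W D 1) {k : Zv (n / 2)} (hk : iv k ∉ W) (hc : 1 ≤ c) (hc' : 1 ≤ β * c ^ 2) :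
    th ω (ext W k) β ≤ th ω W (β / 4) * (c * (1 + 1 / dk ω W k)) := by
  obtain ⟨G, rfl, -⟩ := h.gen
  refine (th_ext_le hω hβ G hk).trans ?_
  have h1 := dk_pos hω G hk
  have h2 := t1_th_nonneg ω (β / 4) (spanS G)
  have h3 : 0 < √β := Real.sqrt_pos.2 hβ
  have h4 : 1 ≤ √β * c := by
    rw [← Real.sqrt_sq (by linarith : 0 ≤ c), ← Real.sqrt_mul hβ.le]
    exact Real.one_le_sqrt.2 hc'
  rw [mul_add c, mul_one]
  refine mul_le_mul_of_nonneg_left (add_le_add hc ?_) h2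
  rw [mul_one_div, div_le_div_iff₀ (by positivity) h1]
  nlinarith

lemma t1_dk_pos {n lvl : ℕ} {ω D : ℝ} {W : Submodule ℝ (Ev (n / 2))} (hω : 0 < ω)
    (h : Adm n ω W D lvl) {k : Zv (n / 2)} (hk : iv k ∉ W) : 0 < dk ω W k := by
  obtain ⟨G, rfl, -⟩ := h.gen
  exact dk_pos hω G hk

/-- conditional mean of one fibre sum, crude form -/
theorem avg_FS_le : ∀ᶠ n : ℕ in atTop, ∀ ω : ℝ, 0 < ω →
    ∀ (W : Submodule ℝ (Ev (n / 2))) (D : ℝ) (H : Xs (n / 2) → ℝ), Adm n ω W D 1 → InvW W H →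
      ∀ β ∈ Set.Icc (1 / 4 : ℝ) 4, ∀ k : Zv (n / 2), iv k ∉ W →
      ∫ x, H x * FS (n % 2) ω (ft β) k x ∂PP (n / 2) ≤ (∫ x, H x ∂PP (n / 2)) *
        (D * En n ^ 3 * (1 + 1 / dk ω W k) *
          (ω ^ (n / 2) * β ^ (-mh n) * rexp (-π * β * (ω ^ 2 * ‖iv k‖ ^ 2)))) := by
  filter_upwards [t1_log, poly_le_En 6 0] with n hl h2 ω hω W D H h hH β ⟨b1, b2⟩ k hk
  have hβ : 0 < β := by linarith
  have hβ' : 0 < (β : ℂ).re := hβ
  have h1 := avg_one_le hH hk (t1_summable_right (r := n % 2) hω hβ' k)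
  simp only [← Fz_eq_tsum hω hβ', Fz_ofReal hω hβ, ← Complex.ofReal_mul, integral_complex_ofReal,
    Complex.norm_real] at h1
  refine (le_abs_self _).trans (h1.trans (mul_le_mul_of_nonneg_left ?_ (integral_nonneg hH.nonneg)))
  have hi : 0 < β⁻¹ := inv_pos.2 hβ
  have hi' : 1 / 4 ≤ β⁻¹ := by rw [← one_div]; exact one_div_le_one_div_of_le hβ b2
  refine (Real.le_norm_self _).trans ((tsum_of_norm_bounded (t1_hasSum_th hω hi (ext W k)
    (3 * (ω ^ (n / 2) * β ^ (-mh n)) * t1E ω β k)) fun η => ?_).trans ?_)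
  · split_ifs
    · have h3 := norm_Cp_le (r := n % 2) hω hβ' k η
      rw [t1_mh, Complex.norm_real, Complex.ofReal_re, Real.norm_of_nonneg hβ.le,
        show β / β ^ 2 = β⁻¹ by field_simp] at h3
      rw [norm_norm, mul_assoc]
      refine h3.trans ?_
      gcongr
      refine t1_pow_r n (by simp) ?_
      have : 1 / 2 ≤ √β := Real.le_sqrt_of_sq_le (by linarith)
      have := one_div_le_one_div_of_le one_half_pos this
      linarith
    · simp
  · have h3 := t1_th_ext hω hi h hk one_le_two (by linarith)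
    have h4 := t1_env' hl h (β := β⁻¹ / 4) (by linarith)
    have h5 := t1_dk_pos hω h hk
    have hD := h.one_le
    simp only [pow_zero, mul_one] at h2
    calc _ ≤ 3 * (ω ^ (n / 2) * β ^ (-mh n)) * t1E ω β k *
          (D * En n ^ 2 * (2 * (1 + 1 / dk ω W k))) := by
          gcongr
          exact h3.trans (by gcongr)
      _ = 6 * (D * En n ^ 2 * (1 + 1 / dk ω W k) * (ω ^ (n / 2) * β ^ (-mh n) * t1E ω β k)) := by
          ring
      _ ≤ En n * (D * En n ^ 2 * (1 + 1 / dk ω W k) *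
          (ω ^ (n / 2) * β ^ (-mh n) * t1E ω β k)) := by gcongr
      _ = _ := by ring

end Pool.Agent.Eps
end
end
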