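import Pool.Agent.Lib.MP_3bda03_nt.T3A
import Pool.Agent.Lib.MP_3bda03_nt.T1A

-- part Pool.Agent.Lib.MP_3bda03_nt.T3B
section

/-!
Crude bounds for the surviving quadruples and their rational parametrisation.
-/

set_option autoImplicit false

noncomputable section

open scoped BigOperators Classical Topology
open MeasureTheory Real Complex Filter

namespace Pool.Agent.Eps.T3

variable {m : ℕ}

/-- the linear relations of a surviving quadruple -/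
def Rel (W : Submodule ℝ (Ev m)) (q : Q4 m) : Prop :=
  ∃ a b c : ℝ, iv q.2.1 - a • iv q.1.1 - b • iv q.1.2 ∈ W ∧
    iv (-q.2.2) - b • iv q.1.1 - c • iv q.1.2 ∈ W

structure Ok (n : ℕ) (ω : ℝ) (W : Submodule ℝ (Ev (n / 2))) (q : Q4 (n / 2)) : Prop where
  h₁ : q.1.1 ∈ Kn n ω
  h₂ : iv q.1.1 ∉ W
  h₃ : q.1.2 ∈ Kn n ω
  h₄ : iv q.1.2 ∉ ext W q.1.1
  rel : Rel W q

theorem indep {W : Submodule ℝ (Ev m)} {k k' : Zv m} (hk : iv k ∉ W) (hk' : iv k' ∉ ext W k)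
    {u v : ℝ} (h : u • iv k + v • iv k' ∈ W) : u = 0 ∧ v = 0 := by
  have hv : v = 0 := by
    by_contra hv
    refine hk' ((Submodule.smul_mem_iff _ hv).1 ?_)
    simpa using sub_mem ((le_ext W k).1 h) (Submodule.smul_mem _ u (le_ext W k).2)
  rw [hv, zero_smul, add_zero] at h
  exact ⟨by_contra fun hu => hk ((Submodule.smul_mem_iff _ hu).1 h), hv⟩

theorem mem_ext₂ {W : Submodule ℝ (Ev m)} {k k' : Zv m} {y : Ev m} {a b : ℝ}
    (h : y - a • iv k - b • iv k' ∈ W) : y ∈ ext (ext W k) k' := by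
  have := add_mem (add_mem ((le_ext _ k').1 ((le_ext W k).1 h))
    (Submodule.smul_mem _ b (le_ext _ k').2))
    (Submodule.smul_mem _ a ((le_ext _ k').1 (le_ext W k).2))
  simpa using this

theorem crude_inner {ω σ σ' : ℝ} (hω : 0 < ω) (hσ : 0 < σ) (hσ' : 0 < σ') {W : Submodule ℝ (Ev m)}
    {k k' : Zv m} (hk : iv k ∉ W) (hk' : iv k' ∉ ext W k) (P : Finset (Zv m × Zv m))
    (hP : ∀ p ∈ P, Rel W ((k, k'), p)) :
    ∑ p ∈ P, rexp (-π * σ * (ω ^ 2 * ‖iv p.1‖ ^ 2)) * rexp (-π * σ' * (ω ^ 2 * ‖iv p.2‖ ^ 2)) ≤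
      th ω (ext W k) (σ / 4) * th ω (ext (ext W k) k') σ' := by
  refine (sum_le_fiber P Prod.snd _ (fun η' => th ω (ext W k) (σ / 4) *
    rexp (-π * σ' * (ω ^ 2 * ‖iv η'‖ ^ 2))) fun η' hη' => ?_).trans ?_
  · obtain ⟨p₀, hp₀, rfl⟩ := Finset.mem_image.1 hη'
    obtain ⟨h1, h2⟩ := shift_le hω hσ (ext W k) (iv p₀.1)
    refine le_trans (sum_le_of_inj _ (fun p => p.1 - p₀.1) (fun p hp p' hp' e => Prod.ext
      (sub_left_injective e) ?_) _ (fun κ => (if iv κ ∈ ext W k then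
        rexp (-π * σ * (ω ^ 2 * ‖iv κ + iv p₀.1‖ ^ 2)) else 0) *
        rexp (-π * σ' * (ω ^ 2 * ‖iv p₀.2‖ ^ 2))) fun p hp => le_of_eq ?_) ?_
    · rw [(Finset.mem_filter.1 hp).2, (Finset.mem_filter.1 hp').2]
    · obtain ⟨hp, e⟩ := Finset.mem_filter.1 hp
      obtain ⟨a, b, c, r1, r2⟩ := hP p hp
      obtain ⟨a₀, b₀, c₀, s1, s2⟩ := hP p₀ hp₀
      dsimp only at r1 r2 s1 s2
      rw [e] at r2
      have hb := (indep hk hk' (u := b - b₀) (v := c - c₀)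
        (by convert sub_mem s2 r2 using 1; module)).1
      obtain rfl := sub_eq_zero.1 hb
      rw [if_pos, ← iv_add, sub_add_cancel, e]
      have := add_mem ((le_ext W k).1 (sub_mem r1 s1)) (Submodule.smul_mem _ (a - a₀) (le_ext W k).2)
      rw [iv_sub]
      convert this using 1; module
    · rw [← Finset.sum_mul]
      refine mul_le_mul_of_nonneg_right ((h1.sum_le_tsum _ fun κ _ => ?_).trans h2) (Real.exp_pos _).le
      split_ifs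
      exacts [(Real.exp_pos _).le, le_rfl]
  · rw [← Finset.mul_sum]
    refine mul_le_mul_of_nonneg_left (sum_le_th hω hσ' _ _ ?_)
      (zero_le_one.trans (th_nonneg hω (by positivity) _))
    simp only [Finset.forall_mem_image]
    intro p hp
    obtain ⟨a, b, c, -, r2⟩ := hP p hp
    simpa [iv_neg] using mem_ext₂ r2

theorem Env_pos (n lvl : ℕ) (β : ℝ) : 1 ≤ Env n lvl β :=
  one_le_mul_of_one_le_of_one_le (one_le_pow₀ (one_le_En n)) (one_le_pow₀ (le_max_left _ _))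

theorem Env_le (n : ℕ) (σ : ℝ) : Env n 2 (σ / 4) ≤ Env n 3 σ := by
  rw [Env, Env, show (4 : ℝ) ^ 2 / (σ / 4 * Real.log n) = 4 ^ 3 / (σ * Real.log n) by ring]
  exact mul_le_mul (pow_le_pow_right₀ (one_le_En n) (by norm_num))
    (pow_le_pow_right₀ (le_max_left _ _) (by omega)) (by positivity)
    (pow_nonneg (zero_le_one.trans (one_le_En n)) _)

theorem one_le_x {n lvl : ℕ} {ω D : ℝ} (hω : 0 < ω) {W : Submodule ℝ (Ev (n / 2))}
    (h : Adm n ω W D lvl) {k : Zv (n / 2)} (hk : iv k ∉ W) : 1 ≤ 1 + 1 / dk ω W k := by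
  obtain ⟨G, rfl, -⟩ := h.gen
  have := dk_pos hω G hk
  exact le_add_of_nonneg_right (by positivity)

theorem young {x L : ℝ} (hx : 0 ≤ x) (hL : 0 < L) {i j : ℕ} (h : j + i = 4) :
    x ^ j ≤ L ^ j + x ^ 4 / L ^ i := by
  rcases le_total x L with h1 | h1
  · exact (pow_le_pow_left₀ hx h1 j).trans (le_add_of_nonneg_right (by positivity))
  · refine le_add_of_nonneg_of_le (by positivity) ?_
    rw [le_div_iff₀ (by positivity), ← h, pow_add]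
    gcongr

/-- the normalised Gaussian weight of one vector -/
def mu (n : ℕ) (ω β : ℝ) (k : Zv (n / 2)) : ℝ := ω ^ (n / 2) * rexp (-π * β * (ω ^ 2 * ‖iv k‖ ^ 2))

theorem neg_mh (n : ℕ) : -((n / 2 : ℕ) : ℝ) / 2 = -mh n := by rw [mh, neg_div]

theorem mh_nonneg (n : ℕ) : 0 ≤ mh n := by rw [mh]; positivity

theorem dk_sum : ∀ᶠ n : ℕ in atTop, ∀ᶠ ω in 𝓝[>] (0 : ℝ),
    ∀ (W : Submodule ℝ (Ev (n / 2))) (D : ℝ) (lvl : ℕ), lvl ≤ 2 → Adm n ω W D lvl →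
    ∀ β ∈ Set.Icc (1 : ℝ) 2, ∀ L : ℝ, 0 < L → D ≤ L ^ 4 → ∀ i j : ℕ, j + i = 4 → 1 ≤ i → 1 ≤ j →
    ∀ T : Finset (Zv (n / 2)), (∀ k ∈ T, k ∈ Kn n ω ∧ iv k ∉ W) →
      ∑ k ∈ T, mu n ω β k * (1 + 1 / dk ω W k) ^ j ≤ L ^ j * (3 * (n : ℝ) ^ 9 * β ^ (-mh n)) ∧
      ((∀ k ∈ T, dk ω W k < 1 / (n : ℝ) ^ 2) →
        ∑ k ∈ T, mu n ω β k * (1 + 1 / dk ω W k) ^ j ≤ L ^ j * (3 * rexp (-5 * n))) := by
  filter_upwards [tail_le, sum_dk_le, eventually_ge_atTop 1] with n h1 h2 hn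
  filter_upwards [h1, h2, small (n / 2) 2, self_mem_nhdsWithin] with ω h1 h2 h3 (hω : 0 < ω)
  intro W D lvl hl hW β ⟨hβ, hβ'⟩ L hL hD i j hij hi hj T hT
  have hn' : (1 : ℝ) ≤ n := by exact_mod_cast hn
  have hμ : ∀ k, 0 ≤ mu n ω β k := fun k => by rw [mu]; positivity
  have hM : ∑ k ∈ T, mu n ω β k ≤ 1.2 * β ^ (-mh n) := by
    rw [← neg_mh]
    refine le_trans ?_ (h3 β (by positivity) hβ')
    rw [← scale hω (by positivity)]
    simp only [mu, ← Finset.mul_sum]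
    refine mul_le_mul_of_nonneg_left (le_trans (le_of_eq ?_)
      (sum_gauss_le (s := ω ^ 2 * β) (by positivity) 0 T)) (by positivity)
    exact Finset.sum_congr rfl fun k _ => by rw [add_zero]; congr 1; ring
  have key : ∀ l B : ℝ, 0 < l → ∑ k ∈ T, mu n ω β k * (1 + 1 / dk ω W k) ^ 4 ≤ B →
      ∑ k ∈ T, mu n ω β k * (1 + 1 / dk ω W k) ^ j ≤ l ^ j * (1.2 * β ^ (-mh n)) + B / l ^ i := by
    intro l B hl hB
    refine (Finset.sum_le_sum fun k hk => mul_le_mul_of_nonneg_left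
      (young (zero_le_one.trans (one_le_x hω hW (hT k hk).2)) hl hij) (hμ k)).trans ?_
    simp only [mul_add, Finset.sum_add_distrib, ← mul_div_assoc, ← Finset.sum_div, ← Finset.sum_mul]
    rw [mul_comm]
    gcongr
  have hL' : D / L ^ i ≤ L ^ j := by rw [div_le_iff₀ (by positivity), ← pow_add, hij]; exact hD
  have hb : 0 < β ^ (-mh n) := by positivity
  refine ⟨(key L (D * (n : ℝ) ^ 9 * β ^ (-mh n)) hL (le_trans ?_
    (h2 W D lvl hl hW β ⟨by linarith, by linarith⟩ 4 le_rfl))).trans ?_, fun hbad =>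
    (key (L * rexp (-5 * n)) (D * rexp (-20 * n)) (by positivity)
      (le_trans ?_ (h1 W D lvl hl hW))).trans ?_⟩
  · simp only [mu, mul_assoc (ω ^ (n / 2)), ← Finset.mul_sum]
    refine mul_le_mul_of_nonneg_left (Finset.sum_le_sum_of_subset_of_nonneg
      (fun k hk => Finset.mem_filter.2 (hT k hk)) fun k _ _ => by positivity) (by positivity)
  · have a1 : (1 : ℝ) ≤ (n : ℝ) ^ 9 := one_le_pow₀ hn'
    have a2 := mul_le_mul_of_nonneg_right hL' (show 0 ≤ (n : ℝ) ^ 9 * β ^ (-mh n) by positivity)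
    have a3 := mul_le_mul_of_nonneg_right a1 (show 0 ≤ L ^ j * β ^ (-mh n) by positivity)
    have a4 : 0 ≤ L ^ j * β ^ (-mh n) := by positivity
    rw [show D * (n : ℝ) ^ 9 * β ^ (-mh n) / L ^ i = D / L ^ i * ((n : ℝ) ^ 9 * β ^ (-mh n)) by ring]
    linarith
  · rw [Finset.mul_sum]
    refine le_trans (Finset.sum_le_sum fun k _ => ?_) (Finset.sum_le_sum_of_subset_of_nonneg
      (fun k hk => Finset.mem_filter.2 ⟨(hT k hk).1, (hT k hk).2, hbad k hk⟩)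
      fun k _ _ => by positivity)
    refine mul_le_mul_of_nonneg_right (mul_le_of_le_one_right (by positivity)
      (Real.exp_le_one_iff.2 ?_)) (by positivity)
    have : 0 ≤ π * β * (ω ^ 2 * ‖iv k‖ ^ 2) := by positivity
    linarith
  · have a1 : β ^ (-mh n) ≤ 1 := Real.rpow_le_one_of_one_le_of_nonpos hβ (by linarith [mh_nonneg n])
    have a2 : rexp (-5 * n) ^ j ≤ rexp (-5 * n) :=
      pow_le_of_le_one (Real.exp_pos _).le (Real.exp_le_one_iff.2 (by linarith)) (by omega)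
    have a3 : rexp (-20 * n) / rexp (-5 * n) ^ i ≤ rexp (-5 * n) := by
      have : (i : ℝ) ≤ 3 := by exact_mod_cast (by omega : i ≤ 3)
      rw [← Real.exp_nat_mul, ← Real.exp_sub, Real.exp_le_exp]
      nlinarith
    have a4 := mul_le_mul hL' a3 (by positivity) (by positivity)
    have a5 := mul_le_mul_of_nonneg_left (mul_le_mul a2 a1 hb.le (Real.exp_pos _).le)
      (show 0 ≤ L ^ j by positivity)
    have a6 : 0 ≤ L ^ j * rexp (-5 * n) := by positivity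
    rw [mul_pow, mul_pow, mul_div_mul_comm]
    linarith

theorem crude : ∀ᶠ n : ℕ in atTop, ∀ᶠ ω in 𝓝[>] (0 : ℝ),
    ∀ (W : Submodule ℝ (Ev (n / 2))) (D : ℝ), Adm n ω W D 1 →
    ∀ τ ∈ Set.Icc (1 : ℝ) 2, ∀ τ' ∈ Set.Icc (1 : ℝ) 2, ∀ σ σ' : ℝ, 0 < σ → 0 < σ' →
    ∀ F : Finset (Q4 (n / 2)), (∀ q ∈ F, Ok n ω W q) →
      ω ^ (2 * (n / 2)) * ∑ q ∈ F, gw ω τ τ' σ σ' q ≤ D ^ 3 * (Env n 3 σ * Env n 3 σ') *
        (9 * (n : ℝ) ^ 18 * (τ * τ') ^ (-mh n)) ∧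
      ((∀ q ∈ F, dk ω W q.1.1 < 1 / (n : ℝ) ^ 2) ∨
        (∀ q ∈ F, dk ω (ext W q.1.1) q.1.2 < 1 / (n : ℝ) ^ 2) →
        ω ^ (2 * (n / 2)) * ∑ q ∈ F, gw ω τ τ' σ σ' q ≤ D ^ 3 * (Env n 3 σ * Env n 3 σ') *
          (9 * (n : ℝ) ^ 9 * rexp (-5 * n))) := by
  filter_upwards [dk_sum, adm_ext] with n h1 h2
  filter_upwards [h1, self_mem_nhdsWithin] with ω h1 (hω : 0 < ω)
  intro W D hW τ hτ τ' hτ' σ σ' hσ hσ' F hF
  have hD := hW.one_le
  obtain ⟨l, hl, rfl⟩ : ∃ l : ℝ, 1 ≤ l ∧ D = l ^ 4 := ⟨√√D, Real.one_le_sqrt.2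
    (Real.one_le_sqrt.2 hD), by
      rw [show 4 = 2 * 2 by rfl, pow_mul, Real.sq_sqrt (Real.sqrt_nonneg _),
        Real.sq_sqrt (by linarith)]⟩
  have hE := Env_pos n 3 σ
  have hE' := Env_pos n 3 σ'
  let T := F.image Prod.fst
  have hT : ∀ k ∈ T, (k.1 ∈ Kn n ω ∧ iv k.1 ∉ W) ∧ k.2 ∈ Kn n ω ∧ iv k.2 ∉ ext W k.1 := by
    simp only [T, Finset.forall_mem_image]
    exact fun q hq => ⟨⟨(hF q hq).h₁, (hF q hq).h₂⟩, (hF q hq).h₃, (hF q hq).h₄⟩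
  have hμ : ∀ β k, 0 ≤ mu n ω β k := fun β k => by rw [mu]; positivity
  have b1 : ω ^ (2 * (n / 2)) * ∑ q ∈ F, gw ω τ τ' σ σ' q ≤
      (l ^ 4) ^ 2 * (Env n 3 σ * Env n 3 σ') * ∑ k ∈ T, mu n ω τ k.1 * (1 + 1 / dk ω W k.1) ^ 2 *
        (mu n ω τ' k.2 * (1 + 1 / dk ω (ext W k.1) k.2) ^ 1) := by
    rw [Finset.mul_sum, Finset.mul_sum]
    refine sum_le_fiber F Prod.fst _ _ fun k hk => ?_
    obtain ⟨⟨a1, a2⟩, a3, a4⟩ := hT k hk
    have a5 := h2 ω hω W _ 1 _ hW a1 a2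
    have a6 := h2 ω hω _ _ 2 _ a5 a3 a4
    have a7 := one_le_x hω hW a2
    refine (sum_le_of_inj _ Prod.snd (fun q hq q' hq' e => Prod.ext ?_ e) _
      (fun p => mu n ω τ k.1 * mu n ω τ' k.2 * (rexp (-π * σ * (ω ^ 2 * ‖iv p.1‖ ^ 2)) *
        rexp (-π * σ' * (ω ^ 2 * ‖iv p.2‖ ^ 2)))) fun q hq => le_of_eq ?_).trans ?_
    · rw [(Finset.mem_filter.1 hq).2, (Finset.mem_filter.1 hq').2]
    · obtain rfl := (Finset.mem_filter.1 hq).2
      rw [gw, qf, mu, mu, mul_mul_mul_comm (ω ^ (n / 2)), ← pow_add, ← two_mul,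
        mul_assoc (ω ^ (2 * (n / 2))),
        ← Real.exp_add, ← Real.exp_add, ← Real.exp_add]
      congr 2; ring
    · rw [← Finset.mul_sum]
      refine (mul_le_mul_of_nonneg_left ((crude_inner hω hσ hσ' a2 a4 _ ?_).trans (mul_le_mul
        ((a5.th_le _ (by positivity)).trans (mul_le_mul_of_nonneg_left (Env_le n σ) (by positivity)))
        (a6.th_le _ hσ') (zero_le_one.trans (th_nonneg hω hσ' _)) (by positivity)))
        (mul_nonneg (hμ _ _) (hμ _ _))).trans_eq (by ring)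
      simp only [Finset.forall_mem_image]
      intro q hq
      obtain ⟨hq', rfl⟩ := Finset.mem_filter.1 hq
      exact (hF q hq').rel
  have key : ∀ I O : ℝ, 0 ≤ I → (∀ k ∈ T.image Prod.fst,
      ∑ k' ∈ (T.filter fun a => a.1 = k).image Prod.snd,
        mu n ω τ' k' * (1 + 1 / dk ω (ext W k) k') ^ 1 ≤ (l * (1 + 1 / dk ω W k)) ^ 1 * I) →
      ∑ k ∈ T.image Prod.fst, mu n ω τ k * (1 + 1 / dk ω W k) ^ 3 ≤ l ^ 3 * O →
      ω ^ (2 * (n / 2)) * ∑ q ∈ F, gw ω τ τ' σ σ' q ≤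
        (l ^ 4) ^ 3 * (Env n 3 σ * Env n 3 σ') * (O * I) := by
    intro I O hI h3 h4
    refine b1.trans ((mul_le_mul_of_nonneg_left ((sum_le_fiber T Prod.fst _
      (fun k => l * I * (mu n ω τ k * (1 + 1 / dk ω W k) ^ 3)) fun k hk => ?_).trans
      ((Finset.mul_sum _ _ _).symm.le.trans (mul_le_mul_of_nonneg_left h4 (by positivity))))
      (by positivity)).trans_eq (by ring))
    refine (sum_le_of_inj _ Prod.snd (fun q hq q' hq' e => Prod.ext ?_ e) _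
      (fun k' => mu n ω τ k * (1 + 1 / dk ω W k) ^ 2 *
        (mu n ω τ' k' * (1 + 1 / dk ω (ext W k) k') ^ 1)) fun q hq => le_of_eq ?_).trans ?_
    · rw [(Finset.mem_filter.1 hq).2, (Finset.mem_filter.1 hq').2]
    · rw [(Finset.mem_filter.1 hq).2]
    · rw [← Finset.mul_sum]
      exact (mul_le_mul_of_nonneg_left (h3 k hk) (mul_nonneg (hμ _ _) (sq_nonneg _))).trans_eq
        (by ring)
  have hT1 : ∀ k ∈ T.image Prod.fst, k ∈ Kn n ω ∧ iv k ∉ W := by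
    simp only [Finset.forall_mem_image]
    exact fun k hk => (hT k hk).1
  have o := h1 W _ 1 (by norm_num) hW τ hτ l (by positivity) le_rfl 1 3 rfl le_rfl (by norm_num) _ hT1
  have i := fun k (hk : k ∈ T.image Prod.fst) => h1 _ _ 2 le_rfl
    (h2 ω hω W _ 1 _ hW (hT1 k hk).1 (hT1 k hk).2) τ' hτ' (l * (1 + 1 / dk ω W k))
    (by have := one_le_x hω hW (hT1 k hk).2; positivity)
    (by
      rw [mul_pow]
      exact mul_le_mul_of_nonneg_left (le_self_pow₀ (one_le_x hω hW (hT1 k hk).2) (by norm_num))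
        (by positivity)) 3 1 rfl (by norm_num) le_rfl
    ((T.filter fun a => a.1 = k).image Prod.snd) (by
      simp only [Finset.forall_mem_image]
      intro a ha
      obtain ⟨ha', rfl⟩ := Finset.mem_filter.1 ha
      exact (hT a ha').2)
  have c1 : τ ^ (-mh n) ≤ 1 := Real.rpow_le_one_of_one_le_of_nonpos hτ.1 (by linarith [mh_nonneg n])
  have c2 : τ' ^ (-mh n) ≤ 1 :=
    Real.rpow_le_one_of_one_le_of_nonpos hτ'.1 (by linarith [mh_nonneg n])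
  have c3 : 0 < τ := zero_lt_one.trans_le hτ.1
  have c4 : 0 < τ' := zero_lt_one.trans_le hτ'.1
  refine ⟨(key _ _ (by positivity) (fun k hk => (i k hk).1) o.1).trans_eq ?_, ?_⟩
  · rw [Real.mul_rpow c3.le c4.le]; ring
  rintro (h | h)
  · refine (key _ _ (by positivity) (fun k hk => (i k hk).1) (o.2 ?_)).trans
      (mul_le_mul_of_nonneg_left ?_ (by positivity))
    · simpa only [T, Finset.forall_mem_image] using h
    · have := mul_le_mul_of_nonneg_left c2 (show 0 ≤ (n : ℝ) ^ 9 * rexp (-5 * n) by positivity)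
      linarith
  · refine (key _ _ (by positivity) (fun k hk => (i k hk).2 ?_) o.1).trans
      (mul_le_mul_of_nonneg_left ?_ (by positivity))
    · simp only [Finset.forall_mem_image]
      intro a ha
      obtain ⟨ha', rfl⟩ := Finset.mem_filter.1 ha
      obtain ⟨q, hq, rfl⟩ := Finset.mem_image.1 ha'
      exact h q hq
    · have := mul_le_mul_of_nonneg_left c1 (show 0 ≤ (n : ℝ) ^ 9 * rexp (-5 * n) by positivity)
      linarith

/-! ### rational parametrisation -/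

theorem le_of_dk {x d B N : ℝ} (hN : 0 < N) (hx : 0 ≤ x) (h : 1 / N ^ 2 ≤ d) (h' : x * d ≤ B) :
    x ≤ B * N ^ 2 := by
  rw [← div_le_iff₀ (by positivity), ← mul_one_div]
  exact (mul_le_mul_of_nonneg_left h hx).trans h'

theorem ratio₂ {ω N : ℝ} (hω : 0 < ω) (hN : 0 < N) (G : Finset (Zv m)) {k k' η : Zv m}
    (hk : iv k ∉ spanS G) (hk' : iv k' ∉ ext (spanS G) k) (h₁ : 1 / N ^ 2 ≤ dk ω (spanS G) k)
    (h₂ : 1 / N ^ 2 ≤ dk ω (ext (spanS G) k) k') (b₁ : ω * ‖iv k‖ ≤ N) (b₂ : ω * ‖iv k'‖ ≤ N)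
    (b₃ : ω * ‖iv η‖ ≤ N) {a b : ℝ} (h : iv η - a • iv k - b • iv k' ∈ spanS G) :
    ∃ q u v : ℤ, 0 < q ∧ (q : ℝ) ≤ N ^ 6 ∧ |(u : ℝ)| ≤ 2 * N ^ 6 ∧ |(v : ℝ)| ≤ N ^ 6 ∧
      q * a = u ∧ q * b = v := by
  have a0 := exists_ratio (k := k') (η := η) hω (insert k G)
  rw [spanS_insert] at a0
  obtain ⟨p, q, hq, -, a1, a2, a3⟩ := a0 hk' (mem_ext₂ h)
  obtain ⟨p', q', hq', -, c1, c2, c3⟩ := exists_ratio hω G hk a1
  have hq0 : (0 : ℝ) < q := by exact_mod_cast hq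
  have hq0' : (0 : ℝ) < q' := by exact_mod_cast hq'
  have d1 := le_of_dk hN hq0.le h₂ (a2.trans b₂)
  have d2 := le_of_dk hN (abs_nonneg _) h₂ (a3.trans b₃)
  have d3 := le_of_dk hN hq0'.le h₁ (c2.trans b₁)
  have d4 : ω * ‖iv (q • η - p • k')‖ ≤ 2 * N ^ 4 := by
    rw [iv_sub, iv_zsmul, iv_zsmul]
    refine (mul_le_mul_of_nonneg_left (norm_sub_le _ _) hω.le).trans ?_
    rw [norm_smul, norm_smul, Real.norm_eq_abs, Real.norm_eq_abs, abs_of_pos hq0]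
    have e1 := mul_le_mul d1 b₃ (by positivity) (by positivity)
    have e2 := mul_le_mul d2 b₂ (by positivity) (by positivity)
    linarith
  have d5 := le_of_dk hN (abs_nonneg _) h₁ (c3.trans d4)
  simp only [iv_sub, iv_zsmul] at c1
  obtain ⟨e1, e2⟩ := indep hk hk' (u := p' - q' * q * a) (v := q' * p - q' * q * b)
    (by convert sub_mem (Submodule.smul_mem _ ((q' : ℝ) * q) h) c1 using 1; module)
  refine ⟨q' * q, p', q' * p, mul_pos hq' hq, ?_, by linarith, ?_, ?_, ?_⟩ <;> push_cast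
  · linarith [mul_le_mul d3 d1 hq0.le (by positivity)]
  · rw [abs_mul, abs_of_pos hq0']
    linarith [mul_le_mul d3 d2 (abs_nonneg _) (by positivity)]
  · linarith
  · linarith

theorem exists_gcd {d₀ : ℤ} (hd : 0 < d₀) (h₀ p₀ h₀' : ℤ) : ∃ (g : ℤ) (d : ℕ) (h p h' a b c e : ℤ),
    0 < g ∧ d₀ = g * d ∧ h₀ = g * h ∧ p₀ = g * p ∧ h₀' = g * h' ∧
      a * d + b * h + c * p + e * h' = 1 := by
  have key : ∀ x y : ℤ, ∃ g a b : ℤ, 0 ≤ g ∧ g ∣ x ∧ g ∣ y ∧ g = x * a + y * b := fun x y =>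
    ⟨Int.gcd x y, _, _, Int.natCast_nonneg _, Int.gcd_dvd_left _ _, Int.gcd_dvd_right _ _,
      Int.gcd_eq_gcd_ab x y⟩
  obtain ⟨g₁, x₁, y₁, -, a1, a2, a3⟩ := key d₀ h₀
  obtain ⟨g₂, x₂, y₂, -, b1, b2, b3⟩ := key g₁ p₀
  obtain ⟨g, x₃, y₃, hg, c1, ⟨h', rfl⟩, c3⟩ := key g₂ h₀'
  obtain ⟨p, rfl⟩ := c1.trans b2
  obtain ⟨h, rfl⟩ := (c1.trans b1).trans a2
  obtain ⟨d, rfl⟩ := (c1.trans b1).trans a1
  have hg' : 0 < g := hg.lt_of_ne (by rintro rfl; simp at hd)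
  lift d to ℕ using ((mul_pos_iff_of_pos_left hg').1 hd).le
  exact ⟨g, d, h, p, h', x₁ * x₂ * x₃, y₁ * x₂ * x₃, y₂ * x₃, y₃, hg', rfl, rfl, rfl, rfl,
    mul_left_cancel₀ hg'.ne' (by linear_combination (-1 : ℤ) * c3 - x₃ * b3 - x₂ * x₃ * a3)⟩

theorem exists_par {n : ℕ} {ω : ℝ} (hω : 0 < ω) (hn : 1 ≤ n) (G : Finset (Zv (n / 2)))
    {q : Q4 (n / 2)} (hq : Ok n ω (spanS G) q) (h₁ : 1 / (n : ℝ) ^ 2 ≤ dk ω (spanS G) q.1.1)
    (h₂ : 1 / (n : ℝ) ^ 2 ≤ dk ω (ext (spanS G) q.1.1) q.1.2) (b₃ : ω * ‖iv q.2.1‖ ≤ n)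
    (b₄ : ω * ‖iv q.2.2‖ ≤ n) : ∃ (d : ℕ) (h p h' : ℤ), 1 ≤ d ∧ d ≤ 2 * n ^ 12 ∧
      |h| ≤ 2 * n ^ 12 ∧ |p| ≤ 2 * n ^ 12 ∧ |h'| ≤ 2 * n ^ 12 ∧
      (∃ a b c e : ℤ, a * d + b * h + c * p + e * h' = 1) ∧
      iv (ka d h p q) ∈ spanS G ∧ iv (kb d p h' q) ∈ spanS G := by
  have hN : (0 : ℝ) < n := by exact_mod_cast hn
  obtain ⟨a, b, c, r1, r2⟩ := hq.rel
  have b₁ := ((mem_Kn hω _).1 hq.h₁).2
  have b₂ := ((mem_Kn hω _).1 hq.h₃).2
  obtain ⟨s, u, v, hs, a1, a2, a3, a4, a5⟩ := ratio₂ hω hN G hq.h₂ hq.h₄ h₁ h₂ b₁ b₂ b₃ r1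
  obtain ⟨s', u', v', hs', c1, -, c3, -, c5⟩ := ratio₂ hω hN G hq.h₂ hq.h₄ h₁ h₂ b₁ b₂
    (by rwa [iv_neg, norm_neg]) r2
  obtain ⟨g, d, h, p, h', x, y, z, w, hg, e1, e2, e3, e4, e5⟩ :=
    exists_gcd (mul_pos hs hs') (u * s') (v * s') (-v' * s)
  have hs0 : (0 : ℝ) < s := by exact_mod_cast hs
  have hs0' : (0 : ℝ) < s' := by exact_mod_cast hs'
  have hg1 : (1 : ℝ) ≤ g := by exact_mod_cast hg
  have key : ∀ x y t : ℤ, x * y = g * t → |(x : ℝ)| ≤ 2 * (n : ℝ) ^ 6 → 0 < (y : ℝ) →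
      (y : ℝ) ≤ (n : ℝ) ^ 6 → |t| ≤ 2 * n ^ 12 := by
    intro x y t e f1 f2 f3
    have f4 : |(x : ℝ)| * y = g * |(t : ℝ)| := by
      rw [← abs_of_pos f2, ← abs_mul, ← abs_of_pos (zero_lt_one.trans_le hg1), ← abs_mul]
      exact_mod_cast congrArg abs e
    have f5 := mul_le_mul f1 f3 f2.le (by positivity)
    have f6 := mul_le_mul_of_nonneg_right hg1 (abs_nonneg (t : ℝ))
    have : |(t : ℝ)| ≤ 2 * (n : ℝ) ^ 12 := by linarith
    exact_mod_cast this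
  have f0 : (n : ℝ) ^ 6 ≤ 2 * (n : ℝ) ^ 6 := by linarith [pow_pos hN 6]
  have hd : 0 < (d : ℤ) := (mul_pos_iff_of_pos_left hg).1 (e1 ▸ mul_pos hs hs')
  have g1 : (s : ℝ) * s' = g * d := by exact_mod_cast e1
  have g2 : (u : ℝ) * s' = g * h := by exact_mod_cast e2
  have g3 : (v : ℝ) * s' = g * p := by exact_mod_cast e3
  have g4 : -(v' : ℝ) * s = g * h' := by exact_mod_cast e4
  have hg0 : (g : ℝ) ≠ 0 := by positivity
  have k1 : (h : ℝ) = d * a := mul_left_cancel₀ hg0 (by linear_combination a * g1 - g2 - s' * a4)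
  have k2 : (p : ℝ) = d * b := mul_left_cancel₀ hg0 (by linear_combination b * g1 - g3 - s' * a5)
  have k3 : (h' : ℝ) = -(d * c) :=
    mul_left_cancel₀ hg0 (by linear_combination (-c) * g1 - g4 + s * c5)
  refine ⟨d, h, p, h', by exact_mod_cast hd, ?_, key _ _ _ e2 a2 hs0' c1,
    key _ _ _ e3 (a3.trans f0) hs0' c1,
    key _ _ _ e4 (by rw [Int.cast_neg, abs_neg]; exact c3.trans f0) hs0 a1, ⟨x, y, z, w, e5⟩, ?_, ?_⟩
  · have := key _ _ _ e1 (by rw [abs_of_pos hs0]; exact a1.trans f0) hs0' c1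
    rw [abs_of_pos hd] at this
    exact_mod_cast this
  · simp only [ka, iv_sub, iv_zsmul, k1, k2, Int.cast_natCast]
    convert Submodule.smul_mem _ (d : ℝ) r1 using 1; module
  · simp only [kb, iv_sub, iv_add, iv_zsmul, k2, k3, Int.cast_natCast]
    rw [iv_neg] at r2
    convert Submodule.smul_mem _ (-d : ℝ) r2 using 1; module

end Pool.Agent.Eps.T3
end
end

-- part Pool.Agent.Lib.MP_3bda03_nt.T3C
section

/-!
Numerical inequalities and the bound for one arithmetic class.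
-/

set_option autoImplicit false

noncomputable section

open scoped BigOperators Classical Topology
open MeasureTheory Real Complex Filter

namespace Pool.Agent.Eps.T3

variable {m : ℕ}

/-- real part and modulus of an admissible parameter -/
structure Pa (τ ζ : ℝ) : Prop where
  h₁ : 1 ≤ τ
  h₂ : τ ≤ 1.55
  h₃ : τ ≤ ζ
  h₄ : τ ≤ 1.38 → ζ = τ

theorem Adz.pa {z : ℂ} (h : Adz z) : Pa z.re ‖z‖ := by
  have h3 := Complex.re_le_norm z
  rcases h with ⟨h0, h1, h2⟩ | h | h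
  · exact ⟨h1, by linarith, h3, fun _ => by
      rw [← Complex.abs_re_eq_norm.2 h0, abs_of_nonneg (by linarith)]⟩
  · exact ⟨by rw [h]; norm_num, by rw [h]; norm_num, h3, fun h' => by rw [h] at h'; norm_num at h'⟩
  · exact ⟨by rw [h]; norm_num, h.le, h3, fun h' => by rw [h] at h'; norm_num at h'⟩

theorem Pa.pos {τ ζ : ℝ} (h : Pa τ ζ) : 0 < τ ∧ 1 ≤ ζ ∧ 0 < ζ ∧ τ / ζ ^ 2 ≤ 1 ∧
    1 / ζ ^ 2 ≤ τ / ζ ^ 2 ∧ (ζ ≤ 5 → 1 / 25 ≤ τ / ζ ^ 2) := by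
  obtain ⟨h1, -, h3, -⟩ := h
  have : 0 < ζ := by linarith
  refine ⟨by linarith, by linarith, this, (div_le_one (by positivity)).2 (by nlinarith),
    by gcongr, fun h => ?_⟩
  rw [div_le_div_iff₀ (by norm_num) (by positivity)]
  nlinarith

theorem Lz_mem (τ : ℝ) : 1 ≤ Lz τ ∧ Lz τ ≤ 1.0095 := by
  rw [Lz]; split_ifs <;> norm_num

theorem inv_e : 0.3678 ≤ (rexp 1)⁻¹ := by
  rw [le_inv_comm₀ (by norm_num) (Real.exp_pos 1)]
  exact Real.exp_one_lt_d9.le.trans (by norm_num)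

theorem prod_ineq {τ ζ : ℝ} (h : Pa τ ζ) : 2 * Lz τ * τ ≤ ζ * (τ + τ / ζ ^ 2) ∧
    2.34 * Lz τ * τ ≤ ζ * ((τ + τ / ζ ^ 2) * (1 + τ * (τ / ζ ^ 2) / (τ + τ / ζ ^ 2) / rexp 1)) := by
  obtain ⟨a1, a2, a3, -⟩ := h.pos
  have he := inv_e
  rw [div_eq_mul_inv _ (rexp 1)]
  generalize (rexp 1)⁻¹ = ε at he
  rw [show ζ * (τ + τ / ζ ^ 2) = (ζ ^ 2 + 1) / ζ * τ by field_simp,
    show ζ * ((τ + τ / ζ ^ 2) * (1 + τ * (τ / ζ ^ 2) / (τ + τ / ζ ^ 2) * ε)) =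
      (ζ ^ 2 + 1 + τ * ε) / ζ * τ by field_simp]
  constructor <;> refine mul_le_mul_of_nonneg_right ((le_div_iff₀ a3).2 ?_) a1.le <;> rw [Lz] <;>
    split_ifs with h5
  · nlinarith [sq_nonneg (ζ - 1)]
  · nlinarith [h.h₃]
  · rw [h.h₄ h5]; nlinarith [sq_nonneg (τ - 1)]
  · nlinarith [sq_nonneg (ζ - 1.2)]

theorem mir_ineq {τ ζ τ' ζ' : ℝ} (h : Pa τ ζ) (h' : Pa τ' ζ') :
    4.68 * (Lz τ * Lz τ') * (τ * τ') ≤ ζ * ζ' * ((τ + τ' / ζ' ^ 2) * (τ' + τ / ζ ^ 2)) *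
      (1 + τ * (τ' / ζ' ^ 2) / (τ + τ' / ζ' ^ 2) / rexp 1) := by
  obtain ⟨a1, a2, a3, -⟩ := h.pos
  obtain ⟨b1, b2, b3, -⟩ := h'.pos
  have he := inv_e
  rw [div_eq_mul_inv _ (rexp 1)]
  generalize (rexp 1)⁻¹ = ε at he
  rw [show ζ * ζ' * ((τ + τ' / ζ' ^ 2) * (τ' + τ / ζ ^ 2)) *
      (1 + τ * (τ' / ζ' ^ 2) / (τ + τ' / ζ' ^ 2) * ε) = ((τ * ζ' - τ' * ζ) ^ 2 + τ * τ' *
        ((ζ * ζ') ^ 2 + 2 * (ζ * ζ') + 1 + ε * (τ' * ζ ^ 2 + τ))) / (ζ * ζ') by field_simp; ring,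
    le_div_iff₀ (by positivity), mul_right_comm, mul_comm]
  refine le_add_of_nonneg_of_le (sq_nonneg _) (mul_le_mul_of_nonneg_left ?_ (by positivity))
  have c1 := h.h₁
  have c2 := h'.h₁
  have c3 := h.h₃
  have hP : 0 < ζ * ζ' := by positivity
  by_cases h1 : τ ≤ 1.38
  · by_cases h2 : τ' ≤ 1.38
    · have : ζ * ζ' + 1 ≤ τ' * ζ ^ 2 + τ := by rw [← h'.h₄ h2]; nlinarith
      rw [Lz, Lz, if_pos h1, if_pos h2]
      nlinarith [sq_nonneg (ζ * ζ' - 1.16), mul_le_mul he this (by positivity) (by linarith)]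
    · have : 2.38 ≤ τ' * ζ ^ 2 + τ := by nlinarith
      rw [Lz, Lz, if_pos h1, if_neg h2]
      nlinarith [sq_nonneg (ζ * ζ' - 1.36), mul_le_mul he this (by positivity) (by linarith)]
  · have : 3.28 ≤ τ' * ζ ^ 2 + τ := by nlinarith
    have h3 := mul_le_mul (Lz_mem τ).2 (Lz_mem τ').2 (by linarith [(Lz_mem τ').1]) (by norm_num)
    nlinarith [sq_nonneg (ζ * ζ' - 1.38), mul_le_mul he this (by positivity) (by linarith)]

theorem Y_low {x y : ℝ} (hx : 1 ≤ x) (hy : 1 ≤ y) {d h p h' : ℤ} (hd : 1 ≤ d)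
    (h₁ : ¬(h = 0 ∧ p = 0)) (h₂ : ¬(p = 0 ∧ h' = 0))
    (h₃ : ¬(d = 1 ∧ p = 0 ∧ h ^ 2 = 1 ∧ h' ^ 2 = 1)) (h₄ : ¬(d = 1 ∧ h = 0 ∧ h' = 0 ∧ p ^ 2 = 1)) :
    4.8 ≤ (d : ℝ) ^ 2 * (x * y) + 2 * (p : ℝ) ^ 2 + (h' : ℝ) ^ 2 * (x / y) + (h : ℝ) ^ 2 * (y / x) +
      ((h : ℝ) * h' + (p : ℝ) ^ 2) ^ 2 / ((d : ℝ) ^ 2 * (x * y)) := by
  have hP : 1 ≤ x * y := one_le_mul_of_one_le_of_one_le hx hy
  have sq : ∀ a : ℤ, a ≠ 0 → 1 ≤ a ^ 2 := fun a ha => by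
    have := Int.one_le_abs ha
    nlinarith [sq_abs a]
  have sq2 : ∀ a : ℤ, a ^ 2 ≠ 1 → a ≠ 0 → 2 ≤ |a| := fun a h1 h2 => by
    have := Int.one_le_abs h2
    by_contra h3
    exact h1 (by rw [← sq_abs, show |a| = 1 by omega, one_pow])
  by_cases hc : 5 ≤ d ^ 2 + 2 * p ^ 2 + 2 * (|h| * |h'|)
  · have a1 : (5 : ℝ) ≤ (d : ℝ) ^ 2 + 2 * (p : ℝ) ^ 2 + 2 * (|(h : ℝ)| * |(h' : ℝ)|) := by
      exact_mod_cast hc
    have a2 : 2 * (|(h : ℝ)| * |(h' : ℝ)|) ≤ (h' : ℝ) ^ 2 * (x / y) + (h : ℝ) ^ 2 * (y / x) := by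
      rw [← sq_abs (h : ℝ), ← sq_abs (h' : ℝ), ← sub_nonneg,
        show |(h' : ℝ)| ^ 2 * (x / y) + |(h : ℝ)| ^ 2 * (y / x) - 2 * (|(h : ℝ)| * |(h' : ℝ)|) =
          (|(h' : ℝ)| * x - |(h : ℝ)| * y) ^ 2 / (x * y) by field_simp; ring]
      positivity
    have a3 : 0 ≤ ((h : ℝ) * h' + (p : ℝ) ^ 2) ^ 2 / ((d : ℝ) ^ 2 * (x * y)) := by positivity
    nlinarith [mul_le_mul_of_nonneg_left hP (sq_nonneg (d : ℝ))]
  · have b0 := mul_nonneg (abs_nonneg h) (abs_nonneg h')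
    have hp : p ≠ 0 := by
      rintro rfl
      have c1 : h ≠ 0 := fun e => h₁ ⟨e, rfl⟩
      have c2 : h' ≠ 0 := fun e => h₂ ⟨rfl, e⟩
      have c3 := Int.one_le_abs c1
      have c4 := Int.one_le_abs c2
      refine h₃ ⟨by nlinarith, rfl, by_contra fun e => ?_, by_contra fun e => ?_⟩
      · nlinarith [sq2 h e c1]
      · nlinarith [sq2 h' e c2]
    have b1 := sq p hp
    obtain rfl : d = 1 := by nlinarith
    have b2 : p ^ 2 = 1 := by nlinarith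
    have b3 : |h| * |h'| = 0 := by omega
    have b4 : (p : ℝ) ^ 2 = 1 := by exact_mod_cast b2
    have b5 : 2.8 ≤ x * y + 2 * (1 / (x * y)) := by
      rw [← sub_nonneg, show x * y + 2 * (1 / (x * y)) - 2.8 = ((x * y - 1.4) ^ 2 + 0.04) / (x * y) by
        field_simp; ring]
      positivity
    rw [b4]
    rcases mul_eq_zero.1 b3 with e | e <;> obtain rfl := abs_eq_zero.1 e
    · have c1 : (1 : ℝ) ≤ (h' : ℝ) ^ 2 := by exact_mod_cast sq h' fun e => h₄ ⟨rfl, rfl, e, b2⟩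
      have c2 : 1 / (x * y) ≤ x / y := by
        rw [div_le_div_iff₀ (by positivity) (by positivity)]
        nlinarith [mul_nonneg (by positivity : 0 ≤ y) (by nlinarith : 0 ≤ x * x - 1)]
      have c3 := mul_le_mul c1 c2 (by positivity) (by positivity)
      simp only [Int.cast_one, Int.cast_zero, one_pow, one_mul, zero_mul, zero_add] at *
      nlinarith
    · have c1 : (1 : ℝ) ≤ (h : ℝ) ^ 2 := by exact_mod_cast sq h fun e => h₄ ⟨rfl, e, rfl, b2⟩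
      have c2 : 1 / (x * y) ≤ y / x := by
        rw [div_le_div_iff₀ (by positivity) (by positivity)]
        nlinarith [mul_nonneg (by positivity : 0 ≤ x) (by nlinarith : 0 ≤ y * y - 1)]
      have c3 := mul_le_mul c1 c2 (by positivity) (by positivity)
      simp only [Int.cast_one, Int.cast_zero, one_pow, one_mul, mul_zero, zero_add] at *
      nlinarith

theorem norm_three (a b c : ℝ) (x y z : Ev m) :
    ‖a • x + b • y + c • z‖ ^ 2 ≤ (a ^ 2 + b ^ 2 + c ^ 2) * (‖x‖ ^ 2 + ‖y‖ ^ 2 + ‖z‖ ^ 2) := by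
  have h : ‖a • x + b • y + c • z‖ ≤ |a| * ‖x‖ + |b| * ‖y‖ + |c| * ‖z‖ := by
    simpa only [norm_smul, Real.norm_eq_abs] using norm_add₃_le (a := a • x) (b := b • y) (c := c • z)
  refine (pow_le_pow_left₀ (norm_nonneg _) h 2).trans ?_
  rw [← sq_abs a, ← sq_abs b, ← sq_abs c]
  nlinarith [sq_nonneg (|a| * ‖y‖ - |b| * ‖x‖), sq_nonneg (|a| * ‖z‖ - |c| * ‖x‖),
    sq_nonneg (|b| * ‖z‖ - |c| * ‖y‖)]

theorem kab_le {c₁ c₂ c₃ c₄ : ℝ} (h₁ : 1 / 25 ≤ c₁) (h₂ : 1 / 25 ≤ c₂) (h₃ : 1 / 25 ≤ c₃)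
    (h₄ : 1 / 25 ≤ c₄) (d h p h' : ℤ) (q : Q4 m) :
    ‖iv (ka d h p q)‖ ^ 2 + ‖iv (kb d p h' q)‖ ^ 2 ≤
      (2 * (d : ℝ) ^ 2 + 2 * (p : ℝ) ^ 2 + (h : ℝ) ^ 2 + (h' : ℝ) ^ 2) * (25 * qf c₁ c₂ c₃ c₄ q) := by
  have a1 := norm_three (d : ℝ) (-h) (-p) (iv q.2.1) (iv q.1.1) (iv q.1.2)
  have a2 := norm_three (d : ℝ) p (-h') (iv q.2.2) (iv q.1.1) (iv q.1.2)
  have b1 := mul_le_mul_of_nonneg_right h₁ (sq_nonneg ‖iv q.1.1‖)
  have b2 := mul_le_mul_of_nonneg_right h₂ (sq_nonneg ‖iv q.1.2‖)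
  have b3 := mul_le_mul_of_nonneg_right h₃ (sq_nonneg ‖iv q.2.1‖)
  have b4 := mul_le_mul_of_nonneg_right h₄ (sq_nonneg ‖iv q.2.2‖)
  have c1 := a1.trans (mul_le_mul_of_nonneg_left (show _ ≤ 25 * qf c₁ c₂ c₃ c₄ q by
    rw [qf]; linarith [sq_nonneg ‖iv q.2.2‖]) (by positivity))
  have c2 := a2.trans (mul_le_mul_of_nonneg_left (show _ ≤ 25 * qf c₁ c₂ c₃ c₄ q by
    rw [qf]; linarith [sq_nonneg ‖iv q.2.1‖]) (by positivity))
  simp only [ka, kb, iv_add, iv_zsmul, sub_eq_add_neg, neg_smul, iv_neg] at c1 c2 ⊢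
  linarith

/-- the target normalisation, up to the exponentially small gain -/
def Rn (n : ℕ) (τ τ' : ℝ) : ℝ := (4.68 * (Lz τ * Lz τ') * (τ * τ')) ^ (-mh n)

theorem le_Rn (n : ℕ) {τ τ' x : ℝ} (hτ : 0 < τ) (hτ' : 0 < τ')
    (h : 4.68 * (Lz τ * Lz τ') * (τ * τ') ≤ x) : x ^ (-mh n) ≤ Rn n τ τ' := by
  have := (Lz_mem τ).1
  have := (Lz_mem τ').1
  exact Real.rpow_le_rpow_of_nonpos (by positivity) h (by linarith [mh_nonneg n])

theorem le_Rn' (n : ℕ) {τ τ' c : ℝ} (hτ : 0 < τ) (hτ' : 0 < τ') (h : 4.77 ≤ c) :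
    (c * (τ * τ')) ^ (-mh n) ≤ Rn n τ τ' := by
  have := mul_le_mul (Lz_mem τ).2 (Lz_mem τ').2 (by linarith [(Lz_mem τ').1]) (by norm_num)
  exact le_Rn n hτ hτ' (mul_le_mul_of_nonneg_right (by linarith) (by positivity))

theorem Env_eq {n : ℕ} (lvl : ℕ) {β c : ℝ} (hc : 0 < c) (hβ : c ≤ β)
    (hn : 4 ^ lvl / c ≤ Real.log n) : Env n lvl β = En n ^ (lvl + 1) := by
  have h : (0 : ℝ) < 4 ^ lvl / c := by positivity
  rw [div_le_iff₀ hc] at hn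
  rw [Env, max_eq_left, one_pow, mul_one]
  refine div_le_one_of_le₀ (hn.trans ?_) (mul_nonneg (by linarith) (Real.log_natCast_nonneg n))
  rw [mul_comm]
  exact mul_le_mul_of_nonneg_right hβ (Real.log_natCast_nonneg n)

theorem log_ge (C : ℝ) : ∀ᶠ n : ℕ in atTop, C ≤ Real.log n :=
  (Real.tendsto_log_atTop.comp tendsto_natCast_atTop_atTop).eventually_ge_atTop C

theorem main_num {n : ℕ} {ω D a b a' b' P τ τ' : ℝ} (hn : 4000 ≤ Real.log n) (hω : 0 < ω)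
    (hS : Sm (n / 2) ω 3) {W : Submodule ℝ (Ev (n / 2))} (hW : Adm n ω W D 1)
    (ha : 1 ≤ a ∧ a ≤ 1.55) (hb : 1 / 25 ≤ b ∧ b ≤ 1) (ha' : 1 ≤ a' ∧ a' ≤ 1.55)
    (hb' : 1 / 25 ≤ b' ∧ b' ≤ 1) (hP : 0 < P) (hτ : 0 < τ) (hτ' : 0 < τ')
    (h₁ : 4.68 * (Lz τ * Lz τ') * (τ * τ') ≤ P * ((a + b) * (a' + b')) * (1 + a * b / (a + b) / rexp 1))
    (h₂ : 4.68 * (Lz τ * Lz τ') * (τ * τ') ≤
      P * ((a + b) * (a' + b')) * (1 + a' * b' / (a' + b') / rexp 1))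
    {ε ε' : ℤ} (hε : ε ^ 2 = 1) (hε' : ε' ^ 2 = 1) (F : Finset (Q4 (n / 2)))
    (hF : ∀ q ∈ F, iv (q.2.1 - ε • q.1.1) ∈ W ∧ iv (q.2.2 - ε' • q.1.2) ∈ W ∧
      ¬(q.2.1 = ε • q.1.1 ∧ q.2.2 = ε' • q.1.2)) :
    P ^ (-mh n) * (ω ^ (2 * (n / 2)) * ∑ q ∈ F, gw ω a a' b b' q) ≤
      3 * En n ^ 4 * (D * Sh n ω W) * Rn n τ τ' := by
  have key : ∀ a b : ℝ, 1 ≤ a ∧ a ≤ 1.55 → 1 / 25 ≤ b ∧ b ≤ 1 →
      (ω + 1 / √(a + b)) ^ (n / 2) ≤ 1.2 * (a + b) ^ (-mh n) ∧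
      th ω W (a * b / (a + b)) ≤ D * En n ^ 2 ∧
      th0 ω W (a * b / (a + b)) ≤ (1 + a * b / (a + b) / rexp 1) ^ (-mh n) * Sh n ω W := by
    rintro a b ⟨a1, a2⟩ ⟨b1, b2⟩
    have c0 : 0 < a + b := by linarith
    have c1 : 1 / 1000 ≤ a * b / (a + b) := by rw [le_div_iff₀ c0]; nlinarith
    have c2 : a * b / (a + b) ≤ 1 := by rw [div_le_one c0]; nlinarith
    refine ⟨neg_mh n ▸ hS _ c0 (by linarith), (hW.th_le _ (by linarith)).trans_eq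
      (by rw [Env_eq 1 (by norm_num) c1 (by linarith)]), ?_⟩
    rw [Real.rpow_neg (by positivity), le_inv_mul_iff₀ (by positivity)]
    exact th0_le_Sh hω c1 c2 W
  obtain ⟨a1, a2, a3⟩ := key a b ha hb
  obtain ⟨b1, b2, b3⟩ := key a' b' ha' hb'
  have c1 := le_Rn n hτ hτ' h₁
  have c2 := le_Rn n hτ hτ' h₂
  have p1 : 0 < a := by linarith
  have p2 : 0 < b := by linarith
  have p3 : 0 < a' := by linarith
  have p4 : 0 < b' := by linarith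
  rw [Real.mul_rpow (by positivity) (by positivity), Real.mul_rpow (by positivity) (by positivity),
    Real.mul_rpow (by positivity) (by positivity)] at c1 c2
  have hE := one_le_En n
  have hD := hW.one_le
  have hSh := Sh_nonneg n ω W
  have d1 : 1 ≤ D * En n ^ 2 := one_le_mul_of_one_le_of_one_le hD (one_le_pow₀ hE)
  have d2 := add_le_add (mul_le_mul a3 b2 (zero_le_one.trans (th_nonneg hω (by positivity) W))
    (by positivity)) (b3.trans (le_mul_of_one_le_right (by positivity) d1))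
  refine (mul_le_mul_of_nonneg_left ((main_le hω p1 p2 p3 p4 hε hε' W F hF).trans (mul_le_mul
    (mul_le_mul a1 b1 (by positivity) (by positivity)) d2 (add_nonneg (mul_nonneg (th0_nonneg _ _ _)
      (zero_le_one.trans (th_nonneg hω (by positivity) W))) (th0_nonneg _ _ _)) (by positivity)))
    (by positivity)).trans ?_
  have d3 := mul_le_mul_of_nonneg_left (add_le_add c1 c2)
    (show 0 ≤ 1.44 * (D * En n ^ 2 * Sh n ω W) by positivity)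
  have d4 := mul_le_mul_of_nonneg_right (pow_le_pow_right₀ hE (show 2 ≤ 4 by norm_num))
    (show 0 ≤ D * Sh n ω W * Rn n τ τ' from mul_nonneg (by positivity) (le_trans (by positivity) c1))
  have d5 : 0 ≤ En n ^ 2 * (D * Sh n ω W * Rn n τ τ') :=
    mul_nonneg (by positivity) (mul_nonneg (by positivity) (le_trans (by positivity) c1))
  linarith

theorem other_num : ∀ᶠ n : ℕ in atTop, ∀ ω : ℝ, 0 < ω → Sm (n / 2) ω (24 * (n : ℝ) ^ 24) →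
    ∀ (W : Submodule ℝ (Ev (n / 2))) (D : ℝ), Adm n ω W D 1 → ∀ τ ζ τ' ζ' : ℝ, Pa τ ζ → Pa τ' ζ' →
    ζ ≤ 5 → ζ' ≤ 5 → ∀ (d : ℕ) (h p h' : ℤ), 1 ≤ d → d ≤ 2 * n ^ 12 → |h| ≤ 2 * n ^ 12 →
    |p| ≤ 2 * n ^ 12 → |h'| ≤ 2 * n ^ 12 → (∃ a b c e : ℤ, a * d + b * h + c * p + e * h' = 1) →
    4.8 ≤ (d : ℝ) ^ 2 * (ζ * ζ') + 2 * (p : ℝ) ^ 2 + (h' : ℝ) ^ 2 * (ζ / ζ') +
      (h : ℝ) ^ 2 * (ζ' / ζ) + ((h : ℝ) * h' + (p : ℝ) ^ 2) ^ 2 / ((d : ℝ) ^ 2 * (ζ * ζ')) →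
    ∀ F : Finset (Q4 (n / 2)), (∀ q ∈ F, iv (ka d h p q) ∈ W ∧ iv (kb d p h' q) ∈ W) →
    (ζ * ζ') ^ (-mh n) * (ω ^ (2 * (n / 2)) * ∑ q ∈ F, gw ω τ τ' (τ / ζ ^ 2) (τ' / ζ' ^ 2) q) ≤
      3 * En n ^ 4 * D ^ 3 * Rn n τ τ' := by
  filter_upwards [grow 250000 5, log_ge 1] with n h1 h2
  intro ω hω hS W D hW τ ζ τ' ζ' hz hz' h5 h5' d h p h' hd b1 b2 b3 b4 ⟨a, b, c, e, hg⟩ hY F hF
  obtain ⟨a1, a2, a3, a4, -, a6⟩ := hz.pos
  obtain ⟨c1, c2, c3, c4, -, c6⟩ := hz'.pos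
  have : NeZero d := ⟨by omega⟩
  have hd' : (1 : ℝ) ≤ d := by exact_mod_cast hd
  have sq : ∀ t : ℤ, |t| ≤ 2 * n ^ 12 → (t : ℝ) ^ 2 ≤ 4 * (n : ℝ) ^ 24 := fun t ht => by
    have : |(t : ℝ)| ≤ 2 * (n : ℝ) ^ 12 := by exact_mod_cast ht
    rw [← sq_abs]
    exact (pow_le_pow_left₀ (abs_nonneg _) this 2).trans_eq (by ring)
  have s1 : (d : ℝ) ^ 2 ≤ 4 * (n : ℝ) ^ 24 := by
    simpa using sq d (by rw [Nat.abs_cast]; exact_mod_cast b1)
  have s2 := sq h b2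
  have s3 := sq p b3
  have s4 := sq h' b4
  have hA : 0 < qA τ' (τ / ζ ^ 2) (τ' / ζ' ^ 2) d p h' := by rw [qA]; positivity
  have hD : 0 < qD τ τ' (τ / ζ ^ 2) (τ' / ζ' ^ 2) d h p h' := by rw [qD]; positivity
  obtain ⟨Y, hY'⟩ : ∃ Y, Y = ζ * ζ' * qD τ τ' (τ / ζ ^ 2) (τ' / ζ' ^ 2) d h p h' /
    ((d : ℝ) ^ 2 * (τ * τ')) := ⟨_, rfl⟩
  have y1 : (d : ℝ) ^ 2 * (ζ * ζ') + 2 * (p : ℝ) ^ 2 + (h' : ℝ) ^ 2 * (ζ / ζ') +
      (h : ℝ) ^ 2 * (ζ' / ζ) + ((h : ℝ) * h' + (p : ℝ) ^ 2) ^ 2 / ((d : ℝ) ^ 2 * (ζ * ζ')) +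
      (p : ℝ) ^ 2 * (τ * ζ' - τ' * ζ) ^ 2 / (τ * τ' * (ζ * ζ')) = Y := by
    rw [hY', qD]; field_simp; ring
  have y2 : 0 ≤ (p : ℝ) ^ 2 * (τ * ζ' - τ' * ζ) ^ 2 / (τ * τ' * (ζ * ζ')) := by positivity
  have y3 : 0 ≤ ((h : ℝ) * h' + (p : ℝ) ^ 2) ^ 2 / ((d : ℝ) ^ 2 * (ζ * ζ')) := by positivity
  have y4 : 4.8 ≤ Y := by linarith
  have y5 : 2 * (d : ℝ) ^ 2 + 2 * (p : ℝ) ^ 2 + (h : ℝ) ^ 2 + (h' : ℝ) ^ 2 ≤ 5 * Y := by
    have e1 := mul_le_mul_of_nonneg_left (one_le_mul_of_one_le_of_one_le a2 c2) (sq_nonneg (d : ℝ))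
    have e2 := mul_le_mul_of_nonneg_left (show 1 / 5 ≤ ζ / ζ' by
      rw [le_div_iff₀ c3]; linarith) (sq_nonneg (h' : ℝ))
    have e3 := mul_le_mul_of_nonneg_left (show 1 / 5 ≤ ζ' / ζ by
      rw [le_div_iff₀ a3]; linarith) (sq_nonneg (h : ℝ))
    linarith [sq_nonneg (d : ℝ), sq_nonneg (p : ℝ)]
  have y0 : 0 < Y := by linarith
  have t1 := hz.h₂
  have t2 := hz'.h₂
  have k := class_le (c := 1 / (62500 * Y)) (θ := 0.998) hω a1.le c1.le (by positivity)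
    (by positivity) d hg hA hD (by positivity) (by norm_num) hS (by
      rw [qA]
      have e1 := mul_le_mul t2 s1 (by positivity) (by positivity)
      have e2 := mul_le_mul a4 s3 (by positivity) (by positivity)
      have e3 := mul_le_mul c4 s4 (by positivity) (by positivity)
      linarith [pow_nonneg (n.cast_nonneg (α := ℝ)) 24]) (by
      have e0 : qD τ τ' (τ / ζ ^ 2) (τ' / ζ' ^ 2) d h p h' / qA τ' (τ / ζ ^ 2) (τ' / ζ' ^ 2) d p h' ≤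
          τ * (d : ℝ) ^ 2 + τ / ζ ^ 2 * (h : ℝ) ^ 2 + τ' / ζ' ^ 2 * (p : ℝ) ^ 2 := by
        rw [div_le_iff₀ hA, qA, qD]
        linarith [sq_nonneg (τ / ζ ^ 2 * h * p - τ' / ζ' ^ 2 * p * h')]
      have e1 := mul_le_mul t1 s1 (by positivity) (by positivity)
      have e2 := mul_le_mul a4 s2 (by positivity) (by positivity)
      have e3 := mul_le_mul c4 s3 (by positivity) (by positivity)
      linarith [pow_nonneg (n.cast_nonneg (α := ℝ)) 24]) W F hF fun q => by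
      have e1 := kab_le (c₁ := τ) (c₂ := τ') (by linarith [hz.h₁]) (by linarith [hz'.h₁])
        (a6 h5) (c6 h5') d h p h' q
      have e2 : 0 ≤ qf τ τ' (τ / ζ ^ 2) (τ' / ζ' ^ 2) q := by rw [qf]; positivity
      rw [Int.cast_natCast] at e1
      have e3 := e1.trans (mul_le_mul_of_nonneg_right y5 (by positivity))
      rw [one_div, inv_mul_le_iff₀ (by positivity)]
      linarith
  have hE := one_le_En n
  have hD1 := hW.one_le
  have hl : 0 < √(Real.log n) := Real.sqrt_pos.2 (by linarith)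
  have k1 : th ω W (1 / (62500 * Y)) ^ 2 ≤
      D ^ 3 * En n ^ 4 * (max 1 (250000 * Y / √(Real.log n))) ^ (2 * MM n + 20) := by
    refine (pow_le_pow_left₀ (zero_le_one.trans (th_nonneg hω (by positivity) W))
      (hW.th_le _ (by positivity)) 2).trans ?_
    rw [Env, mul_pow, mul_pow, ← pow_mul, ← pow_mul, ← mul_assoc]
    refine mul_le_mul (mul_le_mul_of_nonneg_right (pow_le_pow_right₀ hD1 (by norm_num))
      (by positivity)) ((pow_le_pow_left₀ (by positivity) (max_le_max le_rfl ?_) _).trans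
        (pow_le_pow_right₀ (le_max_left _ _) (by omega))) (by positivity) (by positivity)
    rw [show (4 : ℝ) ^ 1 / (1 / (62500 * Y) * Real.log n) = 250000 * Y / Real.log n by
      field_simp; norm_num]
    refine div_le_div_of_nonneg_left (by positivity) hl ?_
    rw [Real.sqrt_le_left (by linarith)]
    nlinarith
  have k2 : (ζ * ζ') ^ (-mh n) * ((d : ℝ) ^ (n / 2) *
      (0.998 ^ 2 * qD τ τ' (τ / ζ ^ 2) (τ' / ζ' ^ 2) d h p h') ^ (-mh n)) =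
      (0.998 ^ 2 * (τ * τ')) ^ (-mh n) * Y ^ (-mh n) := by
    have : (d : ℝ) ^ (n / 2) = (((d : ℝ) ^ 2)⁻¹) ^ (-mh n) := by
      rw [Real.inv_rpow (by positivity), Real.rpow_neg (by positivity), inv_inv, ← Real.rpow_natCast,
        ← Real.rpow_natCast, ← Real.rpow_mul (by positivity), mh]
      congr 1; push_cast; ring
    rw [this, ← Real.mul_rpow (by positivity) (by positivity),
      ← Real.mul_rpow (by positivity) (by positivity),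
      ← Real.mul_rpow (by positivity) (by positivity), hY']
    congr 1; field_simp
  have k3 := mul_le_mul_of_nonneg_left (h1 4.8 Y (by norm_num) (by norm_num) y4)
    (show 0 ≤ (0.998 ^ 2 * (τ * τ')) ^ (-mh n) by positivity)
  rw [← Real.mul_rpow (by positivity) (by positivity), mul_right_comm _ (τ * τ')] at k3
  have k4 := mul_le_mul_of_nonneg_left (k3.trans (le_Rn' n a1 c1 (by norm_num)))
    (show 0 ≤ 1.44 * (D ^ 3 * En n ^ 4) by positivity)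
  have k5 : 0 ≤ D ^ 3 * En n ^ 4 * Rn n τ τ' :=
    mul_nonneg (by positivity) (le_trans (by positivity) (le_Rn' n a1 c1 le_rfl))
  rw [neg_mh] at k
  refine (mul_le_mul_of_nonneg_left (k.trans (mul_le_mul_of_nonneg_left k1 (by positivity)))
    (by positivity)).trans ?_
  rw [mul_assoc 1.44, ← mul_assoc, mul_left_comm _ 1.44, k2]
  linarith

end Pool.Agent.Eps.T3
end
end

-- part Pool.Agent.Lib.MP_3bda03_nt.T3D
section

/-!
The total weight of the surviving quadruples outside the main terms.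
-/

set_option autoImplicit false

noncomputable section

open scoped BigOperators Classical Topology
open MeasureTheory Real Complex Filter

namespace Pool.Agent.Eps.T3

variable {m : ℕ}

/-- the six main frequencies of a pair -/
def Mn (k : Zv m × Zv m) : Finset (Zv m × Zv m) :=
  {(k.1, k.2), (k.1, -k.2), (-k.1, k.2), (-k.1, -k.2), (k.2, -k.1), (-k.2, k.1)}

theorem Rn_pos (n : ℕ) {τ τ' : ℝ} (hτ : 0 < τ) (hτ' : 0 < τ') : 0 < Rn n τ τ' :=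
  lt_of_lt_of_le (by positivity) (le_Rn' n hτ hτ' le_rfl)

theorem class_bound : ∀ᶠ n : ℕ in atTop, ∀ᶠ ω in 𝓝[>] (0 : ℝ),
    ∀ (W : Submodule ℝ (Ev (n / 2))) (D : ℝ), Adm n ω W D 1 → ∀ τ ζ τ' ζ' : ℝ, Pa τ ζ → Pa τ' ζ' →
    ζ ≤ 5 → ζ' ≤ 5 → ∀ (d : ℕ) (h p h' : ℤ), 1 ≤ d → d ≤ 2 * n ^ 12 → |h| ≤ 2 * n ^ 12 →
    |p| ≤ 2 * n ^ 12 → |h'| ≤ 2 * n ^ 12 → (∃ a b c e : ℤ, a * d + b * h + c * p + e * h' = 1) →
    ∀ F : Finset (Q4 (n / 2)), (∀ q ∈ F, (iv (ka d h p q) ∈ W ∧ iv (kb d p h' q) ∈ W) ∧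
      iv q.2.1 ∉ W ∧ iv q.2.2 ∉ W ∧ q.2 ∉ Mn q.1) →
    (ζ * ζ') ^ (-mh n) * (ω ^ (2 * (n / 2)) * ∑ q ∈ F, gw ω τ τ' (τ / ζ ^ 2) (τ' / ζ' ^ 2) q) ≤
      3 * En n ^ 4 * (D ^ 3 + D * Sh n ω W) * Rn n τ τ' := by
  filter_upwards [other_num, log_ge 4000] with n h1 h2
  filter_upwards [small (n / 2) 3, small (n / 2) (24 * (n : ℝ) ^ 24), self_mem_nhdsWithin]
    with ω s1 s2 (hω : 0 < ω)
  intro W D hW τ ζ τ' ζ' hz hz' h5 h5' d h p h' hd b1 b2 b3 b4 hg F hF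
  obtain ⟨a1, a2, a3, a4, -, a6⟩ := hz.pos
  obtain ⟨c1, c2, c3, c4, -, c6⟩ := hz'.pos
  have hR := Rn_pos n a1 c1
  have hE := one_le_En n
  have hD := hW.one_le
  have hSh := Sh_nonneg n ω W
  have e1 : 3 * En n ^ 4 * (D * Sh n ω W) * Rn n τ τ' ≤
      3 * En n ^ 4 * (D ^ 3 + D * Sh n ω W) * Rn n τ τ' := by
    gcongr; exact le_add_of_nonneg_left (by positivity)
  by_cases m1 : (d : ℤ) = 1 ∧ p = 0 ∧ h ^ 2 = 1 ∧ h' ^ 2 = 1
  · obtain ⟨f1, rfl, f3, f4⟩ := m1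
    obtain ⟨g1, g2⟩ := prod_ineq hz
    obtain ⟨g3, g4⟩ := prod_ineq hz'
    have := (Lz_mem τ).1
    have := (Lz_mem τ').1
    refine (main_num h2 hω s1 hW ⟨hz.h₁, hz.h₂⟩ ⟨a6 h5, a4⟩ ⟨hz'.h₁, hz'.h₂⟩ ⟨c6 h5', c4⟩
      (by positivity) a1 c1 ?_ ?_ f3 f4 F fun q hq => ?_).trans e1
    · linarith [mul_le_mul g2 g3 (by positivity) (by positivity)]
    · linarith [mul_le_mul g1 g4 (by positivity) (by positivity)]
    · obtain ⟨⟨r1, r2⟩, -, -, r3⟩ := hF q hq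
      refine ⟨by simpa [ka, f1] using r1, by simpa [kb, f1] using r2, fun ⟨r4, r5⟩ => r3 ?_⟩
      rw [show q.2 = (h • q.1.1, h' • q.1.2) from Prod.ext r4 r5]
      rcases sq_eq_one_iff.1 f3 with rfl | rfl <;>
        rcases sq_eq_one_iff.1 f4 with rfl | rfl <;> simp [Mn]
  by_cases m2 : (d : ℤ) = 1 ∧ h = 0 ∧ h' = 0 ∧ p ^ 2 = 1
  · obtain ⟨f1, rfl, rfl, f4⟩ := m2
    let sw : Q4 (n / 2) → Q4 (n / 2) := fun q => (q.1, q.2.swap)
    have hsw : Function.Injective sw := fun q q' e =>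
      Prod.ext (congrArg Prod.fst e :) (Prod.swap_injective (congrArg Prod.snd e :))
    have k := main_num h2 hω s1 hW ⟨hz.h₁, hz.h₂⟩ ⟨c6 h5', c4⟩ ⟨hz'.h₁, hz'.h₂⟩ ⟨a6 h5, a4⟩
      (mul_pos a3 c3) a1 c1 (mir_ineq hz hz') (by
        have := mir_ineq hz' hz
        rwa [mul_comm (Lz τ'), mul_comm τ' τ, mul_comm ζ', mul_comm (τ' + _)] at this)
      (ε := -p) (ε' := p) (by rwa [neg_sq]) f4 (F.image sw) (by
        simp only [Finset.forall_mem_image]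
        intro q hq
        obtain ⟨⟨r1, r2⟩, -, -, r3⟩ := hF q hq
        refine ⟨by simpa [kb, f1, sw] using r2, by simpa [ka, f1, sw] using r1,
          fun ⟨r4, r5⟩ => r3 ?_⟩
        rw [show q.2 = (p • q.1.2, (-p) • q.1.1) from Prod.ext r5 r4]
        rcases sq_eq_one_iff.1 f4 with rfl | rfl <;> simp [Mn])
    rw [Finset.sum_image hsw.injOn] at k
    refine le_trans (le_of_eq ?_) (k.trans e1)
    congr 2
    refine Finset.sum_congr rfl fun q _ => ?_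
    simp only [gw, qf, sw, Prod.fst_swap, Prod.snd_swap]
    congr 3; ring
  rcases F.eq_empty_or_nonempty with rfl | ⟨q, hq⟩
  · rw [Finset.sum_empty, mul_zero, mul_zero]; positivity
  obtain ⟨⟨r1, r2⟩, r3, r4, -⟩ := hF q hq
  have hd0 : (d : ℝ) ≠ 0 := by exact_mod_cast (by omega : d ≠ 0)
  have hY := Y_low a2 c2 (d := d) (h := h) (p := p) (h' := h') (by exact_mod_cast hd)
    (by
      rintro ⟨rfl, rfl⟩
      exact r3 ((W.smul_mem_iff hd0).1 (by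
        simpa only [ka, zero_smul, sub_zero, iv_zsmul, Int.cast_natCast] using r1)))
    (by
      rintro ⟨rfl, rfl⟩
      exact r4 ((W.smul_mem_iff hd0).1 (by
        simpa only [kb, zero_smul, sub_zero, add_zero, iv_zsmul, Int.cast_natCast] using r2)))
    m1 m2
  refine (h1 ω hω s2 W D hW τ ζ τ' ζ' hz hz' h5 h5' d h p h' hd b1 b2 b3 b4 hg
    (by exact_mod_cast hY) F fun q hq => (hF q hq).1).trans ?_
  gcongr; exact le_add_of_nonneg_right (by positivity)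

theorem sum_le_cover {α β : Type*} (F : Finset α) (B : Finset β) (P : β → α → Prop) (g : α → ℝ)
    (hg : ∀ a, 0 ≤ g a) (h : ∀ a ∈ F, ∃ t ∈ B, P t a) :
    ∑ a ∈ F, g a ≤ ∑ t ∈ B, ∑ a ∈ F.filter (P t), g a := by
  simp only [Finset.sum_filter]
  rw [Finset.sum_comm]
  refine Finset.sum_le_sum fun a ha => ?_
  obtain ⟨t, ht, hP⟩ := h a ha
  refine le_trans (le_of_eq (if_pos hP).symm) (Finset.single_le_sum
    (f := fun t => if P t a then g a else 0) (fun t _ => ?_) ht)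
  split_ifs
  exacts [hg a, le_rfl]

theorem exp_le_Rn (n : ℕ) {τ ζ τ' ζ' : ℝ} (h : Pa τ ζ) (h' : Pa τ' ζ') :
    rexp (-5 * n) ≤ Rn n τ τ' := by
  refine le_trans ?_ (le_Rn' n h.pos.1 h'.pos.1 le_rfl)
  have h1 : 4.77 * (τ * τ') ≤ rexp 20 := by
    have := mul_le_mul h.h₂ h'.h₂ h'.pos.1.le (by norm_num)
    linarith [Real.add_one_le_exp 20]
  refine le_trans ?_ (Real.rpow_le_rpow_of_nonpos (by have := h.pos.1; have := h'.pos.1; positivity)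
    h1 (by linarith [mh_nonneg n]))
  rw [← Real.exp_mul, Real.exp_le_exp]
  linarith [(mh_le n).2]

theorem far_env : ∀ᶠ n : ℕ in atTop, ∀ τ ζ : ℝ, Pa τ ζ →
    ζ ^ (-mh n) * Env n 3 (τ / ζ ^ 2) ≤ En n ^ 4 * (min ζ 5) ^ (-mh n) := by
  filter_upwards [grow 8 5, log_ge 1] with n h1 h2 τ ζ h
  obtain ⟨a1, a2, a3, -, a5, -⟩ := h.pos
  have hl : 0 < Real.log n := by linarith
  rw [Env, mul_left_comm]
  refine mul_le_mul_of_nonneg_left (le_trans (mul_le_mul_of_nonneg_left ?_ (by positivity))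
    (h1 _ ζ (le_min a2 (by norm_num)) (min_le_right _ _) (min_le_left _ _)))
    (pow_nonneg (zero_le_one.trans (one_le_En n)) _)
  refine le_trans (pow_le_pow_left₀ (by positivity) (max_le (one_le_pow₀ (le_max_left _ _))
    (le_trans ?_ (pow_le_pow_left₀ (by positivity) (le_max_right 1 (8 * ζ / √(Real.log n))) 2))) _) ?_
  · rw [div_pow, Real.sq_sqrt hl.le, ← div_div]
    refine div_le_div_of_nonneg_right ((div_le_div_of_nonneg_left (by norm_num) (by positivity)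
      a5).trans_eq (by field_simp; norm_num)) hl.le
  · rw [← pow_mul]
    exact pow_le_pow_right₀ (le_max_left _ _) (by omega)

theorem final_num : ∀ᶠ n : ℕ in atTop, ∀ τ τ' : ℝ, 0 < τ → 0 < τ' →
    2000 * (n : ℝ) ^ 48 * En n ^ 48 * Rn n τ τ' ≤
      1 / 8 * rexp (-0.0392 * n) * (Nz n τ * Nz n τ') := by
  filter_upwards [En_pow_le 32000 48 (ε := 0.000025) (by norm_num)] with n h τ τ' hτ hτ'
  have := (Lz_mem τ).1
  have := (Lz_mem τ').1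
  have h1 : rexp 0.1569 ≤ 1.17 := by
    have := Real.exp_bound' (x := 0.1569) (by norm_num) (by norm_num) (n := 4) (by norm_num)
    norm_num [Finset.sum_range_succ, Nat.factorial] at this ⊢
    linarith
  have h2 : (1.17 : ℝ) ^ (-mh n) ≤ 2 * rexp (-0.039225 * n) := by
    refine (Real.rpow_le_rpow_of_nonpos (Real.exp_pos _) h1 (by linarith [mh_nonneg n])).trans ?_
    have h3 : rexp 0.5 ≤ 2 := by
      have := Real.exp_bound' (x := 0.5) (by norm_num) (by norm_num) (n := 2) (by norm_num)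
      norm_num [Finset.sum_range_succ, Nat.factorial] at this ⊢
      linarith
    refine le_trans ?_ (mul_le_mul_of_nonneg_right h3 (Real.exp_pos _).le)
    rw [← Real.exp_mul, ← Real.exp_add, Real.exp_le_exp]
    linarith [(mh_le n).1]
  rw [Rn, Nz, Nz, ← Real.mul_rpow (by positivity) (by positivity),
    show 4.68 * (Lz τ * Lz τ') * (τ * τ') = 1.17 * (2 * τ * Lz τ * (2 * τ' * Lz τ')) by ring,
    Real.mul_rpow (by norm_num) (by positivity), ← mul_assoc]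
  refine mul_le_mul_of_nonneg_right ?_ (by positivity)
  have h4 := mul_le_mul h h2 (by positivity) (by positivity)
  rw [mul_left_comm, ← Real.exp_add, show 0.000025 * (n : ℝ) + -0.039225 * n = -0.0392 * n by ring]
    at h4
  linarith

theorem key : ∀ᶠ n : ℕ in atTop, ∀ᶠ ω in 𝓝[>] (0 : ℝ),
    ∀ (W : Submodule ℝ (Ev (n / 2))) (D : ℝ), Adm n ω W D 1 → ∀ τ ζ τ' ζ' : ℝ, Pa τ ζ → Pa τ' ζ' →
    ∀ F : Finset (Q4 (n / 2)), (∀ q ∈ F, Ok n ω W q ∧ iv q.2.1 ∉ W ∧ iv q.2.2 ∉ W ∧ q.2 ∉ Mn q.1) →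
    (ζ * ζ') ^ (-mh n) * (ω ^ (2 * (n / 2)) * ∑ q ∈ F, gw ω τ τ' (τ / ζ ^ 2) (τ' / ζ' ^ 2) q) ≤
      1 / 8 * Err n ω W D * (Nz n τ * Nz n τ') := by
  filter_upwards [class_bound, crude, far_env, final_num, log_ge 3200, eventually_ge_atTop 100]
    with n h1 h2 h3 h4 h5 hn
  filter_upwards [h1, h2, self_mem_nhdsWithin] with ω h1 h2 (hω : 0 < ω)
  intro W D hW τ ζ τ' ζ' hz hz' F hF
  obtain ⟨a1, a2, a3, a4, -, a6⟩ := hz.pos
  obtain ⟨c1, c2, c3, c4, -, c6⟩ := hz'.pos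
  have hR := Rn_pos n a1 c1
  have hE := one_le_En n
  have hD := hW.one_le
  have hSh := Sh_nonneg n ω W
  have hn' : (100 : ℝ) ≤ n := by exact_mod_cast hn
  have t1 : τ ∈ Set.Icc (1 : ℝ) 2 := ⟨hz.h₁, by linarith [hz.h₂]⟩
  have t2 : τ' ∈ Set.Icc (1 : ℝ) 2 := ⟨hz'.h₁, by linarith [hz'.h₂]⟩
  refine le_trans ?_ ((mul_le_mul_of_nonneg_left (h4 τ τ' a1 c1)
    (show 0 ≤ D ^ 3 + D * Sh n ω W by positivity)).trans_eq (by rw [Err]; ring))
  have u : ∀ i j : ℕ, i ≤ 48 → j ≤ 48 → (n : ℝ) ^ i * En n ^ j * (D ^ 3 * Rn n τ τ') ≤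
      (n : ℝ) ^ 48 * En n ^ 48 * ((D ^ 3 + D * Sh n ω W) * Rn n τ τ') := fun i j hi hj =>
    mul_le_mul (mul_le_mul (pow_le_pow_right₀ (by linarith) hi) (pow_le_pow_right₀ hE hj)
      (by positivity) (by positivity)) (mul_le_mul_of_nonneg_right
        (le_add_of_nonneg_right (by positivity)) hR.le) (by positivity) (by positivity)
  have u0 : 0 ≤ (n : ℝ) ^ 48 * En n ^ 48 * ((D ^ 3 + D * Sh n ω W) * Rn n τ τ') := by positivity
  by_cases hc : ζ ≤ 5 ∧ ζ' ≤ 5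
  swap
  · have b1 := mul_le_mul (h3 τ ζ hz) (h3 τ' ζ' hz')
      (mul_nonneg (by positivity) (zero_le_one.trans (Env_pos _ _ _))) (by positivity)
    have b2 : (min ζ 5) ^ (-mh n) * (min ζ' 5) ^ (-mh n) * (τ * τ') ^ (-mh n) ≤ Rn n τ τ' := by
      rw [← Real.mul_rpow (by positivity) (by positivity),
        ← Real.mul_rpow (by positivity) (by positivity)]
      refine le_Rn' n a1 c1 ?_
      have e1 : 1 ≤ min ζ 5 := le_min a2 (by norm_num)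
      have e2 : 1 ≤ min ζ' 5 := le_min c2 (by norm_num)
      rcases not_and_or.1 hc with e | e
      · rw [min_eq_right (not_le.1 e).le]; linarith
      · rw [min_eq_right (not_le.1 e).le]; linarith
    refine (mul_le_mul_of_nonneg_left (h2 W D hW τ t1 τ' t2 _ _ (by positivity) (by positivity) F
      fun q hq => (hF q hq).1).1 (by positivity)).trans ?_
    rw [Real.mul_rpow a3.le c3.le]
    have b3 := mul_le_mul_of_nonneg_left b1
      (show 0 ≤ D ^ 3 * (9 * (n : ℝ) ^ 18 * (τ * τ') ^ (-mh n)) by positivity)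
    have b4 := mul_le_mul_of_nonneg_left b2
      (show 0 ≤ 9 * ((n : ℝ) ^ 18 * En n ^ 8 * D ^ 3) by positivity)
    linarith [u 18 8 (by norm_num) (by norm_num)]
  obtain ⟨h6, h6'⟩ := hc
  have s1 := a6 h6
  have s2 := c6 h6'
  have ev : ∀ β : ℝ, 1 / 50 ≤ β → Env n 3 β = En n ^ 4 := fun β hβ =>
    Env_eq 3 (by norm_num) hβ (by linarith)
  have hP : (ζ * ζ') ^ (-mh n) ≤ 1 := Real.rpow_le_one_of_one_le_of_nonpos
    (one_le_mul_of_one_le_of_one_le a2 c2) (by linarith [mh_nonneg n])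
  have hP' : (τ * τ') ^ (-mh n) ≤ 1 := Real.rpow_le_one_of_one_le_of_nonpos
    (one_le_mul_of_one_le_of_one_le hz.h₁ hz'.h₁) (by linarith [mh_nonneg n])
  have hx := exp_le_Rn n hz hz'
  have hg : ∀ q : Q4 (n / 2), 0 ≤ gw ω τ τ' (τ / ζ ^ 2) (τ' / ζ' ^ 2) q := fun q => (Real.exp_pos _).le
  let I : Finset ℤ := Finset.Icc (-(2 * (n : ℤ) ^ 12)) (2 * (n : ℤ) ^ 12)
  let B : Finset (ℕ × ℤ × ℤ × ℤ) := Finset.Icc 1 (2 * n ^ 12) ×ˢ I ×ˢ I ×ˢ I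
  let P₁ : Q4 (n / 2) → Prop := fun q => dk ω W q.1.1 < 1 / (n : ℝ) ^ 2
  let P₂ : Q4 (n / 2) → Prop := fun q => dk ω (ext W q.1.1) q.1.2 < 1 / (n : ℝ) ^ 2
  let P₃ : Q4 (n / 2) → Prop := fun q => n < ω * ‖iv q.2.1‖ ∨ n < ω * ‖iv q.2.2‖
  let P₄ : ℕ × ℤ × ℤ × ℤ → Q4 (n / 2) → Prop := fun t q =>
    (∃ a b c e : ℤ, a * t.1 + b * t.2.1 + c * t.2.2.1 + e * t.2.2.2 = 1) ∧
      iv (ka t.1 t.2.1 t.2.2.1 q) ∈ W ∧ iv (kb t.1 t.2.2.1 t.2.2.2 q) ∈ W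
  have v : ∀ (P : Q4 (n / 2) → Prop), (∀ q ∈ F.filter P, P₁ q) ∨ (∀ q ∈ F.filter P, P₂ q) →
      (ζ * ζ') ^ (-mh n) * (ω ^ (2 * (n / 2)) * ∑ q ∈ F.filter P,
        gw ω τ τ' (τ / ζ ^ 2) (τ' / ζ' ^ 2) q) ≤ 9 * ((n : ℝ) ^ 9 * En n ^ 8 * (D ^ 3 * Rn n τ τ')) := by
    intro P hP₁
    have e1 := (h2 W D hW τ t1 τ' t2 _ _ (by positivity : 0 < τ / ζ ^ 2)
      (by positivity : 0 < τ' / ζ' ^ 2) _ fun q hq => (hF q (Finset.mem_filter.1 hq).1).1).2 hP₁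
    rw [ev _ (by linarith), ev _ (by linarith)] at e1
    have e2 := mul_le_mul_of_nonneg_left hx (show 0 ≤ 9 * ((n : ℝ) ^ 9 * En n ^ 8 * D ^ 3) by positivity)
    refine (mul_le_of_le_one_left (mul_nonneg (by positivity) (Finset.sum_nonneg fun q _ => hg q))
      hP).trans ?_
    linarith
  have v1 := v P₁ (.inl fun q hq => (Finset.mem_filter.1 hq).2)
  have v2 := v P₂ (.inr fun q hq => (Finset.mem_filter.1 hq).2)
  have v3 : (ζ * ζ') ^ (-mh n) * (ω ^ (2 * (n / 2)) * ∑ q ∈ F.filter P₃,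
      gw ω τ τ' (τ / ζ ^ 2) (τ' / ζ' ^ 2) q) ≤ 9 * ((n : ℝ) ^ 18 * En n ^ 8 * (D ^ 3 * Rn n τ τ')) := by
    have e1 := (h2 W D hW τ t1 τ' t2 (τ / ζ ^ 2 / 2) (τ' / ζ' ^ 2 / 2) (by positivity) (by positivity)
      (F.filter P₃) fun q hq => (hF q (Finset.mem_filter.1 hq).1).1).1
    rw [ev _ (by linarith), ev _ (by linarith)] at e1
    have e2 : ∑ q ∈ F.filter P₃, gw ω τ τ' (τ / ζ ^ 2) (τ' / ζ' ^ 2) q ≤
        rexp (-5 * n) * ∑ q ∈ F.filter P₃, gw ω τ τ' (τ / ζ ^ 2 / 2) (τ' / ζ' ^ 2 / 2) q := by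
      rw [Finset.mul_sum]
      refine Finset.sum_le_sum fun q hq => ?_
      have e3 : (n : ℝ) ^ 2 ≤ (ω * ‖iv q.2.1‖) ^ 2 + (ω * ‖iv q.2.2‖) ^ 2 := by
        rcases (Finset.mem_filter.1 hq).2 with e | e
        · exact le_add_of_le_of_nonneg (pow_le_pow_left₀ (by positivity) e.le 2) (sq_nonneg _)
        · exact le_add_of_nonneg_of_le (sq_nonneg _) (pow_le_pow_left₀ (by positivity) e.le 2)
      have e4 := mul_le_mul_of_nonneg_right s1 (sq_nonneg (ω * ‖iv q.2.1‖))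
      have e5 := mul_le_mul_of_nonneg_right s2 (sq_nonneg (ω * ‖iv q.2.2‖))
      have e6 : 100 * (n : ℝ) ≤ (n : ℝ) ^ 2 := by nlinarith
      have e7 := mul_le_mul Real.pi_gt_three.le (show 2 * (n : ℝ) ≤ τ / ζ ^ 2 / 2 *
        (ω * ‖iv q.2.1‖) ^ 2 + τ' / ζ' ^ 2 / 2 * (ω * ‖iv q.2.2‖) ^ 2 by linarith)
        (by positivity) Real.pi_pos.le
      rw [gw, gw, ← Real.exp_add, Real.exp_le_exp, qf, qf]
      linarith
    have e3 := mul_le_mul hx (e1.trans (mul_le_mul_of_nonneg_left (mul_le_of_le_one_right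
      (by positivity) hP') (by positivity))) (mul_nonneg (by positivity)
        (Finset.sum_nonneg fun q _ => (Real.exp_pos _).le)) hR.le
    refine (mul_le_of_le_one_left (mul_nonneg (by positivity) (Finset.sum_nonneg fun q _ => hg q))
      hP).trans ((mul_le_mul_of_nonneg_left e2 (by positivity)).trans ?_)
    linarith
  have v4 : (ζ * ζ') ^ (-mh n) * (ω ^ (2 * (n / 2)) * ∑ t ∈ B, ∑ q ∈ F.filter (P₄ t),
      gw ω τ τ' (τ / ζ ^ 2) (τ' / ζ' ^ 2) q) ≤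
      1875 * ((n : ℝ) ^ 48 * En n ^ 48 * ((D ^ 3 + D * Sh n ω W) * Rn n τ τ')) := by
    rw [Finset.mul_sum, Finset.mul_sum]
    refine (Finset.sum_le_card_nsmul B _ (3 * En n ^ 4 * (D ^ 3 + D * Sh n ω W) * Rn n τ τ')
      fun t ht => ?_).trans ?_
    · rcases (F.filter (P₄ t)).eq_empty_or_nonempty with e | ⟨q, hq⟩
      · rw [e, Finset.sum_empty, mul_zero, mul_zero]; positivity
      simp only [B, I, Finset.mem_product, Finset.mem_Icc, ← abs_le] at ht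
      exact h1 W D hW τ ζ τ' ζ' hz hz' h6 h6' t.1 t.2.1 t.2.2.1 t.2.2.2 ht.1.1 ht.1.2 ht.2.1 ht.2.2.1
        ht.2.2.2 (Finset.mem_filter.1 hq).2.1 _ fun q hq =>
          ⟨(Finset.mem_filter.1 hq).2.2, (hF q (Finset.mem_filter.1 hq).1).2⟩
    · have e0 : 1 ≤ n ^ 12 := Nat.one_le_pow _ _ (by omega)
      have e1 : I.card ≤ 5 * n ^ 12 := by
        rw [Int.card_Icc, ← Nat.cast_pow]; omega
      have e2 : B.card ≤ 5 * n ^ 12 * (5 * n ^ 12 * (5 * n ^ 12 * (5 * n ^ 12))) := by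
        simp only [B, Finset.card_product]
        gcongr
        rw [Nat.card_Icc]; omega
      have e3 : (B.card : ℝ) ≤ 625 * (n : ℝ) ^ 48 := by
        exact_mod_cast e2.trans_eq (by ring)
      have e4 := mul_le_mul (mul_le_mul e3 (pow_le_pow_right₀ hE (show 4 ≤ 48 by norm_num))
        (by positivity) (by positivity)) (le_refl ((D ^ 3 + D * Sh n ω W) * Rn n τ τ'))
        (by positivity) (by positivity)
      rw [nsmul_eq_mul]
      linarith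
  have w : ∑ q ∈ F, gw ω τ τ' (τ / ζ ^ 2) (τ' / ζ' ^ 2) q ≤
      ∑ q ∈ F.filter P₁, gw ω τ τ' (τ / ζ ^ 2) (τ' / ζ' ^ 2) q +
      ∑ q ∈ F.filter P₂, gw ω τ τ' (τ / ζ ^ 2) (τ' / ζ' ^ 2) q +
      ∑ q ∈ F.filter P₃, gw ω τ τ' (τ / ζ ^ 2) (τ' / ζ' ^ 2) q +
      ∑ t ∈ B, ∑ q ∈ F.filter (P₄ t), gw ω τ τ' (τ / ζ ^ 2) (τ' / ζ' ^ 2) q := by
    refine (sum_le_cover F ((Finset.univ : Finset (Fin 3)).disjSum B)
      (Sum.elim ![P₁, P₂, P₃] P₄) _ hg fun q hq => ?_).trans_eq ?_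
    · by_cases e1 : P₁ q
      · exact ⟨.inl 0, by simp, e1⟩
      by_cases e2 : P₂ q
      · exact ⟨.inl 1, by simp, e2⟩
      by_cases e3 : P₃ q
      · exact ⟨.inl 2, by simp, e3⟩
      obtain ⟨G, rfl, -⟩ := hW.gen
      obtain ⟨d, h, p, h', f1, f2, f3, f4, f5, f6⟩ := exists_par hω (by omega) G (hF q hq).1
        (not_lt.1 e1) (not_lt.1 e2) (not_lt.1 (not_or.1 e3).1) (not_lt.1 (not_or.1 e3).2)
      refine ⟨.inr (d, h, p, h'), ?_, f6⟩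
      simp only [B, I, Finset.inr_mem_disjSum, Finset.mem_product, Finset.mem_Icc, ← abs_le]
      exact ⟨⟨f1, f2⟩, f3, f4, f5⟩
    · rw [Finset.sum_disjSum, Fin.sum_univ_three]
      congr!
  refine (mul_le_mul_of_nonneg_left (mul_le_mul_of_nonneg_left w (by positivity))
    (by positivity)).trans ?_
  linarith [u 9 8 (by norm_num) (by norm_num), u 18 8 (by norm_num) (by norm_num)]

end Pool.Agent.Eps.T3
end
end
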