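import Pool.Agent.Lib.MP_3bda03_nt.SetsA
import Pool.Agent.Lib.MP_3bda03_nt.T3D

-- part Pool.Agent.Lib.MP_3bda03_nt.T3
section

set_option autoImplicit false

noncomputable section

open scoped BigOperators Classical Topology
open MeasureTheory Real Complex Filter

namespace Pool.Agent.Eps

namespace T3

theorem cp_le (n : ℕ) {ω : ℝ} (hω : 0 < ω) {z z' : ℂ} (hz : 1 ≤ z.re) (hz' : 1 ≤ z'.re)
    (q : Q4 (n / 2)) : ‖Cp (n % 2) ω z q.1.1 q.2.1 * starRingEnd ℂ (Cp (n % 2) ω z' q.1.2 q.2.2)‖ ≤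
      4 * ((‖z‖ * ‖z'‖) ^ (-mh n) * (ω ^ (2 * (n / 2)) *
        gw ω z.re z'.re (z.re / ‖z‖ ^ 2) (z'.re / ‖z'‖ ^ 2) q)) := by
  have key : ∀ t : ℝ, 1 ≤ t → (1 + 1 / √t) ^ (n % 2) ≤ 2 := fun t ht => by
    have h1 : 1 / √t ≤ 1 := div_le_one_of_le₀ (Real.one_le_sqrt.2 ht) (Real.sqrt_nonneg _)
    rcases Nat.mod_two_eq_zero_or_one n with h | h <;> rw [h] <;> linarith
  have b := fun (w : ℂ) (hw : 1 ≤ w.re) (k η : Zv (n / 2)) =>
    (norm_Cp_le (r := n % 2) hω (zero_lt_one.trans_le hw) k η).trans (mul_le_mul_of_nonneg_right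
      (mul_le_mul_of_nonneg_right (key _ hw) (by positivity)) (by positivity))
  rw [norm_mul, Complex.norm_conj]
  refine (mul_le_mul (b z hz _ _) (b z' hz' _ _) (norm_nonneg _) (by positivity)).trans_eq ?_
  rw [neg_mh, Real.mul_rpow (norm_nonneg _) (norm_nonneg _), gw, qf, ← Real.exp_add, ← Real.exp_add,
    mul_mul_mul_comm, ← Real.exp_add, ← mul_assoc (‖z‖ ^ (-mh n) * ‖z'‖ ^ (-mh n)), ← mul_assoc 4]
  congr 1
  · ring
  · congr 1; ring

theorem sum_mu_le {n : ℕ} {ω β S : ℝ} (hω : 0 < ω) (hS : Sm (n / 2) ω S) (hβ : 0 < β) (h : β ≤ S)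
    (T : Finset (Zv (n / 2))) : ∑ k ∈ T, mu n ω β k ≤ 1.2 * β ^ (-mh n) := by
  rw [← neg_mh]
  refine le_trans ?_ (hS β hβ h)
  rw [← scale hω hβ]
  simp only [mu, ← Finset.mul_sum]
  refine mul_le_mul_of_nonneg_left (le_trans (le_of_eq ?_)
    (sum_gauss_le (s := ω ^ 2 * β) (by positivity) 0 T)) (by positivity)
  exact Finset.sum_congr rfl fun k _ => by rw [add_zero]; congr 1; ring

theorem ch_main {m : ℕ} {k p : Zv m × Zv m} (hp : p ∈ Mn k) (x : Xs m) :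
    ch p.1 k.1 x * ch (-p.2) k.2 x = 1 := by
  have h1 : ∀ k : Zv m, ch k k x = 1 := fun k => ch_eq_one (Submodule.mem_span_singleton_self _) x
  have h2 : ∀ k : Zv m, ch (-k) k x = 1 := fun k => by rw [ch_swap, h1]
  have h3 : ch k.2 k.1 x * ch (-k.2) k.1 x = 1 := by
    rw [ch_neg_left, Complex.mul_conj, Complex.normSq_eq_norm_sq, norm_ch]; simp
  simp only [Mn, Finset.mem_insert, Finset.mem_singleton] at hp
  rcases hp with rfl | rfl | rfl | rfl | rfl | rfl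
  · rw [h1, h2, one_mul]
  · rw [h1, neg_neg, h1, one_mul]
  · rw [h2, h2, one_mul]
  · rw [h2, neg_neg, h1, one_mul]
  · rw [ch_swap, ← ch_neg_neg k.2 (-k.1), neg_neg, h3]
  · rw [ch_swap k.2 k.1, mul_comm, h3]

/-- the main terms of one pair -/
def ex (n : ℕ) (ω : ℝ) (z z' : ℂ) (k : Zv (n / 2) × Zv (n / 2)) : ℂ :=
  (Cp (n % 2) ω z k.1 k.1 + Cp (n % 2) ω z k.1 (-k.1)) *
    starRingEnd ℂ (Cp (n % 2) ω z' k.2 k.2 + Cp (n % 2) ω z' k.2 (-k.2)) +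
  (Cp (n % 2) ω z k.1 k.2 * starRingEnd ℂ (Cp (n % 2) ω z' k.2 (-k.1)) +
    Cp (n % 2) ω z k.1 (-k.2) * starRingEnd ℂ (Cp (n % 2) ω z' k.2 k.1))

theorem sum_ex (n : ℕ) (ω : ℝ) (z z' : ℂ) :
    Del n ω z * starRingEnd ℂ (Del n ω z') + Mr n ω z z' = ∑ k ∈ Kn n ω ×ˢ Kn n ω, ex n ω z z' k := by
  rw [Del, Del, Mr, map_sum, Finset.sum_mul_sum, Finset.sum_product, ← Finset.sum_add_distrib]
  exact Finset.sum_congr rfl fun k _ => Finset.sum_add_distrib.symm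

theorem norm_ex_le (n : ℕ) {ω : ℝ} (hω : 0 < ω) {z z' : ℂ} (hz : Adz z) (hz' : Adz z')
    (k : Zv (n / 2) × Zv (n / 2)) : ‖ex n ω z z' k‖ ≤ 24 * ω ^ (2 * (n / 2)) := by
  obtain ⟨a1, a2, -⟩ := (Adz.pa hz).pos
  obtain ⟨c1, c2, -⟩ := (Adz.pa hz').pos
  have b : ∀ η η', ‖Cp (n % 2) ω z k.1 η * starRingEnd ℂ (Cp (n % 2) ω z' k.2 η')‖ ≤
      4 * ω ^ (2 * (n / 2)) := fun η η' => by
    refine (cp_le n hω (Adz.pa hz).h₁ (Adz.pa hz').h₁ (k, η, η')).trans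
      (mul_le_mul_of_nonneg_left ((mul_le_of_le_one_left (mul_nonneg (by positivity)
        (Real.exp_pos _).le) (Real.rpow_le_one_of_one_le_of_nonpos
          (one_le_mul_of_one_le_of_one_le a2 c2) (by linarith [mh_nonneg n]))).trans
        (mul_le_of_le_one_right (by positivity) (Real.exp_le_one_iff.2 ?_))) (by norm_num))
    rw [neg_mul, neg_nonpos, qf]
    positivity
  rw [ex, map_add, add_mul, mul_add, mul_add]
  refine (norm_add_le_of_le (norm_add_le_of_le (norm_add_le_of_le (b _ _) (b _ _))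
    (norm_add_le_of_le (b _ _) (b _ _))) (norm_add_le_of_le (b _ _) (b _ _))).trans_eq (by ring)

theorem sum_Mn {m : ℕ} {W : Submodule ℝ (Ev m)} {k : Zv m × Zv m} (hk : iv k.1 ∉ W)
    (hk' : iv k.2 ∉ ext W k.1) : (∀ p ∈ Mn k, iv p.1 ∉ W ∧ iv p.2 ∉ W) ∧
    ∀ g : Zv m × Zv m → ℂ, ∑ p ∈ Mn k, g p = g (k.1, k.2) + (g (k.1, -k.2) + (g (-k.1, k.2) +
      (g (-k.1, -k.2) + (g (k.2, -k.1) + g (-k.2, k.1))))) := by
  have h0 : iv k.2 ∉ W := fun h => hk' ((le_ext W k.1).1 h)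
  have key : ∀ u v : ℤ, u ≠ 0 → u • k.1 + v • k.2 ≠ 0 ∧ v • k.1 + u • k.2 ≠ 0 := fun u v hu => by
    constructor <;> intro h <;> have := congrArg iv h <;>
      rw [iv_add, iv_zsmul, iv_zsmul, iv_zero] at this
    · exact hu (by exact_mod_cast (indep hk hk' (this ▸ W.zero_mem)).1)
    · exact hu (by exact_mod_cast (indep hk hk' (this ▸ W.zero_mem)).2)
  have h1 : k.1 ≠ -k.1 := fun h => (key 2 0 (by norm_num)).1 (by linear_combination (exp := 1) h)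
  have h2 : k.2 ≠ -k.2 := fun h => (key 2 0 (by norm_num)).2 (by linear_combination (exp := 1) h)
  have h3 : k.1 ≠ k.2 := fun h => (key 1 (-1) (by norm_num)).1 (by simp [h])
  have h4 : k.1 ≠ -k.2 := fun h => (key 1 1 (by norm_num)).1 (by simp [h])
  have h5 : -k.1 ≠ k.2 := fun h => h4 (by rw [← h, neg_neg])
  refine ⟨by simp [Mn, iv_neg, hk, h0], fun g => ?_⟩
  rw [Mn, Finset.sum_insert (by simp [h1, h2, h3, h4, Prod.ext_iff]),
    Finset.sum_insert (by simp [h1, h3, h4]), Finset.sum_insert (by simp [h2, h3, h5]),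
    Finset.sum_insert (by simp [h3, h5]), Finset.sum_pair (by simp [h2])]

theorem pair_hasSum {n : ℕ} {ω : ℝ} (hω : 0 < ω) {W : Submodule ℝ (Ev (n / 2))} {H : Xs (n / 2) → ℝ}
    (hH : InvW W H) {z z' : ℂ} (hz : 1 ≤ z.re) (hz' : 1 ≤ z'.re) {k : Zv (n / 2) × Zv (n / 2)}
    (hk : iv k.1 ∉ W) (hk' : iv k.2 ∉ ext W k.1) : ∃ f : Zv (n / 2) × Zv (n / 2) → ℂ,
      HasSum f (∫ x, (H x : ℂ) * (Pz n ω W z k.1 x * starRingEnd ℂ (Pz n ω W z' k.2 x)) ∂PP (n / 2) -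
        ex n ω z z' k * (∫ x, H x ∂PP (n / 2) : ℝ)) ∧
      ∀ p, ‖f p‖ ≤ if Rel W (k, p) ∧ iv p.1 ∉ W ∧ iv p.2 ∉ W ∧ p ∉ Mn k then
        (∫ x, H x ∂PP (n / 2)) * (4 * ((‖z‖ * ‖z'‖) ^ (-mh n) * (ω ^ (2 * (n / 2)) *
          gw ω z.re z'.re (z.re / ‖z‖ ^ 2) (z'.re / ‖z'‖ ^ 2) (k, p)))) else 0 := by
  let c : ℂ → Zv (n / 2) → Zv (n / 2) → ℂ := fun w k η => if iv η ∈ W then 0 else Cp (n % 2) ω w k η
  have hc : ∀ w k, 1 ≤ w.re → Summable fun η => ‖c w k η‖ := fun w k hw =>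
    .of_nonneg_of_le (fun _ => norm_nonneg _)
      (fun η => by dsimp only [c]; split_ifs <;> simp)
      ((summable_Cp (r := n % 2) hω (zero_lt_one.trans_le hw)).prod_factor k)
  have hP : ∀ w k x, Pz n ω W w k x = ∑' η, c w k η * ch η k x := fun w k x =>
    tsum_congr fun η => by simp only [c, ite_mul, zero_mul]
  have h1 := avg_two hH k.1 k.2 (hc z k.1 hz) (hc z' k.2 hz')
  simp only [← hP] at h1
  obtain ⟨m1, m2⟩ := sum_Mn hk hk'
  let f : Zv (n / 2) × Zv (n / 2) → ℂ := fun p => c z k.1 p.1 * starRingEnd ℂ (c z' k.2 p.2) *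
    ∫ x, (H x : ℂ) * (ch p.1 k.1 x * ch (-p.2) k.2 x) ∂PP (n / 2)
  have h2 : HasSum (fun p => if p ∈ Mn k then f p else 0)
      (ex n ω z z' k * (∫ x, H x ∂PP (n / 2) : ℝ)) := by
    have h3 : HasSum (fun p => if p ∈ Mn k then f p else 0) _ :=
      hasSum_sum_of_ne_finset_zero (s := Mn k) fun p hp => if_neg hp
    convert h3 using 1
    rw [Finset.sum_congr rfl (g := fun p => Cp (n % 2) ω z k.1 p.1 *
      starRingEnd ℂ (Cp (n % 2) ω z' k.2 p.2) * (∫ x, H x ∂PP (n / 2) : ℝ)) fun p hp => by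
        simp only [if_pos hp, f, c, if_neg (m1 p hp).1, if_neg (m1 p hp).2, ch_main hp, mul_one,
          integral_complex_ofReal], m2, ex, map_add]
    ring
  refine ⟨_, h1.sub h2, fun p => ?_⟩
  change ‖f p - if p ∈ Mn k then f p else 0‖ ≤ _
  split_ifs with e1 e2 e2
  · exact absurd e1 e2.2.2.2
  · simp
  · have := norm_avg_le hH p.1 k.1 (-p.2) k.2 0 0
    simp only [ch_zero, mul_one] at this
    simp only [sub_zero, f, c, if_neg e2.2.1, if_neg e2.2.2.1]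
    rw [norm_mul, mul_comm]
    exact mul_le_mul this (cp_le n hω hz hz' (k, p)) (norm_nonneg _) ((norm_nonneg _).trans this)
  · rw [sub_zero, norm_le_zero_iff]
    by_cases e3 : iv p.1 ∈ W
    · simp [f, c, e3]
    by_cases e4 : iv p.2 ∈ W
    · simp [f, c, e4]
    have := avg_eq_zero hH (η₁ := p.1) (k₁ := k.1) (η₂ := -p.2) (k₂ := k.2) (η₃ := 0) (k₃ := 0)
      fun h => e2 ⟨surv_indep hk hk' h, e3, e4, e1⟩
    simp only [ch_zero, mul_one] at this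
    simp only [f, this, mul_zero]

theorem missing : ∀ᶠ n : ℕ in atTop, ∀ᶠ ω in 𝓝[>] (0 : ℝ),
    ∀ (W : Submodule ℝ (Ev (n / 2))) (D : ℝ), Adm n ω W D 1 →
    (((Kn n ω ×ˢ Kn n ω).filter fun k => ¬(iv k.1 ∉ W ∧ iv k.2 ∉ ext W k.1)).card : ℝ) *
      (24 * ω ^ (2 * (n / 2))) ≤ rexp (-5 * n) := by
  filter_upwards [eventually_ge_atTop 100] with n hn
  obtain ⟨j, hj⟩ : ∃ j, n / 2 = MM n + 2 + (j + 1) := ⟨n / 2 - (MM n + 3), by rw [MM]; omega⟩
  have hm : (1 : ℝ) ≤ √((n / 2 : ℕ) : ℝ) := Real.one_le_sqrt.2 (by exact_mod_cast (by omega))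
  have h : Tendsto (fun ω : ℝ => 48 * √((n / 2 : ℕ) : ℝ) ^ (n / 2) * ω ^ (j + 1) *
      (2 * n + ω * √((n / 2 : ℕ) : ℝ)) ^ (n / 2 + (MM n + 2))) (𝓝[>] 0) (𝓝 0) :=
    tendsto_nhdsWithin_of_tendsto_nhds (Continuous.tendsto' (by fun_prop) 0 _ (by simp))
  filter_upwards [h.eventually (eventually_le_nhds (Real.exp_pos (-5 * n))), self_mem_nhdsWithin]
    with ω h1 (hω : 0 < ω) W D hW
  obtain ⟨G, rfl, hG, -⟩ := hW.gen
  have hX : 1 ≤ 2 * (n / ω) + √((n / 2 : ℕ) : ℝ) := le_add_of_nonneg_of_le (by positivity) hm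
  have a0 : ∀ (U : Submodule ℝ (Ev (n / 2))) (F : Finset (Zv (n / 2))),
      (∀ k ∈ F, k ∈ Kn n ω ∧ iv k ∈ U) → (F.card : ℝ) ≤ √((n / 2 : ℕ) : ℝ) ^
        (n / 2 - Module.finrank ℝ U) * (2 * (n / ω) + √((n / 2 : ℕ) : ℝ)) ^ Module.finrank ℝ U := by
    intro U F hF
    simpa using card_tube_le U le_rfl (show 0 ≤ n / ω by positivity) F fun k hk =>
      ⟨(Metric.infDist_zero_of_mem (hF k hk).2).le,
        (le_div_iff₀' hω).2 ((mem_Kn hω k).1 (hF k hk).1).2⟩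
  have a1 : ((Kn n ω).card : ℝ) ≤ (2 * (n / ω) + √((n / 2 : ℕ) : ℝ)) ^ (n / 2) := by
    simpa using a0 ⊤ _ fun k hk => ⟨hk, trivial⟩
  have a2 : ∀ G' : Finset (Zv (n / 2)), G'.card ≤ MM n + 2 →
      (((Kn n ω).filter fun k => iv k ∈ spanS G').card : ℝ) ≤ √((n / 2 : ℕ) : ℝ) ^ (n / 2) *
        (2 * (n / ω) + √((n / 2 : ℕ) : ℝ)) ^ (MM n + 2) := by
    intro G' hG'
    refine (a0 _ _ fun k hk => Finset.mem_filter.1 hk).trans (mul_le_mul
      (pow_le_pow_right₀ hm (Nat.sub_le _ _)) (pow_le_pow_right₀ hX ?_) (by positivity)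
      (by positivity))
    rw [spanS, ← Finset.coe_image]
    exact ((finrank_span_finset_le_card _).trans Finset.card_image_le).trans hG'
  have a3 : ((Kn n ω ×ˢ Kn n ω).filter fun k => ¬(iv k.1 ∉ spanS G ∧
      iv k.2 ∉ ext (spanS G) k.1)).card ≤ ((Kn n ω).filter fun k => iv k ∈ spanS G).card *
        (Kn n ω).card + ∑ k ∈ Kn n ω, ((Kn n ω).filter fun k' => iv k' ∈ spanS (insert k G)).card := by
    simp only [Finset.card_filter, spanS_insert, Finset.sum_mul, ← Finset.sum_add_distrib,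
      Finset.sum_product]
    refine Finset.sum_le_sum fun k _ => ?_
    by_cases e : iv k ∈ spanS G
    · simp [e]
    · simp [e]
  have a4 := Finset.sum_le_card_nsmul (Kn n ω) _ _ fun k _ =>
    a2 (insert k G) ((Finset.card_insert_le _ _).trans (by omega))
  rw [nsmul_eq_mul] at a4
  have a5 := mul_le_mul (a2 G (by omega)) a1 (by positivity) (by positivity)
  have a6 := a4.trans (mul_le_mul_of_nonneg_right a1 (by positivity))
  have a7 := (Nat.cast_le (α := ℝ)).2 a3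
  rw [Nat.cast_add, Nat.cast_mul, Nat.cast_sum] at a7
  refine (mul_le_mul_of_nonneg_right (a7.trans (add_le_add a5 a6)) (by positivity)).trans
    (le_trans (le_of_eq ?_) h1)
  rw [show 2 * n + ω * √((n / 2 : ℕ) : ℝ) = ω * (2 * (n / ω) + √((n / 2 : ℕ) : ℝ)) by field_simp,
    mul_pow, show 2 * (n / 2) = j + 1 + (n / 2 + (MM n + 2)) by omega]
  ring

end T3

open T3

theorem Mr_le : ∀ᶠ n : ℕ in atTop, ∀ᶠ ω in 𝓝[>] (0 : ℝ), ∀ z z' : ℂ, Adz z → Adz z' →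
    ‖Mr n ω z z'‖ ≤ 20 * (‖z‖ * ‖z'‖ * (z.re + z'.re / ‖z'‖ ^ 2) *
      (z'.re + z.re / ‖z‖ ^ 2)) ^ (-mh n) := by
  refine Eventually.of_forall fun n => ?_
  filter_upwards [small (n / 2) 3, self_mem_nhdsWithin] with ω h (hω : 0 < ω) z z' hz hz'
  obtain ⟨a1, -, a3, a4, -⟩ := (Adz.pa hz).pos
  obtain ⟨c1, -, c3, c4, -⟩ := (Adz.pa hz').pos
  have b1 := sum_mu_le hω h (β := z.re + z'.re / ‖z'‖ ^ 2) (by positivity)
    (by linarith [(Adz.pa hz).h₂]) (Kn n ω)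
  have b2 := sum_mu_le hω h (β := z'.re + z.re / ‖z‖ ^ 2) (by positivity)
    (by linarith [(Adz.pa hz').h₂]) (Kn n ω)
  have b3 : ∀ k k' η η' : Zv (n / 2), ‖iv η‖ = ‖iv k'‖ → ‖iv η'‖ = ‖iv k‖ →
      ‖Cp (n % 2) ω z k η * starRingEnd ℂ (Cp (n % 2) ω z' k' η')‖ ≤ 4 * (‖z‖ * ‖z'‖) ^ (-mh n) *
        (mu n ω (z.re + z'.re / ‖z'‖ ^ 2) k * mu n ω (z'.re + z.re / ‖z‖ ^ 2) k') := by
    intro k k' η η' e1 e2
    refine (cp_le n hω (Adz.pa hz).h₁ (Adz.pa hz').h₁ ((k, k'), η, η')).trans_eq ?_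
    rw [gw, qf, e1, e2, mu, mu, mul_mul_mul_comm (ω ^ (n / 2)), ← pow_add, ← two_mul,
      ← Real.exp_add, mul_assoc 4]
    congr 4; ring
  have b4 : ‖Mr n ω z z'‖ ≤ 8 * (‖z‖ * ‖z'‖) ^ (-mh n) *
      ((∑ k ∈ Kn n ω, mu n ω (z.re + z'.re / ‖z'‖ ^ 2) k) *
        ∑ k' ∈ Kn n ω, mu n ω (z'.re + z.re / ‖z‖ ^ 2) k') := by
    rw [Finset.sum_mul_sum, Finset.mul_sum]
    refine norm_sum_le_of_le _ fun k _ => ?_
    rw [Finset.mul_sum]
    exact norm_sum_le_of_le _ fun k' _ => (norm_add_le_of_le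
      (b3 k k' _ _ rfl (by rw [iv_neg, norm_neg])) (b3 k k' _ _ (by rw [iv_neg, norm_neg]) rfl)).trans_eq
      (by ring)
  have b5 := mul_le_mul_of_nonneg_left (mul_le_mul b1 b2
    (Finset.sum_nonneg fun k _ => by rw [mu]; positivity) (by positivity))
    (show 0 ≤ 8 * (‖z‖ * ‖z'‖) ^ (-mh n) by positivity)
  rw [Real.mul_rpow (x := _ * _ * _) (by positivity) (by positivity),
    Real.mul_rpow (x := _ * _) (by positivity) (by positivity)]
  have : 0 ≤ (‖z‖ * ‖z'‖) ^ (-mh n) * (z.re + z'.re / ‖z'‖ ^ 2) ^ (-mh n) *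
    (z'.re + z.re / ‖z‖ ^ 2) ^ (-mh n) := by positivity
  linarith

/-- pairs of fibres that are independent modulo `W` -/
theorem indep_pairs : ∀ᶠ n : ℕ in atTop, ∀ᶠ ω in 𝓝[>] (0 : ℝ),
    ∀ (W : Submodule ℝ (Ev (n / 2))) (D : ℝ) (H : Xs (n / 2) → ℝ), Adm n ω W D 1 →
      D ≤ ω⁻¹ ^ (MM n + 2) → InvW W H → ∀ z z' : ℂ, Adz z → Adz z' →
      ‖∑ k ∈ (Kn n ω).filter (fun k => iv k ∉ W),
          ∑ k' ∈ (Kn n ω).filter (fun k' => iv k' ∉ ext W k),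
            ∫ x, (H x : ℂ) * (Pz n ω W z k x * starRingEnd ℂ (Pz n ω W z' k' x)) ∂PP (n / 2) -
        (Del n ω z * starRingEnd ℂ (Del n ω z') + Mr n ω z z') * (∫ x, H x ∂PP (n / 2) : ℝ)‖ ≤
        (∫ x, H x ∂PP (n / 2)) * Err n ω W D * (Nz n z.re * Nz n z'.re) := by
  filter_upwards [key, missing, final_num, eventually_ge_atTop 1] with n h1 h2 h3 hn
  filter_upwards [h1, h2, self_mem_nhdsWithin] with ω h1 h2 (hω : 0 < ω)
  intro W D H hW _ hH z z' hz hz'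
  have hE : 0 ≤ ∫ x, H x ∂PP (n / 2) := integral_nonneg hH.nonneg
  let A := (Kn n ω ×ˢ Kn n ω).filter fun k => iv k.1 ∉ W ∧ iv k.2 ∉ ext W k.1
  have hA : ∀ k ∈ A, (k.1 ∈ Kn n ω ∧ k.2 ∈ Kn n ω) ∧ iv k.1 ∉ W ∧ iv k.2 ∉ ext W k.1 := fun k hk => by
    simpa only [A, Finset.mem_filter, Finset.mem_product] using hk
  have e1 : ∀ g : Zv (n / 2) → Zv (n / 2) → ℂ, ∑ k ∈ (Kn n ω).filter (fun k => iv k ∉ W),
      ∑ k' ∈ (Kn n ω).filter (fun k' => iv k' ∉ ext W k), g k k' = ∑ k ∈ A, g k.1 k.2 := fun g => by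
    simp only [A, Finset.sum_filter, Finset.sum_product]
    refine Finset.sum_congr rfl fun k _ => ?_
    by_cases e : iv k ∈ W <;> simp [e]
  rw [e1, sum_ex, ← Finset.sum_filter_add_sum_filter_not (Kn n ω ×ˢ Kn n ω)
    fun k => iv k.1 ∉ W ∧ iv k.2 ∉ ext W k.1, add_mul, ← sub_sub, Finset.sum_mul, ← Finset.sum_sub_distrib]
  choose! f hf hf' using fun k (hk : k ∈ A) =>
    pair_hasSum hω hH (Adz.pa hz).h₁ (Adz.pa hz').h₁ (hA k hk).2.1 (hA k hk).2.2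
  have b1 := le_of_tendsto' (Tendsto.norm (hasSum_sum hf)) (b := (∫ x, H x ∂PP (n / 2)) *
    (4 * (1 / 8 * Err n ω W D * (Nz n z.re * Nz n z'.re)))) fun P => by
      rw [Finset.sum_comm, ← Finset.sum_product']
      refine (norm_sum_le_of_le _ fun q hq => hf' q.1 (Finset.mem_product.1 hq).1 q.2).trans ?_
      rw [← Finset.sum_filter]
      simp only [← Finset.mul_sum]
      refine mul_le_mul_of_nonneg_left (mul_le_mul_of_nonneg_left (h1 W D hW _ _ _ _ (Adz.pa hz)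
        (Adz.pa hz') _ fun q hq => ?_) (by norm_num)) hE
      obtain ⟨r1, r2, r3⟩ := Finset.mem_filter.1 hq
      obtain ⟨⟨r4, r5⟩, r6, r7⟩ := hA _ (Finset.mem_product.1 r1).1
      exact ⟨⟨r4, r6, r5, r7, r2⟩, r3⟩
  have b2 := (norm_sum_le_of_le ((Kn n ω ×ˢ Kn n ω).filter fun k =>
    ¬(iv k.1 ∉ W ∧ iv k.2 ∉ ext W k.1)) fun k _ => norm_ex_le n hω hz hz' k).trans_eq
      ((Finset.sum_const _).trans (nsmul_eq_mul _ _))
  have hR := Rn_pos n (Adz.pa hz).pos.1 (Adz.pa hz').pos.1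
  have b3 := h3 _ _ (Adz.pa hz).pos.1 (Adz.pa hz').pos.1
  have b4 : Rn n z.re z'.re ≤ 2000 * (n : ℝ) ^ 48 * En n ^ 48 * Rn n z.re z'.re := by
    refine le_mul_of_one_le_left hR.le (one_le_mul_of_one_le_of_one_le
      (one_le_mul_of_one_le_of_one_le (by norm_num) (one_le_pow₀ (by exact_mod_cast hn)))
      (one_le_pow₀ (one_le_En n)))
  have b5 : 1 ≤ D ^ 3 + D * Sh n ω W := le_add_of_le_of_nonneg (one_le_pow₀ hW.one_le)
    (mul_nonneg (zero_le_one.trans hW.one_le) (Sh_nonneg n ω W))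
  have b6 := (b4.trans b3).trans (le_mul_of_one_le_right (hR.le.trans (b4.trans b3)) b5)
  have b7 := mul_le_mul_of_nonneg_left (((b2.trans (h2 W D hW)).trans
    (exp_le_Rn n (Adz.pa hz) (Adz.pa hz'))).trans b6) hE
  have b8 := mul_nonneg hE (hR.le.trans b6)
  refine (norm_sub_le_of_le b1 (le_of_eq (norm_mul _ _))).trans ?_
  rw [Complex.norm_real, Real.norm_of_nonneg hE, Err]
  linarith

end Pool.Agent.Eps
end
end

-- part Pool.Agent.Lib.MP_3bda03_nt.T2A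
section

set_option autoImplicit false

noncomputable section

open scoped BigOperators Classical Topology
open MeasureTheory Real Complex Filter

namespace Pool.Agent.Eps

/-! ### numerical tools -/

lemma t2_mh_nonneg (n : ℕ) : 0 ≤ mh n := by unfold mh; positivity

lemma t2_rpow_anti (n : ℕ) {a b : ℝ} (ha : 0 < a) (hab : a ≤ b) : b ^ (-mh n) ≤ a ^ (-mh n) :=
  Real.rpow_le_rpow_of_nonpos ha hab (by linarith [t2_mh_nonneg n])

lemma t2_rpow_le_one (n : ℕ) {b : ℝ} (hb : 1 ≤ b) : b ^ (-mh n) ≤ 1 := by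
  simpa using t2_rpow_anti n one_pos hb

lemma t2_Lz (τ : ℝ) : 1 ≤ Lz τ ∧ Lz τ ≤ 1.0095 := by
  unfold Lz; split_ifs <;> norm_num

lemma t2_Lz_cases (τ : ℝ) : (τ ≤ 1.38 ∧ Lz τ = 1) ∨ (1.38 < τ ∧ Lz τ = 1.0095) := by
  unfold Lz; split_ifs with h
  · exact Or.inl ⟨h, rfl⟩
  · exact Or.inr ⟨not_le.1 h, rfl⟩

lemma t2_adz {z : ℂ} (hz : Adz z) : 1 ≤ z.re ∧ z.re ≤ 1.55 := by
  rcases hz with ⟨_, h1, h2⟩ | h | h
  · exact ⟨h1, by linarith⟩
  · rw [h]; norm_num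
  · rw [h]; norm_num

lemma t2_adz_real {z : ℂ} (hz : Adz z) (h : z.re ≤ 1.38) : ‖z‖ = z.re := by
  rcases hz with ⟨h0, h1, _⟩ | h' | h'
  · rw [← Complex.abs_re_eq_norm.2 h0, abs_of_nonneg (by linarith)]
  · rw [h'] at h; norm_num at h
  · rw [h'] at h; norm_num at h

lemma t2_Nz_pos (n : ℕ) {τ : ℝ} (hτ : 0 < τ) : 0 < Nz n τ := by
  unfold Nz
  have := (t2_Lz τ).1
  exact Real.rpow_pos_of_pos (by positivity) _

lemma t2_Nz_mul (n : ℕ) {τ τ' : ℝ} (hτ : 0 < τ) (hτ' : 0 < τ') :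
    Nz n τ * Nz n τ' = (4 * τ * τ' * (Lz τ * Lz τ')) ^ (-mh n) := by
  unfold Nz
  have := (t2_Lz τ).1
  have := (t2_Lz τ').1
  rw [← Real.mul_rpow (by positivity) (by positivity)]
  congr 1; ring

lemma t2_exp_rpow (a b : ℝ) : rexp a ^ b = rexp (a * b) := by
  rw [← Real.exp_mul]

lemma t2_Nz_lb (n : ℕ) {τ : ℝ} (h1 : 1 ≤ τ) (h2 : τ ≤ 1.55) : rexp (-(n : ℝ) / 2) ≤ Nz n τ := by
  unfold Nz
  have hL := t2_Lz τ
  have h3 : 2 * τ * Lz τ ≤ rexp 2 := by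
    have := Real.add_one_le_exp (1 : ℝ)
    have h : rexp 2 = rexp 1 * rexp 1 := by rw [← Real.exp_add]; norm_num
    nlinarith
  refine le_trans ?_ (t2_rpow_anti n (by nlinarith) h3)
  rw [t2_exp_rpow]
  apply Real.exp_le_exp.2
  linarith [(mh_le n).2]

lemma t2_NN_lb (n : ℕ) {τ τ' : ℝ} (h1 : 1 ≤ τ) (h2 : τ ≤ 1.55) (h1' : 1 ≤ τ') (h2' : τ' ≤ 1.55) :
    rexp (-(n : ℝ)) ≤ Nz n τ * Nz n τ' := by
  have h : rexp (-(n : ℝ)) = rexp (-(n : ℝ) / 2) * rexp (-(n : ℝ) / 2) := by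
    rw [← Real.exp_add]; congr 1; ring
  rw [h]
  exact mul_le_mul (t2_Nz_lb n h1 h2) (t2_Nz_lb n h1' h2') (Real.exp_pos _).le
    (t2_Nz_pos n (by linarith)).le

/-- comparison of a negative power with the product of the normalisations -/
lemma t2_le_NN (n : ℕ) {τ τ' Y R : ℝ} (hτ : 0 < τ) (hτ' : 0 < τ') (hR : 0 < R)
    (h : R * (4 * τ * τ' * (Lz τ * Lz τ')) ≤ Y) :
    Y ^ (-mh n) ≤ R ^ (-mh n) * (Nz n τ * Nz n τ') := by
  have := (t2_Lz τ).1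
  have := (t2_Lz τ').1
  rw [t2_Nz_mul n hτ hτ', ← Real.mul_rpow hR.le (by positivity)]
  exact t2_rpow_anti n (by positivity) h

lemma t2_le_N (n : ℕ) {τ Y R : ℝ} (hτ : 0 < τ) (hR : 0 < R) (h : R * (2 * τ * Lz τ) ≤ Y) :
    Y ^ (-mh n) ≤ R ^ (-mh n) * Nz n τ := by
  have := (t2_Lz τ).1
  rw [Nz, ← Real.mul_rpow hR.le (by positivity)]
  exact t2_rpow_anti n (by positivity) h

lemma t2_decay (C : ℝ) (j : ℕ) {R a ε : ℝ} (hC : 0 ≤ C) (ha : 0 ≤ a) (hε : 4 * ε < a)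
    (hR : rexp a ≤ R) :
    ∀ᶠ n : ℕ in atTop, C * (n : ℝ) ^ j * En n ^ j * R ^ (-mh n) ≤ rexp (-ε * n) := by
  filter_upwards [En_pow_le (C * rexp (a / 4)) j (show 0 < a / 4 - ε by linarith)] with n hn
  have h1 : R ^ (-mh n) ≤ rexp (a / 4) * rexp (-(a / 4) * n) := by
    refine (t2_rpow_anti n (Real.exp_pos _) hR).trans ?_
    rw [t2_exp_rpow, ← Real.exp_add]
    apply Real.exp_le_exp.2
    nlinarith [(mh_le n).1]
  have h0 : 0 ≤ C * (n : ℝ) ^ j * En n ^ j := by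
    have := one_le_En n
    positivity
  calc _ ≤ C * (n : ℝ) ^ j * En n ^ j * (rexp (a / 4) * rexp (-(a / 4) * n)) :=
        mul_le_mul_of_nonneg_left h1 h0
    _ = (C * rexp (a / 4) * (n : ℝ) ^ j * En n ^ j) * rexp (-(a / 4) * n) := by ring
    _ ≤ rexp ((a / 4 - ε) * n) * rexp (-(a / 4) * n) :=
        mul_le_mul_of_nonneg_right hn (Real.exp_pos _).le
    _ = _ := by rw [← Real.exp_add]; congr 1; ring

lemma t2_growth (C : ℝ) (j : ℕ) {R a ε : ℝ} (hC : 0 ≤ C) (ha : 0 ≤ a) (hε : a < 4 * ε)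
    (hR : rexp (-a) ≤ R) :
    ∀ᶠ n : ℕ in atTop, C * (n : ℝ) ^ j * En n ^ j * R ^ (-mh n) ≤ rexp (ε * n) := by
  filter_upwards [En_pow_le C j (show 0 < ε - a / 4 by linarith)] with n hn
  have h1 : R ^ (-mh n) ≤ rexp (a / 4 * n) := by
    refine (t2_rpow_anti n (Real.exp_pos _) hR).trans ?_
    rw [t2_exp_rpow]
    apply Real.exp_le_exp.2
    nlinarith [(mh_le n).2]
  have h0 : 0 ≤ C * (n : ℝ) ^ j * En n ^ j := by
    have := one_le_En n
    positivity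
  calc _ ≤ rexp ((ε - a / 4) * n) * rexp (a / 4 * n) :=
        mul_le_mul hn h1 (Real.rpow_nonneg ((Real.exp_pos _).le.trans hR) _) (Real.exp_pos _).le
    _ = _ := by rw [← Real.exp_add]; congr 1; ring

lemma t2_log_ge (C : ℝ) : ∀ᶠ n : ℕ in atTop, C ≤ Real.log n :=
  (Real.tendsto_log_atTop.comp tendsto_natCast_atTop_atTop).eventually_ge_atTop C

lemma t2_Env : ∀ᶠ n : ℕ in atTop, ∀ β : ℝ, 1 / 1000 ≤ β → Env n 1 β = En n ^ 2 := by
  filter_upwards [t2_log_ge 4000] with n hn β hβ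
  have h : (4 : ℝ) ^ 1 / (β * Real.log n) ≤ 1 := by
    rw [div_le_one (by nlinarith)]
    nlinarith
  rw [Env, max_eq_left h, one_pow, mul_one]

/-- anything continuous that vanishes at `ω = 0` is eventually small -/
lemma t2_small (C : ℝ) {j : ℕ} (hj : 1 ≤ j) {ε : ℝ} (hε : 0 < ε) :
    ∀ᶠ ω in 𝓝[>] (0 : ℝ), C * ω ^ j ≤ ε := by
  have h : Tendsto (fun ω : ℝ => C * ω ^ j) (𝓝 0) (𝓝 (C * 0 ^ j)) :=
    (by fun_prop : Continuous fun ω : ℝ => C * ω ^ j).tendsto 0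
  rw [zero_pow (by omega), mul_zero] at h
  exact (h.mono_left nhdsWithin_le_nhds).eventually_le_const hε

lemma t2_pow_le (n : ℕ) (L : ℝ) : ∀ᶠ ω in 𝓝[>] (0 : ℝ), ∀ S : ℝ, 0 < S → S ≤ L ^ 2 →
    (ω + 1 / √S) ^ (n / 2) ≤ 2 * S ^ (-mh n) := by
  have h : Tendsto (fun ω : ℝ => (1 + ω * |L|) ^ (n / 2)) (𝓝 0) (𝓝 ((1 + 0 * |L|) ^ (n / 2))) :=
    (by fun_prop : Continuous fun ω : ℝ => (1 + ω * |L|) ^ (n / 2)).tendsto 0
  simp only [zero_mul, add_zero, one_pow] at h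
  filter_upwards [(h.mono_left nhdsWithin_le_nhds).eventually_le_const (by norm_num : (1 : ℝ) < 2),
    self_mem_nhdsWithin] with ω hω hω0 S hS hSL
  have hω0 : 0 < ω := hω0
  have hs : 0 < √S := Real.sqrt_pos.2 hS
  have h1 : √S ≤ |L| := by
    rw [← Real.sqrt_sq_eq_abs]; exact Real.sqrt_le_sqrt hSL
  have h2 : ω + 1 / √S = (1 + ω * √S) * (1 / √S) := by field_simp; ring
  have h3 : (1 / √S) ^ (n / 2) = S ^ (-mh n) := by
    rw [Real.sqrt_eq_rpow, one_div, ← Real.rpow_neg hS.le, ← Real.rpow_natCast,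
      ← Real.rpow_mul hS.le]
    congr 1; unfold mh; ring
  rw [h2, mul_pow, h3]
  refine mul_le_mul_of_nonneg_right (le_trans ?_ hω) (Real.rpow_nonneg hS.le _)
  exact pow_le_pow_left₀ (by positivity) (by nlinarith) _

lemma t2_MM : ∀ᶠ n : ℕ in atTop, MM n + 3 ≤ n / 2 := by
  filter_upwards [eventually_ge_atTop 20] with n hn
  unfold MM; omega

/-- a spare factor `ω ^ m` absorbs one factor `D` -/
lemma t2_spare {n : ℕ} (hn : MM n + 3 ≤ n / 2) {ω D : ℝ} (hω : 0 < ω)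
    (hD : D ≤ ω⁻¹ ^ (MM n + 2)) : ω ^ (n / 2) * D ≤ ω ^ (n / 2 - (MM n + 2)) := by
  have h : ω ^ (n / 2) = ω ^ (n / 2 - (MM n + 2)) * ω ^ (MM n + 2) := by
    rw [← pow_add]; congr 1; omega
  calc _ ≤ ω ^ (n / 2) * ω⁻¹ ^ (MM n + 2) := mul_le_mul_of_nonneg_left hD (by positivity)
    _ = _ := by
      rw [h, mul_assoc, ← mul_pow, mul_inv_cancel₀ hω.ne', one_pow, mul_one]

/-! ### integrability -/

variable {m : ℕ}

lemma t2_int_cont {E : Type} [NormedAddCommGroup E] {g : Xs m → E} (hg : Continuous g) :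
    Integrable g (PP m) :=
  hg.continuousOn.integrableOn_compact isCompact_Icc

lemma t2_int_mul {W : Submodule ℝ (Ev m)} {H : Xs m → ℝ} (h : InvW W H) {g : Xs m → ℝ}
    (hg : Integrable g (PP m)) : Integrable (fun x => H x * g x) (PP m) :=
  hg.bdd_mul (c := 1) h.meas.aestronglyMeasurable (Eventually.of_forall fun x => by
    rw [Real.norm_of_nonneg (h.nonneg x)]; exact h.le_one x)

lemma t2_int_mulC {W : Submodule ℝ (Ev m)} {H : Xs m → ℝ} (h : InvW W H) {g : Xs m → ℂ}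
    (hg : Integrable g (PP m)) : Integrable (fun x => (H x : ℂ) * g x) (PP m) :=
  hg.bdd_mul (c := 1) (Complex.measurable_ofReal.comp h.meas).aestronglyMeasurable
    (Eventually.of_forall fun x => by
      rw [Complex.norm_real, Real.norm_of_nonneg (h.nonneg x)]; exact h.le_one x)

lemma t2_EH_nonneg {W : Submodule ℝ (Ev m)} {H : Xs m → ℝ} (h : InvW W H) :
    0 ≤ ∫ x, H x ∂PP m := integral_nonneg h.nonneg

lemma t2_cont_FS {r : ℕ} {ω β : ℝ} (hω : 0 < ω) (hβ : 0 < β) (k : Zv m) :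
    Continuous (FS r ω (ft β) k) := by
  have h : FS r ω (ft β) k = fun x => (Fz r ω (β : ℂ) k x).re := by
    funext x; rw [Fz_ofReal hω hβ, Complex.ofReal_re]
  rw [h]
  exact Complex.continuous_re.comp (continuous_Fz hω (by simpa using hβ) k)

lemma t2_FS_nonneg {r : ℕ} (ω β : ℝ) (k : Zv m) (x : Xs m) : 0 ≤ FS r ω (ft β) k x :=
  tsum_nonneg fun _ => (Real.exp_pos _).le

/-- norm of a weighted integral, bounded through a pointwise majorant -/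
lemma t2_norm_le {W : Submodule ℝ (Ev m)} {H : Xs m → ℝ} (h : InvW W H) {g : Xs m → ℂ}
    {b : Xs m → ℝ} (hb : Integrable b (PP m)) (hg : ∀ x, ‖g x‖ ≤ b x) :
    ‖∫ x, (H x : ℂ) * g x ∂PP m‖ ≤ ∫ x, H x * b x ∂PP m :=
  norm_integral_le_of_norm_le (t2_int_mul h hb) (Eventually.of_forall fun x => by
    rw [norm_mul, Complex.norm_real, Real.norm_of_nonneg (h.nonneg x)]
    exact mul_le_mul_of_nonneg_left (hg x) (h.nonneg x))

/-! ### Gaussian weights and sums over pairs -/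

/-- the Gaussian weight of an integer vector -/
def gw (ω β : ℝ) (k : Zv m) : ℝ := rexp (-π * β * (ω ^ 2 * ‖iv k‖ ^ 2))

lemma gw_pos (ω β : ℝ) (k : Zv m) : 0 < gw ω β k := Real.exp_pos _

lemma gw_le_one (ω : ℝ) {β : ℝ} (hβ : 0 ≤ β) (k : Zv m) : gw ω β k ≤ 1 := by
  unfold gw
  apply Real.exp_le_one_iff.2
  have : 0 ≤ π * β * (ω ^ 2 * ‖iv k‖ ^ 2) := by positivity
  linarith

lemma summable_gw {ω β : ℝ} (hω : 0 < ω) (hβ : 0 < β) : Summable (gw ω β : Zv m → ℝ) := by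
  refine (summable_th (m := m) hω hβ (fun _ => True)).congr fun k => ?_
  simp only [if_true, gw]

lemma t2_summable_pair {ω A A' : ℝ} (hω : 0 < ω) (hA : 0 < A) (hA' : 0 < A')
    (P : Zv m × Zv m → Prop) :
    Summable fun p : Zv m × Zv m => if P p then gw ω A p.1 * gw ω A' p.2 else 0 := by
  refine Summable.of_nonneg_of_le (fun p => ?_) (fun p => ?_)
    ((summable_gw hω hA).mul_of_nonneg (summable_gw hω hA') (fun k => (gw_pos _ _ k).le)
      (fun k => (gw_pos _ _ k).le))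
  · split_ifs
    · exact (mul_pos (gw_pos _ _ _) (gw_pos _ _ _)).le
    · exact le_rfl
  · split_ifs
    · exact le_rfl
    · exact (mul_pos (gw_pos _ _ _) (gw_pos _ _ _)).le

/-- unimodular change of variables on pairs of integer vectors -/
def t2_equiv {a b u v : ℤ} (h : u * a + v * b = 1) : Zv m × Zv m ≃ Zv m × Zv m where
  toFun p := (u • p.1 - b • p.2, v • p.1 + a • p.2)
  invFun p := (a • p.1 + b • p.2, u • p.2 - v • p.1)
  left_inv p := by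
    ext i
    · simp only [Pi.add_apply, Pi.sub_apply, Pi.smul_apply, smul_eq_mul]
      linear_combination p.1 i * h
    · simp only [Pi.add_apply, Pi.sub_apply, Pi.smul_apply, smul_eq_mul]
      linear_combination p.2 i * h
  right_inv p := by
    ext i
    · simp only [Pi.add_apply, Pi.sub_apply, Pi.smul_apply, smul_eq_mul]
      linear_combination p.1 i * h
    · simp only [Pi.add_apply, Pi.sub_apply, Pi.smul_apply, smul_eq_mul]
      linear_combination p.2 i * h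

/-- Gaussian sum over pairs with a condition on a primitive integer combination -/
lemma t2_pair_sum {ω A A' : ℝ} (hω : 0 < ω) (hA : 0 < A) (hA' : 0 < A') {a b : ℤ}
    (hab : IsCoprime a b) (hs : 0 < A * (b : ℝ) ^ 2 + A' * (a : ℝ) ^ 2) (P : Zv m → Prop) :
    ω ^ m * ∑' p : Zv m × Zv m, (if P (a • p.1 + b • p.2) then gw ω A p.1 * gw ω A' p.2 else 0) ≤
      (ω + 1 / √(A * (b : ℝ) ^ 2 + A' * (a : ℝ) ^ 2)) ^ m *
        ∑' l : Zv m, if P l then gw ω (A * A' / (A * (b : ℝ) ^ 2 + A' * (a : ℝ) ^ 2)) l else 0 := by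
  obtain ⟨u, v, h⟩ := hab
  have hsum := t2_summable_pair hω hA hA' (fun p : Zv m × Zv m => P (a • p.1 + b • p.2))
  rw [← (t2_equiv (m := m) h).tsum_eq]
  have hsum' := (t2_equiv (m := m) h).summable_iff.2 hsum
  have hc : 0 < A * A' / (A * (b : ℝ) ^ 2 + A' * (a : ℝ) ^ 2) := by positivity
  have e1 : ∀ l x : Zv m, a • ((t2_equiv (m := m) h) (l, x)).1 + b • ((t2_equiv (m := m) h) (l, x)).2
      = l := fun l x => congrArg Prod.fst ((t2_equiv (m := m) h).left_inv (l, x))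
  have hR : (u : ℝ) * a + v * b = 1 := by exact_mod_cast h
  have key : ∀ l : Zv m, ω ^ m * ∑' x : Zv m, gw ω A (u • l - b • x) * gw ω A' (v • l + a • x) ≤
      (ω + 1 / √(A * (b : ℝ) ^ 2 + A' * (a : ℝ) ^ 2)) ^ m *
        gw ω (A * A' / (A * (b : ℝ) ^ 2 + A' * (a : ℝ) ^ 2)) l := by
    intro l
    have hs' : 0 < A * (-b : ℝ) ^ 2 + A' * (a : ℝ) ^ 2 := by rwa [neg_sq]
    have g := (gauss_two hω hA.le hA'.le hs' ((u : ℝ) • iv l) ((v : ℝ) • iv l)).2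
    rw [neg_sq] at g
    have e2 : (a : ℝ) • (u : ℝ) • iv l - (-b : ℝ) • (v : ℝ) • iv l = iv l := by
      rw [smul_smul, smul_smul, ← sub_smul]
      have : (a : ℝ) * u - -b * v = 1 := by linarith
      rw [this, one_smul]
    rw [e2] at g
    convert g using 3
    · funext x
      rw [gw, gw, ← Real.exp_add, iv_sub, iv_add, iv_zsmul, iv_zsmul, iv_zsmul, iv_zsmul]
      have e3 : (u : ℝ) • iv l - (b : ℝ) • iv x = (-b : ℝ) • iv x + (u : ℝ) • iv l := by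
        rw [neg_smul]; abel
      rw [e3, add_comm ((v : ℝ) • iv l)]
      congr 1; ring
    · rw [gw]; congr 1; ring
  simp only [Function.comp_def] at hsum'
  rw [Summable.tsum_prod hsum', ← tsum_mul_left, ← tsum_mul_left]
  refine Summable.tsum_le_tsum (fun l => ?_) (hsum'.prod.mul_left _)
    (Summable.mul_left _ (summable_th hω hc P))
  simp only [e1]
  split_ifs
  · exact key l
  · simp

end Pool.Agent.Eps
end
end

-- part Pool.Agent.Lib.MP_3bda03_nt.T2B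
section

set_option autoImplicit false

noncomputable section

open scoped BigOperators Classical Topology
open MeasureTheory Real Complex Filter

namespace Pool.Agent.Eps

variable {m : ℕ}

lemma t2_sum_le_th {ω β : ℝ} (hω : 0 < ω) (hβ : 0 < β) (V : Submodule ℝ (Ev m))
    (F : Finset (Zv m)) (hF : ∀ k ∈ F, iv k ∈ V) : ∑ k ∈ F, gw ω β k ≤ th ω V β := by
  have h : ∑ k ∈ F, gw ω β k =
      ∑ k ∈ F, if iv k ∈ V then rexp (-π * β * (ω ^ 2 * ‖iv k‖ ^ 2)) else 0 :=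
    Finset.sum_congr rfl fun k hk => by rw [if_pos (hF k hk), gw]
  rw [h]
  refine (summable_th hω hβ _).sum_le_tsum F fun k _ => ?_
  split_ifs
  · exact (Real.exp_pos _).le
  · exact le_rfl

lemma t2_th_nonneg (ω β : ℝ) (V : Submodule ℝ (Ev m)) : 0 ≤ th ω V β :=
  tsum_nonneg fun k => by
    split_ifs
    · exact (Real.exp_pos _).le
    · exact le_rfl

lemma t2_dk_pos {n : ℕ} {ω D : ℝ} {W : Submodule ℝ (Ev (n / 2))} {lvl : ℕ} (hω : 0 < ω)
    (hW : Adm n ω W D lvl) {k : Zv (n / 2)} (hk : iv k ∉ W) : 0 < dk ω W k := by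
  obtain ⟨G, rfl, -⟩ := hW.gen
  exact dk_pos hω G hk

lemma t2_th_ext' {n : ℕ} {ω D : ℝ} {W : Submodule ℝ (Ev (n / 2))} (hω : 0 < ω)
    (hW : Adm n ω W D 1) {k : Zv (n / 2)} (hk : iv k ∉ W) {β : ℝ} (hβ : 0 < β) :
    th ω (ext W k) β ≤ D * Env n 1 (β / 4) * (1 + 1 / (dk ω W k * √β)) := by
  have hd := t2_dk_pos hω hW hk
  have h1 := hW.th_le (β / 4) (by positivity)
  obtain ⟨G, rfl, -⟩ := hW.gen
  exact (th_ext_le hω hβ G hk).trans (mul_le_mul_of_nonneg_right h1 (by positivity))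

lemma t2_th_ext : ∀ᶠ n : ℕ in atTop, ∀ ω : ℝ, 0 < ω → ∀ (W : Submodule ℝ (Ev (n / 2))) (D : ℝ),
    Adm n ω W D 1 → ∀ k : Zv (n / 2), iv k ∉ W → ∀ β : ℝ, 1 ≤ β →
      th ω (ext W k) β ≤ D * En n ^ 2 * (1 + 1 / dk ω W k) := by
  filter_upwards [t2_Env] with n hn ω hω W D hW k hk β hβ
  have hd := t2_dk_pos hω hW hk
  have h := t2_th_ext' hω hW hk (by linarith : 0 < β)
  rw [hn _ (by linarith)] at h
  refine h.trans (mul_le_mul_of_nonneg_left ?_ ?_)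
  · have h1 : 1 ≤ √β := Real.one_le_sqrt.2 hβ
    have h2 : 1 / (dk ω W k * √β) ≤ 1 / dk ω W k :=
      one_div_le_one_div_of_le hd (by nlinarith)
    linarith
  · have := hW.one_le
    positivity

lemma t2_swap_pt {P P' F F' : ℂ} {s s' f f' : ℝ} (h1 : ‖F - P‖ ≤ s) (h2 : ‖F' - P'‖ ≤ s')
    (h3 : ‖F‖ ≤ f) (h4 : ‖F'‖ ≤ f') :
    ‖P * starRingEnd ℂ P' - F * starRingEnd ℂ F'‖ ≤ s * f' + s' * f + s * s' := by
  have e : P * starRingEnd ℂ P' - F * starRingEnd ℂ F' =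
      -((F - P) * starRingEnd ℂ P') - F * starRingEnd ℂ (F' - P') := by
    rw [map_sub]; ring
  have h5 : ‖P'‖ ≤ f' + s' := by
    have : P' = F' - (F' - P') := by ring
    rw [this]
    exact (norm_sub_le _ _).trans (add_le_add h4 h2)
  rw [e]
  refine (norm_sub_le _ _).trans ?_
  rw [norm_neg, norm_mul, norm_mul, Complex.norm_conj, Complex.norm_conj]
  have a1 := mul_le_mul h1 h5 (norm_nonneg _) ((norm_nonneg _).trans h1)
  have a2 := mul_le_mul h3 h2 (norm_nonneg _) ((norm_nonneg _).trans h3)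
  nlinarith

/-- conditional mean of one fibre sum at a parameter at least one -/
lemma t2_avg_FS : ∀ᶠ n : ℕ in atTop, ∀ ω : ℝ, 0 < ω →
    ∀ (W : Submodule ℝ (Ev (n / 2))) (D : ℝ) (H : Xs (n / 2) → ℝ), Adm n ω W D 1 → InvW W H →
      ∀ β : ℝ, 1 ≤ β → β ≤ 4 → ∀ k : Zv (n / 2), iv k ∉ W →
      ∫ x, H x * FS (n % 2) ω (ft β) k x ∂PP (n / 2) ≤ (∫ x, H x ∂PP (n / 2)) *
        ((1 + 1 / dk ω W k) * (ω ^ (n / 2) * D * En n ^ 3 * gw ω β k)) := by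
  filter_upwards [avg_FS_le] with n hn ω hω W D H hW hH β h1 h4 k hk
  refine (hn ω hω W D H hW hH β ⟨by linarith, h4⟩ k hk).trans
    (mul_le_mul_of_nonneg_left ?_ (t2_EH_nonneg hH))
  have hd := t2_dk_pos hω hW hk
  have hD := hW.one_le
  have hE := one_le_En n
  have hb := t2_rpow_le_one n h1
  have hg := gw_pos ω β k
  calc _ = ((1 + 1 / dk ω W k) * (ω ^ (n / 2) * D * En n ^ 3 * gw ω β k)) * β ^ (-mh n) := by
        rw [gw]; ring
    _ ≤ _ := mul_le_of_le_one_right (by positivity) hb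

/-- replacing the oscillating parts by the full fibre sums -/
lemma t2_swap : ∀ᶠ n : ℕ in atTop, ∀ ω : ℝ, 0 < ω →
    ∀ (W : Submodule ℝ (Ev (n / 2))) (D : ℝ) (H : Xs (n / 2) → ℝ), Adm n ω W D 1 → InvW W H →
      ∀ z z' : ℂ, Adz z → Adz z' → ∀ k k' : Zv (n / 2), iv k ∉ W → iv k' ∉ W → iv k' ∈ ext W k →
      ‖∫ x, (H x : ℂ) * (Pz n ω W z k x * starRingEnd ℂ (Pz n ω W z' k' x)) ∂PP (n / 2) -
        ∫ x, (H x : ℂ) * (Fz (n % 2) ω z k x * starRingEnd ℂ (Fz (n % 2) ω z' k' x)) ∂PP (n / 2)‖ ≤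
        (∫ x, H x ∂PP (n / 2)) * (3 * (ω ^ (n / 2) * D * En n ^ 3) ^ 2 *
          ((1 + 1 / dk ω W k) * (gw ω z.re k * gw ω z'.re k'))) := by
  filter_upwards [t2_avg_FS, Fz_sub_Pz_le] with n h1 h2 ω hω W D H hW hH z z' hz hz' k k' hk hk' hke
  obtain ⟨a1, a2⟩ := t2_adz hz
  obtain ⟨b1, b2⟩ := t2_adz hz'
  have hz0 : 0 < z.re := by linarith
  have hz0' : 0 < z'.re := by linarith
  have c1 := continuous_Pz n hω W hz0 k
  have c2 := continuous_Pz n hω W hz0' k'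
  have c3 := continuous_Fz (r := n % 2) hω hz0 k
  have c4 := continuous_Fz (r := n % 2) hω hz0' k'
  have c5 := t2_cont_FS (r := n % 2) hω hz0 k
  have c6 := t2_cont_FS (r := n % 2) hω hz0' k'
  rw [← integral_sub (t2_int_mulC hH (t2_int_cont (by fun_prop)))
    (t2_int_mulC hH (t2_int_cont (by fun_prop)))]
  simp only [← mul_sub]
  set s := ω ^ (n / 2) * D * En n ^ 3 * gw ω z.re k with hs
  set s' := ω ^ (n / 2) * D * En n ^ 3 * gw ω z'.re k' with hs'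
  have hD := hW.one_le
  have hE := one_le_En n
  have s0 : 0 ≤ s := by have := gw_pos ω z.re k; positivity
  have s0' : 0 ≤ s' := by have := gw_pos ω z'.re k'; positivity
  refine (t2_norm_le hH (b := fun x => s * FS (n % 2) ω (ft z'.re) k' x +
    s' * FS (n % 2) ω (ft z.re) k x + s * s') (t2_int_cont (by fun_prop)) fun x =>
    t2_swap_pt (h2 ω hω W D hW z a1 (by linarith) k x) (h2 ω hω W D hW z' b1 (by linarith) k' x)
      (norm_Fz_le hω hz0 x k) (norm_Fz_le hω hz0' x k')).trans ?_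
  have i1 := t2_int_mul hH (t2_int_cont c5)
  have i2 := t2_int_mul hH (t2_int_cont c6)
  have e : ∀ x, H x * (s * FS (n % 2) ω (ft z'.re) k' x + s' * FS (n % 2) ω (ft z.re) k x + s * s')
      = s * (H x * FS (n % 2) ω (ft z'.re) k' x) + s' * (H x * FS (n % 2) ω (ft z.re) k x) +
        (s * s') * H x := fun x => by ring
  simp only [e]
  have i3 : Integrable (fun x => s * (H x * FS (n % 2) ω (ft z'.re) k' x) +
      s' * (H x * FS (n % 2) ω (ft z.re) k x)) (PP (n / 2)) := (i2.const_mul _).add (i1.const_mul _)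
  rw [integral_add i3 (hH.integrable.const_mul _),
    integral_add (i2.const_mul _) (i1.const_mul _), integral_const_mul, integral_const_mul,
    integral_const_mul]
  have g1 := h1 ω hω W D H hW hH z.re a1 (by linarith) k hk
  have g2 := h1 ω hω W D H hW hH z'.re b1 (by linarith) k' hk'
  rw [dk_congr (ext_eq_of_mem hke hk'), ← hs'] at g2
  rw [← hs] at g1
  have hd := t2_dk_pos hω hW hk
  have hEH := t2_EH_nonneg hH
  set E := ∫ x, H x ∂PP (n / 2)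
  set d := 1 / dk ω W k with hdd
  have d0 : 0 ≤ d := by positivity
  have g3 := mul_le_mul_of_nonneg_left g1 s0'
  have g4 := mul_le_mul_of_nonneg_left g2 s0
  have g5 : 0 ≤ s * s' * E * d := by positivity
  have e2 : E * (3 * (ω ^ (n / 2) * D * En n ^ 3) ^ 2 * ((1 + d) * (gw ω z.re k * gw ω z'.re k')))
      = 3 * (s * s' * E) * (1 + d) := by rw [hs, hs']; ring
  rw [e2]
  nlinarith

lemma t2_norm_Cp {r : ℕ} (hr : r ≤ 1) {ω τ : ℝ} (hω : 0 < ω) (hτ : 1 ≤ τ) (k η : Zv m) :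
    ‖Cp r ω (τ : ℂ) k η‖ ≤ 2 * (ω ^ m * τ ^ (-(m : ℝ) / 2)) * (gw ω τ k * gw ω (1 / τ) η) := by
  have hτ0 : 0 < τ := by linarith
  have h := norm_Cp_le (r := r) hω (z := (τ : ℂ)) (by simpa using hτ0) k η
  rw [Complex.ofReal_re, Complex.norm_real, Real.norm_of_nonneg hτ0.le] at h
  have e : τ / τ ^ 2 = 1 / τ := by field_simp
  rw [e] at h
  refine h.trans ?_
  have h1 : 1 ≤ √τ := Real.one_le_sqrt.2 hτ
  have h2 : 1 / √τ ≤ 1 := by rw [div_le_one (by linarith)]; exact h1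
  have h3 : (1 + 1 / √τ) ^ r ≤ 2 := by
    interval_cases r
    · norm_num
    · rw [pow_one]; linarith
  have := gw_pos ω τ k
  have := gw_pos ω (1 / τ) η
  exact mul_le_mul_of_nonneg_right (mul_le_mul_of_nonneg_right h3 (by positivity))
    (by positivity)

/-- conditional mean of a product of two parallel fibre sums -/
lemma t2_FF {W : Submodule ℝ (Ev m)} {H : Xs m → ℝ} (h : InvW W H) {r : ℕ} (hr : r ≤ 1)
    {ω τ τ' : ℝ} (hω : 0 < ω) (hτ : 1 ≤ τ) (hτ' : 1 ≤ τ') {k k' : Zv m} {p q : ℤ}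
    (hk : iv k ∉ W) (hq : 0 < q) (hc : IsCoprime q p) (hpq : iv (q • k' - p • k) ∈ W) :
    ∫ x, H x * (FS r ω (ft τ) k x * FS r ω (ft τ') k' x) ∂PP m ≤
      (∫ x, H x ∂PP m) * (4 * ω ^ m * (τ * τ') ^ (-(m : ℝ) / 2) *
        (ω + 1 / √((τ * (q : ℝ) ^ 2 + τ' * (p : ℝ) ^ 2) / (τ * τ'))) ^ m *
        th ω (ext W k) (1 / (τ * (q : ℝ) ^ 2 + τ' * (p : ℝ) ^ 2)) * (gw ω τ k * gw ω τ' k')) := by
  have hτ0 : 0 < τ := by linarith
  have hτ0' : 0 < τ' := by linarith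
  have hz : 0 < (τ : ℂ).re := by simpa using hτ0
  have hz' : 0 < (τ' : ℂ).re := by simpa using hτ0'
  have hq' : (0 : ℝ) < q := by exact_mod_cast hq
  have s1 := (summable_Cp (m := m) (r := r) hω hz).prod_factor k
  have s2 := (summable_Cp (m := m) (r := r) hω hz').prod_factor k'
  have h1 := avg_two_le h k k' s1 s2
  simp only [← Fz_eq_tsum hω hz, ← Fz_eq_tsum hω hz', Fz_ofReal hω hτ0, Fz_ofReal hω hτ0',
    ← Complex.ofReal_mul] at h1
  rw [integral_complex_ofReal, Complex.norm_real, Real.norm_eq_abs] at h1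
  refine ((le_abs_self _).trans h1).trans (mul_le_mul_of_nonneg_left ?_ (t2_EH_nonneg h))
  have hA : 0 < 1 / τ := by positivity
  have hA' : 0 < 1 / τ' := by positivity
  have hs : 0 < 1 / τ * (p : ℝ) ^ 2 + 1 / τ' * (q : ℝ) ^ 2 := by positivity
  have h2 := t2_pair_sum (m := m) hω hA hA' hc hs (fun l => iv l ∈ ext W k)
  have e1 : 1 / τ * (p : ℝ) ^ 2 + 1 / τ' * (q : ℝ) ^ 2 =
      (τ * (q : ℝ) ^ 2 + τ' * (p : ℝ) ^ 2) / (τ * τ') := by field_simp; ring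
  have e2 : 1 / τ * (1 / τ') / ((τ * (q : ℝ) ^ 2 + τ' * (p : ℝ) ^ 2) / (τ * τ')) =
      1 / (τ * (q : ℝ) ^ 2 + τ' * (p : ℝ) ^ 2) := by field_simp
  rw [e1, e2] at h2
  set K := 4 * ω ^ m * (τ * τ') ^ (-(m : ℝ) / 2) * (gw ω τ k * gw ω τ' k') with hK
  have g1 := gw_pos ω τ k
  have g2 := gw_pos ω τ' k'
  have K0 : 0 ≤ K := by positivity
  have s3 := t2_summable_pair (m := m) hω hA hA' (fun a => iv (q • a.1 + p • a.2) ∈ ext W k)
  have term : ∀ a : Zv m × Zv m,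
      (if Surv W a.1 k a.2 k' 0 0 then ‖Cp r ω τ k a.1‖ * ‖Cp r ω τ' k' a.2‖ else 0) ≤
      K * ω ^ m * (if iv (q • a.1 + p • a.2) ∈ ext W k then gw ω (1 / τ) a.1 * gw ω (1 / τ') a.2
        else 0) := by
    intro a
    have g3 := gw_pos ω (1 / τ) a.1
    have g4 := gw_pos ω (1 / τ') a.2
    by_cases hS : Surv W a.1 k a.2 k' 0 0
    · rw [if_pos hS, if_pos (surv_par hk hq.ne' hpq hS)]
      refine (mul_le_mul (t2_norm_Cp hr hω hτ k a.1) (t2_norm_Cp hr hω hτ' k' a.2)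
        (norm_nonneg _) (by positivity)).trans (le_of_eq ?_)
      rw [hK, Real.mul_rpow hτ0.le hτ0'.le]; ring
    · rw [if_neg hS]
      split_ifs <;> positivity
  have s4 : Summable fun a : Zv m × Zv m =>
      if Surv W a.1 k a.2 k' 0 0 then ‖Cp r ω τ k a.1‖ * ‖Cp r ω τ' k' a.2‖ else 0 :=
    Summable.of_nonneg_of_le (fun a => by split_ifs <;> positivity) term (s3.mul_left _)
  refine (s4.tsum_le_tsum term (s3.mul_left _)).trans ?_
  rw [tsum_mul_left, mul_assoc K]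
  refine (mul_le_mul_of_nonneg_left h2 K0).trans (le_of_eq ?_)
  rw [hK, th]
  simp only [gw]
  ring

end Pool.Agent.Eps
end
end

-- part Pool.Agent.Lib.MP_3bda03_nt.T2C
section

set_option autoImplicit false

noncomputable section

open scoped BigOperators Classical Topology
open MeasureTheory Real Complex Filter

namespace Pool.Agent.Eps

/-- the ratios that occur for pairs with a normal layer distance -/
def t2Q (n : ℕ) : Finset (ℤ × ℤ) :=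
  ((Finset.Icc (-(n : ℤ) ^ 3) ((n : ℤ) ^ 3)) ×ˢ (Finset.Icc 1 ((n : ℤ) ^ 3))).filter
    fun a => a.1 ≠ 0 ∧ IsCoprime a.2 a.1

def t2s (τ τ' : ℝ) (a : ℤ × ℤ) : ℝ := τ * (a.2 : ℝ) ^ 2 + τ' * (a.1 : ℝ) ^ 2

def t2P {m : ℕ} (W : Submodule ℝ (Ev m)) (a : ℤ × ℤ) (l : Zv m) : Prop :=
  iv l ∈ W ∧ (|a.1| = 1 ∧ a.2 = 1 → l ≠ 0)

def t2B (n : ℕ) (D τ τ' : ℝ) (a : ℤ × ℤ) : ℝ :=
  24 * (n : ℝ) ^ 5 * t2s τ τ' a ^ (-mh n) * (D * Env n 1 (1 / t2s τ τ' a / 4))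

lemma t2Q_card {n : ℕ} (hn : 1 ≤ n) : ((t2Q n).card : ℝ) ≤ 3 * (n : ℝ) ^ 6 := by
  have h := Finset.card_filter_le ((Finset.Icc (-(n : ℤ) ^ 3) ((n : ℤ) ^ 3)) ×ˢ
    (Finset.Icc 1 ((n : ℤ) ^ 3))) fun a => a.1 ≠ 0 ∧ IsCoprime a.2 a.1
  rw [Finset.card_product, Int.card_Icc, Int.card_Icc] at h
  have e1 : ((n : ℤ) ^ 3 + 1 - -(n : ℤ) ^ 3).toNat = 2 * n ^ 3 + 1 := by
    have : (n : ℤ) ^ 3 + 1 - -(n : ℤ) ^ 3 = ((2 * n ^ 3 + 1 : ℕ) : ℤ) := by push_cast; ring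
    rw [this, Int.toNat_natCast]
  have e2 : ((n : ℤ) ^ 3 + 1 - 1).toNat = n ^ 3 := by
    have : (n : ℤ) ^ 3 + 1 - 1 = ((n ^ 3 : ℕ) : ℤ) := by push_cast; ring
    rw [this, Int.toNat_natCast]
  rw [e1, e2] at h
  have h2 : ((t2Q n).card : ℝ) ≤ (2 * (n : ℝ) ^ 3 + 1) * (n : ℝ) ^ 3 := by exact_mod_cast h
  have h3 : (1 : ℝ) ≤ (n : ℝ) ^ 3 := one_le_pow₀ (by exact_mod_cast hn)
  nlinarith

lemma t2Q_mem {n : ℕ} {a : ℤ × ℤ} (ha : a ∈ t2Q n) :
    a.1 ≠ 0 ∧ IsCoprime a.2 a.1 ∧ 1 ≤ a.2 ∧ (1 : ℝ) ≤ (a.1 : ℝ) ^ 2 ∧ (1 : ℝ) ≤ (a.2 : ℝ) ^ 2 ∧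
      (a.1 : ℝ) ^ 2 ≤ (n : ℝ) ^ 6 ∧ (a.2 : ℝ) ^ 2 ≤ (n : ℝ) ^ 6 := by
  simp only [t2Q, Finset.mem_filter, Finset.mem_product, Finset.mem_Icc] at ha
  obtain ⟨⟨⟨h1, h2⟩, h3, h4⟩, h5, h6⟩ := ha
  refine ⟨h5, h6, h3, ?_, ?_, ?_, ?_⟩
  · have : 1 ≤ a.1 ^ 2 := by have := sq_pos_of_ne_zero h5; omega
    exact_mod_cast this
  · have : 1 ≤ a.2 ^ 2 := by nlinarith
    exact_mod_cast this
  · have : a.1 ^ 2 ≤ (n : ℤ) ^ 6 := by nlinarith
    exact_mod_cast this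
  · have : a.2 ^ 2 ≤ (n : ℤ) ^ 6 := by nlinarith
    exact_mod_cast this

lemma t2s_bounds {n : ℕ} {a : ℤ × ℤ} (ha : a ∈ t2Q n) {τ τ' : ℝ} (h1 : 1 ≤ τ) (h2 : τ ≤ 1.55)
    (h1' : 1 ≤ τ') (h2' : τ' ≤ 1.55) :
    τ + τ' ≤ t2s τ τ' a ∧ t2s τ τ' a ≤ (2 * (n : ℝ) ^ 3) ^ 2 := by
  obtain ⟨-, -, -, b1, b2, b3, b4⟩ := t2Q_mem ha
  unfold t2s
  constructor <;> nlinarith

lemma t2_Env_pos (n : ℕ) (β : ℝ) : 0 < Env n 1 β := by
  unfold Env
  have := one_le_En n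
  have : 0 < max 1 (4 ^ 1 / (β * Real.log n)) := lt_of_lt_of_le one_pos (le_max_left _ _)
  positivity

lemma t2B_nonneg {n : ℕ} {D τ τ' : ℝ} (hD : 1 ≤ D) (h1 : 1 ≤ τ) (h1' : 1 ≤ τ') (a : ℤ × ℤ) :
    0 ≤ t2B n D τ τ' a := by
  unfold t2B
  have := t2_Env_pos n (1 / t2s τ τ' a / 4)
  have : 0 ≤ t2s τ τ' a := by unfold t2s; positivity
  positivity

/-- a pair with normal layer distance -/
lemma t2_fine_pair : ∀ᶠ n : ℕ in atTop, ∀ᶠ ω in 𝓝[>] (0 : ℝ),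
    ∀ (W : Submodule ℝ (Ev (n / 2))) (D : ℝ) (H : Xs (n / 2) → ℝ), Adm n ω W D 1 → InvW W H →
      ∀ τ τ' : ℝ, 1 ≤ τ → τ ≤ 1.55 → 1 ≤ τ' → τ' ≤ 1.55 → ∀ k ∈ Kn n ω, ∀ k' ∈ Kn n ω,
      iv k ∉ W → iv k' ∉ W → iv k' ∈ ext W k → k' ≠ k → k' ≠ -k → 1 / (n : ℝ) ^ 2 ≤ dk ω W k →
      ∫ x, H x * (FS (n % 2) ω (ft τ) k x * FS (n % 2) ω (ft τ') k' x) ∂PP (n / 2) ≤
        (∫ x, H x ∂PP (n / 2)) * ∑ a ∈ t2Q n, t2B n D τ τ' a * (ω ^ (n / 2) *
          if t2P W a ((-a.1) • k + a.2 • k') then gw ω τ k * gw ω τ' k' else 0) := by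
  filter_upwards [eventually_ge_atTop 1] with n hn
  filter_upwards [t2_pow_le n (2 * (n : ℝ) ^ 3), self_mem_nhdsWithin] with ω hpow hω W D H hW hH
    τ τ' h1 h2 h1' h2' k hkK k' hkK' hk hk' hke hne hne' hd
  have hω : 0 < ω := hω
  have hn' : (1 : ℝ) ≤ n := by exact_mod_cast hn
  obtain ⟨p, q, hq, hc, hpq, hqd, hpd⟩ : ∃ p q : ℤ, 0 < q ∧ IsCoprime q p ∧
      iv (q • k' - p • k) ∈ W ∧ (q : ℝ) * dk ω W k ≤ ω * ‖iv k‖ ∧
      |(p : ℝ)| * dk ω W k ≤ ω * ‖iv k'‖ := by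
    obtain ⟨G, rfl, -⟩ := hW.gen
    exact exists_ratio hω G hk hke
  have hd0 := t2_dk_pos hω hW hk
  have hd1 : 1 ≤ dk ω W k * (n : ℝ) ^ 2 := by rwa [div_le_iff₀ (by positivity)] at hd
  have b1 := ((mem_Kn hω k).1 hkK).2
  have b2 := ((mem_Kn hω k').1 hkK').2
  have hq' : (0 : ℝ) < q := by exact_mod_cast hq
  have hq3 : (q : ℝ) ≤ (n : ℝ) ^ 3 := by
    have : (q : ℝ) * dk ω W k * (n : ℝ) ^ 2 ≤ n * (n : ℝ) ^ 2 :=
      mul_le_mul_of_nonneg_right (hqd.trans b1) (by positivity)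
    nlinarith
  have hp3 : |(p : ℝ)| ≤ (n : ℝ) ^ 3 := by
    have : |(p : ℝ)| * dk ω W k * (n : ℝ) ^ 2 ≤ n * (n : ℝ) ^ 2 :=
      mul_le_mul_of_nonneg_right (hpd.trans b2) (by positivity)
    nlinarith [abs_nonneg (p : ℝ)]
  have hp0 : p ≠ 0 := by
    rintro rfl
    apply hk'
    rw [zero_smul, sub_zero, iv_zsmul] at hpq
    simpa [smul_smul, hq'.ne'] using W.smul_mem (q : ℝ)⁻¹ hpq
  have hmem : (p, q) ∈ t2Q n := by
    simp only [t2Q, Finset.mem_filter, Finset.mem_product, Finset.mem_Icc]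
    have c1 := abs_le.1 hp3
    refine ⟨⟨⟨?_, ?_⟩, hq, ?_⟩, hp0, hc⟩
    · exact_mod_cast c1.1
    · exact_mod_cast c1.2
    · exact_mod_cast hq3
  have hP : t2P W (p, q) ((-p) • k + q • k') := by
    have e : (-p) • k + q • k' = q • k' - p • k := by rw [neg_smul]; abel
    rw [e]
    refine ⟨hpq, ?_⟩
    rintro ⟨c1, c2⟩ c3
    dsimp only at c1 c2
    rw [c2, one_smul, sub_eq_zero] at c3
    rcases abs_eq (by norm_num : (0 : ℤ) ≤ 1) |>.1 c1 with c | c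
    · exact hne (by rw [c3, c, one_smul])
    · exact hne' (by rw [c3, c, neg_smul, one_smul])
  have hD := hW.one_le
  refine (t2_FF hH (by omega) hω h1 h1' hk hq hc hpq).trans
    (mul_le_mul_of_nonneg_left ?_ (t2_EH_nonneg hH))
  have g1 := gw_pos ω τ k
  have g2 := gw_pos ω τ' k'
  refine le_trans ?_ (Finset.single_le_sum (f := fun a : ℤ × ℤ => t2B n D τ τ' a * (ω ^ (n / 2) *
    if t2P W a ((-a.1) • k + a.2 • k') then gw ω τ k * gw ω τ' k' else 0)) (fun a _ => ?_) hmem)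
  swap
  · have := t2B_nonneg (n := n) hD h1 h1' a
    split_ifs <;> positivity
  simp only [if_pos hP]
  obtain ⟨c1, c2⟩ := t2s_bounds hmem h1 h2 h1' h2'
  change _ * (ω + 1 / √(t2s τ τ' (p, q) / (τ * τ'))) ^ (n / 2) *
    th ω (ext W k) (1 / t2s τ τ' (p, q)) * _ ≤ _
  unfold t2B
  set s := t2s τ τ' (p, q) with hs
  have s0 : 0 < s := by linarith
  have t1 : 1 ≤ τ * τ' := by nlinarith
  have d1 := hpow (s / (τ * τ')) (by positivity) ((div_le_self s0.le t1).trans c2)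
  have d2 := t2_th_ext' hω hW hk (β := 1 / s) (by positivity)
  have d3 : 1 + 1 / (dk ω W k * √(1 / s)) ≤ 3 * (n : ℝ) ^ 5 := by
    have e1 : √s ≤ 2 * (n : ℝ) ^ 3 := by
      rw [← Real.sqrt_sq (by positivity : (0 : ℝ) ≤ 2 * (n : ℝ) ^ 3)]
      exact Real.sqrt_le_sqrt c2
    have e2 : 1 / (dk ω W k * √(1 / s)) = 1 / dk ω W k * √s := by
      rw [Real.sqrt_div zero_le_one, Real.sqrt_one]
      have := Real.sqrt_pos.2 s0
      field_simp
    have e3 : 1 / dk ω W k ≤ (n : ℝ) ^ 2 := by rw [div_le_iff₀ hd0]; linarith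
    have e4 : 1 / dk ω W k * √s ≤ (n : ℝ) ^ 2 * (2 * (n : ℝ) ^ 3) :=
      mul_le_mul e3 e1 (Real.sqrt_nonneg _) (by positivity)
    have e5 : (1 : ℝ) ≤ (n : ℝ) ^ 5 := one_le_pow₀ hn'
    rw [e2]; nlinarith
  have hE := t2_Env_pos n (1 / s / 4)
  have d4 : th ω (ext W k) (1 / s) ≤ D * Env n 1 (1 / s / 4) * (3 * (n : ℝ) ^ 5) :=
    d2.trans (mul_le_mul_of_nonneg_left d3 (by positivity))
  have e6 : -((n / 2 : ℕ) : ℝ) / 2 = -mh n := by unfold mh; ring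
  have e7 : (τ * τ') ^ (-mh n) * (s / (τ * τ')) ^ (-mh n) = s ^ (-mh n) := by
    rw [← Real.mul_rpow (by positivity) (by positivity)]
    congr 1; field_simp
  rw [e6]
  have d5 := mul_le_mul d1 d4 (t2_th_nonneg _ _ _) (by positivity)
  have p0 : 0 ≤ 4 * ω ^ (n / 2) * (τ * τ') ^ (-mh n) * (gw ω τ k * gw ω τ' k') := by positivity
  calc _ = 4 * ω ^ (n / 2) * (τ * τ') ^ (-mh n) * (gw ω τ k * gw ω τ' k') *
        ((ω + 1 / √(s / (τ * τ'))) ^ (n / 2) * th ω (ext W k) (1 / s)) := by ring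
    _ ≤ _ := mul_le_mul_of_nonneg_left d5 p0
    _ = _ := by rw [← e7]; ring

/-- the sum over all pairs with a given ratio -/
lemma t2_fine_sum {n : ℕ} {ω : ℝ} (hω : 0 < ω)
    (hpow : ∀ S : ℝ, 0 < S → S ≤ (2 * (n : ℝ) ^ 3) ^ 2 → (ω + 1 / √S) ^ (n / 2) ≤ 2 * S ^ (-mh n))
    (W : Submodule ℝ (Ev (n / 2))) {τ τ' : ℝ} (h1 : 1 ≤ τ) (h2 : τ ≤ 1.55) (h1' : 1 ≤ τ')
    (h2' : τ' ≤ 1.55) {a : ℤ × ℤ} (ha : a ∈ t2Q n) (K : Finset (Zv (n / 2))) :
    ω ^ (n / 2) * ∑ k ∈ K, ∑ k' ∈ K,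
      (if t2P W a ((-a.1) • k + a.2 • k') then gw ω τ k * gw ω τ' k' else 0) ≤
      2 * t2s τ τ' a ^ (-mh n) *
        ∑' l : Zv (n / 2), if t2P W a l then gw ω (τ * τ' / t2s τ τ' a) l else 0 := by
  obtain ⟨c1, c2⟩ := t2s_bounds ha h1 h2 h1' h2'
  have hc : IsCoprime (-a.1) a.2 := (t2Q_mem ha).2.1.symm.neg_left
  have e : τ * (a.2 : ℝ) ^ 2 + τ' * ((-a.1 : ℤ) : ℝ) ^ 2 = t2s τ τ' a := by
    unfold t2s; push_cast; ring
  have s0 : 0 < t2s τ τ' a := by linarith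
  have h := t2_pair_sum (m := n / 2) hω (by linarith : 0 < τ) (by linarith : 0 < τ') hc
    (by rw [e]; exact s0) (t2P W a)
  rw [e] at h
  refine le_trans ?_ (h.trans (mul_le_mul_of_nonneg_right (hpow _ s0 c2) (tsum_nonneg fun l => ?_)))
  · refine mul_le_mul_of_nonneg_left ?_ (by positivity)
    rw [← Finset.sum_product']
    refine (t2_summable_pair hω (by linarith) (by linarith) _).sum_le_tsum _ fun p _ => ?_
    have := gw_pos ω τ p.1
    have := gw_pos ω τ' p.2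
    split_ifs <;> positivity
  · have := gw_pos ω (τ * τ' / t2s τ τ' a) l
    split_ifs <;> positivity

lemma t2_num_one {τ τ' : ℝ} (h1 : 1 ≤ τ) (h1' : 1 ≤ τ') :
    1.17 * (4 * τ * τ' * (Lz τ * Lz τ')) ≤
      (τ + τ') * (τ + τ') * (1 + τ * τ' / (τ + τ') / rexp 1) := by
  have he := Real.exp_one_lt_d9
  have he0 := Real.exp_pos 1
  have hs : 4 * τ * τ' ≤ (τ + τ') * (τ + τ') := by nlinarith [sq_nonneg (τ - τ')]
  have key : 1.17 * (Lz τ * Lz τ') ≤ 1 + τ * τ' / (τ + τ') / rexp 1 := by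
    have g : ∀ c : ℝ, 0 ≤ c → c * (τ + τ') ≤ τ * τ' →
        c / 2.7182818286 ≤ τ * τ' / (τ + τ') / rexp 1 := fun c hc h =>
      div_le_div₀ (by positivity) (by rwa [le_div_iff₀ (by linarith)]) he0 he.le
    have g1 := g (1 / 2) (by norm_num) (by nlinarith)
    rcases t2_Lz_cases τ with ⟨a, ha⟩ | ⟨a, ha⟩ <;> rcases t2_Lz_cases τ' with ⟨b, hb⟩ | ⟨b, hb⟩ <;>
      rw [ha, hb]
    · norm_num at g1 ⊢; linarith
    · norm_num at g1 ⊢; linarith
    · norm_num at g1 ⊢; linarith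
    · have g2 := g 0.69 (by norm_num) (by nlinarith)
      norm_num at g2 ⊢; linarith
  have := (t2_Lz τ).1
  have := (t2_Lz τ').1
  calc _ = 4 * τ * τ' * (1.17 * (Lz τ * Lz τ')) := by ring
    _ ≤ _ := mul_le_mul hs key (by positivity) (by positivity)

lemma t2_num_two {n : ℕ} {a : ℤ × ℤ} (ha : a ∈ t2Q n) (hne : ¬ (|a.1| = 1 ∧ a.2 = 1)) {τ τ' : ℝ}
    (h1 : 1 ≤ τ) (h1' : 1 ≤ τ') : 16 * (τ * τ') ≤ t2s τ τ' a ^ 2 := by
  obtain ⟨b0, -, b1, b2, b3, -, -⟩ := t2Q_mem ha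
  have h4 : (4 : ℤ) ≤ a.1 ^ 2 * a.2 ^ 2 := by
    have c1 : 1 ≤ |a.1| := Int.one_le_abs b0
    have c2 : a.1 ^ 2 = |a.1| ^ 2 := (sq_abs _).symm
    rw [c2]
    by_cases h : a.2 = 1
    · have : 2 ≤ |a.1| := by
        by_contra h'
        exact hne ⟨by omega, h⟩
      rw [h]; nlinarith
    · have : 2 ≤ a.2 := by omega
      nlinarith [mul_le_mul (by nlinarith : 1 ≤ |a.1| ^ 2) (by nlinarith : 4 ≤ a.2 ^ 2)
        (by norm_num) (by positivity)]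
  have h5 : (4 : ℝ) ≤ (a.1 : ℝ) ^ 2 * (a.2 : ℝ) ^ 2 := by exact_mod_cast h4
  unfold t2s
  have h6 : 0 < τ * τ' := by positivity
  nlinarith [sq_nonneg (τ * (a.2 : ℝ) ^ 2 - τ' * (a.1 : ℝ) ^ 2), mul_le_mul_of_nonneg_left h5 h6.le]

/-- the contribution of one ratio -/
lemma t2_term_le : ∀ᶠ n : ℕ in atTop, ∀ ω : ℝ, 0 < ω →
    ∀ (W : Submodule ℝ (Ev (n / 2))) (D : ℝ), Adm n ω W D 1 →
      ∀ τ τ' : ℝ, 1 ≤ τ → τ ≤ 1.55 → 1 ≤ τ' → τ' ≤ 1.55 → ∀ a ∈ t2Q n,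
      t2B n D τ τ' a * (2 * t2s τ τ' a ^ (-mh n) *
        ∑' l : Zv (n / 2), if t2P W a l then gw ω (τ * τ' / t2s τ τ' a) l else 0) ≤
      48 * (n : ℝ) ^ 5 * En n ^ 4 * (1.17 : ℝ) ^ (-mh n) * (Nz n τ * Nz n τ') *
        (D ^ 3 + D * Sh n ω W) := by
  filter_upwards [t2_Env, grow 16 7, t2_log_ge 1] with n hEnv hgrow hlog ω hω W D hW τ τ' h1 h2
    h1' h2' a ha
  obtain ⟨c1, c2⟩ := t2s_bounds ha h1 h2 h1' h2'
  have hD := hW.one_le
  have hE := one_le_En n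
  have hSh := Sh_nonneg n ω W
  have N1 := t2_Nz_pos n (by linarith : 0 < τ)
  have N2 := t2_Nz_pos n (by linarith : 0 < τ')
  have t1 : 1 ≤ τ * τ' := by nlinarith
  unfold t2B
  by_cases hne : |a.1| = 1 ∧ a.2 = 1
  · have e1 : t2s τ τ' a = τ + τ' := by
      have : (a.1 : ℝ) ^ 2 = 1 := by
        have : a.1 ^ 2 = 1 := by rw [← sq_abs, hne.1]; norm_num
        exact_mod_cast this
      unfold t2s; rw [this, hne.2]; norm_num
    rw [e1]
    set c := τ * τ' / (τ + τ') with hc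
    have c3 : 1 / 2 ≤ c := by rw [hc, le_div_iff₀ (by linarith)]; nlinarith
    have c4 : c ≤ 1 := by rw [hc, div_le_one (by linarith)]; nlinarith
    have e2 : (∑' l : Zv (n / 2), if t2P W a l then gw ω c l else 0) = th0 ω W c := by
      unfold th0 t2P gw
      simp only [hne, and_self, forall_true_left]
    have e3 : Env n 1 (1 / (τ + τ') / 4) = En n ^ 2 := hEnv _ (by
      rw [div_div, div_le_div_iff₀ (by norm_num) (by linarith)]; linarith)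
    rw [e2, e3]
    have hc0 : 0 < 1 + c / rexp 1 := by positivity
    have d1 : th0 ω W c ≤ (1 + c / rexp 1) ^ (-mh n) * Sh n ω W := by
      rw [Real.rpow_neg hc0.le, inv_mul_eq_div, le_div_iff₀ (Real.rpow_pos_of_pos hc0 _), mul_comm]
      exact th0_le_Sh hω (by linarith) c4 W
    have d2 := t2_le_NN n (by linarith : 0 < τ) (by linarith : 0 < τ') (by norm_num)
      (t2_num_one h1 h1')
    rw [Real.mul_rpow (by positivity) hc0.le, Real.mul_rpow (by positivity) (by positivity)] at d2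
    set S := (τ + τ') ^ (-mh n)
    have S0 : 0 ≤ S := by positivity
    have d3 : En n ^ 2 ≤ En n ^ 4 := pow_le_pow_right₀ hE (by norm_num)
    calc _ = 48 * (n : ℝ) ^ 5 * D * En n ^ 2 * (S * S) * th0 ω W c := by ring
      _ ≤ 48 * (n : ℝ) ^ 5 * D * En n ^ 2 * (S * S) * ((1 + c / rexp 1) ^ (-mh n) * Sh n ω W) :=
        mul_le_mul_of_nonneg_left d1 (by positivity)
      _ = 48 * (n : ℝ) ^ 5 * (D * Sh n ω W) * (En n ^ 2 * (S * S * (1 + c / rexp 1) ^ (-mh n))) := by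
        ring
      _ ≤ 48 * (n : ℝ) ^ 5 * (D ^ 3 + D * Sh n ω W) *
          (En n ^ 4 * ((1.17 : ℝ) ^ (-mh n) * (Nz n τ * Nz n τ'))) := by
        refine mul_le_mul (mul_le_mul_of_nonneg_left ?_ (by positivity))
          (mul_le_mul d3 d2 (by positivity) (by positivity)) (by positivity) (by positivity)
        have : 0 ≤ D ^ 3 := by positivity
        linarith
      _ = _ := by ring
  · set s := t2s τ τ' a with hs
    have s0 : 0 < s := by linarith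
    have e2 : (∑' l : Zv (n / 2), if t2P W a l then gw ω (τ * τ' / s) l else 0) =
        th ω W (τ * τ' / s) := by
      unfold th t2P gw
      simp only [hne, false_imp_iff, and_true]
    rw [e2]
    have d1 := hW.th_le (τ * τ' / s) (by positivity)
    set M := max 1 (16 * s / √(Real.log n)) with hM
    have M1 : 1 ≤ M := le_max_left _ _
    have l1 : √(Real.log n) ≤ Real.log n := by
      rw [Real.sqrt_le_left (by linarith)]; nlinarith
    have l0 : 0 < √(Real.log n) := Real.sqrt_pos.2 (by linarith)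
    have env : ∀ β : ℝ, 1 / s / 4 ≤ β → Env n 1 β ≤ En n ^ 2 * M ^ (MM n + 1) := by
      intro β hβ
      have hβ0 : 0 < β := lt_of_lt_of_le (by positivity) hβ
      unfold Env
      refine mul_le_mul_of_nonneg_left (pow_le_pow_left₀ (by positivity)
        (max_le_max le_rfl ?_) _) (by positivity)
      rw [div_le_div_iff₀ (by positivity) l0]
      have : 1 ≤ 4 * s * β := by
        rw [div_div, div_le_iff₀ (by positivity)] at hβ; linarith
      nlinarith [mul_le_mul this l1 l0.le (by positivity)]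
    have d2 := env (1 / s / 4) le_rfl
    have d3 := env (τ * τ' / s) (by
      rw [div_div, div_le_div_iff₀ (by positivity) s0]; nlinarith)
    have y0 : 0 < 16 * (τ * τ') := by positivity
    have y1 : √(16 * (τ * τ')) ≤ s := by
      rw [Real.sqrt_le_left s0.le]; exact t2_num_two ha hne h1 h1'
    have y2 : 1 ≤ √(16 * (τ * τ')) := Real.one_le_sqrt.2 (by linarith)
    have y3 : √(16 * (τ * τ')) ≤ 7 := by
      rw [Real.sqrt_le_left (by norm_num)]; nlinarith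
    have d4 := hgrow _ s y2 y3 y1
    have d5 := t2_rpow_anti n (by linarith) y1
    have d6 : √(16 * (τ * τ')) ^ (-mh n) * √(16 * (τ * τ')) ^ (-mh n) ≤
        (1.17 : ℝ) ^ (-mh n) * (Nz n τ * Nz n τ') := by
      rw [← Real.mul_rpow (by positivity) (by positivity), Real.mul_self_sqrt y0.le]
      refine t2_le_NN n (by linarith) (by linarith) (by norm_num) ?_
      have a1 := t2_Lz τ
      have a2 := t2_Lz τ'
      have : Lz τ * Lz τ' ≤ 1.0095 * 1.0095 := mul_le_mul a1.2 a2.2 (by linarith) (by norm_num)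
      nlinarith
    rw [← hM] at d4
    set S := s ^ (-mh n)
    have S0 : 0 ≤ S := by positivity
    have d7 : M ^ (MM n + 1) * M ^ (MM n + 1) ≤ M ^ (2 * MM n + 20) := by
      rw [← pow_add]; exact pow_le_pow_right₀ M1 (by omega)
    have d8 : S * (S * (M ^ (MM n + 1) * M ^ (MM n + 1))) ≤
        (1.17 : ℝ) ^ (-mh n) * (Nz n τ * Nz n τ') :=
      (mul_le_mul d5 ((mul_le_mul_of_nonneg_left d7 S0).trans d4) (by positivity)
        (by positivity)).trans d6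
    have E1 := t2_Env_pos n (1 / s / 4)
    have d9 : D * D ≤ D ^ 3 + D * Sh n ω W := by nlinarith [mul_nonneg (by linarith : 0 ≤ D) hSh]
    calc _ = 48 * (n : ℝ) ^ 5 * D * (S * S) * (Env n 1 (1 / s / 4) * th ω W (τ * τ' / s)) := by ring
      _ ≤ 48 * (n : ℝ) ^ 5 * D * (S * S) *
          ((En n ^ 2 * M ^ (MM n + 1)) * (D * (En n ^ 2 * M ^ (MM n + 1)))) :=
        mul_le_mul_of_nonneg_left (mul_le_mul d2 (d1.trans (mul_le_mul_of_nonneg_left d3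
          (by linarith))) (t2_th_nonneg _ _ _) (by positivity)) (by positivity)
      _ = 48 * (n : ℝ) ^ 5 * En n ^ 4 * (S * (S * (M ^ (MM n + 1) * M ^ (MM n + 1)))) * (D * D) := by
        ring
      _ ≤ 48 * (n : ℝ) ^ 5 * En n ^ 4 * ((1.17 : ℝ) ^ (-mh n) * (Nz n τ * Nz n τ')) *
          (D ^ 3 + D * Sh n ω W) :=
        mul_le_mul (mul_le_mul_of_nonneg_left d8 (by positivity)) d9 (by positivity) (by positivity)
      _ = _ := by ring

end Pool.Agent.Eps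
end
end
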