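import Pool.Agent.Lib.MP_3bda03_nt.Avg

-- part Pool.Agent.Lib.MP_3bda03_nt.GeoA
section

/-! Integer points of rational subspaces: distances and layers. -/

set_option autoImplicit false

noncomputable section

open scoped BigOperators Classical Topology
open MeasureTheory Real Complex Filter

namespace Pool.Agent.Eps

variable {m : ℕ}

/-- the component orthogonal to `W` -/
def geoP (W : Submodule ℝ (Ev m)) : Ev m →L[ℝ] Ev m := Wᗮ.starProjection

theorem geoP_eq (W : Submodule ℝ (Ev m)) (v : Ev m) : geoP W v = v - W.starProjection v :=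
  Submodule.starProjection_orthogonal_val v

theorem geoP_dist (W : Submodule ℝ (Ev m)) (v : Ev m) :
    Metric.infDist v (W : Set (Ev m)) = ‖geoP W v‖ := by
  rw [geoP_eq, Submodule.starProjection_minimal, Metric.infDist_eq_iInf]
  simp only [dist_eq_norm]
  rfl

theorem geoP_zero {W : Submodule ℝ (Ev m)} {v : Ev m} : geoP W v = 0 ↔ v ∈ W := by
  rw [geoP, Submodule.starProjection_apply_eq_zero_iff, Submodule.orthogonal_orthogonal]

theorem geoP_le (W : Submodule ℝ (Ev m)) (v : Ev m) : ‖geoP W v‖ ≤ ‖v‖ :=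
  Submodule.norm_starProjection_apply_le _ _

theorem geoP_sq (W : Submodule ℝ (Ev m)) (v : Ev m) :
    ‖v‖ ^ 2 = ‖W.starProjection v‖ ^ 2 + ‖geoP W v‖ ^ 2 :=
  Submodule.norm_sq_eq_add_norm_sq_starProjection v W

theorem geo_mem_ext {W : Submodule ℝ (Ev m)} {k : Zv m} {v : Ev m} :
    v ∈ ext W k ↔ ∃ c : ℝ, geoP W v = c • geoP W (iv k) := by
  simp only [← map_smul, ← sub_eq_zero (a := geoP W v), ← map_sub, geoP_zero, ext,
    Submodule.mem_sup, Submodule.mem_span_singleton]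
  constructor
  · rintro ⟨w, hw, _, ⟨c, rfl⟩, rfl⟩
    exact ⟨c, by simpa using hw⟩
  · rintro ⟨c, hc⟩
    exact ⟨_, hc, _, ⟨c, rfl⟩, by simp⟩

theorem le_ext (W : Submodule ℝ (Ev m)) (k : Zv m) : W ≤ ext W k ∧ iv k ∈ ext W k :=
  ⟨le_sup_left, Submodule.mem_sup_right (Submodule.mem_span_singleton_self _)⟩

theorem spanS_insert (S : Finset (Zv m)) (k : Zv m) : spanS (insert k S) = ext (spanS S) k := by
  rw [spanS, spanS, ext, Finset.coe_insert, Set.image_insert_eq, Submodule.span_insert, sup_comm]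

theorem ext_eq_of_mem {W : Submodule ℝ (Ev m)} {k k' : Zv m} (hk' : iv k' ∈ ext W k)
    (h : iv k' ∉ W) : ext W k' = ext W k := by
  obtain ⟨c, hc⟩ := geo_mem_ext.1 hk'
  have hc0 : c ≠ 0 := by
    rintro rfl
    exact h (geoP_zero.1 (by simpa using hc))
  ext v
  simp only [geo_mem_ext, hc, smul_smul]
  exact ⟨fun ⟨d, hd⟩ => ⟨_, hd⟩, fun ⟨d, hd⟩ => ⟨d / c, by rw [hd, div_mul_cancel₀ _ hc0]⟩⟩

theorem geo_finite (R : ℝ) : {κ : Zv m | ‖iv κ‖ ≤ R}.Finite := by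
  refine (Set.finite_Icc (fun _ => -⌈R⌉) (fun _ => ⌈R⌉)).subset fun κ hκ => ?_
  have h : ∀ p, |(κ p : ℝ)| ≤ ⌈R⌉ := fun p =>
    ((PiLp.norm_apply_le (iv κ) p).trans hκ).trans (Int.le_ceil R)
  exact ⟨fun p => by exact_mod_cast (abs_le.1 (h p)).1, fun p => by exact_mod_cast (abs_le.1 (h p)).2⟩

/-- shifted sums over the integer points of a subspace -/
theorem shift_le {ω β : ℝ} (hω : 0 < ω) (hβ : 0 < β) (W : Submodule ℝ (Ev m)) (w : Ev m) :
    (Summable fun κ : Zv m => if iv κ ∈ W then rexp (-π * β * (ω ^ 2 * ‖iv κ + w‖ ^ 2)) else 0) ∧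
    ∑' κ : Zv m, (if iv κ ∈ W then rexp (-π * β * (ω ^ 2 * ‖iv κ + w‖ ^ 2)) else 0) ≤
      th ω W (β / 4) := by
  obtain ⟨κ₀, h₀, hmin⟩ := Set.exists_min_image
    ({κ : Zv m | ‖iv κ‖ ≤ 2 * ‖w‖} ∩ {κ | iv κ ∈ W}) (fun κ => ‖iv κ + w‖)
    ((geo_finite _).inter_of_left _) ⟨0, by simp [iv_zero]⟩
  have hm : ∀ κ, iv κ ∈ W → ‖iv κ₀ + w‖ ≤ ‖iv κ + w‖ := by
    intro κ hκ
    by_cases h : ‖iv κ‖ ≤ 2 * ‖w‖
    · exact hmin κ ⟨h, hκ⟩
    · have h1 := hmin 0 (by simp [iv_zero])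
      have h2 := norm_sub_le (iv κ + w) w
      simp only [iv_zero, zero_add, add_sub_cancel_right] at h1 h2
      linarith
  have hs := summable_th hω (show 0 < β / 4 by positivity) (fun κ : Zv m => iv κ ∈ W)
  have hs' := (Equiv.subRight κ₀).summable_iff.2 hs
  have hle : ∀ κ : Zv m, (if iv κ ∈ W then rexp (-π * β * (ω ^ 2 * ‖iv κ + w‖ ^ 2)) else 0) ≤
      if iv (κ - κ₀) ∈ W then rexp (-π * (β / 4) * (ω ^ 2 * ‖iv (κ - κ₀)‖ ^ 2)) else 0 := by
    intro κ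
    by_cases h : iv κ ∈ W
    · rw [if_pos h, if_pos (by rw [iv_sub]; exact W.sub_mem h h₀.2)]
      apply Real.exp_le_exp.2
      have h1 := norm_sub_le (iv κ + w) (iv κ₀ + w)
      rw [add_sub_add_right_eq_sub, ← iv_sub] at h1
      have h2 : ‖iv (κ - κ₀)‖ ^ 2 ≤ (2 * ‖iv κ + w‖) ^ 2 :=
        pow_le_pow_left₀ (norm_nonneg _) (by linarith [hm κ h]) 2
      have := mul_le_mul_of_nonneg_left h2 (show 0 ≤ π * β * ω ^ 2 / 4 by positivity)
      linarith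
    · rw [if_neg h]; split_ifs <;> positivity
  have h1 := Summable.of_nonneg_of_le (fun κ => by split_ifs <;> positivity) hle hs'
  refine ⟨h1, (h1.tsum_le_tsum hle hs').trans (le_of_eq ?_)⟩
  exact (Equiv.subRight κ₀).tsum_eq
    (fun κ => if iv κ ∈ W then rexp (-π * (β / 4) * (ω ^ 2 * ‖iv κ‖ ^ 2)) else 0)

theorem geo_inner (k η : Zv m) : inner ℝ (iv k) (iv η) = ((k ⬝ᵥ η : ℤ) : ℝ) := by
  simp [iv, PiLp.inner_apply, dotProduct, mul_comm]

/-- integer points off a rational subspace keep a distance from it -/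
theorem infDist_ge {G : Finset (Zv m)} {R : ℝ} (hR : 1 ≤ R) (hG : ∀ g ∈ G, ‖iv g‖ ≤ R) {η : Zv m}
    (hη : iv η ∉ spanS G) :
    1 / ((G.card + 1 : ℝ) * R) ^ G.card ≤ Metric.infDist (iv η) (spanS G : Set (Ev m)) := by
  obtain ⟨ι, a, ha, hsp, hli⟩ := exists_linearIndependent' ℝ (fun g : G => iv g.1)
  have : Finite ι := Finite.of_injective a ha
  let _ := Fintype.ofFinite ι
  have hcard : Fintype.card ι ≤ G.card := by simpa using Fintype.card_le_of_injective a ha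
  have hW : spanS G = Submodule.span ℝ (Set.range fun i => iv (a i).1) := by
    rw [spanS, Set.image_eq_range]; exact hsp.symm
  let A : Matrix ι ι ℤ := Matrix.of fun i j => (a i).1 ⬝ᵥ (a j).1
  have hA : (A.det : ℝ) = (Matrix.gram ℝ fun i => iv (a i).1).det := by
    rw [Int.cast_det]; congr 1; ext i j; simp [A, Matrix.gram, geo_inner]
  have hd : (A.det : ℝ) ≠ 0 := by
    rw [hA]; exact Matrix.det_gram_ne_zero_iff_linearIndependent.2 hli
  have hb : |(A.det : ℝ)| ≤ (((G.card + 1 : ℝ) * R) ^ G.card) ^ 2 := by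
    rw [hA]
    refine (Matrix.det_le (abv := AbsoluteValue.abs) (x := R ^ 2) fun i j => ?_).trans ?_
    · refine (abs_real_inner_le_norm (iv (a i).1) (iv (a j).1)).trans ?_
      rw [sq]
      exact mul_le_mul (hG _ (a i).2) (hG _ (a j).2) (norm_nonneg _) (by linarith)
    · rw [nsmul_eq_mul, mul_pow, mul_pow, ← pow_mul R, ← pow_mul R, ← pow_mul]
      refine mul_le_mul ?_ (pow_le_pow_right₀ hR (by omega)) (by positivity) (by positivity)
      have h1 := Nat.factorial_le_pow (Fintype.card ι)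
      have h2 : Fintype.card ι ^ Fintype.card ι ≤ (G.card + 1) ^ (G.card * 2) :=
        (Nat.pow_le_pow_left (by omega) _).trans (Nat.pow_le_pow_right (by omega) (by omega))
      exact_mod_cast h1.trans h2
  let c : ι → ℤ := A.adjugate.mulVec fun j => (a j).1 ⬝ᵥ η
  let φ : Zv m := A.det • η - ∑ i, c i • (a i).1
  have h1 : geoP (spanS G) (iv φ) = (A.det : ℝ) • geoP (spanS G) (iv η) := by
    rw [← map_smul, ← sub_eq_zero, ← map_sub, geoP_zero, iv_sub, iv_zsmul, sub_sub_cancel_left,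
      iv_sum, hW]
    refine Submodule.neg_mem _ (Submodule.sum_mem _ fun i _ => ?_)
    rw [iv_zsmul]
    exact Submodule.smul_mem _ _ (Submodule.subset_span ⟨i, rfl⟩)
  have h2 : iv φ ∈ (spanS G)ᗮ := by
    rw [hW, ← Submodule.span_singleton_le_iff_mem, ← Submodule.isOrtho_iff_le,
      Submodule.isOrtho_span]
    rintro _ rfl _ ⟨j, rfl⟩
    rw [real_inner_comm, geo_inner]
    have := congrFun (Matrix.mulVec_mulVec (fun j => (a j).1 ⬝ᵥ η) A A.adjugate) j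
    rw [Matrix.mul_adjugate, Matrix.smul_mulVec, Matrix.one_mulVec] at this
    simp only [φ, dotProduct_sub, dotProduct_smul, dotProduct_sum, Int.cast_eq_zero, sub_eq_zero]
    rw [Pi.smul_apply] at this
    rw [← this]
    simp [Matrix.mulVec, dotProduct, A, c, mul_comm]
  have h3 : iv φ = (A.det : ℝ) • geoP (spanS G) (iv η) := by
    rw [← h1]; exact (Submodule.starProjection_eq_self_iff.2 h2).symm
  have h4 : ((φ ⬝ᵥ η : ℤ) : ℝ) = A.det * ‖geoP (spanS G) (iv η)‖ ^ 2 := by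
    rw [← geo_inner, h3, real_inner_smul_left]
    congr 1
    exact Submodule.re_inner_starProjection_eq_normSq (spanS G)ᗮ (iv η)
  have h5 : 0 < ‖geoP (spanS G) (iv η)‖ := norm_pos_iff.2 fun h => hη (geoP_zero.1 h)
  have h6 : (1 : ℝ) ≤ |((φ ⬝ᵥ η : ℤ) : ℝ)| := by
    have : φ ⬝ᵥ η ≠ 0 := by
      intro h; rw [h] at h4
      exact mul_ne_zero hd (pow_pos h5 2).ne' (by simpa using h4.symm)
    exact_mod_cast Int.one_le_abs this
  rw [h4, abs_mul, abs_of_pos (pow_pos h5 2)] at h6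
  rw [geoP_dist, div_le_iff₀ (by positivity)]
  refine (pow_le_pow_iff_left₀ zero_le_one (by positivity) two_ne_zero).1 ?_
  rw [one_pow, mul_pow, mul_comm]
  exact h6.trans (mul_le_mul_of_nonneg_right hb (by positivity))

theorem geo_sep (G : Finset (Zv m)) : ∃ δ : ℝ, 0 < δ ∧ ∀ η : Zv m, iv η ∉ spanS G →
    δ ≤ ‖geoP (spanS G) (iv η)‖ := by
  have h0 : 0 ≤ ∑ g ∈ G, ‖iv g‖ := Finset.sum_nonneg fun _ _ => norm_nonneg _
  refine ⟨_, ?_, fun η hη => geoP_dist (spanS G) (iv η) ▸ infDist_ge (R := 1 + ∑ g ∈ G, ‖iv g‖)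
    (by linarith) (fun g hg => ?_) hη⟩
  · positivity
  · linarith [Finset.single_le_sum (f := fun g => ‖iv g‖) (fun _ _ => norm_nonneg _) hg]

theorem geo_le_dk {ω δ : ℝ} (hω : 0 < ω) {W : Submodule ℝ (Ev m)} {k : Zv m} (hk : iv k ∉ W)
    (h : ∀ η : Zv m, iv η ∈ ext W k → iv η ∉ W → δ ≤ ω * Metric.infDist (iv η) (W : Set (Ev m))) :
    δ ≤ dk ω W k := by
  rw [dk, ← div_le_iff₀' hω]
  refine le_csInf ⟨_, k, (le_ext W k).2, hk, rfl⟩ ?_
  rintro _ ⟨η, h1, h2, rfl⟩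
  rw [div_le_iff₀' hω]
  exact h η h1 h2

theorem geo_dk_le {ω : ℝ} (hω : 0 < ω) (W : Submodule ℝ (Ev m)) {k η : Zv m} (h₁ : iv η ∈ ext W k)
    (h₂ : iv η ∉ W) : dk ω W k ≤ ω * ‖geoP W (iv η)‖ := by
  refine mul_le_mul_of_nonneg_left (csInf_le ⟨0, ?_⟩ ⟨η, h₁, h₂, (geoP_dist _ _).symm⟩) hω.le
  rintro _ ⟨η, -, -, rfl⟩
  exact Metric.infDist_nonneg

theorem dk_pos {ω : ℝ} (hω : 0 < ω) (G : Finset (Zv m)) {k : Zv m} (hk : iv k ∉ spanS G) :
    0 < dk ω (spanS G) k := by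
  obtain ⟨δ, hδ, h⟩ := geo_sep G
  refine (mul_pos hω hδ).trans_le (geo_le_dk hω hk fun η _ h2 => ?_)
  rw [geoP_dist]
  exact mul_le_mul_of_nonneg_left (h η h2) hω.le

theorem dk_le {ω : ℝ} (hω : 0 < ω) (W : Submodule ℝ (Ev m)) {k η : Zv m} (h₁ : iv η ∈ ext W k)
    (h₂ : iv η ∉ W) : dk ω W k ≤ ω * ‖iv η‖ :=
  (geo_dk_le hω W h₁ h₂).trans (mul_le_mul_of_nonneg_left (geoP_le _ _) hω.le)

theorem dk_congr {ω : ℝ} {W : Submodule ℝ (Ev m)} {k k' : Zv m} (h : ext W k' = ext W k) :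
    dk ω W k' = dk ω W k := by
  rw [dk, dk, h]

theorem geo_spanS_empty : spanS (∅ : Finset (Zv m)) = ⊥ := by simp [spanS]

theorem dk_le_dk_bot {ω : ℝ} (hω : 0 < ω) (G : Finset (Zv m)) {k : Zv m} (hk : iv k ∉ spanS G) :
    dk ω (spanS G) k ≤ dk ω (spanS ∅) k := by
  rw [geo_spanS_empty]
  refine geo_le_dk hω (fun h => hk (bot_le (a := spanS G) h)) fun η h1 h2 => ?_
  rw [Submodule.bot_coe, Metric.infDist_singleton, dist_zero_right]
  refine dk_le hω _ ((sup_le_sup_right bot_le _ : ext ⊥ k ≤ ext (spanS G) k) h1) fun h => ?_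
  rw [ext, bot_sup_eq, Submodule.mem_span_singleton] at h1
  obtain ⟨c, hc⟩ := h1
  rw [← hc] at h h2
  exact hk (((spanS G).smul_mem_iff (fun h0 => h2 (by simp [h0]))).1 h)

/-- the layers of the integer points of `ext W k` -/
theorem exists_gen {ω : ℝ} (hω : 0 < ω) (G : Finset (Zv m)) {k : Zv m} (hk : iv k ∉ spanS G) :
    ∃ k₀ : Zv m, iv k₀ ∈ ext (spanS G) k ∧
      dk ω (spanS G) k = ω * Metric.infDist (iv k₀) (spanS G : Set (Ev m)) ∧
      ∀ η : Zv m, iv η ∈ ext (spanS G) k → ∃ h : ℤ, iv (η - h • k₀) ∈ spanS G ∧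
        |(h : ℝ)| * dk ω (spanS G) k ≤ ω * ‖iv η‖ := by
  obtain ⟨δ, hδ, hsep⟩ := geo_sep G
  set W := spanS G
  have hp : 0 < ‖geoP W (iv k)‖ := norm_pos_iff.2 fun h => hk (geoP_zero.1 h)
  let A : AddSubgroup ℝ :=
    { carrier := {c | ∃ η : Zv m, geoP W (iv η) = c • geoP W (iv k)}
      add_mem' := by
        rintro a b ⟨η, h⟩ ⟨η', h'⟩
        exact ⟨η + η', by rw [iv_add, map_add, h, h', add_smul]⟩
      zero_mem' := ⟨0, by simp [iv_zero]⟩
      neg_mem' := by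
        rintro a ⟨η, h⟩
        exact ⟨-η, by rw [iv_neg, map_neg, h, neg_smul]⟩ }
  obtain ⟨b, hb⟩ := AddSubgroup.cyclic_of_isolated_zero (H := A) (div_pos hδ hp) (by
    rw [Set.disjoint_left]
    rintro c ⟨η, h⟩ ⟨h1, h2⟩
    have := hsep η fun hη => by
      rw [geoP_zero.2 hη, eq_comm, smul_eq_zero] at h
      exact h.elim h1.ne' (norm_pos_iff.1 hp)
    rw [h, norm_smul, Real.norm_eq_abs, abs_of_pos h1] at this
    rw [lt_div_iff₀ hp] at h2
    linarith)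
  obtain ⟨k₀, h₀⟩ : b ∈ A := hb ▸ AddSubgroup.subset_closure rfl
  have key : ∀ η : Zv m, iv η ∈ ext W k → ∃ h : ℤ, geoP W (iv η) = (h : ℝ) • geoP W (iv k₀) := by
    intro η hη
    obtain ⟨c, hc⟩ := geo_mem_ext.1 hη
    have : c ∈ A := ⟨η, hc⟩
    rw [hb, AddSubgroup.mem_closure_singleton] at this
    obtain ⟨h, rfl⟩ := this
    exact ⟨h, by rw [hc, h₀, smul_smul, zsmul_eq_mul]⟩
  have hk₀ : iv k₀ ∉ W := by
    intro h
    obtain ⟨h', e⟩ := key k (le_ext W k).2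
    rw [e, geoP_zero.2 h] at hp
    simp at hp
  have hd : dk ω W k = ω * ‖geoP W (iv k₀)‖ := by
    refine le_antisymm (geo_dk_le hω W (geo_mem_ext.2 ⟨b, h₀⟩) hk₀) (geo_le_dk hω hk ?_)
    intro η h1 h2
    obtain ⟨h, e⟩ := key η h1
    have h0 : h ≠ 0 := by
      rintro rfl
      exact h2 (geoP_zero.1 (by simpa using e))
    have h3 : (1 : ℝ) ≤ |(h : ℝ)| := by exact_mod_cast Int.one_le_abs h0
    rw [geoP_dist, e, norm_smul, Real.norm_eq_abs]
    exact mul_le_mul_of_nonneg_left (le_mul_of_one_le_left (norm_nonneg _) h3) hω.le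
  refine ⟨k₀, geo_mem_ext.2 ⟨b, h₀⟩, by rw [hd, geoP_dist], fun η hη => ?_⟩
  obtain ⟨h, e⟩ := key η hη
  refine ⟨h, geoP_zero.1 (by rw [iv_sub, iv_zsmul, map_sub, map_smul, e, sub_self]), ?_⟩
  have := geoP_le W (iv η)
  rw [e, norm_smul, Real.norm_eq_abs] at this
  rw [hd, mul_left_comm]
  exact mul_le_mul_of_nonneg_left this hω.le

theorem exists_ratio {ω : ℝ} (hω : 0 < ω) (G : Finset (Zv m)) {k η : Zv m}
    (hk : iv k ∉ spanS G) (hη : iv η ∈ ext (spanS G) k) :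
    ∃ p q : ℤ, 0 < q ∧ IsCoprime q p ∧ iv (q • η - p • k) ∈ spanS G ∧
      (q : ℝ) * dk ω (spanS G) k ≤ ω * ‖iv k‖ ∧ |(p : ℝ)| * dk ω (spanS G) k ≤ ω * ‖iv η‖ := by
  obtain ⟨k₀, -, -, h⟩ := exists_gen hω G hk
  obtain ⟨a, ha, ha'⟩ := h k (le_ext _ k).2
  obtain ⟨b, hb, hb'⟩ := h η hη
  have ha0 : a ≠ 0 := by
    rintro rfl
    exact hk (by simpa using ha)
  obtain ⟨g, q, p, hg, hc, rfl, rfl⟩ := Int.exists_gcd_one' (Int.gcd_pos_of_ne_zero_left b ha0)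
  have hd := (dk_pos hω G hk).le
  have hg' : (1 : ℝ) ≤ g := by exact_mod_cast hg
  have e : ∀ x : ℤ, |(x : ℝ)| * dk ω (spanS G) k ≤ |((x * g : ℤ) : ℝ)| * dk ω (spanS G) k := by
    intro x
    refine mul_le_mul_of_nonneg_right ?_ hd
    push_cast
    rw [abs_mul, Nat.abs_cast]
    exact le_mul_of_one_le_right (abs_nonneg _) hg'
  have hm : iv (q • η - p • k) ∈ spanS G := by
    have : q • η - p • k = q • (η - (p * g) • k₀) - p • (k - (q * g) • k₀) := by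
      simp only [smul_sub, smul_smul]
      rw [show q * (p * g) = p * (q * g) by ring]
      abel
    rw [this, iv_sub, iv_zsmul, iv_zsmul]
    exact Submodule.sub_mem _ (Submodule.smul_mem _ _ hb) (Submodule.smul_mem _ _ ha)
  have hco := Int.isCoprime_iff_gcd_eq_one.2 hc
  rcases lt_or_gt_of_ne (left_ne_zero_of_mul ha0) with hq | hq
  · refine ⟨-p, -q, by omega, hco.neg_left.neg_right, ?_, ?_, ?_⟩
    · have : -q • η - -p • k = -(q • η - p • k) := by simp only [neg_smul]; abel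
      rw [this, iv_neg]
      exact Submodule.neg_mem _ hm
    · refine le_trans (mul_le_mul_of_nonneg_right ?_ hd) ((e q).trans ha')
      push_cast
      exact neg_le_abs _
    · push_cast
      rw [abs_neg]
      exact (e p).trans hb'
  · exact ⟨p, q, hq, hco, hm,
      le_trans (mul_le_mul_of_nonneg_right (le_abs_self _) hd) ((e q).trans ha'), (e p).trans hb'⟩

theorem geo_gauss_one {s : ℝ} (hs : 0 < s) (F : Finset ℤ) :
    ∑ h ∈ F, rexp (-π * s * (h : ℝ) ^ 2) ≤ 1 + 1 / √s := by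
  have h1 := tsum_gauss_le (m := 1) hs 0
  have h2 := (summable_gauss (m := 1) hs 0).sum_le_tsum (F.image fun h _ => h)
    (fun _ _ => by positivity)
  rw [Finset.sum_image (fun a _ b _ h => congrFun h 0)] at h2
  simp only [add_zero, norm_iv_sq, Fin.sum_univ_one, pow_one] at h1 h2
  exact h2.trans h1

theorem th_ext_le {ω β : ℝ} (hω : 0 < ω) (hβ : 0 < β) (G : Finset (Zv m)) {k : Zv m}
    (hk : iv k ∉ spanS G) :
    th ω (ext (spanS G) k) β ≤ th ω (spanS G) (β / 4) * (1 + 1 / (dk ω (spanS G) k * √β)) := by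
  obtain ⟨k₀, -, hd, h⟩ := exists_gen hω G hk
  have hp := dk_pos hω G hk
  set W := spanS G
  choose! f hf _ using h
  have h0 : 0 ≤ th ω W (β / 4) := tsum_nonneg fun _ => by split_ifs <;> positivity
  refine Real.tsum_le_of_sum_le (fun _ => by split_ifs <;> positivity) fun F => ?_
  have hg := geo_gauss_one (show 0 < dk ω W k ^ 2 * β by positivity) (F.image f)
  rw [Real.sqrt_mul (by positivity), Real.sqrt_sq hp.le] at hg
  rw [← Finset.sum_fiberwise_of_maps_to (fun η hη => Finset.mem_image_of_mem f hη)]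
  refine le_trans ?_ (mul_le_mul_of_nonneg_left hg h0)
  rw [Finset.mul_sum]
  refine Finset.sum_le_sum fun h _ => ?_
  obtain ⟨s1, s2⟩ := shift_le hω hβ W ((h : ℝ) • W.starProjection (iv k₀))
  have s3 := ((Equiv.subRight (h • k₀)).summable_iff.2 s1).sum_le_tsum (F.filter (f · = h))
    (fun _ _ => by simp only [Function.comp_apply]; split_ifs <;> positivity)
  rw [Function.comp_def, (Equiv.subRight (h • k₀)).tsum_eq (fun κ => if iv κ ∈ W then
    rexp (-π * β * (ω ^ 2 * ‖iv κ + (h : ℝ) • W.starProjection (iv k₀)‖ ^ 2)) else 0)] at s3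
  refine le_trans ?_ (mul_le_mul_of_nonneg_right (s3.trans s2) (by positivity))
  rw [Finset.sum_mul]
  refine Finset.sum_le_sum fun η hη => ?_
  obtain rfl := (Finset.mem_filter.1 hη).2
  by_cases he : iv η ∈ ext W k
  · have h1 := hf η he
    rw [if_pos he, Equiv.subRight_apply, if_pos h1, ← Real.exp_add, geoP_sq W (iv η), hd, geoP_dist]
    have h2 : iv η = iv (η - f η • k₀) + (f η : ℝ) • iv k₀ := by rw [iv_sub, iv_zsmul]; abel
    have h3 : geoP W (iv η) = (f η : ℝ) • geoP W (iv k₀) := by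
      rw [h2, map_add, map_smul, geoP_zero.2 h1, zero_add]
    have h4 : W.starProjection (iv η) =
        iv (η - f η • k₀) + (f η : ℝ) • W.starProjection (iv k₀) := by
      conv_lhs => rw [h2, map_add, map_smul, Submodule.starProjection_eq_self_iff.2 h1]
    rw [h3, h4, norm_smul, mul_pow, mul_pow, Real.norm_eq_abs, sq_abs]
    exact le_of_eq (by congr 1; ring)
  · rw [if_neg he]; split_ifs <;> positivity

theorem geo_vol_ball (V : Type) [NormedAddCommGroup V] [InnerProductSpace ℝ V]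
    [FiniteDimensional ℝ V] [MeasurableSpace V] [BorelSpace V] {A : ℝ} (hA : 0 ≤ A) :
    volume (Metric.closedBall (0 : V) A) ≤ ENNReal.ofReal ((2 * A) ^ Module.finrank ℝ V) := by
  have h := (PiLp.volume_preserving_ofLp _).comp (stdOrthonormalBasis ℝ V).measurePreserving_repr
  have h2 := Real.volume_pi_closedBall (0 : Fin (Module.finrank ℝ V) → ℝ) hA
  rw [Fintype.card_fin] at h2
  rw [← h2, ← h.measure_preimage measurableSet_closedBall.nullMeasurableSet]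
  refine measure_mono fun x hx => ?_
  simp only [Set.mem_preimage, mem_closedBall_zero_iff, Function.comp_apply] at hx ⊢
  refine (pi_norm_le_iff_of_nonneg hA).2 fun i => (PiLp.norm_apply_le _ i).trans ?_
  rwa [LinearIsometryEquiv.norm_map]

/-- integer points in a tube around a subspace -/
theorem card_tube_le (W : Submodule ℝ (Ev m)) {s R : ℝ} (hs : 0 ≤ s) (hR : 0 ≤ R)
    (F : Finset (Zv m))
    (hF : ∀ k ∈ F, Metric.infDist (iv k) (W : Set (Ev m)) ≤ s ∧ ‖iv k‖ ≤ R) :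
    (F.card : ℝ) ≤ (2 * s + √m) ^ (m - Module.finrank ℝ W) * (2 * R + √m) ^ Module.finrank ℝ W := by
  let C : Zv m → Set (Ev m) := fun k => WithLp.ofLp ⁻¹'
    (Set.pi Set.univ fun p => Set.Ico ((k p : ℝ) - 1 / 2) (k p + 1 / 2))
  have hm : ∀ k : Zv m, MeasurableSet
      (Set.pi Set.univ fun p => Set.Ico ((k p : ℝ) - 1 / 2) (k p + 1 / 2)) :=
    fun k => MeasurableSet.univ_pi fun _ => measurableSet_Ico
  have hC : ∀ k, volume (C k) = 1 := fun k => by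
    rw [(PiLp.volume_preserving_ofLp _).measure_preimage (hm k).nullMeasurableSet,
      Real.volume_pi_Ico]
    norm_num
  have h1 : volume (⋃ k ∈ F, C k) = F.card := by
    rw [measure_biUnion_finset (f := C) _
      fun k _ => (PiLp.volume_preserving_ofLp _).measurable (hm k)]
    · simp [hC]
    · intro k _ k' _ hne
      refine Set.disjoint_left.2 fun x h h' => hne (funext fun p => ?_)
      obtain ⟨a1, a2⟩ := h p trivial
      obtain ⟨b1, b2⟩ := h' p trivial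
      have c1 : k p < k' p + 1 := by exact_mod_cast (by linarith : (k p : ℝ) < k' p + 1)
      have c2 : k' p < k p + 1 := by exact_mod_cast (by linarith : (k' p : ℝ) < k p + 1)
      omega
  have hP := (WithLp.volume_preserving_ofLp W Wᗮ).comp W.orthogonalDecomposition.measurePreserving
  have h2 : (⋃ k ∈ F, C k) ⊆ (WithLp.ofLp ∘ W.orthogonalDecomposition) ⁻¹'
      (Metric.closedBall 0 (R + √m / 2) ×ˢ Metric.closedBall 0 (s + √m / 2)) := by
    intro x hx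
    simp only [Set.mem_iUnion] at hx
    obtain ⟨k, hk, hx⟩ := hx
    have h3 : ‖x - iv k‖ ≤ √m / 2 := by
      rw [EuclideanSpace.norm_eq, le_div_iff₀ two_pos, ← Real.sqrt_sq zero_le_two,
        ← Real.sqrt_mul' _ (by positivity), Finset.sum_mul]
      refine Real.sqrt_le_sqrt ((Finset.sum_le_card_nsmul _ _ 1 fun p _ => ?_).trans (by simp))
      obtain ⟨a1, a2⟩ := hx p trivial
      simp only [iv, PiLp.sub_apply, Real.norm_eq_abs, sq_abs]
      nlinarith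
    obtain ⟨h4, h5⟩ := hF k hk
    rw [geoP_dist] at h4
    constructor
    · rw [mem_closedBall_zero_iff]
      refine (W.norm_orthogonalProjectionOnto_apply_le x).trans ?_
      linarith [norm_le_norm_add_norm_sub' x (iv k)]
    · rw [mem_closedBall_zero_iff]
      have h6 := norm_le_norm_add_norm_sub' (geoP W x) (geoP W (iv k))
      have h7 := geoP_le W (x - iv k)
      rw [map_sub] at h7
      have h8 : ‖geoP W x‖ ≤ s + √m / 2 := by linarith
      simpa [geoP] using h8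
  have h3 := measure_mono (μ := volume) h2
  rw [h1, hP.measure_preimage
    (measurableSet_closedBall.prod measurableSet_closedBall).nullMeasurableSet,
    Measure.volume_eq_prod, Measure.prod_prod] at h3
  have h4 := h3.trans (mul_le_mul' (geo_vol_ball W (by positivity))
    (geo_vol_ball Wᗮ (by positivity)))
  have h5 : Module.finrank ℝ Wᗮ = m - Module.finrank ℝ W := by
    have := W.finrank_add_finrank_orthogonal
    rw [finrank_euclideanSpace_fin] at this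
    omega
  rw [← ENNReal.ofReal_mul (by positivity), ← ENNReal.ofReal_natCast,
    ENNReal.ofReal_le_ofReal_iff (by positivity), h5] at h4
  refine h4.trans (le_of_eq ?_)
  rw [mul_comm]
  congr 2 <;> ring

end Pool.Agent.Eps
end
end

-- part Pool.Agent.Lib.MP_3bda03_nt.T3A
section

/-!
Gaussian sums over the quadruples of integer vectors of one arithmetic class.
-/

set_option autoImplicit false

noncomputable section

open scoped BigOperators Classical Topology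
open MeasureTheory Real Complex Filter

namespace Pool.Agent.Eps.T3

variable {m : ℕ}

theorem sum_le_fiber {α β : Type*} [DecidableEq β] (F : Finset α) (f : α → β) (g : α → ℝ) (w : β → ℝ)
    (h : ∀ b ∈ F.image f, ∑ a ∈ F.filter (fun a => f a = b), g a ≤ w b) :
    ∑ a ∈ F, g a ≤ ∑ b ∈ F.image f, w b := by
  rw [← Finset.sum_fiberwise_of_maps_to (fun a ha => Finset.mem_image_of_mem f ha)]
  exact Finset.sum_le_sum h

theorem sum_le_of_inj {α β : Type*} [DecidableEq β] (F : Finset α) (φ : α → β) (hφ : Set.InjOn φ F) (g : α → ℝ)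
    (G : β → ℝ) (hg : ∀ a ∈ F, g a ≤ G (φ a)) : ∑ a ∈ F, g a ≤ ∑ b ∈ F.image φ, G b := by
  rw [Finset.sum_image hφ]
  exact Finset.sum_le_sum hg

theorem sum_pair_le {α β : Type*} [DecidableEq α] [DecidableEq β] (F : Finset (α × β)) (f : α → ℝ) (g : α → β → ℝ) {b : ℝ}
    (hf : ∀ a, 0 ≤ f a) (hg : ∀ a c, 0 ≤ g a c) (hb : ∀ a, ∑ c ∈ F.image Prod.snd, g a c ≤ b) :
    ∑ q ∈ F, f q.1 * g q.1 q.2 ≤ (∑ a ∈ F.image Prod.fst, f a) * b := by
  refine (Finset.sum_le_sum_of_subset_of_nonneg Finset.subset_product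
    fun q _ _ => mul_nonneg (hf _) (hg _ _)).trans ?_
  rw [Finset.sum_product, Finset.sum_mul]
  refine Finset.sum_le_sum fun a _ => ?_
  dsimp only
  rw [← Finset.mul_sum]
  exact mul_le_mul_of_nonneg_left (hb a) (hf a)

theorem sum_gauss_le {s : ℝ} (hs : 0 < s) (w : Ev m) (F : Finset (Zv m)) :
    ∑ k ∈ F, rexp (-π * s * ‖iv k + w‖ ^ 2) ≤ (1 + 1 / √s) ^ m :=
  ((summable_gauss hs w).sum_le_tsum F fun _ _ => (Real.exp_pos _).le).trans (tsum_gauss_le hs w)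

theorem sum_le_th {ω β : ℝ} (hω : 0 < ω) (hβ : 0 < β) (W : Submodule ℝ (Ev m)) (F : Finset (Zv m))
    (hF : ∀ κ ∈ F, iv κ ∈ W) : ∑ κ ∈ F, rexp (-π * β * (ω ^ 2 * ‖iv κ‖ ^ 2)) ≤ th ω W β := by
  refine le_trans (le_of_eq (Finset.sum_congr rfl fun κ h => (if_pos (hF κ h)).symm))
    ((summable_th hω hβ fun κ => iv κ ∈ W).sum_le_tsum F fun κ _ => ?_)
  split_ifs
  exacts [(Real.exp_pos _).le, le_rfl]

theorem sum_le_th0 {ω β : ℝ} (hω : 0 < ω) (hβ : 0 < β) (W : Submodule ℝ (Ev m)) (F : Finset (Zv m))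
    (hF : ∀ κ ∈ F, iv κ ∈ W ∧ κ ≠ 0) :
    ∑ κ ∈ F, rexp (-π * β * (ω ^ 2 * ‖iv κ‖ ^ 2)) ≤ th0 ω W β := by
  refine le_trans (le_of_eq (Finset.sum_congr rfl fun κ h => (if_pos (hF κ h)).symm))
    ((summable_th hω hβ fun κ => iv κ ∈ W ∧ κ ≠ 0).sum_le_tsum F fun κ _ => ?_)
  split_ifs
  exacts [(Real.exp_pos _).le, le_rfl]

theorem th_nonneg {ω β : ℝ} (hω : 0 < ω) (hβ : 0 < β) (W : Submodule ℝ (Ev m)) : 1 ≤ th ω W β := by
  rw [th_eq hω hβ]
  linarith [th0_nonneg ω β W]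

/-! ### two completions of squares -/

def qA (c₂ c₃ c₄ d p h' : ℝ) : ℝ := c₂ * d ^ 2 + c₃ * p ^ 2 + c₄ * h' ^ 2

def qD (c₁ c₂ c₃ c₄ d h p h' : ℝ) : ℝ :=
  c₁ * c₂ * d ^ 4 + d ^ 2 * (c₁ * (c₃ * p ^ 2 + c₄ * h' ^ 2) + c₂ * (c₃ * h ^ 2 + c₄ * p ^ 2)) +
    c₃ * c₄ * (h * h' + p ^ 2) ^ 2

theorem quad_abs {A B C D u v e : ℝ} (hA : 0 < A) (hD : 0 < D) (hdet : D = A * C - B ^ 2)
    (hq : ∀ x y : ℝ, 0 ≤ C * x ^ 2 + 2 * B * x * y + A * y ^ 2 + 2 * u * x + 2 * v * y + e) (x y : ℝ) :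
    D / A * (x + (A * u - B * v) / D) ^ 2 + A * (y + (B / A * x + v / A)) ^ 2 ≤
      C * x ^ 2 + 2 * B * x * y + A * y ^ 2 + 2 * u * x + 2 * v * y + e := by
  have hC : C = (D + B ^ 2) / A := by rw [hdet]; field_simp; ring
  have e2 : ∀ x y : ℝ, D / A * (x + (A * u - B * v) / D) ^ 2 + A * (y + (B / A * x + v / A)) ^ 2 =
      C * x ^ 2 + 2 * B * x * y + A * y ^ 2 + 2 * u * x + 2 * v * y +
        ((A * u - B * v) ^ 2 / (A * D) + v ^ 2 / A) := by
    intro x y; rw [hC]; field_simp; ring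
  have a1 := hq (-((A * u - B * v) / D)) (-(B / A * -((A * u - B * v) / D) + v / A))
  have a2 := e2 (-((A * u - B * v) / D)) (-(B / A * -((A * u - B * v) / D) + v / A))
  rw [neg_add_cancel, neg_add_cancel] at a2
  rw [e2]
  linarith

theorem quad_real {c₁ c₂ c₃ c₄ d h p h' : ℝ} (h₁ : 0 ≤ c₁) (h₂ : 0 ≤ c₂) (h₃ : 0 ≤ c₃) (h₄ : 0 ≤ c₄)
    (hA : 0 < qA c₂ c₃ c₄ d p h') (hD : 0 < qD c₁ c₂ c₃ c₄ d h p h') (w₁ w₂ w₃ w₄ : ℝ) :
    ∃ x₀ y₀ : ℝ, ∀ x y : ℝ,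
      qD c₁ c₂ c₃ c₄ d h p h' / qA c₂ c₃ c₄ d p h' * (x + x₀) ^ 2 + qA c₂ c₃ c₄ d p h' *
        (y + ((c₃ * h * p - c₄ * p * h') / qA c₂ c₃ c₄ d p h' * x + y₀)) ^ 2 ≤
      c₁ * (d * x + w₁) ^ 2 + c₂ * (d * y + w₂) ^ 2 + c₃ * (h * x + p * y + w₃) ^ 2 +
        c₄ * (-p * x + h' * y + w₄) ^ 2 := by
  have e1 : ∀ x y : ℝ, c₁ * (d * x + w₁) ^ 2 + c₂ * (d * y + w₂) ^ 2 +
      c₃ * (h * x + p * y + w₃) ^ 2 + c₄ * (-p * x + h' * y + w₄) ^ 2 =
      (c₁ * d ^ 2 + c₃ * h ^ 2 + c₄ * p ^ 2) * x ^ 2 + 2 * (c₃ * h * p - c₄ * p * h') * x * y +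
        qA c₂ c₃ c₄ d p h' * y ^ 2 + 2 * (c₁ * d * w₁ + c₃ * h * w₃ - c₄ * p * w₄) * x +
        2 * (c₂ * d * w₂ + c₃ * p * w₃ + c₄ * h' * w₄) * y +
        (c₁ * w₁ ^ 2 + c₂ * w₂ ^ 2 + c₃ * w₃ ^ 2 + c₄ * w₄ ^ 2) := by
    intro x y; rw [qA]; ring
  exact ⟨_, _, fun x y => (quad_abs hA hD (by rw [qA, qD]; ring)
    (fun x y => by rw [← e1]; positivity) x y).trans_eq (e1 x y).symm⟩

theorem gauss_four {c₁ c₂ c₃ c₄ d h p h' : ℝ} (h₁ : 0 ≤ c₁) (h₂ : 0 ≤ c₂) (h₃ : 0 ≤ c₃)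
    (h₄ : 0 ≤ c₄) (hA : 0 < qA c₂ c₃ c₄ d p h') (hD : 0 < qD c₁ c₂ c₃ c₄ d h p h')
    (w₁ w₂ w₃ w₄ : Ev m) (F : Finset (Zv m × Zv m)) :
    ∑ q ∈ F, rexp (-π * (c₁ * ‖d • iv q.1 + w₁‖ ^ 2 + c₂ * ‖d • iv q.2 + w₂‖ ^ 2 +
      c₃ * ‖h • iv q.1 + p • iv q.2 + w₃‖ ^ 2 + c₄ * ‖(-p) • iv q.1 + h' • iv q.2 + w₄‖ ^ 2)) ≤
      (1 + 1 / √(qD c₁ c₂ c₃ c₄ d h p h' / qA c₂ c₃ c₄ d p h')) ^ m *
        (1 + 1 / √(qA c₂ c₃ c₄ d p h')) ^ m := by
  choose x₀ y₀ hxy using fun i => quad_real h₁ h₂ h₃ h₄ hA hD (w₁ i) (w₂ i) (w₃ i) (w₄ i)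
  set A := qA c₂ c₃ c₄ d p h'
  set D := qD c₁ c₂ c₃ c₄ d h p h'
  set B := c₃ * h * p - c₄ * p * h'
  refine le_trans (Finset.sum_le_sum fun q _ => ?_) ((sum_pair_le F
    (fun j => rexp (-π * (D / A) * ‖iv j + WithLp.toLp 2 x₀‖ ^ 2))
    (fun j j' => rexp (-π * A * ‖iv j' + ((B / A) • iv j + WithLp.toLp 2 y₀)‖ ^ 2))
    (fun _ => (Real.exp_pos _).le) (fun _ _ => (Real.exp_pos _).le)
    (fun j => sum_gauss_le hA _ _)).trans
    (mul_le_mul_of_nonneg_right (sum_gauss_le (div_pos hD hA) _ _) (by positivity)))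
  rw [← Real.exp_add, Real.exp_le_exp, neg_mul, neg_mul, neg_mul, neg_mul, neg_mul, ← neg_add,
    neg_le_neg_iff, mul_assoc, mul_assoc, ← mul_add]
  refine mul_le_mul_of_nonneg_left ?_ Real.pi_pos.le
  simp only [EuclideanSpace.real_norm_sq_eq, Finset.mul_sum, ← Finset.sum_add_distrib]
  exact Finset.sum_le_sum fun i _ => hxy i (iv q.1 i) (iv q.2 i)

/-! ### residue classes -/

theorem card_sol (d : ℕ) [NeZero d] {h p h' a b c e : ℤ} (hg : a * d + b * h + c * p + e * h' = 1)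
    (u : ZMod d × ZMod d) :
    (Finset.univ.filter fun x : ZMod d × ZMod d =>
      ((h : ZMod d) * x.1 + p * x.2, -(p : ZMod d) * x.1 + h' * x.2) = u).card ≤ d := by
  let φ : ZMod d × ZMod d →+ ZMod d × ZMod d :=
    { toFun := fun x => ((h : ZMod d) * x.1 + p * x.2, -(p : ZMod d) * x.1 + h' * x.2)
      map_zero' := by simp
      map_add' := fun x y => by ext <;> simp <;> ring }
  change (Finset.univ.filter fun x => φ x = u).card ≤ d
  by_cases hu : u ∈ Set.range φ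
  swap
  · rw [Finset.filter_false_of_mem fun x _ hx => hu ⟨x, hx⟩]
    exact Nat.zero_le _
  have h1 : (Finset.univ.filter fun x => φ x = u).card = Nat.card φ.ker := by
    rw [AddMonoidHom.card_fiber_eq_of_mem_range φ hu ⟨0, map_zero φ⟩, Nat.card_eq_fintype_card,
      Fintype.card_subtype]
    exact congrArg _ (Finset.filter_congr fun x _ => (AddMonoidHom.mem_ker).symm)
  have h2 := φ.ker.card_mul_index
  rw [AddSubgroup.index_ker, Nat.card_prod, Nat.card_zmod] at h2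
  have h3 : ∀ x, Nat.card φ.range • φ x = 0 := fun x =>
    congrArg Subtype.val (card_nsmul_eq_zero' (x := (⟨φ x, x, rfl⟩ : φ.range)))
  have h4 : ((Nat.card φ.range : ℕ) : ZMod d) = 0 := by
    generalize Nat.card φ.range = ι at h3
    have b1 : ι • ((h : ZMod d) * 1 + p * 0) = 0 := congrArg Prod.fst (h3 (1, 0))
    have b2 : ι • ((h : ZMod d) * 0 + p * 1) = 0 := congrArg Prod.fst (h3 (0, 1))
    have b3 : ι • (-(p : ZMod d) * 0 + h' * 1) = 0 := congrArg Prod.snd (h3 (0, 1))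
    rw [nsmul_eq_mul] at b1 b2 b3
    have b4 := congrArg (Int.cast : ℤ → ZMod d) hg
    push_cast at b4
    rw [ZMod.natCast_self] at b4
    linear_combination (b : ZMod d) * b1 + (c : ZMod d) * b2 + (e : ZMod d) * b3 -
      (ι : ZMod d) * b4
  have h5 : d ≤ Nat.card φ.range :=
    Nat.le_of_dvd Nat.card_pos ((ZMod.natCast_eq_zero_iff _ _).1 h4)
  rw [h1]
  exact Nat.le_of_mul_le_mul_right (h2 ▸ Nat.mul_le_mul_left _ h5) (Nat.pos_of_neZero d)

abbrev Q4 (m : ℕ) := (Zv m × Zv m) × Zv m × Zv m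

/-- the quadratic form in the four vectors -/
def qf (c₁ c₂ c₃ c₄ : ℝ) (q : Q4 m) : ℝ :=
  c₁ * ‖iv q.1.1‖ ^ 2 + c₂ * ‖iv q.1.2‖ ^ 2 + c₃ * ‖iv q.2.1‖ ^ 2 + c₄ * ‖iv q.2.2‖ ^ 2

def ka (d h p : ℤ) (q : Q4 m) : Zv m := d • q.2.1 - h • q.1.1 - p • q.1.2

def kb (d p h' : ℤ) (q : Q4 m) : Zv m := d • q.2.2 + p • q.1.1 - h' • q.1.2

theorem class_sum {c₁ c₂ c₃ c₄ : ℝ} (h₁ : 0 ≤ c₁) (h₂ : 0 ≤ c₂) (h₃ : 0 ≤ c₃) (h₄ : 0 ≤ c₄)
    (d : ℕ) [NeZero d] {h p h' a b c e : ℤ} (hg : a * d + b * h + c * p + e * h' = 1)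
    (hA : 0 < qA c₂ c₃ c₄ d p h') (hD : 0 < qD c₁ c₂ c₃ c₄ d h p h') (κ κ' : Zv m)
    (F : Finset (Q4 m)) (hF : ∀ q ∈ F, ka d h p q = κ ∧ kb d p h' q = κ') :
    ∑ q ∈ F, rexp (-π * qf c₁ c₂ c₃ c₄ q) ≤ (d : ℝ) ^ m *
      ((1 + 1 / √(qD c₁ c₂ c₃ c₄ d h p h' / qA c₂ c₃ c₄ d p h')) ^ m *
        (1 + 1 / √(qA c₂ c₃ c₄ d p h')) ^ m) := by
  have hd : (d : ℤ) ≠ 0 := Int.natCast_ne_zero.2 (NeZero.ne d)
  let ρ : Q4 m → Fin m → ZMod d × ZMod d := fun q i => ((q.1.1 i : ZMod d), (q.1.2 i : ZMod d))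
  refine (sum_le_fiber F ρ _ (fun _ => (1 + 1 / √(qD c₁ c₂ c₃ c₄ d h p h' / qA c₂ c₃ c₄ d p h')) ^ m *
        (1 + 1 / √(qA c₂ c₃ c₄ d p h')) ^ m) fun r hr => ?_).trans ?_
  · obtain ⟨q₀, hq₀, rfl⟩ := Finset.mem_image.1 hr
    let φ : Q4 m → Zv m × Zv m := fun q =>
      (fun i => (q.1.1 i - q₀.1.1 i) / d, fun i => (q.1.2 i - q₀.1.2 i) / d)
    have key : ∀ q ∈ F.filter (fun q => ρ q = ρ q₀), q.1.1 = (d : ℤ) • (φ q).1 + q₀.1.1 ∧
        q.1.2 = (d : ℤ) • (φ q).2 + q₀.1.2 ∧ q.2.1 = h • (φ q).1 + p • (φ q).2 + q₀.2.1 ∧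
        q.2.2 = (-p) • (φ q).1 + h' • (φ q).2 + q₀.2.2 := by
      intro q hq
      obtain ⟨hq, hρ⟩ := Finset.mem_filter.1 hq
      have a1 : ∀ i, q.1.1 i = d * (φ q).1 i + q₀.1.1 i := fun i => by
        rw [Int.mul_ediv_cancel' ((ZMod.intCast_eq_intCast_iff_dvd_sub _ _ _).1
          (congrArg Prod.fst (congrFun hρ i)).symm), sub_add_cancel]
      have a2 : ∀ i, q.1.2 i = d * (φ q).2 i + q₀.1.2 i := fun i => by
        rw [Int.mul_ediv_cancel' ((ZMod.intCast_eq_intCast_iff_dvd_sub _ _ _).1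
          (congrArg Prod.snd (congrFun hρ i)).symm), sub_add_cancel]
      refine ⟨funext a1, funext a2, funext fun i => mul_left_cancel₀ hd ?_,
        funext fun i => mul_left_cancel₀ hd ?_⟩
      · have := congrFun ((hF q hq).1.trans (hF q₀ hq₀).1.symm) i
        simp only [ka, Pi.sub_apply, Pi.add_apply, Pi.smul_apply, smul_eq_mul] at this ⊢
        linear_combination this + h * a1 i + p * a2 i
      · have := congrFun ((hF q hq).2.trans (hF q₀ hq₀).2.symm) i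
        simp only [kb, Pi.sub_apply, Pi.add_apply, Pi.smul_apply, smul_eq_mul] at this ⊢
        linear_combination this - p * a1 i + h' * a2 i
    refine (sum_le_of_inj _ φ (fun q hq q' hq' e => ?_) _ _ fun q hq => le_of_eq ?_).trans
      (gauss_four h₁ h₂ h₃ h₄ hA hD (iv q₀.1.1) (iv q₀.1.2) (iv q₀.2.1) (iv q₀.2.2) _)
    · obtain ⟨a1, a2, a3, a4⟩ := key q hq
      obtain ⟨b1, b2, b3, b4⟩ := key q' hq'
      rw [e] at a1 a2 a3 a4
      exact Prod.ext (Prod.ext (a1.trans b1.symm) (a2.trans b2.symm))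
        (Prod.ext (a3.trans b3.symm) (a4.trans b4.symm))
    · obtain ⟨a1, a2, a3, a4⟩ := key q hq
      rw [qf, a1, a2, a3, a4]
      simp only [iv_add, iv_zsmul, Int.cast_natCast, Int.cast_neg]
  · rw [Finset.sum_const, nsmul_eq_mul]
    refine mul_le_mul_of_nonneg_right ?_ (by positivity)
    have : F.image ρ ⊆ Fintype.piFinset fun i => Finset.univ.filter fun x : ZMod d × ZMod d =>
        ((h : ZMod d) * x.1 + p * x.2, -(p : ZMod d) * x.1 + h' * x.2) =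
          (-(κ i : ZMod d), -(κ' i : ZMod d)) := by
      intro r hr
      obtain ⟨q, hq, rfl⟩ := Finset.mem_image.1 hr
      refine Fintype.mem_piFinset.2 fun i => Finset.mem_filter.2 ⟨Finset.mem_univ _, ?_⟩
      rw [← (hF q hq).1, ← (hF q hq).2]
      ext <;> simp [ka, kb, ρ] <;> ring
    have h2 := Finset.card_le_card this
    rw [Fintype.card_piFinset] at h2
    have h3 := h2.trans (Finset.prod_le_pow_card _ _ d fun i _ => card_sol d hg _)
    rw [Finset.card_univ, Fintype.card_fin] at h3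
    exact_mod_cast h3

/-! ### sums over a whole class -/

/-- lattice sums are close to integrals at scales below `S` -/
def Sm (m : ℕ) (ω S : ℝ) : Prop :=
  ∀ s : ℝ, 0 < s → s ≤ S → (ω + 1 / √s) ^ m ≤ 1.2 * s ^ (-(m : ℝ) / 2)

theorem small (m : ℕ) (S : ℝ) : ∀ᶠ ω in 𝓝[>] (0 : ℝ), Sm m ω S := by
  have h : Tendsto (fun ω : ℝ => (1 + ω * √S) ^ m) (𝓝[>] 0) (𝓝 ((1 + 0 * √S) ^ m)) :=
    tendsto_nhdsWithin_of_tendsto_nhds (Continuous.tendsto (by fun_prop) 0)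
  filter_upwards [h.eventually (eventually_le_nhds (b := 1.2) (by norm_num)),
    self_mem_nhdsWithin] with ω h1 (hω : 0 < ω) s hs hS
  have h2 : 0 < √s := Real.sqrt_pos.2 hs
  have h3 : s ^ (-(m : ℝ) / 2) = (1 / √s) ^ m := by
    rw [Real.sqrt_eq_rpow, one_div, ← Real.rpow_neg hs.le, ← Real.rpow_natCast,
      ← Real.rpow_mul hs.le]
    congr 1; ring
  calc (ω + 1 / √s) ^ m = (1 + ω * √s) ^ m * (1 / √s) ^ m := by
        rw [← mul_pow]; congr 1; field_simp; ring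
    _ ≤ 1.2 * s ^ (-(m : ℝ) / 2) := by
        rw [h3]
        refine mul_le_mul_of_nonneg_right (le_trans ?_ h1) (by positivity)
        gcongr

theorem scale {ω s : ℝ} (hω : 0 < ω) (hs : 0 < s) :
    ω ^ m * (1 + 1 / √(ω ^ 2 * s)) ^ m = (ω + 1 / √s) ^ m := by
  have := Real.sqrt_pos.2 hs
  rw [← mul_pow, Real.sqrt_mul (sq_nonneg ω), Real.sqrt_sq hω.le]
  congr 1; field_simp

/-- the Gaussian weight of a quadruple -/
def gw (ω c₁ c₂ c₃ c₄ : ℝ) (q : Q4 m) : ℝ := rexp (-π * (ω ^ 2 * qf c₁ c₂ c₃ c₄ q))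

theorem class_le {ω c₁ c₂ c₃ c₄ c θ S : ℝ} (hω : 0 < ω) (h₁ : 0 ≤ c₁) (h₂ : 0 ≤ c₂) (h₃ : 0 ≤ c₃)
    (h₄ : 0 ≤ c₄) (d : ℕ) [NeZero d] {h p h' a b c' e : ℤ}
    (hg : a * d + b * h + c' * p + e * h' = 1) (hA : 0 < qA c₂ c₃ c₄ d p h')
    (hD : 0 < qD c₁ c₂ c₃ c₄ d h p h') (hc : 0 < c) (hθ : 0 < θ) (hS : Sm m ω S)
    (hA' : θ * qA c₂ c₃ c₄ d p h' ≤ S)
    (hD' : θ * (qD c₁ c₂ c₃ c₄ d h p h' / qA c₂ c₃ c₄ d p h') ≤ S) (W : Submodule ℝ (Ev m))
    (F : Finset (Q4 m)) (hF : ∀ q ∈ F, iv (ka d h p q) ∈ W ∧ iv (kb d p h' q) ∈ W)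
    (hq : ∀ q : Q4 m, c * (‖iv (ka d h p q)‖ ^ 2 + ‖iv (kb d p h' q)‖ ^ 2) ≤
      (1 - θ) * qf c₁ c₂ c₃ c₄ q) :
    ω ^ (2 * m) * ∑ q ∈ F, gw ω c₁ c₂ c₃ c₄ q ≤
      1.44 * (d : ℝ) ^ m * (θ ^ 2 * qD c₁ c₂ c₃ c₄ d h p h') ^ (-(m : ℝ) / 2) * th ω W c ^ 2 := by
  have hs : 0 < ω ^ 2 * θ := by positivity
  have eA : qA (ω ^ 2 * θ * c₂) (ω ^ 2 * θ * c₃) (ω ^ 2 * θ * c₄) d p h' =
      ω ^ 2 * (θ * qA c₂ c₃ c₄ d p h') := by rw [qA, qA]; ring
  have eD : qD (ω ^ 2 * θ * c₁) (ω ^ 2 * θ * c₂) (ω ^ 2 * θ * c₃) (ω ^ 2 * θ * c₄) d h p h' =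
      (ω ^ 2 * θ) ^ 2 * qD c₁ c₂ c₃ c₄ d h p h' := by rw [qD, qD]; ring
  have b := fun κ κ' => class_sum (m := m) (mul_nonneg hs.le h₁) (mul_nonneg hs.le h₂)
    (mul_nonneg hs.le h₃) (mul_nonneg hs.le h₄) d hg (by rw [eA]; positivity)
    (by rw [eD]; positivity) κ κ'
  rw [eA, eD] at b
  generalize qA c₂ c₃ c₄ d p h' = A at *
  generalize qD c₁ c₂ c₃ c₄ d h p h' = D at *
  rw [show (ω ^ 2 * θ) ^ 2 * D / (ω ^ 2 * (θ * A)) = ω ^ 2 * (θ * (D / A)) by field_simp] at b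
  have b1 := hS _ (by positivity) hA'
  have b2 := hS _ (by positivity) hD'
  rw [← scale hω (by positivity)] at b1 b2
  have b3 : ω ^ (2 * m) * ((d : ℝ) ^ m * ((1 + 1 / √(ω ^ 2 * (θ * (D / A)))) ^ m *
      (1 + 1 / √(ω ^ 2 * (θ * A))) ^ m)) ≤ 1.44 * (d : ℝ) ^ m * (θ ^ 2 * D) ^ (-(m : ℝ) / 2) := by
    have := mul_le_mul b2 b1 (by positivity) (by positivity)
    rw [show θ ^ 2 * D = θ * (D / A) * (θ * A) by field_simp,
      Real.mul_rpow (by positivity) (by positivity), two_mul, pow_add]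
    have := mul_le_mul_of_nonneg_left this (show 0 ≤ (d : ℝ) ^ m by positivity)
    linarith
  generalize (d : ℝ) ^ m * ((1 + 1 / √(ω ^ 2 * (θ * (D / A)))) ^ m *
      (1 + 1 / √(ω ^ 2 * (θ * A))) ^ m) = Φ at b b3
  have hΦ : 0 ≤ Φ := by simpa using b 0 0 ∅ (by simp)
  let f : Q4 m → Zv m × Zv m := fun q => (ka d h p q, kb d p h' q)
  let E : Zv m → ℝ := fun κ => rexp (-π * c * (ω ^ 2 * ‖iv κ‖ ^ 2))
  have b4 : ∑ q ∈ F, gw ω c₁ c₂ c₃ c₄ q ≤ Φ * th ω W c ^ 2 := by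
    refine (sum_le_fiber F f _ (fun κ => Φ * (E κ.1 * E κ.2)) fun κ _ => ?_).trans ?_
    · refine le_trans (Finset.sum_le_sum fun q hq' => ?_) ((Finset.sum_mul _ _ _).symm.le.trans
        (mul_le_mul_of_nonneg_right (b κ.1 κ.2 _ fun q hq' => ?_) (by positivity)))
      · obtain rfl := (Finset.mem_filter.1 hq').2
        have := mul_le_mul_of_nonneg_left (hq q) (show 0 ≤ π * ω ^ 2 by positivity)
        rw [gw, ← Real.exp_add, ← Real.exp_add, Real.exp_le_exp]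
        simp only [qf, f] at this ⊢
        linarith
      · obtain rfl := (Finset.mem_filter.1 hq').2
        exact ⟨rfl, rfl⟩
    · rw [← Finset.mul_sum, sq]
      refine mul_le_mul_of_nonneg_left ((sum_pair_le _ E (fun _ => E) (fun _ => (Real.exp_pos _).le)
        (fun _ _ => (Real.exp_pos _).le) fun _ => sum_le_th hω hc W _ ?_).trans
        (mul_le_mul_of_nonneg_right (sum_le_th hω hc W _ ?_)
          (zero_le_one.trans (th_nonneg hω hc W)))) hΦ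
      · simp only [Finset.forall_mem_image]
        exact fun q hq => (hF q hq).2
      · simp only [Finset.forall_mem_image]
        exact fun q hq => (hF q hq).1
  calc _ ≤ ω ^ (2 * m) * (Φ * th ω W c ^ 2) := mul_le_mul_of_nonneg_left b4 (by positivity)
    _ ≤ _ := by rw [← mul_assoc]; exact mul_le_mul_of_nonneg_right b3 (sq_nonneg _)

theorem one_block {ω a b : ℝ} (hω : 0 < ω) (ha : 0 < a) (hb : 0 < b) {ε : ℤ} (hε : ε ^ 2 = 1)
    (κ : Zv m) (F : Finset (Zv m)) :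
    ∑ k ∈ F, ω ^ m * rexp (-π * ω ^ 2 * (a * ‖iv k‖ ^ 2 + b * ‖iv (ε • k + κ)‖ ^ 2)) ≤
      (ω + 1 / √(a + b)) ^ m * rexp (-π * (a * b / (a + b)) * (ω ^ 2 * ‖iv κ‖ ^ 2)) := by
  have hε' : (ε : ℝ) ^ 2 = 1 := by exact_mod_cast hε
  obtain ⟨h1, h2⟩ := gauss_two (p := (ε : ℝ)) (q := 1) hω ha.le hb.le (by rw [hε']; positivity)
    (0 : Ev m) (iv κ)
  simp only [one_smul, add_zero, smul_zero, zero_sub, norm_neg, hε', one_pow, mul_one,
    ← iv_zsmul, ← iv_add] at h1 h2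
  rw [← Finset.mul_sum]
  refine (mul_le_mul_of_nonneg_left (h1.sum_le_tsum F fun _ _ => (Real.exp_pos _).le)
    (by positivity)).trans (h2.trans_eq ?_)
  congr 2; ring

theorem main_le {ω a b a' b' : ℝ} (hω : 0 < ω) (ha : 0 < a) (hb : 0 < b) (ha' : 0 < a')
    (hb' : 0 < b') {ε ε' : ℤ} (hε : ε ^ 2 = 1) (hε' : ε' ^ 2 = 1) (W : Submodule ℝ (Ev m))
    (F : Finset (Q4 m)) (hF : ∀ q ∈ F, iv (q.2.1 - ε • q.1.1) ∈ W ∧ iv (q.2.2 - ε' • q.1.2) ∈ W ∧
      ¬(q.2.1 = ε • q.1.1 ∧ q.2.2 = ε' • q.1.2)) :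
    ω ^ (2 * m) * ∑ q ∈ F, gw ω a a' b b' q ≤ (ω + 1 / √(a + b)) ^ m * (ω + 1 / √(a' + b')) ^ m *
      (th0 ω W (a * b / (a + b)) * th ω W (a' * b' / (a' + b')) +
        th0 ω W (a' * b' / (a' + b'))) := by
  let f : Q4 m → Zv m × Zv m := fun q => (q.2.1 - ε • q.1.1, q.2.2 - ε' • q.1.2)
  let E : Zv m → ℝ := fun κ => rexp (-π * (a * b / (a + b)) * (ω ^ 2 * ‖iv κ‖ ^ 2))
  let E' : Zv m → ℝ := fun κ => rexp (-π * (a' * b' / (a' + b')) * (ω ^ 2 * ‖iv κ‖ ^ 2))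
  have hc : 0 < a * b / (a + b) := by positivity
  have hc' : 0 < a' * b' / (a' + b') := by positivity
  rw [Finset.mul_sum]
  refine (sum_le_fiber F f _ (fun κ => (ω + 1 / √(a + b)) ^ m * (ω + 1 / √(a' + b')) ^ m *
    (E κ.1 * E' κ.2)) fun κ _ => ?_).trans ?_
  · have key : ∀ q ∈ F.filter (fun q => f q = κ),
        q.2.1 = ε • q.1.1 + κ.1 ∧ q.2.2 = ε' • q.1.2 + κ.2 := by
      intro q hq
      obtain rfl := (Finset.mem_filter.1 hq).2
      simp [f]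
    refine (sum_le_of_inj _ Prod.fst (fun q hq q' hq' e => ?_) _ (fun k =>
      (ω ^ m * rexp (-π * ω ^ 2 * (a * ‖iv k.1‖ ^ 2 + b * ‖iv (ε • k.1 + κ.1)‖ ^ 2))) *
      (ω ^ m * rexp (-π * ω ^ 2 * (a' * ‖iv k.2‖ ^ 2 + b' * ‖iv (ε' • k.2 + κ.2)‖ ^ 2))))
      fun q hq => le_of_eq ?_).trans ((sum_pair_le _ _ (fun _ k =>
        ω ^ m * rexp (-π * ω ^ 2 * (a' * ‖iv k‖ ^ 2 + b' * ‖iv (ε' • k + κ.2)‖ ^ 2)))
        (fun _ => by positivity) (fun _ _ => by positivity)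
        fun _ => one_block hω ha' hb' hε' κ.2 _).trans ((mul_le_mul_of_nonneg_right
          (one_block hω ha hb hε κ.1 _) (by positivity)).trans_eq (by ring)))
    · exact Prod.ext e (Prod.ext (by rw [(key q hq).1, (key q' hq').1, e])
        (by rw [(key q hq).2, (key q' hq').2, e]))
    · rw [← (key q hq).1, ← (key q hq).2, gw, qf, mul_mul_mul_comm, ← Real.exp_add, ← pow_add,
        two_mul]
      congr 2; ring
  · rw [← Finset.mul_sum]
    refine mul_le_mul_of_nonneg_left ?_ (by positivity)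
    have hT : ∀ κ ∈ F.image f, iv κ.1 ∈ W ∧ iv κ.2 ∈ W ∧ (κ.1 = 0 → κ.2 ≠ 0) := by
      simp only [Finset.forall_mem_image]
      exact fun q hq => ⟨(hF q hq).1, (hF q hq).2.1, fun h1 h2 =>
        (hF q hq).2.2 ⟨sub_eq_zero.1 h1, sub_eq_zero.1 h2⟩⟩
    rw [← Finset.sum_filter_not_add_sum_filter _ fun κ => κ.1 = 0]
    refine add_le_add ((sum_pair_le _ E (fun _ => E') (fun _ => (Real.exp_pos _).le)
        (fun _ _ => (Real.exp_pos _).le) fun _ => sum_le_th hω hc' W _ ?_).trans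
        (mul_le_mul_of_nonneg_right (sum_le_th0 hω hc W _ ?_)
          (zero_le_one.trans (th_nonneg hω hc' W))))
      ((sum_le_of_inj _ Prod.snd (fun κ hκ κ' hκ' e => Prod.ext ?_ e) _ E'
        fun κ hκ => le_of_eq ?_).trans (sum_le_th0 hω hc' W _ ?_))
    · simp only [Finset.forall_mem_image]
      exact fun κ hκ => (hT κ (Finset.mem_filter.1 hκ).1).2.1
    · simp only [Finset.forall_mem_image]
      exact fun κ hκ => ⟨(hT κ (Finset.mem_filter.1 hκ).1).1, (Finset.mem_filter.1 hκ).2⟩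
    · rw [(Finset.mem_filter.1 hκ).2, (Finset.mem_filter.1 hκ').2]
    · simp [E, (Finset.mem_filter.1 hκ).2, iv_zero]
    · simp only [Finset.forall_mem_image]
      exact fun κ hκ => ⟨(hT κ (Finset.mem_filter.1 hκ).1).2.1,
        (hT κ (Finset.mem_filter.1 hκ).1).2.2 (Finset.mem_filter.1 hκ).2⟩

end Pool.Agent.Eps.T3
end
end
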