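import Pool.Agent.Lib.MP_3bda03_nt.SetsA
import Pool.Agent.Lib.MP_3bda03_nt.Mix

-- part Pool.Agent.Lib.MP_3bda03_nt.SetsB
section

set_option autoImplicit false

noncomputable section

open scoped BigOperators Classical Topology
open MeasureTheory Real Complex Filter

namespace Pool.Agent.Eps

/-- the constant in the majorant -/
def C0 (n : ℕ) (ω : ℝ) : ℝ :=
  100 * n * rexp (π * rexp 1 * rho1 n) * (ω * rexp (-1 / 2)) ^ (n / 2)

theorem Maj_eq (n : ℕ) (ω : ℝ) (k : Zv (n / 2)) :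
    Maj n ω k = C0 n ω * rexp (-π * rexp 1 * (ω ^ 2 * ‖iv k‖ ^ 2)) := rfl

theorem mh_nonneg (n : ℕ) : 0 ≤ mh n := by unfold mh; positivity

theorem ev_small (m : ℕ) (B : ℝ) : ∀ᶠ ω in 𝓝[>] (0 : ℝ), 0 < ω ∧ ∀ s, 0 < s → s ≤ B →
    (ω + 1 / √s) ^ m ≤ 2 * (1 / √s) ^ m := by
  have h : Tendsto (fun ω : ℝ => (1 + ω * √B) ^ m) (𝓝[>] 0) (𝓝 ((1 + 0 * √B) ^ m)) :=
    (Continuous.tendsto (by fun_prop) 0).mono_left nhdsWithin_le_nhds
  filter_upwards [h.eventually_le_const (by simp : (1 + 0 * √B) ^ m < 2), self_mem_nhdsWithin]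
    with ω h1 hω
  refine ⟨hω, fun s hs hB => ?_⟩
  have hω' : 0 < ω := hω
  have h2 := Real.sqrt_pos.2 hs
  have h3 : ω + 1 / √s = (1 + ω * √s) * (1 / √s) := by field_simp; ring
  rw [h3, mul_pow]
  refine mul_le_mul_of_nonneg_right (le_trans ?_ h1) (by positivity)
  gcongr

theorem inv_sqrt_pow (n : ℕ) {s : ℝ} (hs : 0 < s) : (1 / √s) ^ (n / 2) = s ^ (-mh n) := by
  rw [Real.sqrt_eq_rpow, one_div, ← Real.rpow_neg hs.le, ← Real.rpow_natCast,
    ← Real.rpow_mul hs.le, mh]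
  congr 1
  ring

theorem C0_le : ∀ᶠ n : ℕ in atTop, ∀ ω : ℝ, 0 < ω →
    C0 n ω ≤ ω ^ (n / 2) * (165 * (n : ℝ) ^ 3 * rexp (mh n)) := by
  filter_upwards [rho1_ub] with n h ω hω
  have h1 : rexp (-1 / 2) ^ (n / 2) = rexp (-mh n) := by
    rw [← Real.exp_nat_mul, mh]; congr 1; ring
  have h2 : rexp (1 / 2) ≤ 1.65 := by
    refine le_of_pow_le_pow_left₀ (n := 2) (by norm_num) (by norm_num) ?_
    rw [← Real.exp_nat_mul, show ((2 : ℕ) : ℝ) * (1 / 2) = 1 by norm_num]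
    exact Real.exp_one_lt_d9.le.trans (by norm_num)
  have h3 : rexp (n / 2) * rexp (-mh n) ≤ 1.65 * rexp (mh n) := by
    refine le_trans ?_ (mul_le_mul_of_nonneg_right h2 (Real.exp_pos _).le)
    rw [← Real.exp_add, ← Real.exp_add, Real.exp_le_exp]
    linarith [(mh_le n).1]
  rw [C0, mul_pow, h1]
  calc _ ≤ 100 * n * ((n : ℝ) ^ 2 * rexp (n / 2)) * (ω ^ (n / 2) * rexp (-mh n)) := by gcongr
    _ = ω ^ (n / 2) * (100 * (n : ℝ) ^ 3 * (rexp (n / 2) * rexp (-mh n))) := by ring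
    _ ≤ ω ^ (n / 2) * (100 * (n : ℝ) ^ 3 * (1.65 * rexp (mh n))) := by gcongr
    _ = _ := by ring

theorem maj_gauss : ∀ᶠ n : ℕ in atTop, ∀ B : ℝ, ∀ᶠ ω in 𝓝[>] (0 : ℝ), 0 < ω ∧
    ∀ (A q p : ℝ) (w₁ w₂ : Ev (n / 2)) (F : Finset (Zv (n / 2))), 0 ≤ A →
      0 < rexp 1 * q ^ 2 + A * p ^ 2 → rexp 1 * q ^ 2 + A * p ^ 2 ≤ B →
      ∑ k ∈ F, C0 n ω *
        rexp (-π * ω ^ 2 * (rexp 1 * ‖q • iv k + w₁‖ ^ 2 + A * ‖p • iv k + w₂‖ ^ 2)) ≤
      330 * (n : ℝ) ^ 3 * (q ^ 2 + A * p ^ 2 / rexp 1) ^ (-mh n) * rexp (-π * ω ^ 2 *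
        (rexp 1 * A / (rexp 1 * q ^ 2 + A * p ^ 2) * ‖p • w₁ - q • w₂‖ ^ 2)) := by
  filter_upwards [C0_le] with n hC B
  filter_upwards [ev_small (n / 2) B] with ω ⟨hω, h⟩
  refine ⟨hω, fun A q p w₁ w₂ F hA hs hB => ?_⟩
  obtain ⟨h1, h2⟩ := gauss_two hω (Real.exp_pos 1).le hA hs w₁ w₂
  have h3 := h1.sum_le_tsum F fun _ _ => (Real.exp_pos _).le
  have h4 := h _ hs hB
  have h5 : rexp 1 * q ^ 2 + A * p ^ 2 = rexp 1 * (q ^ 2 + A * p ^ 2 / rexp 1) := by field_simp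
  have h6 : 0 ≤ q ^ 2 + A * p ^ 2 / rexp 1 := by positivity
  rw [inv_sqrt_pow n hs] at h4
  rw [← Finset.mul_sum]
  have h7 : rexp (mh n) * (rexp 1 * q ^ 2 + A * p ^ 2) ^ (-mh n) =
      (q ^ 2 + A * p ^ 2 / rexp 1) ^ (-mh n) := by
    rw [h5, Real.mul_rpow (Real.exp_pos 1).le h6, ← Real.exp_mul, ← mul_assoc, ← Real.exp_add]
    simp
  rw [← h7]
  refine (mul_le_mul (hC ω hω) h3 (by positivity) (by positivity)).trans ?_
  rw [mul_comm (ω ^ (n / 2)), mul_assoc]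
  refine (mul_le_mul_of_nonneg_left (h2.trans (mul_le_mul_of_nonneg_right h4
    (Real.exp_pos _).le)) (by positivity)).trans_eq ?_
  ring

theorem maj_step : ∀ᶠ n : ℕ in atTop, ∀ B : ℝ, ∀ᶠ ω in 𝓝[>] (0 : ℝ), 0 < ω ∧
    ∀ (β h : ℝ) (w : Ev (n / 2)) (F : Finset (Zv (n / 2))), 0 ≤ β → β * h ^ 2 ≤ B →
      ∑ k ∈ F, Maj n ω k * rexp (-π * β * (ω ^ 2 * ‖h • iv k + w‖ ^ 2)) ≤
      330 * (n : ℝ) ^ 3 * (1 + β * h ^ 2 / rexp 1) ^ (-mh n) *
        rexp (-π * (β / (1 + β * h ^ 2 / rexp 1)) * (ω ^ 2 * ‖w‖ ^ 2)) := by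
  filter_upwards [maj_gauss] with n h B
  filter_upwards [h (rexp 1 + B)] with ω ⟨hω, h⟩
  refine ⟨hω, fun β p w F hβ hB => ?_⟩
  refine (Finset.sum_congr rfl fun k _ => ?_).trans_le
    ((h β 1 p 0 w F hβ (by positivity) (by linarith)).trans_eq ?_)
  · rw [Maj_eq, mul_assoc (C0 n ω), ← Real.exp_add, one_smul, add_zero]
    congr 2
    ring
  · simp only [smul_zero, one_smul, zero_sub, norm_neg, one_pow]
    congr 2
    field_simp

/-- Gaussian averages against the majorant -/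
theorem sum_Maj_le : ∀ᶠ n : ℕ in atTop, ∀ᶠ ω in 𝓝[>] (0 : ℝ), ∀ β ∈ Set.Icc (0 : ℝ) 4,
    ∀ (h : ℤ) (w : Ev (n / 2)) (F : Finset (Zv (n / 2))), h ≠ 0 →
      ∑ k ∈ F, Maj n ω k * rexp (-π * β * (ω ^ 2 * ‖(h : ℝ) • iv k + w‖ ^ 2)) ≤
        400 * (n : ℝ) ^ 3 * (1 + β / rexp 1) ^ (-mh n) := by
  filter_upwards [maj_step, eventually_ge_atTop 1] with n h hn
  filter_upwards [h 4] with ω ⟨hω, h⟩ β hβ p w F hp
  have hp0 : (p : ℝ) ≠ 0 := Int.cast_ne_zero.2 hp
  have hp1 : (1 : ℝ) ≤ (p : ℝ) ^ 2 := by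
    exact_mod_cast (Int.one_le_abs hp |> one_le_pow₀ (n := 2)).trans_eq (sq_abs p)
  have h1 := h β 1 ((p : ℝ)⁻¹ • w) F hβ.1 (by linarith [hβ.2])
  have h0 := hβ.1
  refine le_trans (Finset.sum_le_sum fun k _ => mul_le_mul_of_nonneg_left (Real.exp_le_exp.2 ?_)
    (Maj_pos hn hω k).le) (h1.trans ?_)
  · have h2 : (p : ℝ) • iv k + w = (p : ℝ) • ((1 : ℝ) • iv k + (p : ℝ)⁻¹ • w) := by
      rw [smul_add, smul_smul, smul_smul, mul_one, mul_inv_cancel₀ hp0, one_smul]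
    rw [h2, norm_smul, mul_pow, Real.norm_eq_abs, sq_abs]
    have : 0 ≤ π * β * (ω ^ 2 * ‖(1 : ℝ) • iv k + (p : ℝ)⁻¹ • w‖ ^ 2) := by positivity
    nlinarith
  · rw [one_pow, mul_one]
    refine (mul_le_of_le_one_right (by positivity) (Real.exp_le_one_iff.2 ?_)).trans (by gcongr; norm_num)
    have : 0 ≤ π * (β / (1 + β / rexp 1)) * (ω ^ 2 * ‖(p : ℝ)⁻¹ • w‖ ^ 2) := by positivity
    linarith

theorem sum_th0_le : ∀ᶠ n : ℕ in atTop, ∀ᶠ ω in 𝓝[>] (0 : ℝ), 0 < ω ∧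
    ∀ p : Zv (n / 2) → ℝ, Wt n ω p → ∀ β ∈ Set.Icc (0 : ℝ) 4, ∀ F : Finset (Zv (n / 2)),
    ∑ S ∈ Dl n ω (MM n + 1), ∑ κ ∈ F.filter (fun κ => iv κ ∈ spanS S ∧ κ ≠ 0),
      (∏ k ∈ S, p k) * rexp (-π * (β + 1 / Real.log n) * (ω ^ 2 * ‖iv κ‖ ^ 2)) ≤
      rexp (TT n / 2 + 1) * (En n * (1200 * (n : ℝ) ^ 3 * (1 + β / rexp 1) ^ (-mh n))) := by
  filter_upwards [sum_Maj_le, ev_log 1, eventually_ge_atTop 10] with n h hl hn
  filter_upwards [h, self_mem_nhdsWithin] with ω h hω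
  refine ⟨hω, fun p hp β hβ F => ?_⟩
  have hω : 0 < ω := hω
  have hn3 : 3 ≤ n := by omega
  have hn1 : 1 ≤ n := by omega
  have hβ0 := hβ.1
  have hl0 : 0 < Real.log n := by linarith
  have hc : 0 < π * (1 / Real.log n) * thn n := by have := thn_pos hn3; positivity
  have hE := fun j hj => coth_log_le (j := j) hl hj
  rw [show -π * (1 / Real.log n) * thn n = -(π * (1 / Real.log n) * thn n) by ring] at hE
  set c := π * (1 / Real.log n) * thn n with hcd
  have hP : ∀ S ∈ Dl n ω (MM n + 1), 0 ≤ ∏ k ∈ S, p k := fun S hS =>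
    Finset.prod_nonneg fun k hk => hp.nonneg hn1 hω ((mem_Dl.1 hS).1 hk)
  rw [Finset.sum_sigma']
  refine sum_le_cover _ _
    (fun b : Σ _ : Finset (Zv (n / 2)), (Zv (n / 2) → ℤ) × ℤ × Zv (n / 2) =>
      (∏ k ∈ b.1, p k) * (rexp (-c * ∑ k ∈ b.1, |(b.2.1 k : ℝ)|) * (rexp (-c * |(b.2.2.1 : ℝ)|) *
        (3 * (Maj n ω b.2.2.2 * rexp (-π * β * (ω ^ 2 *
          ‖(b.2.2.1 : ℝ) • iv b.2.2.2 + iv (∑ k ∈ b.1, b.2.1 k • k)‖ ^ 2)))))))
    (fun b => b.1 ∈ Dl n ω (MM n + 1) ∧ (∀ k ∉ b.1, b.2.1 k = 0) ∧ b.2.2.1 ≠ 0 ∧ b.2.2.2 ∈ Kp n ω)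
    (fun b => ⟨insert b.2.2.2 b.1, b.2.2.1 • b.2.2.2 + ∑ k ∈ b.1, b.2.1 k • k⟩) _ ?_ fun t ht => ?_
  · rintro ⟨S, κ⟩ ha
    simp only [Finset.mem_sigma, Finset.mem_filter] at ha
    obtain ⟨hS, -, h1, h2⟩ := ha
    obtain ⟨hS1, hS2, -⟩ := mem_Dl.1 hS
    obtain ⟨ξ, -, rfl⟩ := hS2.prim' h1
    obtain ⟨v, hv, hv0⟩ := Finset.exists_ne_zero_of_sum_ne_zero h2
    have h3 : ∑ k ∈ S.erase v, (if k ∈ S.erase v then ξ k else 0) • k =
        ∑ k ∈ S.erase v, ξ k • k := Finset.sum_congr rfl fun k hk => by rw [if_pos hk]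
    have h4 : ∑ k ∈ S.erase v, |((if k ∈ S.erase v then ξ k else 0 : ℤ) : ℝ)| =
        ∑ k ∈ S.erase v, |(ξ k : ℝ)| := Finset.sum_congr rfl fun k hk => by rw [if_pos hk]
    refine ⟨⟨S.erase v, fun k => if k ∈ S.erase v then ξ k else 0, ξ v, v⟩,
      ⟨((Dl_down hn3 _).2 S hS).2 _ (Finset.erase_subset _ _), fun k hk => if_neg hk,
        fun h => hv0 (by rw [show ξ v = 0 from h, zero_smul]), hS1 hv⟩, ?_, ?_⟩
    · simp only [h3, Finset.insert_erase hv, Finset.add_sum_erase S (fun k => ξ k • k) hv]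
    · simp only [h3, h4]
      rw [← iv_zsmul, ← iv_add, Finset.add_sum_erase S (fun k => ξ k • k) hv,
        ← Finset.mul_prod_erase S p hv]
      have h5 := mul_le_mul_of_nonneg_left (hS2.an ξ) (by positivity : 0 ≤ π * (1 / Real.log n))
      rw [← Finset.add_sum_erase S (fun k => |(ξ k : ℝ)|) hv, ← mul_assoc, ← hcd] at h5
      have h6 := hP _ (((Dl_down hn3 _).2 S hS).2 _ (Finset.erase_subset v _))
      have h7 := Maj_pos hn1 hω v
      calc _ ≤ 3 * Maj n ω v * (∏ k ∈ S.erase v, p k) * rexp (-c * ∑ k ∈ S.erase v, |(ξ k : ℝ)| +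
            (-c * |(ξ v : ℝ)| + -π * β * (ω ^ 2 * ‖iv (∑ k ∈ S, ξ k • k)‖ ^ 2))) :=
            mul_le_mul (mul_le_mul_of_nonneg_right (hp.le_maj v (hS1 hv)) h6)
              (Real.exp_le_exp.2 (by linarith)) (by positivity) (by positivity)
        _ = _ := by rw [Real.exp_add, Real.exp_add]; ring
  · refine (Finset.sum_le_sum_of_subset_of_nonneg (t := (Dl n ω (MM n + 1)).sigma fun S =>
      ((t.image fun b => b.2.1).filter fun ξ => ∀ k ∉ S, ξ k = 0) ×ˢ
        ((t.image fun b => b.2.2.1).erase 0) ×ˢ Kp n ω) (fun b hb => ?_) fun b hb _ => ?_).trans ?_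
    · obtain ⟨h1, h2, h3, h4⟩ := ht b hb
      simp only [Finset.mem_sigma, Finset.mem_product, Finset.mem_filter, Finset.mem_erase]
      exact ⟨h1, ⟨Finset.mem_image_of_mem _ hb, h2⟩, ⟨h3, Finset.mem_image_of_mem _ hb⟩, h4⟩
    · have := hP _ (Finset.mem_sigma.1 hb).1
      have := Maj_pos hn1 hω b.2.2.2
      positivity
    rw [Finset.sum_sigma]
    refine le_trans ?_ (mul_le_mul_of_nonneg_right (sum_Dl_le hn1 hω hp (MM n + 1))
      (by have := one_le_En n; positivity))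
    rw [Finset.sum_mul]
    refine Finset.sum_le_sum fun S hS => ?_
    simp only [Finset.sum_product, ← Finset.mul_sum]
    refine mul_le_mul_of_nonneg_left ?_ (hP S hS)
    have h1 := hE (S.card + 1) (by have := (mem_Dl.1 hS).2.2; unfold MM at this; omega)
    rw [pow_succ] at h1
    refine le_trans ?_ (mul_le_mul_of_nonneg_right h1 (by positivity))
    have h2 := coth_nonneg hc
    rw [mul_assoc]
    refine le_trans ?_ (mul_le_mul_of_nonneg_right (sum_supp_exp_le S hc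
      ((t.image fun b => b.2.1).filter fun ξ => ∀ k ∉ S, ξ k = 0)
      fun ξ hξ => (Finset.mem_filter.1 hξ).2) (by positivity))
    rw [Finset.sum_mul]
    refine Finset.sum_le_sum fun ξ _ => mul_le_mul_of_nonneg_left ?_ (Real.exp_pos _).le
    refine le_trans ?_ (mul_le_mul_of_nonneg_right (sum_int_exp_le hc
      ((t.image fun b => b.2.2.1).erase 0)) (by positivity))
    rw [Finset.sum_mul]
    refine Finset.sum_le_sum fun a ha => mul_le_mul_of_nonneg_left ?_ (Real.exp_pos _).le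
    linarith [h β hβ a (iv (∑ k ∈ S, ξ k • k)) (Kp n ω) (Finset.mem_erase.1 ha).1]

/-- averaging the shift functional -/
theorem sum_Sh_le : ∀ᶠ n : ℕ in atTop, ∀ᶠ ω in 𝓝[>] (0 : ℝ), ∀ p : Zv (n / 2) → ℝ, Wt n ω p →
    ∑ S ∈ Dl n ω (MM n + 1), (∏ k ∈ S, p k) * Sh n ω (spanS S) ≤
      rexp (TT n / 2 + 0.00015 * n) := by
  filter_upwards [sum_th0_le, ev_log 10000, En_pow_le 3600000 3 (by norm_num : (0 : ℝ) < 0.00004)]
    with n h hl hE
  filter_upwards [h] with ω ⟨hω, h⟩ p hp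
  refine hasSum_le_of_sum_le (hasSum_sum fun S _ =>
    (summable_Sh hω fun κ => iv κ ∈ spanS S ∧ κ ≠ 0).hasSum.mul_left (∏ k ∈ S, p k)) fun F => ?_
  have hb : 1 / Real.log n ≤ 1 / 10000 := one_div_le_one_div_of_le (by norm_num) hl
  have hb0 : 0 < 1 / Real.log n := by have : 0 < Real.log n := by linarith
                                      positivity
  have h1 : ∑ κ ∈ F, ∑ S ∈ Dl n ω (MM n + 1), (∏ k ∈ S, p k) *
      (if iv κ ∈ spanS S ∧ κ ≠ 0 then chi n (ω ^ 2 * ‖iv κ‖ ^ 2) else 0) =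
      ∑ j ∈ Finset.Icc (1 : ℕ) 1000, (1 + ((j : ℝ) + 1) / (1000 * rexp 1)) ^ mh n *
      ∑ S ∈ Dl n ω (MM n + 1), ∑ κ ∈ F.filter (fun κ => iv κ ∈ spanS S ∧ κ ≠ 0),
      (∏ k ∈ S, p k) * rexp (-π * (((j : ℝ) / 1000 - 1 / Real.log n) + 1 / Real.log n) *
        (ω ^ 2 * ‖iv κ‖ ^ 2)) := by
    simp only [sub_add_cancel, Finset.mul_sum]
    rw [Finset.sum_comm, Finset.sum_comm (s := Finset.Icc 1 1000)]
    refine Finset.sum_congr rfl fun S _ => ?_
    rw [Finset.sum_comm, Finset.sum_filter]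
    refine Finset.sum_congr rfl fun κ _ => ?_
    split_ifs
    · rw [chi, Finset.mul_sum]
      exact Finset.sum_congr rfl fun j _ => by ring
    · simp
  rw [h1]
  have h2 := one_le_En n
  have he := Real.exp_one_gt_d9
  refine (Finset.sum_le_card_nsmul _ _ (rexp (TT n / 2 + 1) * (En n * (1200 * (n : ℝ) ^ 3)) *
    rexp (0.00011 * n)) fun j hj => ?_).trans ?_
  · obtain ⟨hj1, hj2⟩ := Finset.mem_Icc.1 hj
    have hj1 : (1 : ℝ) ≤ j := by exact_mod_cast hj1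
    have hj2 : (j : ℝ) ≤ 1000 := by exact_mod_cast hj2
    have hβ : 0 ≤ (j : ℝ) / 1000 - 1 / Real.log n := by linarith
    refine (mul_le_mul_of_nonneg_left (h p hp _ ⟨hβ, by linarith⟩ F) (by positivity)).trans ?_
    have h3 : 1 + ((j : ℝ) + 1) / (1000 * rexp 1) ≤
        rexp 0.00044 * (1 + ((j : ℝ) / 1000 - 1 / Real.log n) / rexp 1) := by
      have h4 : ((j : ℝ) + 1) / (1000 * rexp 1) =
          ((j : ℝ) / 1000 - 1 / Real.log n) / rexp 1 + (1 / 1000 + 1 / Real.log n) / rexp 1 := by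
        field_simp
        ring
      have h5 : (1 / 1000 + 1 / Real.log n) / rexp 1 ≤ 0.00044 := by
        rw [div_le_iff₀ (by positivity)]; linarith
      have h6 : 0 ≤ ((j : ℝ) / 1000 - 1 / Real.log n) / rexp 1 := by positivity
      nlinarith [Real.add_one_le_exp 0.00044]
    have h4 := Real.rpow_le_rpow (by positivity) h3 (mh_nonneg n)
    have h6 : 0 < 1 + ((j : ℝ) / 1000 - 1 / Real.log n) / rexp 1 := by positivity
    rw [Real.mul_rpow (by positivity) h6.le, ← Real.exp_mul] at h4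
    have h5 : rexp (0.00044 * mh n) ≤ rexp (0.00011 * n) :=
      Real.exp_le_exp.2 (by linarith [(mh_le n).2])
    rw [Real.rpow_neg h6.le]
    have h7 := Real.rpow_pos_of_pos h6 (mh n)
    refine (mul_le_mul_of_nonneg_right (h4.trans (mul_le_mul_of_nonneg_right h5 h7.le))
      (by positivity)).trans_eq ?_
    generalize (1 + ((j : ℝ) / 1000 - 1 / Real.log n) / rexp 1) ^ mh n = y at h7
    field_simp
  · have h3 : En n ≤ En n ^ 3 := le_self_pow₀ h2 (by norm_num)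
    have h4 := Real.exp_one_lt_d9
    rw [Nat.card_Icc, nsmul_eq_mul, Real.exp_add, Real.exp_add,
      show (0.00015 : ℝ) * n = 0.00004 * n + 0.00011 * n by ring, Real.exp_add]
    calc _ = rexp (TT n / 2) * (1200000 * rexp 1 * (n : ℝ) ^ 3 * En n * rexp (0.00011 * n)) := by
          push_cast; ring
      _ ≤ rexp (TT n / 2) * (3600000 * (n : ℝ) ^ 3 * En n ^ 3 * rexp (0.00011 * n)) := by
          gcongr; linarith
      _ ≤ _ := by gcongr

end Pool.Agent.Eps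
end
end

-- part Pool.Agent.Lib.MP_3bda03_nt.Sets
section

set_option autoImplicit false

noncomputable section

open scoped BigOperators Classical Topology
open MeasureTheory Real Complex Filter

namespace Pool.Agent.Eps

theorem maj_chain : ∀ᶠ n : ℕ in atTop, ∀ B : ℝ, ∀ᶠ ω in 𝓝[>] (0 : ℝ), 0 < ω ∧
    ∀ (K : Finset (Zv (n / 2))) (j : ℕ) (ξ : Fin j → ℤ) (β : ℝ), 0 ≤ β →
      (∀ i, β * (ξ i : ℝ) ^ 2 ≤ B) →
      ∑ k ∈ Fintype.piFinset fun _ : Fin j => K, (∏ i, 3 * Maj n ω (k i)) *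
        rexp (-π * β * (ω ^ 2 * ‖∑ i, (ξ i : ℝ) • iv (k i)‖ ^ 2)) ≤
      (990 * (n : ℝ) ^ 3) ^ j * (1 + β * (∑ i, (ξ i : ℝ) ^ 2) / rexp 1) ^ (-mh n) := by
  filter_upwards [maj_step, eventually_ge_atTop 1] with n h hn B
  filter_upwards [h B] with ω ⟨hω, h⟩
  refine ⟨hω, fun K j => ?_⟩
  induction j with
  | zero => intro ξ β _ _; simp
  | succ j ih =>
    intro ξ β hβ hB
    have h0 : 0 < 1 + β * (ξ 0 : ℝ) ^ 2 / rexp 1 := by positivity
    have h1 := ih (Fin.tail ξ) (β / (1 + β * (ξ 0 : ℝ) ^ 2 / rexp 1)) (by positivity) fun i =>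
      (mul_le_mul_of_nonneg_right (div_le_self hβ (le_add_of_nonneg_right (by positivity)))
        (sq_nonneg _)).trans (hB i.succ)
    rw [Finset.sum_nbij' (t := (Fintype.piFinset fun _ : Fin j => K) ×ˢ K)
      (g := fun a => (∏ i, 3 * Maj n ω (a.1 i)) * (3 * (Maj n ω a.2 * rexp (-π * β * (ω ^ 2 *
        ‖(ξ 0 : ℝ) • iv a.2 + ∑ i, (Fin.tail ξ i : ℝ) • iv (a.1 i)‖ ^ 2)))))
      (fun k => (Fin.tail k, k 0)) (fun a => Fin.cons a.2 a.1)
      (fun k hk => by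
        simp only [Finset.mem_product, Fintype.mem_piFinset] at hk ⊢
        exact ⟨fun i => hk _, hk 0⟩)
      (fun a ha => by
        simp only [Finset.mem_product, Fintype.mem_piFinset] at ha ⊢
        exact Fin.cases ha.2 ha.1)
      (fun k _ => Fin.cons_self_tail k) (fun a _ => by simp)
      (fun k _ => by
        rw [Fin.prod_univ_succ, Fin.sum_univ_succ]
        simp only [Fin.tail]
        ring), Finset.sum_product]
    simp only [← Finset.mul_sum]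
    have h2 : (1 + β * (∑ i, (ξ i : ℝ) ^ 2) / rexp 1) = (1 + β * (ξ 0 : ℝ) ^ 2 / rexp 1) *
        (1 + β / (1 + β * (ξ 0 : ℝ) ^ 2 / rexp 1) * (∑ i, (Fin.tail ξ i : ℝ) ^ 2) / rexp 1) := by
      rw [Fin.sum_univ_succ]
      simp only [Fin.tail]
      generalize hy : 1 + β * (ξ 0 : ℝ) ^ 2 / rexp 1 = y at h0
      have : y * (1 + β / y * (∑ i : Fin j, (ξ i.succ : ℝ) ^ 2) / rexp 1) =
        y + β * (∑ i : Fin j, (ξ i.succ : ℝ) ^ 2) / rexp 1 := by field_simp
      rw [this, ← hy]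
      ring
    rw [h2, Real.mul_rpow h0.le (by positivity)]
    refine le_trans ?_ ((mul_le_mul_of_nonneg_left h1 (by positivity :
      0 ≤ 990 * (n : ℝ) ^ 3 * (1 + β * (ξ 0 : ℝ) ^ 2 / rexp 1) ^ (-mh n))).trans_eq (by ring))
    rw [Finset.mul_sum]
    refine Finset.sum_le_sum fun k _ => ?_
    have h3 : 0 ≤ ∏ i, 3 * Maj n ω (k i) :=
      Finset.prod_nonneg fun i _ => by have := Maj_pos hn hω (k i); positivity
    exact (mul_le_mul_of_nonneg_left (mul_le_mul_of_nonneg_left (h β (ξ 0) _ K hβ (hB 0))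
      (by norm_num)) h3).trans_eq (by ring)

theorem an_reduce {n : ℕ} {ω : ℝ} (hn : 10 ≤ n) (hl : 1 ≤ Real.log n) (hω : 0 < ω)
    {S : Finset (Zv (n / 2))} (hS : S ⊆ Kp n ω) (hc : S.card ≤ n) (ξ : Zv (n / 2) → ℤ)
    (h : ω ^ 2 * ‖iv (∑ k ∈ S, ξ k • k)‖ ^ 2 < thn n * ∑ k ∈ S, |(ξ k : ℝ)|) :
    ∃ ξ : Zv (n / 2) → ℤ, ω ^ 2 * ‖iv (∑ k ∈ S, ξ k • k)‖ ^ 2 < thn n * ∑ k ∈ S, |(ξ k : ℝ)| ∧
      ∑ k ∈ S, |(ξ k : ℝ)| ≤ (n : ℝ) ^ 5 := by
  by_cases hL : ∑ k ∈ S, |(ξ k : ℝ)| ≤ (n : ℝ) ^ 5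
  · exact ⟨ξ, h, hL⟩
  have hn' : (10 : ℝ) ≤ n := by exact_mod_cast hn
  have hc' : (S.card : ℝ) ≤ n := by exact_mod_cast hc
  have ht : 1 ≤ thn n := one_le_pow₀ hl
  push Not at hL
  have hL0 : 0 < ∑ k ∈ S, |(ξ k : ℝ)| := lt_trans (by positivity) hL
  obtain ⟨l, hl0, hl⟩ : ∃ l : ℝ, 0 < l ∧ l * ∑ k ∈ S, |(ξ k : ℝ)| = (n : ℝ) ^ 4 :=
    ⟨_, by positivity, div_mul_cancel₀ _ hL0.ne'⟩
  have hln : l * n ≤ 1 := by
    have := mul_lt_mul_of_pos_left hL hl0
    have h4 : (0 : ℝ) < n ^ 4 := by positivity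
    nlinarith
  have h1 : |∑ k ∈ S, |((round (l * ξ k) : ℤ) : ℝ)| - (n : ℝ) ^ 4| ≤ n := by
    rw [← hl, Finset.mul_sum, ← Finset.sum_sub_distrib]
    refine (Finset.abs_sum_le_sum_abs _ _).trans ((Finset.sum_le_card_nsmul _ _ 1
      fun k _ => ?_).trans (by simpa using hc'))
    rw [← abs_of_pos hl0, ← abs_mul, abs_of_pos hl0]
    refine (abs_abs_sub_abs_le_abs_sub _ _).trans ?_
    rw [abs_sub_comm]
    exact (abs_sub_round _).trans (by norm_num)
  have h2 : ω * ‖iv (∑ k ∈ S, round (l * ξ k) • k)‖ ≤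
      l * (ω * ‖iv (∑ k ∈ S, ξ k • k)‖) + n * (n / 2) := by
    have : iv (∑ k ∈ S, round (l * ξ k) • k) = l • iv (∑ k ∈ S, ξ k • k) +
        ∑ k ∈ S, ((round (l * ξ k) : ℝ) - l * ξ k) • iv k := by
      simp only [iv_comb, sub_smul, Finset.sum_sub_distrib, mul_smul, ← Finset.smul_sum,
        add_sub_cancel]
    rw [this]
    refine (mul_le_mul_of_nonneg_left ((norm_add_le _ _).trans
      (add_le_add le_rfl (norm_sum_le _ _))) hω.le).trans ?_
    rw [mul_add, norm_smul, Real.norm_of_nonneg hl0.le, mul_left_comm, Finset.mul_sum]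
    refine add_le_add le_rfl ((Finset.sum_le_card_nsmul _ _ ((n : ℝ) / 2) fun k hk => ?_).trans ?_)
    · rw [norm_smul, Real.norm_eq_abs, abs_sub_comm, mul_left_comm]
      have h3 := ((mem_Kn hω k).1 (Finset.mem_filter.1 (hS hk)).1).2
      exact (mul_le_mul (abs_sub_round _) h3 (by positivity) (by norm_num)).trans_eq (by ring)
    · rw [nsmul_eq_mul]
      gcongr
  obtain ⟨h3, h4⟩ := abs_le.1 h1
  have h5 : (n : ℝ) ^ 4 + n ≤ n ^ 5 := by
    have : (n : ℝ) ≤ n ^ 4 := le_self_pow₀ (by linarith) (by norm_num)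
    have h4 : (0 : ℝ) < n ^ 4 := by positivity
    nlinarith
  refine ⟨fun k => round (l * ξ k), ?_, by linarith⟩
  rw [← mul_pow] at h ⊢
  have h6 : (l * (ω * ‖iv (∑ k ∈ S, ξ k • k)‖)) ^ 2 ≤ thn n * n ^ 3 := by
    have h7 := mul_le_mul_of_nonneg_left h.le (sq_nonneg l)
    have h8 : l ^ 2 * (thn n * ∑ k ∈ S, |(ξ k : ℝ)|) = thn n * n ^ 3 * (l * n) := by
      linear_combination thn n * l * hl
    rw [mul_pow]
    exact h7.trans (h8.trans_le (mul_le_of_le_one_right (by positivity) hln))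
  have h7 := pow_le_pow_left₀ (by positivity) h2 2
  generalize l * (ω * ‖iv (∑ k ∈ S, ξ k • k)‖) = x at h6 h7
  have h8 : (x + n * (n / 2)) ^ 2 ≤ 2 * x ^ 2 + n ^ 4 / 2 := by nlinarith [sq_nonneg (x - n * (n / 2))]
  have h9 : (n : ℝ) ^ 4 ≤ thn n * n ^ 4 := le_mul_of_one_le_left (by positivity) ht
  have h10 : 2 * (n : ℝ) ^ 3 + n ^ 4 / 2 < n ^ 4 - n := by
    have : (n : ℝ) ≤ n ^ 3 := le_self_pow₀ (by linarith) (by norm_num)
    have h4 : (0 : ℝ) < n ^ 3 := by positivity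
    nlinarith
  have h11 := mul_lt_mul_of_pos_left h10 (by linarith : 0 < thn n)
  have h12 := mul_le_mul_of_nonneg_left (by linarith :
    (n : ℝ) ^ 4 - n ≤ ∑ k ∈ S, |((round (l * ξ k) : ℤ) : ℝ)|) (by linarith : 0 ≤ thn n)
  linarith

theorem xi_sum {J a N : ℕ} (hJ : J ≤ a) (ha : 0 < a) {G μ : ℝ} (hG : 0 < G) (hμ : (a : ℝ) ≤ μ)
    (X : Finset (Fin J → ℤ)) (hX : ∀ ξ ∈ X, 0 < ∑ i, |(ξ i : ℝ)| ∧ ∑ i, |(ξ i : ℝ)| ≤ N) :
    ∑ ξ ∈ X, (1 + G * ((∑ i, (ξ i : ℝ) ^ 2) / ∑ i, |(ξ i : ℝ)|)) ^ (-μ) ≤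
      N * (G ^ (-μ) * (3 * rexp 1) ^ a) := by
  have ha' : (0 : ℝ) < a := by exact_mod_cast ha
  refine (sum_le_union X (Finset.Icc 1 N) _ (fun l ξ => ∑ i, |(ξ i : ℝ)| = l)
    (fun ξ hξ => by have := (hX ξ hξ).1; positivity) fun ξ hξ => ?_).trans
    ((Finset.sum_le_card_nsmul _ _ (G ^ (-μ) * (3 * rexp 1) ^ a) fun l hl => ?_).trans_eq
      (by simp))
  · have h1 : ∑ i, |(ξ i : ℝ)| = (∑ i, (ξ i).natAbs : ℕ) := by simp
    obtain ⟨h2, h3⟩ := hX ξ hξ
    rw [h1] at h2 h3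
    exact ⟨_, Finset.mem_Icc.2 ⟨by exact_mod_cast h2, by exact_mod_cast h3⟩, h1⟩
  have hl' : (0 : ℝ) < l := by exact_mod_cast (Finset.mem_Icc.1 hl).1
  have hc : 0 < (a : ℝ) / l := by positivity
  have hM := le_max_left 1 ((l : ℝ) / a)
  have hM' := le_max_right 1 ((l : ℝ) / a)
  set M := max 1 ((l : ℝ) / a) with hMd
  have h1 : ((1 + rexp (-(a / l))) / (1 - rexp (-(a / l)))) ^ Fintype.card (Fin J) ≤ (3 * M) ^ a := by
    rw [Fintype.card_fin]
    refine (pow_le_pow_left₀ (coth_nonneg hc) ((coth_le hc).trans ?_) _).trans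
      (pow_le_pow_right₀ (by linarith) hJ)
    rw [div_div_eq_mul_div, mul_div_assoc]
    linarith
  have h2 := mul_le_mul_of_nonneg_left ((sum_pi_exp_le hc
    (X.filter fun ξ => ∑ i, |(ξ i : ℝ)| = l)).trans h1)
    (by positivity : 0 ≤ G ^ (-μ) * (M ^ a)⁻¹ * rexp a)
  refine le_trans ?_ (h2.trans_eq ?_)
  · rw [Finset.mul_sum]
    refine Finset.sum_le_sum fun ξ hξ => ?_
    have h3 := (Finset.mem_filter.1 hξ).2
    rw [h3, neg_mul, div_mul_cancel₀ _ hl'.ne', mul_assoc, ← Real.exp_add, add_neg_cancel,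
      Real.exp_zero, mul_one]
    have h4 : M ≤ (∑ i, (ξ i : ℝ) ^ 2) / l := by
      refine max_le ?_ ?_
      · rw [one_le_div hl', ← h3]
        refine Finset.sum_le_sum fun i _ => ?_
        exact_mod_cast (Int.le_self_sq |ξ i|).trans_eq (sq_abs _)
      · have h5 := sq_sum_le_card_mul_sum_sq (s := Finset.univ) (f := fun i => |(ξ i : ℝ)|)
        simp only [h3, sq_abs, Finset.card_univ, Fintype.card_fin] at h5
        have h6 : (J : ℝ) * ∑ i, (ξ i : ℝ) ^ 2 ≤ a * ∑ i, (ξ i : ℝ) ^ 2 := by gcongr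
        rw [div_le_div_iff₀ ha' hl']
        linarith
    have h5 : G * M ≤ 1 + G * ((∑ i, (ξ i : ℝ) ^ 2) / l) := by
      linarith [mul_le_mul_of_nonneg_left h4 hG.le]
    refine (Real.rpow_le_rpow_of_nonpos (by positivity) h5 (by linarith)).trans ?_
    rw [Real.mul_rpow hG.le (by positivity), ← Real.rpow_natCast, ← Real.rpow_neg (by positivity)]
    exact mul_le_mul_of_nonneg_left (Real.rpow_le_rpow_of_exponent_le hM (by linarith))
      (by positivity)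
  · rw [mul_pow, mul_pow, ← Real.exp_nat_mul, mul_one]
    field_simp

theorem exists_enum {α : Type*} [DecidableEq α] {S : Finset α} {v : α} (hv : v ∉ S) {j : ℕ}
    (hj : S.card = j) : ∃ k : Fin (j + 1) → α, k 0 = v ∧ Function.Injective k ∧
      Finset.univ.image k = insert v S := by
  let e := (Finset.equivFinOfCardEq hj).symm
  refine ⟨Fin.cons v fun i => e i, rfl, Fin.cons_injective_iff.2 ⟨?_,
    Subtype.val_injective.comp e.injective⟩, ?_⟩
  · rintro ⟨i, rfl⟩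
    exact hv (e i).2
  · ext x
    simp only [Finset.mem_image, Finset.mem_univ, true_and, Fin.exists_fin_succ, Fin.cons_zero,
      Fin.cons_succ, Finset.mem_insert, eq_comm (a := v)]
    refine or_congr_right ⟨?_, fun h => ⟨e.symm ⟨x, h⟩, by simp⟩⟩
    rintro ⟨i, rfl⟩
    exact (e i).2

theorem an_numeric : ∀ᶠ n : ℕ in atTop, (n : ℝ) * (rexp (mh n) * (990 * (n : ℝ) ^ 3) ^ (MM n + 1) *
    ((n ^ 5 : ℕ) * ((mh n / (π * rexp 1 * thn n)) ^ (-mh n) * (3 * rexp 1) ^ (MM n + 1)))) ≤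
      rexp (-n) := by
  filter_upwards [ev_log 20000000, eventually_ge_atTop 6000] with n hl hn
  have hn' : (6000 : ℝ) ≤ n := by exact_mod_cast hn
  have hn0 : (0 : ℝ) < n := by linarith
  have hm := (mh_le n).1
  have he := Real.exp_one_lt_d9
  have ha : ((MM n + 1 : ℕ) : ℝ) ≤ 0.076 * n := by
    have : 1000 * (MM n + 1) ≤ 76 * n := by unfold MM; omega
    have : (1000 : ℝ) * ((MM n + 1 : ℕ) : ℝ) ≤ 76 * n := by exact_mod_cast this
    linarith
  obtain ⟨l, hl'⟩ : ∃ l, Real.log n = l := ⟨_, rfl⟩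
  have hnl : (n : ℝ) = rexp l := by rw [← hl', Real.exp_log hn0]
  rw [thn, hl']
  rw [hl'] at hl
  have hm0 := mh_nonneg n
  have h1 : 990 * (n : ℝ) ^ 3 * (3 * rexp 1) ≤ rexp (3.05 * l) := by
    have h2 : rexp (3.05 * l) = (n : ℝ) ^ 3 * rexp (0.05 * l) := by
      rw [hnl, ← Real.exp_nat_mul, ← Real.exp_add]; congr 1; push_cast; ring
    have h3 := Real.add_one_le_exp (0.05 * l)
    rw [h2]
    nlinarith [pow_pos hn0 3]
  have h2 : rexp (1 + 0.96 * l) ≤ mh n / (π * rexp 1 * l ^ 2) := by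
    have h3 := Real.pow_div_factorial_le_exp (0.04 * l) (by linarith) 3
    have h4 : (n : ℝ) = rexp (0.96 * l) * rexp (0.04 * l) := by
      rw [hnl, ← Real.exp_add]; congr 1; ring
    have h5 : 150 * l ^ 2 ≤ rexp (0.04 * l) := by
      refine le_trans ?_ h3
      norm_num [Nat.factorial]
      nlinarith [sq_nonneg l]
    have h6 : rexp 1 * (π * rexp 1) ≤ 2.72 * (4 * 2.72) := by
      gcongr
      exacts [by linarith, Real.pi_le_four, by linarith]
    have hl0 : 0 < l := by linarith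
    rw [le_div_iff₀ (by positivity), Real.exp_add]
    have h7 := mul_le_mul_of_nonneg_left h5 (Real.exp_pos (0.96 * l)).le
    have h8 := mul_le_mul_of_nonneg_right h6 (by positivity : 0 ≤ rexp (0.96 * l) * l ^ 2)
    have h9 : 0 ≤ rexp (0.96 * l) * l ^ 2 := by positivity
    nlinarith
  have h3 := Real.rpow_le_rpow_of_nonpos (Real.exp_pos _) h2 (neg_nonpos.2 (mh_nonneg n))
  have h4 := pow_le_pow_left₀ (by positivity) h1 (MM n + 1)
  rw [← Real.exp_mul] at h3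
  rw [← Real.exp_nat_mul] at h4
  have h5 : (n : ℝ) ^ 6 = rexp (6 * l) := by rw [hnl, ← Real.exp_nat_mul]; norm_num
  calc _ = (n : ℝ) ^ 6 * rexp (mh n) * (990 * (n : ℝ) ^ 3 * (3 * rexp 1)) ^ (MM n + 1) *
        (mh n / (π * rexp 1 * l ^ 2)) ^ (-mh n) := by
        rw [mul_pow (990 * (n : ℝ) ^ 3)]
        generalize (990 * (n : ℝ) ^ 3) ^ (MM n + 1) = x
        generalize (3 * rexp 1) ^ (MM n + 1) = y
        push_cast
        ring
    _ ≤ rexp (6 * l) * rexp (mh n) * rexp ((MM n + 1 : ℕ) * (3.05 * l)) *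
        rexp ((1 + 0.96 * l) * -mh n) := by rw [h5]; gcongr
    _ ≤ _ := by
      rw [← Real.exp_add, ← Real.exp_add, ← Real.exp_add, Real.exp_le_exp]
      have h6 := mul_le_mul_of_nonneg_right ha (by linarith : 0 ≤ l)
      have h7 := mul_le_mul_of_nonneg_right (by linarith : 0.249 * n ≤ mh n) (by linarith : 0 ≤ l)
      have h8 := mul_le_mul_of_nonneg_right hn' (by linarith : 0 ≤ l)
      have h9 := mul_le_mul_of_nonneg_left hl hn0.le
      linarith

theorem bad_an : ∀ᶠ n : ℕ in atTop, ∀ᶠ ω in 𝓝[>] (0 : ℝ), ∀ p : Zv (n / 2) → ℝ, Wt n ω p →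
    ∑ S ∈ Dl n ω (MM n), ∑ v ∈ (Kp n ω).filter (fun v => v ∉ S ∧ ∃ ξ : Zv (n / 2) → ℤ,
      ω ^ 2 * ‖iv (∑ k ∈ insert v S, ξ k • k)‖ ^ 2 < thn n * ∑ k ∈ insert v S, |(ξ k : ℝ)|),
        (∏ k ∈ S, p k) * Maj n ω v ≤ rexp (-n) := by
  filter_upwards [maj_chain, an_numeric, ev_log 1, eventually_ge_atTop 100] with n h hnum hl hn
  filter_upwards [h (mh n * ((n : ℝ) ^ 5) ^ 2)] with ω ⟨hω, h⟩ p hp
  have hn1 : 1 ≤ n := by omega
  have hn' : (100 : ℝ) ≤ n := by exact_mod_cast hn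
  have htn : 1 ≤ thn n := one_le_pow₀ hl
  have htn0 : 0 < thn n := by linarith
  have hm := (mh_le n).1
  have hm0 : 0 < mh n := by linarith
  have ha : ((MM n + 1 : ℕ) : ℝ) ≤ mh n := by
    have : 10 * (MM n + 1) ≤ n := by unfold MM; omega
    have : (10 : ℝ) * ((MM n + 1 : ℕ) : ℝ) ≤ n := by exact_mod_cast this
    linarith
  have hM : ∀ {j : ℕ} (k : Fin j → Zv (n / 2)), 0 ≤ ∏ i, 3 * Maj n ω (k i) := fun k =>
    Finset.prod_nonneg fun i _ => by have := Maj_pos hn1 hω (k i); positivity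
  rw [← Finset.sum_fiberwise_of_maps_to (t := Finset.range (MM n + 1)) (g := Finset.card)
    fun S hS => Finset.mem_range.2 (Nat.lt_succ_of_le (mem_Dl.1 hS).2.2)]
  refine le_trans ((Finset.sum_le_card_nsmul _ _ (rexp (mh n) * (990 * (n : ℝ) ^ 3) ^ (MM n + 1) *
    ((n ^ 5 : ℕ) * ((mh n / (π * rexp 1 * thn n)) ^ (-mh n) * (3 * rexp 1) ^ (MM n + 1))))
    fun j hj => ?_).trans ?_) hnum
  swap
  · rw [Finset.card_range, nsmul_eq_mul]
    exact mul_le_mul_of_nonneg_right (by linarith [(mh_le n).2]) (by positivity)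
  have hj' : j + 1 ≤ MM n + 1 := Finset.mem_range.1 hj
  rw [Finset.sum_sigma']
  refine sum_le_cover _ _
    (fun b : (Fin (j + 1) → ℤ) × (Fin (j + 1) → Zv (n / 2)) => rexp (mh n) *
      ((∏ i, 3 * Maj n ω (b.2 i)) * rexp (-π * (mh n / (π * thn n * ∑ i, |(b.1 i : ℝ)|)) *
        (ω ^ 2 * ‖∑ i, (b.1 i : ℝ) • iv (b.2 i)‖ ^ 2))))
    (fun b => (0 < ∑ i, |(b.1 i : ℝ)| ∧ ∑ i, |(b.1 i : ℝ)| ≤ (n ^ 5 : ℕ)) ∧ ∀ i, b.2 i ∈ Kp n ω)
    (fun b => ⟨(Finset.univ.image b.2).erase (b.2 0), b.2 0⟩) _ ?_ fun t ht => ?_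
  · rintro ⟨S, v⟩ ha
    simp only [Finset.mem_sigma, Finset.mem_filter] at ha
    obtain ⟨⟨hS, hc⟩, hv, hvS, ξ, hξ⟩ := ha
    have hS1 := (mem_Dl.1 hS).1
    obtain ⟨ξ, h1, h2⟩ := an_reduce (by omega) hl hω (Finset.insert_subset hv hS1) (by
      rw [Finset.card_insert_of_notMem hvS]; unfold MM at hj'; omega) ξ hξ
    obtain ⟨k, rfl, hk, hk'⟩ := exists_enum hvS hc
    have h3 : ∏ i, 3 * Maj n ω (k i) = ∏ x ∈ insert (k 0) S, 3 * Maj n ω x := by
      rw [← hk', Finset.prod_image hk.injOn]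
    rw [iv_comb, ← hk', Finset.sum_image hk.injOn, Finset.sum_image hk.injOn] at h1
    rw [← hk', Finset.sum_image hk.injOn] at h2
    have h4 : 0 < ∑ i, |(ξ (k i) : ℝ)| :=
      (mul_pos_iff_of_pos_left (by linarith)).1 (lt_of_le_of_lt (by positivity) h1)
    refine ⟨⟨fun i => ξ (k i), k⟩, ⟨⟨h4, by exact_mod_cast h2⟩, fun i =>
      Finset.insert_subset hv hS1 (hk' ▸ Finset.mem_image_of_mem k (Finset.mem_univ i))⟩, ?_, ?_⟩
    · simp only [hk', Finset.erase_insert hvS]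
    · have h5 : (∏ x ∈ S, p x) * Maj n ω (k 0) ≤ ∏ i, 3 * Maj n ω (k i) := by
        rw [h3, Finset.prod_insert hvS, mul_comm]
        have := Maj_pos hn1 hω (k 0)
        exact mul_le_mul (by linarith) (Finset.prod_le_prod (fun x hx => hp.nonneg hn1 hω (hS1 hx))
          fun x hx => hp.le_maj x (hS1 hx))
          (Finset.prod_nonneg fun x hx => hp.nonneg hn1 hω (hS1 hx)) (by linarith)
      refine h5.trans ?_
      rw [mul_left_comm, ← Real.exp_add]
      refine le_mul_of_one_le_right (hM k) (Real.one_le_exp ?_)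
      have h6 := mul_le_mul_of_nonneg_left h1.le (by positivity :
        0 ≤ π * (mh n / (π * thn n * ∑ i, |(ξ (k i) : ℝ)|)))
      have h7 : π * (mh n / (π * thn n * ∑ i, |(ξ (k i) : ℝ)|)) *
        (thn n * ∑ i, |(ξ (k i) : ℝ)|) = mh n := by field_simp
      linarith
  · refine (Finset.sum_le_sum_of_subset_of_nonneg (t := t.image Prod.fst ×ˢ
      Fintype.piFinset fun _ => Kp n ω) (fun b hb => Finset.mem_product.2
        ⟨Finset.mem_image_of_mem _ hb, Fintype.mem_piFinset.2 (ht b hb).2⟩)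
      fun b _ _ => by have := hM b.2; positivity).trans ?_
    have hX : ∀ ξ ∈ t.image Prod.fst, 0 < ∑ i, |(ξ i : ℝ)| ∧ ∑ i, |(ξ i : ℝ)| ≤ (n ^ 5 : ℕ) := by
      intro ξ hξ
      obtain ⟨b, hb, rfl⟩ := Finset.mem_image.1 hξ
      exact (ht b hb).1
    refine le_trans ?_ (mul_le_mul_of_nonneg_left (xi_sum hj' (Nat.succ_pos _)
      (G := mh n / (π * rexp 1 * thn n)) (by positivity) ha
      _ hX) (by positivity))
    rw [Finset.sum_product, Finset.mul_sum]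
    refine Finset.sum_le_sum fun ξ hξ => ?_
    obtain ⟨h1, h2⟩ := hX ξ hξ
    simp only [← Finset.mul_sum]
    rw [mul_assoc (rexp (mh n))]
    refine mul_le_mul_of_nonneg_left ((h (Kp n ω) _ ξ (mh n / (π * thn n * ∑ i, |(ξ i : ℝ)|))
      (by positivity) fun i => ?_).trans ?_) (Real.exp_pos _).le
    · have h3 : |(ξ i : ℝ)| ≤ ∑ i, |(ξ i : ℝ)| :=
        Finset.single_le_sum (f := fun i => |(ξ i : ℝ)|) (fun _ _ => abs_nonneg _)
          (Finset.mem_univ i)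
      have h4 : (1 : ℝ) ≤ ∑ i, |(ξ i : ℝ)| := by
        have : (0 : ℤ) < ∑ i, |ξ i| := by exact_mod_cast h1
        exact_mod_cast this
      rw [← sq_abs]
      refine mul_le_mul (div_le_self hm0.le ?_) (pow_le_pow_left₀ (abs_nonneg _)
        (h3.trans (by exact_mod_cast h2)) 2) (by positivity) hm0.le
      exact one_le_mul_of_one_le_of_one_le (one_le_mul_of_one_le_of_one_le
        (by linarith [Real.pi_gt_three]) htn) h4
    · refine mul_le_mul (pow_le_pow_right₀ ?_ hj') (le_of_eq ?_) (by positivity) (by positivity)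
      · nlinarith [one_le_pow₀ (n := 3) (by linarith : (1 : ℝ) ≤ n)]
      · congr 2
        field_simp

theorem bad_prim : ∀ᶠ n : ℕ in atTop, ∀ᶠ ω in 𝓝[>] (0 : ℝ), ∀ S ∈ Dl n ω (MM n),
    ∑ v ∈ (Kp n ω).filter (fun v => iv v ∉ spanS S ∧ 1 / (n : ℝ) ^ 2 ≤ dk ω (spanS S) v ∧
      ∃ η, iv η ∈ spanS (insert v S) ∧ ∀ ξ : Zv (n / 2) → ℤ, η ≠ ∑ k ∈ insert v S, ξ k • k),
        Maj n ω v ≤ 330 * (n : ℝ) ^ 6 * rexp (-0.29 * n) := by
  filter_upwards [maj_gauss, eventually_ge_atTop 100] with n h hn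
  filter_upwards [h (rexp 1 * ((n : ℝ) ^ 3) ^ 2)] with ω ⟨hω, h⟩ S hS
  obtain ⟨hS1, hS2, hS3⟩ := mem_Dl.1 hS
  have hn' : (100 : ℝ) ≤ n := by exact_mod_cast hn
  refine (sum_le_union _ ((Finset.Icc (2 : ℤ) (n ^ 3)).sigma fun q =>
      Fintype.piFinset fun _ : S => Finset.Ico 0 q) _
    (fun b v => ∃ k₀, b.1 • k₀ + ∑ i : S, b.2 i • i.1 = v)
    (fun v _ => (Maj_pos (by omega) hω v).le) fun v hv => ?_).trans ?_
  · obtain ⟨hv, h1, h2, η, h3, h4⟩ := Finset.mem_filter.1 hv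
    have hvS : v ∉ S := fun h => h1 (Submodule.subset_span ⟨v, h, rfl⟩)
    rw [spanS_insert] at h3
    obtain ⟨p, q, hq, ⟨a, b, hab⟩, h5, h6, -⟩ := exists_ratio hω S h1 h3
    obtain ⟨ξ, hξ⟩ := hS2.prim _ h5
    have hq1 : q ≠ 1 := by
      rintro rfl
      refine h4 (fun k => if k = v then p else ξ k) ?_
      rw [Finset.sum_insert hvS, if_pos rfl, Finset.sum_congr rfl fun k hk => by
        rw [if_neg (ne_of_mem_of_not_mem hk hvS)], ← hξ, one_smul, add_sub_cancel]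
    have hq2 : q ≤ n ^ 3 := by
      have h7 := h6.trans ((mem_Kn hω v).1 (Finset.mem_filter.1 hv).1).2
      have h8 := (mul_le_mul_of_nonneg_left h2 (by exact_mod_cast hq.le : (0 : ℝ) ≤ q)).trans h7
      rw [mul_one_div, div_le_iff₀ (by positivity)] at h8
      exact_mod_cast h8.trans_eq (by ring : (n : ℝ) * n ^ 2 = n ^ 3)
    refine ⟨⟨q, fun i => (-b * ξ i) % q⟩, Finset.mem_sigma.2 ⟨Finset.mem_Icc.2 ⟨(by omega : 2 ≤ q), hq2⟩,
      Fintype.mem_piFinset.2 fun i => Finset.mem_Ico.2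
        ⟨Int.emod_nonneg _ hq.ne', Int.emod_lt_of_pos _ hq⟩⟩,
      a • v + b • η + ∑ k ∈ S, (-b * ξ k / q) • k, ?_⟩
    have h7 : ∑ k ∈ S, q • (-b * ξ k / q) • k + ∑ k ∈ S, ((-b * ξ k) % q) • k =
        -b • (q • η - p • v) := by
      rw [hξ, Finset.smul_sum, ← Finset.sum_add_distrib]
      refine Finset.sum_congr rfl fun k _ => ?_
      rw [smul_smul, smul_smul, ← add_smul, Int.mul_ediv_add_emod]
    simp only
    rw [Finset.sum_coe_sort S fun k => ((-b * ξ k) % q) • k, smul_add, Finset.smul_sum, add_assoc,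
      h7]
    linear_combination (exp := 1) hab • v
  rw [Finset.sum_sigma]
  refine (Finset.sum_le_card_nsmul _ _ (330 * (n : ℝ) ^ 3 * rexp (-0.29 * n))
    fun q hq => ?_).trans ?_
  swap
  · rw [nsmul_eq_mul, Int.card_Icc]
    have : (((n : ℤ) ^ 3 + 1 - 2).toNat : ℝ) ≤ (n : ℝ) ^ 3 := by
      have : ((n : ℤ) ^ 3 + 1 - 2).toNat ≤ n ^ 3 := Int.toNat_le.2 (by push_cast; omega)
      exact_mod_cast this
    exact (mul_le_mul_of_nonneg_right this (by positivity)).trans_eq (by ring)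
  obtain ⟨hq1, hq2⟩ := Finset.mem_Icc.1 hq
  have hq1' : (2 : ℝ) ≤ q := by exact_mod_cast hq1
  have hq2' : (q : ℝ) ≤ n ^ 3 := by exact_mod_cast hq2
  refine (Finset.sum_le_card_nsmul _ _ (330 * (n : ℝ) ^ 3 * ((q : ℝ) ^ 2) ^ (-mh n))
    fun γ _ => ?_).trans ?_
  · refine sum_le_cover _ _ (fun k => C0 n ω * rexp (-π * ω ^ 2 * (rexp 1 *
      ‖(q : ℝ) • iv k + iv (∑ i : S, γ i • i.1)‖ ^ 2 + 0 * ‖(0 : ℝ) • iv k + 0‖ ^ 2)))
      (fun _ => True) (fun k₀ => q • k₀ + ∑ i : S, γ i • i.1) _ (fun v hv => ?_) fun t _ => ?_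
    · obtain ⟨k₀, rfl⟩ := (Finset.mem_filter.1 hv).2
      refine ⟨k₀, trivial, rfl, le_of_eq ?_⟩
      rw [Maj_eq, iv_add, iv_zsmul]
      congr 2
      ring
    · refine (h 0 q 0 _ 0 t le_rfl (by positivity) ?_).trans_eq (by simp)
      rw [zero_mul, add_zero]
      gcongr
  · rw [nsmul_eq_mul, Fintype.card_piFinset, Finset.prod_const, Finset.card_univ,
      Fintype.card_coe, Int.card_Ico, sub_zero, mul_left_comm]
    refine mul_le_mul_of_nonneg_left ?_ (by positivity)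
    have h1 : ((q.toNat : ℕ) : ℝ) = q := by exact_mod_cast Int.toNat_of_nonneg (by omega)
    have h2 : (S.card : ℝ) + 2 * -mh n ≤ -0.42 * n := by
      have : 40 * S.card ≤ 3 * n := by unfold MM at hS3; omega
      have : (40 : ℝ) * S.card ≤ 3 * n := by exact_mod_cast this
      linarith [(mh_le n).1]
    rw [Nat.cast_pow, h1, ← Real.rpow_natCast, ← Real.rpow_natCast _ 2,
      ← Real.rpow_mul (by linarith), ← Real.rpow_add (by linarith)]
    refine (Real.rpow_le_rpow_of_exponent_le (by linarith) h2).trans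
      ((Real.rpow_le_rpow_of_nonpos two_pos hq1' (by linarith)).trans ?_)
    rw [Real.rpow_def_of_pos two_pos, Real.exp_le_exp]
    nlinarith [Real.log_two_gt_d9]

/-- a nice set and one more independent vector that destroys niceness -/
theorem sum_bad_le : ∀ᶠ n : ℕ in atTop, ∀ᶠ ω in 𝓝[>] (0 : ℝ), ∀ p : Zv (n / 2) → ℝ, Wt n ω p →
    ∑ S ∈ Dl n ω (MM n),
      ∑ v ∈ (Kp n ω).filter (fun v => iv v ∉ spanS S ∧ ¬ Nice n ω (insert v S)),
        (∏ k ∈ S, p k) * (Maj n ω v * (1 + 1 / dk ω (spanS S) v) ^ 4) ≤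
      rexp (TT n / 2 - 0.25 * n) := by
  filter_upwards [bad_an, bad_prim, tail_le, nice_adm, C0_le, eventually_ge_atTop 1,
    En_pow_le 20000 14 (by norm_num : (0 : ℝ) < 0.04)] with n h1 h2 h3 h4 h5 hn hE
  filter_upwards [h1, h2, h3, self_mem_nhdsWithin] with ω h1 h2 h3 hω p hp
  have hω : 0 < ω := hω
  have hn' : (1 : ℝ) ≤ n := by exact_mod_cast hn
  have hP : ∀ S ∈ Dl n ω (MM n), 0 ≤ ∏ k ∈ S, p k := fun S hS =>
    Finset.prod_nonneg fun k hk => hp.nonneg hn hω ((mem_Dl.1 hS).1 hk)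
  have h6 := add_le_add (mul_le_mul_of_nonneg_right (sum_Dl_le hn hω hp (MM n)) (by positivity :
    0 ≤ 165 * (n : ℝ) ^ 3 * rexp (mh n) * (1 * rexp (-20 * n)) +
      16 * (n : ℝ) ^ 8 * (330 * (n : ℝ) ^ 6 * rexp (-0.29 * n))))
    (mul_le_mul_of_nonneg_left (h1 p hp) (by positivity : 0 ≤ 16 * (n : ℝ) ^ 8))
  refine le_trans ?_ (h6.trans ?_)
  · rw [Finset.sum_mul, Finset.mul_sum, ← Finset.sum_add_distrib]
    refine Finset.sum_le_sum fun S hS => ?_
    have h7 := add_le_add (mul_le_mul_of_nonneg_left (h3 _ _ 0 (by norm_num)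
      (h4 ω hω 0 (by norm_num) S hS).1) (by positivity : 0 ≤ 165 * (n : ℝ) ^ 3 * rexp (mh n)))
      (mul_le_mul_of_nonneg_left (h2 S hS) (by positivity : 0 ≤ 16 * (n : ℝ) ^ 8))
    refine le_trans ?_ (add_le_add (mul_le_mul_of_nonneg_left h7 (hP S hS)) le_rfl)
    have h8 : ∑ k ∈ (Kp n ω).filter (fun k => iv k ∉ spanS S ∧ dk ω (spanS S) k < 1 / (n : ℝ) ^ 2),
        (1 + 1 / dk ω (spanS S) k) ^ 4 ≤ ∑ k ∈ (Kn n ω).filter
        (fun k => iv k ∉ spanS S ∧ dk ω (spanS S) k < 1 / (n : ℝ) ^ 2),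
        (1 + 1 / dk ω (spanS S) k) ^ 4 := Finset.sum_le_sum_of_subset_of_nonneg
      (Finset.filter_subset_filter _ (Finset.filter_subset _ _)) fun _ _ _ => by positivity
    refine le_trans ?_ (add_le_add (mul_le_mul_of_nonneg_left (add_le_add (mul_le_mul_of_nonneg_left
      (mul_le_mul_of_nonneg_left h8 (by positivity)) (by positivity)) le_rfl) (hP S hS)) le_rfl)
    simp only [← Finset.mul_sum]
    rw [mul_left_comm (16 * (n : ℝ) ^ 8) (∏ k ∈ S, p k), ← mul_add]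
    refine mul_le_mul_of_nonneg_left ?_ (hP S hS)
    rw [Finset.mul_sum, Finset.mul_sum, Finset.mul_sum, Finset.mul_sum]
    simp only [Finset.sum_filter, ← Finset.sum_add_distrib]
    refine Finset.sum_le_sum fun v hv => ?_
    have hM := Maj_pos hn hω v
    have e1 : ∀ (P : Prop) [Decidable P] (x : ℝ), 0 ≤ x → 0 ≤ if P then x else 0 :=
      fun P _ x hx => by split_ifs; exacts [hx, le_rfl]
    by_cases hb : iv v ∉ spanS S ∧ ¬Nice n ω (insert v S)
    swap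
    · rw [if_neg hb]
      exact add_nonneg (add_nonneg (e1 _ _ (by positivity)) (e1 _ _ (by positivity)))
        (e1 _ _ (by positivity))
    rw [if_pos hb]
    by_cases hd : dk ω (spanS S) v < 1 / (n : ℝ) ^ 2
    · rw [if_pos ⟨hb.1, hd⟩]
      refine le_add_of_le_of_nonneg (le_add_of_le_of_nonneg ?_
        (e1 _ _ (by positivity))) (e1 _ _ (by positivity))
      rw [← mul_assoc]
      refine mul_le_mul_of_nonneg_right (le_trans ?_ ((h5 ω hω).trans_eq (mul_comm _ _)))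
        (by positivity)
      have h9 : 0 ≤ C0 n ω := by unfold C0; positivity
      refine mul_le_of_le_one_right h9 (Real.exp_le_one_iff.2 ?_)
      have : 0 ≤ π * rexp 1 * (ω ^ 2 * ‖iv v‖ ^ 2) := by positivity
      linarith
    rw [if_neg fun h => hd h.2, zero_add]
    push Not at hd
    have h9 : Maj n ω v * (1 + 1 / dk ω (spanS S) v) ^ 4 ≤ 16 * (n : ℝ) ^ 8 * Maj n ω v := by
      have h10 := dk_pos hω S hb.1
      have h11 : 1 / dk ω (spanS S) v ≤ (n : ℝ) ^ 2 := (one_div_le (by positivity) h10).1 hd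
      have h12 : 1 + 1 / dk ω (spanS S) v ≤ 2 * (n : ℝ) ^ 2 := by
        linarith [one_le_pow₀ (n := 2) hn']
      rw [mul_comm]
      exact mul_le_mul_of_nonneg_right ((pow_le_pow_left₀ (by positivity) h12 4).trans_eq
        (by ring)) hM.le
    refine h9.trans ?_
    by_cases ha : ∃ ξ : Zv (n / 2) → ℤ, ω ^ 2 * ‖iv (∑ k ∈ insert v S, ξ k • k)‖ ^ 2 <
        thn n * ∑ k ∈ insert v S, |(ξ k : ℝ)|
    · rw [if_pos (show v ∉ S ∧ _ from ⟨fun h => hb.1 (Submodule.subset_span ⟨v, h, rfl⟩), ha⟩)]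
      exact le_add_of_nonneg_left (e1 _ _ (by positivity))
    · rw [if_pos]
      · exact le_add_of_nonneg_right (e1 _ _ (by positivity))
      · refine ⟨hb.1, hd, ?_⟩
        by_contra! h10
        push Not at ha
        exact hb.2 ⟨ha, h10⟩
  · have h7 : rexp (mh n) * rexp (-20 * n) ≤ rexp (-0.29 * n) := by
      rw [← Real.exp_add, Real.exp_le_exp]
      linarith [(mh_le n).2]
    have h8 : rexp (-n) ≤ rexp (TT n / 2) * rexp (-0.29 * n) := by
      rw [← Real.exp_add, Real.exp_le_exp, TT]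
      linarith
    have h9 : (n : ℝ) ^ 3 ≤ n ^ 14 := pow_le_pow_right₀ hn' (by norm_num)
    have h10 : (n : ℝ) ^ 8 ≤ n ^ 14 := pow_le_pow_right₀ hn' (by norm_num)
    have h11 : rexp 1 ≤ 3 := Real.exp_one_lt_d9.le.trans (by norm_num)
    have h12 : 20000 * (n : ℝ) ^ 14 ≤ rexp (0.04 * n) :=
      (le_mul_of_one_le_right (by positivity) (one_le_pow₀ (one_le_En n))).trans hE
    rw [Real.exp_add, show TT n / 2 - 0.25 * n = TT n / 2 + (-0.29 * n) + 0.04 * n by ring,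
      Real.exp_add, Real.exp_add]
    calc _ = rexp (TT n / 2) * rexp 1 * (165 * (n : ℝ) ^ 3 * (rexp (mh n) * rexp (-20 * n)) +
          5280 * (n : ℝ) ^ 14 * rexp (-0.29 * n)) + 16 * (n : ℝ) ^ 8 * rexp (-n) := by ring
      _ ≤ rexp (TT n / 2) * 3 * (165 * (n : ℝ) ^ 14 * rexp (-0.29 * n) +
          5280 * (n : ℝ) ^ 14 * rexp (-0.29 * n)) +
          16 * (n : ℝ) ^ 14 * (rexp (TT n / 2) * rexp (-0.29 * n)) := by gcongr
      _ = rexp (TT n / 2) * rexp (-0.29 * n) * (16351 * (n : ℝ) ^ 14) := by ring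
      _ ≤ _ := mul_le_mul_of_nonneg_left (by linarith [pow_nonneg (Nat.cast_nonneg n : (0 : ℝ) ≤ n) 14])
          (by positivity)

end Pool.Agent.Eps
end
end

-- part Pool.Agent.Lib.MP_3bda03_nt.TupleA
section

set_option autoImplicit false

noncomputable section

open scoped BigOperators Classical Topology
open MeasureTheory Real Complex Filter

namespace Pool.Agent.Eps

variable {m r : ℕ}

lemma tup_e : 2.7182818283 < rexp 1 ∧ rexp 1 < 2.7182818286 := ⟨exp_one_gt_d9, exp_one_lt_d9⟩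

lemma tup_exp_two_mul {x : ℝ} (h0 : 0 ≤ x) (h1 : x < 1) : rexp (2 * x) ≤ (1 / (1 - x)) ^ 2 := by
  rw [show (2 : ℝ) = (2 : ℕ) by norm_num, Real.exp_nat_mul]
  exact pow_le_pow_left₀ (exp_pos _).le (exp_bound_div_one_sub_of_interval h0 h1) 2

lemma tup_rpow_le {Y c t : ℝ} (h : rexp c ≤ Y) (ht : 0 ≤ t) : Y ^ (-t) ≤ rexp (-(c * t)) := by
  rw [← mul_neg, Real.exp_mul]
  exact rpow_le_rpow_of_nonpos (exp_pos _) h (by linarith)

lemma tup_mh (n : ℕ) : 0 ≤ mh n := by unfold mh; positivity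

lemma tup_poly (C : ℝ) (j : ℕ) {ε : ℝ} (hε : 0 < ε) :
    ∀ᶠ n : ℕ in atTop, ∀ i l : ℕ, i ≤ j → l ≤ j → C * (n : ℝ) ^ i * En n ^ l ≤ rexp (ε * n) := by
  filter_upwards [En_pow_le |C| j hε, eventually_ge_atTop 1] with n h hn i l hi hl
  have h1 : (1 : ℝ) ≤ n := by exact_mod_cast hn
  have h2 := one_le_En n
  refine le_trans ?_ h
  gcongr
  exact le_abs_self C

lemma tup_hasSum {ω : ℝ} {z : ℂ} (hω : 0 < ω) (hz : 0 < z.re) (k : Zv m) {F : Xs m → ℂ}
    (hF : Measurable F) (h1 : ∀ x, ‖F x‖ ≤ 1) :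
    HasSum (fun η => Cp r ω z k η * ∫ x, F x * ch η k x ∂PP m) (∫ x, F x * Fz r ω z k x ∂PP m) := by
  have hb : ∀ η x, ‖Cp r ω z k η * (F x * ch η k x)‖ ≤ ‖Cp r ω z k η‖ := fun η x => by
    rw [norm_mul, norm_mul, norm_ch, mul_one]
    exact mul_le_of_le_one_right (norm_nonneg _) (h1 x)
  have hi : ∀ η, Integrable (fun x => Cp r ω z k η * (F x * ch η k x)) (PP m) := fun η =>
    .of_bound ((hF.mul (continuous_ch η k).measurable).const_mul _).aestronglyMeasurable _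
      (.of_forall (hb η))
  have h := hasSum_integral_of_summable_integral_norm hi
    (.of_nonneg_of_le (fun _ => integral_nonneg fun _ => norm_nonneg _) (fun η => by
      simpa using integral_mono (hi η).norm (integrable_const _) (hb η))
      ((summable_Cp hω hz).prod_factor k))
  simp only [integral_const_mul] at h
  rwa [show (fun x => F x * Fz r ω z k x) = fun x => ∑' η, Cp r ω z k η * (F x * ch η k x) from
    funext fun x => by
      rw [Fz_eq_tsum hω hz, ← tsum_mul_left]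
      exact tsum_congr fun η => by ring]

lemma tup_fubini {ω τ : ℝ} (hω : 0 < ω) (hτ : 0 < τ) {φ : ℝ → ℝ} {g : ℝ → ℂ} (hg : Integrable g)
    (hφ : ∀ ρ : ℝ, (φ ρ : ℂ) = ∫ y, g y * cexp (-(π : ℂ) * (τ + y * I) * ρ)) (k : Zv m)
    {F : Xs m → ℂ} (hF : Measurable F) (h1 : ∀ x, ‖F x‖ ≤ 1) :
    Integrable (fun y : ℝ => g y * ∫ x, F x * Fz r ω (τ + y * I) k x ∂PP m) ∧
      ∫ x, F x * FS r ω φ k x ∂PP m = ∫ y : ℝ, g y * ∫ x, F x * Fz r ω (τ + y * I) k x ∂PP m := by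
  have hζ : Measurable fun y : ℝ => (τ + y * I : ℂ) := by fun_prop
  have hi : Integrable (Function.uncurry fun (x : Xs m) (y : ℝ) =>
      g y * (F x * Fz r ω (τ + y * I) k x)) ((PP m).prod volume) := by
    refine ((integrable_const (rexp (-π * τ * (ω ^ 2 * ‖iv k‖ ^ 2)) * ((1 + 1 / √τ) ^ r *
      (1 + ω / √τ) ^ m))).mul_prod hg.norm).mono' (hg.1.comp_snd.mul
      ((hF.comp measurable_fst).mul ((measurable_Fz₂ ω k).comp ((hζ.comp measurable_snd).prodMk
        measurable_fst))).aestronglyMeasurable) (.of_forall fun p => ?_)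
    rw [Function.uncurry, norm_mul, norm_mul, mul_comm]
    refine mul_le_mul_of_nonneg_right ((mul_le_of_le_one_left (norm_nonneg _) (h1 _)).trans
      ((norm_Fz_le hω (by simpa using hτ) _ _).trans ?_)) (norm_nonneg _)
    simpa using FS_ft_le hω hτ p.1 k
  refine ⟨by simpa only [Function.uncurry, integral_const_mul] using hi.integral_prod_right, ?_⟩
  simp only [← integral_const_mul]
  rw [← integral_integral_swap hi]
  refine integral_congr_ae (.of_forall fun x => ?_)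
  simp only
  rw [(FS_mix hω hτ hζ (by simp) hg (fun ρ _ => hφ ρ) k x).2, ← integral_const_mul]
  exact integral_congr_ae (.of_forall fun y => by ring)

/-- averages of the hole weight of one fibre against a bounded function -/
lemma tup_avg {n : ℕ} (hn : 40 ≤ n) {ω : ℝ} (hω : 0 < ω) (k : Zv (n / 2)) {F : Xs (n / 2) → ℂ}
    (hF : Measurable F) (h1 : ∀ x, ‖F x‖ ≤ 1) (P : Zv (n / 2) → Prop) [DecidablePred P] {B s : ℝ}
    (hB : 0 ≤ B)
    (ha : ∀ η, ‖∫ x, F x * ch η k x ∂PP (n / 2)‖ ≤ if P η then B else 0)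
    (hs : ∀ Y : ℝ, 1 ≤ Y → Y ^ (-mh n) * ∑' η, (if P η then rexp (-π * (1 / (rexp 1 * Y ^ 2)) *
      (ω ^ 2 * ‖iv η‖ ^ 2)) else 0) ≤ s) :
    ‖∫ x, F x * AA n ω k x ∂PP (n / 2)‖ ≤ B * (Maj n ω k * s) := by
  have he := tup_e
  have h0 := exp_pos 1
  obtain ⟨g, -, g1, g2, g3⟩ := mix_ramp hn (rho1 n) (τ := rexp 1) (by linarith) (by linarith)
  have hs0 : 0 ≤ s := le_trans (mul_nonneg (by positivity)
    (tsum_nonneg fun η => by split_ifs <;> positivity)) (hs 1 le_rfl)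
  set K := 2 * (ω * rexp (-1 / 2)) ^ (n / 2) * rexp (-π * rexp 1 * (ω ^ 2 * ‖iv k‖ ^ 2)) with hK
  have key : ∀ y : ℝ, ‖∫ x, F x * Fz (n % 2) ω (rexp 1 + y * I) k x ∂PP (n / 2)‖ ≤ B * K * s := by
    intro y
    set z : ℂ := rexp 1 + y * I with hz
    have h2 : z.re = rexp 1 := by simp [hz, -ofReal_exp]
    have h3 : rexp 1 ≤ ‖z‖ := h2 ▸ re_le_norm z
    obtain ⟨Y, hY, h4⟩ : ∃ Y, 1 ≤ Y ∧ ‖z‖ = rexp 1 * Y :=
      ⟨‖z‖ / rexp 1, (one_le_div h0).mpr h3, by field_simp⟩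
    have h5 := (tup_hasSum (r := n % 2) hω (h2 ▸ h0) k hF h1).norm_le_of_bounded
      ((summable_th hω (β := 1 / (rexp 1 * Y ^ 2)) (by positivity) P).hasSum.mul_left
        (B * K * Y ^ (-mh n))) fun η => ?_
    · rw [mul_assoc] at h5
      exact h5.trans (mul_le_mul_of_nonneg_left (hs Y hY) (by positivity))
    · have h6 := ha η
      have h7 := norm_Cp_le (r := n % 2) hω (h2 ▸ h0) k η
      rw [norm_mul]
      split_ifs at h6 ⊢ with h8
      · refine (mul_le_mul h7 h6 (norm_nonneg _) (by positivity)).trans ?_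
        have a1 : (1 + 1 / √z.re) ^ (n % 2) ≤ 2 := by
          have : 1 / √z.re ≤ 1 := by
            rw [div_le_one (sqrt_pos.mpr (h2 ▸ h0)), h2]
            exact one_le_sqrt.mpr (by linarith)
          rcases Nat.mod_two_eq_zero_or_one n with h | h <;> rw [h] <;> linarith
        have a2 : ‖z‖ ^ (-((n / 2 : ℕ) : ℝ) / 2) = rexp (-1 / 2) ^ (n / 2) * Y ^ (-mh n) := by
          rw [h4, mul_rpow h0.le (by linarith), exp_one_rpow, ← Real.exp_nat_mul, mh, neg_div]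
          congr 2; ring
        have a3 : z.re / ‖z‖ ^ 2 = 1 / (rexp 1 * Y ^ 2) := by rw [h2, h4]; field_simp
        rw [a2, a3, h2] at *
        calc _ ≤ 2 * (ω ^ (n / 2) * (rexp (-1 / 2) ^ (n / 2) * Y ^ (-mh n))) *
              (rexp (-π * rexp 1 * (ω ^ 2 * ‖iv k‖ ^ 2)) *
                rexp (-π * (1 / (rexp 1 * Y ^ 2)) * (ω ^ 2 * ‖iv η‖ ^ 2))) * B := by gcongr
          _ = _ := by rw [hK, mul_pow]; ring
      · rw [norm_le_zero_iff.mp h6]; simp
  refine (congrArg norm (tup_fubini (r := n % 2) hω h0 g1 g3 k hF h1).2).trans_le ?_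
  refine (norm_integral_le_of_norm_le (g1.norm.mul_const (B * K * s)) (.of_forall fun y => by
    rw [norm_mul]; exact mul_le_mul_of_nonneg_left (key y) (norm_nonneg _))).trans ?_
  rw [integral_mul_const]
  calc _ ≤ 3 * n * rexp (π * rexp 1 * rho1 n) * (B * K * s) := by gcongr
    _ = 6 / 100 * (B * (Maj n ω k * s)) := by rw [hK, Maj]; ring
    _ ≤ _ := mul_le_of_le_one_left (by have := Maj_pos (by omega) hω k; positivity) (by norm_num)

/-- the bound for the surviving characters -/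
def tupSb (n : ℕ) (ω : ℝ) (S : Finset (Zv (n / 2))) : ℝ :=
  th0 ω (spanS S) (1 / rexp 1) + rexp (-0.05 * n)

lemma tupSb_nonneg (n : ℕ) (ω : ℝ) (S : Finset (Zv (n / 2))) : 0 ≤ tupSb n ω S :=
  add_nonneg (th0_nonneg _ _ _) (exp_pos _).le

lemma tup_spanS_mono {S S' : Finset (Zv m)} (h : S' ⊆ S) : spanS S' ≤ spanS S :=
  Submodule.span_mono (Set.image_mono h)

lemma tupSb_mono {n : ℕ} {ω : ℝ} (hω : 0 < ω) {S S' : Finset (Zv (n / 2))} (h : S' ⊆ S) :
    tupSb n ω S' ≤ tupSb n ω S :=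
  add_le_add_left (th_anti hω (by positivity) le_rfl (tup_spanS_mono h)).2 _

lemma tup_s_le : ∀ᶠ n : ℕ in atTop, ∀ ω : ℝ, 0 < ω → ∀ S ∈ Dl n ω (MM n + 1),
    tupSb n ω S ≤ 1 / (n : ℝ) ^ 4 ∧ ∀ Y : ℝ, 1 ≤ Y →
      Y ^ (-mh n) * th0 ω (spanS S) (1 / (rexp 1 * Y ^ 2)) ≤ tupSb n ω S := by
  filter_upwards [nice_adm, grow 4 2, tup_poly 2 4 (ε := 0.05) (by norm_num),
    tup_poly (rexp 1) 2 (ε := 0.02) (by norm_num), eventually_ge_atTop 5]
    with n a1 a2 a3 a4 hn ω hω S hS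
  obtain ⟨b1, -, b2⟩ := a1 ω hω 1 le_rfl S hS
  have he := tup_e
  have h0 := exp_pos 1
  have hn' : (5 : ℝ) ≤ n := by exact_mod_cast hn
  have h1 := (mh_le n).1
  have b3 : ∀ β, 1 / 100 ≤ β → th0 ω (spanS S) β ≤ 1 / (n : ℝ) ^ 6 := fun β h =>
    (th_anti hω (by norm_num) h le_rfl).2.trans b2
  refine ⟨?_, fun Y hY => ?_⟩
  · have c1 := b3 (1 / rexp 1) (one_div_le_one_div_of_le h0 (by linarith))
    have c2 : rexp (-0.05 * n) ≤ 1 / (2 * (n : ℝ) ^ 4) := by
      rw [neg_mul, Real.exp_neg, one_div]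
      exact inv_anti₀ (by positivity) (by simpa using a3 4 0 le_rfl (by norm_num))
    have c3 : 1 / (n : ℝ) ^ 6 ≤ 1 / (2 * (n : ℝ) ^ 4) :=
      one_div_le_one_div_of_le (by positivity) (by
        have : (2 : ℝ) ≤ n ^ 2 := by nlinarith
        nlinarith [pow_pos (show (0 : ℝ) < n by linarith) 4])
    have c4 : 1 / (n : ℝ) ^ 4 = 1 / (2 * (n : ℝ) ^ 4) + 1 / (2 * (n : ℝ) ^ 4) := by
      field_simp; norm_num
    rw [tupSb]; linarith
  have hY0 : 0 < Y := by linarith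
  by_cases h : Y ≤ 1.4
  · have c1 : th0 ω (spanS S) (1 / (2 * rexp 1)) ≤ 1 :=
      (b3 _ (one_div_le_one_div_of_le (by positivity) (by linarith))).trans
        ((div_le_one (by positivity)).mpr (one_le_pow₀ (by linarith)))
    have c2 : Y ^ (-mh n) ≤ rexp (-((1 - 1 / Y ^ 2) / 2 * mh n)) := by
      refine tup_rpow_le ((le_log_iff_exp_le hY0).mp ?_) (tup_mh n)
      have := Real.log_le_sub_one_of_pos (show 0 < 1 / Y ^ 2 by positivity)
      rw [one_div, Real.log_inv, Real.log_pow] at this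
      rw [one_div]; push_cast at this; linarith
    have c3 : 1 / 2 ≤ 1 / Y ^ 2 := one_div_le_one_div_of_le (by positivity) (by nlinarith)
    have c4 : 1 / Y ^ 2 ≤ 1 := (div_le_one (by positivity)).mpr (by nlinarith)
    have s1 := summable_th hω (β := 1 / rexp 1) (by positivity) fun κ => iv κ ∈ spanS S ∧ κ ≠ 0
    have s2 := summable_th hω (β := 1 / (2 * rexp 1)) (by positivity)
      fun κ => iv κ ∈ spanS S ∧ κ ≠ 0
    refine le_trans ?_ (add_le_add_right (mul_le_of_le_one_right (exp_pos _).le c1) _)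
    rw [th0, th0, th0, ← tsum_mul_left, ← tsum_mul_left, ← s1.tsum_add (s2.mul_left _)]
    refine ((summable_th hω (by positivity) _).mul_left _).tsum_le_tsum (fun κ => ?_)
      (s1.add (s2.mul_left _))
    split_ifs
    · refine (mul_le_mul_of_nonneg_right c2 (exp_pos _).le).trans ?_
      rw [← Real.exp_add, ← Real.exp_add]
      have c5 : ∀ c : ℝ, -π * (1 / (rexp 1 * c)) * (ω ^ 2 * ‖iv κ‖ ^ 2) =
          -(1 / c * (π * (1 / rexp 1) * (ω ^ 2 * ‖iv κ‖ ^ 2))) := fun c => by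
        rw [one_div, mul_inv]; ring
      rw [mul_comm 2, c5, c5, neg_mul, neg_mul]
      generalize π * (1 / rexp 1) * (ω ^ 2 * ‖iv κ‖ ^ 2) = X
      by_cases h5 : X ≤ mh n / 2
      · exact le_add_of_le_of_nonneg (Real.exp_le_exp.mpr (by nlinarith)) (exp_pos _).le
      · exact le_add_of_nonneg_of_le (exp_pos _).le (Real.exp_le_exp.mpr (by nlinarith))
    · simp
  · have hl : 0 < Real.log n := Real.log_pos (by linarith)
    have c1 := b1.th_le (1 / (rexp 1 * Y ^ 2)) (by positivity)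
    rw [th_eq hω (by positivity), Env, one_mul] at c1
    have c2 : max 1 (4 ^ 1 / (1 / (rexp 1 * Y ^ 2) * Real.log n)) ≤
        max 1 (4 * Y / √(Real.log n)) ^ 2 := by
      refine max_le (one_le_pow₀ (le_max_left _ _)) (le_trans ?_
        (pow_le_pow_left₀ (by positivity) (le_max_right _ _) 2))
      rw [div_pow, sq_sqrt hl.le, div_le_div_iff₀ (by positivity) hl]
      field_simp
      linarith
    have c3 := a2 1.4 Y (by norm_num) (by norm_num) (not_le.mp h).le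
    have c4 : (1.4 : ℝ) ^ (-mh n) ≤ rexp (-(0.28 * mh n)) :=
      tup_rpow_le ((exp_bound_div_one_sub_of_interval (by norm_num) (by norm_num)).trans
        (by norm_num)) (tup_mh n)
    have c5 := a4 0 2 (by norm_num) le_rfl
    refine le_add_of_nonneg_of_le (th0_nonneg _ _ _) ?_
    calc _ ≤ Y ^ (-mh n) * (En n ^ 2 * max 1 (4 * Y / √(Real.log n)) ^ (2 * MM n + 20)) := by
          gcongr
          refine (le_add_of_nonneg_left zero_le_one).trans (c1.trans ?_)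
          have := one_le_En n
          gcongr
          refine (pow_le_pow_left₀ (by positivity) c2 _).trans ?_
          rw [← pow_mul]
          exact pow_le_pow_right₀ (le_max_left _ _) (by omega)
      _ ≤ En n ^ 2 * rexp (-(0.28 * mh n)) := by
          rw [mul_left_comm]
          exact mul_le_mul_of_nonneg_left (c3.trans c4) (by positivity)
      _ ≤ rexp (0.02 * n) / rexp 1 * rexp (-(0.28 * mh n)) := by
          gcongr
          rw [le_div_iff₀ h0]; linarith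
      _ ≤ _ := by
          rw [← Real.exp_sub, ← Real.exp_add]
          exact Real.exp_le_exp.mpr (by linarith)

end Pool.Agent.Eps
end
end

-- part Pool.Agent.Lib.MP_3bda03_nt.TupleB
section

set_option autoImplicit false

noncomputable section

open scoped BigOperators Classical Topology
open MeasureTheory Real Complex Filter

namespace Pool.Agent.Eps

variable {m r : ℕ} {W : Submodule ℝ (Ev m)} {H : Xs m → ℝ}

lemma tup_ch_le (h : InvW W H) (η k η' k' : Zv m) :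
    ‖∫ x, (H x : ℂ) * ch η k x * ch η' k' x ∂PP m‖ ≤ ∫ x, H x ∂PP m := by
  simpa only [ch_zero, mul_one, mul_assoc] using norm_avg_le h η k η' k' 0 0

lemma tup_ch_zero (h : InvW W H) {η k : Zv m} (hk : iv k ∉ W) (hη : iv η ∉ ext W k) :
    ∫ x, (H x : ℂ) * ch η k x ∂PP m = 0 := by
  simpa only [ch_zero, mul_one] using avg_eq_zero h fun hs => hη (surv_one hk hs)

lemma tup_span_one (k : Zv m) : spanS {k} = ext (spanS ∅) k := spanS_insert ∅ k

lemma tup_mem_span {S : Finset (Zv m)} {k : Zv m} (h : k ∈ S) : iv k ∈ spanS S :=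
  Submodule.subset_span ⟨k, h, rfl⟩

lemma tup_norm_le (h : InvW W H) (η k : Zv m) (x : Xs m) : ‖(H x : ℂ) * ch η k x‖ ≤ 1 := by
  rw [norm_mul, norm_ch, mul_one, norm_real, Real.norm_of_nonneg (h.nonneg x)]
  exact h.le_one x

lemma tup_meas (h : InvW W H) (η k : Zv m) : Measurable fun x => (H x : ℂ) * ch η k x :=
  (measurable_ofReal.comp h.meas).mul (continuous_ch η k).measurable

lemma tup_mean (h : InvW W H) : 0 ≤ ∫ x, H x ∂PP m ∧ ∫ x, H x ∂PP m ≤ 1 :=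
  ⟨integral_nonneg h.nonneg, by simpa using integral_mono h.integrable (integrable_const 1) h.le_one⟩

/-- the facts about `n` and `ω` used in the conditioning steps -/
structure TupOK (n : ℕ) (ω : ℝ) : Prop where
  hn : 40 ≤ n
  pos : 0 < ω
  aa : ∀ (W : Submodule ℝ (Ev (n / 2))) (k : Zv (n / 2)), iv k ∈ W → InvW W (AA n ω k)
  as : ∀ S : Finset (Zv (n / 2)), InvW (spanS S) (AS n ω S)
  sb : ∀ S ∈ Dl n ω (MM n + 1), tupSb n ω S ≤ 1 / (n : ℝ) ^ 4 ∧ ∀ Y : ℝ, 1 ≤ Y →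
      Y ^ (-mh n) * th0 ω (spanS S) (1 / (rexp 1 * Y ^ 2)) ≤ tupSb n ω S

lemma tup_ok : ∀ᶠ n : ℕ in atTop, ∀ᶠ ω in 𝓝[>] (0 : ℝ), TupOK n ω := by
  filter_upwards [AA_inv, tup_s_le, eventually_ge_atTop 40] with n h1 h2 h3
  filter_upwards [h1, self_mem_nhdsWithin] with ω h4 h5
  exact ⟨h3, h5, h4.1, h4.2, h2 ω h5⟩

lemma tup_mem_Dl {n M : ℕ} {ω : ℝ} {S : Finset (Zv (n / 2))} :
    S ∈ Dl n ω M ↔ S ⊆ Kp n ω ∧ Nice n ω S ∧ S.card ≤ M := by simp [Dl]

namespace TupOK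

variable {n : ℕ} {ω : ℝ} (h : TupOK n ω)
include h

lemma one_le : (1 : ℝ) ≤ n := by exact_mod_cast le_trans (by norm_num) h.hn

lemma maj (k : Zv (n / 2)) : 0 < Maj n ω k := Maj_pos (le_trans (by norm_num) h.hn) h.pos k

lemma mu1_mem (k : Zv (n / 2)) : 0 ≤ mu1 n ω k ∧ mu1 n ω k ≤ 1 := tup_mean (h.aa ⊤ k trivial)

lemma maj_le (k : Zv (n / 2)) : Maj n ω k ≤ (n : ℝ) ^ 4 * pp n ω k := by
  have := h.one_le
  have := (h.mu1_mem k).1
  rw [← div_le_iff₀' (by positivity), pp]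
  split_ifs <;> linarith

lemma pp_pos (k : Zv (n / 2)) : 0 < pp n ω k := by
  have := h.one_le
  exact pos_of_mul_pos_right ((h.maj k).trans_le (h.maj_le k)) (by positivity)

lemma down {M : ℕ} {S S' : Finset (Zv (n / 2))} (hS : S ∈ Dl n ω M) (h' : S' ⊆ S) :
    S' ∈ Dl n ω M := ((Dl_down (le_trans (by norm_num) h.hn) M).2 S hS).2 S' h'

lemma notMem {M : ℕ} {S S' : Finset (Zv (n / 2))} (hS : S ∈ Dl n ω M) (h' : S' ⊆ S)
    {k : Zv (n / 2)} (hk : k ∈ S) (hk' : k ∉ S') : iv k ∉ spanS S' :=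
  (tup_mem_Dl.mp hS).2.1.notMem_span (le_trans (by norm_num) h.hn) h' hk hk'

lemma mu1_le {k : Zv (n / 2)} (hk : {k} ∈ Dl n ω (MM n + 1)) : mu1 n ω k ≤ 2 * Maj n ω k := by
  have h1 := tup_avg h.hn h.pos k (F := fun _ => 1) measurable_const (by simp)
    (fun η => iv η ∈ spanS {k}) (B := 1) (s := 2) zero_le_one (fun η => ?_) fun Y hY => ?_
  · simp only [one_mul, integral_complex_ofReal, norm_real] at h1
    exact (le_abs_self _).trans (h1.trans_eq (mul_comm _ _))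
  · split_ifs with h2
    · simpa [ch_zero] using tup_ch_le (InvW.one ⊤) η k 0 0
    · rw [tup_span_one] at h2
      simpa using tup_ch_zero (InvW.one _) (h.notMem hk (by simp) (by simp) (by simp)) h2
  · have h2 := h.sb _ hk
    have h3 : Y ^ (-mh n) ≤ 1 := rpow_le_one_of_one_le_of_nonpos hY (by linarith [tup_mh n])
    have h4 : 1 / (n : ℝ) ^ 4 ≤ 1 :=
      (div_le_one (by have := h.one_le; positivity)).mpr (one_le_pow₀ h.one_le)
    have h5 := th_eq h.pos (β := 1 / (rexp 1 * Y ^ 2)) (by positivity) (spanS {k})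
    rw [th] at h5
    rw [h5, mul_add]
    linarith [h2.1, h2.2 Y hY]

lemma step {S : Finset (Zv (n / 2))} {i : Zv (n / 2)} (hi : i ∉ S)
    (hS : insert i S ∈ Dl n ω (MM n + 1)) {B : ℝ} (hB : 0 ≤ B)
    (hb : ∀ η, iv η ∈ spanS (insert i S) → iv η ∉ spanS {i} →
      ‖∫ x, (AS n ω S x : ℂ) * ch η i x ∂PP (n / 2)‖ ≤ B) :
    |∫ x, AS n ω (insert i S) x ∂PP (n / 2) - mu1 n ω i * ∫ x, AS n ω S x ∂PP (n / 2)| ≤
      B * (Maj n ω i * tupSb n ω (insert i S)) := by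
  have hA := h.as S
  obtain ⟨e0, e1⟩ := tup_mean hA
  set E := ∫ x, AS n ω S x ∂PP (n / 2) with hE
  have h1 := tup_avg h.hn h.pos i (F := fun x => ((AS n ω S x - E : ℝ) : ℂ))
    (measurable_ofReal.comp (hA.meas.sub_const E)) (fun x => by
      rw [norm_real, Real.norm_eq_abs, abs_le]
      constructor <;> linarith [hA.nonneg x, hA.le_one x])
    (fun η => iv η ∈ spanS (insert i S) ∧ η ≠ 0) hB (fun η => ?_) (h.sb _ hS).2
  · simp only [← ofReal_mul, integral_complex_ofReal, norm_real, sub_mul, Real.norm_eq_abs] at h1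
    rw [integral_sub ((hA.mono le_top).mul (h.aa ⊤ i trivial)).integrable
      ((h.aa ⊤ i trivial).integrable.const_mul E), integral_const_mul] at h1
    simpa only [AS, Finset.prod_insert hi, mul_comm, mu1] using h1
  · have h2 : ∫ x, ((AS n ω S x - E : ℝ) : ℂ) * ch η i x ∂PP (n / 2) =
        ∫ x, (AS n ω S x : ℂ) * ch η i x ∂PP (n / 2) - E * ∫ x, ch η i x ∂PP (n / 2) := by
      simp only [ofReal_sub, sub_mul]
      rw [integral_sub (.of_bound (tup_meas hA η i).aestronglyMeasurable 1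
        (.of_forall (tup_norm_le hA η i))) (.const_mul (.of_bound
          (continuous_ch η i).aestronglyMeasurable 1 (.of_forall fun x => (norm_ch η i x).le)) _),
        integral_const_mul]
    rw [h2]
    by_cases h3 : iv η ∈ spanS {i}
    · simp only [ch_eq_one (k := i) (η := η) (by simpa [spanS] using h3), mul_one,
        integral_complex_ofReal, ← hE]
      split_ifs <;> simp [hB]
    · have h4 := tup_ch_zero (InvW.one _) (h.notMem hS (S' := ∅) (by simp) (by simp) (by simp))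
        (tup_span_one i ▸ h3)
      simp only [ofReal_one, one_mul] at h4
      rw [h4, mul_zero, sub_zero]
      split_ifs with h5
      · exact hb η h5.1 h3
      · rw [tup_ch_zero hA (h.notMem hS (Finset.subset_insert _ _) (by simp) hi), norm_zero]
        rw [← spanS_insert]
        exact fun h6 => h5 ⟨h6, fun h7 => h3 (by rw [h7, iv_zero]; exact zero_mem _)⟩

lemma mu1_le_pp {M : ℕ} {S : Finset (Zv (n / 2))} (hS : S ∈ Dl n ω M) {i : Zv (n / 2)}
    (hi : i ∈ S) : mu1 n ω i + Maj n ω i / (n : ℝ) ^ 4 = pp n ω i := by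
  rw [pp, if_pos (tup_mem_Dl.mp (h.down hS (Finset.singleton_subset_iff.mpr hi))).2.1]

lemma EAS (S : Finset (Zv (n / 2))) (hS : S ∈ Dl n ω (MM n + 1)) :
    ∫ x, AS n ω S x ∂PP (n / 2) ≤ ∏ k ∈ S, pp n ω k := by
  induction S using Finset.induction_on with
  | empty => simp [AS]
  | insert i S hi ih =>
    have h0 := (tup_mean (h.as S)).1
    have h1 := h.step hi hS h0 fun η _ _ => by
      simpa [ch_zero] using tup_ch_le (h.as S) η i 0 0
    have h2 := mul_le_mul_of_nonneg_left (mul_le_mul_of_nonneg_left (h.sb _ hS).1 (h.maj i).le) h0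
    rw [Finset.prod_insert hi]
    refine le_trans ?_ (mul_le_mul_of_nonneg_left (ih (h.down hS (Finset.subset_insert _ _)))
      (h.pp_pos i).le)
    rw [← h.mu1_le_pp hS (Finset.mem_insert_self _ _)]
    have := (abs_le.mp h1).2
    rw [mul_one_div] at h2
    linarith

lemma second {S : Finset (Zv (n / 2))} {i : Zv (n / 2)} (hi : i ∉ S)
    (hS : insert i S ∈ Dl n ω (MM n + 1)) (η : Zv (n / 2)) (h1 : iv η ∈ spanS (insert i S))
    (h2 : iv η ∉ spanS {i}) : ‖∫ x, (AS n ω S x : ℂ) * ch η i x ∂PP (n / 2)‖ ≤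
      (n : ℝ) ^ 4 * tupSb n ω (insert i S) * ∏ k ∈ S, pp n ω k := by
  obtain ⟨ξ, hξ⟩ := (tup_mem_Dl.mp hS).2.1.prim η h1
  obtain ⟨j, hj, h3⟩ : ∃ j ∈ S, ξ j ≠ 0 := by
    by_contra hc
    push Not at hc
    rw [hξ, Finset.sum_insert hi, Finset.sum_eq_zero fun k hk => by rw [hc k hk, zero_smul],
      add_zero, iv_zsmul] at h2
    exact h2 (Submodule.smul_mem _ _ (tup_mem_span (by simp)))
  obtain ⟨S', hj', rfl⟩ : ∃ S', j ∉ S' ∧ S = insert j S' :=
    ⟨S.erase j, by simp, (Finset.insert_erase hj).symm⟩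
  have hij : i ≠ j := fun e => hi (by simp [e])
  have hA := h.as S'
  have a1 : iv j ∉ spanS S' := h.notMem hS (by grind) (by simp) hj'
  have a2 : iv i ∉ ext (spanS S') j := by
    rw [← spanS_insert]; exact h.notMem hS (by grind) (by simp) hi
  have a3 : iv η ∉ ext (spanS S') i := fun h4 => by
    rw [← spanS_insert] at h4
    refine h.notMem hS (S' := insert i S') (by grind) (k := j) (by simp) (by grind) ?_
    rw [hξ, Finset.insert_comm, Finset.sum_insert (by grind), iv_add, iv_zsmul, iv_sum,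
      Submodule.add_mem_iff_left _ (Submodule.sum_mem _ fun k hk => by
        rw [iv_zsmul]; exact Submodule.smul_mem _ _ (tup_mem_span hk))] at h4
    exact (Submodule.smul_mem_iff _ (by exact_mod_cast h3)).mp h4
  have h4 := tup_avg h.hn h.pos j (tup_meas hA η i) (tup_norm_le hA η i)
    (fun η => iv η ∈ spanS (insert i (insert j S')) ∧ η ≠ 0) (tup_mean hA).1 (fun η' => ?_)
    (h.sb _ hS).2
  · have h5 := h.EAS S' (h.down hS (by grind))
    have h6 := h.maj_le j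
    have h7 := tupSb_nonneg n ω (insert i (insert j S'))
    have h8 := (h.maj j).le
    have h9 := (tup_mean hA).1
    rw [Finset.prod_insert hj']
    calc _ = _ := by
          refine congrArg norm (integral_congr_ae (.of_forall fun x => ?_))
          simp only [AS, Finset.prod_insert hj', ofReal_mul]
          ring
      _ ≤ _ := h4
      _ ≤ (∏ k ∈ S', pp n ω k) * ((n : ℝ) ^ 4 * pp n ω j * tupSb n ω (insert i (insert j S'))) := by
          gcongr
          exact h9.trans h5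
      _ = _ := by ring
  · split_ifs with h5
    · exact tup_ch_le hA _ _ _ _
    · have h6 := avg_eq_zero hA (η₁ := η') (k₁ := j) (η₂ := η) (k₂ := i) (η₃ := 0) (k₃ := 0)
        fun hs => ?_
      · simp only [ch_zero, mul_one] at h6
        simp only [mul_assoc, mul_comm (ch η i _), h6, norm_zero, le_refl]
      obtain ⟨a, b, c, b1, b2⟩ := surv_indep a1 a2 hs
      refine h5 ⟨?_, fun h7 => a3 ?_⟩
      · have := add_mem (add_mem (tup_spanS_mono (S := insert i (insert j S')) (by grind) b1)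
          (Submodule.smul_mem _ b (tup_mem_span (k := i) (by simp))))
          (Submodule.smul_mem _ a (tup_mem_span (k := j) (by simp)))
        simpa using this
      · have hb : b = 0 := by
          by_contra hb
          have := add_mem ((le_ext _ j).1 b1) (Submodule.smul_mem _ a (le_ext _ j).2)
          rw [h7, iv_zero] at this
          refine a2 ((Submodule.smul_mem_iff _ hb).mp (neg_mem_iff.mp ?_))
          convert this using 1
          abel
        simpa [hb] using add_mem ((le_ext _ i).1 b2) (Submodule.smul_mem _ c (le_ext _ i).2)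

lemma sub_le {S₀ : Finset (Zv (n / 2))} (h₀ : S₀ ∈ Dl n ω (MM n + 1)) (S : Finset (Zv (n / 2)))
    (hS : S ⊆ S₀) : |∫ x, AS n ω S x ∂PP (n / 2) - ∏ k ∈ S, mu1 n ω k| ≤
      S.card * ((n : ℝ) ^ 8 * tupSb n ω S₀ ^ 2 * ∏ k ∈ S, pp n ω k) := by
  induction S using Finset.induction_on with
  | empty => simp [AS]
  | insert i S hi ih =>
    have h1 := h.down h₀ hS
    have h2 := tupSb_nonneg n ω (insert i S)
    have h3 := tupSb_mono h.pos hS
    have h4 : 0 ≤ ∏ k ∈ S, pp n ω k := Finset.prod_nonneg fun k _ => (h.pp_pos k).le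
    have h5 := h.step hi h1 (by positivity) (h.second hi h1)
    have h6 := ih ((Finset.subset_insert _ _).trans hS)
    have h7 := h.mu1_mem i
    have h8 := h.maj_le i
    have h9 := (h.maj i).le
    have h10 : mu1 n ω i ≤ pp n ω i := by
      rw [← h.mu1_le_pp h1 (Finset.mem_insert_self _ _)]
      exact le_add_of_nonneg_right (by positivity)
    rw [Finset.prod_insert hi, Finset.prod_insert hi, Finset.card_insert_of_notMem hi]
    refine (abs_sub_le _ (mu1 n ω i * ∫ x, AS n ω S x ∂PP (n / 2)) _).trans ?_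
    rw [← mul_sub, abs_mul, abs_of_nonneg h7.1]
    calc _ ≤ (n : ℝ) ^ 4 * tupSb n ω S₀ * (∏ k ∈ S, pp n ω k) * ((n : ℝ) ^ 4 * pp n ω i *
          tupSb n ω S₀) + pp n ω i * (S.card * ((n : ℝ) ^ 8 * tupSb n ω S₀ ^ 2 *
            ∏ k ∈ S, pp n ω k)) := by
          refine add_le_add (h5.trans ?_) (mul_le_mul h10 h6 (abs_nonneg _) (h.pp_pos i).le)
          have := h2.trans h3
          have := h9.trans h8
          gcongr
      _ = _ := by push_cast; ring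

end TupOK

end Pool.Agent.Eps
end
end
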